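import Pool.Agent.R587.Ifc

/-!
# A definable well-ordering and codes, from the interface
-/

set_option autoImplicit false

namespace Pool.Agent.R587

open Pool.Agent.W868 hiding Models
open ZFSet (pair)
open Cardinal

/-! ### Collapsing functions -/

/-- `f` is a collapsing function of the relation `R` on `D`. -/
def Dcf (M : Set ZFSet.{0}) (R : ZFSet.{0} → ZFSet.{0} → Prop) (D f : ZFSet.{0}) : Prop :=
  (∀ ξ ∈ D, ∃ y ∈ M, pair ξ y ∈ f) ∧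
  ∀ ξ ∈ D, ∀ y ∈ M, pair ξ y ∈ f → ∀ z ∈ M, (z ∈ y ↔ ∃ η ∈ D, pair η z ∈ f ∧ R η ξ)

theorem Dcf.uniq {M : Set ZFSet.{0}} (hM : ∀ x ∈ M, ∀ y ∈ x, y ∈ M)
    {R : ZFSet.{0} → ZFSet.{0} → Prop} {D f f' : ZFSet.{0}} (h : Dcf M R D f)
    (h' : Dcf M R D f') {y : ZFSet.{0}} : ∀ ξ ∈ D, ∀ y', y ∈ M → y' ∈ M → pair ξ y ∈ f →
      pair ξ y' ∈ f' → y = y' := by
  induction y using ZFSet.inductionOn with
  | _ y ih =>
  intro ξ hξ y' hy hy' h1 h2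
  ext z
  constructor
  · intro hz
    have hzM := hM y hy z hz
    obtain ⟨η, hη, h3, h4⟩ := (h.2 ξ hξ y hy h1 z hzM).1 hz
    obtain ⟨z', hz', h5⟩ := h'.1 η hη
    have h6 := ih z hz η hη z' hzM hz' h3 h5
    subst h6
    exact (h'.2 ξ hξ y' hy' h2 z hzM).2 ⟨η, hη, h5, h4⟩
  · intro hz
    have hzM := hM y' hy' z hz
    obtain ⟨η, hη, h3, h4⟩ := (h'.2 ξ hξ y' hy' h2 z hzM).1 hz
    obtain ⟨z', hz', h5⟩ := h.1 η hη
    have h7 := (h.2 ξ hξ y hy h1 z' hz').2 ⟨η, hη, h5, h4⟩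
    have h6 := ih z' h7 η hη z hz' hzM h5 h3
    exact h6 ▸ h7

variable {c : Cardinal.{0}} {M : Set ZFSet.{0}}

theorem Full.dcf' (hM : Full c M) {R : ZFSet.{0} → ZFSet.{0} → ZFSet.{0} → Prop}
    (hR : Dfn ∅ M fun v : Fin 3 → ZFSet.{0} => R (v 0) (v 1) (v 2)) {n : ℕ}
    {F G H : (Fin n → ZFSet.{0}) → ZFSet.{0}} (hF : DfnF ∅ M F) (hG : DfnF ∅ M G)
    (hH : DfnF ∅ M H) : Dfn ∅ M fun v => Dcf M (R (F v)) (G v) (H v) := by
  have hB := hM.base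
  refine Dfn.comp3 (Q := fun p D f => Dcf M (R p) D f) ?_ hF hG hH
  unfold Dcf
  apply Dfn.and
  · apply hB.ball (DfnF.proj 1)
    apply Dfn.ex
    exact Dfn.mem (hB.pair' (DfnF.proj 1) (DfnF.proj 0)) (DfnF.proj 4)
  · apply hB.ball (DfnF.proj 1)
    apply Dfn.all
    apply Dfn.imp
    · exact Dfn.mem (hB.pair' (DfnF.proj 1) (DfnF.proj 0)) (DfnF.proj 4)
    · apply Dfn.all
      apply Dfn.iff
      · exact Dfn.mem (DfnF.proj 0) (DfnF.proj 1)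
      · apply hB.bex (DfnF.proj 4)
        apply Dfn.and
        · exact Dfn.mem (hB.pair' (DfnF.proj 0) (DfnF.proj 1)) (DfnF.proj 6)
        · exact Dfn.comp3 (Q := R) hR (DfnF.proj 4) (DfnF.proj 0) (DfnF.proj 3)

/-! ### The cardinal is definable -/

theorem kap_mem (hc : ℵ₀ ≤ c) : kap c ∈ HH c :=
  hh_of_trans (full_HH hc) (fun _ hy _ hz => ord_kap.mem_trans hz hy) card_kap.le

theorem card_lt_of_mem_kap {z : ZFSet.{0}} (hz : z ∈ kap c) : z.card < c := by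
  obtain ⟨a, ha, rfl⟩ := Ordinal.mem_toZFSet_iff.1 hz
  rw [Ordinal.card_toZFSet]
  exact Cardinal.lt_ord.1 ha

theorem kapA' (hc : ℵ₀ ≤ c) {n : ℕ} : DfnF ∅ (HH c) fun _ : Fin n → ZFSet.{0} => kap c := by
  have hM := full_HH hc
  have hB := hM.base
  refine dfnF_of_const (kap_mem hc) ?_
  have key : ∀ y ∈ HH c, ((∀ x ∈ HH c, ∃ f ∈ HH c, Ij x y f) ↔ c ≤ y.card) := by
    intro y hy
    constructor
    · intro h
      obtain ⟨f, -, hf⟩ := h _ (kap_mem hc)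
      have := card_le_of_ij hf
      rwa [card_kap] at this
    · intro h x hx
      obtain ⟨f, hf, hf'⟩ := exists_ij ((hM.card hx).trans h)
      exact ⟨f, hM.sub (hM.prod_mem hx hy) hf', hf⟩
  have hI : ∀ {m : ℕ} {F : (Fin m → ZFSet.{0}) → ZFSet.{0}}, DfnF ∅ (HH c) F →
      Dfn ∅ (HH c) fun v => ∀ x ∈ HH c, ∃ f ∈ HH c, Ij x (F v) f := by
    intro m F hF
    apply Dfn.all
    apply Dfn.ex
    exact Dfn.comp3 (Q := Ij) (d0_ij.dfn hB.trans) (DfnF.proj 1) hF.tail.tail (DfnF.proj 0)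
  have h1 : Dfn ∅ (HH c) fun v : Fin 1 → ZFSet.{0} => (v 0).IsOrdinal ∧
      (∀ x ∈ HH c, ∃ f ∈ HH c, Ij x (v 0) f) ∧
      ∀ z ∈ v 0, ¬ ∀ x ∈ HH c, ∃ f ∈ HH c, Ij x z f := by
    apply Dfn.and (hB.isOrdinal' (DfnF.proj 0))
    apply Dfn.and (hI (DfnF.proj 0))
    apply hB.ball (DfnF.proj 0)
    exact (hI (DfnF.proj 0)).not
  refine h1.congr fun v hv => ?_
  constructor
  · rintro ⟨h2, h3, h4⟩
    rw [key _ (hv 0)] at h3
    rcases h2.mem_trichotomous ord_kap with h5 | h5 | h5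
    · exact absurd h3 (not_le.2 (card_lt_of_mem_kap h5))
    · exact h5
    · refine absurd ?_ (h4 _ h5)
      rw [key _ (kap_mem hc), card_kap]
  · intro h2
    rw [h2]
    refine ⟨ord_kap, ?_, fun z hz => ?_⟩
    · rw [key _ (kap_mem hc), card_kap]
    · rw [key _ (hM.trans (kap_mem hc) hz)]
      exact not_le.2 (card_lt_of_mem_kap hz)

/-! ### The codes -/

/-- The subsets of `κ × κ`. -/
def Sb (c : Cardinal.{0}) (X : ZFSet.{0}) : Prop := X ⊆ ZFSet.prod (kap c) (kap c)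

theorem Sb.mem (hc : ℵ₀ ≤ c) {X : ZFSet.{0}} (h : Sb c X) : X ∈ HH c :=
  (full_HH hc).sub ((full_HH hc).prod_mem (kap_mem hc) (kap_mem hc)) h

theorem sb' (hc : ℵ₀ ≤ c) {n : ℕ} {F : (Fin n → ZFSet.{0}) → ZFSet.{0}}
    (hF : DfnF ∅ (HH c) F) : Dfn ∅ (HH c) fun v => Sb c (F v) :=
  (full_HH hc).base.subset' hF ((full_HH hc).prod' (kapA' hc) (kapA' hc))

/-- The relation coded by `E`. -/
def RlA (E η ξ : ZFSet.{0}) : Prop := pair η ξ ∈ E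

/-- The set `E` is a code of `x`. -/
def Dc (c : Cardinal.{0}) (E x : ZFSet.{0}) : Prop :=
  ∃ f ∈ HH c, Dcf (HH c) (RlA E) (kap c) f ∧ pair ∅ x ∈ f

theorem dc' (hc : ℵ₀ ≤ c) {n : ℕ} {F G : (Fin n → ZFSet.{0}) → ZFSet.{0}}
    (hF : DfnF ∅ (HH c) F) (hG : DfnF ∅ (HH c) G) : Dfn ∅ (HH c) fun v => Dc c (F v) (G v) := by
  have hM := full_HH hc
  have hB := hM.base
  unfold Dc
  apply Dfn.ex
  apply Dfn.and
  · refine hM.dcf' (R := RlA) ?_ hF.tail (kapA' hc) (DfnF.proj 0)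
    exact Dfn.mem (hB.pair' (DfnF.proj 1) (DfnF.proj 2)) (DfnF.proj 0)
  · exact Dfn.mem (hB.pair' hM.empty' hG.tail) (DfnF.proj 0)

theorem empty_mem_kap (hc : ℵ₀ ≤ c) : ∅ ∈ kap c :=
  omega_sub_kap hc ZFSet.omega_zero

theorem Dc.uniq (hc : ℵ₀ ≤ c) {E x y : ZFSet.{0}} (hx : x ∈ HH c) (hy : y ∈ HH c)
    (h : Dc c E x) (h' : Dc c E y) : x = y := by
  obtain ⟨f, -, h1, h2⟩ := h
  obtain ⟨f', -, h1', h2'⟩ := h'
  exact h1.uniq (full_HH hc).base.trans h1' ∅ (empty_mem_kap hc) y hx hy h2 h2'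

open Classical in
/-- Every set in the class has a code. -/
theorem exists_dc (hc : ℵ₀ ≤ c) {x : ZFSet.{0}} (hx : x ∈ HH c) : ∃ E, Sb c E ∧ Dc c E x := by
  have hM := full_HH hc
  obtain ⟨T, h1, h2, h3⟩ := exists_tc hM hx
  obtain ⟨g, hg⟩ := exists_ij (x := T) (D := kap c) (by rwa [card_kap])
  obtain ⟨⟨h4, h5⟩, -⟩ := hg
  choose! G hG hG' using h4
  set G' : ZFSet.{0} → ZFSet.{0} := fun y => Equiv.swap ∅ (G x) (G y) with hGd
  have h0 := empty_mem_kap hc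
  have hG1 : ∀ y ∈ T, G' y ∈ kap c := by
    intro y hy
    by_cases h6 : G y = ∅
    · rw [hGd]
      simp only [h6, Equiv.swap_apply_left]
      exact hG x h1
    · by_cases h7 : G y = G x
      · rw [hGd]
        simp only [h7, Equiv.swap_apply_right]
        exact h0
      · rw [hGd]
        simp only
        rw [Equiv.swap_apply_of_ne_of_ne h6 h7]
        exact hG y hy
  have hG2 : ∀ y ∈ T, ∀ z ∈ T, G' y = G' z → y = z := by
    intro y hy z hz h6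
    have h7 : G y = G z := (Equiv.swap ∅ (G x)).injective h6
    exact h5 y hy z hz _ (hG y hy) (hG' y hy) (h7 ▸ hG' z hz)
  have hG3 : G' x = ∅ := by
    rw [hGd]
    simp
  set s : ZFSet.{0} → ZFSet.{0} := fun ξ => if h : ∃ y ∈ T, G' y = ξ then h.choose else x with hs
  have hs1 : ∀ y ∈ T, s (G' y) = y := by
    intro y hy
    have h6 : ∃ z ∈ T, G' z = G' y := ⟨y, hy, rfl⟩
    rw [hs]
    simp only
    rw [dif_pos h6]
    exact hG2 _ h6.choose_spec.1 y hy h6.choose_spec.2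
  have hs2 : ∀ ξ, s ξ ∈ T := by
    intro ξ
    rw [hs]
    simp only
    split
    · rename_i h6
      exact h6.choose_spec.1
    · exact h1
  have hs3 : s ∅ = x := by
    rw [← hG3]
    exact hs1 x h1
  have hTM : T ∈ HH c := hh_of_trans hM h2 h3
  refine ⟨ZFSet.sep (fun p => ∃ η ξ, p = pair η ξ ∧ s η ∈ s ξ) (ZFSet.prod (kap c) (kap c)),
    fun p hp => (ZFSet.mem_sep.1 hp).1, gr s (kap c), ?_, ⟨fun ξ hξ => ?_, ?_⟩, ?_⟩
  · exact hM.im_mem (kap_mem hc) fun p hp => hM.pair_mem (hM.trans (kap_mem hc) hp)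
      (hM.trans hTM (hs2 p))
  · exact ⟨s ξ, hM.trans hTM (hs2 ξ), pair_mem_gr.2 ⟨hξ, rfl⟩⟩
  · intro ξ hξ y hy h6 z hz
    obtain ⟨-, rfl⟩ := pair_mem_gr.1 h6
    constructor
    · intro h7
      have h8 : z ∈ T := h2 _ (hs2 ξ) z h7
      refine ⟨G' z, hG1 z h8, pair_mem_gr.2 ⟨hG1 z h8, (hs1 z h8).symm⟩, ?_⟩
      refine ZFSet.mem_sep.2 ⟨ZFSet.pair_mem_prod.2 ⟨hG1 z h8, hξ⟩, _, _, rfl, ?_⟩
      rw [hs1 z h8]
      exact h7
    · rintro ⟨η, hη, h7, h8⟩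
      obtain ⟨-, rfl⟩ := pair_mem_gr.1 h7
      obtain ⟨-, η', ξ', h9, h10⟩ := ZFSet.mem_sep.1 h8
      obtain ⟨rfl, rfl⟩ := ZFSet.pair_inj.1 h9
      exact h10
  · exact pair_mem_gr.2 ⟨h0, hs3.symm⟩

/-! ### The order -/

/-- The order of the subsets of `κ × κ`. -/
def LL (U : ZFSet.{0}) (c : Cardinal.{0}) (X Y : ZFSet.{0}) : Prop :=
  Sb c X ∧ Sb c Y ∧ ltW Set.univ U X Y

variable {U : ZFSet.{0}}

namespace Ifc

theorem asymm (h : Ifc U c) {x y : ZFSet.{0}} (h1 : ltW Set.univ U x y)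
    (h2 : ltW Set.univ U y x) : False := by
  obtain ⟨z, h3, h4⟩ := h.wf (fun z => z = x ∨ z = y) ⟨x, Or.inl rfl⟩
  rcases h3 with rfl | rfl
  · exact h4 y (Or.inr rfl) h2
  · exact h4 x (Or.inl rfl) h1

theorem trans (h : Ifc U c) {x y z : ZFSet.{0}} (h1 : ltW Set.univ U x y)
    (h2 : ltW Set.univ U y z) : ltW Set.univ U x z := by
  rcases h.tri x z with h3 | rfl | h3
  · exact h3
  · exact (h.asymm h1 h2).elim
  · obtain ⟨w, h4, h5⟩ := h.wf (fun w => w = x ∨ w = y ∨ w = z) ⟨x, Or.inl rfl⟩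
    rcases h4 with rfl | rfl | rfl
    · exact (h5 _ (Or.inr (Or.inr rfl)) h3).elim
    · exact (h5 _ (Or.inl rfl) h1).elim
    · exact (h5 _ (Or.inr (Or.inl rfl)) h2).elim

theorem ll_trans (h : Ifc U c) {x y z : ZFSet.{0}} (h1 : LL U c x y) (h2 : LL U c y z) :
    LL U c x z := ⟨h1.1, h2.2.1, h.trans h1.2.2 h2.2.2⟩

theorem ll_asymm (h : Ifc U c) {x y : ZFSet.{0}} (h1 : LL U c x y) (h2 : LL U c y x) : False :=
  h.asymm h1.2.2 h2.2.2

theorem ll_tri (h : Ifc U c) {x y : ZFSet.{0}} (hx : Sb c x) (hy : Sb c y) :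
    LL U c x y ∨ x = y ∨ LL U c y x := by
  rcases h.tri x y with h1 | h1 | h1
  · exact Or.inl ⟨hx, hy, h1⟩
  · exact Or.inr (Or.inl h1)
  · exact Or.inr (Or.inr ⟨hy, hx, h1⟩)

theorem ll_min (h : Ifc U c) {P : ZFSet.{0} → Prop} (hP : ∃ x, Sb c x ∧ P x) :
    ∃ x, Sb c x ∧ P x ∧ ∀ y, Sb c y → P y → x = y ∨ LL U c x y := by
  obtain ⟨x, ⟨h1, h2⟩, h3⟩ := h.wf (fun x => Sb c x ∧ P x) hP
  refine ⟨x, h1, h2, fun y hy hPy => ?_⟩
  rcases h.ll_tri h1 hy with h4 | h4 | h4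
  · exact Or.inr h4
  · exact Or.inl h4
  · exact absurd h4.2.2 (h3 y ⟨hy, hPy⟩)

theorem ll_iff (h : Ifc U c) {X Y : ZFSet.{0}} : LL U c X Y ↔ Sb c X ∧ Sb c Y ∧
    ∃ Q ∈ HH c, ∃ W ∈ HH c, Good c Q W ∧ kap c ∈ (ZFSet.sUnion W : ZFSet.{0}) ∧ X ∈ Q ∧ Y ∈ Q ∧
      ltW {z | z ∈ Q} W X Y := by
  constructor
  · rintro ⟨h1, h2, h3⟩
    refine ⟨h1, h2, ?_⟩
    have hM := full_HH h.inf
    obtain ⟨Q, W, h4, h5, h6⟩ := h.ex (pair X Y) (hM.pair_mem (h1.mem h.inf) (h2.mem h.inf))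
      (kap c) (kap_mem h.inf) ord_kap
    have hQt := h4.pm.base.trans
    have h7 : ({X, Y} : ZFSet.{0}) ∈ Q := hQt _ h5 _ (by simp [ZFSet.pair])
    have hX : X ∈ Q := hQt _ h7 _ (by simp)
    have hY : Y ∈ Q := hQt _ h7 _ (by simp)
    exact ⟨Q, h4.mem, W, hM.trans h4.mem h4.pm.mem, h4, h6, hX, hY,
      (h.lt_iff h4 _ h6 X hX Y hY h1 h2).2 h3⟩
  · rintro ⟨h1, h2, Q, -, W, -, h4, h6, hX, hY, h3⟩
    exact ⟨h1, h2, (h.lt_iff h4 _ h6 X hX Y hY h1 h2).1 h3⟩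

theorem ll' (h : Ifc U c) {n : ℕ} {F G : (Fin n → ZFSet.{0}) → ZFSet.{0}}
    (hF : DfnF ∅ (HH c) F) (hG : DfnF ∅ (HH c) G) :
    Dfn ∅ (HH c) fun v => LL U c (F v) (G v) := by
  have hM := full_HH h.inf
  have hB := hM.base
  refine Dfn.comp2 (Q := LL U c) ?_ hF hG
  have h1 : Dfn ∅ (HH c) fun v : Fin 2 → ZFSet.{0} => Sb c (v 0) ∧ Sb c (v 1) ∧
      ∃ Q ∈ HH c, ∃ W ∈ HH c, Good c Q W ∧ kap c ∈ (ZFSet.sUnion W : ZFSet.{0}) ∧ v 0 ∈ Q ∧
        v 1 ∈ Q ∧ ltW {z | z ∈ Q} W (v 0) (v 1) := by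
    apply Dfn.and (sb' h.inf (DfnF.proj 0))
    apply Dfn.and (sb' h.inf (DfnF.proj 1))
    apply Dfn.ex
    apply Dfn.ex
    apply Dfn.and (Dfn.comp2 (Q := Good c) h.good' (DfnF.proj 1) (DfnF.proj 0))
    apply Dfn.and (Dfn.mem (kapA' h.inf) (hB.sUnion' (DfnF.proj 0)))
    apply Dfn.and (Dfn.mem (DfnF.proj 2) (DfnF.proj 1))
    apply Dfn.and (Dfn.mem (DfnF.proj 3) (DfnF.proj 1))
    exact Dfn.comp4 (Q := fun a b c d => ltW {z | z ∈ a} b c d) h.lt' (DfnF.proj 1)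
      (DfnF.proj 0) (DfnF.proj 2) (DfnF.proj 3)
  exact h1.congr fun v _ => h.ll_iff.symm

/-! ### Order types -/

/-- The predecessors. -/
noncomputable def prU (U : ZFSet.{0}) (c : Cardinal.{0}) (E : ZFSet.{0}) : ZFSet.{0} :=
  ZFSet.sep (fun X => LL U c X E) (ZFSet.powerset (ZFSet.prod (kap c) (kap c)))

theorem mem_prU {E X : ZFSet.{0}} : X ∈ prU U c E ↔ LL U c X E := by
  rw [prU, ZFSet.mem_sep]
  exact and_iff_right_of_imp fun h => ZFSet.mem_powerset.2 h.1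

theorem prU_mem (h : Ifc U c) (E : ZFSet.{0}) : prU U c E ∈ HH c := by
  have hM := full_HH h.inf
  by_cases hE : Sb c E
  · obtain ⟨Q, W, h4, h5, h6⟩ := h.ex E (hE.mem h.inf) (kap c) (kap_mem h.inf) ord_kap
    refine hM.sub h4.mem fun X hX => ?_
    obtain ⟨h1, -, h2⟩ := mem_prU.1 hX
    exact h.lt_mem h4 _ h6 E h5 hE X h1 h2
  · refine hM.sub hM.empty_mem fun X hX => ?_
    exact absurd (mem_prU.1 hX).2.1 hE

theorem prU_wf (h : Ifc U c) : WellFounded fun u z => u ∈ prU U c z := by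
  rw [WellFounded.wellFounded_iff_has_min]
  intro s hs
  obtain ⟨x, h1, h2⟩ := h.wf (fun x => x ∈ s) hs
  exact ⟨x, h1, fun y hy h3 => h2 y hy (mem_prU.1 h3).2.2⟩

/-- The order type of the predecessors. -/
noncomputable def ot (h : Ifc U c) : ZFSet.{0} → ZFSet.{0} :=
  wfF (prU U c) h.prU_wf fun _ g => im sn g

theorem ot_eq (h : Ifc U c) (E : ZFSet.{0}) : h.ot E = im sn (gr h.ot (prU U c E)) :=
  wfF_eq _ _ _ _

theorem mem_ot (h : Ifc U c) {E y : ZFSet.{0}} :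
    y ∈ h.ot E ↔ ∃ X, LL U c X E ∧ y = h.ot X := by
  rw [h.ot_eq, mem_im]
  constructor
  · rintro ⟨p, hp, rfl⟩
    obtain ⟨X, hX, rfl⟩ := mem_gr.1 hp
    exact ⟨X, mem_prU.1 hX, by rw [sn_pair]⟩
  · rintro ⟨X, hX, rfl⟩
    exact ⟨_, mem_gr.2 ⟨X, mem_prU.2 hX, rfl⟩, by rw [sn_pair]⟩

theorem ot_mem (h : Ifc U c) (E : ZFSet.{0}) : h.ot E ∈ HH c := by
  have hM := full_HH h.inf
  induction E using h.prU_wf.induction with
  | _ E ih =>
  have h1 : h.ot E = im h.ot (prU U c E) := by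
    ext y
    rw [h.mem_ot, mem_im]
    simp only [mem_prU]
  rw [h1]
  exact hM.im_mem (h.prU_mem E) fun X hX => ih X hX

theorem ot_ord (h : Ifc U c) (E : ZFSet.{0}) : (h.ot E).IsOrdinal := by
  induction E using h.prU_wf.induction with
  | _ E ih =>
  rw [ZFSet.isOrdinal_iff_forall_mem_isOrdinal]
  constructor
  · intro y hy z hz
    obtain ⟨X, hX, rfl⟩ := h.mem_ot.1 hy
    obtain ⟨Y, hY, rfl⟩ := h.mem_ot.1 hz
    exact h.mem_ot.2 ⟨Y, h.ll_trans hY hX, rfl⟩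
  · intro y hy
    obtain ⟨X, hX, rfl⟩ := h.mem_ot.1 hy
    exact ih X (mem_prU.2 hX)

theorem ot_inj (h : Ifc U c) {E E' : ZFSet.{0}} (hE : Sb c E) (hE' : Sb c E')
    (h1 : h.ot E = h.ot E') : E = E' := by
  rcases h.ll_tri hE hE' with h2 | h2 | h2
  · exact absurd (h.mem_ot.2 ⟨E, h2, rfl⟩) (h1 ▸ ZFSet.mem_irrefl _)
  · exact h2
  · exact absurd (h.mem_ot.2 ⟨E', h2, rfl⟩) (h1 ▸ ZFSet.mem_irrefl _)

/-- The description of the order type. -/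
def Ot (U : ZFSet.{0}) (c : Cardinal.{0}) (E y : ZFSet.{0}) : Prop :=
  ∃ D ∈ HH c, (∀ X ∈ HH c, X ∈ D ↔ (LL U c X E ∨ X = E)) ∧
    ∃ f ∈ HH c, Dcf (HH c) (LL U c) D f ∧ pair E y ∈ f

theorem ot' (h : Ifc U c) {n : ℕ} {F G : (Fin n → ZFSet.{0}) → ZFSet.{0}}
    (hF : DfnF ∅ (HH c) F) (hG : DfnF ∅ (HH c) G) :
    Dfn ∅ (HH c) fun v => Ot U c (F v) (G v) := by
  have hM := full_HH h.inf
  have hB := hM.base
  unfold Ot
  apply Dfn.ex
  apply Dfn.and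
  · apply Dfn.all
    apply Dfn.iff (Dfn.mem (DfnF.proj 0) (DfnF.proj 1))
    exact (h.ll' (DfnF.proj 0) hF.tail.tail).or (Dfn.eq (DfnF.proj 0) hF.tail.tail)
  · apply Dfn.ex
    apply Dfn.and
    · refine hM.dcf' (R := fun _ => LL U c) ?_ (DfnF.proj 0) (DfnF.proj 1) (DfnF.proj 0)
      exact h.ll' (DfnF.proj 1) (DfnF.proj 2)
    · exact Dfn.mem (hB.pair' hF.tail.tail hG.tail.tail) (DfnF.proj 0)

theorem ot_iff (h : Ifc U c) {E y : ZFSet.{0}} (hE : Sb c E) (hy : y ∈ HH c) :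
    Ot U c E y ↔ y = h.ot E := by
  have hM := full_HH h.inf
  have hEM := hE.mem h.inf
  have hD : ∀ {D : ZFSet.{0}}, D ∈ HH c → (∀ X ∈ HH c, X ∈ D ↔ (LL U c X E ∨ X = E)) →
      D = insert E (prU U c E) := by
    intro D hDM h1
    ext X
    rw [ZFSet.mem_insert_iff, mem_prU]
    constructor
    · intro h2
      rcases (h1 X (hM.trans hDM h2)).1 h2 with h3 | h3
      · exact Or.inr h3
      · exact Or.inl h3
    · rintro (rfl | h3)
      · exact (h1 X hEM).2 (Or.inr rfl)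
      · exact (h1 X (h3.1.mem h.inf)).2 (Or.inl h3)
  have hDM : insert E (prU U c E) ∈ HH c := hM.insert_mem hEM (h.prU_mem E)
  have hf : gr h.ot (insert E (prU U c E)) ∈ HH c :=
    hM.im_mem hDM fun p hp => hM.pair_mem (hM.trans hDM hp) (h.ot_mem p)
  have hdc : Dcf (HH c) (LL U c) (insert E (prU U c E)) (gr h.ot (insert E (prU U c E))) := by
    refine ⟨fun ξ hξ => ⟨_, h.ot_mem ξ, pair_mem_gr.2 ⟨hξ, rfl⟩⟩, fun ξ hξ y hy h1 z hz => ?_⟩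
    obtain ⟨-, rfl⟩ := pair_mem_gr.1 h1
    rw [h.mem_ot]
    constructor
    · rintro ⟨X, hX, rfl⟩
      have h2 : X ∈ (insert E (prU U c E) : ZFSet.{0}) := by
        rcases ZFSet.mem_insert_iff.1 hξ with rfl | h2
        · exact ZFSet.mem_insert_of_mem _ (mem_prU.2 hX)
        · exact ZFSet.mem_insert_of_mem _ (mem_prU.2 (h.ll_trans hX (mem_prU.1 h2)))
      exact ⟨X, h2, pair_mem_gr.2 ⟨h2, rfl⟩, hX⟩
    · rintro ⟨η, -, h2, h3⟩
      obtain ⟨-, rfl⟩ := pair_mem_gr.1 h2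
      exact ⟨η, h3, rfl⟩
  have hEE : pair E (h.ot E) ∈ gr h.ot (insert E (prU U c E)) :=
    pair_mem_gr.2 ⟨ZFSet.mem_insert _ _, rfl⟩
  constructor
  · rintro ⟨D, hDm, h1, f, hfm, h2, h3⟩
    obtain rfl := hD hDm h1
    exact h2.uniq hM.base.trans hdc E (ZFSet.mem_insert _ _) _ hy (h.ot_mem E) h3 hEE
  · rintro rfl
    refine ⟨_, hDM, fun X hX => ?_, _, hf, hdc, hEE⟩
    rw [ZFSet.mem_insert_iff, mem_prU]
    exact or_comm

/-! ### The well-ordering of the class -/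

/-- The order of the class given by the least codes. -/
def ltH (U : ZFSet.{0}) (c : Cardinal.{0}) (x y : ZFSet.{0}) : Prop :=
  ∃ E ∈ HH c, Sb c E ∧ Dc c E x ∧ ∀ E' ∈ HH c, Sb c E' → Dc c E' y → LL U c E E'

theorem exists_least (h : Ifc U c) {x : ZFSet.{0}} (hx : x ∈ HH c) :
    ∃ E, Sb c E ∧ Dc c E x ∧ ∀ E', Sb c E' → Dc c E' x → E = E' ∨ LL U c E E' :=
  h.ll_min (P := fun E => Dc c E x) (exists_dc h.inf hx)

theorem wo (h : Ifc U c) : WO (HH c) (ltH U c) := by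
  have hM := full_HH h.inf
  have hB := hM.base
  refine ⟨?_, fun P hP => ?_, fun x hx y hy => ?_⟩
  · unfold ltH
    apply Dfn.ex
    apply Dfn.and (sb' h.inf (DfnF.proj 0))
    apply Dfn.and (dc' h.inf (DfnF.proj 0) (DfnF.proj 1))
    apply Dfn.all
    apply Dfn.imp (sb' h.inf (DfnF.proj 0))
    apply Dfn.imp (dc' h.inf (DfnF.proj 0) (DfnF.proj 3))
    exact h.ll' (DfnF.proj 1) (DfnF.proj 0)
  · obtain ⟨x0, hx0, hP0⟩ := hP
    obtain ⟨E0, h1, h2⟩ := exists_dc h.inf hx0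
    obtain ⟨E, hE, ⟨x, hx, hPx, hEx⟩, hmin⟩ := h.ll_min
      (P := fun E => ∃ x ∈ HH c, P x ∧ Dc c E x) ⟨E0, h1, x0, hx0, hP0, h2⟩
    refine ⟨x, hx, hPx, fun y hy hPy hyx => ?_⟩
    obtain ⟨E', -, hE', hEy, h3⟩ := hyx
    have h4 := h3 E (hE.mem h.inf) hE hEx
    rcases hmin E' hE' ⟨y, hy, hPy, hEy⟩ with rfl | h5
    · exact h.ll_asymm h4 h4
    · exact h.ll_asymm h4 h5
  · obtain ⟨E, hE, hEx, hmin⟩ := h.exists_least hx
    obtain ⟨E', hE', hEy, hmin'⟩ := h.exists_least hy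
    have key : ∀ {x y E E' : ZFSet.{0}}, Sb c E → Dc c E x →
        (∀ E'', Sb c E'' → Dc c E'' y → E' = E'' ∨ LL U c E' E'') → LL U c E E' →
        ltH U c x y := by
      intro x y E E' hE hEx hmin' h1
      refine ⟨E, hE.mem h.inf, hE, hEx, fun E'' _ h2 h3 => ?_⟩
      rcases hmin' E'' h2 h3 with rfl | h4
      · exact h1
      · exact h.ll_trans h1 h4
    rcases h.ll_tri hE hE' with h1 | h1 | h1
    · exact Or.inl (key hE hEx hmin' h1)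
    · subst h1
      exact Or.inr (Or.inl (hEx.uniq h.inf hx hy hEy))
    · exact Or.inr (Or.inr (key hE' hEy hmin h1))

theorem code (h : Ifc U c) {x : ZFSet.{0}} (hx : x ∈ HH c) :
    ∃ e, FO e ∧ e ∈ Hul (HH c) x ∧ x ∈ Hul (HH c) e := by
  have hM := full_HH h.inf
  have hB := hM.base
  obtain ⟨E, hE, hEx, hmin⟩ := h.exists_least hx
  have hEM := hE.mem h.inf
  -- the least code
  have h1 : E ∈ Hul (HH c) x := by
    refine hul_of_unique hM (R := fun y x => (Sb c y ∧ Dc c y x) ∧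
      ∀ E' ∈ HH c, Sb c E' → Dc c E' x → y = E' ∨ LL U c y E') ?_ hx hEM fun y hy => ?_
    · apply Dfn.and
      · exact (sb' h.inf (DfnF.proj 0)).and (dc' h.inf (DfnF.proj 0) (DfnF.proj 1))
      · apply Dfn.all
        apply Dfn.imp (sb' h.inf (DfnF.proj 0))
        apply Dfn.imp (dc' h.inf (DfnF.proj 0) (DfnF.proj 2))
        exact (Dfn.eq (DfnF.proj 1) (DfnF.proj 0)).or (h.ll' (DfnF.proj 1) (DfnF.proj 0))
    · constructor
      · rintro ⟨⟨h1, h2⟩, h3⟩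
        rcases h3 E hEM hE hEx with h4 | h4
        · exact h4
        · rcases hmin y h1 h2 with h5 | h5
          · exact h5.symm
          · exact (h.ll_asymm h4 h5).elim
      · rintro rfl
        exact ⟨⟨hE, hEx⟩, fun E' _ => hmin E'⟩
  have h2 : x ∈ Hul (HH c) E := by
    refine hul_of_unique hM (R := fun y E => Dc c E y) (dc' h.inf (DfnF.proj 1) (DfnF.proj 0))
      hEM hx fun y hy => ?_
    exact ⟨fun h3 => h3.uniq h.inf hy hx hEx, fun h3 => h3 ▸ hEx⟩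
  -- the order type
  have h3 : h.ot E ∈ Hul (HH c) E :=
    hul_of_unique hM (R := fun y E => Ot U c E y) (h.ot' (DfnF.proj 1) (DfnF.proj 0)) hEM
      (h.ot_mem E) fun y hy => h.ot_iff hE hy
  have h4 : E ∈ Hul (HH c) (h.ot E) := by
    refine hul_of_unique hM (R := fun y a => Sb c y ∧ Ot U c y a)
      ((sb' h.inf (DfnF.proj 0)).and (h.ot' (DfnF.proj 0) (DfnF.proj 1))) (h.ot_mem E) hEM
      fun y hy => ?_
    constructor
    · rintro ⟨h5, h6⟩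
      rw [h.ot_iff h5 (h.ot_mem E)] at h6
      exact h.ot_inj h5 hE h6.symm
    · rintro rfl
      exact ⟨hE, (h.ot_iff hE (h.ot_mem _)).2 rfl⟩
  refine ⟨{h.ot E}, FO.single (h.ot_ord E), ?_, ?_⟩
  · have h5 : ({h.ot E} : ZFSet.{0}) ∈ Hul (HH c) (h.ot E) :=
      hul_op (h := fun y => ({y} : ZFSet.{0})) (hB.single' (DfnF.proj 0)) hul_self
    exact hul_trans h5 (hul_trans h3 h1)
  · have h5 : h.ot E ∈ Hul (HH c) {h.ot E} := by
      have := hul_op (M := HH c) (a := {h.ot E}) (h := fun x => (ZFSet.sUnion x : ZFSet.{0}))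
        (hB.sUnion' (DfnF.proj 0)) hul_self
      rwa [ZFSet.sUnion_singleton] at this
    exact hul_trans h2 (hul_trans h4 h5)

/-- A definable well-ordering, and codes. -/
theorem wo_code (h : Ifc U c) : ∃ lt, WO (HH c) lt ∧
    ∀ x ∈ HH c, ∃ e, FO e ∧ e ∈ Hul (HH c) x ∧ x ∈ Hul (HH c) e :=
  ⟨_, h.wo, fun _ hx => h.code hx⟩

end Ifc

end Pool.Agent.R587
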