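import Pool.Agent.R587.LInst

/-!
# Decoding of sets from relations on a set

`Dcd μ E f`: the relation `f` is the collapse of the relation `E` on the set `μ`.
The set `x` has the code `E` on `μ` if `Dcd μ E f` and `pair ∅ x ∈ f` for some `f`.
-/

set_option autoImplicit false
set_option linter.unreachableTactic false
set_option linter.unusedTactic false

namespace Pool.Agent.R587

open Pool.Agent.W868
open ZFSet (pair)
open Cardinal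

/-- `f` is the collapse of the relation `E` on `μ`. -/
def Dcd (μ E f : ZFSet.{0}) : Prop :=
  (∀ p ∈ f, ∃ ξ y, p = pair ξ y ∧ (ξ ∈ μ ∧ (∀ η ∈ μ, pair η ξ ∈ E → ∃ u ∈ y, pair η u ∈ f) ∧
    ∀ u ∈ y, ∃ η ∈ μ, pair η ξ ∈ E ∧ pair η u ∈ f)) ∧
  ∀ ξ ∈ μ, ∃ q ∈ f, ∃ ξ' y, q = pair ξ' y ∧ ξ' = ξ

theorem d0_Dcd : D0 fun v : Fin 3 → ZFSet.{0} => Dcd (v 0) (v 1) (v 2) := by
  unfold Dcd
  (repeat' first
      | assumption
      | exact D0v.proj _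
      | apply D0.pairMem
      | apply D0.and | apply D0.expair
      | apply D0.bex | apply D0.ball | apply D0.imp
      | apply D0.eq | apply D0.mem | apply D0.isOrdinal)

/-- `Z` shows that the relation `E` on `μ` is not well-founded. -/
def Ilf (μ E Z : ZFSet.{0}) : Prop :=
  (∃ ξ ∈ Z, ξ = ξ) ∧ (∀ ξ ∈ Z, ξ ∈ μ) ∧ ∀ ξ ∈ Z, ∃ η ∈ Z, pair η ξ ∈ E

theorem d0_Ilf : D0 fun v : Fin 3 → ZFSet.{0} => Ilf (v 0) (v 1) (v 2) := by
  unfold Ilf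
  (repeat' first
      | assumption
      | exact D0v.proj _
      | apply D0.pairMem
      | apply D0.and | apply D0.expair
      | apply D0.bex | apply D0.ball | apply D0.imp
      | apply D0.eq | apply D0.mem | apply D0.isOrdinal)

section

variable {μ E f f' : ZFSet.{0}}

theorem Dcd.dom (h : Dcd μ E f) {ξ y : ZFSet.{0}} (hp : pair ξ y ∈ f) : ξ ∈ μ := by
  obtain ⟨ξ', y', h1, h2, -⟩ := h.1 _ hp
  obtain ⟨rfl, rfl⟩ := ZFSet.pair_inj.1 h1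
  exact h2

theorem Dcd.up (h : Dcd μ E f) {ξ y η : ZFSet.{0}} (hp : pair ξ y ∈ f) (hη : η ∈ μ)
    (hE : pair η ξ ∈ E) : ∃ u ∈ y, pair η u ∈ f := by
  obtain ⟨ξ', y', h1, -, h2, -⟩ := h.1 _ hp
  obtain ⟨rfl, rfl⟩ := ZFSet.pair_inj.1 h1
  exact h2 η hη hE

theorem Dcd.down (h : Dcd μ E f) {ξ y u : ZFSet.{0}} (hp : pair ξ y ∈ f) (hu : u ∈ y) :
    ∃ η ∈ μ, pair η ξ ∈ E ∧ pair η u ∈ f := by
  obtain ⟨ξ', y', h1, -, -, h2⟩ := h.1 _ hp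
  obtain ⟨rfl, rfl⟩ := ZFSet.pair_inj.1 h1
  exact h2 u hu

theorem Dcd.tot (h : Dcd μ E f) {ξ : ZFSet.{0}} (hξ : ξ ∈ μ) : ∃ y, pair ξ y ∈ f := by
  obtain ⟨q, hq, ξ', y, rfl, rfl⟩ := h.2 ξ hξ
  exact ⟨y, hq⟩

/-- The collapse is uniquely determined. -/
theorem Dcd.uniq (h : Dcd μ E f) (h' : Dcd μ E f') : ∀ {y y' ξ : ZFSet.{0}}, pair ξ y ∈ f →
    pair ξ y' ∈ f' → y = y' := by
  intro y
  induction y using ZFSet.inductionOn with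
  | _ y ih =>
  intro y' ξ h1 h2
  ext u
  constructor
  · intro hu
    obtain ⟨η, hη, h3, h4⟩ := h.down h1 hu
    obtain ⟨u', hu', h5⟩ := h'.up h2 hη h3
    rw [ih u hu h4 h5]
    exact hu'
  · intro hu
    obtain ⟨η, hη, h3, h4⟩ := h'.down h2 hu
    obtain ⟨u', hu', h5⟩ := h.up h1 hη h3
    rw [← ih u' hu' h5 h4]
    exact hu'

theorem Dcd.not_ilf (h : Dcd μ E f) (Z : ZFSet.{0}) : ¬ Ilf μ E Z := by
  rintro ⟨⟨ξ0, h0, -⟩, h1, h2⟩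
  obtain ⟨y0, hy0⟩ := h.tot (h1 ξ0 h0)
  obtain ⟨y, ⟨ξ, hξ, hy⟩, hmin⟩ := ZFSet.mem_wf.has_min
    {y : ZFSet.{0} | ∃ ξ ∈ Z, pair ξ y ∈ f} ⟨y0, ξ0, h0, hy0⟩
  obtain ⟨η, hη, h3⟩ := h2 ξ hξ
  obtain ⟨u, hu, h4⟩ := h.up hy (h1 η hη) h3
  exact hmin u ⟨η, hη, h4⟩ hu

variable {c : Cardinal.{0}} {M : Set ZFSet.{0}}

/-- A well-founded relation has a collapse. -/
theorem exists_dcd (hM : Full c M) (hμ : μ ∈ M) (h : ∀ Z, ¬ Ilf μ E Z) :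
    ∃ f ∈ M, Dcd μ E f := by
  let pd : ZFSet.{0} → ZFSet.{0} := fun ξ => ZFSet.sep (fun η => ξ ∈ μ ∧ pair η ξ ∈ E) μ
  have hpd : ∀ {η ξ : ZFSet.{0}}, η ∈ pd ξ ↔ η ∈ μ ∧ ξ ∈ μ ∧ pair η ξ ∈ E := ZFSet.mem_sep
  have hwf : WellFounded fun u z => u ∈ pd z := by
    rw [WellFounded.wellFounded_iff_has_min]
    intro s hs
    by_cases h1 : ∃ x ∈ s, x ∈ μ
    · obtain ⟨x0, hx0, hx0'⟩ := h1
      by_contra h2
      push Not at h2
      refine h (ZFSet.sep (fun x => x ∈ s) μ) ⟨⟨x0, ZFSet.mem_sep.2 ⟨hx0', hx0⟩, rfl⟩,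
        fun ξ hξ => (ZFSet.mem_sep.1 hξ).1, fun ξ hξ => ?_⟩
      obtain ⟨η, hη, h3⟩ := h2 ξ (ZFSet.mem_sep.1 hξ).2
      obtain ⟨h4, -, h5⟩ := hpd.1 h3
      exact ⟨η, ZFSet.mem_sep.2 ⟨h4, hη⟩, h5⟩
    · obtain ⟨x, hx⟩ := hs
      refine ⟨x, hx, fun y _ h2 => h1 ⟨x, hx, (hpd.1 h2).2.1⟩⟩
  let F : ZFSet.{0} → ZFSet.{0} := wfF pd hwf fun _ g => im sn g
  have hF : ∀ z y, y ∈ F z ↔ ∃ u ∈ pd z, y = F u := by
    intro z y
    change y ∈ wfF pd hwf (fun _ g => im sn g) z ↔ _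
    rw [wfF_eq, mem_im]
    constructor
    · rintro ⟨p, hp, rfl⟩
      obtain ⟨u, hu, rfl⟩ := mem_gr.1 hp
      exact ⟨u, hu, sn_pair _ _⟩
    · rintro ⟨u, hu, rfl⟩
      exact ⟨_, mem_gr.2 ⟨u, hu, rfl⟩, (sn_pair _ _).symm⟩
  have hFM : ∀ z, F z ∈ M := by
    intro z
    induction z using hwf.induction with
    | _ z ih =>
    have h1 : F z = im F (pd z) := by
      ext y
      rw [hF, mem_im]
    rw [h1]
    exact hM.im_mem (hM.sep_mem hμ) fun p hp => ih p hp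
  refine ⟨im (fun ξ => pair ξ (F ξ)) μ, hM.im_mem hμ fun p hp =>
    hM.pair_mem (hM.trans hμ hp) (hFM p), ?_, ?_⟩
  · intro p hp
    obtain ⟨ξ, hξ, rfl⟩ := mem_im.1 hp
    refine ⟨ξ, F ξ, rfl, hξ, fun η hη h1 => ?_, fun u hu => ?_⟩
    · exact ⟨F η, (hF _ _).2 ⟨η, hpd.2 ⟨hη, hξ, h1⟩, rfl⟩, mem_im.2 ⟨η, hη, rfl⟩⟩
    · obtain ⟨η, hη, rfl⟩ := (hF _ _).1 hu
      obtain ⟨h1, -, h2⟩ := hpd.1 hη
      exact ⟨η, h1, h2, mem_im.2 ⟨η, h1, rfl⟩⟩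
  · intro ξ hξ
    exact ⟨_, mem_im.2 ⟨ξ, hξ, rfl⟩, ξ, F ξ, rfl, rfl⟩

theorem mem_kap {c : Cardinal.{0}} (hc : ℵ₀ ≤ c) : kap c ∈ HH c :=
  hh_of_trans (full_HH hc) (fun _ hy _ hz => ord_kap.mem_trans hz hy) card_kap.le

open Classical in
/-- Every set has a code. -/
theorem exists_cd {c : Cardinal.{0}} (hc : ℵ₀ ≤ c) {x : ZFSet.{0}} (hx : x ∈ HH c) :
    ∃ E ∈ HH c, E ⊆ ZFSet.prod (kap c) (kap c) ∧ ∃ f ∈ HH c, Dcd (kap c) E f ∧ pair ∅ x ∈ f := by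
  have hM := full_HH hc
  have hk := mem_kap hc
  obtain ⟨T, h1, h2, h3⟩ := exists_tc hM hx
  have h4 : T.card ≤ (ZFSet.sep (fun ξ => ξ ≠ ∅) (kap c)).card := by
    have h5 : kap c ⊆ insert ∅ (ZFSet.sep (fun ξ => ξ ≠ ∅) (kap c)) := by
      intro ξ hξ
      rw [ZFSet.mem_insert_iff, ZFSet.mem_sep]
      by_cases h : ξ = ∅
      · exact Or.inl h
      · exact Or.inr ⟨hξ, h⟩
    have h6 : c ≤ (ZFSet.sep (fun ξ => ξ ≠ ∅) (kap c)).card + 1 := by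
      have h7 := ZFSet.card_mono h5
      rw [card_kap] at h7
      exact h7.trans ZFSet.card_insert_le
    rcases lt_or_ge (ZFSet.sep (fun ξ => ξ ≠ ∅) (kap c)).card ℵ₀ with h7 | h7
    · exact absurd (hc.trans h6) (not_le.2 (Cardinal.add_lt_aleph0 h7 Cardinal.one_lt_aleph0))
    · rw [Cardinal.add_one_eq h7] at h6
      exact h3.trans h6
  obtain ⟨i, hi⟩ := exists_isInj h4
  let g : ZFSet.{0} → ZFSet.{0} := fun ξ =>
    if h : ∃ t ∈ T, pair t ξ ∈ i then h.choose else x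
  have hgT : ∀ ξ, g ξ ∈ T := by
    intro ξ
    by_cases h : ∃ t ∈ T, pair t ξ ∈ i
    · have : g ξ = h.choose := dif_pos h
      rw [this]
      exact h.choose_spec.1
    · have : g ξ = x := dif_neg h
      rw [this]
      exact h1
  have hg0 : g ∅ = x := by
    refine dif_neg ?_
    rintro ⟨t, -, h⟩
    have h5 := hi.1.1 h
    rw [ZFSet.pair_mem_prod, ZFSet.mem_sep] at h5
    exact h5.2.2 rfl
  have hgs : ∀ t ∈ T, ∃ ξ ∈ kap c, g ξ = t := by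
    intro t ht
    obtain ⟨ξ, hξ, h5⟩ := fun_exists hi.1 ht
    refine ⟨ξ, (ZFSet.mem_sep.1 hξ).1, ?_⟩
    have h6 : ∃ t ∈ T, pair t ξ ∈ i := ⟨t, ht, h5⟩
    have : g ξ = h6.choose := dif_pos h6
    rw [this]
    exact hi.2 _ _ _ h6.choose_spec.2 h5
  have hk0 : (∅ : ZFSet.{0}) ∈ kap c := omega_sub_kap hc (mem_omega_iff.2 ⟨0, rfl⟩)
  refine ⟨ZFSet.sep (fun p => g (fs p) ∈ g (sn p)) (ZFSet.prod (kap c) (kap c)),
    hM.sep_mem (hM.prod_mem hk hk), fun p hp => (ZFSet.mem_sep.1 hp).1,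
    im (fun ξ => pair ξ (g ξ)) (kap c), ?_, ⟨?_, ?_⟩, ?_⟩
  · refine hM.im_mem hk fun p hp => hM.pair_mem (hM.trans hk hp) ?_
    exact hM.trans (hh_of_trans hM h2 h3) (hgT p)
  · intro p hp
    obtain ⟨ξ, hξ, rfl⟩ := mem_im.1 hp
    refine ⟨ξ, g ξ, rfl, hξ, fun η hη h5 => ?_, fun u hu => ?_⟩
    · have h6 := (ZFSet.mem_sep.1 h5).2
      rw [fs_pair, sn_pair] at h6
      exact ⟨g η, h6, mem_im.2 ⟨η, hη, rfl⟩⟩
    · obtain ⟨η, hη, rfl⟩ := hgs u (h2 _ (hgT ξ) _ hu)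
      refine ⟨η, hη, ZFSet.mem_sep.2 ⟨ZFSet.pair_mem_prod.2 ⟨hη, hξ⟩, ?_⟩,
        mem_im.2 ⟨η, hη, rfl⟩⟩
      rw [fs_pair, sn_pair]
      exact hu
  · intro ξ hξ
    exact ⟨_, mem_im.2 ⟨ξ, hξ, rfl⟩, ξ, g ξ, rfl, rfl⟩
  · exact mem_im.2 ⟨∅, hk0, by rw [hg0]⟩

/-- The cardinal `c` is definable over the class of the sets of hereditary size at most `c`. -/
theorem kap' {c : Cardinal.{0}} (hc : ℵ₀ ≤ c) {n : ℕ} :
    DfnF ∅ (HH c) fun _ : Fin n → ZFSet.{0} => kap c := by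
  have hM := full_HH hc
  have hB := hM.base
  have hk := mem_kap hc
  refine DfnF.of_unique (R := fun y _ => y.IsOrdinal ∧ (∀ x ∈ HH c, ∃ f ∈ HH c, IsInj x y f) ∧
    ∀ μ ∈ y, ∀ f ∈ HH c, ¬ IsInj y μ f) ?_ ?_
  · apply Dfn.and
    · exact (D0.isOrdinal (D0v.proj 0)).dfn hB.trans
    apply Dfn.and
    · apply Dfn.all
      apply Dfn.ex
      exact hB.isInj' (DfnF.proj 1) (DfnF.proj 2) (DfnF.proj 0)
    · apply hB.ball (DfnF.proj 0)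
      apply Dfn.all
      exact (hB.isInj' (DfnF.proj 2) (DfnF.proj 1) (DfnF.proj 0)).not
  · intro v _
    have h1 : ∀ x ∈ HH c, ∃ f ∈ HH c, IsInj x (kap c) f := by
      intro x hx
      obtain ⟨f, hf⟩ := exists_isInj (x := x) (y := kap c) (by
        rw [card_kap]
        exact hM.card hx)
      exact ⟨f, hM.sub (hM.prod_mem hx hk) hf.1.1, hf⟩
    have h2 : ∀ μ ∈ kap c, ∀ f ∈ HH c, ¬ IsInj (kap c) μ f := by
      intro μ hμ f _ hf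
      have h3 := card_le_of_isInj hf
      rw [card_kap] at h3
      have h4 : μ.card < c := by
        have hμo := ord_kap.mem hμ
        obtain ⟨o, rfl⟩ : ∃ o : Ordinal.{0}, o.toZFSet = μ := ⟨_, hμo.toZFSet_rank_eq⟩
        rw [kap, Ordinal.toZFSet_mem_toZFSet_iff, Cardinal.lt_ord] at hμ
        rwa [Ordinal.card_toZFSet]
      exact absurd h3 (not_le.2 h4)
    refine ⟨hk, fun y hy => ?_⟩
    constructor
    · rintro ⟨h3, h4, h5⟩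
      rcases h3.mem_trichotomous ord_kap with h | h | h
      · obtain ⟨f, hf, h6⟩ := h4 _ hk
        exact absurd h6 (h2 y h f hf)
      · exact h
      · obtain ⟨f, hf, h6⟩ := h1 y hy
        exact absurd h6 (h5 _ h f hf)
    · rintro rfl
      exact ⟨ord_kap, h1, h2⟩

end

end Pool.Agent.R587
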