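import Pool.Agent.R587.Ifc
import Pool.Agent.R587.Dec

/-!
# The comparison of countable hulls
-/

set_option autoImplicit false
set_option linter.unreachableTactic false
set_option linter.unusedTactic false

namespace Pool.Agent.R587

open Pool.Agent.W868 hiding Models
open ZFSet (pair)
open Cardinal

theorem col_empty {K : ZFSet.{0}} : col K ∅ = ∅ := by
  rw [ZFSet.eq_empty]
  intro z hz
  obtain ⟨u, hu, -⟩ := mem_col.1 hz
  exact ZFSet.notMem_empty u hu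

theorem col_mem_im {K x : ZFSet.{0}} (hx : x ∈ K) : col K x ∈ im (col K) K :=
  mem_im.2 ⟨x, hx, rfl⟩

open Classical in
/-- The inverse of the collapse. -/
noncomputable def inv (K y : ZFSet.{0}) : ZFSet.{0} :=
  if h : ∃ x ∈ K, y = col K x then h.choose else ∅

/-- `X ⊆ μ × μ`, as a bounded formula. -/
def Rl (X μ : ZFSet.{0}) : Prop := ∀ p ∈ X, ∃ a b, p = pair a b ∧ (a ∈ μ ∧ b ∈ μ)

theorem rl_iff {X μ : ZFSet.{0}} : Rl X μ ↔ X ⊆ ZFSet.prod μ μ := by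
  constructor
  · intro h p hp
    obtain ⟨a, b, rfl, ha, hb⟩ := h p hp
    exact ZFSet.pair_mem_prod.2 ⟨ha, hb⟩
  · intro h p hp
    obtain ⟨a, ha, b, hb, rfl⟩ := ZFSet.mem_prod.1 (h hp)
    exact ⟨a, b, rfl, ha, hb⟩

theorem d0_Rl : D0 fun v : Fin 2 → ZFSet.{0} => Rl (v 0) (v 1) := by
  unfold Rl
  (repeat' first
      | assumption
      | exact D0v.proj _
      | apply D0.pairMem
      | apply D0.and | apply D0.expair
      | apply D0.bex | apply D0.ball | apply D0.imp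
      | apply D0.eq | apply D0.mem | apply D0.isOrdinal)

theorem d0_memU : D0 fun v : Fin 2 → ZFSet.{0} => ∃ A ∈ v 1, v 0 ∈ A := by
  (repeat' first
      | assumption
      | exact D0v.proj _
      | apply D0.bex | apply D0.mem)

theorem col_isOrdinal {X u : ZFSet.{0}} : u.IsOrdinal → (col X u).IsOrdinal := by
  induction u using ZFSet.inductionOn with
  | _ u ih =>
  intro hu
  rw [ZFSet.isOrdinal_iff_forall_mem_isOrdinal]
  constructor
  · intro y hy z hz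
    obtain ⟨a, ha, ha', rfl⟩ := mem_col.1 hy
    obtain ⟨b, hb, hb', rfl⟩ := mem_col.1 hz
    exact mem_col.2 ⟨b, hu.mem_trans hb ha, hb', rfl⟩
  · intro y hy
    obtain ⟨a, ha, ha', rfl⟩ := mem_col.1 hy
    exact ih a ha (hu.mem ha)

theorem col_ord_sub {H K : ZFSet.{0}} (hHK : H ⊆ K) {u : ZFSet.{0}} :
    u.IsOrdinal → col H u ⊆ col K u := by
  induction u using ZFSet.inductionOn with
  | _ u ih =>
  intro hu y hy
  obtain ⟨a, ha, ha', rfl⟩ := mem_col.1 hy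
  have hao := hu.mem ha
  exact (col_isOrdinal hao).mem_of_subset_of_mem (col_isOrdinal hu) (ih a ha hao)
    (mem_col.2 ⟨a, ha, hHK ha', rfl⟩)

section

variable {c : Cardinal.{0}} {M : Set ZFSet.{0}} (hM : Full c M) {K : ZFSet.{0}}
  (hK : TV M {x | x ∈ K})

include hM hK

theorem TV.inv_col {x : ZFSet.{0}} (hx : x ∈ K) : inv K (col K x) = x := by
  have h : ∃ x' ∈ K, col K x = col K x' := ⟨x, hx, rfl⟩
  rw [inv, dif_pos h]
  exact (col_inj (hK.xt hM) x hx _ h.choose_spec.1 h.choose_spec.2).symm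

theorem TV.ex_d0 {n : ℕ} {R : ZFSet.{0} → (Fin n → ZFSet.{0}) → Prop}
    (hR : D0 fun w : Fin (n + 1) → ZFSet.{0} => R (w 0) (Fin.tail w)) (v : Fin n → ZFSet.{0})
    (hv : ∀ i, v i ∈ K) (h : ∃ y ∈ M, R y v) : ∃ y ∈ K, R y v :=
  hK.2 n R (hR.dfn hM.base.trans) v hv h

theorem TV.sat_rel {Q : ZFSet.{0}} (hQ : Q ∈ K) {n : ℕ} (φ : Fml Empty n)
    {v : Fin n → ZFSet.{0}} (hv : ∀ i, v i ∈ K) :
    Sat {z | z ∈ col K Q} Empty.elim φ (fun i => col K (v i)) ↔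
      Sat {z | z ∈ Q} Empty.elim φ v :=
  hK.d0 hM (D0.relSat φ) (v := Fin.cons Q v) (by
    intro i
    refine Fin.cases ?_ (fun i => ?_) i
    · exact hQ
    · exact hv i)

theorem TV.rlc_iff {X μ : ZFSet.{0}} (hX : X ∈ K) (hμ : μ ∈ K) :
    col K X ⊆ ZFSet.prod (col K μ) (col K μ) ↔ X ⊆ ZFSet.prod μ μ := by
  have h := hK.d0 hM d0_Rl (v := ![X, μ]) (by
    intro i
    fin_cases i
    exacts [hX, hμ])
  exact (rl_iff.symm.trans h).trans rl_iff

theorem TV.memU_iff {β W : ZFSet.{0}} (hβ : β ∈ K) (hW : W ∈ K) :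
    col K β ∈ (ZFSet.sUnion (col K W) : ZFSet.{0}) ↔ β ∈ (ZFSet.sUnion W : ZFSet.{0}) := by
  have h := hK.d0 hM d0_memU (v := ![β, W]) (by
    intro i
    fin_cases i
    exacts [hβ, hW])
  rw [ZFSet.mem_sUnion, ZFSet.mem_sUnion]
  exact h

/-- Transfer of decodings. -/
theorem TV.dcd {H : ZFSet.{0}} (hH : TV M {x | x ∈ H}) {μ1 E1 f1 x1 μ2 E2 : ZFSet.{0}}
    (hμ1 : μ1 ∈ H) (hE1 : E1 ∈ H) (hf1 : f1 ∈ H) (hx1 : x1 ∈ H) (hμ2 : μ2 ∈ K) (hE2 : E2 ∈ K)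
    (hμ : col H μ1 = col K μ2) (hE : col H E1 = col K E2) (hd : Dcd μ1 E1 f1)
    (hp : pair ∅ x1 ∈ f1) :
    ∃ f2 ∈ K, ∃ x2 ∈ K, Dcd μ2 E2 f2 ∧ pair ∅ x2 ∈ f2 ∧ col H x1 = col K x2 := by
  have h0H : (∅ : ZFSet.{0}) ∈ H := hH.nat_mem hM 0
  have h0K : (∅ : ZFSet.{0}) ∈ K := hK.nat_mem hM 0
  have hd' : Dcd (col H μ1) (col H E1) (col H f1) :=
    (hH.d0 hM d0_Dcd (v := ![μ1, E1, f1]) (by
      intro i
      fin_cases i
      exacts [hμ1, hE1, hf1])).2 hd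
  have hp' : pair ∅ (col H x1) ∈ col H f1 := by
    have h1 := (hH.d0 hM (D0.pairMem (D0v.proj 0) (D0v.proj 1) (D0v.proj 2))
      (v := ![∅, x1, f1]) (by
      intro i
      fin_cases i
      exacts [h0H, hx1, hf1])).2 hp
    have h2 : pair (col H ∅) (col H x1) ∈ col H f1 := h1
    rwa [col_empty] at h2
  rw [hμ, hE] at hd'
  by_cases hI : ∃ Z ∈ M, Ilf μ2 E2 Z
  · obtain ⟨Z, hZ, h1⟩ := hK.ex_d0 hM (R := fun Z v => Ilf (v 0) (v 1) Z)
      (d0_Ilf.comp ![1, 2, 0]) ![μ2, E2] (by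
        intro i
        fin_cases i
        exacts [hμ2, hE2]) hI
    have h2 := (hK.d0 hM d0_Ilf (v := ![μ2, E2, Z]) (by
      intro i
      fin_cases i
      exacts [hμ2, hE2, hZ])).2 h1
    exact absurd h2 (hd'.not_ilf _)
  · have h1 : ∀ Z, ¬ Ilf μ2 E2 Z := by
      intro Z hZ
      exact hI ⟨Z, hM.sub (hK.1 hμ2) fun ξ hξ => hZ.2.1 ξ hξ, hZ⟩
    obtain ⟨f2, hf2, h2⟩ := hK.ex_d0 hM (R := fun f v => Dcd (v 0) (v 1) f)
      (d0_Dcd.comp ![1, 2, 0]) ![μ2, E2] (by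
        intro i
        fin_cases i
        exacts [hμ2, hE2]) (exists_dcd hM (hK.1 hμ2) h1)
    have h2 : Dcd μ2 E2 f2 := h2
    have h3 : (∅ : ZFSet.{0}) ∈ μ2 := by
      have h4 := (col_mem_iff (hH.xt hM) h0H (y := μ1)).2 (hd.dom hp)
      rw [col_empty, hμ] at h4
      refine (col_mem_iff (hK.xt hM) h0K (y := μ2)).1 ?_
      rwa [col_empty]
    obtain ⟨x2', hx2'⟩ := h2.tot h3
    obtain ⟨x2, hx2, h4⟩ := hK.ex_d0 hM (R := fun x v => pair (v 0) x ∈ v 1)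
      (D0.pairMem (D0v.proj 1) (D0v.proj 0) (D0v.proj 2)) ![∅, f2] (by
        intro i
        fin_cases i
        exacts [h0K, hf2]) ⟨x2', (hM.of_pair_mem (hM.trans (hK.1 hf2) hx2')).2, hx2'⟩
    have h4 : pair ∅ x2 ∈ f2 := h4
    refine ⟨f2, hf2, x2, hx2, h2, h4, ?_⟩
    have h5 : Dcd (col K μ2) (col K E2) (col K f2) :=
      (hK.d0 hM d0_Dcd (v := ![μ2, E2, f2]) (by
        intro i
        fin_cases i
        exacts [hμ2, hE2, hf2])).2 h2
    have h6 : pair ∅ (col K x2) ∈ col K f2 := by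
      have h1 := (hK.d0 hM (D0.pairMem (D0v.proj 0) (D0v.proj 1) (D0v.proj 2))
        (v := ![∅, x2, f2]) (by
        intro i
        fin_cases i
        exacts [h0K, hx2, hf2])).2 h4
      have h2 : pair (col K ∅) (col K x2) ∈ col K f2 := h1
      rwa [col_empty] at h2
    exact hd'.uniq h5 hp' h6

end

section

variable {c : Cardinal.{0}} (hc : ℵ₀ ≤ c) {K : ZFSet.{0}} (hK : TV (HH c) {x | x ∈ K})

include hc hK

theorem TV.kap_mem : kap c ∈ K :=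
  hK.opN (n := 0) (F := fun _ => kap c) (kap' hc) (v := Fin.elim0) fun i => i.elim0

/-- Codes in `K`. -/
theorem TV.exists_cd {x : ZFSet.{0}} (hx : x ∈ K) :
    ∃ E ∈ K, E ⊆ ZFSet.prod (kap c) (kap c) ∧ ∃ f ∈ K, Dcd (kap c) E f ∧ pair ∅ x ∈ f := by
  have hM := full_HH hc
  have hk := hK.kap_mem hc
  have hD : D0 fun w : Fin 4 → ZFSet.{0} => Dcd (w 2) (w 1) (w 0) := d0_Dcd.comp ![2, 1, 0]
  have hP : D0 fun w : Fin 5 → ZFSet.{0} => pair (w 4) (w 3) ∈ w 0 :=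
    D0.pairMem (D0v.proj 4) (D0v.proj 3) (D0v.proj 0)
  obtain ⟨E0, h1, h2, f0, h3, h4, h5⟩ := Pool.Agent.R587.exists_cd hc (hK.1 hx)
  obtain ⟨E, hE, h6, h7⟩ := hK.2 3 (fun E v => Rl E (v 0) ∧
      ∃ f ∈ HH c, Dcd (v 0) E f ∧ pair (v 2) (v 1) ∈ f) (by
    apply Dfn.and
    · exact (d0_Rl.comp ![0, 1]).dfn hM.base.trans
    · apply Dfn.ex
      apply Dfn.and
      · exact (d0_Dcd.comp ![2, 1, 0]).dfn hM.base.trans
      · exact (D0.pairMem (D0v.proj 4) (D0v.proj 3) (D0v.proj 0)).dfn hM.base.trans)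
    ![kap c, x, ∅] (by
      intro i
      fin_cases i
      exacts [hk, hx, hK.nat_mem hM 0]) ⟨E0, h1, rl_iff.2 h2, f0, h3, h4, h5⟩
  obtain ⟨f, hf, h8, h9⟩ := hK.ex_d0 hM (R := fun f v => Dcd (v 0) (v 1) f ∧
      pair (v 3) (v 2) ∈ f) (by
    apply D0.and
    · exact d0_Dcd.comp ![1, 2, 0]
    · exact D0.pairMem (D0v.proj 4) (D0v.proj 3) (D0v.proj 0))
    ![kap c, E, x, ∅] (by
      intro i
      fin_cases i
      exacts [hk, hE, hx, hK.nat_mem hM 0]) h7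
  exact ⟨E, hE, rl_iff.1 h6, f, hf, h8, h9⟩

/-- The key lemma. -/
theorem TV.key {H : ZFSet.{0}} (hH : TV (HH c) {x | x ∈ H}) {S β : ZFSet.{0}}
    (hS : S ∈ K) (hβ : β ∈ K) (h1 : col K β = col H (kap c))
    (h2 : ∀ y, y ∈ col K S ↔ y ∈ im (col H) H ∧ y ⊆ ZFSet.prod (col K β) (col K β)) :
    im (col H) H ∈ im (col K) K := by
  have hM := full_HH hc
  have hB := hM.base
  have h0 : (∅ : ZFSet.{0}) ∈ K := hK.nat_mem hM 0
  have hkH := hH.kap_mem hc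
  -- the set of the decodings
  let P : ZFSet.{0} → ZFSet.{0} → Prop := fun x E => ∃ f ∈ HH c, Dcd β E f ∧ pair ∅ x ∈ f
  have hPu : ∀ {x x' E : ZFSet.{0}}, P x E → P x' E → x = x' := by
    rintro x x' E ⟨f, -, h3, h4⟩ ⟨f', -, h5, h6⟩
    exact h3.uniq h5 h4 h6
  obtain ⟨Di, hDi, h3⟩ : ∃ D ∈ HH c, ∀ x ∈ HH c, x ∈ D ↔ ∃ E ∈ S, P x E := by
    refine ⟨im (fun E => open Classical in if h : ∃ x, P x E then h.choose else ∅)
      (ZFSet.sep (fun E => ∃ x, P x E) S), hM.im_mem (hM.sep_mem (hK.1 hS)) ?_, fun x hx => ?_⟩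
    · intro E hE
      have h := (ZFSet.mem_sep.1 hE).2
      rw [dif_pos h]
      obtain ⟨f, hf, -, h4⟩ := h.choose_spec
      exact (hM.of_pair_mem (hM.trans hf h4)).2
    · rw [mem_im]
      constructor
      · rintro ⟨E, hE, rfl⟩
        obtain ⟨hE, h⟩ := ZFSet.mem_sep.1 hE
        rw [dif_pos h]
        exact ⟨E, hE, h.choose_spec⟩
      · rintro ⟨E, hE, h⟩
        have h' : ∃ x, P x E := ⟨x, h⟩
        refine ⟨E, ZFSet.mem_sep.2 ⟨hE, h'⟩, ?_⟩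
        rw [dif_pos h']
        exact hPu h h'.choose_spec
  obtain ⟨D, hD, h4⟩ := hK.2 3 (fun D v => ∀ x ∈ HH c, x ∈ D ↔ ∃ E ∈ v 0, ∃ f ∈ HH c,
      Dcd (v 1) E f ∧ pair (v 2) x ∈ f) (by
    apply Dfn.all
    apply Dfn.iff
    · exact Dfn.mem (DfnF.proj 0) (DfnF.proj 1)
    · apply hB.bex (DfnF.proj 2)
      apply Dfn.ex
      apply Dfn.and
      · exact (d0_Dcd.comp ![5, 1, 0]).dfn hM.base.trans
      · exact (D0.pairMem (D0v.proj 6) (D0v.proj 2) (D0v.proj 0)).dfn hM.base.trans)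
    ![S, β, ∅] (by
      intro i
      fin_cases i
      exacts [hS, hβ, h0]) ⟨Di, hDi, h3⟩
  have h4 : ∀ x ∈ HH c, x ∈ D ↔ ∃ E ∈ S, ∃ f ∈ HH c, Dcd β E f ∧ pair ∅ x ∈ f := h4
  have h5 : im (col H) H = col K D := by
    ext z
    constructor
    · intro hz
      obtain ⟨x, hx, rfl⟩ := mem_im.1 hz
      obtain ⟨E, hE, h6, f, hf, h7, h8⟩ := hH.exists_cd hc hx
      have h9 : col H E ∈ col K S := by
        refine (h2 _).2 ⟨col_mem_im hE, ?_⟩
        rw [h1]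
        exact (hH.rlc_iff hM hE hkH).2 h6
      obtain ⟨E', hE', hE'', h10⟩ := mem_col.1 h9
      obtain ⟨f2, hf2, x2, hx2, h11, h12, h13⟩ := hK.dcd hM hH hkH hE hf hx hβ hE'' h1.symm h10
        h7 h8
      refine mem_col.2 ⟨x2, (h4 x2 (hK.1 hx2)).2 ⟨E', hE', f2, hK.1 hf2, h11, h12⟩, hx2, h13⟩
    · intro hz
      obtain ⟨x, hx, hx', rfl⟩ := mem_col.1 hz
      obtain ⟨E, hE, h6, h7⟩ := hK.2 4 (fun E v => E ∈ v 0 ∧ ∃ f ∈ HH c, Dcd (v 1) E f ∧
          pair (v 2) (v 3) ∈ f) (by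
        apply Dfn.and
        · exact Dfn.mem (DfnF.proj 0) (DfnF.proj 1)
        apply Dfn.ex
        apply Dfn.and
        · exact (d0_Dcd.comp ![3, 1, 0]).dfn hM.base.trans
        · exact (D0.pairMem (D0v.proj 4) (D0v.proj 5) (D0v.proj 0)).dfn hM.base.trans)
        ![S, β, ∅, x] (by
          intro i
          fin_cases i
          exacts [hS, hβ, h0, hx']) (by
            obtain ⟨E, hE, f, hf⟩ := (h4 x (hK.1 hx')).1 hx
            exact ⟨E, hM.trans (hK.1 hS) hE, hE, f, hf⟩)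
      obtain ⟨f, hf, h8, h9⟩ := hK.ex_d0 hM (R := fun f v => Dcd (v 0) (v 1) f ∧
          pair (v 2) (v 3) ∈ f) (by
        apply D0.and
        · exact d0_Dcd.comp ![1, 2, 0]
        · exact D0.pairMem (D0v.proj 3) (D0v.proj 4) (D0v.proj 0))
        ![β, E, ∅, x] (by
          intro i
          fin_cases i
          exacts [hβ, hE, h0, hx']) h7
      have h10 : col K E ∈ im (col H) H :=
        ((h2 _).1 (mem_col.2 ⟨E, h6, hE, rfl⟩)).1
      obtain ⟨E0, hE0, h11⟩ := mem_im.1 h10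
      obtain ⟨f2, hf2, x2, hx2, -, -, h13⟩ := hH.dcd hM hK hβ hE hf hx' hkH hE0 h1 h11 h8 h9
      rw [h13]
      exact col_mem_im hx2
  rw [h5]
  exact col_mem_im hD

end

section

variable {U : ZFSet.{0}} {c : Cardinal.{0}} (h : Ifc U c) {K : ZFSet.{0}}
  (hK : TV (HH c) {x | x ∈ K})

include h hK

/-- The collapse of a good model. -/
theorem Ifc.good_col (hKc : K.card ≤ ℵ₀) {Q W : ZFSet.{0}} (hQ : Q ∈ K) (hW : W ∈ K)
    (hg : Good c Q W) : Good c (col K Q) (col K W) ∧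
      Elem {z | z ∈ col K Q} {z | z ∈ Q} (inv K) := by
  have hM := full_HH h.inf
  have hel : Elem {z | z ∈ col K Q} {z | z ∈ Q} (inv K) := by
    constructor
    · intro x hx
      obtain ⟨u, hu, hu', rfl⟩ := mem_col.1 hx
      rw [hK.inv_col hM hu']
      exact hu
    · intro n φ v hv
      have h1 : ∀ i, ∃ u, u ∈ Q ∧ u ∈ K ∧ v i = col K u := fun i => mem_col.1 (hv i)
      choose u hu hu' hvu using h1
      obtain rfl : v = fun i => col K (u i) := funext hvu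
      rw [hK.sat_rel hM hQ φ hu']
      have h2 : (fun i => inv K (col K (u i))) = u := funext fun i => hK.inv_col hM (hu' i)
      rw [h2]
  refine ⟨?_, hel⟩
  have hN : im (col K) K ∈ HH c := hh_of_trans hM col_trans
    ((card_im_le.trans hKc).trans h.inf)
  refine h.down (hM.trans hN (col_mem_im hQ)) ?_ (mem_col.2 ⟨W, hg.pm.mem, hW, rfl⟩) hel
    (hK.inv_col hM hW) hg
  intro x hx y hy
  obtain ⟨u, hu, hu', rfl⟩ := mem_col.1 hx
  obtain ⟨w, hw, hw', rfl⟩ := mem_col.1 hy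
  exact mem_col.2 ⟨w, hg.pm.base.trans u hu w hw, hw', rfl⟩

/-- Good models in `K`. -/
theorem Ifc.exists_good {x β : ZFSet.{0}} (hx : x ∈ K) (hβ : β ∈ K) (hβo : β.IsOrdinal) :
    ∃ Q ∈ K, ∃ W ∈ K, Good c Q W ∧ x ∈ Q ∧ β ∈ (ZFSet.sUnion W : ZFSet.{0}) := by
  have hM := full_HH h.inf
  have hB := hM.base
  obtain ⟨Q0, W0, h1, h2, h3⟩ := h.ex x (hK.1 hx) β (hK.1 hβ) hβo
  obtain ⟨Q, hQ, h4⟩ := hK.2 2 (fun Q v => ∃ W ∈ HH c, Good c Q W ∧ v 0 ∈ Q ∧
      v 1 ∈ (ZFSet.sUnion W : ZFSet.{0})) (by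
    apply Dfn.ex
    apply Dfn.and (h.good'.comp ![1, 0])
    apply Dfn.and (Dfn.mem (DfnF.proj 2) (DfnF.proj 1))
    exact Dfn.mem (DfnF.proj 3) (hB.sUnion' (DfnF.proj 0)))
    ![x, β] (by
      intro i
      fin_cases i
      exacts [hx, hβ]) ⟨Q0, h1.mem, W0, hM.trans h1.mem h1.pm.mem, h1, h2, h3⟩
  obtain ⟨W, hW, h5, h6, h7⟩ := hK.2 3 (fun W v => Good c (v 2) W ∧ v 0 ∈ v 2 ∧
      v 1 ∈ (ZFSet.sUnion W : ZFSet.{0})) (by
    apply Dfn.and (h.good'.comp ![3, 0])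
    apply Dfn.and (Dfn.mem (DfnF.proj 1) (DfnF.proj 3))
    exact Dfn.mem (DfnF.proj 2) (hB.sUnion' (DfnF.proj 0)))
    ![x, β, Q] (by
      intro i
      fin_cases i
      exacts [hx, hβ, hQ]) h4
  exact ⟨Q, hQ, W, hW, h5, h6, h7⟩

end

theorem Ifc.cmp {U : ZFSet.{0}} {c : Cardinal.{0}} (h : Ifc U c) : ∀ H K : ZFSet.{0}, H ⊆ K →
    TV (HH c) {x | x ∈ H} → TV (HH c) {x | x ∈ K} → K.card ≤ ℵ₀ →
    im (col H) H = im (col K) K ∨ im (col H) H ∈ im (col K) K := by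
  intro H K hHK hH hK hKc
  have hM := full_HH h.inf
  have hB := hM.base
  have hHc : H.card ≤ ℵ₀ := (ZFSet.card_mono hHK).trans hKc
  have hkH := hH.kap_mem h.inf
  have hkK := hK.kap_mem h.inf
  have hkM := mem_kap h.inf
  set β := col H (kap c) with hβ
  have hβo : β.IsOrdinal := col_isOrdinal ord_kap
  have hβo' : (col K (kap c)).IsOrdinal := col_isOrdinal ord_kap
  have hββ : β ⊆ col K (kap c) := col_ord_sub hHK ord_kap
  -- models for the elements of `N`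
  have h1 : ∀ X ∈ im (col H) H, X ⊆ ZFSet.prod β β → ∃ Q ∈ H, ∃ W ∈ H, Good c Q W ∧
      X ∈ col H Q ∧ β ∈ (ZFSet.sUnion (col H W) : ZFSet.{0}) ∧
      col K (kap c) ∈ (ZFSet.sUnion (col K W) : ZFSet.{0}) := by
    intro X hX hX'
    obtain ⟨X1, hX1, rfl⟩ := mem_im.1 hX
    obtain ⟨Q, hQ, W, hW, h2, h3, h4⟩ := h.exists_good hH hX1 hkH ord_kap
    exact ⟨Q, hQ, W, hW, h2, mem_col.2 ⟨X1, h3, hX1, rfl⟩, (hH.memU_iff hM hkH hW).2 h4,
      (hK.memU_iff hM hkK (hHK hW)).2 h4⟩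
  -- (1)
  have h2 : ∀ X ∈ im (col H) H, X ⊆ ZFSet.prod β β → X ∈ im (col K) K := by
    intro X hX hX'
    obtain ⟨Q, hQ, W, hW, h2, h3, h4, h5⟩ := h1 X hX hX'
    obtain ⟨h6, -⟩ := h.good_col hH hHc hQ hW h2
    obtain ⟨h7, -⟩ := h.good_col hK hKc (hHK hQ) (hHK hW) h2
    have hel : Elem {z | z ∈ col H Q} {z | z ∈ col K Q} fun y => col K (inv H y) := by
      constructor
      · intro x hx
        obtain ⟨u, hu, hu', rfl⟩ := mem_col.1 hx
        rw [hH.inv_col hM hu']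
        exact mem_col.2 ⟨u, hu, hHK hu', rfl⟩
      · intro n φ v hv
        have h1 : ∀ i, ∃ u, u ∈ Q ∧ u ∈ H ∧ v i = col H u := fun i => mem_col.1 (hv i)
        choose u hu hu' hvu using h1
        obtain rfl : v = fun i => col H (u i) := funext hvu
        rw [hH.sat_rel hM hQ φ hu']
        have h2 : (fun i => col K (inv H (col H (u i)))) = fun i => col K (u i) :=
          funext fun i => by rw [hH.inv_col hM (hu' i)]
        rw [h2, hK.sat_rel hM (hHK hQ) φ fun i => hHK (hu' i)]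
    have h8 : β ∈ (ZFSet.sUnion (col K W) : ZFSet.{0}) := by
      rcases (ZFSet.IsOrdinal.subset_iff_eq_or_mem hβo hβo').1 hββ with h9 | h9
      · rw [h9]
        exact h5
      · exact h7.pm.ord.mem_trans h9 h5
    have h9 := h.sub h6 h7 hel (by
      beta_reduce
      rw [hH.inv_col hM hW]) β h4 h8 X h3 hX'
    exact col_trans _ (col_mem_im (hHK hQ)) _ h9
  by_cases hA : ∃ E, E ∈ im (col K) K ∧ E ⊆ ZFSet.prod β β ∧ E ∉ im (col H) H
  · -- case A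
    right
    obtain ⟨E, ⟨hE, hE', hE''⟩, hmin⟩ := h.wf _ hA
    obtain ⟨E, hEK, rfl⟩ := mem_im.1 hE
    have hβK : ∃ b ∈ K, β = col K b ∧ b.IsOrdinal := by
      rcases (ZFSet.IsOrdinal.subset_iff_eq_or_mem hβo hβo').1 hββ with h9 | h9
      · exact ⟨kap c, hkK, h9, ord_kap⟩
      · obtain ⟨b, hb, hb', h10⟩ := mem_col.1 h9
        exact ⟨b, hb', h10, ord_kap.mem hb⟩
    obtain ⟨b, hbK, hb, hbo⟩ := hβK
    obtain ⟨Q, hQ, W, hW, h3, h4, h5⟩ := h.exists_good hK hEK hbK hbo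
    obtain ⟨h6, h7⟩ := h.good_col hK hKc hQ hW h3
    have h8 : β ∈ (ZFSet.sUnion (col K W) : ZFSet.{0}) := by
      rw [hb]
      exact (hK.memU_iff hM hbK hW).2 h5
    have h9 : col K E ∈ col K Q := mem_col.2 ⟨E, h4, hEK, rfl⟩
    have h10 : ∀ X ∈ K, X ∈ Q → X ⊆ ZFSet.prod b b → (ltW {z | z ∈ Q} W X E ↔
        ltW Set.univ U (col K X) (col K E)) := by
      intro X hX hXQ hXb
      have h11 := h.tr h6 h3 h7 (hK.inv_col hM hW) (col K X) (mem_col.2 ⟨X, hXQ, hX, rfl⟩)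
        (col K E) h9
      rw [hK.inv_col hM hX, hK.inv_col hM hEK] at h11
      rw [← h11]
      refine h.lt_iff h6 β h8 _ (mem_col.2 ⟨X, hXQ, hX, rfl⟩) _ h9 ?_ hE'
      rw [hb]
      exact (hK.rlc_iff hM hX hbK).2 hXb
    let F : (Fin 4 → ZFSet.{0}) → ZFSet.{0} := fun v =>
      ZFSet.sep (fun X => Rl X (v 2) ∧ ltW {z | z ∈ v 0} (v 1) X (v 3)) (v 0)
    have hF : DfnF ∅ (HH c) F := by
      refine hM.sep' (Q := fun X v => Rl X (v 2) ∧ ltW {z | z ∈ v 0} (v 1) X (v 3))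
        (DfnF.proj 0) ?_
      apply Dfn.and
      · exact (d0_Rl.comp ![0, 3]).dfn hB.trans
      · exact h.lt'.comp ![1, 2, 0, 4]
    have hS : F ![Q, W, b, E] ∈ K := hK.opN hF (by
      intro i
      fin_cases i
      exacts [hQ, hW, hbK, hEK])
    have hS' : ∀ X, X ∈ F ![Q, W, b, E] ↔ X ∈ Q ∧ Rl X b ∧ ltW {z | z ∈ Q} W X E := fun X =>
      ZFSet.mem_sep
    refine hK.key h.inf hH hS hbK hb.symm fun y => ?_
    rw [← hb]
    constructor
    · intro hy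
      obtain ⟨X, hX, hXK, rfl⟩ := mem_col.1 hy
      obtain ⟨hXQ, hXb, hXE⟩ := (hS' X).1 hX
      have hX2 : col K X ⊆ ZFSet.prod β β := by
        rw [hb]
        exact (hK.rlc_iff hM hXK hbK).2 (rl_iff.1 hXb)
      refine ⟨?_, hX2⟩
      by_contra h11
      exact hmin _ ⟨col_mem_im hXK, hX2, h11⟩ ((h10 X hXK hXQ (rl_iff.1 hXb)).1 hXE)
    · rintro ⟨hy, hy'⟩
      obtain ⟨q, hq, w, hw, h11, h12, h13, h14⟩ := h1 y hy hy'
      obtain ⟨h15, -⟩ := h.good_col hH hHc hq hw h11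
      have h16 : ltW Set.univ U y (col K E) := by
        rcases h.tri y (col K E) with h16 | h16 | h16
        · exact h16
        · exact absurd (h16 ▸ hy) hE''
        · have h17 := h.lt_mem h15 β h13 y h12 hy' _ hE' h16
          exact absurd (col_trans _ (col_mem_im hq) _ h17) hE''
      have h17 := h.lt_mem h6 β h8 _ h9 hE' y hy' h16
      obtain ⟨X, hXQ, hXK, rfl⟩ := mem_col.1 h17
      have hXb : X ⊆ ZFSet.prod b b := by
        rw [hb] at hy'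
        exact (hK.rlc_iff hM hXK hbK).1 hy'
      exact mem_col.2 ⟨X, (hS' X).2 ⟨hXQ, rl_iff.2 hXb, (h10 X hXK hXQ hXb).2 h16⟩, hXK, rfl⟩
  · -- case B
    have hA : ∀ E, E ∈ im (col K) K → E ⊆ ZFSet.prod β β → E ∈ im (col H) H := by
      intro E h3 h4
      by_contra h5
      exact hA ⟨E, h3, h4, h5⟩
    rcases (ZFSet.IsOrdinal.subset_iff_eq_or_mem hβo hβo').1 hββ with h9 | h9
    · left
      ext z
      constructor
      · intro hz
        obtain ⟨x, hx, rfl⟩ := mem_im.1 hz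
        obtain ⟨E, hE, h6, f, hf, h7, h8⟩ := hH.exists_cd h.inf hx
        have h10 := h2 (col H E) (col_mem_im hE) ((hH.rlc_iff hM hE hkH).2 h6)
        obtain ⟨E', hE', h11⟩ := mem_im.1 h10
        obtain ⟨f2, hf2, x2, hx2, -, -, h13⟩ := hK.dcd hM hH hkH hE hf hx hkK hE' h9 h11 h7 h8
        rw [h13]
        exact col_mem_im hx2
      · intro hz
        obtain ⟨x, hx, rfl⟩ := mem_im.1 hz
        obtain ⟨E, hE, h6, f, hf, h7, h8⟩ := hK.exists_cd h.inf hx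
        have h10 := hA (col K E) (col_mem_im hE) (by
          rw [h9]
          exact (hK.rlc_iff hM hE hkK).2 h6)
        obtain ⟨E', hE', h11⟩ := mem_im.1 h10
        obtain ⟨f2, hf2, x2, hx2, -, -, h13⟩ := hH.dcd hM hK hkK hE hf hx hkH hE' h9.symm h11
          h7 h8
        rw [h13]
        exact col_mem_im hx2
    · right
      obtain ⟨b, hb, hbK, h10⟩ := mem_col.1 h9
      have hpM := h.pow b hb
      obtain ⟨S, hS, h11⟩ := hK.2 1 (fun S v => ∀ X ∈ HH c, X ∈ S ↔ Rl X (v 0)) (by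
        apply Dfn.all
        apply Dfn.iff
        · exact Dfn.mem (DfnF.proj 0) (DfnF.proj 1)
        · exact (d0_Rl.comp ![0, 2]).dfn hB.trans)
        ![b] (by
          intro i
          fin_cases i
          exact hbK) ⟨_, hpM, fun X _ => by
            rw [ZFSet.mem_powerset]
            exact rl_iff.symm⟩
      have h11 : ∀ X ∈ HH c, X ∈ S ↔ Rl X b := h11
      refine hK.key h.inf hH hS hbK h10.symm fun y => ?_
      rw [← h10]
      constructor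
      · intro hy
        obtain ⟨X, hX, hXK, rfl⟩ := mem_col.1 hy
        have hX2 : col K X ⊆ ZFSet.prod β β := by
          rw [h10]
          exact (hK.rlc_iff hM hXK hbK).2 (rl_iff.1 ((h11 X (hK.1 hXK)).1 hX))
        exact ⟨hA _ (col_mem_im hXK) hX2, hX2⟩
      · rintro ⟨hy, hy'⟩
        obtain ⟨X, hXK, rfl⟩ := mem_im.1 (h2 y hy hy')
        have hXb : X ⊆ ZFSet.prod b b := by
          rw [h10] at hy'
          exact (hK.rlc_iff hM hXK hbK).1 hy'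
        exact mem_col.2 ⟨X, (h11 X (hK.1 hXK)).2 (rl_iff.2 hXb), hXK, rfl⟩

end Pool.Agent.R587
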