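import Pool.Agent.R587.Defs
import Pool.Agent.W868.DZero

/-!
# Hereditarily small sets, tuples, and the coded formulas
-/

set_option autoImplicit false

namespace Pool.Agent.R587

open Pool.Agent.W868
open ZFSet (pair)

/-- `x` is hereditarily of cardinality at most `c`. -/
inductive Hl (c : Cardinal.{0}) : ZFSet.{0} → Prop
  | mk (x : ZFSet.{0}) (h : x.card ≤ c) (h' : ∀ y ∈ x, Hl c y) : Hl c x

/-- The class of the sets that are hereditarily of cardinality at most `c`. -/
def HH (c : Cardinal.{0}) : Set ZFSet.{0} := {x | Hl c x}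

/-- `M` is closed under subsets of size at most `c`, and its elements are such subsets. -/
structure Full (c : Cardinal.{0}) (M : Set ZFSet.{0}) : Prop where
  inf : Cardinal.aleph0 ≤ c
  iff : ∀ x, x ∈ M ↔ (∀ y ∈ x, y ∈ M) ∧ x.card ≤ c

/-- A tuple, as a set: the function on `{0, ..., k - 1}`. -/
noncomputable def tp {k : ℕ} (x : Fin k → ZFSet.{0}) : ZFSet.{0} :=
  ZFSet.range fun j : Fin k => pair (nat j) (x j)

theorem mem_tp {k : ℕ} {x : Fin k → ZFSet.{0}} {p : ZFSet.{0}} :
    p ∈ tp x ↔ ∃ j : Fin k, p = pair (nat j) (x j) := by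
  rw [tp, ZFSet.mem_range]
  exact exists_congr fun j => eq_comm

/-- The list with the number `c`. -/
def ls (c : ℕ) : List ℕ := Denumerable.ofNat (List ℕ) c

/-- The tuple of the values of `f` at the members of a list. -/
noncomputable def tup (l : List ℕ) (f : ℕ → ZFSet.{0}) : ZFSet.{0} :=
  tp fun j : Fin l.length => f (l.get j)

theorem lt_of_tag {n : ℕ} (h : 1 ≤ n.unpair.1) : n.unpair.2 < n := by
  have h1 := Nat.add_le_pair n.unpair.1 n.unpair.2
  rw [Nat.pair_unpair] at h1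
  omega

/-- Truth of the formula number `n` in `N` (with `∈`), where `f` interprets the variables. The
formulas numbered `⟨0, _⟩, ..., ⟨6, _⟩` are the second-order formulas, where `f 0` is the domain
of a structure and `f 1` the set of the pairs of a relation symbol and a tuple that has the
relation. -/
def GS (N : Set ZFSet.{0}) (n : ℕ) (f : ℕ → ZFSet.{0}) : Prop :=
  match h : n.unpair.1 with
  | 0 => pair (nat n.unpair.2.unpair.1) (tup (ls n.unpair.2.unpair.2) f) ∈ f 1
  | 1 => tup (ls n.unpair.2.unpair.2) f ∈ f n.unpair.2.unpair.1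
  | 2 => f n.unpair.2.unpair.1 = f n.unpair.2.unpair.2
  | 3 => ¬ GS N n.unpair.2 f
  | 4 => GS N n.unpair.2.unpair.1 f ∧ GS N n.unpair.2.unpair.2 f
  | 5 => ∃ z ∈ N, z ∈ f 0 ∧ GS N n.unpair.2.unpair.2 (Function.update f n.unpair.2.unpair.1 z)
  | 6 => ∃ z ∈ N, (∀ t ∈ z, ZFSet.IsFunc (nat n.unpair.2.unpair.1) (f 0) t) ∧
      GS N n.unpair.2.unpair.2.unpair.2
        (Function.update f n.unpair.2.unpair.2.unpair.1 z)
  | 7 => f n.unpair.2.unpair.1 ∈ f n.unpair.2.unpair.2
  | _ + 8 => ∃ z ∈ N, GS N n.unpair.2.unpair.2 (Function.update f n.unpair.2.unpair.1 z)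
termination_by n
decreasing_by
  all_goals
    have h1 : n.unpair.2 < n := lt_of_tag (by omega)
    have h2 := Nat.unpair_left_le n.unpair.2
    have h3 := Nat.unpair_right_le n.unpair.2
    have h4 := Nat.unpair_right_le n.unpair.2.unpair.2
    omega

/-- One step of the definition of truth. -/
def Stp (N : Set ZFSet.{0}) (T : ℕ → (ℕ → ZFSet.{0}) → Prop) (t a : ℕ) (f : ℕ → ZFSet.{0}) :
    Prop :=
  match t with
  | 0 => pair (nat a.unpair.1) (tup (ls a.unpair.2) f) ∈ f 1
  | 1 => tup (ls a.unpair.2) f ∈ f a.unpair.1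
  | 2 => f a.unpair.1 = f a.unpair.2
  | 3 => ¬ T a f
  | 4 => T a.unpair.1 f ∧ T a.unpair.2 f
  | 5 => ∃ z ∈ N, z ∈ f 0 ∧ T a.unpair.2 (Function.update f a.unpair.1 z)
  | 6 => ∃ z ∈ N, (∀ t ∈ z, ZFSet.IsFunc (nat a.unpair.1) (f 0) t) ∧
      T a.unpair.2.unpair.2 (Function.update f a.unpair.2.unpair.1 z)
  | 7 => f a.unpair.1 ∈ f a.unpair.2
  | _ + 8 => ∃ z ∈ N, T a.unpair.2 (Function.update f a.unpair.1 z)

theorem GS_iff (N : Set ZFSet.{0}) (n : ℕ) (f : ℕ → ZFSet.{0}) :
    GS N n f ↔ Stp N (GS N) n.unpair.1 n.unpair.2 f := by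
  rw [GS]
  split <;> rename_i h <;> simp only [h, Stp]

theorem GS_pair (N : Set ZFSet.{0}) (t a : ℕ) (f : ℕ → ZFSet.{0}) :
    GS N (Nat.pair t a) f ↔ Stp N (GS N) t a f := by
  rw [GS_iff]
  simp

/-- The assignment for the truth of a formula about `b`. -/
noncomputable def asg (b : ZFSet.{0}) : ℕ → ZFSet.{0} := fun i => if i = 4 then b else ∅

/-- The assignment for the truth of a second-order formula in the structure `(D, c)`. -/
noncomputable def asd (D c : ZFSet.{0}) : ℕ → ZFSet.{0} :=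
  fun i => if i = 0 then D else if i = 1 then c else ∅

/-- The set of the numbers of the formulas that are true of `b` in `N`. -/
noncomputable def JJ (N : ZFSet.{0}) (b : ZFSet.{0}) : ZFSet.{0} :=
  ZFSet.sep (fun x => ∃ n : ℕ, x = nat n ∧ GS {y | y ∈ N} n (asg b)) ZFSet.omega

/-- `a` is a transitive coded copy of the structure `A`. -/
def IsCode {m : ℕ} {ar : Fin m → ℕ} (A : Struc ar) (a : ZFSet.{0}) : Prop :=
  ∃ (D c : ZFSet.{0}) (g : A.Dom → ZFSet.{0}), a = pair D c ∧ Function.Injective g ∧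
    (∀ x, x ∈ D ↔ ∃ y, x = g y) ∧ D.IsTransitive ∧
    ∀ p, p ∈ c ↔ ∃ (r : Fin m) (x : Fin (ar r) → A.Dom), A.R r x ∧
      p = pair (nat r) (tp fun j => g (x j))

end Pool.Agent.R587
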