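import Pool.Agent.R587.Base
import Pool.Agent.W868.Cond

/-!
# Calculus of definable relations over a class of hereditarily small sets
-/

set_option autoImplicit false
set_option linter.unreachableTactic false
set_option linter.unusedTactic false

namespace Pool.Agent.R587

open Pool.Agent.W868
open ZFSet (pair)
open Cardinal

/-! ### Cardinalities -/

theorem card_range_le {α : Type} (f : α → ZFSet.{0}) : (ZFSet.range f).card ≤ #α := by
  have h := ZFSet.lift_card_range_le (f := f)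
  simpa using h

theorem card_sUnion_le {c : Cardinal.{0}} (hc : ℵ₀ ≤ c) {x : ZFSet.{0}} (hx : x.card ≤ c)
    (h : ∀ y ∈ x, y.card ≤ c) : (ZFSet.sUnion x : ZFSet.{0}).card ≤ c := by
  rw [← Cardinal.lift_le.{1}, ← ZFSet.cardinalMk_coe_sort]
  have h1 : #(↥(ZFSet.sUnion x : ZFSet.{0})) ≤ #(⋃ y : x, {z : ZFSet.{0} | z ∈ (y : ZFSet.{0})} : Set ZFSet.{0}) := by
    refine Cardinal.mk_le_of_injective (f := fun z : (ZFSet.sUnion x : ZFSet.{0}) => ⟨z.1, ?_⟩) ?_
    · obtain ⟨y, hy, hz⟩ := ZFSet.mem_sUnion.1 z.2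
      exact Set.mem_iUnion.2 ⟨⟨y, hy⟩, hz⟩
    · intro a b hab
      exact Subtype.ext (by simpa using hab)
  refine h1.trans ((Cardinal.mk_iUnion_le_sum_mk).trans ?_)
  have h2 : Cardinal.sum (fun y : x => #({z : ZFSet.{0} | z ∈ (y : ZFSet.{0})} : Set ZFSet.{0})) ≤
      Cardinal.sum (fun _ : x => Cardinal.lift.{1} c) := by
    refine Cardinal.sum_le_sum _ _ fun y => ?_
    have h3 := ZFSet.cardinalMk_coe_sort (x := y.1)
    refine le_trans (le_of_eq ?_) (Cardinal.lift_le.2 (h y.1 y.2))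
    exact h3
  refine h2.trans ?_
  rw [Cardinal.sum_const']
  have h4 : #↥x ≤ Cardinal.lift.{1} c := by
    rw [ZFSet.cardinalMk_coe_sort]
    exact Cardinal.lift_le.2 hx
  have h5 : ℵ₀ ≤ Cardinal.lift.{1} c := by
    rw [Cardinal.aleph0_le_lift]
    exact hc
  exact (mul_le_mul' h4 le_rfl).trans (Cardinal.mul_eq_self h5).le

theorem card_pair_le {x y : ZFSet.{0}} : ({x, y} : ZFSet.{0}).card ≤ ℵ₀ := by
  refine ZFSet.card_insert_le.trans ?_
  rw [ZFSet.card_singleton]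
  exact_mod_cast (Cardinal.natCast_lt_aleph0 (n := 2)).le

namespace Full

variable {c : Cardinal.{0}} {M : Set ZFSet.{0}} (hM : Full c M)

include hM

theorem trans {x : ZFSet.{0}} (hx : x ∈ M) {y : ZFSet.{0}} (hy : y ∈ x) : y ∈ M :=
  ((hM.iff x).1 hx).1 y hy

theorem card {x : ZFSet.{0}} (hx : x ∈ M) : x.card ≤ c := ((hM.iff x).1 hx).2

theorem sub {x y : ZFSet.{0}} (hx : x ∈ M) (h : y ⊆ x) : y ∈ M :=
  (hM.iff y).2 ⟨fun _ hz => hM.trans hx (h hz), (ZFSet.card_mono h).trans (hM.card hx)⟩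

theorem of_countable {x : ZFSet.{0}} (h : ∀ y ∈ x, y ∈ M) (h' : x.card ≤ ℵ₀) : x ∈ M :=
  (hM.iff x).2 ⟨h, h'.trans hM.inf⟩

theorem base : IsBase M := by
  refine ⟨fun x hx y hy => hM.trans hx hy, fun x hx y hy => ?_, fun x hx => ?_⟩
  · refine hM.of_countable (fun z hz => ?_) card_pair_le
    rcases ZFSet.mem_pair.1 hz with rfl | rfl
    · exact hx
    · exact hy
  · refine (hM.iff _).2 ⟨fun z hz => ?_, card_sUnion_le hM.inf (hM.card hx)
      fun y hy => hM.card (hM.trans hx hy)⟩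
    obtain ⟨y, hy, hz⟩ := ZFSet.mem_sUnion.1 hz
    exact hM.trans (hM.trans hx hy) hz

theorem empty_mem : (∅ : ZFSet.{0}) ∈ M :=
  (hM.iff _).2 ⟨fun y hy => absurd hy (ZFSet.notMem_empty y), by simp⟩

theorem union_mem {x y : ZFSet.{0}} (hx : x ∈ M) (hy : y ∈ M) : x ∪ y ∈ M := by
  have h := hM.base.union _ (hM.base.pairing _ hx _ hy)
  rwa [ZFSet.sUnion_pair] at h

theorem single_mem {x : ZFSet.{0}} (hx : x ∈ M) : ({x} : ZFSet.{0}) ∈ M := by
  have h := hM.base.pairing _ hx _ hx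
  rwa [ZFSet.pair_eq_singleton] at h

theorem insert_mem {x y : ZFSet.{0}} (hx : x ∈ M) (hy : y ∈ M) : insert x y ∈ M := by
  have h := hM.union_mem (hM.single_mem hx) hy
  have h1 : ({x} ∪ y : ZFSet.{0}) = insert x y := by
    ext z
    simp
  rwa [h1] at h

theorem nat_mem (n : ℕ) : nat n ∈ M := by
  induction n with
  | zero => exact hM.empty_mem
  | succ n ih => exact hM.insert_mem ih ih

theorem omega_mem : ZFSet.omega ∈ M := by
  refine hM.of_countable (fun y hy => ?_) card_omega.le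
  obtain ⟨n, rfl⟩ := mem_omega_iff.1 hy
  exact hM.nat_mem n

theorem pair_mem {x y : ZFSet.{0}} (hx : x ∈ M) (hy : y ∈ M) : pair x y ∈ M :=
  hM.base.pairing _ (hM.single_mem hx) _ (hM.base.pairing _ hx _ hy)

theorem of_pair_mem {x y : ZFSet.{0}} (h : pair x y ∈ M) : x ∈ M ∧ y ∈ M := by
  have h1 : ({x, y} : ZFSet.{0}) ∈ M := hM.trans h (by simp [ZFSet.pair])
  exact ⟨hM.trans h1 (by simp), hM.trans h1 (by simp)⟩

theorem im_mem {x : ZFSet.{0}} (hx : x ∈ M) {h : ZFSet.{0} → ZFSet.{0}} (hh : ∀ p ∈ x, h p ∈ M) :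
    im h x ∈ M := by
  refine (hM.iff _).2 ⟨fun y hy => ?_, card_im_le.trans (hM.card hx)⟩
  obtain ⟨p, hp, rfl⟩ := mem_im.1 hy
  exact hh p hp

theorem sep_mem {x : ZFSet.{0}} (hx : x ∈ M) {Q : ZFSet.{0} → Prop} : ZFSet.sep Q x ∈ M :=
  hM.sub hx fun _ hz => (ZFSet.mem_sep.1 hz).1

theorem prod_mem {x y : ZFSet.{0}} (hx : x ∈ M) (hy : y ∈ M) : ZFSet.prod x y ∈ M := by
  refine (hM.iff _).2 ⟨fun p hp => ?_, ?_⟩
  · obtain ⟨a, ha, b, hb, rfl⟩ := ZFSet.mem_prod.1 hp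
    exact hM.pair_mem (hM.trans hx ha) (hM.trans hy hb)
  · rw [card_prod]
    exact (mul_le_mul' (hM.card hx) (hM.card hy)).trans (Cardinal.mul_eq_self hM.inf).le

end Full

/-! ### Definable functions -/

section

variable {S M : Set ZFSet.{0}} {n : ℕ}

/-- Substitution of several definable functions. -/
theorem Dfn.exN : ∀ (k m : ℕ) (Q : (Fin k → ZFSet.{0}) → (Fin m → ZFSet.{0}) → Prop),
    (∀ (l : ℕ) (ρ : Fin k → Fin l) (σ : Fin m → Fin l),
      Dfn S M fun w : Fin l → ZFSet.{0} => Q (fun i => w (ρ i)) fun j => w (σ j)) →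
    Dfn S M fun v : Fin m → ZFSet.{0} => ∃ u : Fin k → ZFSet.{0}, (∀ i, u i ∈ M) ∧ Q u v := by
  intro k
  induction k with
  | zero =>
    intro m Q h
    refine (h m Fin.elim0 id).congr fun v _ => ?_
    constructor
    · intro h1
      exact ⟨_, fun i => i.elim0, h1⟩
    · rintro ⟨u, -, h1⟩
      have h2 : u = fun i => v (Fin.elim0 i) := funext fun i => i.elim0
      rw [h2] at h1
      exact h1
  | succ k ih =>
    intro m Q h
    have h1 := ih (m + 1) (fun u v => Q (Fin.cons (v 0) u) (Fin.tail v)) (by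
      intro l ρ σ
      refine (h l (Fin.cons (σ 0) ρ) (fun j => σ j.succ)).congr fun w _ => ?_
      have h2 : (fun i => w ((Fin.cons (σ 0) ρ : Fin (k + 1) → Fin l) i)) =
          Fin.cons (w (σ 0)) fun i => w (ρ i) := by
        funext i
        refine Fin.cases ?_ (fun i => ?_) i
        · rfl
        · rfl
      rw [h2]
      rfl)
    refine (Dfn.ex (Q := fun a v => ∃ u : Fin k → ZFSet.{0}, (∀ i, u i ∈ M) ∧
      Q (Fin.cons a u) v) h1).congr fun v _ => ?_
    constructor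
    · rintro ⟨a, ha, u, hu, h2⟩
      refine ⟨Fin.cons a u, fun i => ?_, h2⟩
      refine Fin.cases ?_ (fun i => ?_) i
      · exact ha
      · exact hu i
    · rintro ⟨u, hu, h2⟩
      refine ⟨u 0, hu 0, Fin.tail u, fun i => hu i.succ, ?_⟩
      rw [Fin.cons_self_tail]
      exact h2

theorem Dfn.allFin {k : ℕ} {R : Fin k → (Fin n → ZFSet.{0}) → Prop} (h : ∀ i, Dfn S M (R i)) :
    Dfn S M fun v => ∀ i, R i v := by
  induction k with
  | zero => exact Dfn.tt.congr fun v _ => ⟨fun _ i => i.elim0, fun _ => trivial⟩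
  | succ k ih =>
    refine ((h 0).and (ih fun i => h i.succ)).congr fun v _ => ?_
    exact (Fin.forall_fin_succ (P := fun i => R i v)).symm

theorem Dfn.exFin {k : ℕ} {R : Fin k → (Fin n → ZFSet.{0}) → Prop} (h : ∀ i, Dfn S M (R i)) :
    Dfn S M fun v => ∃ i, R i v :=
  (Dfn.allFin fun i => (h i).not).not.congr fun v _ => by
    simp

theorem Dfn.compN {k : ℕ} {R : (Fin k → ZFSet.{0}) → Prop} (h : Dfn S M R)
    {G : Fin k → (Fin n → ZFSet.{0}) → ZFSet.{0}} (hG : ∀ i, DfnF S M (G i)) :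
    Dfn S M fun v => R fun i => G i v := by
  have h1 := Dfn.exN (S := S) (M := M) k n (fun u v => (∀ i, u i = G i v) ∧ R u) (by
    intro l ρ σ
    refine Dfn.and (Dfn.allFin fun i => ?_) (h.comp ρ)
    exact (hG i).2.comp (Fin.cons (ρ i) σ))
  refine h1.congr fun v hv => ?_
  constructor
  · rintro ⟨u, -, h2, h3⟩
    have h4 : u = fun i => G i v := funext h2
    rwa [h4] at h3
  · intro h2
    exact ⟨_, fun i => (hG i).1 v hv, fun i => rfl, h2⟩

theorem DfnF.compN {k : ℕ} {F : (Fin k → ZFSet.{0}) → ZFSet.{0}} (h : DfnF S M F)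
    {G : Fin k → (Fin n → ZFSet.{0}) → ZFSet.{0}} (hG : ∀ i, DfnF S M (G i)) :
    DfnF S M fun v => F fun i => G i v := by
  refine ⟨fun v hv => h.1 _ fun i => (hG i).1 v hv, ?_⟩
  have h1 := Dfn.compN (n := n + 1) h.2
    (G := Fin.cons (fun w => w 0) fun i w => G i (Fin.tail w)) (by
      intro i
      refine Fin.cases ?_ (fun i => ?_) i
      · exact DfnF.proj 0
      · exact (hG i).tail)
  refine h1.congr fun w _ => ?_
  rfl

/-- Definable relations without parameters are given by formulas without parameters. -/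
theorem dfn_iff {R : (Fin n → ZFSet.{0}) → Prop} : Dfn ∅ M R ↔
    ∃ φ : Fml Empty n, ∀ v, (∀ i, v i ∈ M) → (Sat M Empty.elim φ v ↔ R v) := by
  constructor
  · rintro ⟨φ, h1, h2⟩
    have key : ∀ {k : ℕ} (φ : Fml ZFSet.{0} k), φ.Over ∅ → ∃ ψ : Fml Empty k,
        ψ.map Empty.elim = φ := by
      have ht : ∀ {k : ℕ} (s : Fin k ⊕ ZFSet.{0}), TOver ∅ s → ∃ t : Fin k ⊕ Empty,
          Sum.map id Empty.elim t = s := by
        intro k s hs
        cases s with
        | inl i => exact ⟨Sum.inl i, rfl⟩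
        | inr a => exact absurd (hs a rfl) (Set.notMem_empty a)
      intro k φ
      induction φ with
      | mem s t =>
        rintro ⟨h1, h2⟩
        obtain ⟨s', rfl⟩ := ht s h1
        obtain ⟨t', rfl⟩ := ht t h2
        exact ⟨.mem s' t', rfl⟩
      | eq s t =>
        rintro ⟨h1, h2⟩
        obtain ⟨s', rfl⟩ := ht s h1
        obtain ⟨t', rfl⟩ := ht t h2
        exact ⟨.eq s' t', rfl⟩
      | neg φ ih =>
        intro h
        obtain ⟨ψ, rfl⟩ := ih h
        exact ⟨.neg ψ, rfl⟩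
      | and φ χ ih1 ih2 =>
        rintro ⟨h1, h2⟩
        obtain ⟨ψ1, rfl⟩ := ih1 h1
        obtain ⟨ψ2, rfl⟩ := ih2 h2
        exact ⟨.and ψ1 ψ2, rfl⟩
      | ex φ ih =>
        intro h
        obtain ⟨ψ, rfl⟩ := ih h
        exact ⟨.ex ψ, rfl⟩
    obtain ⟨ψ, rfl⟩ := key φ h1
    refine ⟨ψ, fun v hv => ?_⟩
    rw [← h2 v hv, sat_map]
    have h3 : (id ∘ Empty.elim : Empty → ZFSet.{0}) = Empty.elim := funext fun a => a.elim
    rw [h3]
  · rintro ⟨φ, h⟩
    refine ⟨φ.map Empty.elim, ?_, fun v hv => ?_⟩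
    · rw [over_map]
      have h1 : ∀ {m : ℕ} (ψ : Fml Empty m), ψ.Over (Empty.elim ⁻¹' (∅ : Set ZFSet.{0})) := by
        intro m ψ
        induction ψ with
        | mem s t => exact ⟨fun a => a.elim, fun a => a.elim⟩
        | eq s t => exact ⟨fun a => a.elim, fun a => a.elim⟩
        | neg φ ih => exact ih
        | and φ ψ ih1 ih2 => exact ⟨ih1, ih2⟩
        | ex φ ih => exact ih
      exact h1 φ
    · rw [sat_map, ← h v hv]
      have h2 : (id ∘ Empty.elim : Empty → ZFSet.{0}) = Empty.elim := funext fun a => a.elim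
      rw [h2]

end

/-! ### Operations -/

theorem dfnF_empty {S M : Set ZFSet.{0}} (hM : ∀ x ∈ M, ∀ y ∈ x, y ∈ M) (h0 : ∅ ∈ M) {n : ℕ} :
    DfnF S M fun _ : Fin n → ZFSet.{0} => (∅ : ZFSet.{0}) := by
  refine DfnF.of_unique (R := fun y _ => ∀ z ∈ M, ¬ z ∈ y) ?_ ?_
  · exact Dfn.all (Dfn.mem (DfnF.proj 0) (DfnF.proj 1)).not
  · intro v _
    refine ⟨h0, fun y hy => ?_⟩
    rw [ZFSet.eq_empty]
    exact ⟨fun h z hz => h z (hM y hy z hz) hz, fun h z _ => h z⟩

/-- A definable element gives constant functions. -/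
theorem dfnF_of_const {S M : Set ZFSet.{0}} {a : ZFSet.{0}} (ha : a ∈ M)
    (h : Dfn S M fun v : Fin 1 → ZFSet.{0} => v 0 = a) {n : ℕ} :
    DfnF S M fun _ : Fin n → ZFSet.{0} => a :=
  ⟨fun _ _ => ha, h.comp fun _ => 0⟩

namespace Full

variable {c : Cardinal.{0}} {M : Set ZFSet.{0}} (hM : Full c M) {S : Set ZFSet.{0}} {n : ℕ}
  {F G : (Fin n → ZFSet.{0}) → ZFSet.{0}}

include hM

theorem empty' : DfnF S M fun _ : Fin n → ZFSet.{0} => (∅ : ZFSet.{0}) :=
  dfnF_empty hM.base.trans hM.empty_mem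

theorem nat' (k : ℕ) : DfnF S M fun _ : Fin n → ZFSet.{0} => nat k := by
  induction k with
  | zero => exact hM.empty'
  | succ k ih => exact hM.base.insert' ih ih

theorem omega' : DfnF S M fun _ : Fin n → ZFSet.{0} => (ZFSet.omega : ZFSet.{0}) := by
  have hB := hM.base
  refine DfnF.of_unique (R := fun y _ => ∅ ∈ y ∧ (∀ z ∈ y, insert z z ∈ y) ∧
    ∀ x ∈ M, ∅ ∈ x → (∀ z ∈ x, insert z z ∈ x) → y ⊆ x) ?_ ?_
  · apply Dfn.and
    · exact Dfn.mem hM.empty' (DfnF.proj 0)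
    apply Dfn.and
    · apply hB.ball (DfnF.proj 0)
      exact Dfn.mem (hB.insert' (DfnF.proj 0) (DfnF.proj 0)) (DfnF.proj 1)
    · apply Dfn.all
      apply Dfn.imp
      · exact Dfn.mem hM.empty' (DfnF.proj 0)
      apply Dfn.imp
      · apply hB.ball (DfnF.proj 0)
        exact Dfn.mem (hB.insert' (DfnF.proj 0) (DfnF.proj 0)) (DfnF.proj 1)
      · exact hB.subset' (DfnF.proj 1) (DfnF.proj 0)
  · intro v _
    have key : ∀ x : ZFSet.{0}, ∅ ∈ x → (∀ z ∈ x, insert z z ∈ x) → ZFSet.omega ⊆ x := by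
      intro x h1 h2 z hz
      obtain ⟨k, rfl⟩ := mem_omega_iff.1 hz
      induction k with
      | zero => exact h1
      | succ k ih => exact h2 _ (ih (mem_omega_iff.2 ⟨k, rfl⟩))
    have h1 : (∅ : ZFSet.{0}) ∈ ZFSet.omega := mem_omega_iff.2 ⟨0, rfl⟩
    have h2 : ∀ z ∈ (ZFSet.omega : ZFSet.{0}), insert z z ∈ ZFSet.omega := by
      intro z hz
      obtain ⟨k, rfl⟩ := mem_omega_iff.1 hz
      exact mem_omega_iff.2 ⟨k + 1, rfl⟩
    refine ⟨hM.omega_mem, fun y hy => ?_⟩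
    constructor
    · rintro ⟨h3, h4, h5⟩
      ext z
      exact ⟨fun h => h5 _ hM.omega_mem h1 h2 h, fun h => key y h3 h4 h⟩
    · rintro rfl
      exact ⟨h1, h2, fun x _ h3 h4 => key x h3 h4⟩

theorem im' (hF : DfnF S M F) {h : ZFSet.{0} → (Fin n → ZFSet.{0}) → ZFSet.{0}}
    (hh : DfnF S M fun w : Fin (n + 1) → ZFSet.{0} => h (w 0) (Fin.tail w)) :
    DfnF S M fun v => im (fun p => h p v) (F v) := by
  have hB := hM.base
  refine DfnF.of_unique (R := fun y v => (∀ z ∈ y, ∃ p ∈ F v, z = h p v) ∧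
    ∀ p ∈ F v, ∃ z ∈ y, z = h p v) ?_ ?_
  · apply Dfn.and
    · apply hB.ball (DfnF.proj _)
      apply hB.bex hF.tail.tail
      refine Dfn.eq (DfnF.proj 1) ?_
      exact ⟨fun v hv => hh.1 (Fin.cons (v 0) (Fin.tail (Fin.tail (Fin.tail v)))) fun i => by
          refine Fin.cases ?_ (fun i => ?_) i
          · exact hv 0
          · exact hv _,
        hh.2.comp (Fin.cons 0 (Fin.cons 1 fun i => i.succ.succ.succ.succ))⟩
    · apply hB.ball hF.tail
      apply hB.bex (DfnF.proj _)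
      refine Dfn.eq (DfnF.proj 0) ?_
      exact ⟨fun v hv => hh.1 (Fin.cons (v 1) (Fin.tail (Fin.tail (Fin.tail v)))) fun i => by
          refine Fin.cases ?_ (fun i => ?_) i
          · exact hv 1
          · exact hv _,
        hh.2.comp (Fin.cons 0 (Fin.cons 2 fun i => i.succ.succ.succ.succ))⟩
  · intro v hv
    refine ⟨hM.im_mem (hF.1 v hv) fun p hp => hh.1 (Fin.cons p v) fun i => ?_, fun y hy => ?_⟩
    · refine Fin.cases ?_ (fun i => ?_) i
      · exact hM.trans (hF.1 v hv) hp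
      · exact hv i
    constructor
    · rintro ⟨h1, h2⟩
      ext z
      rw [mem_im]
      constructor
      · exact h1 z
      · rintro ⟨p, hp, rfl⟩
        obtain ⟨z, hz, hz'⟩ := h2 p hp
        exact hz' ▸ hz
    · rintro rfl
      exact ⟨fun z hz => mem_im.1 hz, fun p hp => ⟨_, mem_im.2 ⟨p, hp, rfl⟩, rfl⟩⟩

theorem sep' (hF : DfnF S M F) {Q : ZFSet.{0} → (Fin n → ZFSet.{0}) → Prop}
    (hQ : Dfn S M fun w : Fin (n + 1) → ZFSet.{0} => Q (w 0) (Fin.tail w)) :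
    DfnF S M fun v => ZFSet.sep (fun p => Q p v) (F v) := by
  have hB := hM.base
  refine DfnF.of_unique (R := fun y v => (∀ z ∈ y, z ∈ F v ∧ Q z v) ∧
    ∀ z ∈ F v, Q z v → z ∈ y) ?_ ?_
  · apply Dfn.and
    · apply hB.ball (DfnF.proj _)
      exact (Dfn.mem (DfnF.proj _) hF.tail.tail).and
        (hQ.comp (Fin.cons 0 fun i => i.succ.succ))
    · apply hB.ball hF.tail
      apply Dfn.imp (hQ.comp (Fin.cons 0 fun i => i.succ.succ))
      exact Dfn.mem (DfnF.proj 0) (DfnF.proj 1)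
  · intro v hv
    refine ⟨hM.sep_mem (hF.1 v hv), fun y hy => ?_⟩
    constructor
    · rintro ⟨h1, h2⟩
      ext z
      rw [ZFSet.mem_sep]
      exact ⟨h1 z, fun h => h2 z h.1 h.2⟩
    · rintro rfl
      exact ⟨fun z hz => ZFSet.mem_sep.1 hz, fun z h h' => ZFSet.mem_sep.2 ⟨h, h'⟩⟩

theorem fs' (hF : DfnF S M F) : DfnF S M fun v => fs (F v) := by
  have hB := hM.base
  refine DfnF.comp1 (f := fs) ?_ hF
  refine DfnF.of_unique (R := fun y v => (∃ b ∈ M, v 0 = pair y b) ∨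
    (y = ∅ ∧ ¬ ∃ a ∈ M, ∃ b ∈ M, v 0 = pair a b)) ?_ ?_
  · apply Dfn.or
    · apply Dfn.ex
      exact Dfn.eq (DfnF.proj 2) (hB.pair' (DfnF.proj 1) (DfnF.proj 0))
    · apply Dfn.and (Dfn.eq (DfnF.proj 0) hM.empty')
      apply Dfn.not
      apply Dfn.ex
      apply Dfn.ex
      exact Dfn.eq (DfnF.proj 3) (hB.pair' (DfnF.proj 1) (DfnF.proj 0))
  · intro v hv
    by_cases h : ∃ a b, v 0 = pair a b
    · obtain ⟨a, b, h1⟩ := h
      have h2 := hM.of_pair_mem (h1 ▸ hv 0)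
      rw [h1, fs_pair]
      refine ⟨h2.1, fun y _ => ?_⟩
      constructor
      · rintro (⟨b', -, h3⟩ | ⟨-, h3⟩)
        · exact (ZFSet.pair_inj.1 h3).1.symm
        · exact absurd ⟨a, h2.1, b, h2.2, rfl⟩ h3
      · rintro rfl
        exact Or.inl ⟨b, h2.2, rfl⟩
    · rw [fs, dif_neg h]
      refine ⟨hM.empty_mem, fun y _ => ?_⟩
      constructor
      · rintro (⟨b', -, h3⟩ | ⟨h3, -⟩)
        · exact absurd ⟨y, b', h3⟩ h
        · exact h3
      · rintro rfl
        exact Or.inr ⟨rfl, fun ⟨a, _, b, _, h3⟩ => h ⟨a, b, h3⟩⟩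

theorem sn' (hF : DfnF S M F) : DfnF S M fun v => sn (F v) := by
  have hB := hM.base
  refine DfnF.comp1 (f := sn) ?_ hF
  refine DfnF.of_unique (R := fun y v => (∃ b ∈ M, v 0 = pair b y) ∨
    (y = ∅ ∧ ¬ ∃ a ∈ M, ∃ b ∈ M, v 0 = pair a b)) ?_ ?_
  · apply Dfn.or
    · apply Dfn.ex
      exact Dfn.eq (DfnF.proj 2) (hB.pair' (DfnF.proj 0) (DfnF.proj 1))
    · apply Dfn.and (Dfn.eq (DfnF.proj 0) hM.empty')
      apply Dfn.not
      apply Dfn.ex
      apply Dfn.ex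
      exact Dfn.eq (DfnF.proj 3) (hB.pair' (DfnF.proj 1) (DfnF.proj 0))
  · intro v hv
    by_cases h : ∃ a b, v 0 = pair a b
    · obtain ⟨a, b, h1⟩ := h
      have h2 := hM.of_pair_mem (h1 ▸ hv 0)
      rw [h1, sn_pair]
      refine ⟨h2.2, fun y _ => ?_⟩
      constructor
      · rintro (⟨b', -, h3⟩ | ⟨-, h3⟩)
        · exact (ZFSet.pair_inj.1 h3).2.symm
        · exact absurd ⟨a, h2.1, b, h2.2, rfl⟩ h3
      · rintro rfl
        exact Or.inl ⟨a, h2.1, rfl⟩
    · rw [sn, dif_neg h]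
      refine ⟨hM.empty_mem, fun y _ => ?_⟩
      constructor
      · rintro (⟨b', -, h3⟩ | ⟨h3, -⟩)
        · exact absurd ⟨b', y, h3⟩ h
        · exact h3
      · rintro rfl
        exact Or.inr ⟨rfl, fun ⟨a, _, b, _, h3⟩ => h ⟨a, b, h3⟩⟩

theorem prod' (hF : DfnF S M F) (hG : DfnF S M G) : DfnF S M fun v => ZFSet.prod (F v) (G v) := by
  have hB := hM.base
  refine DfnF.of_unique (R := fun y v => (∀ z ∈ y, ∃ a ∈ F v, ∃ b ∈ G v, z = pair a b) ∧
    ∀ a ∈ F v, ∀ b ∈ G v, pair a b ∈ y) ?_ ?_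
  · have h1 := hF.tail
    have h2 := hG.tail
    have h3 := h1.tail
    have h4 := h2.tail
    have h5 := h4.tail
    (repeat' first
      | assumption
      | exact DfnF.proj _
      | apply Dfn.and
      | apply hB.bex | apply hB.ball
      | apply Dfn.eq | apply Dfn.mem | apply hB.pair')
  · intro v hv
    refine ⟨hM.prod_mem (hF.1 v hv) (hG.1 v hv), fun y hy => ?_⟩
    constructor
    · rintro ⟨h1, h2⟩
      ext z
      rw [ZFSet.mem_prod]
      constructor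
      · exact h1 z
      · rintro ⟨a, ha, b, hb, rfl⟩
        exact h2 a ha b hb
    · rintro rfl
      exact ⟨fun z hz => ZFSet.mem_prod.1 hz, fun a ha b hb => ZFSet.pair_mem_prod.2 ⟨ha, hb⟩⟩

end Full

end Pool.Agent.R587
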