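import Pool.Agent.R587.Trf

/-!
# Existence of iterable models
-/

set_option autoImplicit false

namespace Pool.Agent.R587

open Pool.Agent.W868 hiding Models
open ZFSet (pair)
open Cardinal

namespace NMs

variable {U : ZFSet.{0}} (hU : NMs U)

include hU

theorem up {A B : ZFSet.{0}} (hA : A ∈ U) (hBk : B ⊆ (ZFSet.sUnion U : ZFSet.{0}))
    (h : A ⊆ B) : B ∈ U := by
  rcases hU.ultra B hBk with h1 | h1
  · exact h1
  · exfalso
    have h2 := hU.inter _ hA _ h1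
    have h3 : A ∩ ((ZFSet.sUnion U : ZFSet.{0}) \ B) = ∅ := by
      rw [ZFSet.eq_empty]
      intro z hz
      rw [ZFSet.mem_inter, ZFSet.mem_sdiff] at hz
      exact hz.2.2 (h hz.1)
    rw [h3] at h2
    exact hU.ne h2

theorem kU : (ZFSet.sUnion U : ZFSet.{0}) ∈ U := by
  rcases hU.ultra ∅ (ZFSet.empty_subset _) with h | h
  · exact absurd h hU.ne
  · have h1 : (ZFSet.sUnion U : ZFSet.{0}) \ ∅ = ZFSet.sUnion U := by
      ext z
      simp
    rwa [h1] at h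

omit hU in
theorem sub {A : ZFSet.{0}} (hA : A ∈ U) : A ⊆ (ZFSet.sUnion U : ZFSet.{0}) :=
  fun _ hy => ZFSet.mem_sUnion.2 ⟨A, hA, hy⟩

/-- Diagonal intersections. -/
theorem diag {A : ZFSet.{0} → ZFSet.{0}} (hA : ∀ ξ ∈ (ZFSet.sUnion U : ZFSet.{0}), A ξ ∈ U) :
    ZFSet.sep (fun η => ∀ ξ ∈ η, η ∈ A ξ) (ZFSet.sUnion U : ZFSet.{0}) ∈ U := by
  set κ : ZFSet.{0} := ZFSet.sUnion U with hκ
  have h1 := hU.norm (ZFSet.sep (fun p => sn p ∈ A (fs p)) (ZFSet.prod κ κ)) (by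
    intro ξ hξ
    refine hU.up (hA ξ hξ) (fun y hy => (ZFSet.mem_sep.1 hy).1) fun η hη => ?_
    have hηκ : η ∈ κ := sub (hA ξ hξ) hη
    rw [ZFSet.mem_sep, ZFSet.mem_sep, fs_pair, sn_pair]
    exact ⟨hηκ, ZFSet.pair_mem_prod.2 ⟨hξ, hηκ⟩, hη⟩)
  refine hU.up h1 (fun y hy => (ZFSet.mem_sep.1 hy).1) fun η hη => ?_
  obtain ⟨h2, h3⟩ := ZFSet.mem_sep.1 hη
  refine ZFSet.mem_sep.2 ⟨h2, fun ξ hξ => ?_⟩
  have h4 := (ZFSet.mem_sep.1 (h3 ξ hξ)).2
  rwa [fs_pair, sn_pair] at h4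

/-- Intersections of few sets. -/
theorem bint {μ : ZFSet.{0}} (hμ : μ ∈ (ZFSet.sUnion U : ZFSet.{0})) {A : ZFSet.{0} → ZFSet.{0}}
    (hA : ∀ ξ ∈ μ, A ξ ∈ U) :
    ZFSet.sep (fun η => ∀ ξ ∈ μ, η ∈ A ξ) (ZFSet.sUnion U : ZFSet.{0}) ∈ U := by
  classical
  have h1 := hU.diag (A := fun ξ => if ξ ∈ μ then A ξ else ZFSet.sUnion U) (by
    intro ξ _
    beta_reduce
    split
    · rename_i h
      exact hA ξ h
    · exact hU.kU)
  refine hU.up (hU.inter _ h1 _ (hU.unif μ hμ)) (fun y hy => (ZFSet.mem_sep.1 hy).1)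
    fun η hη => ?_
  obtain ⟨h2, h3⟩ := ZFSet.mem_inter.1 hη
  obtain ⟨h4, h5⟩ := ZFSet.mem_sep.1 h2
  obtain ⟨-, h6⟩ := ZFSet.mem_sep.1 h3
  refine ZFSet.mem_sep.2 ⟨h4, fun ξ hξ => ?_⟩
  have h7 : ξ ∈ η := (hU.ord.mem h4).mem_trans hξ h6
  have h8 := h5 ξ h7
  beta_reduce at h8
  rwa [if_pos hξ] at h8

theorem inhab {A : ZFSet.{0}} (hA : A ∈ U) : ∃ x, x ∈ A := by
  by_contra h
  have h1 : A = ∅ := (ZFSet.eq_empty _).2 fun y hy => h ⟨y, hy⟩
  exact hU.ne (h1 ▸ hA)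

/-- Sets of measure one are not images of smaller ordinals. -/
theorem not_onto {μ C : ZFSet.{0}} (hμ : μ ∈ (ZFSet.sUnion U : ZFSet.{0})) (hC : C ∈ U)
    (f : ZFSet.{0} → ZFSet.{0}) (hf : ∀ y ∈ C, ∃ ξ ∈ μ, f ξ = y) : False := by
  classical
  have h1 := hU.bint hμ (A := fun ξ => if f ξ ∈ (ZFSet.sUnion U : ZFSet.{0}) then
      ZFSet.sep (fun η => f ξ ∈ η) (ZFSet.sUnion U) else ZFSet.sUnion U) (by
    intro ξ _
    beta_reduce
    split
    · rename_i h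
      exact hU.unif _ h
    · exact hU.kU)
  obtain ⟨η, hη⟩ := hU.inhab (hU.inter _ h1 _ hC)
  obtain ⟨h2, h3⟩ := ZFSet.mem_inter.1 hη
  obtain ⟨ξ, hξ, h4⟩ := hf η h3
  obtain ⟨h5, h6⟩ := ZFSet.mem_sep.1 h2
  have h7 := h6 ξ hξ
  beta_reduce at h7
  rw [h4, if_pos h5, ZFSet.mem_sep] at h7
  exact ZFSet.mem_irrefl _ h7.2

/-- Sets of measure one are large. -/
theorem no_inj {μ C T : ZFSet.{0}} (hμ : μ ∈ (ZFSet.sUnion U : ZFSet.{0})) (hC : C ∈ U)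
    (h : ZFSet.{0} → ZFSet.{0}) (hT : ∀ x ∈ C, h x ∈ T)
    (hinj : ∀ x ∈ C, ∀ y ∈ C, h x = h y → x = y) (hc : T.card ≤ μ.card) : False := by
  obtain ⟨g, hg⟩ := exists_isInj hc
  classical
  refine hU.not_onto hμ hC (fun ξ => if h : ∃ y ∈ C, pair (h y) ξ ∈ g then h.choose else ∅) ?_
  intro y hy
  obtain ⟨w, hw, -⟩ := hg.1.2 (h y) (hT y hy)
  have hwμ : w ∈ μ := (ZFSet.pair_mem_prod.1 (hg.1.1 hw)).2
  refine ⟨w, hwμ, ?_⟩
  have h1 : ∃ y ∈ C, pair (h y) w ∈ g := ⟨y, hy, hw⟩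
  beta_reduce
  rw [dif_pos h1]
  have h2 := h1.choose_spec
  exact hinj _ h2.1 _ hy (hg.2 _ _ _ h2.2 hw)

/-- Intersections of few sets. -/
theorem inter_all {μ X : ZFSet.{0}} (hμ : μ ∈ (ZFSet.sUnion U : ZFSet.{0}))
    (hX : X.card ≤ μ.card) :
    ZFSet.sep (fun η => ∀ A ∈ X, A ∈ U → η ∈ A) (ZFSet.sUnion U : ZFSet.{0}) ∈ U := by
  obtain ⟨g, hg⟩ := exists_isInj hX
  classical
  have h1 := hU.bint hμ (A := fun ξ => if h : ∃ A ∈ X, A ∈ U ∧ pair A ξ ∈ g then h.choose else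
      ZFSet.sUnion U) (by
    intro ξ _
    beta_reduce
    split
    · rename_i h
      exact h.choose_spec.2.1
    · exact hU.kU)
  refine hU.up h1 (fun y hy => (ZFSet.mem_sep.1 hy).1) fun η hη => ?_
  obtain ⟨h2, h3⟩ := ZFSet.mem_sep.1 hη
  refine ZFSet.mem_sep.2 ⟨h2, fun A hA hAU => ?_⟩
  obtain ⟨w, hw, -⟩ := hg.1.2 A hA
  have hwμ : w ∈ μ := (ZFSet.pair_mem_prod.1 (hg.1.1 hw)).2
  have h4 := h3 w hwμ
  have h5 : ∃ A ∈ X, A ∈ U ∧ pair A w ∈ g := ⟨A, hA, hAU, hw⟩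
  beta_reduce at h4
  rw [dif_pos h5] at h4
  have h6 := h5.choose_spec
  have h7 : h5.choose = A := hg.2 _ _ _ h6.2.2 hw
  rwa [h7] at h4

/-- Small ordinals are below the critical point. -/
theorem small_mem {μ β : ZFSet.{0}} (hμ : μ ∈ (ZFSet.sUnion U : ZFSet.{0})) (hβ : β.IsOrdinal)
    (h : β.card ≤ μ.card) : β ∈ (ZFSet.sUnion U : ZFSet.{0}) := by
  by_contra hcon
  have h1 : (ZFSet.sUnion U : ZFSet.{0}) ⊆ β := by
    rcases hβ.mem_trichotomous hU.ord with h2 | h2 | h2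
    · exact absurd h2 hcon
    · exact h2 ▸ fun _ h => h
    · exact hβ.subset_of_mem h2
  exact hU.no_inj hμ hU.kU (fun x => x) (fun x hx => h1 hx) (fun _ _ _ _ h => h) h

end NMs

theorem isOrdinal_col {X u : ZFSet.{0}} (hu : u.IsOrdinal) : (col X u).IsOrdinal := by
  induction u using ZFSet.inductionOn with
  | _ u ih =>
  rw [ZFSet.isOrdinal_iff_forall_mem_isOrdinal]
  refine ⟨fun y hy z hz => ?_, fun y hy => ?_⟩
  · obtain ⟨w, hw, hwX, rfl⟩ := mem_col.1 hy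
    obtain ⟨w', hw', hwX', rfl⟩ := mem_col.1 hz
    exact mem_col.2 ⟨w', hu.mem_trans hw' hw, hwX', rfl⟩
  · obtain ⟨w, hw, hwX, rfl⟩ := mem_col.1 hy
    exact ih w hw (hu.mem hw)

theorem xt_ord {C : ZFSet.{0}} (hC : ∀ x ∈ C, x.IsOrdinal) : Xt C := by
  intro x hx y hy h
  rcases (hC x hx).mem_trichotomous (hC y hy) with h1 | h1 | h1
  · exact absurd ((h x hx).2 h1) (ZFSet.mem_irrefl x)
  · exact h1
  · exact absurd ((h y hy).1 h1) (ZFSet.mem_irrefl y)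

namespace NMs

variable {U : ZFSet.{0}} (hU : NMs U)

include hU

/-- Sets of measure one have long order type. -/
theorem enum {μ C i : ZFSet.{0}} (hμ : μ ∈ (ZFSet.sUnion U : ZFSet.{0})) (hC : C ∈ U)
    (hi : i.IsOrdinal) (hic : i.card ≤ μ.card) : ∃ g : ZFSet.{0} → ZFSet.{0},
      (∀ j ∈ i, g j ∈ C) ∧ ∀ j ∈ i, ∀ k ∈ i, k ∈ j → g k ∈ g j := by
  have hCo : ∀ x ∈ C, x.IsOrdinal := fun x hx => hU.ord.mem (sub hC hx)
  have hTo : (im (col C) C).IsOrdinal := by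
    rw [ZFSet.isOrdinal_iff_forall_mem_isOrdinal]
    refine ⟨fun y hy z hz => col_trans y hy z hz, fun y hy => ?_⟩
    obtain ⟨x, hx, rfl⟩ := mem_im.1 hy
    exact isOrdinal_col (hCo x hx)
  have hX := xt_ord hCo
  have h1 : i ∈ im (col C) C := by
    by_contra hcon
    have h2 : im (col C) C ⊆ i := by
      rcases hi.mem_trichotomous hTo with h3 | h3 | h3
      · exact absurd h3 hcon
      · exact h3 ▸ fun _ h => h
      · exact hi.subset_of_mem h3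
    refine hU.no_inj hμ hC (col C) (fun x hx => h2 (mem_im.2 ⟨x, hx, rfl⟩))
      (fun x hx y hy h => col_inj hX x hx y hy h) hic
  have h2 : ∀ j ∈ i, ∃ x ∈ C, col C x = j := by
    intro j hj
    obtain ⟨x, hx, h⟩ := mem_im.1 (col_trans i h1 j hj)
    exact ⟨x, hx, h.symm⟩
  choose! g hg hg' using h2
  refine ⟨g, hg, fun j hj k hk hkj => ?_⟩
  rcases (hCo _ (hg k hk)).mem_trichotomous (hCo _ (hg j hj)) with h3 | h3 | h3
  · exact h3
  · have h4 : k = j := by rw [← hg' k hk, ← hg' j hj, h3]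
    exact absurd (h4 ▸ hkj) (ZFSet.mem_irrefl _)
  · have h4 : j ∈ k := by
      rw [← hg' k hk, ← hg' j hj]
      exact mem_col.2 ⟨_, h3, hg j hj, rfl⟩
    exact absurd h4 (ZFSet.mem_asymm hkj)

end NMs

/-! ### Hereditary size -/

theorem Hl.mono {c d : Cardinal.{0}} (h : c ≤ d) {x : ZFSet.{0}} (hx : Hl c x) : Hl d x := by
  induction hx with
  | mk x hx _ ih => exact Hl.mk x (hx.trans h) ih

theorem exists_hl (x : ZFSet.{0}) : ∃ c : Cardinal.{0}, Hl c x := by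
  induction x using ZFSet.inductionOn with
  | _ x ih =>
    choose! f hf using ih
    let α := Shrink.{0} {z : ZFSet.{0} // z ∈ x}
    let s : Cardinal.{0} := Cardinal.sum fun a : α =>
      f ((equivShrink {z : ZFSet.{0} // z ∈ x}).symm a).1
    refine ⟨max x.card s, Hl.mk x (le_max_left _ _) fun y hy => (hf y hy).mono ?_⟩
    refine le_trans ?_ (le_max_right _ _)
    have h1 := Cardinal.le_sum (fun a : α => f ((equivShrink {z : ZFSet.{0} // z ∈ x}).symm a).1)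
      (equivShrink _ ⟨y, hy⟩)
    beta_reduce at h1
    rwa [Equiv.symm_apply_apply] at h1

section

variable {c : Cardinal.{0}} {M : Set ZFSet.{0}}

/-- Small elementary subclasses. -/
theorem exists_tv' (hM : Full c M) {d : Cardinal.{0}} (hd : ℵ₀ ≤ d) {Z : ZFSet.{0}}
    (hZ : ∀ x ∈ Z, x ∈ M) (hZc : Z.card ≤ d) :
    ∃ H : ZFSet.{0}, Z ⊆ H ∧ TV M {x | x ∈ H} ∧ H.card ≤ d := by
  let α := Shrink.{0} {z : ZFSet.{0} // z ∈ Z}
  let g : α → ZFSet.{0} := fun a => ((equivShrink {z : ZFSet.{0} // z ∈ Z}).symm a).1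
  refine ⟨ZFSet.range (skv M g), ?_, ⟨?_, ?_⟩, ?_⟩
  · intro x hx
    refine ZFSet.mem_range.2 ⟨WType.mk (Sum.inl (equivShrink _ ⟨x, hx⟩)) Empty.elim, ?_⟩
    change g _ = x
    simp [g]
  · rintro x hx
    obtain ⟨t, rfl⟩ := ZFSet.mem_range.1 hx
    cases t with
    | mk a f =>
      cases a with
      | inl a =>
        change g a ∈ M
        exact hZ _ ((equivShrink {z : ZFSet.{0} // z ∈ Z}).symm a).2
      | inr q =>
        exact skf_mem hM q.2 _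
  · intro n R hR v hv h
    obtain ⟨φ, hφ⟩ := dfn_iff.1 hR
    have hv' : ∀ i, ∃ t, skv M g t = v i := fun i => ZFSet.mem_range.1 (hv i)
    have hvM : ∀ i, v i ∈ M := by
      intro i
      obtain ⟨t, ht⟩ := hv' i
      rw [← ht]
      cases t with
      | mk a f =>
        cases a with
        | inl a =>
          change g a ∈ M
          exact hZ _ ((equivShrink {z : ZFSet.{0} // z ∈ Z}).symm a).2
        | inr q =>
          exact skf_mem hM q.2 _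
    have hc : ∀ a ∈ M, ∀ k, (Fin.cons a v : Fin (n + 1) → ZFSet.{0}) k ∈ M := by
      intro a ha k
      refine Fin.cases ?_ (fun k => ?_) k
      · exact ha
      · exact hvM k
    choose t ht using hv'
    have h1 : skv M g (WType.mk (Sum.inr ⟨n, φ⟩) t) = skf M φ v := by
      change skf M φ (fun i => skv M g (t i)) = _
      rw [funext ht]
    refine ⟨skf M φ v, ZFSet.mem_range.2 ⟨_, h1⟩, ?_⟩
    obtain ⟨y, hy, hRy⟩ := h
    have h2 : ∃ y ∈ M, Sat M Empty.elim φ (Fin.cons y v) :=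
      ⟨y, hy, (hφ _ (hc y hy)).2 hRy⟩
    rw [skf, dif_pos h2]
    have h3 := h2.choose_spec
    exact (hφ _ (hc _ h3.1)).1 h3.2
  · refine (card_range_le _).trans (WType.cardinalMk_le_max_aleph0_of_finite.trans ?_)
    refine max_le ?_ hd
    rw [Cardinal.mk_sum, Cardinal.lift_id, Cardinal.lift_id]
    refine (add_le_add (show #α ≤ d from hZc) (show #(Σ n : ℕ, Fml Empty (n + 1)) ≤ d from ?_)).trans
      (Cardinal.add_eq_self hd).le
    have : ∀ n, Countable (Fml Empty (n + 1)) := fun n =>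
      Set.countable_univ_iff.1 (countable_fmlE (n + 1))
    exact (Cardinal.mk_le_aleph0).trans hd

/-- The inverse of the collapse is elementary. -/
theorem exists_col_inv (hM : Full c M) {X : ZFSet.{0}} (hX : TV M {x | x ∈ X}) :
    ∃ σ : ZFSet.{0} → ZFSet.{0}, (∀ x ∈ X, σ (col X x) = x) ∧
      (∀ z ∈ im (col X) X, σ z ∈ X ∧ col X (σ z) = z) ∧
      Elem {z | z ∈ im (col X) X} M σ := by
  have h1 : ∀ z ∈ im (col X) X, ∃ x ∈ X, col X x = z := by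
    intro z hz
    obtain ⟨x, hx, h⟩ := mem_im.1 hz
    exact ⟨x, hx, h.symm⟩
  choose! σ hσ hσ' using h1
  refine ⟨σ, fun x hx => ?_, fun z hz => ⟨hσ z hz, hσ' z hz⟩, fun z hz => hX.1 (hσ z hz),
    fun {n} φ v hv => ?_⟩
  · have hxX : col X x ∈ im (col X) X := mem_im.2 ⟨x, hx, rfl⟩
    exact col_inj (hX.xt hM) _ (hσ _ hxX) x hx (hσ' _ hxX)
  · rw [← hX.sat_im hM φ (v := fun i => σ (v i)) fun i => hσ _ (hv i)]
    have : (fun i => col X (σ (v i))) = v := funext fun i => hσ' _ (hv i)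
    rw [this]

end

/-- Existence of iterable models. -/
theorem exists_good {U : ZFSet.{0}} (hU : NMs U)
    (hpm : ∀ ν : Cardinal.{0}, ℵ₀ ≤ ν → U ∈ HH ν → Pm (HH ν) U ∧ Cod (HH ν) U)
    {c : Cardinal.{0}} (hc : ℵ₀ ≤ c) (hcU : kap c ∈ (ZFSet.sUnion U : ZFSet.{0}))
    {x β : ZFSet.{0}} (hx : x ∈ HH c) (hβ : β ∈ HH c) (hβo : β.IsOrdinal) :
    ∃ Q W : ZFSet.{0}, Good c Q W ∧ x ∈ Q ∧ β ∈ (ZFSet.sUnion W : ZFSet.{0}) := by
  obtain ⟨ν0, hν0⟩ := exists_hl U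
  set ν : Cardinal.{0} := max c ν0 with hν
  have hcν : c ≤ ν := le_max_left _ _
  have hUν : U ∈ HH ν := hν0.mono (le_max_right _ _)
  obtain ⟨hPm, hCd⟩ := hpm ν (hc.trans hcν) hUν
  have hMc := full_HH hc
  have hM := full_HH (hc.trans hcν)
  have hsub : ∀ y, y ∈ HH c → y ∈ HH ν := fun y hy => Hl.mono hcν hy
  have hkc : ∀ {y : ZFSet.{0}}, y.card ≤ c → y.card ≤ (kap c).card := fun h => by
    rwa [card_kap]
  -- the hull
  obtain ⟨T, hT1, hT2, hT3⟩ := exists_tc hMc (hMc.pair_mem hx hβ)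
  have hTM : ∀ y ∈ T, y ∈ HH ν := fun y hy =>
    hsub y (hMc.trans (hh_of_trans hMc hT2 hT3) hy)
  have hxT : x ∈ T := (of_pair_mem' (N := {z | z ∈ T}) hT2 hT1).1
  have hβT : β ∈ T := (of_pair_mem' (N := {z | z ∈ T}) hT2 hT1).2
  have hZc : (insert U T : ZFSet.{0}).card ≤ c := by
    refine ZFSet.card_insert_le.trans ?_
    exact (add_le_add hT3 (Cardinal.one_le_aleph0.trans hc)).trans (Cardinal.add_eq_self hc).le
  obtain ⟨X, hZX, hX, hXc⟩ := exists_tv' hM hc (Z := insert U T) (fun y hy => by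
    rcases ZFSet.mem_insert_iff.1 hy with rfl | hy
    · exact hUν
    · exact hTM y hy) hZc
  have hUX : U ∈ X := hZX (ZFSet.mem_insert _ _)
  have hTX : T ⊆ X := fun y hy => hZX (ZFSet.mem_insert_of_mem _ hy)
  have hfix : ∀ y ∈ T, col X y = y := col_fix hT2 hTX
  obtain ⟨σ, hσ1, hσ2, hσ3⟩ := exists_col_inv hM hX
  have hQt : ∀ y ∈ {z | z ∈ im (col X) X}, ∀ z ∈ y, z ∈ {z | z ∈ im (col X) X} := col_trans
  have hWQ : col X U ∈ {z | z ∈ im (col X) X} := mem_im.2 ⟨U, hUX, rfl⟩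
  have h0Q : ∅ ∈ {z | z ∈ im (col X) X} := by
    have h1 := hX.nat_mem hM 0
    refine mem_im.2 ⟨nat 0, h1, ?_⟩
    symm
    rw [ZFSet.eq_empty]
    intro z hz
    obtain ⟨u, hu, -⟩ := mem_col.1 hz
    exact ZFSet.notMem_empty u hu
  have hσW : σ (col X U) = U := hσ1 U hUX
  have hPQ : Pm {z | z ∈ im (col X) X} (col X U) :=
    Pm.down hσ3 hQt h0Q hWQ (by rw [hσW]; exact hPm)
  have hCQ : Cod {z | z ∈ im (col X) X} (col X U) := Cod.down hPQ hPm hσ3 hσW hCd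
  have hQc : (im (col X) X).card ≤ c := card_im_le.trans hXc
  refine ⟨im (col X) X, col X U, ⟨hh_of_trans hMc col_trans hQc, hPQ, hCQ, fun i hi hio => ?_⟩,
    mem_im.2 ⟨x, hTX hxT, (hfix x hxT).symm⟩, ?_⟩
  · -- the realizations
    have hC := hU.inter_all hcU (hkc hXc)
    set C : ZFSet.{0} := ZFSet.sep (fun η => ∀ A ∈ X, A ∈ U → η ∈ A) (ZFSet.sUnion U) with hCdef
    obtain ⟨g, hg1, hg2⟩ := hU.enum hcU hC hio (hkc (hMc.card hi))
    have hgM : ∀ j ∈ i, g j ∈ HH ν := fun j hj =>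
      hM.trans (hM.base.union _ hUν) (ZFSet.mem_sep.1 (hg1 j hj)).1
    obtain ⟨Y, hZY, hY, hYc⟩ := exists_tv' hM hc (Z := X ∪ im g i) (fun y hy => by
      rcases ZFSet.mem_union.1 hy with hy | hy
      · exact hX.1 hy
      · obtain ⟨j, hj, rfl⟩ := mem_im.1 hy
        exact hgM j hj) (by
      refine ZFSet.card_union_le.trans ?_
      exact (add_le_add hXc (card_im_le.trans (hMc.card hi))).trans (Cardinal.add_eq_self hc).le)
    have hXY : X ⊆ Y := fun y hy => hZY (ZFSet.mem_union.2 (Or.inl hy))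
    have hgY : ∀ j ∈ i, g j ∈ Y := fun j hj =>
      hZY (ZFSet.mem_union.2 (Or.inr (mem_im.2 ⟨j, hj, rfl⟩)))
    refine ⟨im (col Y) Y, hh_of_trans hMc col_trans (card_im_le.trans hYc),
      fun z => col Y (σ z), fun j => col Y (g j), col_trans, ⟨fun z hz => ?_, fun {n} φ v hv => ?_⟩,
      fun j hj A hA => ?_, fun j hj k hk hkj => ?_⟩
    · exact mem_im.2 ⟨_, hXY (hσ2 z hz).1, rfl⟩
    · rw [hY.sat_im hM φ (v := fun i => σ (v i)) fun i => hXY (hσ2 _ (hv i)).1]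
      exact hσ3.sat φ v hv
    · obtain ⟨a, ha, haX, rfl⟩ := mem_col.1 hA
      rw [hσ1 a haX]
      exact mem_col.2 ⟨g j, (ZFSet.mem_sep.1 (hg1 j hj)).2 a haX ha, hgY j hj, rfl⟩
    · exact mem_col.2 ⟨g k, hg2 j hj k hk hkj, hgY k hk, rfl⟩
  · -- the critical point
    have hβκ : β ∈ (ZFSet.sUnion U : ZFSet.{0}) := hU.small_mem hcU hβo (hkc (hMc.card hβ))
    obtain ⟨y, hyU, hβy⟩ := ZFSet.mem_sUnion.1 hβκ
    obtain ⟨y, hyX, hyU, hβy⟩ := hX.2 2 (fun y v => y ∈ v 0 ∧ v 1 ∈ y)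
      ((Dfn.mem (DfnF.proj 0) (DfnF.proj 1)).and (Dfn.mem (DfnF.proj 2) (DfnF.proj 0)))
      ![U, β] (by
        intro i
        fin_cases i
        exacts [hUX, hTX hβT]) ⟨y, hM.trans hUν hyU, hyU, hβy⟩
    refine ZFSet.mem_sUnion.2 ⟨col X y, mem_col.2 ⟨y, hyU, hyX, rfl⟩, ?_⟩
    rw [← hfix β hβT]
    exact mem_col.2 ⟨β, hβy, hTX hβT, rfl⟩

end Pool.Agent.R587
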