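import Pool.Agent.W868.Defs

/-!
# Normal measures and the hierarchy `L[U]`
-/

set_option autoImplicit false

namespace Pool.Agent.R587

open Pool.Agent.W868
open Cardinal

/-- First-order formulas with free variables `0, ..., n - 1` and sets as parameters, in the
language with membership, equality and a unary predicate symbol. In `ex φ` the variable `0` of `φ`
is bound, and the variable `i + 1` of `φ` is the variable `i` of `ex φ`. -/
inductive FmP : ℕ → Type 1
  | mem {n : ℕ} (s t : Fin n ⊕ ZFSet.{0}) : FmP n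
  | eq {n : ℕ} (s t : Fin n ⊕ ZFSet.{0}) : FmP n
  | pred {n : ℕ} (s : Fin n ⊕ ZFSet.{0}) : FmP n
  | neg {n : ℕ} (φ : FmP n) : FmP n
  | and {n : ℕ} (φ ψ : FmP n) : FmP n
  | ex {n : ℕ} (φ : FmP (n + 1)) : FmP n

/-- Truth in the structure `(X, ∈, P)`. -/
def FmP.Sat (X P : Set ZFSet.{0}) : {n : ℕ} → FmP n → (Fin n → ZFSet.{0}) → Prop
  | _, .mem s t, v => Sum.elim v id s ∈ Sum.elim v id t
  | _, .eq s t, v => Sum.elim v id s = Sum.elim v id t
  | _, .pred s, v => Sum.elim v id s ∈ P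
  | _, .neg φ, v => ¬ φ.Sat X P v
  | _, .and φ ψ, v => φ.Sat X P v ∧ ψ.Sat X P v
  | _, .ex φ, v => ∃ a ∈ X, φ.Sat X P (Fin.cons a v)

/-- All parameters of the formula are in `X`. -/
def FmP.Over (X : Set ZFSet.{0}) : {n : ℕ} → FmP n → Prop
  | _, .mem s t => TOver X s ∧ TOver X t
  | _, .eq s t => TOver X s ∧ TOver X t
  | _, .pred s => TOver X s
  | _, .neg φ => φ.Over X
  | _, .and φ ψ => φ.Over X ∧ ψ.Over X
  | _, .ex φ => φ.Over X

/-- The set of the subsets of `X` that are first-order definable with parameters in the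
structure `(X, ∈, U ∩ X)`. -/
noncomputable def DefU (U X : ZFSet.{0}) : ZFSet.{0} :=
  ZFSet.sep (fun y => ∃ φ : FmP 1, φ.Over {x | x ∈ X} ∧
    ∀ z, z ∈ y ↔ z ∈ X ∧ φ.Sat {x | x ∈ X} {x | x ∈ U} ![z]) (ZFSet.powerset X)

/-- The level `L_α[U]` of the hierarchy: the union of the sets of the definable subsets of
`(L_β[U], ∈, U ∩ L_β[U])` for `β < α`. -/
noncomputable def LevU (U : ZFSet.{0}) (α : Ordinal.{0}) : ZFSet.{0} :=
  ZFSet.sUnion (ZFSet.range fun β : Set.Iio α => DefU U (LevU U β.1))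
termination_by α
decreasing_by exact β.2

/-- `V = L[U]`: every set is in some level. -/
def VLU (U : ZFSet.{0}) : Prop := ∀ x : ZFSet.{0}, ∃ α : Ordinal.{0}, x ∈ LevU U α

/-- `U` is a normal measure on the cardinal `κ` (which is identified with the set of the smaller
ordinals): a nonprincipal `κ`-complete ultrafilter on `κ` such that each regressive function is
constant on a set in `U`. -/
structure IsNormalMeasure (κ : Cardinal.{0}) (U : ZFSet.{0}) : Prop where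
  uncountable : ℵ₀ < κ
  sub : ∀ A ∈ U, A ⊆ κ.ord.toZFSet
  univ : κ.ord.toZFSet ∈ U
  empty : ∅ ∉ U
  up : ∀ A ∈ U, ∀ B, B ⊆ κ.ord.toZFSet → A ⊆ B → B ∈ U
  ultra : ∀ A, A ⊆ κ.ord.toZFSet → A ∈ U ∨ κ.ord.toZFSet \ A ∈ U
  nonprincipal : ∀ ξ, {ξ} ∉ U
  complete : ∀ (I : Type) (A : I → ZFSet.{0}), #I < κ → (∀ i, A i ∈ U) →
    ZFSet.sep (fun ξ => ∀ i, ξ ∈ A i) κ.ord.toZFSet ∈ U
  normal : ∀ f : ZFSet.{0} → ZFSet.{0}, ZFSet.sep (fun ξ => f ξ ∈ ξ) κ.ord.toZFSet ∈ U →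
    ∃ γ, ZFSet.sep (fun ξ => f ξ = γ) κ.ord.toZFSet ∈ U

end Pool.Agent.R587
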