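import Pool.Agent.R587.Lcu
import Pool.Agent.R587.GdEx
import Pool.Agent.R587.AsmA
import Pool.Agent.R587.AsmB
import Pool.Agent.R587.ULDefs

/-!
# The small models in `L[U]`
-/

set_option autoImplicit false

namespace Pool.Agent.R587

open Pool.Agent.W868 hiding Models
open ZFSet (pair)
open Cardinal

section

variable {U : ZFSet.{0}} (hU : NMs U)
  (hpm : ∀ ν : Cardinal.{0}, ℵ₀ ≤ ν → U ∈ HH ν → Pm (HH ν) U ∧ Cod (HH ν) U)

include hpm

omit hpm in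
theorem exists_code_of {M : Set ZFSet.{0}} {W x : ZFSet.{0}} (h : Cod M W) (hx : x ∈ M) :
    ∃ e, FO e ∧ ∃ n : ℕ, CdU W x e (nat n) := by
  obtain ⟨e, -, h1, n, h2⟩ := h x hx
  exact ⟨e, h1, n, h2⟩

theorem cod_univ : Cod Set.univ U := by
  intro x _
  obtain ⟨ν0, h0⟩ := exists_hl U
  obtain ⟨ν1, h1⟩ := exists_hl x
  have h2 : U ∈ HH (max ℵ₀ (max ν0 ν1)) := h0.mono ((le_max_left _ _).trans (le_max_right _ _))
  have h3 : x ∈ HH (max ℵ₀ (max ν0 ν1)) := h1.mono ((le_max_right _ _).trans (le_max_right _ _))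
  obtain ⟨e, h4, n, h5⟩ := exists_code_of (hpm _ (le_max_left _ _) h2).2 h3
  exact ⟨e, trivial, h4, n, h5⟩

include hU

theorem ifc_of {c : Cardinal.{0}} (hc : ℵ₀ ≤ c)
    (hcU : kap c ∈ (ZFSet.sUnion U : ZFSet.{0}))
    (hpow : ∀ γ ∈ kap c, (ZFSet.powerset (ZFSet.prod γ γ) : ZFSet.{0}) ∈ HH c) : Ifc U c where
  inf := hc
  lt_iff := by
    intro Q W hG β hβ X hX Y hY hXs hYs
    obtain ⟨R, σ, g, h⟩ := exists_LI hU hc hcU hG
    rw [ltW_tr hG.pm h.gen.pmR h.rea.el rfl hG.cod X hX Y hY, h.fixX hβ hX hXs,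
      h.fixX hβ hY hYs]
    obtain ⟨e0, n0, h0⟩ := exists_LC hG.cod hX
    obtain ⟨e1, n1, h1⟩ := exists_LC hG.cod hY
    have h0' := h0.map hG.pm h.gen.pmR h.rea.el rfl hX
    have h1' := h1.map hG.pm h.gen.pmR h.rea.el rfl hY
    rw [h.map_W] at h0' h1' ⊢
    rw [h.fixX hβ hX hXs] at h0'
    rw [h.fixX hβ hY hYs] at h1'
    exact h.lvN.lt_iff h0' h1'
  lt_mem := by
    intro Q W hG β hβ Y hY hYs X hXs hlt
    obtain ⟨R, σ, g, h⟩ := exists_LI hU hc hcU hG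
    obtain ⟨e1, n1, h1⟩ := exists_LC hG.cod hY
    have h1' := h1.map hG.pm h.gen.pmR h.rea.el rfl hY
    rw [h.map_W, h.fixX hβ hY hYs] at h1'
    exact h.memQ hβ (h.lvN.lt_mem h1' hlt) hXs
  sub := by
    intro Q W Q' W' e hG hG' he heW β hβ hβ' X hX hXs
    obtain ⟨R, σ, g, h⟩ := exists_LI hU hc hcU hG
    obtain ⟨R', σ', g', h'⟩ := exists_LI hU hc hcU hG'
    exact h'.memQ hβ' (h.le h' he heW (h.memR hβ hX hXs)) hXs
  ex := fun x hx β hβ hβo => exists_good hU hpm hc hcU hx hβ hβo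
  down := fun hQ hQt hW he heW h => good_down hQ hQt hW he heW h
  tr := fun hG hG' he heW X hX Y hY => ltW_tr hG.pm hG'.pm he heW hG.cod X hX Y hY
  good' := dfn_good hc
  lt' := dfn_ltW hc
  wf := by
    intro P ⟨x, hx⟩
    obtain ⟨y, -, h1, h2⟩ := ltW_wf (cod_univ hpm) P ⟨x, trivial, hx⟩
    exact ⟨y, h1, fun z hz => h2 z trivial hz⟩
  tri := fun x y => ltW_tri (cod_univ hpm) x trivial y trivial
  pow := hpow

end

/-- The classes of small sets under the interface. -/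
theorem Ifc.setg {U : ZFSet.{0}} {c : Cardinal.{0}} (h : Ifc U c) : ∃ lt, Setg c (HH c) lt := by
  obtain ⟨lt, h1, h2⟩ := h.wo_code
  have hM := full_HH h.inf
  exact ⟨lt, hM, h1, h2, fun H K h3 h4 h5 h6 => h.cmp H K h3 h4 h5 h6, hM.jj⟩

/-- GCH at `c`, from the codes. -/
theorem exists_N0_of_setg {c : Cardinal.{0}} {lt : ZFSet.{0} → ZFSet.{0} → Prop}
    (h : Setg c (HH c) lt) :
    ∃ N0 : ZFSet.{0}, (∀ x, x ∈ N0 ↔ x ∈ HH c) ∧ N0.card ≤ Order.succ c := by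
  classical
  -- a code: the number of a formula that defines the element from the finite set
  have hcount : ∃ F : ℕ → Fml Empty 2, Function.Surjective F := by
    haveI : Countable (Fml Empty 2) := Set.countable_univ_iff.1 (countable_fmlE 2)
    haveI : Nonempty (Fml Empty 2) := ⟨.eq (Sum.inl 0) (Sum.inl 0)⟩
    exact exists_surjective_nat _
  obtain ⟨F, hF⟩ := hcount
  refine exists_N0 h.full.inf (D := fun x e n => x ∈ HH c ∧ ∃ k : ℕ, n = nat k ∧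
    ∀ y ∈ HH c, (Sat (HH c) Empty.elim (F k) ![y, e] ↔ y = x)) ?_ ?_
  · rintro x y e n ⟨hx, k, rfl, h1⟩ ⟨-, k', h2, h3⟩
    obtain rfl := nat_injective h2
    exact (h3 x hx).1 ((h1 x hx).2 rfl)
  · intro x hx
    obtain ⟨e, h1, h2, h3⟩ := h.code x hx
    have heM : e ∈ HH c := hul_mem hx h2
    obtain ⟨f, hf, rfl⟩ := h3
    obtain ⟨φ, hφ⟩ := dfn_iff.1 hf.2
    obtain ⟨k, hk⟩ := hF φ
    refine ⟨e, h1, heM, k, hx, k, rfl, fun y hy => ?_⟩
    rw [hk]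
    refine (hφ ![y, e] ?_).trans ?_
    · intro i
      fin_cases i
      exacts [hy, heM]
    · exact Iff.rfl

end Pool.Agent.R587
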