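import Pool.Agent.R587.CoU

/-!
# The set of the codes is coanalytic
-/

set_option autoImplicit false

namespace Pool.Agent.R587

open Pool.Agent.W868 hiding Models
open ZFSet (pair)
open Cardinal MeasureTheory

/-! ### Satisfaction in coded structures -/

/-- Satisfaction in the structure with the code `x`. -/
def SatB (x : ℕ × ℕ → Bool) : {n : ℕ} → Fml Empty n → (Fin n → ℕ) → Prop
  | _, .mem s t, v => x (Sum.elim v Empty.elim s, Sum.elim v Empty.elim t) = true
  | _, .eq s t, v => ∀ k, x (k, Sum.elim v Empty.elim s) = x (k, Sum.elim v Empty.elim t)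
  | _, .neg φ, v => ¬ SatB x φ v
  | _, .and φ ψ, v => SatB x φ v ∧ SatB x ψ v
  | _, .ex φ, v => ∃ a : ℕ, SatB x φ (Fin.cons a v)

/-- A realization of a coded structure. -/
structure Rlx (x : ℕ × ℕ → Bool) (π : ℕ → ZFSet.{0}) : Prop where
  mem : ∀ i j, x (i, j) = true ↔ π i ∈ π j
  tr : ∀ j, ∀ y ∈ π j, ∃ i, y = π i

section

variable {x : ℕ × ℕ → Bool} {π : ℕ → ZFSet.{0}} (h : Rlx x π)

include h

theorem Rlx.eq {i j : ℕ} : (∀ k, x (k, i) = x (k, j)) ↔ π i = π j := by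
  constructor
  · intro h1
    ext y
    constructor
    · intro hy
      obtain ⟨k, rfl⟩ := h.tr i y hy
      rw [← h.mem, ← h1 k]
      exact (h.mem _ _).2 hy
    · intro hy
      obtain ⟨k, rfl⟩ := h.tr j y hy
      rw [← h.mem, h1 k]
      exact (h.mem _ _).2 hy
  · intro h1 k
    rw [Bool.eq_iff_iff, h.mem, h.mem, h1]

theorem Rlx.sat : ∀ {n : ℕ} (φ : Fml Empty n) (v : Fin n → ℕ),
    SatB x φ v ↔ Sat (Set.range π) Empty.elim φ fun i => π (v i) := by
  have ht : ∀ {n : ℕ} (v : Fin n → ℕ) (s : Fin n ⊕ Empty),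
      Sum.elim (fun i => π (v i)) Empty.elim s = π (Sum.elim v Empty.elim s) := by
    intro n v s
    rcases s with i | a
    · rfl
    · exact a.elim
  intro n φ
  induction φ with
  | mem s t =>
    intro v
    simp only [SatB, Sat, ht]
    exact h.mem _ _
  | eq s t =>
    intro v
    simp only [SatB, Sat, ht]
    exact h.eq
  | neg φ ih =>
    intro v
    simp only [SatB, Sat, ih]
  | and φ ψ ih1 ih2 =>
    intro v
    simp only [SatB, Sat, ih1, ih2]
  | ex φ ih =>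
    intro v
    simp only [SatB, Sat, ih, Set.mem_range, exists_exists_eq_and]
    refine exists_congr fun a => ?_
    have h1 : (fun i => π ((Fin.cons a v : Fin _ → ℕ) i)) = Fin.cons (π a) fun i => π (v i) := by
      funext i
      refine Fin.cases ?_ (fun i => ?_) i
      · rfl
      · rfl
    rw [h1]

theorem Rlx.trans : ∀ y ∈ Set.range π, ∀ z ∈ y, z ∈ Set.range π := by
  rintro _ ⟨j, rfl⟩ z hz
  obtain ⟨i, rfl⟩ := h.tr j z hz
  exact ⟨i, rfl⟩

theorem Rlx.d0 {n : ℕ} {R : (Fin n → ZFSet.{0}) → Prop} (hR : D0 R) (v : Fin n → ℕ) :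
    SatB x hR.choose v ↔ R fun i => π (v i) :=
  (h.sat _ v).trans (hR.choose_spec _ h.trans _ fun i => ⟨v i, rfl⟩)

end

theorem meas_sat {n : ℕ} (φ : Fml Empty n) : ∀ v : Fin n → ℕ,
    MeasurableSet {x : ℕ × ℕ → Bool | SatB x φ v} := by
  have hp : ∀ p : ℕ × ℕ, Measurable fun x : ℕ × ℕ → Bool => x p := fun p => measurable_pi_apply p
  induction φ with
  | mem s t =>
    intro v
    simp only [SatB]
    exact (hp _) (measurableSet_singleton true)
  | eq s t =>
    intro v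
    simp only [SatB]
    rw [Set.setOf_forall]
    exact MeasurableSet.iInter fun k => measurableSet_eq_fun (hp _) (hp _)
  | neg φ ih =>
    intro v
    simp only [SatB]
    exact (ih v).compl
  | and φ ψ ih1 ih2 =>
    intro v
    simp only [SatB]
    exact (ih1 v).inter (ih2 v)
  | ex φ ih =>
    intro v
    simp only [SatB]
    rw [Set.setOf_exists]
    exact MeasurableSet.iUnion fun a => ih _

/-! ### The Borel condition -/

theorem d0_hp (q : ℕ × ℕ) : D0 fun v : Fin 1 → ZFSet.{0} => v 0 = hp q := by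
  have h : D0 fun v : Fin 1 → ZFSet.{0} => ∃ a b, v 0 = pair a b ∧ a = nat q.1 ∧ b = nat q.2 := by
    apply D0.expair (D0v.proj 0)
    exact (D0.isNat (D0v.proj 1) _).and (D0.isNat (D0v.proj 0) _)
  refine h.congr fun v => ?_
  constructor
  · rintro ⟨a, b, h, rfl, rfl⟩
    exact h
  · intro h
    exact ⟨_, _, h, rfl, rfl⟩

/-- The number `n` is true of `j`. -/
def Gx (x : ℕ × ℕ → Bool) (n j : ℕ) : Prop := SatB x (gs_fml n).choose ![j]

/-- The Borel condition on the codes. -/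
def BorX (x : ℕ × ℕ → Bool) : Prop :=
  (∀ i i' j, (∀ k, x (k, i) = x (k, i')) → x (i, j) = x (i', j)) ∧
  (∃ e, ∀ k, x (k, e) = false) ∧
  (∀ e i, (∀ k, x (k, e) = false) → ∃ j, SatB x d0_Psi.choose ![e, i, j]) ∧
  (∀ n, (∀ j, (∀ j', Gx x n j' ↔ ∀ k, x (k, j') = x (k, j)) → ∀ k, x (k, n) = x (k, j)) ∧
    ((¬ ∃ j, ∀ j', Gx x n j' ↔ ∀ k, x (k, j') = x (k, j)) → ∀ k, x (k, n) = false)) ∧
  (∀ j, SatB x d0_TrN.choose ![j] → ∃ k,
    (∀ u, x (u, k) = true → ∃ q : ℕ × ℕ, SatB x (d0_hp q).choose ![u] ∧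
      SatB x (d0_cdr q).choose_spec.1.choose ![j]) ∧
    ∀ q : ℕ × ℕ, SatB x (d0_cdr q).choose_spec.1.choose ![j] →
      ∃ u, x (u, k) = true ∧ SatB x (d0_hp q).choose ![u]) ∧
  ∀ c z, ∃ y, SatB x d0_ApR.choose ![y, c, z]

theorem meas_imp {α : Type} [MeasurableSpace α] {p q : α → Prop} (hp : MeasurableSet {x | p x})
    (hq : MeasurableSet {x | q x}) : MeasurableSet {x | p x → q x} := by
  have : {x | p x → q x} = {x | p x}ᶜ ∪ {x | q x} := by
    ext x
    simp only [Set.mem_setOf_eq, Set.mem_union, Set.mem_compl_iff]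
    tauto
  rw [this]
  exact hp.compl.union hq

theorem meas_iff {α : Type} [MeasurableSpace α] {p q : α → Prop} (hp : MeasurableSet {x | p x})
    (hq : MeasurableSet {x | q x}) : MeasurableSet {x | p x ↔ q x} := by
  have : {x | p x ↔ q x} = {x | p x → q x} ∩ {x | q x → p x} := by
    ext x
    simp only [Set.mem_setOf_eq, Set.mem_inter_iff]
    tauto
  rw [this]
  exact (meas_imp hp hq).inter (meas_imp hq hp)

theorem meas_all {α ι : Type} [MeasurableSpace α] [Countable ι] {p : ι → α → Prop}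
    (h : ∀ i, MeasurableSet {x | p i x}) : MeasurableSet {x | ∀ i, p i x} := by
  rw [Set.setOf_forall]
  exact MeasurableSet.iInter h

theorem meas_ex {α ι : Type} [MeasurableSpace α] [Countable ι] {p : ι → α → Prop}
    (h : ∀ i, MeasurableSet {x | p i x}) : MeasurableSet {x | ∃ i, p i x} := by
  rw [Set.setOf_exists]
  exact MeasurableSet.iUnion h

theorem meas_borX : MeasurableSet {x : ℕ × ℕ → Bool | BorX x} := by
  have hp : ∀ p : ℕ × ℕ, Measurable fun x : ℕ × ℕ → Bool => x p := fun p => measurable_pi_apply p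
  have he : ∀ p q : ℕ × ℕ, MeasurableSet {x : ℕ × ℕ → Bool | x p = x q} := fun p q =>
    measurableSet_eq_fun (hp _) (hp _)
  have ht : ∀ p : ℕ × ℕ, MeasurableSet {x : ℕ × ℕ → Bool | x p = true} := fun p =>
    (hp _) (measurableSet_singleton true)
  have hf : ∀ p : ℕ × ℕ, MeasurableSet {x : ℕ × ℕ → Bool | x p = false} := fun p =>
    (hp _) (measurableSet_singleton false)
  have hq : ∀ i j : ℕ, MeasurableSet {x : ℕ × ℕ → Bool | ∀ k, x (k, i) = x (k, j)} := fun i j =>
    meas_all fun k => he _ _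
  have hG : ∀ n j : ℕ, MeasurableSet {x : ℕ × ℕ → Bool | Gx x n j} := fun n j => meas_sat _ _
  have hGq : ∀ n j : ℕ, MeasurableSet {x : ℕ × ℕ → Bool |
      ∀ j', Gx x n j' ↔ ∀ k, x (k, j') = x (k, j)} := fun n j =>
    meas_all fun j' => meas_iff (hG _ _) (hq _ _)
  unfold BorX
  refine MeasurableSet.inter (s₁ := {x | _}) (s₂ := {x | _}) ?_ ?_
  · exact meas_all fun i => meas_all fun i' => meas_all fun j => meas_imp (hq _ _) (he _ _)
  refine MeasurableSet.inter (s₁ := {x | _}) (s₂ := {x | _}) ?_ ?_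
  · exact meas_ex fun e => meas_all fun k => hf _
  refine MeasurableSet.inter (s₁ := {x | _}) (s₂ := {x | _}) ?_ ?_
  · exact meas_all fun e => meas_all fun i => meas_imp (meas_all fun k => hf _)
      (meas_ex fun j => meas_sat _ _)
  refine MeasurableSet.inter (s₁ := {x | _}) (s₂ := {x | _}) ?_ ?_
  · refine meas_all fun n => MeasurableSet.inter (s₁ := {x | _}) (s₂ := {x | _}) ?_ ?_
    · exact meas_all fun j => meas_imp (hGq _ _) (hq _ _)
    · exact meas_imp (meas_ex fun j => hGq _ _).compl (meas_all fun k => hf _)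
  refine MeasurableSet.inter (s₁ := {x | _}) (s₂ := {x | _}) ?_ ?_
  · refine meas_all fun j => meas_imp (meas_sat _ _) (meas_ex fun k =>
      MeasurableSet.inter (s₁ := {x | _}) (s₂ := {x | _}) ?_ ?_)
    · exact meas_all fun u => meas_imp (ht _) (meas_ex fun q =>
        (meas_sat _ _).inter (meas_sat _ _))
    · exact meas_all fun q => meas_imp (meas_sat _ _) (meas_ex fun u =>
        (ht _).inter (meas_sat _ _))
  · exact meas_all fun c => meas_all fun z => meas_ex fun y => meas_sat _ _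

/-! ### Codes and realizations -/

section

variable {x : ℕ × ℕ → Bool} {π : ℕ → ZFSet.{0}} (h : Rlx x π) {N : ZFSet.{0}}
  (hN : ∀ y, y ∈ N ↔ y ∈ Set.range π)

include h hN

theorem Rlx.gx (h0 : ∅ ∈ N) {n j : ℕ} : Gx x n j ↔ nat n ∈ JJ N (π j) := by
  have hN' : {y | y ∈ N} = Set.range π := Set.ext hN
  have h1 : nat n ∈ JJ N (π j) ↔ GS {y | y ∈ N} n (asg (π j)) := nat_mem_JS
  rw [h1, hN', Gx, h.sat]
  have h2 : (fun i => π ((![j] : Fin 1 → ℕ) i)) = ![π j] := by
    funext i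
    fin_cases i
    rfl
  rw [h2]
  exact (gs_fml n).choose_spec _ h.trans ((hN _).1 h0) _ ⟨j, rfl⟩

theorem Rlx.emp_iff {e : ℕ} : (∀ k, x (k, e) = false) ↔ π e = ∅ := by
  constructor
  · intro h1
    rw [ZFSet.eq_empty]
    intro y hy
    obtain ⟨i, rfl⟩ := h.tr e y hy
    have h2 := (h.mem i e).2 hy
    rw [h1] at h2
    exact Bool.false_ne_true h2
  · intro h1 k
    rw [← Bool.not_eq_true, h.mem, h1]
    exact ZFSet.notMem_empty _

theorem Rlx.gq (h0 : ∅ ∈ N) {n j : ℕ} : (∀ j', Gx x n j' ↔ ∀ k, x (k, j') = x (k, j)) ↔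
    ∀ z ∈ N, (nat n ∈ JJ N z ↔ z = π j) := by
  constructor
  · intro h1 z hz
    obtain ⟨j', rfl⟩ := (hN _).1 hz
    rw [← h.gx hN h0, h1, h.eq]
  · intro h1 j'
    rw [h.gx hN h0, h.eq]
    exact h1 _ ((hN _).2 ⟨j', rfl⟩)

/-- The Borel condition for a realized structure. -/
theorem Rlx.borX : BorX x ↔ Sx N ∧ ∀ n, π n = da N (nat n) := by
  have hmemN : ∀ i, π i ∈ N := fun i => (hN _).2 ⟨i, rfl⟩
  have e1 : ∀ j : ℕ, (fun i => π ((![j] : Fin 1 → ℕ) i)) = ![π j] := by
    intro j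
    funext i
    fin_cases i
    rfl
  have e3 : ∀ a b c : ℕ, (fun i => π ((![a, b, c] : Fin 3 → ℕ) i)) = ![π a, π b, π c] := by
    intro a b c
    funext i
    fin_cases i <;> rfl
  have hT : ∀ j, SatB x d0_TrN.choose ![j] ↔ TrN (π j) := by
    intro j
    rw [h.d0, e1]
    rfl
  have hhp : ∀ q u, SatB x (d0_hp q).choose ![u] ↔ π u = hp q := by
    intro q u
    rw [h.d0, e1]
    rfl
  have hcd : ∀ q j, TrN (π j) → (SatB x (d0_cdr q).choose_spec.1.choose ![j] ↔
      cdr (π j) q = true) := by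
    intro q j hj
    rw [h.d0, e1]
    exact (d0_cdr q).choose_spec.2 _ hj
  have hPsi : ∀ e i j, SatB x d0_Psi.choose ![e, i, j] ↔ Psi (π e) (π i) (π j) := by
    intro e i j
    rw [h.d0, e3]
    rfl
  have hAp : ∀ y c z, SatB x d0_ApR.choose ![y, c, z] ↔ π y = ApR (π c) (π z) := by
    intro y c z
    rw [h.d0, e3]
    rfl
  have htr : ∀ y ∈ N, ∀ z ∈ y, z ∈ N := fun y hy z hz =>
    (hN z).2 (h.trans y ((hN y).1 hy) z hz)
  have hcode : ∀ j k, TrN (π j) →
      (((∀ u, x (u, k) = true → ∃ q : ℕ × ℕ, SatB x (d0_hp q).choose ![u] ∧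
        SatB x (d0_cdr q).choose_spec.1.choose ![j]) ∧
      ∀ q : ℕ × ℕ, SatB x (d0_cdr q).choose_spec.1.choose ![j] →
        ∃ u, x (u, k) = true ∧ SatB x (d0_hp q).choose ![u]) ↔ π k = XX (π j)) := by
    intro j k hj
    simp only [hhp, hcd _ _ hj]
    constructor
    · rintro ⟨h1, h2⟩
      ext y
      rw [XX, mem_toS]
      constructor
      · intro hy
        obtain ⟨u, rfl⟩ := h.tr k y hy
        obtain ⟨q, h3, h4⟩ := h1 u ((h.mem _ _).2 hy)
        exact ⟨q, h4, h3⟩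
      · rintro ⟨q, hq, rfl⟩
        obtain ⟨u, h3, h4⟩ := h2 q hq
        rw [← h4]
        exact (h.mem _ _).1 h3
    · intro h1
      constructor
      · intro u hu
        have h2 := (h.mem _ _).1 hu
        rw [h1, XX, mem_toS] at h2
        obtain ⟨q, hq, h3⟩ := h2
        exact ⟨q, h3, hq⟩
      · intro q hq
        have h2 : hp q ∈ π k := by
          rw [h1, XX, hp_mem_toS]
          exact hq
        obtain ⟨u, hu⟩ := h.tr k _ h2
        refine ⟨u, (h.mem _ _).2 ?_, hu.symm⟩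
        rw [← hu]
        exact h2
  constructor
  · rintro ⟨-, ⟨e, he⟩, h3, h4, h5, h6⟩
    have he' := (h.emp_iff hN).1 he
    have h0 : ∅ ∈ N := he' ▸ hmemN e
    have hda : ∀ n, π n = da N (nat n) := by
      intro n
      obtain ⟨h7, h8⟩ := h4 n
      by_cases h9 : ∃ y ∈ N, ∀ z ∈ N, (nat n ∈ JJ N z ↔ z = y)
      · obtain ⟨y, hy, h10⟩ := h9
        obtain ⟨j, rfl⟩ := (hN y).1 hy
        rw [da_eq hy h10]
        exact h.eq.1 (h7 j ((h.gq hN h0).2 h10))
      · rw [da_none h9]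
        refine (h.emp_iff hN).1 (h8 ?_)
        rintro ⟨j, hj⟩
        exact h9 ⟨π j, hmemN j, (h.gq hN h0).1 hj⟩
    refine ⟨⟨htr, h0, ?_, ?_, ?_, ?_⟩, hda⟩
    · intro y hy
      obtain ⟨i, rfl⟩ := (hN y).1 hy
      obtain ⟨j, hj⟩ := h3 e i he
      rw [hPsi, he'] at hj
      exact ⟨π j, hmemN j, hj⟩
    · intro y hy
      obtain ⟨i, rfl⟩ := (hN y).1 hy
      exact ⟨i, hda i⟩
    · intro K hK h7 h8
      obtain ⟨j, rfl⟩ := (hN K).1 hK
      have hj : TrN (π j) := ⟨h7, h8⟩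
      obtain ⟨k, hk⟩ := h5 j ((hT j).2 hj)
      rw [← (hcode j k hj).1 hk]
      exact hmemN k
    · intro c hc z hz
      obtain ⟨c, rfl⟩ := (hN c).1 hc
      obtain ⟨z, rfl⟩ := (hN z).1 hz
      obtain ⟨y, hy⟩ := h6 c z
      rw [← (hAp y c z).1 hy]
      exact hmemN y
  · rintro ⟨hS, hda⟩
    refine ⟨?_, ?_, ?_, ?_, ?_, ?_⟩
    · intro i i' j h1
      have h2 := h.eq.1 h1
      rw [Bool.eq_iff_iff, h.mem, h.mem, h2]
    · obtain ⟨e, he⟩ := (hN _).1 hS.emp
      exact ⟨e, (h.emp_iff hN).2 he⟩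
    · intro e i he
      have he' := (h.emp_iff hN).1 he
      obtain ⟨f, hf, h1⟩ := hS.lev _ (hmemN i)
      obtain ⟨j, rfl⟩ := (hN f).1 hf
      refine ⟨j, ?_⟩
      rw [hPsi, he']
      exact h1
    · intro n
      constructor
      · intro j hj
        have h1 := (h.gq hN hS.emp).1 hj
        rw [h.eq, hda, da_eq (hmemN j) h1]
      · intro h1
        rw [h.emp_iff hN, hda]
        refine da_none ?_
        rintro ⟨y, hy, h2⟩
        obtain ⟨j, rfl⟩ := (hN y).1 hy
        exact h1 ⟨j, (h.gq hN hS.emp).2 h2⟩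
    · intro j hj
      have hj' := (hT j).1 hj
      obtain ⟨k, hk⟩ := (hN _).1 (hS.code _ (hmemN j) hj'.1 hj'.2)
      exact ⟨k, (hcode j k hj').2 hk⟩
    · intro c z
      obtain ⟨y, hy⟩ := (hN _).1 (hS.ap _ (hmemN c) _ (hmemN z))
      exact ⟨y, (hAp y c z).2 hy⟩

end

/-- Well-founded coded structures in which equality is a congruence have realizations. -/
theorem exists_rlx {x : ℕ × ℕ → Bool} (hwf : WellFounded fun i j => x (i, j) = true)
    (hc : ∀ i i' j, (∀ k, x (k, i) = x (k, i')) → x (i, j) = x (i', j)) : ∃ π, Rlx x π := by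
  let π : ℕ → ZFSet.{0} := hwf.fix fun j g =>
    ZFSet.range fun i : {i : ℕ // x (i, j) = true} => g i.1 i.2
  have hπ : ∀ j, π j = ZFSet.range fun i : {i : ℕ // x (i, j) = true} => π i.1 := by
    intro j
    exact hwf.fix_eq _ j
  have hmem : ∀ j y, y ∈ π j ↔ ∃ i, x (i, j) = true ∧ y = π i := by
    intro j y
    rw [hπ, ZFSet.mem_range]
    constructor
    · rintro ⟨⟨i, hi⟩, rfl⟩
      exact ⟨i, hi, rfl⟩
    · rintro ⟨i, hi, rfl⟩
      exact ⟨⟨i, hi⟩, rfl⟩
  have hinj : ∀ i i', π i = π i' → ∀ k, x (k, i) = x (k, i') := by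
    intro i
    induction i using hwf.induction with
    | _ i ih =>
    intro i' h k
    rw [Bool.eq_iff_iff]
    constructor
    · intro hk
      have h1 : π k ∈ π i' := h ▸ (hmem _ _).2 ⟨k, hk, rfl⟩
      obtain ⟨k', hk', h2⟩ := (hmem _ _).1 h1
      rw [hc k k' i' (ih k hk k' h2)]
      exact hk'
    · intro hk
      have h1 : π k ∈ π i := h ▸ (hmem _ _).2 ⟨k, hk, rfl⟩
      obtain ⟨k', hk', h2⟩ := (hmem _ _).1 h1
      rw [hc k k' i fun l => (ih k' hk' k h2.symm l).symm]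
      exact hk'
  refine ⟨π, fun i j => ?_, fun j y hy => ?_⟩
  · rw [hmem]
    constructor
    · intro h
      exact ⟨i, h, rfl⟩
    · rintro ⟨i', h1, h2⟩
      rw [hc i i' j (hinj i i' h2)]
      exact h1
  · obtain ⟨i, -, h⟩ := (hmem _ _).1 hy
    exact ⟨i, h⟩

/-- The set of the codes is given by well-foundedness and the Borel condition. -/
theorem rx_iff {x : ℕ × ℕ → Bool} : x ∈ RX ↔
    (WellFounded fun i j => x (i, j) = true) ∧ BorX x := by
  constructor
  · rintro ⟨N, hN, rfl⟩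
    have h : Rlx (cdr N) fun i => da N (nat i) := by
      refine ⟨fun i j => cdr_eq, fun j y hy => ?_⟩
      exact hN.ptw y (hN.trans _ (da_mem hN.emp) _ hy)
    have h1 : ∀ y, y ∈ N ↔ y ∈ Set.range fun i => da N (nat i) := by
      intro y
      constructor
      · intro hy
        obtain ⟨n, hn⟩ := hN.ptw y hy
        exact ⟨n, hn.symm⟩
      · rintro ⟨n, rfl⟩
        exact da_mem hN.emp
    refine ⟨?_, (h.borX h1).2 ⟨hN, fun n => rfl⟩⟩
    have h2 : (fun i j => cdr N (i, j) = true) = InvImage (· ∈ ·) fun i => da N (nat i) := by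
      funext i j
      exact propext cdr_eq
    rw [h2]
    exact InvImage.wf _ ZFSet.mem_wf
  · rintro ⟨h1, h2⟩
    obtain ⟨π, hπ⟩ := exists_rlx h1 h2.1
    have h3 : ∀ y, y ∈ ZFSet.range π ↔ y ∈ Set.range π := fun y => ZFSet.mem_range
    obtain ⟨h4, h5⟩ := (hπ.borX h3).1 h2
    refine ⟨_, h4, ?_⟩
    funext p
    rw [Bool.eq_iff_iff, cdr_eq, ← h5, ← h5]
    exact hπ.mem _ _

/-! ### Analyticity -/

theorem polish_boolA (ι : Type) [Countable ι] : PolishSpace (ι → Bool) := by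
  have h1 : TopologicalSpace.IsCompletelyMetrizableSpace (ι → Bool) := inferInstance
  have h2 : TopologicalSpace.SeparableSpace (ι → Bool) := inferInstance
  exact instPolishSpaceOfSeparableSpaceOfIsCompletelyMetrizableSpace

theorem analytic_illfounded :
    AnalyticSet {x : ℕ × ℕ → Bool | ¬ WellFounded fun i j => x (i, j) = true} := by
  haveI := polish_boolA (ℕ × ℕ)
  have h1 : {x : ℕ × ℕ → Bool | ¬ WellFounded fun i j => x (i, j) = true} =
      Prod.snd '' {p : (ℕ → ℕ) × (ℕ × ℕ → Bool) | ∀ n, p.2 (p.1 (n + 1), p.1 n) = true} := by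
    ext x
    rw [Set.mem_setOf_eq, wellFounded_iff_isEmpty_descending_chain, not_isEmpty_iff]
    constructor
    · rintro ⟨⟨f, hf⟩⟩
      exact ⟨(f, x), hf, rfl⟩
    · rintro ⟨⟨f, x'⟩, hf, rfl⟩
      exact ⟨⟨f, hf⟩⟩
  rw [h1]
  refine AnalyticSet.image_of_continuous ?_ continuous_snd
  refine IsClosed.analyticSet ?_
  rw [Set.setOf_forall]
  refine isClosed_iInter fun n => ?_
  have h2 : {p : (ℕ → ℕ) × (ℕ × ℕ → Bool) | p.2 (p.1 (n + 1), p.1 n) = true}ᶜ =
      ⋃ q : ℕ × ℕ, {p | p.1 (n + 1) = q.1} ∩ {p | p.1 n = q.2} ∩ {p | p.2 q = false} := by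
    ext p
    simp only [Set.mem_compl_iff, Set.mem_setOf_eq, Set.mem_iUnion, Set.mem_inter_iff,
      Bool.not_eq_true]
    constructor
    · intro h
      exact ⟨(p.1 (n + 1), p.1 n), ⟨rfl, rfl⟩, h⟩
    · rintro ⟨q, ⟨h3, h4⟩, h5⟩
      rw [h3, h4]
      exact h5
  rw [← isOpen_compl_iff, h2]
  refine isOpen_iUnion fun q => ?_
  have h3 : ∀ k a : ℕ, IsOpen {p : (ℕ → ℕ) × (ℕ × ℕ → Bool) | p.1 k = a} := by
    intro k a
    have h5 : Continuous fun p : (ℕ → ℕ) × (ℕ × ℕ → Bool) => p.1 k :=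
      (continuous_apply k).comp continuous_fst
    exact (isOpen_discrete ({a} : Set ℕ)).preimage h5
  have h4 : IsOpen {p : (ℕ → ℕ) × (ℕ × ℕ → Bool) | p.2 q = false} := by
    have h5 : Continuous fun p : (ℕ → ℕ) × (ℕ × ℕ → Bool) => p.2 q :=
      (continuous_apply q).comp continuous_snd
    exact (isOpen_discrete ({false} : Set Bool)).preimage h5
  exact ((h3 _ _).inter (h3 _ _)).inter h4

/-- The set of the codes is coanalytic. -/
theorem analytic_RX_compl : AnalyticSet (RXᶜ : Set (ℕ × ℕ → Bool)) := by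
  haveI := polish_boolA (ℕ × ℕ)
  have h1 : RXᶜ = {x : ℕ × ℕ → Bool | ¬ WellFounded fun i j => x (i, j) = true} ∪
      {x | BorX x}ᶜ := by
    ext x
    rw [Set.mem_compl_iff, rx_iff, not_and_or]
    rfl
  rw [h1, Set.union_eq_iUnion]
  refine AnalyticSet.iUnion fun b => ?_
  cases b
  · exact meas_borX.compl.analyticSet
  · exact analytic_illfounded

end Pool.Agent.R587
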