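import Pool.Agent.R587.LInst

/-!
# Codes of the countable levels all whose elements are definable
-/

set_option autoImplicit false

namespace Pool.Agent.R587

open Pool.Agent.W868 hiding Models
open ZFSet (pair)
open Cardinal

/-- The element of `N` with the definition number `n`. -/
noncomputable def da (N n : ZFSet.{0}) : ZFSet.{0} :=
  (ZFSet.sUnion (ZFSet.sep (fun y => n ∈ JJ N y ∧ ∀ z ∈ N, n ∈ JJ N z → z = y) N) : ZFSet.{0})

open Classical in
/-- The code of `N`: the isomorphic relation on the definition numbers. -/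
noncomputable def cdr (N : ZFSet.{0}) : ℕ × ℕ → Bool :=
  fun p => decide (da N (nat p.1) ∈ da N (nat p.2))

/-- The set of pairs of natural numbers with a given characteristic function. -/
noncomputable def toS (x : ℕ × ℕ → Bool) : ZFSet.{0} :=
  ZFSet.range fun p : {p : ℕ × ℕ // x p = true} => pair (nat p.1.1) (nat p.1.2)

/-- The code of `N`, as a set. -/
noncomputable def XX (N : ZFSet.{0}) : ZFSet.{0} := toS (cdr N)

/-- The value at `x` of the function with the code `c`. -/
noncomputable def ApR (c x : ZFSet.{0}) : ZFSet.{0} :=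
  ZFSet.sep (fun u => ∃ p q, pair u (pair p q) ∈ c ∧ p ⊆ x ∧ ∀ z ∈ q, z ∉ x)
    (ZFSet.sUnion (ZFSet.sUnion c : ZFSet.{0}))

/-- The level `N` is closed under the codes of its elements and under the functions with codes in
`N`, and all its elements are definable. -/
structure Sx (N : ZFSet.{0}) : Prop where
  trans : ∀ x ∈ N, ∀ y ∈ x, y ∈ N
  emp : ∅ ∈ N
  lev : ∀ x ∈ N, ∃ f ∈ N, Psi ∅ x f
  ptw : ∀ y ∈ N, ∃ n : ℕ, y = da N (nat n)
  code : ∀ K ∈ N, (∀ x ∈ K, ∀ y ∈ x, y ∈ K) → ∅ ∈ K → XX K ∈ N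
  ap : ∀ c ∈ N, ∀ x ∈ N, ApR c x ∈ N

/-- The set of the codes. -/
def RX : Set (ℕ × ℕ → Bool) := {x | ∃ N, Sx N ∧ x = cdr N}

end Pool.Agent.R587
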