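import Pool.Agent.R587.SpDefs

/-!
# A rigid space with a Cantor set
-/

set_option autoImplicit false

namespace Pool.Agent.R587

open Cardinal Set Topology MeasureTheory

/-! ### The Cantor space -/

/-- Doubling. -/
def dbl (z : ℕ → Bool) : ℕ → Bool := fun n => if n % 2 = 1 then z (n / 2) else false

theorem dbl_even (z : ℕ → Bool) (n : ℕ) : dbl z (2 * n) = false := by
  simp [dbl]

theorem dbl_odd (z : ℕ → Bool) (n : ℕ) : dbl z (2 * n + 1) = z n := by
  have h1 : (2 * n + 1) % 2 = 1 := by omega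
  have h2 : (2 * n + 1) / 2 = n := by omega
  simp [dbl, h1, h2]

theorem dbl_injective : Function.Injective dbl := by
  intro y z h
  funext n
  rw [← dbl_odd y, ← dbl_odd z, h]

theorem continuous_dbl : Continuous dbl := by
  refine continuous_pi fun n => ?_
  by_cases h : n % 2 = 1
  · simp only [dbl, h, if_true]
    exact continuous_apply _
  · simp only [dbl, h, if_false]
    exact continuous_const

theorem cantor_uncountable {U : Set (ℕ → Bool)} (hU : IsOpen U) (h : U.Nonempty) :
    ¬ U.Countable := by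
  obtain ⟨x, hx⟩ := h
  obtain ⟨I, v, hv, hI⟩ := isOpen_pi_iff.1 hU x hx
  obtain ⟨N, hN⟩ : ∃ N, ∀ i ∈ I, i < N := ⟨I.sup id + 1, fun i hi =>
    Nat.lt_succ_of_le (Finset.le_sup (f := id) hi)⟩
  let g : (ℕ → Bool) → (ℕ → Bool) := fun z n => if n < N then x n else z (n - N)
  have hg : Function.Injective g := by
    intro y z hyz
    funext n
    have h1 := congrFun hyz (n + N)
    simpa [g] using h1
  have hgU : ∀ z, g z ∈ U := by
    intro z
    refine hI fun i hi => ?_
    have h1 : g z i = x i := by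
      simp [g, hN i hi]
    rw [h1]
    exact (hv i hi).2
  intro hc
  have h1 : (Set.univ : Set (ℕ → Bool)).Countable :=
    Set.MapsTo.countable_of_injOn (f := g) (fun z _ => hgU z) hg.injOn hc
  have h2 := Cardinal.le_aleph0_iff_set_countable.2 h1
  rw [Cardinal.mk_univ] at h2
  have h3 : #(ℕ → Bool) = 𝔠 := by simp
  rw [h3] at h2
  exact absurd h2 (not_le.2 Cardinal.aleph0_lt_continuum)

theorem rigidSp_iff_of_homeo {X Y : Type} [TopologicalSpace X] [TopologicalSpace Y] (e : X ≃ₜ Y)
    (h : RigidSp Y) : RigidSp X := by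
  intro f x
  have h1 := h ((e.symm.trans f).trans e) (e x)
  simp only [Homeomorph.trans_apply, Homeomorph.symm_apply_apply] at h1
  exact e.injective h1

/-- flipping the first coordinate -/
def flip0 : (ℕ → Bool) ≃ₜ (ℕ → Bool) where
  toFun z := Function.update z 0 (!z 0)
  invFun z := Function.update z 0 (!z 0)
  left_inv z := by
    funext n
    by_cases h : n = 0
    · subst h
      simp
    · simp [Function.update_of_ne h]
  right_inv z := by
    funext n
    by_cases h : n = 0
    · subst h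
      simp
    · simp [Function.update_of_ne h]
  continuous_toFun := by
    refine continuous_id.update 0 ?_
    exact (continuous_of_discreteTopology (f := Bool.not)).comp (continuous_apply 0)
  continuous_invFun := by
    refine continuous_id.update 0 ?_
    exact (continuous_of_discreteTopology (f := Bool.not)).comp (continuous_apply 0)

theorem not_rigid_cantor : ¬ RigidSp (ℕ → Bool) := by
  intro h
  have h1 := congrFun (h flip0 fun _ => false) 0
  simp [flip0] at h1

/-! ### The construction -/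

section

variable {α : Type} [TopologicalSpace α] [PolishSpace α] {R : Set α}

/-- The small part. -/
def smO (R : Set α) : Set α :=
  ⋃₀ {B | B ∈ TopologicalSpace.countableBasis α ∧ (B ∩ R).Countable}

theorem isOpen_smO : IsOpen (smO R) :=
  isOpen_sUnion fun _ hB => TopologicalSpace.isOpen_of_mem_countableBasis hB.1

theorem countable_smO : (smO R ∩ R).Countable := by
  have h : smO R ∩ R ⊆ ⋃ B ∈ {B | B ∈ TopologicalSpace.countableBasis α ∧ (B ∩ R).Countable},
      B ∩ R := by
    rintro x ⟨⟨B, hB, hx⟩, hxR⟩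
    exact Set.mem_biUnion hB ⟨hx, hxR⟩
  refine Set.Countable.mono h (Set.Countable.biUnion ?_ fun B hB => hB.2)
  exact (TopologicalSpace.countable_countableBasis α).mono fun B hB => hB.1

theorem unc_inter {U : Set α} (hU : IsOpen U) (h : (U ∩ (R \ smO R)).Nonempty) :
    ¬ (U ∩ (R \ smO R)).Countable := by
  obtain ⟨x, hxU, hxR, hxO⟩ := h
  obtain ⟨B, hB, hxB, hBU⟩ :=
    (TopologicalSpace.isBasis_countableBasis α).exists_subset_of_mem_open hxU hU
  intro hc
  have h1 : ¬ (B ∩ R).Countable := fun h1 => hxO ⟨B, ⟨hB, h1⟩, hxB⟩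
  apply h1
  refine (hc.union (countable_smO (R := R))).mono ?_
  rintro y ⟨hyB, hyR⟩
  by_cases hy : y ∈ smO R
  · exact Or.inr ⟨hy, hyR⟩
  · exact Or.inl ⟨hBU hyB, hyR, hy⟩

theorem top_main (h1 : AnalyticSet Rᶜ) (h2 : ¬ R.Countable)
    (h3 : ∀ (W : Type) [TopologicalSpace W] (a b : W → α), IsEmbedding a → IsEmbedding b →
      (∀ w, a w ∈ R) → (∀ w, b w ∈ R) → {w | a w ≠ b w}.Countable)
    (h4 : ∀ A : Set α, ¬ A.Countable → #A = 𝔠) :
    ∃ X : Set α, AnalyticSet Xᶜ ∧ CCrowded X ∧ RigidSp X ∧ ¬ CHerRigid X := by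
  classical
  letI := TopologicalSpace.upgradeIsCompletelyMetrizable α
  set Y : Set α := R \ smO R with hY
  have hYn : Y.Nonempty := by
    by_contra hcon
    rw [Set.not_nonempty_iff_eq_empty] at hcon
    apply h2
    refine (countable_smO (R := R)).mono fun y hy => ?_
    by_contra h5
    have : y ∈ Y := ⟨hy, fun h6 => h5 ⟨h6, hy⟩⟩
    rw [hcon] at this
    exact this
  have hpre : Preperfect Y := by
    rw [preperfect_iff_nhds]
    intro x hx U hU
    obtain ⟨V, hVU, hV, hxV⟩ := mem_nhds_iff.1 hU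
    have h5 := unc_inter (R := R) hV ⟨x, hxV, hx⟩
    by_contra hcon
    push Not at hcon
    apply h5
    refine (Set.countable_singleton x).mono fun y hy => ?_
    exact hcon y ⟨hVU hy.1, hy.2⟩
  obtain ⟨f, hf1, hf2, hf3⟩ := hpre.perfect_closure.exists_nat_bool_injection hYn.closure
  -- the Cantor set
  set C : Set α := Set.range fun z => f (dbl z) with hC
  have hCcl : C ⊆ closure Y := by
    rintro _ ⟨z, rfl⟩
    exact hf1 ⟨_, rfl⟩
  have hCc : IsCompact C := isCompact_range (hf2.comp continuous_dbl)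
  have hCclosed : IsClosed C := hCc.isClosed
  -- the rest is dense
  have hdense : ∀ U : Set α, IsOpen U → (U ∩ (Y ∪ C)).Nonempty → (U ∩ (Y \ C)).Nonempty := by
    intro U hU hne
    by_contra hcon
    have h5 : U ∩ Y ⊆ C := by
      intro y hy
      by_contra h6
      exact hcon ⟨y, hy.1, hy.2, h6⟩
    have h6 : U ∩ closure Y ⊆ C := by
      intro y hy
      have h7 : y ∈ closure (U ∩ Y) := hU.inter_closure ⟨hy.1, hy.2⟩
      exact closure_minimal h5 hCclosed h7
    have h7 : ∃ z, f (dbl z) ∈ U := by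
      obtain ⟨y, hyU, hy⟩ := hne
      have h8 : y ∈ C := by
        rcases hy with hy | hy
        · exact h5 ⟨hyU, hy⟩
        · exact hy
      obtain ⟨z, rfl⟩ := h8
      exact ⟨z, hyU⟩
    obtain ⟨z, hz⟩ := h7
    obtain ⟨I, v, hv, hI⟩ := isOpen_pi_iff.1 (hU.preimage hf2) (dbl z) hz
    obtain ⟨N, hN⟩ : ∃ N, ∀ i ∈ I, i < 2 * N := ⟨I.sup id + 1, fun i hi => by
      have := Finset.le_sup (f := id) hi
      simp only [id] at this
      omega⟩
    have h8 : Function.update (dbl z) (2 * N) true ∈ f ⁻¹' U := by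
      refine hI fun i hi => ?_
      have h9 : i ≠ 2 * N := (hN i hi).ne
      rw [Function.update_of_ne h9]
      exact (hv i hi).2
    obtain ⟨z', hz'⟩ := h6 ⟨h8, hf1 ⟨_, rfl⟩⟩
    have h9 := congrFun (hf3 hz') (2 * N)
    rw [dbl_even, Function.update_self] at h9
    exact Bool.false_ne_true h9
  set X : Set α := Y ∪ C with hX
  have hXU : ∀ U : Set α, IsOpen U → (U ∩ X).Nonempty → ¬ (U ∩ X).Countable := by
    intro U hU hne hc
    obtain ⟨y, hyU, hyY, -⟩ := hdense U hU hne
    have h5 := unc_inter (R := R) hU ⟨y, hyU, hyY⟩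
    have h6 : U ∩ (R \ smO R) ⊆ U ∩ X := fun w hw => ⟨hw.1, Or.inl hw.2⟩
    exact h5 (hc.mono h6)
  have hunc : ∀ V : Set X, IsOpen V → V.Nonempty → ¬ V.Countable := by
    intro V hV hne hc
    obtain ⟨U, hU, rfl⟩ := isOpen_induced_iff.1 hV
    obtain ⟨x, hx⟩ := hne
    refine hXU U hU ⟨x.1, hx, x.2⟩ ((hc.image Subtype.val).mono ?_)
    rintro w ⟨hwU, hwX⟩
    exact ⟨⟨w, hwX⟩, hwU, rfl⟩
  have hcard : ∀ (T : Type) (g : T → α), Function.Injective g → ∀ A : Set T, ¬ A.Countable →
      #A = 𝔠 := by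
    intro T g hg A hA
    have h5 : ¬ (g '' A).Countable := fun h6 =>
      hA (Set.countable_of_injective_of_countable_image hg.injOn h6)
    rw [← h4 _ h5, Cardinal.mk_image_eq hg]
  have hXc : CCrowded X := fun V hV hne => hcard X Subtype.val Subtype.val_injective V
    (hunc V hV hne)
  refine ⟨X, ?_, hXc, ?_, ?_⟩
  · -- coanalytic
    have h5 : Xᶜ = (Rᶜ ∪ smO R) ∩ Cᶜ := by
      ext x
      simp only [hX, hY, Set.mem_compl_iff, Set.mem_union, Set.mem_diff, Set.mem_inter_iff]
      tauto
    rw [h5]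
    have h6 : AnalyticSet (Rᶜ ∪ smO R) := by
      rw [Set.union_eq_iUnion]
      refine AnalyticSet.iUnion fun b => ?_
      cases b
      · have h7 := (isOpen_smO (R := R)).analyticSet_image continuous_id
        rwa [Set.image_id] at h7
      · exact h1
    rw [Set.inter_eq_iInter]
    refine AnalyticSet.iInter fun b => ?_
    cases b
    · have h7 := hCclosed.isOpen_compl.analyticSet_image continuous_id
      rwa [Set.image_id] at h7
    · exact h6
  · -- rigid
    intro h x0
    by_contra hx0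
    let D : Set X := {x | x.1 ∉ C}
    have hD : IsOpen D := hCclosed.isOpen_compl.preimage continuous_subtype_val
    have hDY : ∀ x ∈ D, x.1 ∈ R := by
      intro x hx
      rcases x.2 with h5 | h5
      · exact h5.1
      · exact absurd h5 hx
    have hDd : ∀ V : Set X, IsOpen V → V.Nonempty → (V ∩ D).Nonempty := by
      intro V hV hne
      obtain ⟨U, hU, rfl⟩ := isOpen_induced_iff.1 hV
      obtain ⟨x, hx⟩ := hne
      obtain ⟨y, hyU, hyY, hyC⟩ := hdense U hU ⟨x.1, hx, x.2⟩
      exact ⟨⟨y, Or.inl hyY⟩, hyU, hyC⟩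
    -- the open set where h moves points, inside D and h⁻¹ D
    let V : Set X := {x | h x ≠ x}
    have hV : IsOpen V := isOpen_ne_fun h.continuous continuous_id
    have hV1 : (V ∩ D).Nonempty := hDd V hV ⟨x0, hx0⟩
    have hV2 : IsOpen (V ∩ D) := hV.inter hD
    have hV3 : (h '' (V ∩ D) ∩ D).Nonempty := hDd _ (h.isOpenMap _ hV2) (hV1.image h)
    have hV4 : IsOpen ((V ∩ D) ∩ h ⁻¹' D) := hV2.inter (hD.preimage h.continuous)
    have hV5 : ((V ∩ D) ∩ h ⁻¹' D).Nonempty := by
      obtain ⟨_, ⟨x, hx, rfl⟩, hxD⟩ := hV3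
      exact ⟨x, hx, hxD⟩
    set W : Set X := (V ∩ D) ∩ h ⁻¹' D with hW
    have h5 := h3 W (fun w => (w.1 : α)) (fun w => (h w.1 : α))
      (IsEmbedding.subtypeVal.comp IsEmbedding.subtypeVal)
      (IsEmbedding.subtypeVal.comp (h.isEmbedding.comp IsEmbedding.subtypeVal))
      (fun w => hDY _ w.2.1.2) (fun w => hDY _ w.2.2)
    refine hunc W hV4 hV5 ?_
    refine (h5.image Subtype.val).mono fun x hx => ?_
    refine ⟨⟨x, hx⟩, ?_, rfl⟩
    intro h6
    exact hx.1.1 (Subtype.ext h6).symm
  · -- a Cantor set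
    rintro ⟨-, hher⟩
    let g : (ℕ → Bool) → X := fun z => ⟨f (dbl z), Or.inr ⟨z, rfl⟩⟩
    have hg : Continuous g := (hf2.comp continuous_dbl).subtype_mk _
    have hgi : Function.Injective g := fun y z hyz =>
      dbl_injective (hf3 (congrArg Subtype.val hyz))
    have hge : IsEmbedding g := (hg.isClosedEmbedding hgi).isEmbedding
    let e : (ℕ → Bool) ≃ₜ Set.range g := hge.toHomeomorph
    have hcr : CCrowded (Set.range g) := by
      intro V hV hne
      refine hcard _ (fun x => (x.1.1 : α))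
        (Subtype.val_injective.comp Subtype.val_injective) V ?_
      have h5 := cantor_uncountable (hV.preimage e.continuous) (by
        obtain ⟨x, hx⟩ := hne
        exact ⟨e.symm x, by simpa using hx⟩)
      intro hc
      exact h5 (hc.preimage_of_injOn e.injective.injOn)
    exact not_rigid_cantor (rigidSp_iff_of_homeo e (hher _ hcr))

end

end Pool.Agent.R587
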