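import Pool.Agent.R587.CoU
import Pool.Agent.R587.CoTop

/-!
# The space, from the set of codes
-/

set_option autoImplicit false

namespace Pool.Agent.R587

open Pool.Agent.W868 hiding Models
open Cardinal Set Topology MeasureTheory

/-- A homeomorphism of the spaces of the codes. -/
noncomputable def hcod : (ℕ × ℕ → Bool) ≃ₜ (ℕ → Bool) :=
  Homeomorph.piCongrLeft (Y := fun _ => Bool) Nat.pairEquiv

theorem polish_bool (ι : Type) [Countable ι] : PolishSpace (ι → Bool) := by
  have h1 : TopologicalSpace.IsCompletelyMetrizableSpace (ι → Bool) := inferInstance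
  have h2 : TopologicalSpace.SeparableSpace (ι → Bool) := inferInstance
  exact instPolishSpaceOfSeparableSpaceOfIsCompletelyMetrizableSpace

theorem co_main (hV : VLv) (hA : AnalyticSet RXᶜ) :
    ∃ X : Set (ℕ → Bool), AnalyticSet Xᶜ ∧ CCrowded X ∧ RigidSp X ∧ ¬ CHerRigid X := by
  haveI := polish_bool ℕ
  refine top_main (R := hcod '' RX) ?_ ?_ ?_ ?_
  · rw [← Set.image_compl_eq hcod.bijective]
    exact hA.image_of_continuous hcod.continuous
  · intro h
    exact RX_uncountable hV
      (Set.countable_of_injective_of_countable_image hcod.injective.injOn h)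
  · intro W _ a b ha hb haR hbR
    have ha' : IsEmbedding (fun w => hcod.symm (a w)) := hcod.symm.isEmbedding.comp ha
    have hb' : IsEmbedding (fun w => hcod.symm (b w)) := hcod.symm.isEmbedding.comp hb
    have hA1 : Set.range (fun w => hcod.symm (a w)) ⊆ RX := by
      rintro _ ⟨w, rfl⟩
      obtain ⟨x, hx, h⟩ := haR w
      simp only
      rw [← h, hcod.symm_apply_apply]
      exact hx
    have hB1 : Set.range (fun w => hcod.symm (b w)) ⊆ RX := by
      rintro _ ⟨w, rfl⟩
      obtain ⟨x, hx, h⟩ := hbR w
      simp only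
      rw [← h, hcod.symm_apply_apply]
      exact hx
    have h1 := RX_rigid hV hA1 hB1 (ha'.toHomeomorph.symm.trans hb'.toHomeomorph)
    refine (h1.preimage_of_injOn ha'.injective.injOn).mono fun w hw => ?_
    refine ⟨⟨w, rfl⟩, ?_⟩
    have h2 : ha'.toHomeomorph.symm ⟨hcod.symm (a w), ⟨w, rfl⟩⟩ = w := by
      rw [Homeomorph.symm_apply_eq]
      rfl
    show ((ha'.toHomeomorph.symm.trans hb'.toHomeomorph) ⟨hcod.symm (a w), ⟨w, rfl⟩⟩ : ℕ × ℕ → Bool)
      ≠ hcod.symm (a w)
    rw [Homeomorph.trans_apply, h2]
    show hcod.symm (b w) ≠ hcod.symm (a w)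
    intro h3
    exact hw (hcod.symm.injective h3).symm
  · intro A hA
    have h1 : ¬ (hcod.symm '' A).Countable := fun h =>
      hA (Set.countable_of_injective_of_countable_image hcod.symm.injective.injOn h)
    rw [← card_of_uncountable hV h1, Cardinal.mk_image_eq hcod.symm.injective]

end Pool.Agent.R587
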