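import Pool.Agent.R587.Base

/-!
# Coded formulas

* `gs_fml`: the truth of a coded formula is given by a formula of set theory;
* `fml_gsC`: every formula of set theory has a code;
* `sat_code`: the truth of a second-order formula in a structure is the truth of its code.
-/

set_option autoImplicit false
set_option linter.unreachableTactic false
set_option linter.unusedTactic false
set_option linter.unusedVariables false

namespace Pool.Agent.R587

open Pool.Agent.W868
open ZFSet (pair)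

/-! ### Tuples -/

theorem tup_ofFn {k : ℕ} (u : Fin k → ℕ) (f : ℕ → ZFSet.{0}) :
    tup (List.ofFn u) f = tp fun j => f (u j) := by
  ext p
  rw [tup, mem_tp, mem_tp]
  constructor
  · rintro ⟨j, rfl⟩
    refine ⟨⟨j, by simpa using j.2⟩, ?_⟩
    simp
  · rintro ⟨j, rfl⟩
    refine ⟨⟨j, by simp⟩, ?_⟩
    simp

theorem tp_injective {k : ℕ} : Function.Injective (tp : (Fin k → ZFSet.{0}) → ZFSet.{0}) := by
  intro x y h
  funext j
  have h1 : pair (nat j) (x j) ∈ tp y := by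
    rw [← h, mem_tp]
    exact ⟨j, rfl⟩
  obtain ⟨i, hi⟩ := mem_tp.1 h1
  obtain ⟨h2, h3⟩ := ZFSet.pair_inj.1 hi
  have h4 : j = i := Fin.ext (nat_injective h2)
  rw [h4] at h3 ⊢
  exact h3

theorem mem_nat {k : ℕ} {x : ZFSet.{0}} : x ∈ nat k ↔ ∃ j < k, x = nat j := by
  induction k with
  | zero => simp [nat]
  | succ k ih =>
    rw [nat, ZFSet.mem_insert_iff, ih]
    constructor
    · rintro (rfl | ⟨j, hj, rfl⟩)
      · exact ⟨k, by omega, rfl⟩
      · exact ⟨j, by omega, rfl⟩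
    · rintro ⟨j, hj, rfl⟩
      rcases Nat.lt_succ_iff_lt_or_eq.1 hj with h | rfl
      · exact Or.inr ⟨j, h, rfl⟩
      · exact Or.inl rfl

theorem isFunc_tp {k : ℕ} {Y : ZFSet.{0}} {x : Fin k → ZFSet.{0}} (hx : ∀ j, x j ∈ Y) :
    ZFSet.IsFunc (nat k) Y (tp x) := by
  refine ⟨fun p hp => ?_, fun z hz => ?_⟩
  · obtain ⟨j, rfl⟩ := mem_tp.1 hp
    exact ZFSet.pair_mem_prod.2 ⟨mem_nat.2 ⟨j, j.2, rfl⟩, hx j⟩
  · obtain ⟨j, hj, rfl⟩ := mem_nat.1 hz
    refine ⟨x ⟨j, hj⟩, mem_tp.2 ⟨⟨j, hj⟩, rfl⟩, fun w hw => ?_⟩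
    obtain ⟨i, hi⟩ := mem_tp.1 hw
    obtain ⟨h2, h3⟩ := ZFSet.pair_inj.1 hi
    have h4 : j = i := nat_injective h2
    subst h4
    exact h3

theorem exists_tp {k : ℕ} {Y t : ZFSet.{0}} (h : ZFSet.IsFunc (nat k) Y t) :
    ∃ x : Fin k → ZFSet.{0}, (∀ j, x j ∈ Y) ∧ t = tp x := by
  have h1 : ∀ j : Fin k, ∃ y, pair (nat j) y ∈ t := fun j => (h.2 _ (mem_nat.2 ⟨j, j.2, rfl⟩)).exists
  choose x hx using h1
  refine ⟨x, fun j => (ZFSet.pair_mem_prod.1 (h.1 (hx j))).2, ?_⟩
  ext p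
  rw [mem_tp]
  constructor
  · intro hp
    obtain ⟨a, ha, b, hb, rfl⟩ := ZFSet.mem_prod.1 (h.1 hp)
    obtain ⟨j, hj, rfl⟩ := mem_nat.1 ha
    refine ⟨⟨j, hj⟩, ?_⟩
    rw [(h.2 _ ha).unique hp (hx ⟨j, hj⟩)]
  · rintro ⟨j, rfl⟩
    exact hx j

/-! ### Closure properties -/

theorem Full.transC {c : Cardinal.{0}} {M : Set ZFSet.{0}} (hM : Full c M) :
    ∀ x ∈ M, ∀ y ∈ x, y ∈ M := fun x hx => ((hM.iff x).1 hx).1

theorem Full.empty_memC {c : Cardinal.{0}} {M : Set ZFSet.{0}} (hM : Full c M) : ∅ ∈ M :=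
  (hM.iff _).2 ⟨fun y hy => absurd hy (ZFSet.notMem_empty y), by simp⟩

theorem Full.insert_memC {c : Cardinal.{0}} {M : Set ZFSet.{0}} (hM : Full c M) {x y : ZFSet.{0}}
    (hx : x ∈ M) (hy : y ∈ M) : insert x y ∈ M := by
  refine (hM.iff _).2 ⟨fun z hz => ?_, ?_⟩
  · rcases ZFSet.mem_insert_iff.1 hz with rfl | h
    · exact hx
    · exact hM.transC _ hy _ h
  · refine ZFSet.card_insert_le.trans ?_
    exact Cardinal.add_le_of_le hM.inf ((hM.iff y).1 hy).2 (Cardinal.one_lt_aleph0.le.trans hM.inf)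

theorem Full.singleton_memC {c : Cardinal.{0}} {M : Set ZFSet.{0}} (hM : Full c M) {x : ZFSet.{0}}
    (hx : x ∈ M) : ({x} : ZFSet.{0}) ∈ M := by
  have h := hM.insert_memC hx hM.empty_memC
  have h1 : (insert x ∅ : ZFSet.{0}) = {x} := by
    ext z
    simp
  rwa [h1] at h

theorem Full.pair_memC {c : Cardinal.{0}} {M : Set ZFSet.{0}} (hM : Full c M) {x y : ZFSet.{0}}
    (hx : x ∈ M) (hy : y ∈ M) : pair x y ∈ M :=
  hM.insert_memC (hM.singleton_memC hx) (hM.singleton_memC (hM.insert_memC hx (hM.singleton_memC hy)))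

theorem Full.nat_memC {c : Cardinal.{0}} {M : Set ZFSet.{0}} (hM : Full c M) (n : ℕ) :
    nat n ∈ M := by
  induction n with
  | zero => exact hM.empty_memC
  | succ n ih => exact hM.insert_memC ih ih

theorem Full.tp_memC {c : Cardinal.{0}} {M : Set ZFSet.{0}} (hM : Full c M) {k : ℕ}
    {x : Fin k → ZFSet.{0}} (hx : ∀ j, x j ∈ M) : tp x ∈ M := by
  refine (hM.iff _).2 ⟨fun p hp => ?_, ?_⟩
  · obtain ⟨j, rfl⟩ := mem_tp.1 hp
    exact hM.pair_memC (hM.nat_memC _) (hx j)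
  · have h := ZFSet.lift_card_range_le (f := fun j : Fin k => pair (nat j) (x j))
    rw [Cardinal.lift_id, Cardinal.lift_id] at h
    exact h.trans ((Cardinal.mk_lt_aleph0.le).trans hM.inf)

/-! ### The truth of second-order formulas -/

theorem sat_code {m : ℕ} {ar : Fin m → ℕ} {A : Struc ar} {D c : ZFSet.{0}}
    {g : A.Dom → ZFSet.{0}} (hg : Function.Injective g) (hD : ∀ x, x ∈ D ↔ ∃ y, x = g y)
    (hc : ∀ p, p ∈ c ↔ ∃ (r : Fin m) (x : Fin (ar r) → A.Dom), A.R r x ∧
      p = pair (nat r) (tp fun j => g (x j)))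
    {M : Set ZFSet.{0}} {κ : Cardinal.{0}} (hM : Full κ M) (hDM : D ∈ M) (φ : SOF ar)
    (v : ℕ → A.Dom) (w : (k : ℕ) → ℕ → (Fin k → A.Dom) → Prop) (f : ℕ → ZFSet.{0})
    (h0 : f 0 = D) (h1 : f 1 = c) (hv : ∀ i, f (3 * i + 2) = g (v i))
    (hw : ∀ k i t, t ∈ f (3 * Nat.pair k i + 3) ↔
      ∃ x : Fin k → A.Dom, w k i x ∧ t = tp fun j => g (x j)) :
    GS M φ.code f ↔ φ.Sat A v w := by
  have hls : ∀ l : List ℕ, ls (Encodable.encode l) = l := fun l => Denumerable.ofNat_encode l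
  have hinj : ∀ (k : ℕ) (x y : Fin k → A.Dom), (tp fun j => g (x j)) = (tp fun j => g (y j)) →
      x = y := by
    intro k x y h
    funext j
    exact hg (congrFun (tp_injective h) j)
  have hcard : Cardinal.mk A.Dom ≤ κ := by
    have h2 : D.card ≤ κ := ((hM.iff D).1 hDM).2
    refine le_trans ?_ h2
    have h3 : Function.Injective (fun y : A.Dom => (⟨g y, (hD _).2 ⟨y, rfl⟩⟩ : D)) := by
      intro y y' h
      exact hg (congrArg Subtype.val h)
    have h4 := Cardinal.lift_mk_le_lift_mk_of_injective h3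
    rw [ZFSet.cardinalMk_coe_sort] at h4
    simpa using h4
  induction φ generalizing v w f with
  | rel r x =>
    rw [SOF.code, GS_pair]
    simp only [Stp, Nat.unpair_pair, hls, SOF.Sat]
    rw [tup_ofFn, h1, hc]
    simp only [hv]
    constructor
    · rintro ⟨r', x', h2, h3⟩
      obtain ⟨h4, h5⟩ := ZFSet.pair_inj.1 h3
      have h6 : r = r' := Fin.ext (nat_injective h4)
      subst h6
      rw [hinj _ _ _ h5]
      exact h2
    · intro h2
      exact ⟨r, _, h2, rfl⟩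
  | app k i x =>
    rw [SOF.code, GS_pair]
    simp only [Stp, Nat.unpair_pair, hls, SOF.Sat]
    rw [tup_ofFn, hw]
    simp only [hv]
    constructor
    · rintro ⟨x', h2, h3⟩
      rw [hinj _ _ _ h3]
      exact h2
    · intro h2
      exact ⟨_, h2, rfl⟩
  | eq x y =>
    rw [SOF.code, GS_pair]
    simp only [Stp, Nat.unpair_pair, hv, SOF.Sat]
    exact hg.eq_iff
  | neg φ ih =>
    rw [SOF.code, GS_pair]
    simp only [Stp, SOF.Sat]
    exact not_congr (ih v w f h0 h1 hv hw)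
  | and φ ψ ih1 ih2 =>
    rw [SOF.code, GS_pair]
    simp only [Stp, Nat.unpair_pair, SOF.Sat]
    exact and_congr (ih1 v w f h0 h1 hv hw) (ih2 v w f h0 h1 hv hw)
  | ex x φ ih =>
    rw [SOF.code, GS_pair]
    simp only [Stp, Nat.unpair_pair, SOF.Sat]
    have key : ∀ y : A.Dom, GS M φ.code (Function.update f (3 * x + 2) (g y)) ↔
        φ.Sat A (Function.update v x y) w := by
      intro y
      apply ih
      · rw [Function.update_of_ne (by omega), h0]
      · rw [Function.update_of_ne (by omega), h1]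
      · intro i
        by_cases h : i = x
        · subst h
          simp
        · rw [Function.update_of_ne (by omega), Function.update_of_ne h, hv]
      · intro k i t
        rw [Function.update_of_ne (by omega), hw]
    constructor
    · rintro ⟨z, hz, h2, h3⟩
      rw [h0, hD] at h2
      obtain ⟨y, rfl⟩ := h2
      exact ⟨y, (key y).1 h3⟩
    · rintro ⟨y, h2⟩
      have h3 : g y ∈ D := (hD _).2 ⟨y, rfl⟩
      exact ⟨g y, hM.transC _ hDM _ h3, h0 ▸ h3, (key y).2 h2⟩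
  | exR k i φ ih =>
    rw [SOF.code, GS_pair]
    simp only [Stp, Nat.unpair_pair, SOF.Sat]
    have key : ∀ (P : (Fin k → A.Dom) → Prop) (z : ZFSet.{0}),
        (∀ t, t ∈ z ↔ ∃ x : Fin k → A.Dom, P x ∧ t = tp fun j => g (x j)) →
        (GS M φ.code (Function.update f (3 * Nat.pair k i + 3) z) ↔
        φ.Sat A v (Function.update w k (Function.update (w k) i P))) := by
      intro P z hz
      apply ih
      · rw [Function.update_of_ne (by omega), h0]
      · rw [Function.update_of_ne (by omega), h1]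
      · intro i'
        rw [Function.update_of_ne (by omega), hv]
      · intro k' i' t
        by_cases h : k' = k
        · subst h
          by_cases h' : i' = i
          · subst h'
            simp [hz]
          · have h2 : 3 * Nat.pair k' i' + 3 ≠ 3 * Nat.pair k' i + 3 := by
              intro h3
              have h4 : Nat.pair k' i' = Nat.pair k' i := by omega
              exact h' (Nat.pair_eq_pair.1 h4).2
            rw [Function.update_of_ne h2, hw]
            simp [h']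
        · have h2 : 3 * Nat.pair k' i' + 3 ≠ 3 * Nat.pair k i + 3 := by
            intro h3
            have h4 : Nat.pair k' i' = Nat.pair k i := by omega
            exact h (Nat.pair_eq_pair.1 h4).1
          rw [Function.update_of_ne h2, hw, Function.update_of_ne h]
    constructor
    · rintro ⟨z, hz, h2, h3⟩
      refine ⟨fun x => (tp fun j => g (x j)) ∈ z, (key _ z ?_).1 h3⟩
      intro t
      constructor
      · intro ht
        obtain ⟨x, hx, rfl⟩ := exists_tp (h2 t ht)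
        rw [h0] at hx
        choose y hy using fun j => (hD _).1 (hx j)
        have h4 : x = fun j => g (y j) := funext hy
        rw [h4] at ht ⊢
        exact ⟨y, ht, rfl⟩
      · rintro ⟨x, hx, rfl⟩
        exact hx
    · rintro ⟨P, hP⟩
      let z : ZFSet.{0} := ZFSet.range fun x : {x : Fin k → A.Dom // P x} => tp fun j => g (x.1 j)
      have hz : ∀ t, t ∈ z ↔ ∃ x : Fin k → A.Dom, P x ∧ t = tp fun j => g (x j) := by
        intro t
        rw [ZFSet.mem_range]
        constructor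
        · rintro ⟨x, rfl⟩
          exact ⟨x.1, x.2, rfl⟩
        · rintro ⟨x, hx, rfl⟩
          exact ⟨⟨x, hx⟩, rfl⟩
      refine ⟨z, (hM.iff z).2 ⟨?_, ?_⟩, ?_, (key P z hz).2 hP⟩
      · intro t ht
        obtain ⟨x, -, rfl⟩ := (hz t).1 ht
        exact hM.tp_memC fun j => hM.transC _ hDM _ ((hD _).2 ⟨_, rfl⟩)
      · have h := ZFSet.lift_card_range_le
          (f := fun x : {x : Fin k → A.Dom // P x} => tp fun j => g (x.1 j))
        rw [Cardinal.lift_id, Cardinal.lift_id] at h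
        refine h.trans ((Cardinal.mk_subtype_le _).trans ?_)
        have h2 : Cardinal.mk (Fin k → A.Dom) = Cardinal.mk A.Dom ^ k := by simp
        rw [h2]
        exact (Cardinal.power_le_power_right hcard).trans (Cardinal.power_nat_le hM.inf)
      · intro t ht
        obtain ⟨x, -, rfl⟩ := (hz t).1 ht
        exact isFunc_tp fun j => by
          rw [h0, hD]
          exact ⟨_, rfl⟩

/-! ### Formulas of set theory have codes -/

theorem fml_gsC {k : ℕ} (φ : Fml Empty k) (ρ : Fin k → ℕ) : ∃ n : ℕ,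
    ∀ (N : Set ZFSet.{0}) (f : ℕ → ZFSet.{0}),
      GS N n f ↔ Sat N Empty.elim φ fun i => f (ρ i) := by
  induction φ with
  | mem s t =>
    rcases s with i | a
    · rcases t with j | a
      · refine ⟨Nat.pair 7 (Nat.pair (ρ i) (ρ j)), fun N f => ?_⟩
        rw [GS_pair]
        simp only [Stp, Nat.unpair_pair, Sat, Sum.elim_inl]
      · exact a.elim
    · exact a.elim
  | eq s t =>
    rcases s with i | a
    · rcases t with j | a
      · refine ⟨Nat.pair 2 (Nat.pair (ρ i) (ρ j)), fun N f => ?_⟩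
        rw [GS_pair]
        simp only [Stp, Nat.unpair_pair, Sat, Sum.elim_inl]
      · exact a.elim
    · exact a.elim
  | neg φ ih =>
    obtain ⟨n, hn⟩ := ih ρ
    refine ⟨Nat.pair 3 n, fun N f => ?_⟩
    rw [GS_pair]
    simp only [Stp, Sat, hn]
  | and φ ψ ih1 ih2 =>
    obtain ⟨n, hn⟩ := ih1 ρ
    obtain ⟨m, hm⟩ := ih2 ρ
    refine ⟨Nat.pair 4 (Nat.pair n m), fun N f => ?_⟩
    rw [GS_pair]
    simp only [Stp, Nat.unpair_pair, Sat, hn, hm]
  | @ex k φ ih =>
    let x : ℕ := (∑ i, ρ i) + 1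
    have hx : ∀ i, ρ i ≠ x := by
      intro i
      have := Finset.single_le_sum (f := ρ) (fun j _ => Nat.zero_le _) (Finset.mem_univ i)
      omega
    obtain ⟨n, hn⟩ := ih (Fin.cons x ρ)
    refine ⟨Nat.pair 8 (Nat.pair x n), fun N f => ?_⟩
    rw [GS_pair]
    simp only [Stp, Nat.unpair_pair, Sat, hn]
    refine exists_congr fun z => and_congr_right fun _ => ?_
    have h : (fun i => Function.update f x z ((Fin.cons x ρ : Fin (k + 1) → ℕ) i)) =
        Fin.cons z fun i => f (ρ i) := by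
      funext i
      refine Fin.cases ?_ (fun i => ?_) i
      · simp
      · simp [Function.update_of_ne (hx i)]
    rw [h]

/-! ### Coded formulas are given by formulas of set theory -/

/-- `R` is defined by one formula in all transitive classes that contain the empty set. -/
def UD {n : ℕ} (R : Set ZFSet.{0} → (Fin n → ZFSet.{0}) → Prop) : Prop :=
  ∃ φ : Fml Empty n, ∀ M : Set ZFSet.{0}, (∀ x ∈ M, ∀ y ∈ x, y ∈ M) → ∅ ∈ M →
    ∀ v, (∀ i, v i ∈ M) → (Sat M Empty.elim φ v ↔ R M v)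

section

variable {n : ℕ} {R T : Set ZFSet.{0} → (Fin n → ZFSet.{0}) → Prop}

theorem UD.of_D0 {R : (Fin n → ZFSet.{0}) → Prop} (h : D0 R) : UD fun _ => R := by
  obtain ⟨φ, hφ⟩ := h
  exact ⟨φ, fun M hM _ v hv => hφ M hM v hv⟩

theorem UD.congr (h : UD R) (h' : ∀ M : Set ZFSet.{0}, (∀ x ∈ M, ∀ y ∈ x, y ∈ M) → ∅ ∈ M →
    ∀ v, (∀ i, v i ∈ M) → (R M v ↔ T M v)) : UD T := by
  obtain ⟨φ, hφ⟩ := h
  exact ⟨φ, fun M hM h0 v hv => (hφ M hM h0 v hv).trans (h' M hM h0 v hv)⟩

theorem UD.not (h : UD R) : UD fun M v => ¬ R M v := by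
  obtain ⟨φ, hφ⟩ := h
  exact ⟨.neg φ, fun M hM h0 v hv => not_congr (hφ M hM h0 v hv)⟩

theorem UD.and (h : UD R) (h' : UD T) : UD fun M v => R M v ∧ T M v := by
  obtain ⟨φ, hφ⟩ := h
  obtain ⟨ψ, hψ⟩ := h'
  exact ⟨.and φ ψ, fun M hM h0 v hv => and_congr (hφ M hM h0 v hv) (hψ M hM h0 v hv)⟩

theorem UD.comp (h : UD R) {m : ℕ} (ρ : Fin n → Fin m) :
    UD fun M (v : Fin m → ZFSet.{0}) => R M fun i => v (ρ i) := by
  obtain ⟨φ, hφ⟩ := h
  refine ⟨φ.subst fun i => Sum.inl (ρ i), fun M hM h0 v hv => ?_⟩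
  rw [sat_subst]
  exact hφ M hM h0 _ fun i => hv _

theorem UD.ex {Q : Set ZFSet.{0} → ZFSet.{0} → (Fin n → ZFSet.{0}) → Prop}
    (h : UD fun M (w : Fin (n + 1) → ZFSet.{0}) => Q M (w 0) (Fin.tail w)) :
    UD fun M v => ∃ a ∈ M, Q M a v := by
  obtain ⟨φ, hφ⟩ := h
  refine ⟨.ex φ, fun M hM h0 v hv => ?_⟩
  simp only [Sat]
  refine exists_congr fun a => and_congr_right fun ha => ?_
  rw [hφ M hM h0 _ fun i => by
    refine Fin.cases ?_ (fun i => ?_) i
    · exact ha
    · exact hv i]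
  simp

end

section

variable {n : ℕ} {F G H : (Fin n → ZFSet.{0}) → ZFSet.{0}}

theorem D0.isNat (hF : D0v F) (j : ℕ) : D0 fun v => F v = nat j := by
  induction j generalizing n with
  | zero =>
    have h : D0 fun v => ∀ x ∈ F v, ¬ x = x := D0.ball hF (D0.eq (D0v.proj 0) (D0v.proj 0)).not
    refine h.congr fun v => ?_
    rw [nat, ZFSet.eq_empty]
    exact ⟨fun h x hx => h x hx rfl, fun h x hx => absurd hx (h x)⟩
  | succ j ih =>
    have h : D0 fun v => ∃ y ∈ F v, y = nat j ∧ (∀ u ∈ F v, u = y ∨ u ∈ y) ∧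
        ∀ u ∈ y, u ∈ F v := by
      apply D0.bex hF
      apply D0.and
      · exact ih (D0v.proj 0)
      · apply D0.and
        · apply D0.ball hF.tail
          exact (D0.eq (D0v.proj 0) (D0v.proj 1)).or (D0.mem (D0v.proj 0) (D0v.proj 1))
        · apply D0.ball (D0v.proj 0)
          exact D0.mem (D0v.proj 0) hF.tail.tail
    refine h.congr fun v => ?_
    constructor
    · rintro ⟨y, hy, rfl, h2, h3⟩
      ext u
      rw [nat, ZFSet.mem_insert_iff]
      exact ⟨fun hu => h2 u hu, fun hu => hu.elim (fun h => h ▸ hy) (h3 u)⟩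
    · intro h2
      rw [h2, nat]
      exact ⟨nat j, ZFSet.mem_insert_iff.2 (Or.inl rfl), rfl,
        fun u hu => ZFSet.mem_insert_iff.1 hu, fun u hu => ZFSet.mem_insert_iff.2 (Or.inr hu)⟩

/-- `F v` is the pair of a number and `G v`. -/
theorem D0.isNatPair (hF : D0v F) (hG : D0v G) (j : ℕ) :
    D0 fun v => F v = pair (nat j) (G v) := by
  have h : D0 fun v => ∃ x y, F v = pair x y ∧ x = nat j ∧ y = G v := by
    apply D0.expair hF
    exact (D0.isNat (D0v.proj 1) j).and (D0.eq (D0v.proj 0) hG.tail.tail)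
  exact h.congr fun v => ⟨fun ⟨x, y, h1, h2, h3⟩ => by rw [h1, h2, h3], fun h1 => ⟨_, _, h1, rfl, rfl⟩⟩

theorem D0.natPairMem (hF : D0v F) (hG : D0v G) (j : ℕ) :
    D0 fun v => pair (nat j) (F v) ∈ G v := by
  have h1 : D0 fun v => ∃ p ∈ G v, p = pair (nat j) (F v) := by
    apply D0.bex hG
    exact D0.isNatPair (D0v.proj 0) hF.tail j
  exact h1.congr fun v => ⟨fun ⟨p, hp, h⟩ => h ▸ hp, fun h => ⟨_, h, rfl⟩⟩

theorem D0.exLt' {R : ℕ → (Fin n → ZFSet.{0}) → Prop} (k : ℕ) (h : ∀ i < k, D0 (R i)) :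
    D0 fun v => ∃ i < k, R i v := by
  have h1 : ∀ i, D0 (fun v => i < k ∧ R i v) := by
    intro i
    by_cases hi : i < k
    · exact (h i hi).congr fun v => by simp [hi]
    · exact D0.tt.not.congr fun v => by simp [hi]
  exact (D0.exLt h1 k).congr fun v =>
    ⟨fun ⟨i, hi, _, h2⟩ => ⟨i, hi, h2⟩, fun ⟨i, hi, h2⟩ => ⟨i, hi, hi, h2⟩⟩

theorem D0.allLt' {R : ℕ → (Fin n → ZFSet.{0}) → Prop} (k : ℕ) (h : ∀ i < k, D0 (R i)) :
    D0 fun v => ∀ i < k, R i v :=
  (D0.exLt' k (fun i hi => (h i hi).not)).not.congr fun v => by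
    constructor
    · intro h2 a ha
      by_contra h3
      exact h2 ⟨a, ha, h3⟩
    · rintro h2 ⟨a, ha, h3⟩
      exact h3 (h2 a ha)

theorem D0.isTup (hF : D0v F) {f : (Fin n → ZFSet.{0}) → ℕ → ZFSet.{0}} (l : List ℕ)
    (hf : ∀ j ∈ l, D0v fun v => f v j) : D0 fun v => F v = tup l (f v) := by
  have hf' : ∀ i < l.length, D0v fun v => f v (l.getD i 0) := by
    intro i hi
    refine hf _ ?_
    rw [List.getD_eq_getElem _ _ hi]
    exact List.getElem_mem hi
  have h : D0 fun v => (∀ p ∈ F v, ∃ i < l.length, p = pair (nat i) (f v (l.getD i 0))) ∧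
      ∀ i < l.length, pair (nat i) (f v (l.getD i 0)) ∈ F v := by
    apply D0.and
    · apply D0.ball hF
      apply D0.exLt'
      intro i hi
      exact D0.isNatPair (D0v.proj 0) (hf' i hi).tail i
    · apply D0.allLt'
      intro i hi
      exact D0.natPairMem (hf' i hi) hF i
  refine h.congr fun v => ?_
  have hm : ∀ p, p ∈ tup l (f v) ↔ ∃ i < l.length, p = pair (nat i) (f v (l.getD i 0)) := by
    intro p
    rw [tup, mem_tp]
    constructor
    · rintro ⟨j, rfl⟩
      refine ⟨j, j.2, ?_⟩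
      rw [List.getD_eq_getElem _ _ j.2]
      rfl
    · rintro ⟨i, hi, rfl⟩
      refine ⟨⟨i, hi⟩, ?_⟩
      rw [List.getD_eq_getElem _ _ hi]
      rfl
  constructor
  · rintro ⟨h1, h2⟩
    ext p
    rw [hm]
    exact ⟨h1 p, fun ⟨i, hi, h3⟩ => h3 ▸ h2 i hi⟩
  · intro h1
    rw [h1]
    exact ⟨fun p hp => (hm p).1 hp, fun i hi => (hm _).2 ⟨i, hi, rfl⟩⟩

theorem D0.isFuncNat (hF : D0v F) (hG : D0v G) (k : ℕ) :
    D0 fun v => ZFSet.IsFunc (nat k) (F v) (G v) := by
  have h : D0 fun v => (∀ p ∈ G v, ∃ a b, p = pair a b ∧ (∃ j < k, a = nat j) ∧ b ∈ F v) ∧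
      ∀ j < k, ∃ b ∈ F v, pair (nat j) b ∈ G v ∧ ∀ c ∈ F v, pair (nat j) c ∈ G v → c = b := by
    apply D0.and
    · apply D0.ball hG
      apply D0.expair (D0v.proj 0)
      apply D0.and
      · exact D0.exLt (fun j => D0.isNat (D0v.proj 1) j) k
      · exact D0.mem (D0v.proj 0) hF.tail.tail.tail
    · apply D0.allLt (fun j => ?_) k
      apply D0.bex hF
      apply D0.and
      · exact D0.natPairMem (D0v.proj 0) hG.tail j
      · apply D0.ball hF.tail
        exact (D0.natPairMem (D0v.proj 0) hG.tail.tail j).imp (D0.eq (D0v.proj 0) (D0v.proj 1))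
  refine h.congr fun v => ?_
  constructor
  · rintro ⟨h1, h2⟩
    have h3 : G v ⊆ ZFSet.prod (nat k) (F v) := by
      intro p hp
      obtain ⟨a, b, rfl, h4, h5⟩ := h1 p hp
      exact ZFSet.pair_mem_prod.2 ⟨mem_nat.2 h4, h5⟩
    refine ⟨h3, fun z hz => ?_⟩
    obtain ⟨j, hj, rfl⟩ := mem_nat.1 hz
    obtain ⟨b, hb, h4, h5⟩ := h2 j hj
    exact ⟨b, h4, fun c hc => h5 c (ZFSet.pair_mem_prod.1 (h3 hc)).2 hc⟩
  · rintro ⟨h1, h2⟩
    refine ⟨fun p hp => ?_, fun j hj => ?_⟩
    · obtain ⟨a, ha, b, hb, rfl⟩ := ZFSet.mem_prod.1 (h1 hp)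
      exact ⟨a, b, rfl, mem_nat.1 ha, hb⟩
    · obtain ⟨b, hb, h3⟩ := h2 _ (mem_nat.2 ⟨j, hj, rfl⟩)
      exact ⟨b, (ZFSet.pair_mem_prod.1 (h1 hb)).2, hb, fun c _ hc => h3 c hc⟩

end

/-- Extension by the empty set. -/
noncomputable def ext {K : ℕ} (v : Fin K → ZFSet.{0}) : ℕ → ZFSet.{0} :=
  fun i => if h : i < K then v ⟨i, h⟩ else ∅

theorem ext_lt {K : ℕ} (v : Fin K → ZFSet.{0}) {i : ℕ} (h : i < K) : ext v i = v ⟨i, h⟩ :=
  dif_pos h

theorem D0v.ext {K i : ℕ} (h : i < K) : D0v fun v : Fin K → ZFSet.{0} => ext v i :=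
  ⟨⟨i, h⟩, fun v => ext_lt v h⟩

theorem update_ext {K x : ℕ} (hx : x < K) (v : Fin K → ZFSet.{0}) (z : ZFSet.{0}) :
    Function.update (ext v) x z = ext fun i : Fin K =>
      (Fin.cons z v : Fin (K + 1) → ZFSet.{0}) (if (i : ℕ) = x then 0 else i.succ) := by
  funext i
  by_cases h : i = x
  · subst h
    rw [Function.update_self, ext_lt _ hx]
    simp
  · rw [Function.update_of_ne h]
    by_cases h2 : i < K
    · rw [ext_lt _ h2, ext_lt _ h2, if_neg h, Fin.cons_succ]
    · rw [Pool.Agent.R587.ext, Pool.Agent.R587.ext, dif_neg h2, dif_neg h2]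

theorem ud_update {K m x : ℕ} (hx : x < K)
    (h : UD fun N (v : Fin K → ZFSet.{0}) => GS N m (ext v)) :
    UD fun N (w : Fin (K + 1) → ZFSet.{0}) =>
      GS N m (Function.update (ext (Fin.tail w)) x (w 0)) := by
  have h1 := h.comp fun i : Fin K => if (i : ℕ) = x then (0 : Fin (K + 1)) else i.succ
  refine h1.congr fun M _ _ w _ => ?_
  rw [update_ext hx]
  have h2 : (Fin.cons (w 0) (Fin.tail w) : Fin (K + 1) → ZFSet.{0}) = w := Fin.cons_self_tail w
  rw [h2]

theorem gs_ud (n : ℕ) : ∃ K₀ : ℕ, ∀ K, K₀ ≤ K →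
    UD fun N (v : Fin K → ZFSet.{0}) => GS N n (ext v) := by
  induction n using Nat.strong_induction_on with
  | _ n ih =>
    have red : (∃ K₀ : ℕ, ∀ K, K₀ ≤ K →
        UD fun N (v : Fin K → ZFSet.{0}) => Stp N (GS N) n.unpair.1 n.unpair.2 (ext v)) →
        ∃ K₀ : ℕ, ∀ K, K₀ ≤ K → UD fun N (v : Fin K → ZFSet.{0}) => GS N n (ext v) := by
      rintro ⟨K₀, hK⟩
      exact ⟨K₀, fun K h => (hK K h).congr fun N _ _ v _ => (GS_iff N n _).symm⟩
    apply red
    have hlt : 1 ≤ n.unpair.1 → n.unpair.2 < n := lt_of_tag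
    generalize n.unpair.1 = t at hlt ⊢
    generalize n.unpair.2 = a at hlt ⊢
    have u1 := Nat.unpair_left_le a
    have u2 := Nat.unpair_right_le a
    have u3 := Nat.unpair_right_le a.unpair.2
    have u4 := Nat.unpair_left_le a.unpair.2
    match t, hlt with
    | 0, hlt =>
      obtain ⟨B, hB⟩ := ((ls a.unpair.2).finite_toSet).bddAbove
      refine ⟨B + 2, fun K hK => ?_⟩
      simp only [Stp]
      apply UD.of_D0
      have h1 : D0v fun v : Fin K → ZFSet.{0} => ext v 1 := D0v.ext (by omega)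
      have h2 : ∀ j ∈ ls a.unpair.2, D0v fun v : Fin K → ZFSet.{0} => ext v j := by
        intro j hj
        have h3 : j ≤ B := hB hj
        exact D0v.ext (by omega)
      have h : D0 fun v : Fin K → ZFSet.{0} => ∃ p ∈ ext v 1, ∃ x y, p = pair x y ∧
          x = nat a.unpair.1 ∧ y = tup (ls a.unpair.2) (ext v) := by
        apply D0.bex h1
        apply D0.expair (D0v.proj 0)
        apply D0.and
        · exact D0.isNat (D0v.proj 1) _
        · exact D0.isTup (D0v.proj 0) (f := fun w => ext (Fin.tail (Fin.tail (Fin.tail w)))) _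
            fun j hj => (h2 j hj).tail.tail.tail
      exact h.congr fun v => ⟨fun ⟨p, hp, x, y, h3, h4, h5⟩ => by rw [← h4, ← h5, ← h3]; exact hp,
        fun h3 => ⟨_, h3, _, _, rfl, rfl, rfl⟩⟩
    | 1, hlt =>
      obtain ⟨B, hB⟩ := ((ls a.unpair.2).finite_toSet).bddAbove
      refine ⟨B + a.unpair.1 + 1, fun K hK => ?_⟩
      simp only [Stp]
      apply UD.of_D0
      have h1 : D0v fun v : Fin K → ZFSet.{0} => ext v a.unpair.1 := D0v.ext (by omega)
      have h2 : ∀ j ∈ ls a.unpair.2, D0v fun v : Fin K → ZFSet.{0} => ext v j := by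
        intro j hj
        have h3 : j ≤ B := hB hj
        exact D0v.ext (by omega)
      have h : D0 fun v : Fin K → ZFSet.{0} => ∃ p ∈ ext v a.unpair.1,
          p = tup (ls a.unpair.2) (ext v) := by
        apply D0.bex h1
        exact D0.isTup (D0v.proj 0) (f := fun w => ext (Fin.tail w)) _
          fun j hj => (h2 j hj).tail
      exact h.congr fun v => ⟨fun ⟨p, hp, h3⟩ => by rw [← h3]; exact hp,
        fun h3 => ⟨_, h3, rfl⟩⟩
    | 2, hlt =>
      refine ⟨a.unpair.1 + a.unpair.2 + 1, fun K hK => ?_⟩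
      simp only [Stp]
      apply UD.of_D0
      exact D0.eq (D0v.ext (by omega)) (D0v.ext (by omega))
    | 3, hlt =>
      obtain ⟨K₀, h⟩ := ih a (hlt (by omega))
      refine ⟨K₀, fun K hK => ?_⟩
      simp only [Stp]
      exact (h K hK).not
    | 4, hlt =>
      have := hlt (by omega)
      obtain ⟨K₀, h⟩ := ih a.unpair.1 (by omega)
      obtain ⟨K₁, h'⟩ := ih a.unpair.2 (by omega)
      refine ⟨K₀ + K₁, fun K hK => ?_⟩
      simp only [Stp]
      exact (h K (by omega)).and (h' K (by omega))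
    | 5, hlt =>
      have := hlt (by omega)
      obtain ⟨K₀, h⟩ := ih a.unpair.2 (by omega)
      refine ⟨K₀ + a.unpair.1 + 1, fun K hK => ?_⟩
      simp only [Stp]
      refine UD.ex (Q := fun N z v => z ∈ ext v 0 ∧
        GS N a.unpair.2 (Function.update (ext v) a.unpair.1 z)) ?_
      apply UD.and
      · apply UD.of_D0
        exact D0.mem (D0v.proj 0) (D0v.tail (D0v.ext (by omega)))
      · exact ud_update (by omega) (h K (by omega))
    | 6, hlt =>
      have := hlt (by omega)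
      obtain ⟨K₀, h⟩ := ih a.unpair.2.unpair.2 (by omega)
      refine ⟨K₀ + a.unpair.2.unpair.1 + 1, fun K hK => ?_⟩
      simp only [Stp]
      refine UD.ex (Q := fun N z v => (∀ t ∈ z, ZFSet.IsFunc (nat a.unpair.1) (ext v 0) t) ∧
        GS N a.unpair.2.unpair.2 (Function.update (ext v) a.unpair.2.unpair.1 z)) ?_
      apply UD.and
      · apply UD.of_D0
        apply D0.ball (D0v.proj 0)
        exact D0.isFuncNat (D0v.tail (D0v.tail (D0v.ext (by omega)))) (D0v.proj 0) _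
      · exact ud_update (by omega) (h K (by omega))
    | 7, hlt =>
      refine ⟨a.unpair.1 + a.unpair.2 + 1, fun K hK => ?_⟩
      simp only [Stp]
      apply UD.of_D0
      exact D0.mem (D0v.ext (by omega)) (D0v.ext (by omega))
    | t + 8, hlt =>
      have := hlt (by omega)
      obtain ⟨K₀, h⟩ := ih a.unpair.2 (by omega)
      refine ⟨K₀ + a.unpair.1 + 1, fun K hK => ?_⟩
      simp only [Stp]
      refine UD.ex (Q := fun N z v =>
        GS N a.unpair.2 (Function.update (ext v) a.unpair.1 z)) ?_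
      exact ud_update (by omega) (h K (by omega))

theorem gs_fml (n : ℕ) : ∃ φ : Fml Empty 1, ∀ N : Set ZFSet.{0},
    (∀ x ∈ N, ∀ y ∈ x, y ∈ N) → ∅ ∈ N → ∀ b ∈ N,
      (Sat N Empty.elim φ ![b] ↔ GS N n (asg b)) := by
  obtain ⟨K₀, hK⟩ := gs_ud n
  have h1 := hK (K₀ + 5) (by omega)
  have h2 : UD fun N (v : Fin 2 → ZFSet.{0}) => v 0 = ∅ ∧
      GS N n (ext fun i : Fin (K₀ + 5) => v (if (i : ℕ) = 4 then 1 else 0)) := by
    refine UD.and ?_ (h1.comp fun i : Fin (K₀ + 5) => if (i : ℕ) = 4 then (1 : Fin 2) else 0)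
    exact UD.of_D0 (D0.isNat (D0v.proj 0) 0)
  have h3 : UD fun N (v : Fin 1 → ZFSet.{0}) => ∃ e ∈ N, e = ∅ ∧
      GS N n (ext fun i : Fin (K₀ + 5) =>
        (Fin.cons e v : Fin 2 → ZFSet.{0}) (if (i : ℕ) = 4 then 1 else 0)) := by
    refine UD.ex (Q := fun N e v => e = ∅ ∧ GS N n (ext fun i : Fin (K₀ + 5) =>
        (Fin.cons e v : Fin 2 → ZFSet.{0}) (if (i : ℕ) = 4 then 1 else 0))) ?_
    refine h2.congr fun M _ _ v _ => ?_
    have h4 : (Fin.cons (v 0) (Fin.tail v) : Fin 2 → ZFSet.{0}) = v := Fin.cons_self_tail v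
    rw [h4]
  obtain ⟨φ, hφ⟩ := h3
  refine ⟨φ, fun N hN h0 b hb => ?_⟩
  rw [hφ N hN h0 ![b] (by
    intro i
    fin_cases i
    exact hb)]
  have h5 : (ext fun i : Fin (K₀ + 5) =>
      (Fin.cons ∅ ![b] : Fin 2 → ZFSet.{0}) (if (i : ℕ) = 4 then 1 else 0)) = asg b := by
    funext i
    by_cases h : i < K₀ + 5
    · rw [ext_lt _ h, asg]
      by_cases h' : i = 4
      · simp [h']
      · simp [h']
    · rw [Pool.Agent.R587.ext, dif_neg h, asg, if_neg (by omega)]
  constructor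
  · rintro ⟨e, he, rfl, h6⟩
    rwa [h5] at h6
  · intro h6
    exact ⟨∅, h0, rfl, by rwa [h5]⟩

end Pool.Agent.R587
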