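import Pool.Agent.R587.ThmB

/-!
# Elements with a recursively described type
-/

set_option autoImplicit false

namespace Pool.Agent.R587

open Pool.Agent.W868
open ZFSet (pair)
open Cardinal

/-- Every first-order formula is a coded formula. -/
theorem fml_gs : ∀ {k : ℕ} (φ : Fml Empty k) (ρ : Fin k → ℕ), ∃ n : ℕ,
    ∀ (N : Set ZFSet.{0}) (f : ℕ → ZFSet.{0}), GS N n f ↔ Sat N Empty.elim φ fun i => f (ρ i)
  | _, .mem (Sum.inl i) (Sum.inl j), ρ => ⟨Nat.pair 7 (Nat.pair (ρ i) (ρ j)), fun N f => by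
      rw [GS_pair]
      simp [Stp, Sat]⟩
  | _, .eq (Sum.inl i) (Sum.inl j), ρ => ⟨Nat.pair 2 (Nat.pair (ρ i) (ρ j)), fun N f => by
      rw [GS_pair]
      simp [Stp, Sat]⟩
  | _, .neg φ, ρ => by
    obtain ⟨n, hn⟩ := fml_gs φ ρ
    refine ⟨Nat.pair 3 n, fun N f => ?_⟩
    rw [GS_pair]
    simp [Stp, Sat, hn]
  | _, .and φ ψ, ρ => by
    obtain ⟨n, hn⟩ := fml_gs φ ρ
    obtain ⟨m, hm⟩ := fml_gs ψ ρ
    refine ⟨Nat.pair 4 (Nat.pair n m), fun N f => ?_⟩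
    rw [GS_pair]
    simp [Stp, Sat, hn, hm]
  | k, .ex φ, ρ => by
    obtain ⟨x, hx⟩ : ∃ x : ℕ, ∀ i, ρ i ≠ x := by
      refine ⟨(Finset.univ.sup ρ) + 1, fun i => ?_⟩
      have := Finset.le_sup (f := ρ) (Finset.mem_univ i)
      omega
    obtain ⟨n, hn⟩ := fml_gs φ (Fin.cons x ρ)
    refine ⟨Nat.pair 8 (Nat.pair x n), fun N f => ?_⟩
    rw [GS_pair]
    simp only [Stp, Nat.unpair_pair, Sat]
    refine exists_congr fun z => and_congr_right fun _ => ?_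
    rw [hn]
    have h : (fun i => Function.update f x z ((Fin.cons x ρ : Fin (k + 1) → ℕ) i)) =
        Fin.cons z fun i => f (ρ i) := by
      funext i
      refine Fin.cases ?_ (fun i => ?_) i
      · simp
      · simp [Function.update_of_ne (hx i)]
    rw [h]

/-- The number of the formula that says that the formula number `n` holds in the structure that
is the value of an operation; `k` is the number of the description of the operation. -/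
def cmpn (k n : ℕ) : ℕ :=
  Nat.pair 8 (Nat.pair 0 (Nat.pair 8 (Nat.pair 1 (Nat.pair 4 (Nat.pair k n)))))

theorem GS_cmpn {N : Set ZFSet.{0}} {k n : ℕ} {f : ℕ → ZFSet.{0}} :
    GS N (cmpn k n) f ↔ ∃ D ∈ N, ∃ d ∈ N,
      GS N k (Function.update (Function.update f 0 D) 1 d) ∧
      GS N n (Function.update (Function.update f 0 D) 1 d) := by
  rw [cmpn, GS_pair]
  simp only [Stp, Nat.unpair_pair]
  refine exists_congr fun D => and_congr_right fun _ => ?_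
  rw [GS_pair]
  simp only [Stp, Nat.unpair_pair]
  refine exists_congr fun d => and_congr_right fun _ => ?_
  rw [GS_pair]
  simp only [Stp, Nat.unpair_pair]

/-- The set of the numbers `cmpn k n` for `n` in `C`. -/
noncomputable def CC (C : ℕ → Prop) (k : ℕ) : ZFSet.{0} :=
  ZFSet.sep (fun x => ∃ n, C n ∧ x = nat (cmpn k n)) ZFSet.omega

theorem mem_CC {C : ℕ → Prop} {k : ℕ} {x : ZFSet.{0}} :
    x ∈ CC C k ↔ ∃ n, C n ∧ x = nat (cmpn k n) := by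
  rw [CC, ZFSet.mem_sep]
  refine and_iff_right_of_imp ?_
  rintro ⟨n, -, rfl⟩
  exact mem_omega_iff.2 ⟨_, rfl⟩

section

variable {c : Cardinal.{0}} {M : Set ZFSet.{0}} {lt : ZFSet.{0} → ZFSet.{0} → Prop}

/-- The number of the description of an operation. -/
theorem exists_cmp (hM : Full c M) {h : ZFSet.{0} → ZFSet.{0}} (hh : Op M h) : ∃ k : ℕ,
    ∀ D ∈ M, ∀ d ∈ M, ∀ S ∈ M,
      (GS M k (Function.update (Function.update (asg S) 0 D) 1 d) ↔ pair D d = h S) := by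
  have h1 : Dfn ∅ M fun w : Fin 3 → ZFSet.{0} => pair (w 0) (w 1) = h (w 2) :=
    Dfn.eq (hM.base.pair' (DfnF.proj 0) (DfnF.proj 1)) (DfnF.comp1 (f := h) hh (DfnF.proj 2))
  obtain ⟨φ, hφ⟩ := dfn_iff.1 h1
  obtain ⟨k, hk⟩ := fml_gs φ ![0, 1, 4]
  refine ⟨k, fun D hD d hd S hS => ?_⟩
  rw [hk]
  have h2 : (fun i => Function.update (Function.update (asg S) 0 D) 1 d
      ((![0, 1, 4] : Fin 3 → ℕ) i)) = ![D, d, S] := by
    funext i
    fin_cases i <;> simp [asg]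
  rw [h2, hφ]
  · rfl
  · intro i
    fin_cases i
    exacts [hD, hd, hS]

theorem exists_num {R : ZFSet.{0} → Prop}
    (hR : Dfn ∅ M fun v : Fin 1 → ZFSet.{0} => R (v 0)) : ∃ n : ℕ,
    ∀ b ∈ M, (GS M n (asg b) ↔ R b) := by
  obtain ⟨φ, hφ⟩ := dfn_iff.1 hR
  obtain ⟨k, hk⟩ := fml_gs φ ![4]
  refine ⟨k, fun b hb => ?_⟩
  rw [hk]
  have h2 : (fun i => asg b ((![4] : Fin 1 → ℕ) i)) = ![b] := by
    funext i
    fin_cases i
    simp [asg]
  rw [h2, hφ]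
  · rfl
  · intro i
    fin_cases i
    exact hb

theorem Full.omegaSub' (hM : Full c M) {x : ZFSet.{0}} (hx : x ⊆ ZFSet.omega) : x ∈ M :=
  hM.sub hM.omega_mem hx

/-- An element of the same type as a coherent sequence is a coherent sequence. -/
theorem Setg.coh (hS : Setg c M lt) (hG : GSF) {e s : ZFSet.{0}} (he : FO e) (heM : e ∈ M)
    (hs : s ∈ M) (h : Tp M (Sf M e) s) : ∃ d, FO d ∧ d ∈ M ∧ s = Sf M d := by
  have hM := hS.full
  have hB := hM.base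
  have hidx : ∀ {n : ℕ} {F : (Fin n → ZFSet.{0}) → ZFSet.{0}}, DfnF ∅ M F →
      DfnF ∅ M fun v => idx M lt (F v) := fun hF => DfnF.comp1 (f := idx M lt) hS.op_idx hF
  have p1 : Dfn ∅ M fun v : Fin 1 → ZFSet.{0} => FO (idx M lt (v 0)) ∧
      (∀ p ∈ v 0, fs p ∈ pr (idx M lt (v 0)) ∧ p = pair (fs p) (sn p) ∧ sn p ⊆ ZFSet.omega) ∧
      ∀ d ∈ pr (idx M lt (v 0)), ∃ p ∈ v 0, fs p = d := by
    apply Dfn.and (hM.fo' (hidx (DfnF.proj 0)))
    apply Dfn.and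
    · apply hB.ball (DfnF.proj 0)
      apply Dfn.and (Dfn.mem (hM.fs' (DfnF.proj 0)) (hM.pr' (hidx (DfnF.proj 1))))
      apply Dfn.and (Dfn.eq (DfnF.proj 0) (hB.pair' (hM.fs' (DfnF.proj 0)) (hM.sn' (DfnF.proj 0))))
      exact hB.subset' (hM.sn' (DfnF.proj 0)) hM.omega'
    · apply hB.ball (hM.pr' (hidx (DfnF.proj 0)))
      apply hB.bex (DfnF.proj 1)
      exact Dfn.eq (hM.fs' (DfnF.proj 0)) (DfnF.proj 1)
  have p2 : ∀ n : ℕ, Dfn ∅ M fun v : Fin 1 → ZFSet.{0} =>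
      ∀ p ∈ v 0, (nat n ∈ sn p ↔ nat n ∈ JS M (rst (v 0) (fs p))) := by
    intro n
    apply hB.ball (DfnF.proj 0)
    apply Dfn.iff (Dfn.mem (hM.nat' n) (hM.sn' (DfnF.proj 0)))
    exact Dfn.comp1 (Q := fun b => nat n ∈ JS M b) (dfn_mem_JS hG hM n)
      (hM.rst' (DfnF.proj 1) (hM.fs' (DfnF.proj 0)))
  have hi := hS.idx_Sf he heM
  have q1 := (h (fun x => FO (idx M lt x) ∧
      (∀ p ∈ x, fs p ∈ pr (idx M lt x) ∧ p = pair (fs p) (sn p) ∧ sn p ⊆ ZFSet.omega) ∧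
      ∀ d ∈ pr (idx M lt x), ∃ p ∈ x, fs p = d) p1).1 (by
    rw [hi]
    refine ⟨he, fun p hp => ?_, fun d hd => ?_⟩
    · obtain ⟨d, hd, rfl⟩ := mem_Sf.1 hp
      rw [fs_pair, sn_pair]
      exact ⟨hd, rfl, JS_sub⟩
    · exact ⟨_, mem_Sf.2 ⟨d, hd, rfl⟩, fs_pair _ _⟩)
  have q2 := fun n => (h (fun x => ∀ p ∈ x, (nat n ∈ sn p ↔ nat n ∈ JS M (rst x (fs p))))
      (p2 n)).1 (by
    intro p hp
    obtain ⟨d, hd, rfl⟩ := mem_Sf.1 hp
    rw [fs_pair, sn_pair, rst_Sf hd])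
  obtain ⟨h1, h2, h3⟩ := q1
  set d := idx M lt s with hd
  have key : ∀ d', d' ∈ pr d → (rst s d' = Sf M d' ∧ ∀ p ∈ s, fs p = d' →
      p = pair d' (JS M (Sf M d'))) := by
    intro d'
    induction d' using pr_wf.induction with
    | _ d' ih =>
    intro hd'
    have h4 : rst s d' = Sf M d' := by
      ext p
      rw [rst, ZFSet.mem_sep, mem_Sf]
      constructor
      · rintro ⟨hp, hp'⟩
        exact ⟨fs p, hp', (ih _ hp' (pr_trans hp' hd')).2 p hp rfl⟩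
      · rintro ⟨d'', h5, rfl⟩
        obtain ⟨p, hp, hp'⟩ := h3 d'' (pr_trans h5 hd')
        have h6 := (ih _ h5 (pr_trans h5 hd')).2 p hp hp'
        rw [h6] at hp
        exact ⟨hp, by rwa [fs_pair]⟩
    refine ⟨h4, fun p hp hp' => ?_⟩
    obtain ⟨-, h6, h7⟩ := h2 p hp
    rw [h6, hp']
    congr 1
    refine eq_of_sub_omega h7 JS_sub fun n => ?_
    rw [q2 n p hp, hp', h4]
  have hdM : d ∈ M := by
    have := hS.op_idx.mem hs
    rwa [← hd] at this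
  refine ⟨d, h1, hdM, ?_⟩
  ext p
  rw [mem_Sf]
  constructor
  · intro hp
    obtain ⟨h4, -, -⟩ := h2 p hp
    exact ⟨fs p, h4, (key _ h4).2 p hp rfl⟩
  · rintro ⟨d', h4, rfl⟩
    obtain ⟨p, hp, hp'⟩ := h3 d' h4
    rw [(key _ h4).2 p hp hp'] at hp
    exact hp

/-- There is at most one element with a recursively described type. -/
theorem Setg.unique (hS : Setg c M lt) (hG : GSF) {χ : ZFSet.{0} → Prop}
    (hχ : Dfn ∅ M fun v : Fin 1 → ZFSet.{0} => χ (v 0)) {C : ℕ → Prop}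
    (hC : ∀ k, Dfn ∅ M fun v : Fin 1 → ZFSet.{0} => v 0 = CC C k)
    (hind : ∀ n, C n → ∀ f g : ℕ → ZFSet.{0}, f 0 = g 0 → f 1 = g 1 → (GS M n f ↔ GS M n g))
    (hpair : ∀ a ∈ M, χ a → a = pair (fs a) (sn a))
    (hT : ∀ a ∈ M, ∀ b ∈ M, χ a → (∀ n, C n → GS M n (asd (fs a) (sn a))) → χ b →
      (∀ n, C n → GS M n (asd (fs b) (sn b))) → Tp M a b)
    {a b : ZFSet.{0}} (haM : a ∈ M) (ha : χ a) (ha' : ∀ n, C n → GS M n (asd (fs a) (sn a)))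
    (hbM : b ∈ M) (hb : χ b) (hb' : ∀ n, C n → GS M n (asd (fs b) (sn b))) : a = b := by
  have hM := hS.full
  have hB := hM.base
  by_contra hab
  obtain ⟨e0, he0, he0M, ⟨h', hh', h1⟩, ⟨h, hh, h2⟩⟩ := hS.thmA hG haM
  let Kp : ZFSet.{0} → Prop := fun x => x ∈ M ∧ χ x ∧ ∀ n, C n → GS M n (asd (fs x) (sn x))
  have hKT : ∀ x y, Kp x → Kp y → Tp M x y := fun x y hx hy =>
    hT x hx.1 y hy.1 hx.2.1 hx.2.2 hy.2.1 hy.2.2
  obtain ⟨e, ⟨heo, heM, hKe, hhe⟩, hmin⟩ := pr_wf.has_min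
    {e | FO e ∧ e ∈ M ∧ Kp (h (Sf M e)) ∧ h' (h (Sf M e)) = Sf M e}
    ⟨e0, he0, he0M, by rw [← h2]; exact ⟨haM, ha, ha'⟩, by rw [← h2, h1]⟩
  obtain ⟨y, hy, hne⟩ : ∃ y, Kp y ∧ y ≠ h (Sf M e) := by
    by_cases h3 : a = h (Sf M e)
    · exact ⟨b, ⟨hbM, hb, hb'⟩, fun h4 => hab (h3.trans h4.symm)⟩
    · exact ⟨a, ⟨haM, ha, ha'⟩, h3⟩
  have hty := hKT _ _ hKe hy
  have hty' : Tp M (Sf M e) (h' y) := by
    have := hty.op hh'
    rwa [hhe] at this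
  obtain ⟨d, hdo, hdM, hd⟩ := hS.coh hG heo heM (hh'.mem hy.1) hty'
  have hyd : h (Sf M d) = y := by
    have h3 := (hty (fun x => h (h' x) = x) (Dfn.eq (DfnF.comp1 (f := h) hh
      (DfnF.comp1 (f := h') hh' (DfnF.proj 0))) (DfnF.proj 0))).1 (by rw [hhe])
    rw [← hd]
    exact h3
  have hed : e ∈ pr d := by
    rcases clx_tri heo hdo with h3 | h3 | h3
    · exact mem_pr.2 ⟨heo, hdo, h3⟩
    · rw [← h3] at hyd
      exact absurd hyd.symm hne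
    · refine absurd (mem_pr.2 ⟨hdo, heo, h3⟩) (hmin d ⟨hdo, hdM, ?_, ?_⟩)
      · rw [hyd]
        exact hy
      · rw [hyd, hd]
  -- the description
  obtain ⟨k, hk⟩ := exists_cmp hM hh
  obtain ⟨k1, hk1⟩ := exists_num (M := M) (R := fun x => χ (h x) ∧ h' (h x) = x)
    ((Dfn.comp1 (Q := χ) hχ hh).and (Dfn.eq (DfnF.comp1 (f := h') hh' hh) (DfnF.proj 0)))
  have hCM : CC C k ∈ M := hM.sub hM.omega_mem fun x hx => (ZFSet.mem_sep.1 hx).1
  have hσ : Dfn ∅ M fun v : Fin 1 → ZFSet.{0} => ∃ p ∈ h' (v 0), CC C k ⊆ sn p ∧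
      nat k1 ∈ sn p := by
    apply hB.bex hh'
    apply Dfn.and
    · exact hB.subset' (dfnF_of_const hCM (hC k)) (hM.sn' (DfnF.proj 0))
    · exact Dfn.mem (hM.nat' k1) (hM.sn' (DfnF.proj 0))
  have hasd : ∀ (S D d : ZFSet.{0}) (n : ℕ), C n →
      (GS M n (Function.update (Function.update (asg S) 0 D) 1 d) ↔ GS M n (asd D d)) := by
    intro S D d n hn
    refine hind n hn _ _ ?_ ?_
    · simp [asd]
    · simp [asd]
  have hcmp : ∀ S ∈ M, h S = pair (fs (h S)) (sn (h S)) → ∀ n, C n →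
      (GS M (cmpn k n) (asg S) ↔ GS M n (asd (fs (h S)) (sn (h S)))) := by
    intro S hSM hp n hn
    rw [GS_cmpn]
    constructor
    · rintro ⟨D, hD, d, hd, h3, h4⟩
      rw [hk D hD d hd S hSM] at h3
      rw [← h3, fs_pair, sn_pair, ← hasd S D d n hn]
      exact h4
    · intro h3
      have h4 : pair (fs (h S)) (sn (h S)) ∈ M := hp ▸ hh.mem hSM
      obtain ⟨h5, h6⟩ := hM.of_pair_mem h4
      exact ⟨_, h5, _, h6, (hk _ h5 _ h6 S hSM).2 hp.symm, (hasd S _ _ n hn).2 h3⟩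
  have σy : ∃ p ∈ h' y, CC C k ⊆ sn p ∧ nat k1 ∈ sn p := by
    rw [hd]
    have hSe := hM.Sf_mem heM
    refine ⟨_, mem_Sf.2 ⟨e, hed, rfl⟩, ?_⟩
    rw [sn_pair]
    constructor
    · intro x hx
      obtain ⟨n, hn, rfl⟩ := mem_CC.1 hx
      rw [nat_mem_JS, hcmp _ hSe (hpair _ hKe.1 hKe.2.1) n hn]
      exact hKe.2.2 n hn
    · rw [nat_mem_JS, hk1 _ hSe]
      exact ⟨hKe.2.1, hhe⟩
  have σa := (hty (fun x => ∃ p ∈ h' x, CC C k ⊆ sn p ∧ nat k1 ∈ sn p) hσ).2 σy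
  rw [hhe] at σa
  obtain ⟨p, hp, h3, h4⟩ := σa
  obtain ⟨e', he', rfl⟩ := mem_Sf.1 hp
  rw [sn_pair] at h3 h4
  have he'M := hM.fo_mem heM he'
  have hSe' := hM.Sf_mem he'M
  rw [nat_mem_JS, hk1 _ hSe'] at h4
  have hpe := hpair _ (hh.mem hSe') h4.1
  refine hmin e' ⟨(mem_pr.1 he').1, he'M, ⟨hh.mem hSe', h4.1, fun n hn => ?_⟩, h4.2⟩ he'
  rw [← hcmp _ hSe' hpe n hn, ← nat_mem_JS]
  exact h3 (mem_CC.2 ⟨n, hn, rfl⟩)

end

end Pool.Agent.R587
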