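import Pool.Agent.R587.LS
import Pool.Agent.R587.Uniq

/-!
# The hereditarily small sets under the axiom of constructibility
-/

set_option autoImplicit false

namespace Pool.Agent.R587

open Pool.Agent.W868
open ZFSet (pair)
open Cardinal

/-- Every set is constructible, in terms of the hierarchy `Lv ∅`. -/
def VLv : Prop := ∀ x : ZFSet.{0}, ∃ ξ : ZFSet.{0}, ξ.IsOrdinal ∧ x ∈ Lv ∅ ξ

theorem isZF_univ : IsZF (Set.univ : Set ZFSet.{0}) := by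
  refine ⟨fun _ _ _ _ => trivial, fun _ _ _ _ => trivial, fun _ _ => trivial, trivial,
    fun x _ => ⟨ZFSet.powerset x, trivial, fun z => by simp⟩, fun φ _ x _ => ?_,
    fun φ _ x _ h => ?_⟩
  · exact ⟨ZFSet.sep (fun z => Sat Set.univ id φ ![z]) x, trivial, fun z => ZFSet.mem_sep⟩
  · choose! g hg hg' using h
    refine ⟨im g x, trivial, fun w => ?_⟩
    rw [mem_im]
    constructor
    · rintro ⟨z, hz, rfl⟩
      exact ⟨trivial, z, hz, (hg z hz).2⟩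
    · rintro ⟨-, z, hz, h1⟩
      exact ⟨z, hz, hg' z hz w ⟨trivial, h1⟩⟩

theorem VLv.isLA (h : VLv) : IsLA ∅ (Set.univ : Set ZFSet.{0}) :=
  ⟨isZF_univ, trivial, fun y _ => by
    obtain ⟨ξ, h1, h2⟩ := h y
    exact ⟨ξ, trivial, h1, h2⟩⟩

theorem rank_Lv {A : ZFSet.{0}} (z : ZFSet.{0}) : ∀ y ∈ Lv A z, y.rank < z.rank := by
  induction z using ZFSet.inductionOn with
  | _ z ih =>
  intro y hy
  obtain ⟨u, hu, h⟩ := mem_Lv.1 hy
  have h1 := ZFSet.rank_lt_of_mem hu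
  rcases step_cases h with h | h
  · exact (ih u hu y h).trans h1
  · refine lt_of_le_of_lt (ZFSet.rank_le_iff.2 fun {w} hw => ih u hu w (h hw)) h1

theorem ord_Lv {A ξ η : ZFSet.{0}} (hξ : ξ.IsOrdinal) (hη : η.IsOrdinal) (h : ξ ∈ Lv A η) :
    ξ ∈ η := (ZFSet.IsOrdinal.rank_lt_iff_mem hξ hη).1 (rank_Lv η ξ h)

/-- The set of the ordinals in a set. -/
noncomputable def onn (N : ZFSet.{0}) : ZFSet.{0} := ZFSet.sep (fun x => x.IsOrdinal) N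

theorem mem_onn {N x : ZFSet.{0}} : x ∈ onn N ↔ x ∈ N ∧ x.IsOrdinal := ZFSet.mem_sep

theorem isOrdinal_onn {N : ZFSet.{0}} (ht : ∀ x ∈ N, ∀ y ∈ x, y ∈ N) : (onn N).IsOrdinal := by
  rw [ZFSet.isOrdinal_iff_forall_mem_isOrdinal]
  refine ⟨fun y hy z hz => ?_, fun y hy => (mem_onn.1 hy).2⟩
  obtain ⟨h1, h2⟩ := mem_onn.1 hy
  exact mem_onn.2 ⟨ht y h1 z hz, h2.mem hz⟩

/-- In classes of constructible witnesses, the levels are available. -/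
theorem psi_level {X : Set ZFSet.{0}} (ht : ∀ x ∈ X, ∀ y ∈ x, y ∈ X)
    (hP : ∀ x ∈ X, ∃ f ∈ X, Psi ∅ x f) {ξ : ZFSet.{0}} (hξ : ξ ∈ X) (hξo : ξ.IsOrdinal) :
    ∃ f ∈ X, Sq ∅ f ∧ pair ξ (Lv ∅ ξ) ∈ f ∧ ∃ η ∈ X, η.IsOrdinal ∧ ξ ∈ η ∧ Lv ∅ η ∈ X := by
  obtain ⟨f, hf, h1, p, hp, η, Y, rfl, h2⟩ := hP ξ hξ
  obtain ⟨η', Y', h3, h4, h5, -⟩ := h1 _ hp
  obtain ⟨rfl, rfl⟩ := ZFSet.pair_inj.1 h3
  have h6 := h1.eq _ _ hp
  rw [h6] at h2
  have h7 := ord_Lv hξo h4 h2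
  obtain ⟨q, hq, η'', Z, rfl, rfl⟩ := h5 ξ h7
  have h8 := h1.eq _ _ hq
  rw [h8] at hq
  have h9 : ({η, Y} : ZFSet.{0}) ∈ X := ht _ (ht _ hf _ hp) _ (by simp [ZFSet.pair])
  refine ⟨f, hf, h1, hq, η, ht _ h9 _ (by simp), h4, h7, ?_⟩
  rw [← h6]
  exact ht _ h9 _ (by simp)

/-- A transitive set of constructible witnesses is a level. -/
theorem lev_of_psi {N : ZFSet.{0}} (ht : ∀ x ∈ N, ∀ y ∈ x, y ∈ N)
    (hP : ∀ x ∈ N, ∃ f ∈ N, Psi ∅ x f) : N = Lv ∅ (onn N) := by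
  have hlev : ∀ {ξ : ZFSet.{0}}, ξ ∈ N → ξ.IsOrdinal → ∃ η ∈ N, η.IsOrdinal ∧ ξ ∈ η ∧
      Lv ∅ η ∈ N := by
    intro ξ h1 h2
    obtain ⟨f, -, -, -, h3⟩ := psi_level (X := {x | x ∈ N}) ht hP h1 h2
    exact h3
  ext x
  constructor
  · intro hx
    obtain ⟨f, hf, h1, p, hp, η, Y, rfl, h2⟩ := hP x hx
    obtain ⟨η', Y', h3, h4, -⟩ := h1 _ hp
    obtain ⟨rfl, rfl⟩ := ZFSet.pair_inj.1 h3
    rw [h1.eq _ _ hp] at h2
    have h9 : ({η, Y} : ZFSet.{0}) ∈ N := ht _ (ht _ hf _ hp) _ (by simp [ZFSet.pair])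
    exact Lv_subset (mem_onn.2 ⟨ht _ h9 _ (by simp), h4⟩) h2
  · intro hx
    obtain ⟨u, hu, h1⟩ := mem_Lv.1 hx
    obtain ⟨huN, huo⟩ := mem_onn.1 hu
    obtain ⟨η, -, -, h2, h3⟩ := hlev huN huo
    exact ht _ h3 _ (step_subset_Lv h2 h1)

section

variable {c : Cardinal.{0}}

/-- The cardinal as a set. -/
noncomputable def kap (c : Cardinal.{0}) : ZFSet.{0} := c.ord.toZFSet

theorem card_kap : (kap c).card = c := by
  rw [kap, Ordinal.card_toZFSet, Cardinal.card_ord]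

theorem ord_kap : (kap c).IsOrdinal := ZFSet.isOrdinal_toZFSet _

theorem omega_sub_kap (hc : ℵ₀ ≤ c) : ZFSet.omega ⊆ kap c := by
  rw [omega_eq, kap, Ordinal.toZFSet_subset_toZFSet_iff]
  exact Cardinal.ord_aleph0 ▸ Cardinal.ord_le_ord.2 hc

theorem exists_psi (hV : VLv) (hc : ℵ₀ ≤ c) {x : ZFSet.{0}} (hx : x ∈ HH c) :
    ∃ f ∈ HH c, Psi ∅ x f := by
  have hM := full_HH hc
  obtain ⟨T, h1, h2, h3⟩ := exists_tc hM hx
  have h4 : ∀ y ∈ (insert ∅ T : ZFSet.{0}), ∀ z ∈ y, z ∈ (insert ∅ T : ZFSet.{0}) := by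
    intro y hy z hz
    rcases ZFSet.mem_insert_iff.1 hy with rfl | hy
    · exact absurd hz (ZFSet.notMem_empty z)
    · exact ZFSet.mem_insert_of_mem _ (h2 y hy z hz)
  have h5 : (insert ∅ T : ZFSet.{0}).card ≤ (kap c).card := by
    rw [card_kap]
    refine ZFSet.card_insert_le.trans ?_
    exact (add_le_add h3 (Cardinal.one_le_aleph0.trans hc)).trans (Cardinal.add_eq_self hc).le
  obtain ⟨g, hg⟩ := exists_isInj h5
  obtain ⟨N, -, h6, h7, ⟨g', -, hg'⟩, h8⟩ := condensation hV.isLA (κ := kap c) trivial ord_kap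
    (omega_sub_kap hc) (a := insert ∅ T) trivial h4 (ZFSet.mem_insert _ _) ⟨g, trivial, hg⟩
  have h9 : N.card ≤ c := by
    have := card_le_of_isInj hg'
    rwa [card_kap] at this
  have hN := hh_of_trans hM h6 h9
  obtain ⟨f, hf, h10⟩ := h8 x (h7 (ZFSet.mem_insert_of_mem _ h1))
  exact ⟨f, hM.trans hN hf, h10⟩

theorem d0_Sq : D0 fun v : Fin 2 → ZFSet.{0} => Sq (v 0) (v 1) := by
  unfold Sq
  (repeat' first
      | assumption
      | exact D0v.proj _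
      | apply d0_memStep | apply d0_stepSub
      | apply D0.and | apply D0.expair
      | apply D0.bex | apply D0.ball | apply D0.imp
      | apply D0.eq | apply D0.mem | apply D0.isOrdinal)

variable {M : Set ZFSet.{0}}

/-- What is used about `M`. -/
structure LCls (c : Cardinal.{0}) (M : Set ZFSet.{0}) : Prop where
  full : Full c M
  psi : ∀ x ∈ M, ∃ f ∈ M, Psi ∅ x f
  jj : DfnF ∅ M fun v : Fin 2 → ZFSet.{0} => JJ (v 0) (v 1)

namespace LCls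

variable (hL : LCls c M)

include hL

theorem sq' {n : ℕ} {F : (Fin n → ZFSet.{0}) → ZFSet.{0}} (hF : DfnF ∅ M F) :
    Dfn ∅ M fun v => Sq ∅ (F v) :=
  Dfn.comp2 (Q := Sq) (d0_Sq.dfn hL.full.base.trans) hL.full.empty' hF

theorem psi' {n : ℕ} {F G : (Fin n → ZFSet.{0}) → ZFSet.{0}} (hF : DfnF ∅ M F)
    (hG : DfnF ∅ M G) : Dfn ∅ M fun v => Psi ∅ (F v) (G v) :=
  Dfn.comp3 (Q := Psi) (d0_Psi.dfn hL.full.base.trans) hL.full.empty' hF hG

theorem Lv_mem {ξ : ZFSet.{0}} (hξ : ξ ∈ M) (hξo : ξ.IsOrdinal) : Lv ∅ ξ ∈ M := by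
  obtain ⟨f, hf, -, h, -⟩ := psi_level hL.full.base.trans hL.psi hξ hξo
  exact (hL.full.of_pair_mem (hL.full.trans hf h)).2

theorem lev_iff {ξ Y : ZFSet.{0}} (hξ : ξ ∈ M) (hξo : ξ.IsOrdinal) :
    (∃ f ∈ M, Sq ∅ f ∧ pair ξ Y ∈ f) ↔ Y = Lv ∅ ξ := by
  constructor
  · rintro ⟨f, -, h1, h2⟩
    exact h1.eq _ _ h2
  · rintro rfl
    obtain ⟨f, hf, h1, h2, -⟩ := psi_level hL.full.base.trans hL.psi hξ hξo
    exact ⟨f, hf, h1, h2⟩

theorem lev' {n : ℕ} {F G : (Fin n → ZFSet.{0}) → ZFSet.{0}} (hF : DfnF ∅ M F)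
    (hG : DfnF ∅ M G) : Dfn ∅ M fun v => ∃ f ∈ M, Sq ∅ f ∧ pair (F v) (G v) ∈ f := by
  apply Dfn.ex
  apply Dfn.and (hL.sq' (DfnF.proj 0))
  exact Dfn.mem (hL.full.base.pair' hF.tail hG.tail) (DfnF.proj 0)

/-- Elementary subclasses that are transitive are levels. -/
theorem tv_lev {H : ZFSet.{0}} (hH : TV M {x | x ∈ H}) (ht : ∀ x ∈ H, ∀ y ∈ x, y ∈ H) :
    H = Lv ∅ (onn H) := by
  refine lev_of_psi ht fun x hx => ?_
  obtain ⟨f, hf, h⟩ := hH.2 1 (fun f v => Psi ∅ (v 0) f)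
    (hL.psi' (DfnF.proj 1) (DfnF.proj 0)) ![x] (by
      intro i
      fin_cases i
      exact hx) (hL.psi x (hH.1 hx))
  exact ⟨f, hf, h⟩

theorem col_lev {H : ZFSet.{0}} (hH : TV M {x | x ∈ H}) :
    im (col H) H = Lv ∅ (onn (im (col H) H)) := by
  refine lev_of_psi col_trans fun x hx => ?_
  obtain ⟨y, hy, rfl⟩ := mem_im.1 hx
  obtain ⟨f, hf, h⟩ := hH.2 1 (fun f v => Psi ∅ (v 0) f)
    (hL.psi' (DfnF.proj 1) (DfnF.proj 0)) ![y] (by
      intro i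
      fin_cases i
      exact hy) (hL.psi y (hH.1 hy))
  have h0 : (∅ : ZFSet.{0}) ∈ H := hH.nat_mem hL.full 0
  have h1 := (hH.d0 hL.full d0_Psi (v := ![∅, y, f]) (by
    intro i
    fin_cases i
    exacts [h0, hy, hf])).2 h
  have h2 : col H ∅ = ∅ := by
    rw [ZFSet.eq_empty]
    intro z hz
    obtain ⟨u, hu, -⟩ := mem_col.1 hz
    exact ZFSet.notMem_empty u hu
  refine ⟨col H f, mem_im.2 ⟨f, hf, rfl⟩, ?_⟩
  have h3 : Psi (col H ∅) (col H y) (col H f) := h1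
  rwa [h2] at h3

theorem cmp {H K : ZFSet.{0}} (hHK : H ⊆ K) (hH : TV M {x | x ∈ H}) (hK : TV M {x | x ∈ K}) :
    im (col H) H = im (col K) K ∨ im (col H) H ∈ im (col K) K := by
  have h1 := hL.col_lev hH
  have h2 := hL.col_lev hK
  have hoH : (onn (im (col H) H)).IsOrdinal := isOrdinal_onn col_trans
  have hoK : (onn (im (col K) K)).IsOrdinal := isOrdinal_onn col_trans
  have hle : ∀ u : ZFSet.{0}, u.IsOrdinal → (col H u).IsOrdinal ∧ (col K u).IsOrdinal ∧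
      col H u ⊆ col K u := by
    have key : ∀ (X u : ZFSet.{0}), u.IsOrdinal → (col X u).IsOrdinal := by
      intro X u
      induction u using ZFSet.inductionOn with
      | _ u ih =>
      intro hu
      rw [ZFSet.isOrdinal_iff_forall_mem_isOrdinal]
      constructor
      · intro y hy z hz
        obtain ⟨a, ha, ha', rfl⟩ := mem_col.1 hy
        obtain ⟨b, hb, hb', rfl⟩ := mem_col.1 hz
        exact mem_col.2 ⟨b, hu.mem_trans hb ha, hb', rfl⟩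
      · intro y hy
        obtain ⟨a, ha, ha', rfl⟩ := mem_col.1 hy
        exact ih a ha (hu.mem ha)
    intro u
    induction u using ZFSet.inductionOn with
    | _ u ih =>
    intro hu
    refine ⟨key H u hu, key K u hu, fun y hy => ?_⟩
    obtain ⟨a, ha, ha', rfl⟩ := mem_col.1 hy
    obtain ⟨h3, h4, h5⟩ := ih a ha (hu.mem ha)
    exact h3.mem_of_subset_of_mem (key K u hu) h5 (mem_col.2 ⟨a, ha, hHK ha', rfl⟩)
  have hsub : onn (im (col H) H) ⊆ onn (im (col K) K) := by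
    intro y hy
    obtain ⟨h3, h4⟩ := mem_onn.1 hy
    obtain ⟨u, hu, rfl⟩ := mem_im.1 h3
    have huo : u.IsOrdinal := (hH.d0 hL.full (D0.isOrdinal (D0v.proj 0)) (v := ![u]) (by
      intro i
      fin_cases i
      exact hu)).1 h4
    obtain ⟨h5, h6, h7⟩ := hle u huo
    exact h5.mem_of_subset_of_mem hoK h7 (mem_onn.2 ⟨mem_im.2 ⟨u, hHK hu, rfl⟩, h6⟩)
  rcases (ZFSet.IsOrdinal.subset_iff_eq_or_mem hoH hoK).1 hsub with h3 | h3
  · left
    rw [h1, h2, h3]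
  · right
    rw [h1, h2]
    exact Pool.Agent.W868.Lv_mem h3

/-- Every element is definable from a finite set of ordinals. -/
theorem exists_fo {x : ZFSet.{0}} (hx : x ∈ M) : ∃ p, FO p ∧ p ∈ M ∧ x ∈ Hul M p := by
  have hM := hL.full
  have hB := hM.base
  have hmono : ∀ {p q x : ZFSet.{0}}, FO q → q ∈ M → p ⊆ q → x ∈ Hul M p → x ∈ Hul M q :=
    fun hq hqM hpq hx => hul_trans hx (fo_sub' hM _ hq hqM _ hpq)
  have key : ∀ ξ : ZFSet.{0}, ξ ∈ M → ξ.IsOrdinal → ∀ x ∈ Lv ∅ ξ, ∃ p, FO p ∧ p ∈ M ∧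
      x ∈ Hul M p := by
    intro ξ
    induction ξ using ZFSet.inductionOn with
    | _ ξ ih =>
    intro hξ hξo x hx
    obtain ⟨u, hu, h1⟩ := mem_Lv.1 hx
    have huM := hM.trans hξ hu
    have huo := hξo.mem hu
    have ih' := ih u hu huM huo
    rcases mem_step.1 h1 with h1 | ⟨i, -, a, ha, b, hb, h2⟩
    · exact ih' x h1
    have hLu : Lv ∅ u ∈ Hul M {u} := by
      have h3 : u ∈ Hul M {u} := by
        have := hul_op (a := {u}) (h := fun x => (ZFSet.sUnion x : ZFSet.{0}))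
          (hB.sUnion' (DfnF.proj 0)) (hul_self (M := M))
        rwa [ZFSet.sUnion_singleton] at this
      refine hul_trans (hul_of_unique hM (R := fun Y ξ => ∃ f ∈ M, Sq ∅ f ∧ pair ξ Y ∈ f)
        (hL.lev' (DfnF.proj 1) (DfnF.proj 0)) huM (hL.Lv_mem huM huo) fun Y _ =>
          hL.lev_iff huM huo) h3
    have hab : ∀ a ∈ (insert (Lv ∅ u) (Lv ∅ u) : ZFSet.{0}), ∃ p, FO p ∧ p ∈ M ∧
        a ∈ Hul M p := by
      intro a ha
      rcases ZFSet.mem_insert_iff.1 ha with rfl | ha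
      · exact ⟨{u}, FO.single huo, hM.single_mem huM, hLu⟩
      · exact ih' a ha
    obtain ⟨p, hp, hpM, hap⟩ := hab a ha
    obtain ⟨q, hq, hqM, hbq⟩ := hab b hb
    have ho : FO ((p ∪ q) ∪ {u}) := (hp.union hq).union (FO.single huo)
    have hoM : (p ∪ q) ∪ {u} ∈ M := hM.union_mem (hM.union_mem hpM hqM) (hM.single_mem huM)
    refine ⟨_, ho, hoM, ?_⟩
    have hF : DfnF ∅ M fun v : Fin 3 → ZFSet.{0} =>
        ZFSet.sep (fun w => GR ∅ i w (v 1) (v 2)) (v 0) := by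
      refine hM.sep' (Q := fun w v => GR ∅ i w (v 1) (v 2)) (DfnF.proj 0) ?_
      exact Dfn.comp4 (Q := fun a b c d => GR a i b c d) ((d0_GR i).dfn hB.trans) hM.empty'
        (DfnF.proj 0) (DfnF.proj 2) (DfnF.proj 3)
    have h3 := hul_opN (a := (p ∪ q) ∪ {u}) hF (v := ![Lv ∅ u, a, b]) (by
      intro i
      fin_cases i
      · refine hmono ho hoM (fun y hy => ?_) hLu
        exact ZFSet.mem_union.2 (Or.inr hy)
      · refine hmono ho hoM (fun y hy => ?_) hap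
        exact ZFSet.mem_union.2 (Or.inl (ZFSet.mem_union.2 (Or.inl hy)))
      · refine hmono ho hoM (fun y hy => ?_) hbq
        exact ZFSet.mem_union.2 (Or.inl (ZFSet.mem_union.2 (Or.inr hy))))
    have h4 : ZFSet.sep (fun w => GR ∅ i w a b) (Lv ∅ u) = x := by
      ext w
      rw [ZFSet.mem_sep, h2]
    rw [← h4]
    exact h3
  obtain ⟨f, hf, hp⟩ := hL.psi x hx
  obtain ⟨ξ, X, h1, h2, h3⟩ := hp.spec
  exact key ξ (hM.of_pair_mem (hM.trans hf h1)).1 h2 x h3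

end LCls

/-- The finite set of ordinals `e` and the number `n` are a code of `x`. -/
def Cd (x e n : ZFSet.{0}) : Prop := ∃ δ ∈ e, δ.IsOrdinal ∧ (∀ μ ∈ e, μ = δ ∨ μ ∈ δ) ∧
  x ∈ Lv ∅ δ ∧ n ∈ JJ (Lv ∅ δ) (pair x (ZFSet.sep (fun y => y ≠ δ) e)) ∧
  ∀ y ∈ Lv ∅ δ, n ∈ JJ (Lv ∅ δ) (pair y (ZFSet.sep (fun y => y ≠ δ) e)) → y = x

theorem Cd.uniq {x y e n : ZFSet.{0}} (h : Cd x e n) (h' : Cd y e n) : x = y := by
  obtain ⟨δ, h1, h2, h3, h4, h5, h6⟩ := h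
  obtain ⟨δ', h1', h2', h3', h4', h5', h6'⟩ := h'
  have h7 : δ = δ' := by
    rcases h3 δ' h1' with h | h
    · exact h.symm
    · rcases h3' δ h1 with h8 | h8
      · exact h8
      · exact absurd h (ZFSet.mem_asymm h8)
  subst h7
  exact h6' x h4 h5

namespace LCls

variable (hL : LCls c M)

include hL

theorem cd' {n : ℕ} {F G H : (Fin n → ZFSet.{0}) → ZFSet.{0}} (hF : DfnF ∅ M F)
    (hG : DfnF ∅ M G) (hH : DfnF ∅ M H) : Dfn ∅ M fun v => Cd (F v) (G v) (H v) := by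
  have hM := hL.full
  have hB := hM.base
  have hJ : ∀ {n : ℕ} {F G : (Fin n → ZFSet.{0}) → ZFSet.{0}}, DfnF ∅ M F → DfnF ∅ M G →
      DfnF ∅ M fun v => JJ (F v) (G v) := fun hF hG => DfnF.comp2 (f := JJ) hL.jj hF hG
  have h : Dfn ∅ M fun w : Fin 3 → ZFSet.{0} => ∃ δ ∈ w 1, δ.IsOrdinal ∧
      (∀ μ ∈ w 1, μ = δ ∨ μ ∈ δ) ∧ ∃ Y ∈ M, (∃ f ∈ M, Sq ∅ f ∧ pair δ Y ∈ f) ∧
      w 0 ∈ Y ∧ w 2 ∈ JJ Y (pair (w 0) (ZFSet.sep (fun y => y ≠ δ) (w 1))) ∧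
      ∀ y ∈ Y, w 2 ∈ JJ Y (pair y (ZFSet.sep (fun y => y ≠ δ) (w 1))) → y = w 0 := by
    apply hB.bex (DfnF.proj 1)
    apply Dfn.and (hB.isOrdinal' (DfnF.proj 0))
    apply Dfn.and
    · apply hB.ball (DfnF.proj 2)
      exact (Dfn.eq (DfnF.proj 0) (DfnF.proj 1)).or (Dfn.mem (DfnF.proj 0) (DfnF.proj 1))
    apply Dfn.ex
    apply Dfn.and (hL.lev' (DfnF.proj 1) (DfnF.proj 0))
    apply Dfn.and (Dfn.mem (DfnF.proj 2) (DfnF.proj 0))
    have hs : DfnF ∅ M fun w : Fin 5 → ZFSet.{0} => ZFSet.sep (fun y => y ≠ w 1) (w 3) :=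
      hM.sep' (Q := fun y w => y ≠ w 1) (DfnF.proj 3) (Dfn.eq (DfnF.proj 0) (DfnF.proj 2)).not
    apply Dfn.and
    · exact Dfn.mem (DfnF.proj 4) (hJ (DfnF.proj 0) (hB.pair' (DfnF.proj 2) hs))
    · apply hB.ball (DfnF.proj 0)
      apply Dfn.imp
      · exact Dfn.mem (DfnF.proj 5) (hJ (DfnF.proj 1) (hB.pair' (DfnF.proj 0) hs.tail))
      · exact Dfn.eq (DfnF.proj 0) (DfnF.proj 3)
  refine Dfn.comp3 (Q := Cd) (h.congr fun v hv => ?_) hF hG hH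
  constructor
  · rintro ⟨δ, h1, h2, h3, Y, -, h4, h5, h6, h7⟩
    have hδM := hM.trans (hv 1) h1
    rw [hL.lev_iff hδM h2] at h4
    subst h4
    exact ⟨δ, h1, h2, h3, h5, h6, h7⟩
  · rintro ⟨δ, h1, h2, h3, h5, h6, h7⟩
    have hδM := hM.trans (hv 1) h1
    exact ⟨δ, h1, h2, h3, _, hL.Lv_mem hδM h2, (hL.lev_iff hδM h2).2 rfl, h5, h6, h7⟩

/-- Every element has a code. -/
theorem exists_Cd {x : ZFSet.{0}} (hx : x ∈ M) :
    ∃ e, FO e ∧ e ∈ M ∧ ∃ n : ℕ, Cd x e (nat n) := by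
  have hM := hL.full
  have hB := hM.base
  obtain ⟨p, hp, hpM, h, hh, rfl⟩ := hL.exists_fo hx
  obtain ⟨φ, hφ⟩ := dfn_iff.1 hh.2
  have hc := hM.inf
  have hkM : kap c ∈ M := hh_of_trans hM (fun y hy z hz => ord_kap.mem_trans hz hy) card_kap.le
  -- the elementary subclass
  obtain ⟨H, hZ, hH, hHc⟩ := exists_tv hM (Z := kap c ∪ {kap c, h p} ∪ {p}) (by
    intro y hy
    rw [ZFSet.mem_union, ZFSet.mem_union, ZFSet.mem_pair, ZFSet.mem_singleton] at hy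
    rcases hy with (hy | rfl | rfl) | rfl
    · exact hM.trans hkM hy
    · exact hkM
    · exact hx
    · exact hpM) (by
    refine ZFSet.card_union_le.trans ?_
    have h1 : (kap c ∪ {kap c, h p}).card ≤ c := by
      refine ZFSet.card_union_le.trans ?_
      exact (add_le_add card_kap.le (card_pair_le.trans hc)).trans (Cardinal.add_eq_self hc).le
    refine (add_le_add h1 ?_).trans (Cardinal.add_eq_self hc).le
    rw [ZFSet.card_singleton]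
    exact Cardinal.one_le_aleph0.trans hc)
  have hkH : kap c ⊆ H := fun y hy => hZ (ZFSet.mem_union.2 (Or.inl (ZFSet.mem_union.2
    (Or.inl hy))))
  have hkH' : kap c ∈ H := hZ (ZFSet.mem_union.2 (Or.inl (ZFSet.mem_union.2
    (Or.inr (ZFSet.mem_pair.2 (Or.inl rfl))))))
  have hxH : h p ∈ H := hZ (ZFSet.mem_union.2 (Or.inl (ZFSet.mem_union.2
    (Or.inr (ZFSet.mem_pair.2 (Or.inr rfl))))))
  have hpH : p ∈ H := hZ (ZFSet.mem_union.2 (Or.inr (ZFSet.mem_singleton.2 rfl)))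
  have ht : ∀ y ∈ H, ∀ z ∈ y, z ∈ H := by
    intro y hy z hz
    have hyM := hH.1 hy
    obtain ⟨f0, hf0⟩ := exists_isInj (x := y) (y := kap c) (by
      rw [card_kap]
      exact hM.card hyM)
    have hf0M : f0 ∈ M := hM.sub (hM.prod_mem hyM hkM) hf0.1.1
    obtain ⟨f, hf, hf1⟩ := hH.2 2 (fun f v => IsInj (v 0) (v 1) f)
      (hB.isInj' (DfnF.proj 1) (DfnF.proj 2) (DfnF.proj 0)) ![y, kap c] (by
        intro i
        fin_cases i
        exacts [hy, hkH']) ⟨f0, hf0M, hf0⟩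
    have hf2 : IsInj y (kap c) f := hf1
    obtain ⟨ζ, hζ, h2⟩ := fun_exists hf2.1 hz
    obtain ⟨w, hw, h3⟩ := hH.2 2 (fun w v => pair w (v 0) ∈ v 1)
      (Dfn.mem (hB.pair' (DfnF.proj 0) (DfnF.proj 1)) (DfnF.proj 2)) ![ζ, f] (by
        intro i
        fin_cases i
        exacts [hkH hζ, hf]) ⟨z, hM.trans hyM hz, h2⟩
    have h4 : pair w ζ ∈ f := h3
    rw [hf2.2 z w ζ h2 h4]
    exact hw
  have hlev := hL.tv_lev hH ht
  set δ := onn H with hδ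
  have hδo : δ.IsOrdinal := isOrdinal_onn ht
  have hHM : H ∈ M := hh_of_trans hM ht hHc
  have hδM : δ ∈ M := hM.sub hHM fun y hy => (mem_onn.1 hy).1
  have hpδ : p ⊆ δ := fun y hy => mem_onn.2 ⟨ht p hpH y hy, hp.1 y hy⟩
  -- the number of the formula
  have hBH : IsBase {x | x ∈ H} := by
    refine ⟨ht, fun x hx y hy => hH.upair_mem hM hx hy, fun x hx => ?_⟩
    exact hH.opN (F := fun v : Fin 1 → ZFSet.{0} => (ZFSet.sUnion (v 0) : ZFSet.{0}))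
      (hB.sUnion' (DfnF.proj 0)) (v := ![x]) (by
        intro i
        fin_cases i
        exact hx)
  have hD : Dfn ∅ {x | x ∈ H} fun v : Fin 1 → ZFSet.{0} =>
      ∃ y ∈ {x | x ∈ H}, ∃ q ∈ {x | x ∈ H}, v 0 = pair y q ∧
        Sat {x | x ∈ H} Empty.elim φ ![y, q] := by
    apply Dfn.ex
    apply Dfn.ex
    apply Dfn.and
    · exact Dfn.eq (DfnF.proj 2) (hBH.pair' (DfnF.proj 1) (DfnF.proj 0))
    · rw [dfn_iff]
      refine ⟨φ.subst fun i => Sum.inl ((![1, 0] : Fin 2 → Fin 3) i), fun v _ => ?_⟩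
      rw [sat_subst]
      have h1 : (fun k => Sum.elim v Empty.elim (Sum.inl ((![1, 0] : Fin 2 → Fin 3) k) :
          Fin 3 ⊕ Empty)) = ![v 1, v 0] := by
        funext i
        fin_cases i <;> rfl
      rw [h1]
      exact Iff.rfl
  obtain ⟨k, hk⟩ := exists_num (R := fun b => ∃ y ∈ {x | x ∈ H}, ∃ q ∈ {x | x ∈ H},
    b = pair y q ∧ Sat {x | x ∈ H} Empty.elim φ ![y, q]) hD
  have hkey : ∀ y ∈ H, (nat k ∈ JJ H (pair y p) ↔ y = h p) := by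
    intro y hy
    have h1 : nat k ∈ JJ H (pair y p) ↔ GS {x | x ∈ H} k (asg (pair y p)) := nat_mem_JS
    rw [h1, hk _ (hH.pair_mem hM hy hpH)]
    have h2 : (∃ y' ∈ {x | x ∈ H}, ∃ q ∈ {x | x ∈ H}, pair y p = pair y' q ∧
        Sat {x | x ∈ H} Empty.elim φ ![y', q]) ↔ Sat {x | x ∈ H} Empty.elim φ ![y, p] := by
      constructor
      · rintro ⟨y', -, q, -, h3, h4⟩
        obtain ⟨rfl, rfl⟩ := ZFSet.pair_inj.1 h3
        exact h4
      · intro h3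
        exact ⟨y, hy, p, hpH, rfl, h3⟩
    rw [h2, hH.sat φ ![y, p] (by
      intro i
      fin_cases i
      exacts [hy, hpH]), hφ ![y, p] (by
      intro i
      fin_cases i
      exacts [hH.1 hy, hpM])]
    rfl
  have hsep : ZFSet.sep (fun y => y ≠ δ) (insert δ p) = p := by
    ext y
    rw [ZFSet.mem_sep, ZFSet.mem_insert_iff]
    constructor
    · rintro ⟨h1 | h1, h2⟩
      · exact absurd h1 h2
      · exact h1
    · intro h1
      exact ⟨Or.inr h1, fun h2 => ZFSet.mem_irrefl _ (h2 ▸ hpδ h1)⟩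
  have hins : (insert δ p : ZFSet.{0}) = p ∪ {δ} := by
    ext y
    rw [ZFSet.mem_insert_iff, ZFSet.mem_union, ZFSet.mem_singleton]
    exact or_comm
  refine ⟨insert δ p, ?_, hM.insert_mem hδM hpM, k, δ, ZFSet.mem_insert _ _, hδo, ?_, ?_⟩
  · rw [hins]
    exact hp.union (FO.single hδo)
  · intro μ hμ
    rcases ZFSet.mem_insert_iff.1 hμ with h1 | h1
    · exact Or.inl h1
    · exact Or.inr (hpδ h1)
  · rw [hsep, ← hlev]
    exact ⟨hxH, (hkey _ hxH).2 rfl, fun y hy h1 => (hkey y hy).1 h1⟩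

end LCls

/-- The order of the codes. -/
def clt (e n e' n' : ZFSet.{0}) : Prop := clx e e' ∨ (e = e' ∧ n ∈ n')

/-- The well-ordering of the elements given by their least codes. -/
def ltc (M : Set ZFSet.{0}) (x y : ZFSet.{0}) : Prop :=
  ∃ e ∈ M, ∃ n ∈ (ZFSet.omega : ZFSet.{0}), FO e ∧ Cd x e n ∧
    ∀ e' ∈ M, ∀ n' ∈ (ZFSet.omega : ZFSet.{0}), FO e' → Cd y e' n' → clt e n e' n'

namespace LCls

variable (hL : LCls c M)

include hL

theorem least_code {P : ZFSet.{0} → Prop} (hP : ∃ x ∈ M, P x) : ∃ x ∈ M, P x ∧ ∃ e ∈ M,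
    ∃ n ∈ (ZFSet.omega : ZFSet.{0}), FO e ∧ Cd x e n ∧
      ∀ y ∈ M, P y → ∀ e' ∈ M, ∀ n' ∈ (ZFSet.omega : ZFSet.{0}), FO e' → Cd y e' n' →
        clt e n e' n' ∨ (e = e' ∧ n = n') := by
  obtain ⟨x0, hx0, hPx0⟩ := hP
  obtain ⟨e0, h1, h2, n0, h3⟩ := hL.exists_Cd hx0
  obtain ⟨e, ⟨heo, heM, he⟩, hmin⟩ := pr_wf.has_min
    {e | FO e ∧ e ∈ M ∧ ∃ x ∈ M, P x ∧ ∃ n ∈ (ZFSet.omega : ZFSet.{0}), Cd x e n}
    ⟨e0, h1, h2, x0, hx0, hPx0, nat n0, mem_omega_iff.2 ⟨_, rfl⟩, h3⟩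
  obtain ⟨x1, hx1, hPx1, n1, hn1, hc1⟩ := he
  have hS : {n | n ∈ (ZFSet.omega : ZFSet.{0}) ∧ ∃ x ∈ M, P x ∧ Cd x e n}.Nonempty :=
    ⟨n1, hn1, x1, hx1, hPx1, hc1⟩
  obtain ⟨hn, x, hx, hPx, hc⟩ := ZFSet.mem_wf.min_mem _ hS
  set n := ZFSet.mem_wf.min _ hS with hndef
  have hnmin : ∀ n' ∈ {n | n ∈ (ZFSet.omega : ZFSet.{0}) ∧ ∃ x ∈ M, P x ∧ Cd x e n}, ¬ n' ∈ n :=
    fun n' hn' => ZFSet.mem_wf.not_lt_min _ hn'
  refine ⟨x, hx, hPx, e, heM, n, hn, heo, hc, fun y hy hPy e' he' n' hn' he'o hc' => ?_⟩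
  rcases clx_tri heo he'o with h | h | h
  · exact Or.inl (Or.inl h)
  · subst h
    have ho : ∀ {z : ZFSet.{0}}, z ∈ (ZFSet.omega : ZFSet.{0}) → z.IsOrdinal :=
      fun hz => isOrdinal_omega.mem hz
    rcases (ho hn).mem_trichotomous (ho hn') with h | h | h
    · exact Or.inl (Or.inr ⟨rfl, h⟩)
    · exact Or.inr ⟨rfl, h⟩
    · exact absurd h (hnmin n' ⟨hn', y, hy, hPy, hc'⟩)
  · exact absurd (mem_pr.2 ⟨he'o, heo, h⟩) (hmin e' ⟨he'o, he', y, hy, hPy, n', hn', hc'⟩)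

theorem clt_trans {e n e' n' e'' n'' : ZFSet.{0}} (h1 : FO e) (h2 : FO e') (h3 : FO e'')
    (hn : n'' ∈ (ZFSet.omega : ZFSet.{0})) (h : clt e n e' n') (h' : clt e' n' e'' n'') :
    clt e n e'' n'' := by
  rcases h with h | ⟨rfl, h⟩ <;> rcases h' with h' | ⟨rfl, h'⟩
  · exact Or.inl (clx_trans h1 h2 h3 h h')
  · exact Or.inl h
  · exact Or.inl h'
  · exact Or.inr ⟨rfl, (isOrdinal_omega.mem hn).mem_trans h h'⟩

theorem clt_irrefl {e n : ZFSet.{0}} : ¬ clt e n e n := by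
  rintro (h | ⟨-, h⟩)
  · exact clx_irrefl h
  · exact ZFSet.mem_irrefl _ h

theorem wo : WO M (ltc M) := by
  have hM := hL.full
  have hB := hM.base
  refine ⟨?_, fun P hP => ?_, fun x hx y hy => ?_⟩
  · unfold ltc
    apply Dfn.ex
    apply hB.bex hM.omega'
    apply Dfn.and (hM.fo' (DfnF.proj 1))
    apply Dfn.and (hL.cd' (DfnF.proj 2) (DfnF.proj 1) (DfnF.proj 0))
    apply Dfn.all
    apply hB.ball hM.omega'
    apply Dfn.imp (hM.fo' (DfnF.proj 1))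
    apply Dfn.imp (hL.cd' (DfnF.proj 5) (DfnF.proj 1) (DfnF.proj 0))
    unfold clt
    apply Dfn.or (hM.clx' (DfnF.proj 3) (DfnF.proj 1))
    exact (Dfn.eq (DfnF.proj 3) (DfnF.proj 1)).and (Dfn.mem (DfnF.proj 2) (DfnF.proj 0))
  · obtain ⟨x, hx, hPx, e, he, n, hn, heo, hc, hmin⟩ := hL.least_code hP
    refine ⟨x, hx, hPx, fun y hy hPy h => ?_⟩
    obtain ⟨e', he', n', hn', he'o, hc', h'⟩ := h
    have h1 := h' e he n hn heo hc
    rcases hmin y hy hPy e' he' n' hn' he'o hc' with h2 | ⟨rfl, rfl⟩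
    · exact hL.clt_irrefl (hL.clt_trans he'o heo he'o hn' h1 h2)
    · exact hL.clt_irrefl h1
  · obtain ⟨x', -, rfl, e, he, n, hn, heo, hc, hmin⟩ := hL.least_code (P := fun z => z = x)
      ⟨x, hx, rfl⟩
    obtain ⟨y', -, rfl, e', he', n', hn', he'o, hc', hmin'⟩ := hL.least_code
      (P := fun z => z = y) ⟨y, hy, rfl⟩
    have key : ∀ {x y e n e' n' : ZFSet.{0}}, e ∈ M → n ∈ (ZFSet.omega : ZFSet.{0}) → FO e →
        e' ∈ M → n' ∈ (ZFSet.omega : ZFSet.{0}) → FO e' →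
        Cd x e n → (∀ z ∈ M, z = y → ∀ e'' ∈ M, ∀ n'' ∈ (ZFSet.omega : ZFSet.{0}), FO e'' →
          Cd z e'' n'' → clt e' n' e'' n'' ∨ (e' = e'' ∧ n' = n'')) → y ∈ M →
        clt e n e' n' → ltc M x y := by
      intro x y e n e' n' he hn heo he' hn' he'o hc hmin' hy h
      refine ⟨e, he, n, hn, heo, hc, fun e'' he'' n'' hn'' he''o hc'' => ?_⟩
      rcases hmin' y hy rfl e'' he'' n'' hn'' he''o hc'' with h1 | ⟨rfl, rfl⟩
      · exact hL.clt_trans heo he'o he''o hn'' h h1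
      · exact h
    rcases clx_tri heo he'o with h | h | h
    · exact Or.inl (key he hn heo he' hn' he'o hc hmin' hy (Or.inl h))
    · subst h
      have ho : ∀ {z : ZFSet.{0}}, z ∈ (ZFSet.omega : ZFSet.{0}) → z.IsOrdinal :=
        fun hz => isOrdinal_omega.mem hz
      rcases (ho hn).mem_trichotomous (ho hn') with h | h | h
      · exact Or.inl (key he hn heo he' hn' he'o hc hmin' hy (Or.inr ⟨rfl, h⟩))
      · subst h
        exact Or.inr (Or.inl (hc.uniq hc'))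
      · exact Or.inr (Or.inr (key he' hn' he'o he hn heo hc' hmin hx (Or.inr ⟨rfl, h⟩)))
    · exact Or.inr (Or.inr (key he' hn' he'o he hn heo hc' hmin hx (Or.inl h)))

/-- Every element is interdefinable with a finite set of ordinals. -/
theorem code {x : ZFSet.{0}} (hx : x ∈ M) : ∃ e, FO e ∧ e ∈ Hul M x ∧ x ∈ Hul M e := by
  have hM := hL.full
  have hB := hM.base
  obtain ⟨e0, h1, h2, n0, h3⟩ := hL.exists_Cd hx
  obtain ⟨e, ⟨heo, heM, n, hc⟩, hmin⟩ := pr_wf.has_min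
    {e | FO e ∧ e ∈ M ∧ ∃ n : ℕ, Cd x e (nat n)} ⟨e0, h1, h2, n0, h3⟩
  refine ⟨e, heo, ?_, ?_⟩
  · have hD : Dfn ∅ M fun v : Fin 2 → ZFSet.{0} => FO (v 0) ∧
        (∃ n ∈ (ZFSet.omega : ZFSet.{0}), Cd (v 1) (v 0) n) ∧
        ∀ d ∈ pr (v 0), ∀ n ∈ (ZFSet.omega : ZFSet.{0}), ¬ Cd (v 1) d n := by
      apply Dfn.and (hM.fo' (DfnF.proj 0))
      apply Dfn.and
      · apply hB.bex hM.omega'
        exact hL.cd' (DfnF.proj 2) (DfnF.proj 1) (DfnF.proj 0)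
      · apply hB.ball (hM.pr' (DfnF.proj 0))
        apply hB.ball hM.omega'
        exact (hL.cd' (DfnF.proj 3) (DfnF.proj 1) (DfnF.proj 0)).not
    have hmin' : ∀ d, FO d → d ∈ M → (∃ n ∈ (ZFSet.omega : ZFSet.{0}), Cd x d n) →
        ¬ d ∈ pr e := by
      rintro d h4 h5 ⟨k, hk, h6⟩
      obtain ⟨k, rfl⟩ := mem_omega_iff.1 hk
      exact hmin d ⟨h4, h5, k, h6⟩
    refine hul_of_unique hM (R := fun y x => FO y ∧
        (∃ n ∈ (ZFSet.omega : ZFSet.{0}), Cd x y n) ∧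
        ∀ d ∈ pr y, ∀ n ∈ (ZFSet.omega : ZFSet.{0}), ¬ Cd x d n) hD hx heM fun y hy => ?_
    constructor
    · rintro ⟨h4, h5, h6⟩
      rcases clx_tri h4 heo with h | h | h
      · exact absurd (mem_pr.2 ⟨h4, heo, h⟩) (hmin' y h4 hy h5)
      · exact h
      · exact absurd hc (h6 e (mem_pr.2 ⟨heo, h4, h⟩) (nat n) (mem_omega_iff.2 ⟨_, rfl⟩))
    · rintro rfl
      refine ⟨heo, ⟨nat n, mem_omega_iff.2 ⟨_, rfl⟩, hc⟩, fun d hd k hk h4 => ?_⟩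
      exact hmin' d (mem_pr.1 hd).1 (hM.fo_mem heM hd) ⟨k, hk, h4⟩ hd
  · refine hul_of_unique hM (R := fun y e => Cd y e (nat n))
      (hL.cd' (DfnF.proj 0) (DfnF.proj 1) (hM.nat' n)) heM hx fun y _ => ?_
    exact ⟨fun h => h.uniq hc, fun h => h ▸ hc⟩

theorem setg : Setg c M (ltc M) :=
  ⟨hL.full, hL.wo, fun _ hx => hL.code hx, fun _ _ h1 h2 h3 _ => hL.cmp h1 h2 h3, hL.jj⟩

end LCls

theorem VLv.lcls (hV : VLv) (hc : ℵ₀ ≤ c)
    (hJ : DfnF ∅ (HH c) fun v : Fin 2 → ZFSet.{0} => JJ (v 0) (v 1)) : LCls c (HH c) :=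
  ⟨full_HH hc, fun _ hx => exists_psi hV hc hx, hJ⟩

end

end Pool.Agent.R587
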