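import Pool.Agent.R587.FinS

/-!
# Conditions on individuals and binary relations expressed in second-order logic
-/

set_option autoImplicit false

namespace Pool.Agent.R587

variable {m : ℕ} {ar : Fin m → ℕ}

/-- The condition `P` on individuals (indexed by `ι`) and binary relations (indexed by `κ`) is
expressed by a second-order formula, for any choice of the variables. -/
def SOD (ι κ : Type) (P : (A : Struc ar) → (ι → A.Dom) → (κ → A.Dom → A.Dom → Prop) → Prop) :
    Prop :=
  ∀ (ρ : ι → ℕ) (σ : κ → ℕ),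
    SD fun (A : Struc ar) v w => P A (fun i => v (ρ i)) (fun j a b => w 2 (σ j) ![a, b])

namespace SOD

variable {ι κ : Type}
  {P Q : (A : Struc ar) → (ι → A.Dom) → (κ → A.Dom → A.Dom → Prop) → Prop}

theorem congr (h : SOD ι κ P) (hPQ : ∀ A x E, P A x E ↔ Q A x E) : SOD ι κ Q :=
  fun ρ σ => (h ρ σ).congr fun A _ _ => hPQ A _ _

theorem not (h : SOD ι κ P) : SOD ι κ fun (A : Struc ar) x E => ¬ P A x E :=
  fun ρ σ => (h ρ σ).not

theorem and (h : SOD ι κ P) (h' : SOD ι κ Q) :
    SOD ι κ fun (A : Struc ar) x E => P A x E ∧ Q A x E :=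
  fun ρ σ => (h ρ σ).and (h' ρ σ)

theorem or (h : SOD ι κ P) (h' : SOD ι κ Q) :
    SOD ι κ fun (A : Struc ar) x E => P A x E ∨ Q A x E :=
  fun ρ σ => (h ρ σ).or (h' ρ σ)

theorem imp (h : SOD ι κ P) (h' : SOD ι κ Q) :
    SOD ι κ fun (A : Struc ar) x E => P A x E → Q A x E :=
  fun ρ σ => (h ρ σ).imp (h' ρ σ)

theorem iff (h : SOD ι κ P) (h' : SOD ι κ Q) :
    SOD ι κ fun (A : Struc ar) x E => (P A x E ↔ Q A x E) :=
  fun ρ σ => (h ρ σ).iff (h' ρ σ)

theorem const (p : Prop) : SOD ι κ fun (_ : Struc ar) _ _ => p := fun _ _ => SD.const p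

theorem eq (i j : ι) : SOD ι κ fun (_ : Struc ar) x _ => x i = x j :=
  fun ρ _ => SD.eq (ρ i) (ρ j)

theorem app (k : κ) (i j : ι) : SOD ι κ fun (_ : Struc ar) x E => E k (x i) (x j) :=
  fun ρ σ => (SD.app 2 (σ k) ![ρ i, ρ j]).congr fun A v w => by
    have : (fun t => v (![ρ i, ρ j] t)) = ![v (ρ i), v (ρ j)] := by
      funext t
      fin_cases t <;> rfl
    rw [this]

theorem rel (r : Fin m) (f : Fin (ar r) → ι) :
    SOD ι κ fun (A : Struc ar) x _ => A.R r fun j => x (f j) :=
  fun ρ _ => SD.rel r fun j => ρ (f j)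

/-- Change of variables. -/
theorem comp {ι' κ' : Type} (h : SOD ι κ P) (f : ι → ι') (g : κ → κ') :
    SOD ι' κ' fun (A : Struc ar) x E => P A (fun i => x (f i)) (fun j => E (g j)) :=
  fun ρ σ => h (fun i => ρ (f i)) (fun j => σ (g j))

theorem forall_fintype {τ : Type*} [Finite τ]
    {P : τ → (A : Struc ar) → (ι → A.Dom) → (κ → A.Dom → A.Dom → Prop) → Prop}
    (h : ∀ i, SOD ι κ (P i)) : SOD ι κ fun (A : Struc ar) x E => ∀ i, P i A x E :=
  fun ρ σ => SD.forall_fintype fun i => h i ρ σ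

theorem exists_fintype {τ : Type*} [Finite τ]
    {P : τ → (A : Struc ar) → (ι → A.Dom) → (κ → A.Dom → A.Dom → Prop) → Prop}
    (h : ∀ i, SOD ι κ (P i)) : SOD ι κ fun (A : Struc ar) x E => ∃ i, P i A x E :=
  fun ρ σ => SD.exists_fintype fun i => h i ρ σ

/-- Quantification over relations. -/
theorem exR [Finite κ] {P : (A : Struc ar) → (ι → A.Dom) → (A.Dom → A.Dom → Prop) →
      (κ → A.Dom → A.Dom → Prop) → Prop}
    (h : SOD ι (Option κ) fun (A : Struc ar) x E => P A x (E none) fun j => E (some j)) :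
    SOD ι κ fun (A : Struc ar) x E => ∃ R : A.Dom → A.Dom → Prop, P A x R E := by
  intro ρ σ
  obtain ⟨N, hN⟩ : ∃ N, ∀ j, σ j < N := by
    obtain ⟨N, hN⟩ := (Set.finite_range σ).bddAbove
    exact ⟨N + 1, fun j => Nat.lt_succ_of_le (hN ⟨j, rfl⟩)⟩
  refine ((h ρ (fun o => o.elim N σ)).exR 2 N).congr fun A v w => ?_
  have key : ∀ R' : (Fin 2 → A.Dom) → Prop, ∀ j : κ,
      Function.update (w 2) N R' (σ j) = w 2 (σ j) := fun R' j =>
    Function.update_of_ne (hN j).ne _ _
  constructor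
  · rintro ⟨R', h1⟩
    refine ⟨fun a b => R' ![a, b], ?_⟩
    simp only [Option.elim_none, Option.elim_some, Function.update_self, key] at h1
    exact h1
  · rintro ⟨R, h1⟩
    refine ⟨fun t => R (t 0) (t 1), ?_⟩
    simp only [Option.elim_none, Option.elim_some, Function.update_self, key]
    exact h1

/-- Quantification over tuples. -/
theorem exT {τ : Type} [Finite τ] [Finite ι] {P : (A : Struc ar) → (τ → A.Dom) → (ι → A.Dom) →
      (κ → A.Dom → A.Dom → Prop) → Prop}
    (h : SOD (τ ⊕ ι) κ fun (A : Struc ar) x E => P A (fun t => x (Sum.inl t))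
      (fun i => x (Sum.inr i)) E) :
    SOD ι κ fun (A : Struc ar) x E => ∃ y : τ → A.Dom, P A y x E := by
  intro ρ σ
  obtain ⟨N, hN⟩ : ∃ N, ∀ j, ρ j < N := by
    obtain ⟨N, hN⟩ := (Set.finite_range ρ).bddAbove
    exact ⟨N + 1, fun j => Nat.lt_succ_of_le (hN ⟨j, rfl⟩)⟩
  obtain ⟨l, ⟨e⟩⟩ := Finite.exists_equiv_fin τ
  obtain ⟨θ, hθ⟩ := h (Sum.elim (fun t => N + e t) ρ) σ
  refine ⟨exL ((List.range l).map fun i => N + i) θ, fun A v w => ?_⟩
  rw [sat_exL]
  have hmem : ∀ z, z ∈ (List.range l).map (fun i => N + i) ↔ ∃ i < l, N + i = z := by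
    intro z
    simp
  constructor
  · rintro ⟨v', h1, h2⟩
    rw [hθ] at h2
    refine ⟨fun t => v' (N + e t), ?_⟩
    simp only [Sum.elim_inl, Sum.elim_inr] at h2
    have h3 : (fun i => v' (ρ i)) = fun i => v (ρ i) := by
      funext i
      apply h1
      rw [hmem]
      rintro ⟨k, -, hk⟩
      have := hN i
      omega
    rw [h3] at h2
    exact h2
  · rintro ⟨y, hy⟩
    classical
    refine ⟨fun z => if hz : ∃ t : τ, N + e t = z then y hz.choose else v z, ?_, ?_⟩
    · intro z hz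
      rw [hmem] at hz
      apply dif_neg
      rintro ⟨t, ht⟩
      exact hz ⟨e t, (e t).2, ht⟩
    · rw [hθ]
      simp only [Sum.elim_inl, Sum.elim_inr]
      have h3 : (fun t : τ => if hz : ∃ t' : τ, N + (e t' : ℕ) = N + e t then y hz.choose
          else v (N + e t)) = y := by
        funext t
        have hz : ∃ t' : τ, N + (e t' : ℕ) = N + e t := ⟨t, rfl⟩
        rw [dif_pos hz]
        congr 1
        have := hz.choose_spec
        apply e.injective
        apply Fin.ext
        omega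
      have h4 : (fun i : ι => if hz : ∃ t' : τ, N + (e t' : ℕ) = ρ i then y hz.choose
          else v (ρ i)) = fun i => v (ρ i) := by
        funext i
        apply dif_neg
        rintro ⟨t, ht⟩
        have := hN i
        omega
      rw [h3, h4]
      exact hy

/-- Quantification over individuals. -/
theorem ex [Finite ι] {P : (A : Struc ar) → A.Dom → (ι → A.Dom) →
      (κ → A.Dom → A.Dom → Prop) → Prop}
    (h : SOD (Option ι) κ fun (A : Struc ar) x E => P A (x none) (fun i => x (some i)) E) :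
    SOD ι κ fun (A : Struc ar) x E => ∃ a : A.Dom, P A a x E := by
  have h1 := h.comp (Option.elim · (Sum.inl ()) Sum.inr : Option ι → Unit ⊕ ι) id
  have h2 := exT (τ := Unit) (P := fun A y x E => P A (y ()) x E) h1
  refine h2.congr fun A x E => ?_
  constructor
  · rintro ⟨y, hy⟩
    exact ⟨y (), hy⟩
  · rintro ⟨a, ha⟩
    exact ⟨fun _ => a, ha⟩

theorem all [Finite ι] {P : (A : Struc ar) → A.Dom → (ι → A.Dom) →
      (κ → A.Dom → A.Dom → Prop) → Prop}
    (h : SOD (Option ι) κ fun (A : Struc ar) x E => P A (x none) (fun i => x (some i)) E) :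
    SOD ι κ fun (A : Struc ar) x E => ∀ a : A.Dom, P A a x E :=
  (ex (P := fun A a x E => ¬ P A a x E) h.not).not.congr fun A x E => by simp

theorem allR [Finite κ] {P : (A : Struc ar) → (ι → A.Dom) → (A.Dom → A.Dom → Prop) →
      (κ → A.Dom → A.Dom → Prop) → Prop}
    (h : SOD ι (Option κ) fun (A : Struc ar) x E => P A x (E none) fun j => E (some j)) :
    SOD ι κ fun (A : Struc ar) x E => ∀ R : A.Dom → A.Dom → Prop, P A x R E :=
  (exR (P := fun A x R E => ¬ P A x R E) h.not).not.congr fun A x E => by simp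

theorem allT {τ : Type} [Finite τ] [Finite ι] {P : (A : Struc ar) → (τ → A.Dom) → (ι → A.Dom) →
      (κ → A.Dom → A.Dom → Prop) → Prop}
    (h : SOD (τ ⊕ ι) κ fun (A : Struc ar) x E => P A (fun t => x (Sum.inl t))
      (fun i => x (Sum.inr i)) E) :
    SOD ι κ fun (A : Struc ar) x E => ∀ y : τ → A.Dom, P A y x E :=
  (exT (P := fun A y x E => ¬ P A y x E) h.not).not.congr fun A x E => by simp

/-- Sentences. -/
theorem sentence {P : (A : Struc ar) → (Empty → A.Dom) → (Empty → A.Dom → A.Dom → Prop) → Prop}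
    (h : SOD Empty Empty P) : ∃ θ : SOF ar, θ.Sentence ∧
      ∀ A : Struc ar, (Models A θ ↔ P A Empty.elim Empty.elim) := by
  obtain ⟨θ, h1, h2⟩ := (h Empty.elim Empty.elim).sentence
  refine ⟨θ, h1, fun A => (h2 A).trans ?_⟩
  obtain ⟨a⟩ := A.ne
  have e1 : ∀ x : Empty → A.Dom, x = Empty.elim := fun x => funext fun i => i.elim
  have e2 : ∀ x : Empty → A.Dom → A.Dom → Prop, x = Empty.elim := fun x => funext fun i => i.elim
  constructor
  · rintro ⟨v, w, h3⟩
    rw [e1 fun i => v (Empty.elim i), e2 fun j a b => w 2 (Empty.elim j) ![a, b]] at h3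
    exact h3
  · intro h3
    refine ⟨fun _ => a, fun _ _ _ => True, ?_⟩
    rw [e1 fun i => _, e2 fun j a b => _]
    exact h3

end SOD

end Pool.Agent.R587
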