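import Pool.Agent.R587.Cod
import Pool.Agent.R587.SOD

/-!
# Translation of first-order set theory over `H(|A|⁺)` into second-order logic over `A`
-/

set_option autoImplicit false

namespace Pool.Agent.R587

open Pool.Agent.W868 hiding Models
open ZFSet (pair)

variable {m : ℕ} {ar : Fin m → ℕ}

section rel

variable {T : Type}

/-- Bisimilarity. -/
def EQc (E E' : T → T → Prop) (a b : T) : Prop :=
  ∃ R : T → T → Prop, R a b ∧ ∀ c d, R c d →
    (∀ c', E c' c → ∃ d', E' d' d ∧ R c' d') ∧ (∀ d', E' d' d → ∃ c', E c' c ∧ R c' d')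

/-- Membership of coded sets. -/
def MEMc (E E' : T → T → Prop) (a b : T) : Prop := ∃ q, E' q b ∧ EQc E E' a q

/-- Wellfoundedness. -/
def WFr (E : T → T → Prop) : Prop :=
  ∀ S : T → T → Prop, (∃ a, S a a) → ∃ a, S a a ∧ ∀ b, S b b → ¬ E b a

theorem wfr_iff {E : T → T → Prop} : WFr E ↔ WellFounded E := by
  rw [WellFounded.wellFounded_iff_has_min]
  constructor
  · intro h s hs
    obtain ⟨a, ha, h1⟩ := h (fun a _ => a ∈ s) hs
    exact ⟨a, ha, h1⟩
  · intro h S hS
    obtain ⟨a, ha, h1⟩ := h {a | S a a} hS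
    exact ⟨a, ha, h1⟩

theorem eqc_iff {E E' : T → T → Prop} (h : WellFounded E) (h' : WellFounded E') {p p' : T} :
    EQc E E' p p' ↔ val E p = val E' p' := (val_eq_iff h h' p p').symm

theorem memc_iff {E E' : T → T → Prop} (h : WellFounded E) (h' : WellFounded E') {p p' : T} :
    MEMc E E' p p' ↔ val E p ∈ val E' p' := by
  rw [mem_val h', MEMc]
  exact exists_congr fun q => and_congr_right fun _ => eqc_iff h h'

end rel

section sod

variable {ι κ : Type} [Finite ι] [Finite κ]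

theorem sod_EQc (p q : κ) (i j : ι) :
    SOD (ar := ar) ι κ fun _ x E => EQc (E p) (E q) (x i) (x j) := by
  apply SOD.exR
  apply SOD.and
  · exact SOD.app _ _ _
  · apply SOD.all
    apply SOD.all
    apply SOD.imp
    · exact SOD.app _ _ _
    · apply SOD.and
      · apply SOD.all
        apply SOD.imp
        · exact SOD.app _ _ _
        · apply SOD.ex
          apply SOD.and
          · exact SOD.app _ _ _
          · exact SOD.app _ _ _
      · apply SOD.all
        apply SOD.imp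
        · exact SOD.app _ _ _
        · apply SOD.ex
          apply SOD.and
          · exact SOD.app _ _ _
          · exact SOD.app _ _ _

theorem sod_MEMc (p q : κ) (i j : ι) :
    SOD (ar := ar) ι κ fun _ x E => MEMc (E p) (E q) (x i) (x j) := by
  apply SOD.ex
  apply SOD.and
  · exact SOD.app _ _ _
  · exact sod_EQc _ _ _ _

theorem sod_WFr (p : κ) : SOD (ar := ar) ι κ fun _ _ E => WFr (E p) := by
  apply SOD.allR
  apply SOD.imp
  · apply SOD.ex
    exact SOD.app _ _ _
  · apply SOD.ex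
    apply SOD.and
    · exact SOD.app _ _ _
    · apply SOD.all
      apply SOD.imp
      · exact SOD.app _ _ _
      · apply SOD.not
        exact SOD.app _ _ _

end sod

/-- The index of a variable. -/
def idxf {n : ℕ} (s : Fin n ⊕ Empty) : Fin n := Sum.elim id Empty.elim s

theorem elim_idx {n : ℕ} (v : Fin n → ZFSet.{0}) (s : Fin n ⊕ Empty) :
    Sum.elim v Empty.elim s = v (idxf s) := by
  rcases s with s | s
  · rfl
  · exact s.elim

/-- The translation of a formula. -/
def Tr : {n : ℕ} → Fml Empty n → (A : Struc ar) → (Fin n → A.Dom) →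
    (Fin n → A.Dom → A.Dom → Prop) → Prop
  | _, .mem s t, _, x, E => MEMc (E (idxf s)) (E (idxf t)) (x (idxf s)) (x (idxf t))
  | _, .eq s t, _, x, E => EQc (E (idxf s)) (E (idxf t)) (x (idxf s)) (x (idxf t))
  | _, .neg φ, A, x, E => ¬ Tr φ A x E
  | _, .and φ ψ, A, x, E => Tr φ A x E ∧ Tr ψ A x E
  | n, .ex φ, A, x, E => ∃ (R : A.Dom → A.Dom → Prop) (a : A.Dom), WFr R ∧
      Tr φ A (Fin.cons (α := fun _ : Fin (n + 1) => A.Dom) a x)
        (Fin.cons (α := fun _ : Fin (n + 1) => A.Dom → A.Dom → Prop) R E)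

theorem sod_Tr {n : ℕ} (ψ : Fml Empty n) : SOD (ar := ar) (Fin n) (Fin n) (Tr ψ) := by
  induction ψ with
  | mem s t => exact sod_MEMc _ _ _ _
  | eq s t => exact sod_EQc _ _ _ _
  | neg φ ih => exact ih.not
  | and φ ψ ih1 ih2 => exact ih1.and ih2
  | @ex n φ ih =>
    have h1 := ih.comp (Fin.cons (α := fun _ : Fin (n + 1) => Option (Fin n)) none some)
      (Fin.cons (α := fun _ : Fin (n + 1) => Option (Fin n)) none some)
    have h2 : SOD (ar := ar) (Option (Fin n)) (Option (Fin n)) fun A x E =>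
        WFr (E none) ∧ Tr φ A (Fin.cons (α := fun _ : Fin (n + 1) => A.Dom) (x none)
          (fun i => x (some i)))
        (Fin.cons (α := fun _ : Fin (n + 1) => A.Dom → A.Dom → Prop) (E none)
          (fun i => E (some i))) := by
      refine (sod_WFr _).and (h1.congr fun A x E => ?_)
      have e1 : (fun i => x (Fin.cons (α := fun _ : Fin (n + 1) => Option (Fin n)) none some i)) =
          Fin.cons (α := fun _ : Fin (n + 1) => A.Dom) (x none) (fun i => x (some i)) := by
        funext i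
        refine Fin.cases ?_ (fun i => ?_) i <;> rfl
      have e2 : (fun i => E (Fin.cons (α := fun _ : Fin (n + 1) => Option (Fin n)) none some i)) =
          Fin.cons (α := fun _ : Fin (n + 1) => A.Dom → A.Dom → Prop) (E none)
            (fun i => E (some i)) := by
        funext i
        refine Fin.cases ?_ (fun i => ?_) i <;> rfl
      rw [e1, e2]
    apply SOD.exR
    apply SOD.ex
    exact h2

theorem tr_iff {n : ℕ} (ψ : Fml Empty n) {A : Struc ar} [Infinite A.Dom] : ∀ {x : Fin n → A.Dom}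
    {E : Fin n → A.Dom → A.Dom → Prop}, (∀ i, WellFounded (E i)) →
    (Tr ψ A x E ↔ Sat (HH (Cardinal.mk A.Dom)) Empty.elim ψ fun i => val (E i) (x i)) := by
  induction ψ with
  | mem s t =>
    intro x E h
    simp only [Tr, Sat, elim_idx]
    exact memc_iff (h _) (h _)
  | eq s t =>
    intro x E h
    simp only [Tr, Sat, elim_idx]
    exact eqc_iff (h _) (h _)
  | neg φ ih =>
    intro x E h
    simp only [Tr, Sat]
    rw [ih h]
  | and φ ψ ih1 ih2 =>
    intro x E h
    simp only [Tr, Sat]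
    rw [ih1 h, ih2 h]
  | @ex n φ ih =>
    intro x E h
    simp only [Tr, Sat]
    have key : ∀ (R : A.Dom → A.Dom → Prop) (a : A.Dom), WellFounded R →
        (Tr φ A (Fin.cons (α := fun _ : Fin (n + 1) => A.Dom) a x)
          (Fin.cons (α := fun _ : Fin (n + 1) => A.Dom → A.Dom → Prop) R E) ↔
        Sat (HH (Cardinal.mk A.Dom)) Empty.elim φ
          (Fin.cons (val R a) fun i => val (E i) (x i))) := by
      intro R a hR
      rw [ih]
      · have e : (fun i => val (Fin.cons (α := fun _ : Fin (n + 1) => A.Dom → A.Dom → Prop) R E i)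
            (Fin.cons (α := fun _ : Fin (n + 1) => A.Dom) a x i)) =
            (Fin.cons (val R a) fun i => val (E i) (x i)) := by
          funext i
          refine Fin.cases ?_ (fun i => ?_) i <;> rfl
        rw [e]
      · intro i
        refine Fin.cases ?_ (fun i => ?_) i
        · exact hR
        · exact h i
    constructor
    · rintro ⟨R, a, hR, h1⟩
      rw [wfr_iff] at hR
      exact ⟨val R a, val_mem_HH hR a, (key R a hR).mp h1⟩
    · rintro ⟨z, hz, h1⟩
      obtain ⟨R, a, hR, rfl⟩ := exists_val hz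
      exact ⟨R, a, wfr_iff.mpr hR, (key R a hR).mpr h1⟩

theorem hh_trans {c : Cardinal.{0}} : ∀ x ∈ HH c, ∀ y ∈ x, y ∈ HH c := by
  intro x hx y hy
  cases hx with
  | mk _ h h' => exact h' y hy

/-- A relation between sets that is defined by a formula in transitive classes, applied to coded
sets. -/
theorem tr_d0 {n : ℕ} {R : (Fin n → ZFSet.{0}) → Prop} (h : D0 R) :
    ∃ φ : Fml Empty n, ∀ (A : Struc ar), Infinite A.Dom → ∀ (x : Fin n → A.Dom)
      (E : Fin n → A.Dom → A.Dom → Prop), (∀ i, WellFounded (E i)) →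
      (Tr φ A x E ↔ R fun i => val (E i) (x i)) := by
  obtain ⟨φ, hφ⟩ := h
  refine ⟨φ, fun A hA x E hE => ?_⟩
  rw [tr_iff φ hE]
  exact hφ _ hh_trans _ fun i => val_mem_HH (hE i) _

/-! ### Tuples -/

theorem d0_nat (j : ℕ) : ∀ {n : ℕ} {F : (Fin n → ZFSet.{0}) → ZFSet.{0}}, D0v F →
    D0 fun v => F v = nat j := by
  induction j with
  | zero =>
    intro n F hF
    have h1 : D0 fun v => ∀ y ∈ F v, ¬ True := D0.ball hF D0.tt.not
    refine h1.congr fun v => ?_
    rw [show nat 0 = (∅ : ZFSet.{0}) from rfl, ZFSet.eq_empty]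
    simp
  | succ j ih =>
    intro n F hF
    have h1 : D0 fun v => ∃ u ∈ F v, u = nat j ∧ (∀ y ∈ F v, y = u ∨ y ∈ u) ∧ ∀ y ∈ u, y ∈ F v := by
      apply D0.bex hF
      apply D0.and
      · exact ih (D0v.proj 0)
      · have hF' := hF.tail.tail
        apply D0.and
        · apply D0.ball hF.tail
          apply D0.or
          · exact D0.eq (D0v.proj 0) (D0v.proj 1)
          · exact D0.mem (D0v.proj 0) (D0v.proj 1)
        · apply D0.ball (D0v.proj 0)
          exact D0.mem (D0v.proj 0) hF'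
    refine h1.congr fun v => ?_
    constructor
    · rintro ⟨u, hu, rfl, h2, h3⟩
      ext y
      rw [nat, ZFSet.mem_insert_iff]
      constructor
      · exact h2 y
      · rintro (rfl | h4)
        · exact hu
        · exact h3 y h4
    · intro h
      rw [h, nat]
      refine ⟨nat j, ZFSet.mem_insert_iff.mpr (Or.inl rfl), rfl, ?_, ?_⟩
      · intro y hy
        exact ZFSet.mem_insert_iff.mp hy
      · intro y hy
        exact ZFSet.mem_insert_iff.mpr (Or.inr hy)

theorem d0_tp {k n : ℕ} {F : (Fin n → ZFSet.{0}) → ZFSet.{0}} (hF : D0v F) (ρ : Fin k → Fin n) :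
    D0 fun v => F v = tp fun j => v (ρ j) := by
  have h1 : D0 fun v : Fin n → ZFSet.{0} => (∀ p ∈ F v, ∃ j < k, ∃ hj : j < k,
      p = pair (nat j) (v (ρ ⟨j, hj⟩))) ∧
      ∀ j < k, ∃ hj : j < k, ∃ p ∈ F v, p = pair (nat j) (v (ρ ⟨j, hj⟩)) := by
    have aux : ∀ (j : ℕ) (hj : j < k), D0 fun w : Fin (n + 1) → ZFSet.{0} =>
        w 0 = pair (nat j) (Fin.tail w (ρ ⟨j, hj⟩)) := by
      intro j hj
      have h2 : D0 fun w : Fin (n + 1) → ZFSet.{0} =>
          ∃ a b, w 0 = pair a b ∧ (a = nat j ∧ b = Fin.tail w (ρ ⟨j, hj⟩)) := by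
        apply D0.expair (D0v.proj 0)
        apply D0.and
        · exact d0_nat j (D0v.proj 1)
        · exact D0.eq (D0v.proj 0) ⟨(ρ ⟨j, hj⟩).succ.succ.succ, fun v => rfl⟩
      refine h2.congr fun w => ?_
      constructor
      · rintro ⟨a, b, h3, rfl, rfl⟩
        exact h3
      · intro h3
        exact ⟨_, _, h3, rfl, rfl⟩
    apply D0.and
    · apply D0.ball hF
      apply D0.exLt
      intro j
      by_cases hj : j < k
      · refine (aux j hj).congr fun w => ?_
        exact ⟨fun h => ⟨hj, h⟩, fun ⟨_, h⟩ => h⟩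
      · refine D0.tt.not.congr fun w => ?_
        simp [hj]
    · apply D0.allLt
      intro j
      by_cases hj : j < k
      · have h2 : D0 fun v : Fin n → ZFSet.{0} => ∃ p ∈ F v, p = pair (nat j) (v (ρ ⟨j, hj⟩)) :=
          D0.bex hF (aux j hj)
        refine h2.congr fun w => ?_
        exact ⟨fun h => ⟨hj, h⟩, fun ⟨_, h⟩ => h⟩
      · refine D0.tt.not.congr fun w => ?_
        simp [hj]
  refine h1.congr fun v => ?_
  constructor
  · rintro ⟨h2, h3⟩
    ext p
    rw [mem_tp]
    constructor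
    · intro hp
      obtain ⟨j, -, hj, h4⟩ := h2 p hp
      exact ⟨⟨j, hj⟩, h4⟩
    · rintro ⟨⟨j, hj⟩, rfl⟩
      obtain ⟨_, p, hp, h4⟩ := h3 j hj
      rw [← h4]
      exact hp
  · intro h
    rw [h]
    constructor
    · intro p hp
      obtain ⟨⟨j, hj⟩, h4⟩ := mem_tp.mp hp
      exact ⟨j, hj, hj, h4⟩
    · intro j hj
      exact ⟨hj, _, mem_tp.mpr ⟨⟨j, hj⟩, rfl⟩, rfl⟩

theorem d0_entry (r k : ℕ) : D0 fun v : Fin (k + 1) → ZFSet.{0} =>
    v 0 = pair (nat r) (tp fun j : Fin k => v j.succ) := by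
  have h1 : D0 fun v : Fin (k + 1) → ZFSet.{0} => ∃ a b, v 0 = pair a b ∧
      (a = nat r ∧ b = tp fun j : Fin k => v j.succ) := by
    apply D0.expair (D0v.proj 0)
    apply D0.and
    · exact d0_nat r (D0v.proj 1)
    · exact d0_tp (D0v.proj 0) fun j : Fin k => j.succ.succ.succ
  refine h1.congr fun w => ?_
  constructor
  · rintro ⟨a, b, h3, rfl, rfl⟩
    exact h3
  · intro h3
    exact ⟨_, _, h3, rfl, rfl⟩

/-! ### Codes of structures -/

/-- The coded set `(Ea, a)` is a code of the structure, where `φp` and `φe` are formulas about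
pairs and about the entries of the code. -/
def ISC (φp : Fml Empty 3) (φe : (r : Fin m) → Fml Empty (ar r + 1)) (A : Struc ar) (a : A.Dom)
    (Ea : A.Dom → A.Dom → Prop) : Prop :=
  ∃ F : A.Dom → A.Dom → Prop, WFr F ∧ (∀ u v, EQc F F u v → u = v) ∧
    ∃ (Ed Ec : A.Dom → A.Dom → Prop) (d c : A.Dom), WFr Ed ∧ WFr Ec ∧
      Tr φp A ![a, d, c] ![Ea, Ed, Ec] ∧ (∀ y, MEMc F Ed y d) ∧
      (∀ q, Ed q d → ∃ y, EQc Ed F q y) ∧
      (∀ q, Ec q c → ∃ (r : Fin m) (x : Fin (ar r) → A.Dom), A.R r x ∧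
        Tr (φe r) A (Fin.cons (α := fun _ => A.Dom) q fun i => x i)
          (Fin.cons (α := fun _ => A.Dom → A.Dom → Prop) Ec fun _ => F)) ∧
      ∀ (r : Fin m) (x : Fin (ar r) → A.Dom), A.R r x → ∃ q, Ec q c ∧
        Tr (φe r) A (Fin.cons (α := fun _ => A.Dom) q fun i => x i)
          (Fin.cons (α := fun _ => A.Dom → A.Dom → Prop) Ec fun _ => F)

section

variable {ι κ : Type} [Finite ι] [Finite κ]

theorem sod_Tr3 (φ : Fml Empty 3) (i j k : ι) (p q r : κ) :
    SOD (ar := ar) ι κ fun A x E => Tr φ A ![x i, x j, x k] ![E p, E q, E r] := by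
  refine ((sod_Tr φ).comp ![i, j, k] ![p, q, r]).congr fun A x E => ?_
  have e1 : (fun t => x (![i, j, k] t)) = ![x i, x j, x k] := by
    funext t
    fin_cases t <;> rfl
  have e2 : (fun t => E (![p, q, r] t)) = ![E p, E q, E r] := by
    funext t
    fin_cases t <;> rfl
  rw [e1, e2]

theorem sod_Trc {k : ℕ} (φ : Fml Empty (k + 1)) (q : ι) (f : Fin k → ι) (p s : κ) :
    SOD (ar := ar) ι κ fun A x E => Tr φ A (Fin.cons (α := fun _ => A.Dom) (x q) fun i => x (f i))
      (Fin.cons (α := fun _ => A.Dom → A.Dom → Prop) (E p) fun _ => E s) := by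
  refine ((sod_Tr φ).comp (Fin.cons (α := fun _ => ι) q f)
    (Fin.cons (α := fun _ => κ) p fun _ => s)).congr fun A x E => ?_
  have e1 : (fun t => x (Fin.cons (α := fun _ => ι) q f t)) =
      Fin.cons (α := fun _ => A.Dom) (x q) fun i => x (f i) := by
    funext t
    refine Fin.cases ?_ (fun i => ?_) t <;> rfl
  have e2 : (fun t => E (Fin.cons (α := fun _ : Fin (k + 1) => κ) p (fun _ => s) t)) =
      Fin.cons (α := fun _ => A.Dom → A.Dom → Prop) (E p) fun _ => E s := by
    funext t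
    refine Fin.cases ?_ (fun i => ?_) t <;> rfl
  rw [e1, e2]

theorem sod_ISC (φp : Fml Empty 3) (φe : (r : Fin m) → Fml Empty (ar r + 1)) (i : ι) (p : κ) :
    SOD (ar := ar) ι κ fun A x E => ISC φp φe A (x i) (E p) := by
  apply SOD.exR
  apply SOD.and (sod_WFr _)
  apply SOD.and
  · apply SOD.all
    apply SOD.all
    apply SOD.imp (sod_EQc _ _ _ _)
    exact SOD.eq _ _
  apply SOD.exR
  apply SOD.exR
  apply SOD.ex
  apply SOD.ex
  apply SOD.and (sod_WFr _)
  apply SOD.and (sod_WFr _)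
  apply SOD.and (sod_Tr3 _ _ _ _ _ _ _)
  apply SOD.and
  · apply SOD.all
    exact sod_MEMc _ _ _ _
  apply SOD.and
  · apply SOD.all
    apply SOD.imp (SOD.app _ _ _)
    apply SOD.ex
    exact sod_EQc _ _ _ _
  apply SOD.and
  · apply SOD.all
    apply SOD.imp (SOD.app _ _ _)
    apply SOD.exists_fintype
    intro r
    apply SOD.exT
    apply SOD.and (SOD.rel _ _)
    exact sod_Trc _ _ _ _ _
  · apply SOD.forall_fintype
    intro r
    apply SOD.allT
    apply SOD.imp (SOD.rel _ _)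
    apply SOD.ex
    apply SOD.and (SOD.app _ _ _)
    exact sod_Trc _ _ _ _ _

end

theorem isc_iff {φp : Fml Empty 3} {φe : (r : Fin m) → Fml Empty (ar r + 1)}
    (hφp : ∀ (A : Struc ar), Infinite A.Dom → ∀ (x : Fin 3 → A.Dom)
      (E : Fin 3 → A.Dom → A.Dom → Prop), (∀ i, WellFounded (E i)) →
      (Tr φp A x E ↔ val (E 0) (x 0) = pair (val (E 1) (x 1)) (val (E 2) (x 2))))
    (hφe : ∀ (r : Fin m) (A : Struc ar), Infinite A.Dom → ∀ (x : Fin (ar r + 1) → A.Dom)
      (E : Fin (ar r + 1) → A.Dom → A.Dom → Prop), (∀ i, WellFounded (E i)) →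
      (Tr (φe r) A x E ↔ val (E 0) (x 0) =
        pair (nat r) (tp fun j : Fin (ar r) => val (E j.succ) (x j.succ))))
    {A : Struc ar} (hA : Infinite A.Dom) {a : A.Dom} {Ea : A.Dom → A.Dom → Prop}
    (hE : WellFounded Ea) : ISC φp φe A a Ea ↔ IsCode A (val Ea a) := by
  have hp : ∀ (Ed Ec : A.Dom → A.Dom → Prop) (d c : A.Dom), WellFounded Ed → WellFounded Ec →
      (Tr φp A ![a, d, c] ![Ea, Ed, Ec] ↔ val Ea a = pair (val Ed d) (val Ec c)) := by
    intro Ed Ec d c hEd hEc
    refine hφp A hA _ _ fun i => ?_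
    fin_cases i
    · exact hE
    · exact hEd
    · exact hEc
  have he : ∀ (F Ec : A.Dom → A.Dom → Prop), WellFounded F → WellFounded Ec →
      ∀ (r : Fin m) (q : A.Dom) (x : Fin (ar r) → A.Dom),
      (Tr (φe r) A (Fin.cons (α := fun _ => A.Dom) q fun i => x i)
          (Fin.cons (α := fun _ => A.Dom → A.Dom → Prop) Ec fun _ => F) ↔
        val Ec q = pair (nat r) (tp fun j => val F (x j))) := by
    intro F Ec hF hEc r q x
    refine hφe r A hA _ _ fun i => ?_
    refine Fin.cases ?_ (fun i => ?_) i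
    · exact hEc
    · exact hF
  constructor
  · rintro ⟨F, hF, hinj, Ed, Ec, d, c, hEd, hEc, h1, h2, h3, h4, h5⟩
    rw [wfr_iff] at hF hEd hEc
    rw [hp Ed Ec d c hEd hEc] at h1
    have hmem : ∀ x, x ∈ val Ed d ↔ ∃ y, x = val F y := by
      intro x
      constructor
      · intro hx
        obtain ⟨q, hq, rfl⟩ := (mem_val hEd).mp hx
        obtain ⟨y, hy⟩ := h3 q hq
        exact ⟨y, (eqc_iff hEd hF).mp hy⟩
      · rintro ⟨y, rfl⟩
        exact (memc_iff hF hEd).mp (h2 y)
    refine ⟨val Ed d, val Ec c, val F, h1, ?_, hmem, ?_, ?_⟩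
    · intro u v huv
      exact hinj u v ((eqc_iff hF hF).mpr huv)
    · intro w hw z hz
      obtain ⟨y, rfl⟩ := (hmem w).mp hw
      obtain ⟨y', -, rfl⟩ := (mem_val hF).mp hz
      exact (hmem _).mpr ⟨y', rfl⟩
    · intro p
      constructor
      · intro hpc
        obtain ⟨q, hq, rfl⟩ := (mem_val hEc).mp hpc
        obtain ⟨r, x, hr, hx⟩ := h4 q hq
        exact ⟨r, x, hr, (he F Ec hF hEc r q x).mp hx⟩
      · rintro ⟨r, x, hr, rfl⟩
        obtain ⟨q, hq, hx⟩ := h5 r x hr
        rw [he F Ec hF hEc] at hx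
        rw [← hx]
        exact (mem_val hEc).mpr ⟨q, hq, rfl⟩
  · rintro ⟨D, c', g, h1, hg, hD, hDt, hc⟩
    have hF : WellFounded fun a b => g a ∈ g b := InvImage.wf g ZFSet.mem_wf
    have hval : ∀ y, val (fun a b => g a ∈ g b) y = g y := by
      intro y
      induction y using hF.induction with
      | _ y ih =>
        ext z
        rw [mem_val hF]
        constructor
        · rintro ⟨q, hq, rfl⟩
          rw [ih q hq]
          exact hq
        · intro hz
          have h2 : z ∈ D := hDt _ ((hD _).mpr ⟨y, rfl⟩) hz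
          obtain ⟨q, rfl⟩ := (hD z).mp h2
          exact ⟨q, hz, (ih q hz).symm⟩
    have hpair := val_mem_HH hE a
    rw [h1] at hpair
    have hDc : ({D, c'} : ZFSet.{0}) ∈ HH (Cardinal.mk A.Dom) := by
      refine hh_trans _ hpair _ ?_
      rw [pair, ZFSet.mem_pair]
      exact Or.inr rfl
    have hDH : D ∈ HH (Cardinal.mk A.Dom) :=
      hh_trans _ hDc _ (ZFSet.mem_pair.mpr (Or.inl rfl))
    have hcH : c' ∈ HH (Cardinal.mk A.Dom) :=
      hh_trans _ hDc _ (ZFSet.mem_pair.mpr (Or.inr rfl))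
    obtain ⟨Ed, d, hEd, rfl⟩ := exists_val hDH
    obtain ⟨Ec, c, hEc, rfl⟩ := exists_val hcH
    refine ⟨fun a b => g a ∈ g b, wfr_iff.mpr hF, ?_, Ed, Ec, d, c, wfr_iff.mpr hEd,
      wfr_iff.mpr hEc, (hp Ed Ec d c hEd hEc).mpr h1, ?_, ?_, ?_, ?_⟩
    · intro u v huv
      rw [eqc_iff hF hF, hval, hval] at huv
      exact hg huv
    · intro y
      rw [memc_iff hF hEd, hval, hD]
      exact ⟨y, rfl⟩
    · intro q hq
      have h2 : val Ed q ∈ val Ed d := (mem_val hEd).mpr ⟨q, hq, rfl⟩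
      obtain ⟨y, hy⟩ := (hD _).mp h2
      refine ⟨y, ?_⟩
      rw [eqc_iff hEd hF, hval]
      exact hy
    · intro q hq
      have h2 : val Ec q ∈ val Ec c := (mem_val hEc).mpr ⟨q, hq, rfl⟩
      obtain ⟨r, x, hr, hx⟩ := (hc _).mp h2
      refine ⟨r, x, hr, ?_⟩
      rw [he _ Ec hF hEc]
      simp only [hval]
      exact hx
    · intro r x hr
      have h2 : pair (nat r) (tp fun j => g (x j)) ∈ val Ec c := (hc _).mpr ⟨r, x, hr, rfl⟩
      obtain ⟨q, hq, hx⟩ := (mem_val hEc).mp h2
      refine ⟨q, hq, ?_⟩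
      rw [he _ Ec hF hEc]
      simp only [hval]
      exact hx.symm

/-- Truth in `H(|A|⁺)` about the codes of a structure is expressed in second-order logic. -/
theorem translation {m : ℕ} (ar : Fin m → ℕ) (φ : Fml Empty 1) : ∃ θ : SOF ar, θ.Sentence ∧
    ∀ A : Struc ar, Infinite A.Dom → (Models A θ ↔
      ∃ a ∈ HH (Cardinal.mk A.Dom), IsCode A a ∧
        Sat (HH (Cardinal.mk A.Dom)) Empty.elim φ ![a]) := by
  obtain ⟨φp, hφp⟩ := tr_d0 (ar := ar) (D0.isPair (F := fun v : Fin 3 → ZFSet.{0} => v 0)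
    (G := fun v => v 1) (H := fun v => v 2) (D0v.proj _) (D0v.proj _) (D0v.proj _))
  have hex : ∀ r : Fin m, ∃ φ : Fml Empty (ar r + 1), ∀ (A : Struc ar), Infinite A.Dom →
      ∀ (x : Fin (ar r + 1) → A.Dom)
      (E : Fin (ar r + 1) → A.Dom → A.Dom → Prop), (∀ i, WellFounded (E i)) →
      (Tr φ A x E ↔ val (E 0) (x 0) =
        pair (nat r) (tp fun j : Fin (ar r) => val (E j.succ) (x j.succ))) :=
    fun r => tr_d0 (ar := ar) (d0_entry r (ar r))
  choose φe hφe using hex
  have hS : SOD (ar := ar) Empty Empty fun A _ _ => ∃ (Ea : A.Dom → A.Dom → Prop) (a : A.Dom),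
      WFr Ea ∧ ISC φp φe A a Ea ∧ Tr φ A ![a] ![Ea] := by
    apply SOD.exR
    apply SOD.ex
    apply SOD.and (sod_WFr _)
    apply SOD.and (sod_ISC _ _ _ _)
    refine ((sod_Tr φ).comp ![none] ![none]).congr fun A x E => ?_
    have e1 : (fun t => x (![none] t)) = ![x none] := by
      funext t
      fin_cases t
      rfl
    have e2 : (fun t => E (![none] t)) = ![E none] := by
      funext t
      fin_cases t
      rfl
    rw [e1, e2]
  obtain ⟨θ, h1, h2⟩ := hS.sentence
  refine ⟨θ, h1, fun A hA => (h2 A).trans ?_⟩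
  have hval : ∀ (Ea : A.Dom → A.Dom → Prop) (a : A.Dom),
      (fun i => val ((![Ea] : Fin 1 → A.Dom → A.Dom → Prop) i) ((![a] : Fin 1 → A.Dom) i)) =
        ![val Ea a] := by
    intro Ea a
    funext t
    fin_cases t
    rfl
  have hw : ∀ (Ea : A.Dom → A.Dom → Prop), WellFounded Ea →
      ∀ i, WellFounded ((![Ea] : Fin 1 → A.Dom → A.Dom → Prop) i) := by
    intro Ea h i
    fin_cases i
    exact h
  constructor
  · rintro ⟨Ea, a, hE, h3, h4⟩
    rw [wfr_iff] at hE
    rw [isc_iff hφp hφe hA hE] at h3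
    rw [tr_iff φ (hw Ea hE), hval] at h4
    exact ⟨val Ea a, val_mem_HH hE a, h3, h4⟩
  · rintro ⟨z, hz, h3, h4⟩
    obtain ⟨Ea, a, hE, rfl⟩ := exists_val hz
    refine ⟨Ea, a, wfr_iff.mpr hE, (isc_iff hφp hφe hA hE).mpr h3, ?_⟩
    rw [tr_iff φ (hw Ea hE), hval]
    exact h4

end Pool.Agent.R587
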