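import Pool.Agent.R587.Sent
import Pool.Agent.R587.Code
import Pool.Agent.R587.Trans
import Pool.Agent.R587.LInst

/-!
# Models of the same cardinality
-/

set_option autoImplicit false

namespace Pool.Agent.R587

open Pool.Agent.W868 hiding Models
open ZFSet (pair)
open Cardinal

variable {m : ℕ} {ar : Fin m → ℕ}

section

variable {c : Cardinal.{0}} {M : Set ZFSet.{0}}

theorem Full.kd (hM : Full c M) (f : ℕ →. ℕ) (hf : Nat.Partrec f) :
    Dfn ∅ M fun v : Fin 1 → ZFSet.{0} => v 0 = gph f :=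
  kd_gph hM.base hM.omega_mem
    (fun _ hx => hM.sub (hM.prod_mem hM.omega_mem hM.omega_mem) hx) hf

/-- Truth in sets is definable. -/
theorem Full.jj (hM : Full c M) : DfnF ∅ M fun v : Fin 2 → ZFSet.{0} => JJ (v 0) (v 1) :=
  dfn_JJ hM hM.kd

/-- The number of a sentence is true of a code of a structure in which the sentence holds. -/
theorem gs_code (hM : Full c M) {A : Struc ar} {a : ZFSet.{0}} (ha : IsCode A a)
    (haM : a ∈ M) {φ : SOF ar} (hφ : φ.Sentence) :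
    GS M φ.code (asd (fs a) (sn a)) ↔ Models A φ := by
  obtain ⟨h1, h2, g, h3, h4, h5⟩ := isCode_iff.1 ha
  obtain ⟨y⟩ := A.ne
  let f : ℕ → ZFSet.{0} := fun i => if i = 0 then fs a else if i = 1 then sn a else
    if i % 3 = 2 then g y else ∅
  have hfM : fs a ∈ M := (hM.of_pair_mem (h1 ▸ haM)).1
  have e0 : f 0 = fs a := rfl
  have e1 : f 1 = sn a := rfl
  rw [models_iff hφ (fun _ => y) fun _ _ _ => False,
    ← sat_code h3 h4 h5 hM hfM φ (fun _ => y) (fun _ _ _ => False) f e0 e1]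
  · exact GS_sentence hφ (by simp [asd, f]) (by simp [asd, f])
  · intro i
    have h6 : 3 * i + 2 ≠ 0 := by omega
    have h7 : 3 * i + 2 ≠ 1 := by omega
    have h8 : (3 * i + 2) % 3 = 2 := by omega
    simp only [f, h6, h7, h8, if_true, if_false]
  · intro k i t
    have h6 : 3 * Nat.pair k i + 3 ≠ 0 := by omega
    have h7 : 3 * Nat.pair k i + 3 ≠ 1 := by omega
    have h8 : ¬ (3 * Nat.pair k i + 3) % 3 = 2 := by omega
    simp only [f, h6, h7, h8, if_false]
    constructor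
    · intro h
      exact absurd h (ZFSet.notMem_empty _)
    · rintro ⟨x, hx, -⟩
      exact hx.elim

/-- The set of the numbers `cmpn k n`, for a recursive set of numbers `n`, is definable. -/
theorem dfn_CC (hM : Full c M) {C : ℕ → Prop} (hC : ComputablePred C) (k : ℕ) :
    Dfn ∅ M fun v : Fin 1 → ZFSet.{0} => v 0 = CC C k := by
  obtain ⟨hd, hc⟩ := hC
  have hcmp : Computable (cmpn k) := by
    have h1 : Primrec (cmpn k) := by
      unfold cmpn
      exact (Primrec₂.natPair.comp (Primrec.const 8) (Primrec₂.natPair.comp (Primrec.const 0)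
        (Primrec₂.natPair.comp (Primrec.const 8) (Primrec₂.natPair.comp (Primrec.const 1)
          (Primrec₂.natPair.comp (Primrec.const 4) (Primrec₂.natPair.comp (Primrec.const k)
            Primrec.id))))))
    exact h1.to_comp
  have hf : Computable fun n : ℕ => cond (decide (C n)) (cmpn k n + 1) 0 :=
    Computable.cond hc (Computable.succ.comp hcmp) (Computable.const 0)
  have hp : Nat.Partrec (fun n : ℕ => Part.some (cond (decide (C n)) (cmpn k n + 1) 0)) :=
    Partrec.nat_iff.1 hf.partrec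
  have h1 : CC C k = ZFSet.sep (fun x => ∃ n ∈ (ZFSet.omega : ZFSet.{0}), pair n (insert x x) ∈
      gph (fun n : ℕ => Part.some (cond (decide (C n)) (cmpn k n + 1) 0))) ZFSet.omega := by
    ext x
    rw [mem_CC, ZFSet.mem_sep]
    constructor
    · rintro ⟨n, hn, rfl⟩
      refine ⟨mem_omega_iff.2 ⟨_, rfl⟩, nat n, mem_omega_iff.2 ⟨_, rfl⟩, ?_⟩
      rw [insert_nat, pair_mem_gph]
      simp [hn]
    · rintro ⟨hx, n, hn, h⟩
      obtain ⟨x, rfl⟩ := mem_omega_iff.1 hx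
      obtain ⟨n, rfl⟩ := mem_omega_iff.1 hn
      rw [insert_nat, pair_mem_gph] at h
      by_cases hn' : C n
      · refine ⟨n, hn', ?_⟩
        have h2 : x = cmpn k n := by simpa [hn'] using h
        rw [h2]
      · simp [hn'] at h
  rw [h1]
  apply Dfn.eq (DfnF.proj 0)
  refine hM.sep' (Q := fun x _ => ∃ n ∈ (ZFSet.omega : ZFSet.{0}), pair n (insert x x) ∈
      gph (fun n : ℕ => Part.some (cond (decide (C n)) (cmpn k n + 1) 0))) hM.omega' ?_
  apply hM.base.bex hM.omega'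
  exact Dfn.mem (hM.base.pair' (DfnF.proj 0) (hM.base.insert' (DfnF.proj 1) (DfnF.proj 1)))
    (gph' hM hM.kd hp)

/-- The set `a` is the least code of a structure whose size is the size of the largest sets. -/
def Chi (ar : Fin m → ℕ) (M : Set ZFSet.{0}) (lt : ZFSet.{0} → ZFSet.{0} → Prop)
    (a : ZFSet.{0}) : Prop :=
  WFc ar a ∧ (∀ x ∈ M, ∃ f ∈ M, IsInj x (fs a) f) ∧
    ∀ b ∈ M, WFc ar b → Iso2 ar M a b → ¬ lt b a

theorem chi' (hM : Full c M) {lt : ZFSet.{0} → ZFSet.{0} → Prop} (hlt : WO M lt) {n : ℕ}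
    {F : (Fin n → ZFSet.{0}) → ZFSet.{0}} (hF : DfnF ∅ M F) :
    Dfn ∅ M fun v => Chi ar M lt (F v) := by
  have hB := hM.base
  refine Dfn.comp1 (Q := Chi ar M lt) ?_ hF
  unfold Chi
  apply Dfn.and (wfc' hM (DfnF.proj 0))
  apply Dfn.and
  · apply Dfn.all
    apply Dfn.ex
    exact hB.isInj' (DfnF.proj 1) (hM.fs' (DfnF.proj 2)) (DfnF.proj 0)
  · apply Dfn.all
    apply Dfn.imp (wfc' hM (DfnF.proj 0))
    apply Dfn.imp (iso2' hM (DfnF.proj 1) (DfnF.proj 0))
    exact (Dfn.comp2 (Q := lt) hlt.dfn (DfnF.proj 0) (DfnF.proj 1)).not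

theorem fs_mem (hM : Full c M) {a : ZFSet.{0}} (haM : a ∈ M) (ha : WFc ar a) : fs a ∈ M :=
  (hM.of_pair_mem (ha.1 ▸ haM)).1

theorem isCode_iff_of_chi (hM : Full c M) {lt : ZFSet.{0} → ZFSet.{0} → Prop} (hlt : WO M lt)
    {A : Struc ar} {a b : ZFSet.{0}} (haM : a ∈ M) (hbM : b ∈ M) (ha : Chi ar M lt a)
    (hb : Chi ar M lt b) (hA : IsCode A a) (hB : IsCode A b) : a = b := by
  rcases hlt.tri a haM b hbM with h | h | h
  · exact absurd h (hb.2.2 a haM ha.1 ((iso2_iff hM hbM haM hB ha.1).2 hA))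
  · exact h
  · exact absurd h (ha.2.2 b hbM hb.1 ((iso2_iff hM haM hbM hA hb.1).2 hB))

end

section

variable {c : Cardinal.{0}} {lt : ZFSet.{0} → ZFSet.{0} → Prop}

theorem card_of_chi (hc : ℵ₀ ≤ c) {a : ZFSet.{0}} (haM : a ∈ HH c) (ha : Chi ar (HH c) lt a) :
    (fs a).card = c := by
  have hM := full_HH hc
  refine le_antisymm (hM.card (fs_mem hM haM ha.1)) ?_
  have hkM : kap c ∈ HH c := hh_of_trans hM (fun y hy z hz => ord_kap.mem_trans hz hy) card_kap.le
  obtain ⟨f, -, hf⟩ := ha.2.1 _ hkM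
  have := card_le_of_isInj hf
  rwa [card_kap] at this

/-- A structure of cardinality `c` has a least code. -/
theorem exists_chi (hc : ℵ₀ ≤ c) (hlt : WO (HH c) lt) {A : Struc ar} (hA : #A.Dom = c) :
    ∃ a ∈ HH c, IsCode A a ∧ Chi ar (HH c) lt a := by
  have hM := full_HH hc
  have hkM : kap c ∈ HH c := hh_of_trans hM (fun y hy z hz => ord_kap.mem_trans hz hy) card_kap.le
  obtain ⟨a0, h1, h2⟩ := exists_isCode A (D := kap c) (fun y hy z hz => ord_kap.mem_trans hz hy)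
    (card_kap.trans hA.symm)
  obtain ⟨a, haM, ha, hmin⟩ := hlt.wf (fun x => IsCode A x) ⟨a0, isCode_mem hM h1 (h2 ▸ hkM), h1⟩
  refine ⟨a, haM, ha, ha.wfc, fun x hx => ?_, fun b hb hb' h3 => ?_⟩
  · obtain ⟨f, hf⟩ := exists_isInj (x := x) (y := fs a) (by
      rw [ha.card, hA]
      exact hM.card hx)
    exact ⟨f, hM.sub (hM.prod_mem hx (fs_mem hM haM ha.wfc)) hf.1.1, hf⟩
  · exact hmin b hb ((iso2_iff hM haM hb ha hb').1 h3)

/-- Models of the same infinite cardinality are isomorphic. -/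
theorem same_card {T : Set (SOF ar)} (hc : CompleteT T) (hr : RecAx T) (hω : ℵ₀ ≤ c)
    (hS : Setg c (HH c) lt) {A B : Struc ar} (hA : ModelsT A T) (hB : ModelsT B T)
    (hAc : #A.Dom = c) (hBc : #B.Dom = c) : Isom A B := by
  have hM := full_HH hω
  obtain ⟨T', hT', hrec, hTT⟩ := hr
  obtain ⟨a, haM, haA, ha⟩ := exists_chi hω hS.wo hAc
  obtain ⟨b, hbM, hbB, hb⟩ := exists_chi hω hS.wo hBc
  let C : ℕ → Prop := fun n => ∃ φ ∈ T', φ.code = n
  have hCT : ∀ {A : Struc ar} {a : ZFSet.{0}}, a ∈ HH c → IsCode A a →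
      ((∀ n, C n → GS (HH c) n (asd (fs a) (sn a))) ↔ ModelsT A T) := by
    intro A a haM ha
    rw [hTT]
    constructor
    · intro h φ hφ
      exact (gs_code hM ha haM (hT' φ hφ)).1 (h _ ⟨φ, hφ, rfl⟩)
    · rintro h n ⟨φ, hφ, rfl⟩
      exact (gs_code hM ha haM (hT' φ hφ)).2 (h φ hφ)
  have key : ∀ a ∈ HH c, ∀ b ∈ HH c, Chi ar (HH c) lt a →
      (∀ n, C n → GS (HH c) n (asd (fs a) (sn a))) → Chi ar (HH c) lt b →
      (∀ n, C n → GS (HH c) n (asd (fs b) (sn b))) → ∀ R : ZFSet.{0} → Prop,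
      (Dfn ∅ (HH c) fun v : Fin 1 → ZFSet.{0} => R (v 0)) → R a → R b := by
    intro a haM b hbM ha ha' hb hb' R hR hRa
    have hcA := ha.1.isCode
    have hcB := hb.1.isCode
    have hA : ModelsT _ T := (hCT haM hcA).1 ha'
    have hB : ModelsT _ T := (hCT hbM hcB).1 hb'
    have hAc := hcA.card.symm.trans (card_of_chi hω haM ha)
    have hBc := hcB.card.symm.trans (card_of_chi hω hbM hb)
    obtain ⟨φ, hφ⟩ := dfn_iff.1 (hR.and (chi' (ar := ar) hM hS.wo (DfnF.proj 0)))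
    obtain ⟨θ, hθ, hθ'⟩ := translation ar φ
    have h1 : Models (dst ar a ha.1.2.2.1) θ := by
      rw [hθ' _ (Cardinal.infinite_iff.2 (hω.trans hAc.ge)), hAc]
      refine ⟨a, haM, hcA, (hφ ![a] fun i => ?_).2 ⟨hRa, ha⟩⟩
      fin_cases i
      exact haM
    have h2 := (hc.iff hθ hA hB).1 h1
    rw [hθ' _ (Cardinal.infinite_iff.2 (hω.trans hBc.ge)), hBc] at h2
    obtain ⟨b', hb'M, h3, h4⟩ := h2
    obtain ⟨h5, h6⟩ := (hφ ![b'] fun i => by
      fin_cases i
      exact hb'M).1 h4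
    have h7 : b' = b := isCode_iff_of_chi hM hS.wo hb'M hbM h6 hb h3 hcB
    rw [← h7]
    exact h5
  have hab : a = b := by
    refine hS.unique gs_fml (χ := Chi ar (HH c) lt) (chi' hM hS.wo (DfnF.proj 0))
      (C := C) (fun k => dfn_CC hM hrec k) ?_ (fun x _ hx => hx.1.1) ?_
      haM ha ((hCT haM haA).2 hA) hbM hb ((hCT hbM hbB).2 hB)
    · rintro n ⟨φ, hφ, rfl⟩ f g h0 h1
      exact GS_sentence (hT' φ hφ) h0 h1
    · intro a haM b hbM ha ha' hb hb' R hR
      exact ⟨key a haM b hbM ha ha' hb hb' R hR, key b hbM a haM hb hb' ha ha' R hR⟩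
  subst hab
  exact haA.isom hbB

end

end Pool.Agent.R587
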