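import Pool.Agent.R587.CoDefs
import Pool.Agent.R587.Same
import Pool.Agent.R587.Cmp

/-!
# Homeomorphisms between sets of codes move only countably many points
-/

set_option autoImplicit false

namespace Pool.Agent.R587

open Pool.Agent.W868 hiding Models
open ZFSet (pair)
open Cardinal

/-! ### Sets of pairs of numbers -/

/-- A pair of numbers, as a set. -/
noncomputable def hp (p : ℕ × ℕ) : ZFSet.{0} := pair (nat p.1) (nat p.2)

theorem hp_inj {p q : ℕ × ℕ} (h : hp p = hp q) : p = q := by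
  obtain ⟨h1, h2⟩ := ZFSet.pair_inj.1 h
  exact Prod.ext (nat_injective h1) (nat_injective h2)

theorem mem_toS {x : ℕ × ℕ → Bool} {p : ZFSet.{0}} : p ∈ toS x ↔ ∃ q, x q = true ∧ p = hp q := by
  rw [toS, ZFSet.mem_range]
  constructor
  · rintro ⟨⟨q, hq⟩, rfl⟩
    exact ⟨q, hq, rfl⟩
  · rintro ⟨q, hq, rfl⟩
    exact ⟨⟨q, hq⟩, rfl⟩

theorem hp_mem_toS {x : ℕ × ℕ → Bool} {q : ℕ × ℕ} : hp q ∈ toS x ↔ x q = true := by
  rw [mem_toS]
  constructor
  · rintro ⟨q', h, h'⟩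
    rw [hp_inj h']
    exact h
  · intro h
    exact ⟨q, h, rfl⟩

theorem toS_injective : Function.Injective toS := by
  intro x y h
  funext q
  rw [Bool.eq_iff_iff, ← hp_mem_toS, ← hp_mem_toS, h]

theorem cdr_eq {N : ZFSet.{0}} {p : ℕ × ℕ} :
    cdr N p = true ↔ da N (nat p.1) ∈ da N (nat p.2) := by
  simp [cdr]

theorem countable_mem {x : ZFSet.{0}} (h : x.card ≤ ℵ₀) : {y | y ∈ x}.Countable := by
  have h1 : Countable (Shrink.{0} x) := Cardinal.mk_le_aleph0_iff.1 h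
  have h2 : Countable x := (equivShrink x).injective.countable
  exact Set.countable_coe_iff.1 h2

theorem hc_range {ι : Type} [Countable ι] {f : ι → ZFSet.{0}} (h : ∀ i, f i ∈ HH ℵ₀) :
    ZFSet.range f ∈ HH ℵ₀ := by
  refine ((full_HH le_rfl).iff _).2 ⟨?_, ?_⟩
  · intro y hy
    obtain ⟨i, rfl⟩ := ZFSet.mem_range.1 hy
    exact h i
  · exact (card_range_le f).trans Cardinal.mk_le_aleph0

theorem hp_mem_hc (p : ℕ × ℕ) : hp p ∈ HH ℵ₀ :=
  (full_HH le_rfl).pair_mem ((full_HH le_rfl).nat_mem _) ((full_HH le_rfl).nat_mem _)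

theorem toS_mem_hc (x : ℕ × ℕ → Bool) : toS x ∈ HH ℵ₀ := hc_range fun _ => hp_mem_hc _

/-! ### The definable elements -/

theorem da_eq {N n y : ZFSet.{0}} (hy : y ∈ N) (h : ∀ z ∈ N, (n ∈ JJ N z ↔ z = y)) :
    da N n = y := by
  have h1 : ZFSet.sep (fun y => n ∈ JJ N y ∧ ∀ z ∈ N, n ∈ JJ N z → z = y) N = {y} := by
    ext z
    rw [ZFSet.mem_sep, ZFSet.mem_singleton]
    constructor
    · rintro ⟨h1, h2, -⟩
      exact (h z h1).1 h2
    · rintro rfl
      exact ⟨hy, (h z hy).2 rfl, fun w hw h2 => (h w hw).1 h2⟩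
  rw [da, h1, ZFSet.sUnion_singleton]

theorem da_none {N n : ZFSet.{0}} (h : ¬ ∃ y ∈ N, ∀ z ∈ N, (n ∈ JJ N z ↔ z = y)) :
    da N n = ∅ := by
  have h1 : ZFSet.sep (fun y => n ∈ JJ N y ∧ ∀ z ∈ N, n ∈ JJ N z → z = y) N = ∅ := by
    rw [ZFSet.eq_empty]
    intro z hz
    obtain ⟨h1, h2, h3⟩ := ZFSet.mem_sep.1 hz
    refine h ⟨z, h1, fun w hw => ⟨h3 w hw, ?_⟩⟩
    rintro rfl
    exact h2
  rw [da, h1, ZFSet.sUnion_empty]

theorem da_mem {N n : ZFSet.{0}} (h0 : ∅ ∈ N) : da N n ∈ N := by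
  by_cases h : ∃ y ∈ N, ∀ z ∈ N, (n ∈ JJ N z ↔ z = y)
  · obtain ⟨y, hy, h1⟩ := h
    rw [da_eq hy h1]
    exact hy
  · rw [da_none h]
    exact h0

/-- The natural numbers have definition numbers. -/
theorem exists_kn (n : ℕ) : ∃ k : ℕ, ∀ N : ZFSet.{0}, (∀ x ∈ N, ∀ y ∈ x, y ∈ N) → nat n ∈ N →
    da N (nat k) = nat n := by
  obtain ⟨φ, hφ⟩ := D0.isNat (D0v.proj (0 : Fin 1)) n
  obtain ⟨k, hk⟩ := fml_gsC φ ![4]
  refine ⟨k, fun N hN hn => da_eq hn fun z hz => ?_⟩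
  have h1 : nat k ∈ JJ N z ↔ GS {x | x ∈ N} k (asg z) := nat_mem_JS
  rw [h1, hk]
  have h2 : (fun i => asg z ((![4] : Fin 1 → ℕ) i)) = ![z] := by
    funext i
    fin_cases i
    simp [asg]
  rw [h2]
  exact hφ {x | x ∈ N} hN ![z] (by
    intro i
    fin_cases i
    exact hz)

/-- The diagonal function, as a code. -/
noncomputable def cdg : ZFSet.{0} := ZFSet.range fun n : ℕ =>
  pair (nat n) (pair ∅ {hp ((exists_kn n).choose, n)})

theorem cdg_mem_hc : cdg ∈ HH ℵ₀ := by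
  have hM := full_HH le_rfl
  refine hc_range fun n => hM.pair_mem (hM.nat_mem n) (hM.pair_mem hM.empty_mem
    (hM.single_mem (hp_mem_hc _)))

theorem sub_fs_snd {N a b : ZFSet.{0}} (hN : ∀ x ∈ N, ∀ y ∈ x, y ∈ N) (h : pair a b ∈ N) :
    a ∈ N ∧ b ∈ N := by
  have h1 : ({a, b} : ZFSet.{0}) ∈ N := hN _ h _ (by simp [ZFSet.pair])
  exact ⟨hN _ h1 _ (by simp), hN _ h1 _ (by simp)⟩

theorem mem_ApR {c x u : ZFSet.{0}} :
    u ∈ ApR c x ↔ ∃ p q, pair u (pair p q) ∈ c ∧ p ⊆ x ∧ ∀ z ∈ q, z ∉ x := by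
  rw [ApR, ZFSet.mem_sep]
  refine and_iff_right_of_imp ?_
  rintro ⟨p, q, h, -⟩
  rw [ZFSet.mem_sUnion]
  refine ⟨{u}, ?_, ZFSet.mem_singleton.2 rfl⟩
  rw [ZFSet.mem_sUnion]
  exact ⟨_, h, by simp [ZFSet.pair]⟩

/-- Levels do not contain their codes. -/
theorem Sx.diag {N : ZFSet.{0}} (h : Sx N) (hc : cdg ∈ N) : XX N ∉ N := by
  intro hX
  have hD := h.ap _ hc _ hX
  obtain ⟨j, hj⟩ := h.ptw _ hD
  have hnat : ∀ n : ℕ, nat n ∈ N := by
    intro n
    have h1 : pair (nat n) (pair ∅ {hp ((exists_kn n).choose, n)}) ∈ N :=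
      h.trans _ hc _ (ZFSet.mem_range.2 ⟨n, rfl⟩)
    exact (sub_fs_snd h.trans h1).1
  have key : nat j ∈ ApR cdg (XX N) ↔ nat j ∉ ApR cdg (XX N) := by
    conv_lhs => rw [mem_ApR]
    have hk := (exists_kn j).choose_spec N h.trans (hnat j)
    have h1 : hp ((exists_kn j).choose, j) ∈ XX N ↔ nat j ∈ ApR cdg (XX N) := by
      rw [XX, hp_mem_toS, cdr_eq]
      show da N (nat (exists_kn j).choose) ∈ da N (nat j) ↔ _
      rw [hk, ← hj]
      exact Iff.rfl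
    rw [← h1]
    constructor
    · rintro ⟨p, q, h2, -, h3⟩
      obtain ⟨n, hn⟩ := ZFSet.mem_range.1 h2
      obtain ⟨h4, h5⟩ := ZFSet.pair_inj.1 hn
      obtain ⟨-, rfl⟩ := ZFSet.pair_inj.1 h5
      obtain rfl := nat_injective h4
      exact h3 _ (ZFSet.mem_singleton.2 rfl)
    · intro h2
      refine ⟨∅, {hp ((exists_kn j).choose, j)}, ZFSet.mem_range.2 ⟨j, rfl⟩, ?_, ?_⟩
      · intro z hz
        exact absurd hz (ZFSet.notMem_empty z)
      · intro z hz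
        rw [ZFSet.mem_singleton.1 hz]
        exact h2
  exact iff_not_self key

/-! ### Comparison -/

theorem Sx.eqLv {N : ZFSet.{0}} (h : Sx N) : N = Lv ∅ (onn N) := lev_of_psi h.trans h.lev

theorem Sx.mem_of_onn {N N' : ZFSet.{0}} (h : Sx N) (h' : Sx N') (ho : onn N ∈ onn N') :
    N ∈ N' := by
  obtain ⟨h1, h2⟩ := mem_onn.1 ho
  obtain ⟨f, hf, -, h3, -⟩ := psi_level (X := {x | x ∈ N'}) h'.trans h'.lev h1 h2
  have h4 := (sub_fs_snd h'.trans (h'.trans _ hf _ h3)).2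
  rwa [← h.eqLv] at h4

theorem Sx.cmp {N N' : ZFSet.{0}} (h : Sx N) (h' : Sx N') (hne : N ≠ N') : N ∈ N' ∨ N' ∈ N := by
  rcases (isOrdinal_onn h.trans).mem_trichotomous (isOrdinal_onn h'.trans) with h1 | h1 | h1
  · exact Or.inl (h.mem_of_onn h' h1)
  · exfalso
    apply hne
    rw [h.eqLv, h'.eqLv, h1]
  · exact Or.inr (h'.mem_of_onn h h1)

/-- All but countably many levels contain a given hereditarily countable set. -/
theorem countable_miss (hV : VLv) {c : ZFSet.{0}} (hc : c ∈ HH ℵ₀) :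
    {x : ℕ × ℕ → Bool | ∃ N, Sx N ∧ x = cdr N ∧ c ∉ N}.Countable := by
  obtain ⟨f, hf, hp⟩ := exists_psi hV le_rfl hc
  obtain ⟨ξ, X, h1, h2, h3⟩ := hp.spec
  have hM := full_HH le_rfl
  have hξ : ξ ∈ HH ℵ₀ := (hM.of_pair_mem (hM.trans hf h1)).1
  refine ((countable_mem (hM.card hξ)).image fun o => cdr (Lv ∅ o)).mono ?_
  rintro x ⟨N, hN, rfl, hcN⟩
  refine ⟨onn N, ?_, ?_⟩
  · have ho := isOrdinal_onn hN.trans
    rcases ho.mem_trichotomous h2 with h4 | h4 | h4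
    · exact h4
    · exfalso
      apply hcN
      rw [hN.eqLv, h4]
      exact h3
    · exfalso
      apply hcN
      rw [hN.eqLv]
      exact Lv_subset h4 h3
  · show cdr (Lv ∅ (onn N)) = cdr N
    rw [← hN.eqLv]

/-! ### Codes of continuous functions -/

/-- A finite set of pairs of numbers, as a set. -/
noncomputable def hs (F : Finset (ℕ × ℕ)) : ZFSet.{0} := toS fun q => decide (q ∈ F)

theorem mem_hs {F : Finset (ℕ × ℕ)} {p : ZFSet.{0}} : p ∈ hs F ↔ ∃ q ∈ F, p = hp q := by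
  rw [hs, mem_toS]
  exact exists_congr fun q => and_congr_left fun _ => decide_eq_true_iff

/-- The triples of a function `f` on a set `A`. -/
def Trp (A : Set (ℕ × ℕ → Bool)) (f : A → (ℕ × ℕ → Bool))
    (t : (ℕ × ℕ) × Finset (ℕ × ℕ) × Finset (ℕ × ℕ)) : Prop :=
  ∀ x : A, (∀ i ∈ t.2.1, x.1 i = true) → (∀ i ∈ t.2.2, x.1 i = false) → f x t.1 = true

/-- The code of a function. -/
noncomputable def cof (A : Set (ℕ × ℕ → Bool)) (f : A → (ℕ × ℕ → Bool)) : ZFSet.{0} :=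
  ZFSet.range fun t : {t : (ℕ × ℕ) × Finset (ℕ × ℕ) × Finset (ℕ × ℕ) // Trp A f t} =>
    pair (hp t.1.1) (pair (hs t.1.2.1) (hs t.1.2.2))

theorem cof_mem_hc (A : Set (ℕ × ℕ → Bool)) (f : A → (ℕ × ℕ → Bool)) : cof A f ∈ HH ℵ₀ := by
  have hM := full_HH le_rfl
  exact hc_range fun t => hM.pair_mem (hp_mem_hc _) (hM.pair_mem (toS_mem_hc _) (toS_mem_hc _))

theorem ApR_cof {A : Set (ℕ × ℕ → Bool)} {f : A → (ℕ × ℕ → Bool)} (hf : Continuous f) (x : A) :
    ApR (cof A f) (toS x.1) = toS (f x) := by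
  ext u
  rw [mem_ApR, mem_toS]
  constructor
  · rintro ⟨p, q, h1, h2, h3⟩
    obtain ⟨⟨t, ht⟩, h4⟩ := ZFSet.mem_range.1 h1
    obtain ⟨rfl, h5⟩ := ZFSet.pair_inj.1 h4
    obtain ⟨rfl, rfl⟩ := ZFSet.pair_inj.1 h5
    refine ⟨t.1, ht x ?_ ?_, rfl⟩
    · intro i hi
      exact hp_mem_toS.1 (h2 (mem_hs.2 ⟨i, hi, rfl⟩))
    · intro i hi
      have h6 := h3 _ (mem_hs.2 ⟨i, hi, rfl⟩)
      rw [hp_mem_toS, Bool.not_eq_true] at h6
      exact h6
  · rintro ⟨t, ht, rfl⟩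
    have h1 : IsOpen {y : A | f y t = true} := by
      have h2 : Continuous fun y : A => f y t := (continuous_apply t).comp hf
      exact (isOpen_discrete {true}).preimage h2
    obtain ⟨O, hO, hO'⟩ := isOpen_induced_iff.1 h1
    have hxO : x.1 ∈ O := by
      have : x ∈ (Subtype.val ⁻¹' O : Set A) := by
        rw [hO']
        exact ht
      exact this
    obtain ⟨I, v, hv, hI⟩ := isOpen_pi_iff.1 hO x.1 hxO
    refine ⟨hs (I.filter fun i => x.1 i = true), hs (I.filter fun i => x.1 i = false),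
      ZFSet.mem_range.2 ⟨⟨(t, I.filter fun i => x.1 i = true, I.filter fun i => x.1 i = false),
        ?_⟩, rfl⟩, ?_, ?_⟩
    · intro y h2 h3
      have h4 : y ∈ (Subtype.val ⁻¹' O : Set A) := by
        refine hI fun i hi => ?_
        have h5 : y.1 i = x.1 i := by
          rcases h6 : x.1 i with _ | _
          · exact h3 i (Finset.mem_filter.2 ⟨hi, h6⟩)
          · exact h2 i (Finset.mem_filter.2 ⟨hi, h6⟩)
        rw [h5]
        exact (hv i hi).2
      rw [hO'] at h4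
      exact h4
    · intro z hz
      obtain ⟨q, hq, rfl⟩ := mem_hs.1 hz
      exact hp_mem_toS.2 (Finset.mem_filter.1 hq).2
    · intro z hz
      obtain ⟨q, hq, rfl⟩ := mem_hs.1 hz
      rw [hp_mem_toS, (Finset.mem_filter.1 hq).2]
      exact Bool.false_ne_true

/-- Homeomorphisms between sets of codes move only countably many points. -/
theorem RX_rigid (hV : VLv) {A B : Set (ℕ × ℕ → Bool)} (hA : A ⊆ RX) (hB : B ⊆ RX)
    (f : A ≃ₜ B) : {x | ∃ h : x ∈ A, (f ⟨x, h⟩ : ℕ × ℕ → Bool) ≠ x}.Countable := by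
  have hf : Continuous fun a : A => (f a : ℕ × ℕ → Bool) := continuous_subtype_val.comp f.continuous
  have hg : Continuous fun b : B => (f.symm b : ℕ × ℕ → Bool) :=
    continuous_subtype_val.comp f.symm.continuous
  refine (((countable_miss hV cdg_mem_hc).union (countable_miss hV (cof_mem_hc A
    fun a : A => (f a : ℕ × ℕ → Bool)))).union (countable_miss hV (cof_mem_hc B
      fun b : B => (f.symm b : ℕ × ℕ → Bool)))).mono ?_
  rintro x ⟨hxA, hx⟩
  obtain ⟨N, hN, rfl⟩ := hA hxA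
  obtain ⟨N', hN', hx'⟩ := hB (f ⟨cdr N, hxA⟩).2
  by_contra hcon
  simp only [Set.mem_union, Set.mem_setOf_eq, not_or] at hcon
  obtain ⟨⟨h1, h2⟩, h3⟩ := hcon
  have h1' : cdg ∈ N := by
    by_contra h
    exact h1 ⟨N, hN, rfl, h⟩
  have h2' : cof A (fun a : A => (f a : ℕ × ℕ → Bool)) ∈ N := by
    by_contra h
    exact h2 ⟨N, hN, rfl, h⟩
  have h3' : cof B (fun b : B => (f.symm b : ℕ × ℕ → Bool)) ∈ N := by
    by_contra h
    exact h3 ⟨N, hN, rfl, h⟩
  have hne : N ≠ N' := by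
    rintro rfl
    exact hx hx'
  rcases hN.cmp hN' hne with h4 | h4
  · have h5 := hN'.code N h4 hN.trans hN.emp
    have h6 := hN'.ap _ (hN'.trans _ h4 _ h2') _ h5
    have h7 : ApR (cof A fun a : A => (f a : ℕ × ℕ → Bool)) (XX N) = XX N' := by
      have h8 := ApR_cof hf ⟨cdr N, hxA⟩
      rw [hx'] at h8
      exact h8
    rw [h7] at h6
    exact hN'.diag (hN'.trans _ h4 _ h1') h6
  · have h5 := hN.code N' h4 hN'.trans hN'.emp
    have h6 := hN.ap _ h3' _ h5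
    have h7 : ApR (cof B fun b : B => (f.symm b : ℕ × ℕ → Bool)) (XX N') = XX N := by
      have h8 := ApR_cof hg (f ⟨cdr N, hxA⟩)
      rw [f.symm_apply_apply, hx'] at h8
      exact h8
    rw [h7] at h6
    exact hN.diag h1' h6

/-! ### The continuum hypothesis -/

theorem card_of_uncountable (hV : VLv) {A : Set (ℕ × ℕ → Bool)} (hA : ¬ A.Countable) :
    #A = 𝔠 := by
  have hS := (hV.lcls le_rfl (full_HH le_rfl).jj).setg
  obtain ⟨N0, h1, h2⟩ := exists_N0_of_setg hS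
  have h3 : #(ℕ × ℕ → Bool) ≤ Order.succ ℵ₀ := by
    refine le_trans ?_ h2
    rw [ZFSet.card]
    refine Cardinal.mk_le_of_injective (f := fun x : ℕ × ℕ → Bool =>
      equivShrink N0 ⟨toS x, (h1 _).2 (toS_mem_hc x)⟩) ?_
    intro x y h
    have h4 := (equivShrink N0).injective h
    exact toS_injective (congrArg Subtype.val h4)
  have h4 : #(ℕ × ℕ → Bool) = 𝔠 := by simp
  refine le_antisymm ?_ ?_
  · rw [← h4]
    exact Cardinal.mk_subtype_le A
  · rw [← h4]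
    refine h3.trans (Order.succ_le_of_lt ?_)
    rw [← not_le]
    intro h5
    exact hA (Cardinal.le_aleph0_iff_set_countable.1 h5)

end Pool.Agent.R587
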