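import Pool.Agent.R587.CoR

/-!
# There are uncountably many codes
-/

set_option autoImplicit false

namespace Pool.Agent.R587

open Pool.Agent.W868 hiding Models
open ZFSet (pair)
open Cardinal

/-! ### Absolute forms -/

/-- Transitive sets that contain the empty set. -/
def TrN (K : ZFSet.{0}) : Prop := (∀ x ∈ K, ∀ y ∈ x, y ∈ K) ∧ ∅ ∈ K

theorem D0.isEmp {n : ℕ} {F : (Fin n → ZFSet.{0}) → ZFSet.{0}} (hF : D0v F) :
    D0 fun v => F v = ∅ := D0.isNat hF 0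

theorem d0_TrN : D0 fun v : Fin 1 → ZFSet.{0} => TrN (v 0) := by
  have h : D0 fun v : Fin 1 → ZFSet.{0} => (∀ x ∈ v 0, ∀ y ∈ x, y ∈ v 0) ∧ ∃ e ∈ v 0, e = ∅ := by
    apply D0.and
    · apply D0.ball (D0v.proj 0)
      apply D0.ball (D0v.proj 0)
      exact D0.mem (D0v.proj 0) (D0v.proj 2)
    · apply D0.bex (D0v.proj 0)
      exact D0.isEmp (D0v.proj 0)
  refine h.congr fun v => ?_
  rw [TrN]
  refine and_congr_right fun _ => ?_
  constructor
  · rintro ⟨e, he, rfl⟩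
    exact he
  · intro h
    exact ⟨∅, h, rfl⟩

theorem jjd (k : ℕ) : ∃ φ : Fml Empty 1, ∀ K : ZFSet.{0}, TrN K → ∀ z ∈ K,
    (Sat {x | x ∈ K} Empty.elim φ ![z] ↔ nat k ∈ JJ K z) := by
  obtain ⟨φ, hφ⟩ := gs_fml k
  refine ⟨φ, fun K hK z hz => (hφ {x | x ∈ K} hK.1 hK.2 z hz).trans ?_⟩
  exact (nat_mem_JS (N := {x | x ∈ K}) (b := z)).symm

/-- `y` is the element with number `k`. -/
theorem d0_da (k : ℕ) : ∃ R : (Fin 2 → ZFSet.{0}) → Prop, D0 R ∧ ∀ K, TrN K → ∀ y,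
    (R ![K, y] ↔ y = da K (nat k)) := by
  obtain ⟨φ, hφ⟩ := jjd k
  have hs : D0 fun w : Fin 2 → ZFSet.{0} => Sat {x | x ∈ w 0} Empty.elim φ (Fin.tail w) :=
    D0.relSat φ
  have hR : D0 fun v : Fin 2 → ZFSet.{0} =>
      (v 1 ∈ v 0 ∧ ∀ z ∈ v 0, (Sat {x | x ∈ v 0} Empty.elim φ ![z] ↔ z = v 1)) ∨
      (v 1 = ∅ ∧ ¬ ∃ y ∈ v 0, ∀ z ∈ v 0, (Sat {x | x ∈ v 0} Empty.elim φ ![z] ↔ z = y)) := by
    apply D0.or
    · apply D0.and (D0.mem (D0v.proj 1) (D0v.proj 0))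
      apply D0.ball (Q := fun z v => Sat {x | x ∈ v 0} Empty.elim φ ![z] ↔ z = v 1) (D0v.proj 0)
      apply D0.iff
      · refine (hs.comp ![1, 0]).congr fun w => ?_
        have h : (Fin.tail fun i => w ((![1, 0] : Fin 2 → Fin 3) i)) = ![w 0] := by
          funext i
          fin_cases i
          rfl
        rw [h]
        rfl
      · exact D0.eq (D0v.proj 0) (D0v.proj 2)
    · apply D0.and (D0.isEmp (D0v.proj 1))
      apply D0.not
      apply D0.bex (Q := fun y v => ∀ z ∈ v 0, (Sat {x | x ∈ v 0} Empty.elim φ ![z] ↔ z = y))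
        (D0v.proj 0)
      apply D0.ball (Q := fun z v => Sat {x | x ∈ Fin.tail v 0} Empty.elim φ ![z] ↔ z = v 0)
        (D0v.proj 1)
      apply D0.iff
      · refine (hs.comp ![2, 0]).congr fun w => ?_
        have h : (Fin.tail fun i => w ((![2, 0] : Fin 2 → Fin 4) i)) = ![w 0] := by
          funext i
          fin_cases i
          rfl
        rw [h]
        rfl
      · exact D0.eq (D0v.proj 0) (D0v.proj 1)
  refine ⟨_, hR, fun K hK y => ?_⟩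
  show ((y ∈ K ∧ ∀ z ∈ K, (Sat {x | x ∈ K} Empty.elim φ ![z] ↔ z = y)) ∨
    (y = ∅ ∧ ¬ ∃ y ∈ K, ∀ z ∈ K, (Sat {x | x ∈ K} Empty.elim φ ![z] ↔ z = y))) ↔ _
  have h1 : ∀ y, (∀ z ∈ K, (Sat {x | x ∈ K} Empty.elim φ ![z] ↔ z = y)) ↔
      ∀ z ∈ K, (nat k ∈ JJ K z ↔ z = y) := fun y =>
    forall₂_congr fun z hz => by rw [hφ K hK z hz]
  simp only [h1]
  constructor
  · rintro (⟨h2, h3⟩ | ⟨rfl, h2⟩)
    · exact (da_eq h2 h3).symm
    · exact (da_none h2).symm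
  · intro h2
    by_cases h3 : ∃ y ∈ K, ∀ z ∈ K, (nat k ∈ JJ K z ↔ z = y)
    · obtain ⟨y', h4, h5⟩ := h3
      rw [da_eq h4 h5] at h2
      subst h2
      exact Or.inl ⟨h4, h5⟩
    · rw [da_none h3] at h2
      exact Or.inr ⟨h2, h3⟩

/-- The code is absolute. -/
theorem d0_cdr (q : ℕ × ℕ) : ∃ R : (Fin 1 → ZFSet.{0}) → Prop, D0 R ∧ ∀ K, TrN K →
    (R ![K] ↔ cdr K q = true) := by
  obtain ⟨R1, h1, h2⟩ := d0_da q.1
  obtain ⟨R2, h3, h4⟩ := d0_da q.2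
  have hR : D0 fun v : Fin 1 → ZFSet.{0} => ∃ y ∈ v 0, ∃ z ∈ v 0, y ∈ z ∧ R1 ![v 0, y] ∧
      R2 ![v 0, z] := by
    apply D0.bex (Q := fun y v => ∃ z ∈ v 0, y ∈ z ∧ R1 ![v 0, y] ∧ R2 ![v 0, z]) (D0v.proj 0)
    apply D0.bex (Q := fun z v => v 0 ∈ z ∧ R1 ![v 1, v 0] ∧ R2 ![v 1, z]) (D0v.proj 1)
    apply D0.and (D0.mem (D0v.proj 1) (D0v.proj 0))
    apply D0.and
    · refine (h1.comp ![2, 1]).congr fun w => ?_
      have h : (fun i => w ((![2, 1] : Fin 2 → Fin 3) i)) = ![w 2, w 1] := by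
        funext i
        fin_cases i <;> rfl
      rw [h]
      rfl
    · refine (h3.comp ![2, 0]).congr fun w => ?_
      have h : (fun i => w ((![2, 0] : Fin 2 → Fin 3) i)) = ![w 2, w 0] := by
        funext i
        fin_cases i <;> rfl
      rw [h]
      rfl
  refine ⟨_, hR, fun K hK => ?_⟩
  show (∃ y ∈ K, ∃ z ∈ K, y ∈ z ∧ R1 ![K, y] ∧ R2 ![K, z]) ↔ _
  rw [cdr_eq]
  constructor
  · rintro ⟨y, -, z, -, h5, h6, h7⟩
    rwa [(h2 K hK y).1 h6, (h4 K hK z).1 h7] at h5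
  · intro h5
    exact ⟨_, da_mem hK.2, _, da_mem hK.2, h5, (h2 K hK _).2 rfl, (h4 K hK _).2 rfl⟩

/-- The values of the functions are absolute. -/
theorem d0_ApR : D0 fun v : Fin 3 → ZFSet.{0} => v 0 = ApR (v 1) (v 2) := by
  have h : D0 fun v : Fin 3 → ZFSet.{0} =>
      (∀ u ∈ v 0, ∃ w ∈ v 1, ∃ u' r, w = pair u' r ∧ ∃ p q, r = pair p q ∧ u = u' ∧ p ⊆ v 2 ∧
        ∀ z ∈ q, z ∉ v 2) ∧
      ∀ w ∈ v 1, ¬ ∃ u r, w = pair u r ∧ ∃ p q, r = pair p q ∧ u ∉ v 0 ∧ p ⊆ v 2 ∧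
        ∀ z ∈ q, z ∉ v 2 := by
    apply D0.and
    · apply D0.ball (D0v.proj 0)
      apply D0.bex (D0v.proj 2)
      apply D0.expair (D0v.proj 0)
      apply D0.expair (D0v.proj 0)
      apply D0.and (D0.eq (D0v.proj 5) (D0v.proj 3))
      apply D0.and (D0.subset (D0v.proj 1) (D0v.proj 8))
      apply D0.ball (D0v.proj 0)
      exact (D0.mem (D0v.proj 0) (D0v.proj 9)).not
    · apply D0.ball (D0v.proj 1)
      apply D0.not
      apply D0.expair (D0v.proj 0)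
      apply D0.expair (D0v.proj 0)
      apply D0.and (D0.mem (D0v.proj 3) (D0v.proj 5)).not
      apply D0.and (D0.subset (D0v.proj 1) (D0v.proj 7))
      apply D0.ball (D0v.proj 0)
      exact (D0.mem (D0v.proj 0) (D0v.proj 8)).not
  refine h.congr fun v => ?_
  constructor
  · rintro ⟨h1, h2⟩
    ext u
    rw [mem_ApR]
    constructor
    · intro hu
      obtain ⟨w, hw, u', r, rfl, p, q, rfl, rfl, h3, h4⟩ := h1 u hu
      exact ⟨p, q, hw, h3, h4⟩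
    · rintro ⟨p, q, hw, h3, h4⟩
      by_contra h5
      exact h2 _ hw ⟨u, _, rfl, p, q, rfl, h5, h3, h4⟩
  · intro h1
    constructor
    · intro u hu
      rw [h1, mem_ApR] at hu
      obtain ⟨p, q, hw, h3, h4⟩ := hu
      exact ⟨_, hw, u, _, rfl, p, q, rfl, rfl, h3, h4⟩
    · rintro w hw ⟨u, r, rfl, p, q, rfl, h5, h3, h4⟩
      apply h5
      rw [h1, mem_ApR]
      exact ⟨p, q, hw, h3, h4⟩

/-! ### Definability -/

section

variable {c : Cardinal.{0}} {M : Set ZFSet.{0}} {n : ℕ} {F G : (Fin n → ZFSet.{0}) → ZFSet.{0}}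

theorem Full.da' (hM : Full c M) (hF : DfnF ∅ M F) (hG : DfnF ∅ M G) :
    DfnF ∅ M fun v => da (F v) (G v) := by
  have hJ : ∀ {n : ℕ} {F G : (Fin n → ZFSet.{0}) → ZFSet.{0}}, DfnF ∅ M F → DfnF ∅ M G →
      DfnF ∅ M fun v => JJ (F v) (G v) := fun hF hG => DfnF.comp2 (f := JJ) hM.jj hF hG
  refine hM.base.sUnion' (hM.sep' (Q := fun y v => G v ∈ JJ (F v) y ∧
    ∀ z ∈ F v, G v ∈ JJ (F v) z → z = y) hF ?_)
  apply Dfn.and
  · exact Dfn.mem hG.tail (hJ hF.tail (DfnF.proj 0))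
  · apply hM.base.ball hF.tail
    apply Dfn.imp
    · exact Dfn.mem hG.tail.tail (hJ hF.tail.tail (DfnF.proj 0))
    · exact Dfn.eq (DfnF.proj 0) (DfnF.proj 1)

theorem XX_eq (K : ZFSet.{0}) : XX K = ZFSet.sep (fun p => da K (fs p) ∈ da K (sn p))
    (ZFSet.prod ZFSet.omega ZFSet.omega) := by
  ext p
  rw [XX, mem_toS, ZFSet.mem_sep, ZFSet.mem_prod]
  constructor
  · rintro ⟨q, hq, rfl⟩
    refine ⟨⟨_, nat_mem_omega _, _, nat_mem_omega _, rfl⟩, ?_⟩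
    rw [hp, fs_pair, sn_pair]
    exact cdr_eq.1 hq
  · rintro ⟨⟨a, ha, b, hb, rfl⟩, h⟩
    obtain ⟨i, rfl⟩ := mem_omega_iff.1 ha
    obtain ⟨j, rfl⟩ := mem_omega_iff.1 hb
    rw [fs_pair, sn_pair] at h
    exact ⟨(i, j), cdr_eq.2 h, rfl⟩

theorem Full.XX' (hM : Full c M) (hF : DfnF ∅ M F) : DfnF ∅ M fun v => XX (F v) := by
  have h : DfnF ∅ M fun v => ZFSet.sep (fun p => da (F v) (fs p) ∈ da (F v) (sn p))
      (ZFSet.prod ZFSet.omega ZFSet.omega) := by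
    refine hM.sep' (Q := fun p v => da (F v) (fs p) ∈ da (F v) (sn p))
      (hM.prod' hM.omega' hM.omega') ?_
    exact Dfn.mem (hM.da' hF.tail (hM.fs' (DfnF.proj 0))) (hM.da' hF.tail (hM.sn' (DfnF.proj 0)))
  exact h.congr fun v _ => (XX_eq _).symm

theorem Full.ApR_mem (hM : Full c M) {a x : ZFSet.{0}} (ha : a ∈ M) : ApR a x ∈ M :=
  hM.sep_mem (hM.base.union _ (hM.base.union _ ha))

theorem Full.ApR' (hM : Full c M) (hF : DfnF ∅ M F) (hG : DfnF ∅ M G) :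
    DfnF ∅ M fun v => ApR (F v) (G v) := by
  refine DfnF.comp2 (f := ApR) ⟨fun v hv => hM.ApR_mem (hv 0), ?_⟩ hF hG
  have h := d0_ApR.dfn (S := ∅) hM.base.trans
  refine (h.congr fun v _ => ?_)
  exact Iff.rfl

theorem Full.TrN' (hM : Full c M) (hF : DfnF ∅ M F) : Dfn ∅ M fun v => TrN (F v) :=
  Dfn.comp1 (Q := TrN) (d0_TrN.dfn hM.base.trans) hF

theorem Full.sx' (hM : Full c M) : Dfn ∅ M fun v : Fin 1 → ZFSet.{0} => Sx (v 0) := by
  have hB := hM.base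
  have h : Dfn ∅ M fun v : Fin 1 → ZFSet.{0} => (∀ x ∈ v 0, ∀ y ∈ x, y ∈ v 0) ∧ ∅ ∈ v 0 ∧
      (∀ x ∈ v 0, ∃ f ∈ v 0, Psi ∅ x f) ∧
      (∀ y ∈ v 0, ∃ n ∈ (ZFSet.omega : ZFSet.{0}), y = da (v 0) n) ∧
      (∀ K ∈ v 0, TrN K → XX K ∈ v 0) ∧ ∀ c ∈ v 0, ∀ x ∈ v 0, ApR c x ∈ v 0 := by
    apply Dfn.and
    · apply hB.ball (DfnF.proj 0)
      apply hB.ball (DfnF.proj 0)
      exact Dfn.mem (DfnF.proj 0) (DfnF.proj 2)
    apply Dfn.and (Dfn.mem hM.empty' (DfnF.proj 0))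
    apply Dfn.and
    · apply hB.ball (DfnF.proj 0)
      apply hB.bex (DfnF.proj 1)
      exact Dfn.comp3 (Q := Psi) (d0_Psi.dfn hB.trans) hM.empty' (DfnF.proj 1) (DfnF.proj 0)
    apply Dfn.and
    · apply hB.ball (DfnF.proj 0)
      apply hB.bex hM.omega'
      exact Dfn.eq (DfnF.proj 1) (hM.da' (DfnF.proj 2) (DfnF.proj 0))
    apply Dfn.and
    · apply hB.ball (DfnF.proj 0)
      apply Dfn.imp (hM.TrN' (DfnF.proj 0))
      exact Dfn.mem (hM.XX' (DfnF.proj 0)) (DfnF.proj 1)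
    · apply hB.ball (DfnF.proj 0)
      apply hB.ball (DfnF.proj 1)
      exact Dfn.mem (hM.ApR' (DfnF.proj 1) (DfnF.proj 0)) (DfnF.proj 2)
  refine h.congr fun v _ => ?_
  constructor
  · rintro ⟨h1, h2, h3, h4, h5, h6⟩
    refine ⟨h1, h2, h3, fun y hy => ?_, fun K hK h7 h8 => h5 K hK ⟨h7, h8⟩, h6⟩
    obtain ⟨n, hn, h9⟩ := h4 y hy
    obtain ⟨i, rfl⟩ := mem_omega_iff.1 hn
    exact ⟨i, h9⟩
  · intro h
    refine ⟨h.trans, h.emp, h.lev, fun y hy => ?_, fun K hK h7 => h.code K hK h7.1 h7.2, h.ap⟩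
    obtain ⟨n, hn⟩ := h.ptw y hy
    exact ⟨_, nat_mem_omega n, hn⟩

end

/-! ### The collapse of the hull -/

/-- The code determines the level. -/
theorem Sx.inj {N N' : ZFSet.{0}} (h : Sx N) (h' : Sx N') (he : cdr N = cdr N') : N = N' := by
  have he' : ∀ i j : ℕ, (da N (nat i) ∈ da N (nat j) ↔ da N' (nat i) ∈ da N' (nat j)) := by
    intro i j
    have h1 : cdr N (i, j) = true ↔ cdr N' (i, j) = true := by rw [he]
    rw [cdr_eq, cdr_eq] at h1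
    exact h1
  have key : ∀ x : ZFSet.{0}, ∀ i : ℕ, x = da N (nat i) → x = da N' (nat i) := by
    intro x
    induction x using ZFSet.inductionOn with
    | _ x ih =>
    intro i hx
    subst hx
    ext y
    constructor
    · intro hy
      have hyN : y ∈ N := h.trans _ (da_mem h.emp) _ hy
      obtain ⟨j, hj⟩ := h.ptw y hyN
      have h1 := ih y hy j hj
      rw [h1]
      rw [hj] at hy
      exact (he' j i).1 hy
    · intro hy
      have hyN : y ∈ N' := h'.trans _ (da_mem h'.emp) _ hy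
      obtain ⟨j, hj⟩ := h'.ptw y hyN
      rw [hj] at hy
      have h2 := (he' j i).2 hy
      have h1 := ih _ h2 j rfl
      rw [hj, ← h1]
      exact h2
  ext y
  constructor
  · intro hy
    obtain ⟨j, hj⟩ := h.ptw y hy
    rw [key y j hj]
    exact da_mem h'.emp
  · intro hy
    obtain ⟨j, hj⟩ := h'.ptw y hy
    rw [hj, ← key _ j rfl]
    exact da_mem h.emp

theorem Sx.card {N : ZFSet.{0}} (h : Sx N) : N.card ≤ ℵ₀ := by
  have h1 : N ⊆ ZFSet.range fun n : ℕ => da N (nat n) := by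
    intro y hy
    obtain ⟨n, hn⟩ := h.ptw y hy
    exact ZFSet.mem_range.2 ⟨n, hn.symm⟩
  refine (ZFSet.card_mono h1).trans ((card_range_le _).trans ?_)
  simp

section hull

variable {c : Cardinal.{0}} {M : Set ZFSet.{0}} (hM : Full c M) {H : ZFSet.{0}}
  (hH : TV M {x | x ∈ H})

include hM hH

theorem TV.col_empty : col H ∅ = ∅ := hH.col_sub_omega hM (fun _ h => absurd h
  (ZFSet.notMem_empty _))

theorem TV.col_nat (n : ℕ) : col H (nat n) = nat n := by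
  refine hH.col_sub_omega hM fun y hy => ?_
  obtain ⟨m, -, rfl⟩ := mem_nat_iff.1 hy
  exact nat_mem_omega m

theorem TV.col_toS (x : ℕ × ℕ → Bool) : col H (toS x) = toS x := by
  have h1 : ∀ q, hp q ∈ H := fun q => hH.pair_mem hM (hH.nat_mem hM _) (hH.nat_mem hM _)
  have h2 : ∀ q, col H (hp q) = hp q := by
    intro q
    rw [hp, hH.col_pair hM (hH.nat_mem hM _) (hH.nat_mem hM _), hH.col_nat hM, hH.col_nat hM]
  ext z
  rw [mem_col, mem_toS]
  constructor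
  · rintro ⟨u, hu, -, rfl⟩
    obtain ⟨q, hq, rfl⟩ := mem_toS.1 hu
    exact ⟨q, hq, h2 q⟩
  · rintro ⟨q, hq, rfl⟩
    exact ⟨hp q, hp_mem_toS.2 hq, h1 q, (h2 q).symm⟩

theorem TV.trN_col {K : ZFSet.{0}} (hK : K ∈ H) : TrN (col H K) ↔ TrN K :=
  hH.d0 hM d0_TrN (v := ![K]) fun i => by
    fin_cases i
    exact hK

theorem TV.cdr_col {K : ZFSet.{0}} (hK : K ∈ H) (hT : TrN K) : cdr (col H K) = cdr K := by
  funext q
  obtain ⟨R, h1, h2⟩ := d0_cdr q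
  have h3 := hH.d0 hM h1 (v := ![K]) fun i => by
    fin_cases i
    exact hK
  have h4 : (fun i => col H ((![K] : Fin 1 → ZFSet.{0}) i)) = ![col H K] := by
    funext i
    fin_cases i
    rfl
  rw [h4, h2 _ ((hH.trN_col hM hK).2 hT), h2 _ hT] at h3
  exact Bool.eq_iff_iff.2 h3

/-- Countable elements are subsets. -/
theorem TV.sub_of_countable {x : ZFSet.{0}} (hx : x ∈ H) (hc : x.card ≤ ℵ₀) : x ⊆ H := by
  intro z hz
  have hxM := hH.1 hx
  have hB := hM.base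
  have hω : (ZFSet.omega : ZFSet.{0}) ∈ H :=
    hH.opN (n := 0) (F := fun _ => ZFSet.omega) hM.omega' (v := Fin.elim0) fun i => i.elim0
  obtain ⟨f0, hf0⟩ := exists_isInj (x := x) (y := ZFSet.omega) (by
    have : (ZFSet.omega : ZFSet.{0}).card = ℵ₀ := by
      rw [omega_eq, Ordinal.card_toZFSet, Ordinal.card_omega0]
    rw [this]
    exact hc)
  have hf0M : f0 ∈ M := hM.sub (hM.prod_mem hxM hM.omega_mem) hf0.1.1
  obtain ⟨f, hf, hf1⟩ := hH.2 2 (fun f v => IsInj (v 0) (v 1) f)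
    (hB.isInj' (DfnF.proj 1) (DfnF.proj 2) (DfnF.proj 0)) ![x, ZFSet.omega] (by
      intro i
      fin_cases i
      exacts [hx, hω]) ⟨f0, hf0M, hf0⟩
  have hf2 : IsInj x ZFSet.omega f := hf1
  obtain ⟨ζ, hζ, h2⟩ := fun_exists hf2.1 hz
  obtain ⟨n, rfl⟩ := mem_omega_iff.1 hζ
  obtain ⟨w, hw, h3⟩ := hH.2 2 (fun w v => pair w (v 0) ∈ v 1)
    (Dfn.mem (hB.pair' (DfnF.proj 0) (DfnF.proj 1)) (DfnF.proj 2)) ![nat n, f] (by
      intro i
      fin_cases i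
      exacts [hH.nat_mem hM n, hf]) ⟨z, hM.trans hxM hz, h2⟩
  have h4 : pair w (nat n) ∈ f := h3
  rw [hf2.2 z w _ h2 h4]
  exact hw

end hull

/-- The collapse of the hull is a level as required. -/
theorem sx_hull {c : Cardinal.{0}} {M : Set ZFSet.{0}} (hL : LCls c M) {H : ZFSet.{0}}
    (hHul : ∀ x, x ∈ H ↔ x ∈ Hul M ∅) (hH : TV M {x | x ∈ H}) : Sx (im (col H) H) := by
  have hM := hL.full
  refine ⟨col_trans, ?_, ?_, ?_, ?_, ?_⟩
  · exact mem_im.2 ⟨∅, hH.nat_mem hM 0, (hH.col_empty hM).symm⟩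
  · intro x hx
    obtain ⟨y, hy, rfl⟩ := mem_im.1 hx
    obtain ⟨f, hf, h⟩ := hH.2 1 (fun f v => Psi ∅ (v 0) f)
      (hL.psi' (DfnF.proj 1) (DfnF.proj 0)) ![y] (by
        intro i
        fin_cases i
        exact hy) (hL.psi y (hH.1 hy))
    have h0 : (∅ : ZFSet.{0}) ∈ H := hH.nat_mem hL.full 0
    have h1 := (hH.d0 hL.full d0_Psi (v := ![∅, y, f]) (by
      intro i
      fin_cases i
      exacts [h0, hy, hf])).2 h
    refine ⟨col H f, mem_im.2 ⟨f, hf, rfl⟩, ?_⟩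
    have h3 : Psi (col H ∅) (col H y) (col H f) := h1
    rwa [hH.col_empty hM] at h3
  · intro y hy
    obtain ⟨x, hx, rfl⟩ := mem_im.1 hy
    obtain ⟨h, hh, rfl⟩ := (hHul x).1 hx
    have h1 : DfnF ∅ M fun _ : Fin 0 → ZFSet.{0} => h ∅ := DfnF.comp1 (f := h) hh hM.empty'
    obtain ⟨φ, hφ⟩ := dfn_iff.1 h1.2
    obtain ⟨k, hk⟩ := fml_gsC φ ![4]
    refine ⟨k, (da_eq (mem_im.2 ⟨_, hx, rfl⟩) fun z hz => ?_).symm⟩
    obtain ⟨w, hw, rfl⟩ := mem_im.1 hz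
    have h2 : nat k ∈ JJ (im (col H) H) (col H w) ↔
        GS {x | x ∈ im (col H) H} k (asg (col H w)) := nat_mem_JS
    rw [h2, hk]
    have h3 : (fun i => asg (col H w) ((![4] : Fin 1 → ℕ) i)) = fun i => col H (![w] i) := by
      funext i
      fin_cases i
      simp [asg]
    have hv : ∀ i, (![w] : Fin 1 → ZFSet.{0}) i ∈ H := by
      intro i
      fin_cases i
      exact hw
    rw [h3]
    refine (hH.sat_im hM φ hv).trans ((hφ _ fun i => hH.1 (hv i)).trans ?_)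
    show w = h ∅ ↔ _
    constructor
    · rintro rfl
      rfl
    · intro h4
      exact col_inj (hH.xt hM) _ hw _ hx h4
  · intro K hK h1 h2
    obtain ⟨x, hx, rfl⟩ := mem_im.1 hK
    have hT : TrN (col H x) := ⟨h1, h2⟩
    have hT' := (hH.trN_col hM hx).1 hT
    have h3 : XX x ∈ H := hH.opN (n := 1) (F := fun v => XX (v 0)) (hM.XX' (DfnF.proj 0))
      (v := ![x]) (by
        intro i
        fin_cases i
        exact hx)
    refine mem_im.2 ⟨XX x, h3, ?_⟩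
    rw [XX, XX, hH.cdr_col hM hx hT', hH.col_toS hM]
  · intro a' ha' x' hx'
    obtain ⟨a, ha, rfl⟩ := mem_im.1 ha'
    obtain ⟨x, hx, rfl⟩ := mem_im.1 hx'
    have h3 : ApR a x ∈ H := hH.opN (n := 2) (F := fun v => ApR (v 0) (v 1))
      (hM.ApR' (DfnF.proj 0) (DfnF.proj 1)) (v := ![a, x]) (by
        intro i
        fin_cases i
        exacts [ha, hx])
    refine mem_im.2 ⟨ApR a x, h3, ?_⟩
    have h4 := (hH.d0 hM d0_ApR (v := ![ApR a x, a, x]) (by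
      intro i
      fin_cases i
      exacts [h3, ha, hx])).2 rfl
    exact h4.symm

/-- There are uncountably many codes. -/
theorem RX_uncountable (hV : VLv) : ¬ RX.Countable := by
  intro hRX
  have hc : ℵ₀ ≤ Order.succ ℵ₀ := Order.le_succ ℵ₀
  have hL := hV.lcls hc (full_HH hc).jj
  have hM := hL.full
  have h0 : (∅ : ZFSet.{0}) ∈ HH (Order.succ ℵ₀) := hM.empty_mem
  have hTV := hL.wo.tv_hul hM h0
  obtain ⟨H, h1, h2⟩ := exists_zf (countable_hul ∅ h0) ⟨∅, hul_self⟩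
  have hH : TV (HH (Order.succ ℵ₀)) {x | x ∈ H} := by
    have : {x | x ∈ H} = Hul (HH (Order.succ ℵ₀)) ∅ := by
      ext x
      exact h1 x
    rw [this]
    exact hTV
  set N := im (col H) H with hN
  have hSx : Sx N := sx_hull hL h1 hH
  -- the set of all the levels
  have h3 : {K : ZFSet.{0} | Sx K}.Countable := by
    have h4 : Set.InjOn cdr {K : ZFSet.{0} | Sx K} := fun K hK K' hK' h => Sx.inj hK hK' h
    refine Set.MapsTo.countable_of_injOn (t := RX) (fun K hK => ?_) h4 hRX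
    exact ⟨K, hK, rfl⟩
  obtain ⟨s, hs, hsc⟩ := exists_zf h3 ⟨N, hSx⟩
  have hmem : ∀ K, Sx K → K ∈ HH (Order.succ ℵ₀) := fun K hK =>
    hh_of_trans hM hK.trans (hK.card.trans hc)
  have hsM : s ∈ HH (Order.succ ℵ₀) :=
    (hM.iff s).2 ⟨fun K hK => hmem K ((hs K).1 hK), hsc.trans hc⟩
  have hd : Dfn ∅ (HH (Order.succ ℵ₀)) fun v : Fin 1 → ZFSet.{0} => v 0 = s := by
    have h4 : Dfn ∅ (HH (Order.succ ℵ₀)) fun v : Fin 1 → ZFSet.{0} =>
        ∀ K ∈ HH (Order.succ ℵ₀), (K ∈ v 0 ↔ Sx K) := by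
      apply Dfn.all
      apply Dfn.iff (Dfn.mem (DfnF.proj 0) (DfnF.proj 1))
      exact Dfn.comp1 (Q := Sx) hM.sx' (DfnF.proj 0)
    refine h4.congr fun v hv => ?_
    constructor
    · intro h5
      ext K
      constructor
      · intro hK
        exact (hs K).2 ((h5 K (hM.trans (hv 0) hK)).1 hK)
      · intro hK
        have h6 := (hs K).1 hK
        exact (h5 K (hmem K h6)).2 h6
    · intro h5 K _
      rw [h5]
      exact hs K
  have hsH : s ∈ H := by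
    obtain ⟨y, hy, h5⟩ := hH.2 0 (fun y _ => y = s) hd Fin.elim0 (fun i => i.elim0) ⟨s, hsM, rfl⟩
    exact h5 ▸ hy
  have hNs : N ∈ s := (hs N).2 hSx
  have hNH : N ∈ H := hH.sub_of_countable hM hsH hsc hNs
  have hNsub : N ⊆ H := hH.sub_of_countable hM hNH hSx.card
  have h5 : col H N = N := by
    have h6 := col_fix hSx.trans hNsub
    ext z
    rw [mem_col]
    constructor
    · rintro ⟨u, hu, -, rfl⟩
      rwa [h6 u hu]
    · intro hz
      exact ⟨z, hz, hNsub hz, (h6 z hz).symm⟩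
  have h6 : N ∈ im (col H) H := mem_im.2 ⟨N, hNH, h5.symm⟩
  exact ZFSet.mem_irrefl _ h6

end Pool.Agent.R587
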