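import Pool.Agent.R587.Base

/-!
# Sets coded by wellfounded relations
-/

set_option autoImplicit false

namespace Pool.Agent.R587

open Pool.Agent.W868
open ZFSet (pair)

section val

variable {T : Type}

open Classical in
/-- The set coded by a point of a wellfounded relation: `val E p = {val E q : E q p}`. -/
noncomputable def val (E : T → T → Prop) : T → ZFSet.{0} :=
  if h : WellFounded E then
    h.fix fun p ih => ZFSet.range fun q : {q // E q p} => ih q.1 q.2
  else fun _ => ∅

theorem val_eq {E : T → T → Prop} (h : WellFounded E) (p : T) :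
    val E p = ZFSet.range fun q : {q // E q p} => val E q.1 := by
  have h1 : val E = h.fix fun p ih => ZFSet.range fun q : {q // E q p} => ih q.1 q.2 := by
    rw [val, dif_pos h]
  rw [h1]
  exact h.fix_eq _ p

theorem mem_val {E : T → T → Prop} (h : WellFounded E) {p : T} {z : ZFSet.{0}} :
    z ∈ val E p ↔ ∃ q, E q p ∧ z = val E q := by
  rw [val_eq h, ZFSet.mem_range]
  constructor
  · rintro ⟨⟨q, hq⟩, rfl⟩
    exact ⟨q, hq, rfl⟩
  · rintro ⟨q, hq, rfl⟩
    exact ⟨⟨q, hq⟩, rfl⟩

theorem val_mem_HH {E : T → T → Prop} (h : WellFounded E) (p : T) :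
    val E p ∈ HH (Cardinal.mk T) := by
  induction p using h.induction with
  | _ p ih =>
    refine Hl.mk _ ?_ ?_
    · rw [val_eq h]
      have h1 := ZFSet.lift_card_range_le (f := fun q : {q // E q p} => val E q.1)
      rw [Cardinal.lift_id, Cardinal.lift_id] at h1
      exact h1.trans (Cardinal.mk_subtype_le _)
    · intro y hy
      obtain ⟨q, hq, rfl⟩ := (mem_val h).mp hy
      exact ih q hq

/-- Equality of the coded sets is bisimilarity. -/
theorem val_eq_iff {E E' : T → T → Prop} (h : WellFounded E) (h' : WellFounded E') (p p' : T) :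
    val E p = val E' p' ↔ ∃ R : T → T → Prop, R p p' ∧ ∀ a b, R a b →
      (∀ a', E a' a → ∃ b', E' b' b ∧ R a' b') ∧ (∀ b', E' b' b → ∃ a', E a' a ∧ R a' b') := by
  constructor
  · intro heq
    refine ⟨fun a b => val E a = val E' b, heq, fun a b hab => ⟨fun a' ha' => ?_, fun b' hb' => ?_⟩⟩
    · have h1 : val E a' ∈ val E' b := by
        rw [← hab]
        exact (mem_val h).mpr ⟨a', ha', rfl⟩
      exact (mem_val h').mp h1
    · have h1 : val E' b' ∈ val E a := by
        rw [hab]
        exact (mem_val h').mpr ⟨b', hb', rfl⟩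
      obtain ⟨a', ha', h2⟩ := (mem_val h).mp h1
      exact ⟨a', ha', h2.symm⟩
  · rintro ⟨R, hR, hbis⟩
    have key : ∀ a b, R a b → val E a = val E' b := by
      intro a
      induction a using h.induction with
      | _ a ih =>
        intro b hab
        obtain ⟨h1, h2⟩ := hbis a b hab
        ext z
        rw [mem_val h, mem_val h']
        constructor
        · rintro ⟨a', ha', rfl⟩
          obtain ⟨b', hb', hR'⟩ := h1 a' ha'
          exact ⟨b', hb', ih a' ha' b' hR'⟩
        · rintro ⟨b', hb', rfl⟩
          obtain ⟨a', ha', hR'⟩ := h2 b' hb'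
          exact ⟨a', ha', (ih a' ha' b' hR').symm⟩
    exact key p p' hR

/-- A relation transported by an injection. -/
def MapR {J : Type} (R : J → J → Prop) (i : J → T) (a b : T) : Prop :=
  ∃ j j', R j j' ∧ i j = a ∧ i j' = b

theorem mapR_wf {J : Type} {R : J → J → Prop} (h : WellFounded R) {i : J → T}
    (hi : Function.Injective i) : WellFounded (MapR R i) := by
  have h1 : ∀ j, Acc (MapR R i) (i j) := by
    intro j
    induction j using h.induction with
    | _ j ih =>
      refine Acc.intro _ fun b hb => ?_
      obtain ⟨k, k', hk, rfl, hk'⟩ := hb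
      have := hi hk'
      subst this
      exact ih k hk
  refine ⟨fun a => Acc.intro _ fun b hb => ?_⟩
  obtain ⟨k, k', hk, rfl, rfl⟩ := hb
  exact h1 k

theorem val_mapR {J : Type} {R : J → J → Prop} (h : WellFounded R) {i : J → T}
    (hi : Function.Injective i) (j : J) : val (MapR R i) (i j) = val R j := by
  induction j using h.induction with
  | _ j ih =>
    ext z
    rw [mem_val (mapR_wf h hi), mem_val h]
    constructor
    · rintro ⟨q, ⟨k, k', hk, rfl, hk'⟩, rfl⟩
      have := hi hk'
      subst this
      exact ⟨k, hk, ih k hk⟩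
    · rintro ⟨k, hk, rfl⟩
      exact ⟨i k, ⟨k, j, hk, rfl, rfl⟩, (ih k hk).symm⟩

/-- The disjoint union of relations with a new top. -/
def TopR {S : Type} (E : S → T → T → Prop) (p : S → T) : Option (S × T) → Option (S × T) → Prop
  | some (s, a), some (s', b) => s = s' ∧ E s a b
  | some (s, a), none => a = p s
  | none, _ => False

theorem topR_wf {S : Type} {E : S → T → T → Prop} {p : S → T} (h : ∀ s, WellFounded (E s)) :
    WellFounded (TopR E p) := by
  have h1 : ∀ s a, Acc (TopR E p) (some (s, a)) := by
    intro s a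
    induction a using (h s).induction with
    | _ a ih =>
      refine Acc.intro _ fun b hb => ?_
      match b, hb with
      | some (s', b), hb =>
        obtain ⟨h2, h3⟩ := hb
        subst h2
        exact ih b h3
  refine ⟨fun a => ?_⟩
  match a with
  | some (s, a) => exact h1 s a
  | none =>
    refine Acc.intro _ fun b hb => ?_
    match b, hb with
    | some (s', b), hb => exact h1 s' b

theorem val_topR {S : Type} {E : S → T → T → Prop} {p : S → T} (h : ∀ s, WellFounded (E s))
    (s : S) (a : T) : val (TopR E p) (some (s, a)) = val (E s) a := by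
  induction a using (h s).induction with
  | _ a ih =>
    ext z
    rw [mem_val (topR_wf h), mem_val (h s)]
    constructor
    · rintro ⟨q, hq, rfl⟩
      match q, hq with
      | some (s', b), hb =>
        obtain ⟨h2, h3⟩ := hb
        subst h2
        exact ⟨b, h3, ih b h3⟩
    · rintro ⟨b, hb, rfl⟩
      exact ⟨some (s, b), ⟨rfl, hb⟩, (ih b hb).symm⟩

/-- Every hereditarily small set is coded. -/
theorem exists_val [Infinite T] {x : ZFSet.{0}} (hx : x ∈ HH (Cardinal.mk T)) :
    ∃ (E : T → T → Prop) (p : T), WellFounded E ∧ val E p = x := by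
  induction hx with
  | mk x h h' ih =>
    have e := equivShrink x
    have h1 : ∀ s : Shrink.{0} x, ∃ (E : T → T → Prop) (p : T), WellFounded E ∧
        val E p = ((equivShrink x).symm s : ZFSet.{0}) := fun s => ih _ ((equivShrink x).symm s).2
    choose E p hE hp using h1
    have hcard : Cardinal.mk (Option (Shrink.{0} x × T)) ≤ Cardinal.mk T := by
      rw [Cardinal.mk_option, Cardinal.mk_prod, Cardinal.lift_id, Cardinal.lift_id]
      have h2 : Cardinal.aleph0 ≤ Cardinal.mk T := Cardinal.aleph0_le_mk T
      have h3 : Cardinal.mk (Shrink.{0} x) * Cardinal.mk T ≤ Cardinal.mk T :=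
        (mul_le_mul_left h _).trans (Cardinal.mul_eq_self h2).le
      exact (add_le_add_left h3 1).trans (Cardinal.add_one_eq h2).le
    obtain ⟨i⟩ := Cardinal.le_def _ _ |>.mp hcard
    have hwf : WellFounded (TopR E p) := topR_wf hE
    refine ⟨MapR (TopR E p) i, i none, mapR_wf hwf i.injective, ?_⟩
    rw [val_mapR hwf i.injective]
    ext z
    rw [mem_val hwf]
    constructor
    · rintro ⟨q, hq, rfl⟩
      match q, hq with
      | some (s, b), hb =>
        have hb' : b = p s := hb
        rw [hb', val_topR hE, hp]
        exact ((equivShrink x).symm s).2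
    · intro hz
      refine ⟨some (equivShrink x ⟨z, hz⟩, p (equivShrink x ⟨z, hz⟩)), rfl, ?_⟩
      rw [val_topR hE, hp, Equiv.symm_apply_apply]

end val

end Pool.Agent.R587
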