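import Pool.Agent.R587.Cal

/-!
# Finite sets of ordinals in the colexicographic order
-/

set_option autoImplicit false

namespace Pool.Agent.R587

open Pool.Agent.W868
open ZFSet (pair)
open Cardinal

/-- `e` is a finite set of ordinals. -/
def FO (e : ZFSet.{0}) : Prop := (∀ y ∈ e, y.IsOrdinal) ∧ {y | y ∈ e}.Finite

/-- The colexicographic order. -/
def clx (d e : ZFSet.{0}) : Prop := ∃ ν ∈ e, ν ∉ d ∧ ∀ μ, ν ∈ μ → (μ ∈ d ↔ μ ∈ e)

theorem FO.sub {d e : ZFSet.{0}} (he : FO e) (h : d ⊆ e) : FO d :=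
  ⟨fun y hy => he.1 y (h hy), he.2.subset fun _ hy => h hy⟩

theorem FO.union {d e : ZFSet.{0}} (hd : FO d) (he : FO e) : FO (d ∪ e) := by
  refine ⟨fun y hy => ?_, (hd.2.union he.2).subset fun y hy => ?_⟩
  · rcases ZFSet.mem_union.1 hy with h | h
    · exact hd.1 y h
    · exact he.1 y h
  · exact ZFSet.mem_union.1 hy

theorem FO.empty : FO ∅ :=
  ⟨fun y hy => absurd hy (ZFSet.notMem_empty y), by
    have h : {y : ZFSet.{0} | y ∈ (∅ : ZFSet.{0})} = ∅ := by
      ext y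
      simp
    rw [h]
    exact Set.finite_empty⟩

theorem FO.single {y : ZFSet.{0}} (hy : y.IsOrdinal) : FO {y} := by
  refine ⟨fun z hz => ?_, ?_⟩
  · rw [ZFSet.mem_singleton] at hz
    exact hz ▸ hy
  · have h : {z : ZFSet.{0} | z ∈ ({y} : ZFSet.{0})} = {y} := by
      ext z
      simp
    rw [h]
    exact Set.finite_singleton y

/-- A nonempty finite set of ordinals has a largest element. -/
theorem FO.exists_max {e : ZFSet.{0}} (he : FO e) (h : ∃ y, y ∈ e) :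
    ∃ μ ∈ e, ∀ y ∈ e, y = μ ∨ y ∈ μ := by
  obtain ⟨μ, hμ, h1⟩ := Set.exists_max_image {y | y ∈ e} ZFSet.rank he.2 h
  refine ⟨μ, hμ, fun y hy => ?_⟩
  have h2 := h1 y hy
  rw [ZFSet.IsOrdinal.rank_le_iff_subset (he.1 y hy) (he.1 μ hμ)] at h2
  exact (ZFSet.IsOrdinal.subset_iff_eq_or_mem (he.1 y hy) (he.1 μ hμ)).1 h2

/-- A nonempty set of ordinals has a least element. -/
theorem exists_min {e : ZFSet.{0}} (he : ∀ y ∈ e, y.IsOrdinal) (h : ∃ y, y ∈ e) :
    ∃ μ ∈ e, ∀ y ∈ e, y = μ ∨ μ ∈ y := by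
  have h1 : {y | y ∈ e}.Nonempty := h
  refine ⟨ZFSet.mem_wf.min _ h1, ZFSet.mem_wf.min_mem _ h1, fun y hy => ?_⟩
  have h2 : y ∉ ZFSet.mem_wf.min _ h1 := ZFSet.mem_wf.not_lt_min {y | y ∈ e} hy
  rcases (he y hy).mem_trichotomous (he _ (ZFSet.mem_wf.min_mem _ h1)) with h3 | h3 | h3
  · exact absurd h3 h2
  · exact Or.inl h3
  · exact Or.inr h3

theorem clx_irrefl {e : ZFSet.{0}} : ¬ clx e e := fun ⟨_, h1, h2, _⟩ => h2 h1

theorem clx_trans {a b d : ZFSet.{0}} (ha : FO a) (hb : FO b) (hd : FO d) (h1 : clx a b)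
    (h2 : clx b d) : clx a d := by
  obtain ⟨ν, h3, h4, h5⟩ := h1
  obtain ⟨μ, h6, h7, h8⟩ := h2
  have hν := hb.1 ν h3
  have hμ := hd.1 μ h6
  rcases hν.mem_trichotomous hμ with h | h | h
  · refine ⟨μ, h6, fun h9 => h7 ((h5 μ h).1 h9), fun κ hκ => ?_⟩
    constructor
    · intro h9
      exact (h8 κ hκ).1 ((h5 κ ((ha.1 κ h9).mem_trans h hκ)).1 h9)
    · intro h9
      exact (h5 κ ((hd.1 κ h9).mem_trans h hκ)).2 ((h8 κ hκ).2 h9)
  · exact absurd (h ▸ h3) h7
  · refine ⟨ν, (h8 ν h).1 h3, h4, fun κ hκ => ?_⟩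
    constructor
    · intro h9
      exact (h8 κ ((ha.1 κ h9).mem_trans h hκ)).1 ((h5 κ hκ).1 h9)
    · intro h9
      exact (h5 κ hκ).2 ((h8 κ ((hd.1 κ h9).mem_trans h hκ)).2 h9)

theorem clx_asymm {a b : ZFSet.{0}} (ha : FO a) (hb : FO b) (h1 : clx a b) (h2 : clx b a) :
    False := clx_irrefl (clx_trans ha hb ha h1 h2)

theorem clx_tri {d e : ZFSet.{0}} (hd : FO d) (he : FO e) : clx d e ∨ d = e ∨ clx e d := by
  by_cases h : d = e
  · exact Or.inr (Or.inl h)
  have h1 : FO (ZFSet.sep (fun y => ¬ (y ∈ d ↔ y ∈ e)) (d ∪ e)) :=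
    (hd.union he).sub fun y hy => (ZFSet.mem_sep.1 hy).1
  obtain ⟨μ, h2, h3⟩ := h1.exists_max (by
    by_contra h2
    apply h
    ext y
    by_contra h3
    refine h2 ⟨y, ZFSet.mem_sep.2 ⟨?_, h3⟩⟩
    rw [ZFSet.mem_union]
    tauto)
  have h4 : ∀ κ, μ ∈ κ → (κ ∈ d ↔ κ ∈ e) := by
    intro κ hκ
    by_contra h4
    have h5 : κ ∈ ZFSet.sep (fun y => ¬ (y ∈ d ↔ y ∈ e)) (d ∪ e) := by
      refine ZFSet.mem_sep.2 ⟨?_, h4⟩
      rw [ZFSet.mem_union]
      tauto
    rcases h3 κ h5 with h6 | h6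
    · rw [h6] at hκ
      exact ZFSet.mem_irrefl _ hκ
    · exact ZFSet.mem_asymm h6 hκ
  rw [ZFSet.mem_sep] at h2
  by_cases h5 : μ ∈ e
  · exact Or.inl ⟨μ, h5, fun h6 => h2.2 (iff_of_true h6 h5), h4⟩
  · have h6 : μ ∈ d := by
      rcases ZFSet.mem_union.1 h2.1 with h6 | h6
      · exact h6
      · exact absurd h6 h5
    exact Or.inr (Or.inr ⟨μ, h6, h5, fun κ hκ => (h4 κ hκ).symm⟩)

theorem not_clx_empty {d : ZFSet.{0}} : ¬ clx d ∅ := fun ⟨ν, h, _⟩ => ZFSet.notMem_empty ν h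

/-- The set of the predecessors. -/
noncomputable def pr (e : ZFSet.{0}) : ZFSet.{0} :=
  ZFSet.sep (fun d => FO d ∧ FO e ∧ clx d e) (ZFSet.powerset (e ∪ ZFSet.sUnion e))

theorem mem_pr {d e : ZFSet.{0}} : d ∈ pr e ↔ FO d ∧ FO e ∧ clx d e := by
  rw [pr, ZFSet.mem_sep, ZFSet.mem_powerset]
  refine and_iff_right_of_imp ?_
  rintro ⟨h1, h2, ν, h3, h4, h5⟩ y hy
  rw [ZFSet.mem_union, ZFSet.mem_sUnion]
  rcases (h1.1 y hy).mem_trichotomous (h2.1 ν h3) with h | h | h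
  · exact Or.inr ⟨ν, h3, h⟩
  · exact absurd (h ▸ hy) h4
  · exact Or.inl ((h5 y h).1 hy)

theorem acc_pr {ν : ZFSet.{0}} (hν : ν.IsOrdinal) : ∀ e, FO e → e ⊆ ν →
    Acc (fun d e => d ∈ pr e) e := by
  induction ν using ZFSet.inductionOn with
  | _ ν ih =>
  intro e he hs
  by_cases h0 : ∃ y, y ∈ e
  · obtain ⟨μ, hμ, hmax⟩ := he.exists_max h0
    have hμν := hs hμ
    have hμo := hν.mem hμν
    have ih' := ih μ hμν hμo
    have key : ∀ a, Acc (fun d e => d ∈ pr e) a → FO a → a ⊆ μ →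
        Acc (fun d e => d ∈ pr e) (insert μ a) := by
      intro a ha
      induction ha with
      | intro a _ iha =>
      intro hao haμ
      refine Acc.intro _ fun d hd => ?_
      obtain ⟨h1, h2, κ, h3, h4, h5⟩ := mem_pr.1 hd
      have hdμ : ∀ δ ∈ d, δ = μ ∨ δ ∈ μ := by
        intro δ hδ
        have hκ : κ = μ ∨ κ ∈ μ := by
          rcases ZFSet.mem_insert_iff.1 h3 with h | h
          · exact Or.inl h
          · exact Or.inr (haμ h)
        rcases (h1.1 δ hδ).mem_trichotomous (h2.1 κ h3) with h | h | h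
        · rcases hκ with rfl | hκ
          · exact Or.inr h
          · exact Or.inr (hμo.mem_trans h hκ)
        · exact absurd (h ▸ hδ) h4
        · rcases ZFSet.mem_insert_iff.1 ((h5 δ h).1 hδ) with h6 | h6
          · exact Or.inl h6
          · exact Or.inr (haμ h6)
      by_cases hμd : μ ∈ d
      · set d' := ZFSet.sep (fun y => y ∈ μ) d with hd'
        have h6 : d = insert μ d' := by
          ext δ
          rw [ZFSet.mem_insert_iff, hd', ZFSet.mem_sep]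
          constructor
          · intro hδ
            rcases hdμ δ hδ with h | h
            · exact Or.inl h
            · exact Or.inr ⟨hδ, h⟩
          · rintro (rfl | h)
            · exact hμd
            · exact h.1
        have h7 : FO d' := h1.sub fun y hy => (ZFSet.mem_sep.1 hy).1
        have h8 : κ ∈ a := by
          rcases ZFSet.mem_insert_iff.1 h3 with h | h
          · exact absurd (h ▸ hμd) h4
          · exact h
        rw [h6]
        refine iha d' (mem_pr.2 ⟨h7, hao, κ, h8, fun h => h4 (ZFSet.mem_sep.1 h).1,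
          fun δ hδ => ?_⟩) h7 fun y hy => (ZFSet.mem_sep.1 hy).2
        rw [hd', ZFSet.mem_sep, h5 δ hδ, ZFSet.mem_insert_iff]
        constructor
        · rintro ⟨rfl | h, h'⟩
          · exact absurd h' (ZFSet.mem_irrefl _)
          · exact h
        · exact fun h => ⟨Or.inr h, haμ h⟩
      · refine ih' d h1 fun y hy => ?_
        rcases hdμ y hy with h | h
        · exact absurd (h ▸ hy) hμd
        · exact h
    have h1 : e = insert μ (ZFSet.sep (fun y => y ∈ μ) e) := by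
      ext δ
      rw [ZFSet.mem_insert_iff, ZFSet.mem_sep]
      constructor
      · intro hδ
        rcases hmax δ hδ with h | h
        · exact Or.inl h
        · exact Or.inr ⟨hδ, h⟩
      · rintro (rfl | h)
        · exact hμ
        · exact h.1
    have h2 : FO (ZFSet.sep (fun y => y ∈ μ) e) := he.sub fun y hy => (ZFSet.mem_sep.1 hy).1
    have h3 : ZFSet.sep (fun y => y ∈ μ) e ⊆ μ := fun y hy => (ZFSet.mem_sep.1 hy).2
    rw [h1]
    exact key _ (ih' _ h2 h3) h2 h3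
  · refine Acc.intro _ fun d hd => ?_
    obtain ⟨-, -, κ, h3, -⟩ := mem_pr.1 hd
    exact absurd ⟨κ, h3⟩ h0

theorem pr_wf : WellFounded fun d e => d ∈ pr e := by
  refine ⟨fun e => ?_⟩
  by_cases he : FO e
  · refine acc_pr (ν := e.rank.toZFSet) (ZFSet.isOrdinal_toZFSet _) e he fun y hy => ?_
    rw [Ordinal.mem_toZFSet_iff]
    exact ⟨y.rank, ZFSet.rank_lt_of_mem hy, (he.1 y hy).toZFSet_rank_eq⟩
  · exact Acc.intro _ fun d hd => absurd (mem_pr.1 hd).2.1 he

theorem pr_trans {a b d : ZFSet.{0}} (h1 : a ∈ pr b) (h2 : b ∈ pr d) : a ∈ pr d := by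
  obtain ⟨ha, hb, h1⟩ := mem_pr.1 h1
  obtain ⟨-, hd, h2⟩ := mem_pr.1 h2
  exact mem_pr.2 ⟨ha, hd, clx_trans ha hb hd h1 h2⟩

/-- The decomposition of the initial segments. -/
theorem pr_union {e r : ZFSet.{0}} (he : FO e) (hr : FO r) (h : ∀ ξ ∈ e, ∀ μ ∈ r, μ ∈ ξ)
    (d : ZFSet.{0}) : d ∈ pr (e ∪ r) ↔ d ∈ pr e ∨ ∃ r' ∈ pr r, d = e ∪ r' := by
  have her := he.union hr
  constructor
  · intro hd
    obtain ⟨h1, -, κ, h3, h4, h5⟩ := mem_pr.1 hd
    by_cases hκ : κ ∈ e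
    · left
      refine mem_pr.2 ⟨h1, he, κ, hκ, h4, fun δ hδ => ?_⟩
      rw [h5 δ hδ, ZFSet.mem_union]
      constructor
      · rintro (h6 | h6)
        · exact h6
        · exact absurd (h κ hκ δ h6) (ZFSet.mem_asymm hδ)
      · exact Or.inl
    · have hκr : κ ∈ r := by
        rcases ZFSet.mem_union.1 h3 with h6 | h6
        · exact absurd h6 hκ
        · exact h6
      right
      have hed : ∀ ξ ∈ e, ξ ∈ d := fun ξ hξ =>
        (h5 ξ (h ξ hξ κ hκr)).2 (ZFSet.mem_union.2 (Or.inl hξ))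
      set r' := ZFSet.sep (fun y => y ∉ e) d with hr'
      refine ⟨r', mem_pr.2 ⟨h1.sub fun y hy => (ZFSet.mem_sep.1 hy).1, hr, κ, hκr,
        fun h6 => h4 (ZFSet.mem_sep.1 h6).1, fun δ hδ => ?_⟩, ?_⟩
      · rw [hr', ZFSet.mem_sep, h5 δ hδ, ZFSet.mem_union]
        constructor
        · rintro ⟨h6 | h6, h7⟩
          · exact absurd h6 h7
          · exact h6
        · intro h6
          exact ⟨Or.inr h6, fun h7 => ZFSet.mem_irrefl _ (h δ h7 δ h6)⟩
      · ext y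
        rw [ZFSet.mem_union, hr', ZFSet.mem_sep]
        constructor
        · intro hy
          by_cases h6 : y ∈ e
          · exact Or.inl h6
          · exact Or.inr ⟨hy, h6⟩
        · rintro (h6 | h6)
          · exact hed y h6
          · exact h6.1
  · rintro (hd | ⟨r', hr', rfl⟩)
    · obtain ⟨h1, -, κ, h3, h4, h5⟩ := mem_pr.1 hd
      refine mem_pr.2 ⟨h1, her, κ, ZFSet.mem_union.2 (Or.inl h3), h4, fun δ hδ => ?_⟩
      rw [h5 δ hδ, ZFSet.mem_union]
      constructor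
      · exact Or.inl
      · rintro (h6 | h6)
        · exact h6
        · exact absurd (h κ h3 δ h6) (ZFSet.mem_asymm hδ)
    · obtain ⟨h1, -, κ, h3, h4, h5⟩ := mem_pr.1 hr'
      refine mem_pr.2 ⟨he.union h1, her, κ, ZFSet.mem_union.2 (Or.inr h3), fun h6 => ?_,
        fun δ hδ => ?_⟩
      · rcases ZFSet.mem_union.1 h6 with h7 | h7
        · exact ZFSet.mem_irrefl _ (h κ h7 κ h3)
        · exact h4 h7
      · rw [ZFSet.mem_union, ZFSet.mem_union, h5 δ hδ]

theorem mem_pr_single {ν d : ZFSet.{0}} (hν : ν.IsOrdinal) : d ∈ pr {ν} ↔ FO d ∧ d ⊆ ν := by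
  rw [mem_pr]
  constructor
  · rintro ⟨h1, h2, κ, h3, h4, h5⟩
    rw [ZFSet.mem_singleton] at h3
    subst h3
    refine ⟨h1, fun y hy => ?_⟩
    rcases (h1.1 y hy).mem_trichotomous hν with h | h | h
    · exact h
    · exact absurd (h ▸ hy) h4
    · have h6 := (h5 y h).1 hy
      rw [ZFSet.mem_singleton] at h6
      rw [h6] at h
      exact absurd h (ZFSet.mem_irrefl _)
  · rintro ⟨h1, h2⟩
    refine ⟨h1, FO.single hν, ν, ZFSet.mem_singleton.2 rfl, fun h => ZFSet.mem_irrefl _ (h2 h),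
      fun δ hδ => iff_of_false (fun h => ZFSet.mem_asymm hδ (h2 h)) fun h => ?_⟩
    rw [ZFSet.mem_singleton] at h
    rw [h] at hδ
    exact ZFSet.mem_irrefl _ hδ

/-! ### Definability -/

/-- The set of the finite subsets of `x`. -/
noncomputable def finS (x : ZFSet.{0}) : ZFSet.{0} :=
  ZFSet.sep (fun d => {y | y ∈ d}.Finite) (ZFSet.powerset x)

theorem card_finS_le {c : Cardinal.{0}} (hc : ℵ₀ ≤ c) {x : ZFSet.{0}} (hx : x.card ≤ c) :
    (finS x).card ≤ c := by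
  let α := Shrink.{0} {z : ZFSet.{0} // z ∈ x}
  have h1 : finS x ⊆ ZFSet.range (fun s : Finset α => ZFSet.range fun z : {z // z ∈ s} =>
      ((equivShrink {z : ZFSet.{0} // z ∈ x}).symm z.1).1) := by
    intro d hd
    rw [finS, ZFSet.mem_sep, ZFSet.mem_powerset] at hd
    obtain ⟨h2, h3⟩ := hd
    have h4 : {z : α | ((equivShrink {z : ZFSet.{0} // z ∈ x}).symm z).1 ∈ d}.Finite := by
      refine Set.Finite.preimage (f := fun z : α =>
        ((equivShrink {z : ZFSet.{0} // z ∈ x}).symm z).1) ?_ h3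
      intro a _ b _ hab
      exact (equivShrink _).symm.injective (Subtype.ext hab)
    refine ZFSet.mem_range.2 ⟨h4.toFinset, ?_⟩
    ext y
    rw [ZFSet.mem_range]
    constructor
    · rintro ⟨z, rfl⟩
      have := z.2
      rw [Set.Finite.mem_toFinset] at this
      exact this
    · intro hy
      refine ⟨⟨equivShrink _ ⟨y, h2 hy⟩, ?_⟩, ?_⟩
      · rw [Set.Finite.mem_toFinset]
        simpa using hy
      · simp
  refine (ZFSet.card_mono h1).trans ((card_range_le _).trans ?_)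
  rcases finite_or_infinite α with h | h
  · exact (Cardinal.lt_aleph0_of_finite _).le.trans hc
  · rw [Cardinal.mk_finset_of_infinite]
    exact hx

theorem finite_iff_card {x : ZFSet.{0}} : {y | y ∈ x}.Finite ↔ x.card < ℵ₀ := by
  have h := ZFSet.cardinalMk_coe_sort (x := x)
  rw [← Cardinal.lift_lt_aleph0.{0, 1}, ← h, Cardinal.lt_aleph0_iff_finite]
  exact Set.finite_coe_iff.symm

namespace Full

variable {c : Cardinal.{0}} {M : Set ZFSet.{0}} (hM : Full c M) {S : Set ZFSet.{0}} {n : ℕ}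
  {F G : (Fin n → ZFSet.{0}) → ZFSet.{0}}

include hM

theorem finS_mem {x : ZFSet.{0}} (hx : x ∈ M) : finS x ∈ M := by
  refine (hM.iff _).2 ⟨fun d hd => ?_, card_finS_le hM.inf (hM.card hx)⟩
  rw [finS, ZFSet.mem_sep, ZFSet.mem_powerset] at hd
  exact hM.sub hx hd.1

theorem finite' (hF : DfnF S M F) : Dfn S M fun v => {y | y ∈ F v}.Finite := by
  have hB := hM.base
  have h : Dfn S M fun v => ∃ k ∈ (ZFSet.omega : ZFSet.{0}), ∃ f ∈ M, IsInj (F v) k f := by
    apply hB.bex hM.omega'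
    apply Dfn.ex
    exact hB.isInj' hF.tail.tail (DfnF.proj 1) (DfnF.proj 0)
  refine h.congr fun v hv => ?_
  rw [finite_iff_card]
  constructor
  · rintro ⟨k, hk, f, -, hf⟩
    obtain ⟨k, rfl⟩ := mem_omega_iff.1 hk
    have h1 := card_le_of_isInj hf
    rw [card_nat] at h1
    exact h1.trans_lt (Cardinal.natCast_lt_aleph0)
  · intro h1
    obtain ⟨k, hk⟩ := Cardinal.lt_aleph0.1 h1
    obtain ⟨f, hf⟩ := exists_isInj (x := F v) (y := nat k) (by rw [card_nat, hk])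
    exact ⟨nat k, mem_omega_iff.2 ⟨k, rfl⟩, f,
      hM.sub (hM.prod_mem (hF.1 v hv) (hM.nat_mem k)) hf.1.1, hf⟩

theorem fo' (hF : DfnF S M F) : Dfn S M fun v => FO (F v) := by
  refine Dfn.and ?_ (hM.finite' hF)
  apply hM.base.ball hF
  exact hM.base.isOrdinal' (DfnF.proj 0)

theorem clx' (hF : DfnF S M F) (hG : DfnF S M G) : Dfn S M fun v => clx (F v) (G v) := by
  have hB := hM.base
  have h : Dfn S M fun v => ∃ ν ∈ G v, ν ∉ F v ∧ ∀ μ ∈ F v ∪ G v, ν ∈ μ → (μ ∈ F v ↔ μ ∈ G v) := by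
    apply hB.bex hG
    apply Dfn.and (Dfn.mem (DfnF.proj 0) hF.tail).not
    apply hB.ball (hB.union' hF.tail hG.tail)
    apply Dfn.imp (Dfn.mem (DfnF.proj 1) (DfnF.proj 0))
    exact Dfn.iff (Dfn.mem (DfnF.proj 0) hF.tail.tail) (Dfn.mem (DfnF.proj 0) hG.tail.tail)
  refine h.congr fun v _ => ?_
  constructor
  · rintro ⟨ν, h1, h2, h3⟩
    refine ⟨ν, h1, h2, fun μ hμ => ?_⟩
    by_cases h4 : μ ∈ F v ∪ G v
    · exact h3 μ h4 hμ
    · rw [ZFSet.mem_union] at h4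
      tauto
  · rintro ⟨ν, h1, h2, h3⟩
    exact ⟨ν, h1, h2, fun μ _ hμ => h3 μ hμ⟩

theorem pr_mem {e : ZFSet.{0}} (he : e ∈ M) : pr e ∈ M := by
  refine hM.sub (hM.finS_mem (hM.union_mem he (hM.base.union _ he))) fun d hd => ?_
  rw [pr, ZFSet.mem_sep] at hd
  exact ZFSet.mem_sep.2 ⟨hd.1, hd.2.1.2⟩

theorem fo_mem {e d : ZFSet.{0}} (he : e ∈ M) (hd : d ∈ pr e) : d ∈ M :=
  hM.trans (hM.pr_mem he) hd

theorem pr' (hF : DfnF S M F) : DfnF S M fun v => pr (F v) := by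
  have hB := hM.base
  refine DfnF.of_unique (R := fun y v => ∀ d ∈ M, d ∈ y ↔ FO d ∧ FO (F v) ∧ clx d (F v)) ?_ ?_
  · apply Dfn.all
    apply Dfn.iff (Dfn.mem (DfnF.proj 0) (DfnF.proj 1))
    apply Dfn.and (hM.fo' (DfnF.proj 0))
    apply Dfn.and (hM.fo' hF.tail.tail)
    exact hM.clx' (DfnF.proj 0) hF.tail.tail
  · intro v hv
    refine ⟨hM.pr_mem (hF.1 v hv), fun y hy => ?_⟩
    constructor
    · intro h
      ext d
      rw [mem_pr]
      constructor
      · intro hd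
        exact (h d (hM.trans hy hd)).1 hd
      · intro hd
        exact (h d (hM.fo_mem (hF.1 v hv) (mem_pr.2 hd))).2 hd
    · rintro rfl d _
      exact mem_pr

end Full

end Pool.Agent.R587
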