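import Pool.Agent.R587.Hull

/-!
# Every element is interdefinable with a coherent sequence of theories
-/

set_option autoImplicit false

namespace Pool.Agent.R587

open Pool.Agent.W868
open ZFSet (pair)
open Cardinal

/-- The coded formulas are uniformly first-order. -/
def GSF : Prop := ∀ n : ℕ, ∃ φ : Fml Empty 1, ∀ N : Set ZFSet.{0},
  (∀ x ∈ N, ∀ y ∈ x, y ∈ N) → ∅ ∈ N → ∀ b ∈ N, (Sat N Empty.elim φ ![b] ↔ GS N n (asg b))

/-- The set of the numbers of the formulas that are true of `b` in the class `N`. -/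
noncomputable def JS (N : Set ZFSet.{0}) (b : ZFSet.{0}) : ZFSet.{0} :=
  ZFSet.sep (fun x => ∃ n : ℕ, x = nat n ∧ GS N n (asg b)) ZFSet.omega

theorem mem_JS {N : Set ZFSet.{0}} {b x : ZFSet.{0}} :
    x ∈ JS N b ↔ ∃ n : ℕ, x = nat n ∧ GS N n (asg b) := by
  rw [JS, ZFSet.mem_sep]
  refine and_iff_right_of_imp ?_
  rintro ⟨n, rfl, -⟩
  exact mem_omega_iff.2 ⟨n, rfl⟩

theorem nat_mem_JS {N : Set ZFSet.{0}} {b : ZFSet.{0}} {n : ℕ} :
    nat n ∈ JS N b ↔ GS N n (asg b) := by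
  rw [mem_JS]
  constructor
  · rintro ⟨k, h, h'⟩
    rw [nat_injective h]
    exact h'
  · intro h
    exact ⟨n, rfl, h⟩

theorem JS_sub {N : Set ZFSet.{0}} {b : ZFSet.{0}} : JS N b ⊆ ZFSet.omega :=
  fun _ h => (ZFSet.mem_sep.1 h).1

/-- The coherent sequence of theories. -/
noncomputable def Sf (M : Set ZFSet.{0}) : ZFSet.{0} → ZFSet.{0} :=
  wfF pr pr_wf fun _ g => im (fun p => pair (fs p) (JS M (sn p))) g

theorem mem_Sf {M : Set ZFSet.{0}} {e p : ZFSet.{0}} :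
    p ∈ Sf M e ↔ ∃ d ∈ pr e, p = pair d (JS M (Sf M d)) := by
  rw [Sf, wfF_eq, ← Sf, mem_im]
  constructor
  · rintro ⟨q, hq, rfl⟩
    obtain ⟨d, hd, rfl⟩ := mem_gr.1 hq
    exact ⟨d, hd, by rw [fs_pair, sn_pair]⟩
  · rintro ⟨d, hd, rfl⟩
    exact ⟨_, mem_gr.2 ⟨d, hd, rfl⟩, by rw [fs_pair, sn_pair]⟩

/-- The properties of `M` that are used. -/
structure Setg (c : Cardinal.{0}) (M : Set ZFSet.{0}) (lt : ZFSet.{0} → ZFSet.{0} → Prop) :
    Prop where
  full : Full c M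
  wo : WO M lt
  code : ∀ x ∈ M, ∃ e, FO e ∧ e ∈ Hul M x ∧ x ∈ Hul M e
  cmp : ∀ H K : ZFSet.{0}, H ⊆ K → TV M {x | x ∈ H} → TV M {x | x ∈ K} → K.card ≤ ℵ₀ →
    im (col H) H = im (col K) K ∨ im (col H) H ∈ im (col K) K
  jj : DfnF ∅ M fun v : Fin 2 → ZFSet.{0} => JJ (v 0) (v 1)

/-! ### The collapse of a set that satisfies the criterion -/

section collapse

variable {c : Cardinal.{0}} {M : Set ZFSet.{0}} (hM : Full c M) {K : ZFSet.{0}}
  (hK : TV M {x | x ∈ K})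

include hM hK

theorem TV.xt : Xt K := fun _ hx _ hy h => hK.ext hM hx hy h

omit hM in
theorem TV.opN {n : ℕ} {F : (Fin n → ZFSet.{0}) → ZFSet.{0}} (hF : DfnF ∅ M F)
    {v : Fin n → ZFSet.{0}} (hv : ∀ i, v i ∈ K) : F v ∈ K := by
  obtain ⟨y, hy, h⟩ := hK.2 n (fun y v => y = F v) hF.2 v hv ⟨_, hF.1 v fun i => hK.1 (hv i), rfl⟩
  exact h ▸ hy

theorem TV.nat_mem (n : ℕ) : nat n ∈ K :=
  hK.opN (n := 0) (F := fun _ => nat n) (hM.nat' n) (v := Fin.elim0) fun i => i.elim0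

theorem TV.pair_mem {x y : ZFSet.{0}} (hx : x ∈ K) (hy : y ∈ K) : pair x y ∈ K :=
  hK.opN (n := 2) (F := fun v => pair (v 0) (v 1)) (hM.base.pair' (DfnF.proj 0) (DfnF.proj 1))
    (v := ![x, y]) (by
      intro i
      fin_cases i
      · exact hx
      · exact hy)

theorem TV.upair_mem {x y : ZFSet.{0}} (hx : x ∈ K) (hy : y ∈ K) : ({x, y} : ZFSet.{0}) ∈ K :=
  hK.opN (n := 2) (F := fun v => {v 0, v 1}) (hM.base.upair' (DfnF.proj 0) (DfnF.proj 1))
    (v := ![x, y]) (by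
      intro i
      fin_cases i
      · exact hx
      · exact hy)

omit hM hK in
theorem col_union {x y : ZFSet.{0}} : col K (x ∪ y) = col K x ∪ col K y := by
  ext z
  rw [ZFSet.mem_union, mem_col, mem_col, mem_col]
  constructor
  · rintro ⟨u, hu, h⟩
    rcases ZFSet.mem_union.1 hu with hu | hu
    · exact Or.inl ⟨u, hu, h⟩
    · exact Or.inr ⟨u, hu, h⟩
  · rintro (⟨u, hu, h⟩ | ⟨u, hu, h⟩)
    · exact ⟨u, ZFSet.mem_union.2 (Or.inl hu), h⟩
    · exact ⟨u, ZFSet.mem_union.2 (Or.inr hu), h⟩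

omit hM hK in
theorem col_upair {x y : ZFSet.{0}} (hx : x ∈ K) (hy : y ∈ K) :
    col K {x, y} = {col K x, col K y} := by
  ext z
  rw [mem_col, ZFSet.mem_pair]
  constructor
  · rintro ⟨u, hu, -, rfl⟩
    rcases ZFSet.mem_pair.1 hu with rfl | rfl
    · exact Or.inl rfl
    · exact Or.inr rfl
  · rintro (rfl | rfl)
    · exact ⟨x, ZFSet.mem_pair.2 (Or.inl rfl), hx, rfl⟩
    · exact ⟨y, ZFSet.mem_pair.2 (Or.inr rfl), hy, rfl⟩

theorem TV.col_pair {x y : ZFSet.{0}} (hx : x ∈ K) (hy : y ∈ K) :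
    col K (pair x y) = pair (col K x) (col K y) := by
  have h1 : ({x} : ZFSet.{0}) ∈ K := by
    have := hK.upair_mem hM hx hx
    rwa [ZFSet.pair_eq_singleton] at this
  have h2 := hK.upair_mem hM hx hy
  have h3 : col K {x} = {col K x} := by
    have := col_upair (K := K) hx hx
    rwa [ZFSet.pair_eq_singleton, ZFSet.pair_eq_singleton] at this
  rw [pair, col_upair h1 h2, h3, col_upair hx hy, pair]

theorem TV.col_sub_omega {x : ZFSet.{0}} (hx : x ⊆ ZFSet.omega) : col K x = x := by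
  have h1 : ZFSet.omega ⊆ K := by
    intro y hy
    obtain ⟨n, rfl⟩ := mem_omega_iff.1 hy
    exact hK.nat_mem hM n
  have h2 : ∀ y ∈ (ZFSet.omega : ZFSet.{0}), col K y = y := by
    refine col_fix (fun y hy z hz => ?_) h1
    rw [omega_eq] at hy ⊢
    exact (ZFSet.isOrdinal_toZFSet _).mem_trans hz hy
  ext z
  rw [mem_col]
  constructor
  · rintro ⟨u, hu, -, rfl⟩
    rwa [h2 u (hx hu)]
  · intro hz
    exact ⟨z, hz, h1 (hx hz), (h2 z (hx hz)).symm⟩

/-- Truth in the collapse. -/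
theorem TV.sat_im {n : ℕ} (φ : Fml Empty n) {v : Fin n → ZFSet.{0}} (hv : ∀ i, v i ∈ K) :
    Sat {x | x ∈ im (col K) K} Empty.elim φ (fun i => col K (v i)) ↔ Sat M Empty.elim φ v :=
  (sat_col (hK.xt hM) φ v hv).trans (hK.sat φ v hv)

/-- Transfer of absolute relations. -/
theorem TV.d0 {n : ℕ} {R : (Fin n → ZFSet.{0}) → Prop} (hR : D0 R) {v : Fin n → ZFSet.{0}}
    (hv : ∀ i, v i ∈ K) : R (fun i => col K (v i)) ↔ R v := by
  obtain ⟨ψ, hψ⟩ := hR
  rw [← hψ {x | x ∈ im (col K) K} col_trans _ fun i => mem_im.2 ⟨_, hv i, rfl⟩, hK.sat_im hM ψ hv,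
    hψ M hM.base.trans v fun i => hK.1 (hv i)]

end collapse

theorem D0.relSat : ∀ {n : ℕ} (φ : Fml Empty n),
    D0 fun w : Fin (n + 1) → ZFSet.{0} => Sat {x | x ∈ w 0} Empty.elim φ (Fin.tail w)
  | n, .mem (Sum.inl i) (Sum.inl j) => D0.mem (D0v.proj i.succ) (D0v.proj j.succ)
  | n, .eq (Sum.inl i) (Sum.inl j) => D0.eq (D0v.proj i.succ) (D0v.proj j.succ)
  | n, .neg φ => (D0.relSat φ).not
  | n, .and φ ψ => (D0.relSat φ).and (D0.relSat ψ)
  | n, .ex φ => by
    refine D0.bex (Q := fun a w => Sat {x | x ∈ w 0} Empty.elim φ (Fin.cons a (Fin.tail w)))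
      (D0v.proj 0) ?_
    refine ((D0.relSat φ).comp (Fin.cons 1 (Fin.cons 0 fun i => i.succ.succ))).congr fun w => ?_
    have h : (Fin.tail fun i => w ((Fin.cons 1 (Fin.cons 0 fun i => i.succ.succ) :
        Fin (n + 1 + 1) → Fin (n + 1 + 1)) i)) = Fin.cons (w 0) (Fin.tail (Fin.tail w)) := by
      funext i
      refine Fin.cases ?_ (fun i => ?_) i
      · rfl
      · rfl
    rw [h]
    rfl

section

variable {c : Cardinal.{0}} {M : Set ZFSet.{0}} {lt : ZFSet.{0} → ZFSet.{0} → Prop}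

theorem countable_fmlE (n : ℕ) : (Set.univ : Set (Fml Empty n)).Countable := by
  have h := countable_fml (A := Empty) (S := Set.univ) Set.countable_univ n
  refine h.mono fun φ _ => ?_
  have h1 : ∀ {m : ℕ} (ψ : Fml Empty m), ψ.Over Set.univ := by
    intro m ψ
    induction ψ with
    | mem s t => exact ⟨fun a => a.elim, fun a => a.elim⟩
    | eq s t => exact ⟨fun a => a.elim, fun a => a.elim⟩
    | neg φ ih => exact ih
    | and φ ψ ih1 ih2 => exact ⟨ih1, ih2⟩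
    | ex φ ih => exact ih
  exact h1 φ

open Classical in
theorem countable_hul (a : ZFSet.{0}) (ha : a ∈ M) : (Hul M a).Countable := by
  have h1 : Hul M a ⊆ (fun φ : Fml Empty 2 =>
      if h : ∃ x, x ∈ M ∧ ∀ y ∈ M, (Sat M Empty.elim φ ![y, a] ↔ y = x) then h.choose else ∅) ''
      Set.univ := by
    rintro x ⟨h, hh, rfl⟩
    obtain ⟨φ, hφ⟩ := dfn_iff.1 hh.2
    have h2 : ∀ y ∈ M, (Sat M Empty.elim φ ![y, a] ↔ y = h a) := by
      intro y hy
      rw [hφ _ (by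
        intro i
        fin_cases i
        · exact hy
        · exact ha)]
      rfl
    have h3 : ∃ x, x ∈ M ∧ ∀ y ∈ M, (Sat M Empty.elim φ ![y, a] ↔ y = x) :=
      ⟨h a, hh.mem ha, h2⟩
    refine ⟨φ, trivial, ?_⟩
    beta_reduce
    rw [dif_pos h3]
    exact (h2 _ h3.choose_spec.1).1 ((h3.choose_spec.2 _ h3.choose_spec.1).2 rfl)
  exact ((countable_fmlE 2).image _).mono h1

theorem exists_zf {X : Set ZFSet.{0}} (hX : X.Countable) (hne : X.Nonempty) :
    ∃ K : ZFSet.{0}, (∀ x, x ∈ K ↔ x ∈ X) ∧ K.card ≤ ℵ₀ := by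
  obtain ⟨f, rfl⟩ := hX.exists_eq_range hne
  refine ⟨ZFSet.range f, fun x => ?_, ?_⟩
  · rw [ZFSet.mem_range]
    rfl
  · have := card_range_le f
    simpa using this

/-- Comparison of collapses. -/
theorem Setg.lemmaK (hS : Setg c M lt) {a H K : ZFSet.{0}} (ha : a ∈ M)
    (hH : TV M {x | x ∈ H}) (hK : TV M {x | x ∈ K}) (hKa : ∀ x, x ∈ K ↔ x ∈ Hul M a)
    (hKc : K.card ≤ ℵ₀) (hHK : H ⊆ K) (haH : a ∉ H) : im (col H) H ∈ im (col K) K := by
  rcases hS.cmp H K hHK hH hK hKc with h | h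
  · exfalso
    have haK : a ∈ K := (hKa a).2 hul_self
    have h1 : col K a ∈ im (col H) H := h ▸ mem_im.2 ⟨a, haK, rfl⟩
    obtain ⟨a', ha', h2⟩ := mem_im.1 h1
    have h3 : Tp M a a' := by
      intro R hR
      obtain ⟨φ, hφ⟩ := dfn_iff.1 hR
      have h4 := hφ ![a] (by
        intro i
        fin_cases i
        exact ha)
      have h5 := hφ ![a'] (by
        intro i
        fin_cases i
        exact hH.1 ha')
      have h6 := hK.sat_im hS.full φ (v := ![a]) (by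
        intro i
        fin_cases i
        exact haK)
      have h7 := hH.sat_im hS.full φ (v := ![a']) (by
        intro i
        fin_cases i
        exact ha')
      have h8 : (fun i => col K ((![a] : Fin 1 → ZFSet.{0}) i)) =
          fun i => col H ((![a'] : Fin 1 → ZFSet.{0}) i) := by
        funext i
        fin_cases i
        exact h2
      rw [← h, h8] at h6
      exact (h4.symm.trans (h6.symm.trans (h7.trans h5)))
    have h4 := hS.wo.lemmaR hS.full ha h3 ((hKa a').1 (hHK ha'))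
    exact haH (h4 ▸ ha')
  · exact h

end

end Pool.Agent.R587
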