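import Pool.Agent.R587.Same

/-!
# The models have the same cardinality
-/

set_option autoImplicit false

namespace Pool.Agent.R587

open Pool.Agent.W868 hiding Models
open ZFSet (pair)
open Cardinal

variable {m : ℕ} {ar : Fin m → ℕ}

section

variable {n : ℕ} {R T : Set ZFSet.{0} → (Fin n → ZFSet.{0}) → Prop}

theorem UD.imp (h : UD R) (h' : UD T) : UD fun M v => R M v → T M v :=
  (h.and h'.not).not.congr fun M _ _ v _ => by tauto

theorem UD.all {Q : Set ZFSet.{0} → ZFSet.{0} → (Fin n → ZFSet.{0}) → Prop}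
    (h : UD fun M (w : Fin (n + 1) → ZFSet.{0}) => Q M (w 0) (Fin.tail w)) :
    UD fun M v => ∀ a ∈ M, Q M a v :=
  (UD.ex (Q := fun M a v => ¬ Q M a v) h.not).not.congr fun M _ _ v _ => by
    simp

theorem UD.sat (φ : Fml Empty n) : UD fun M v => Sat M Empty.elim φ v :=
  ⟨φ, fun _ _ _ _ _ => Iff.rfl⟩

end

theorem D0.exFin {n : ℕ} {k : ℕ} {R : Fin k → (Fin n → ZFSet.{0}) → Prop}
    (h : ∀ i, D0 (R i)) : D0 fun v => ∃ i, R i v := by
  induction k with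
  | zero => exact D0.tt.not.congr fun v => ⟨fun h => absurd trivial h, fun ⟨i, _⟩ => i.elim0⟩
  | succ k ih =>
    refine ((h 0).or (ih fun i => h i.succ)).congr fun v => ?_
    exact (Fin.exists_fin_succ (P := fun i => R i v)).symm

/-- Every infinite structure has a code. -/
theorem exists_code_hh (A : Struc ar) (h : ℵ₀ ≤ #A.Dom) : ∃ a ∈ HH #A.Dom, IsCode A a := by
  have hM := full_HH h
  have hkM : kap #A.Dom ∈ HH #A.Dom :=
    hh_of_trans hM (fun y hy z hz => ord_kap.mem_trans hz hy) card_kap.le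
  obtain ⟨a, h1, h2⟩ := exists_isCode A (D := kap #A.Dom)
    (fun y hy z hz => ord_kap.mem_trans hz hy) card_kap
  exact ⟨a, isCode_mem hM h1 (h2 ▸ hkM), h1⟩

/-- The models of a complete theory give elementarily equivalent classes of sets. -/
theorem elem_equiv {T : Set (SOF ar)} (hc : CompleteT T) {A B : Struc ar} (hA : ModelsT A T)
    (hB : ModelsT B T) (hAi : ℵ₀ ≤ #A.Dom) (hBi : ℵ₀ ≤ #B.Dom) {R : Set ZFSet.{0} → Prop}
    (hR : UD (n := 1) fun M _ => R M) : R (HH #A.Dom) ↔ R (HH #B.Dom) := by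
  obtain ⟨φ, hφ⟩ := hR
  obtain ⟨θ, h1, h2⟩ := translation ar φ
  have key : ∀ {A : Struc ar}, ℵ₀ ≤ #A.Dom → (Models A θ ↔ R (HH #A.Dom)) := by
    intro A hAi
    have hM := full_HH hAi
    rw [h2 A (Cardinal.infinite_iff.2 hAi)]
    constructor
    · rintro ⟨a, ha, -, h⟩
      exact (hφ _ hM.base.trans hM.empty_mem ![a] (by
        intro i
        fin_cases i
        exact ha)).1 h
    · intro h
      obtain ⟨a, ha, h3⟩ := exists_code_hh A hAi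
      exact ⟨a, ha, h3, (hφ _ hM.base.trans hM.empty_mem ![a] (by
        intro i
        fin_cases i
        exact ha)).2 h⟩
  rw [← key hAi, ← key hBi]
  exact hc.iff h1 hA hB

/-- A description of the injections. -/
def Ij (x D f : ZFSet.{0}) : Prop := (∀ y ∈ x, ∃ d ∈ D, pair y d ∈ f) ∧
  ∀ y ∈ x, ∀ z ∈ x, ∀ d ∈ D, pair y d ∈ f → pair z d ∈ f → y = z

theorem card_le_of_ij {x D f : ZFSet.{0}} (h : Ij x D f) : x.card ≤ D.card := by
  obtain ⟨h1, h2⟩ := h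
  choose! g hg hg' using h1
  refine card_le_of_isInj (f := ZFSet.sep (fun p => ∃ y ∈ x, p = pair y (g y)) (ZFSet.prod x D))
    ⟨⟨fun p hp => (ZFSet.mem_sep.1 hp).1, fun z hz => ?_⟩, ?_⟩
  · refine ⟨g z, ZFSet.mem_sep.2 ⟨ZFSet.pair_mem_prod.2 ⟨hz, hg z hz⟩, z, hz, rfl⟩,
      fun w hw => ?_⟩
    obtain ⟨-, y, -, h3⟩ := ZFSet.mem_sep.1 hw
    obtain ⟨h4, h5⟩ := ZFSet.pair_inj.1 h3
    rw [h5, h4]
  · intro a b c ha hb
    obtain ⟨-, y, hy, h3⟩ := ZFSet.mem_sep.1 ha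
    obtain ⟨-, z, hz, h4⟩ := ZFSet.mem_sep.1 hb
    obtain ⟨rfl, rfl⟩ := ZFSet.pair_inj.1 h3
    obtain ⟨rfl, h5⟩ := ZFSet.pair_inj.1 h4
    refine h2 _ hy _ hz _ (hg _ hy) (hg' _ hy) ?_
    rw [h5]
    exact hg' _ hz

theorem exists_ij {x D : ZFSet.{0}} (h : x.card ≤ D.card) : ∃ f, Ij x D f ∧
    f ⊆ ZFSet.prod x D := by
  obtain ⟨f, hf⟩ := exists_isInj h
  exact ⟨f, ⟨fun y hy => fun_exists hf.1 hy, fun y _ z _ d _ h1 h2 => hf.2 _ _ _ h1 h2⟩, hf.1.1⟩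

theorem d0_ij : D0 fun v : Fin 3 → ZFSet.{0} => Ij (v 0) (v 1) (v 2) := by
  unfold Ij
  apply D0.and
  · apply D0.ball (D0v.proj 0)
    apply D0.bex (D0v.proj 2)
    exact D0.pairMem (D0v.proj 1) (D0v.proj 0) (D0v.proj 4)
  · apply D0.ball (D0v.proj 0)
    apply D0.ball (D0v.proj 1)
    apply D0.ball (D0v.proj 3)
    apply D0.imp (D0.pairMem (D0v.proj 2) (D0v.proj 0) (D0v.proj 5))
    apply D0.imp (D0.pairMem (D0v.proj 1) (D0v.proj 0) (D0v.proj 5))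
    exact D0.eq (D0v.proj 2) (D0v.proj 1)

/-- The absolute part of the description of the models in the small classes. -/
def P0 (ar : Fin m → ℕ) (a d D N : ZFSet.{0}) : Prop :=
  a = pair D d ∧ a ∈ N ∧ (∃ w ∈ N, (∃ z ∈ w, z = z) ∧ ∀ z ∈ w, ∃ y ∈ w, z ∈ y) ∧
  (∀ y ∈ D, ∀ z ∈ y, z ∈ D) ∧ (∃ x ∈ D, x = x) ∧
  ∀ p ∈ d, ∃ x y, p = pair x y ∧ ∃ r : Fin m, x = nat r ∧ ZFSet.IsFunc (nat (ar r)) D y

theorem d0_P0 : D0 fun v : Fin 4 → ZFSet.{0} => P0 ar (v 0) (v 1) (v 2) (v 3) := by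
  unfold P0
  apply D0.and (D0.isPair (D0v.proj 0) (D0v.proj 2) (D0v.proj 1))
  apply D0.and (D0.mem (D0v.proj 0) (D0v.proj 3))
  apply D0.and
  · apply D0.bex (D0v.proj 3)
    apply D0.and
    · apply D0.bex (D0v.proj 0)
      exact D0.eq (D0v.proj 0) (D0v.proj 0)
    · apply D0.ball (D0v.proj 0)
      apply D0.bex (D0v.proj 1)
      exact D0.mem (D0v.proj 1) (D0v.proj 0)
  apply D0.and
  · apply D0.ball (D0v.proj 2)
    apply D0.ball (D0v.proj 0)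
    exact D0.mem (D0v.proj 0) (D0v.proj 4)
  apply D0.and
  · apply D0.bex (D0v.proj 2)
    exact D0.eq (D0v.proj 0) (D0v.proj 0)
  · apply D0.ball (D0v.proj 1)
    apply D0.expair (D0v.proj 0)
    refine D0.exFin fun r => ?_
    exact (D0.isNat (D0v.proj 1) r).and (D0.isFuncNat (D0v.proj 5) (D0v.proj 0) (ar r))

theorem P0.wfc {a d D N : ZFSet.{0}} (h : P0 ar a d D N) : WFc ar a := by
  obtain ⟨rfl, -, -, h1, ⟨x, hx, -⟩, h2⟩ := h
  unfold WFc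
  rw [fs_pair, sn_pair]
  refine ⟨rfl, h1, ⟨x, hx⟩, fun p hp => ?_⟩
  obtain ⟨x, y, rfl, r, rfl, h3⟩ := h2 p hp
  exact ⟨r, by rw [sn_pair], by rw [sn_pair]; exact h3⟩

theorem infinite_of_no_max {w : ZFSet.{0}} (h : ∃ z, z ∈ w) (h' : ∀ z ∈ w, ∃ y ∈ w, z ∈ y) :
    ℵ₀ ≤ w.card := by
  by_contra hc
  rw [not_le] at hc
  have h1 : Finite (Shrink.{0} {z : ZFSet.{0} // z ∈ w}) := Cardinal.lt_aleph0_iff_finite.1 hc
  have h2 : Finite {z : ZFSet.{0} // z ∈ w} := Finite.of_equiv _ (equivShrink _).symm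
  have h3 : {z : ZFSet.{0} | z ∈ w}.Finite := Set.finite_coe_iff.1 h2
  obtain ⟨z, hz, hmax⟩ := Set.exists_max_image _ ZFSet.rank h3 h
  obtain ⟨y, hy, hzy⟩ := h' z hz
  exact absurd (ZFSet.rank_lt_of_mem hzy) (not_lt.2 (hmax y hy))

/-- The condition for `N` to be the class of the sets of hereditary size at most `|D|`. -/
def Q0 (M : Set ZFSet.{0}) (D N : ZFSet.{0}) : Prop :=
  ∀ x ∈ M, (x ∈ N → (∀ y ∈ x, y ∈ N) ∧ ∃ f ∈ M, Ij x D f) ∧
    ((∀ y ∈ x, y ∈ N) → (∃ f ∈ M, Ij x D f) → x ∈ N)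

theorem ud_Q0 : UD fun M (v : Fin 2 → ZFSet.{0}) => Q0 M (v 0) (v 1) := by
  unfold Q0
  have h1 : UD fun (M : Set ZFSet.{0}) (v : Fin 3 → ZFSet.{0}) => ∃ f ∈ M, Ij (v 0) (v 1) f := by
    apply UD.ex (Q := fun M f (v : Fin 3 → ZFSet.{0}) => Ij (v 0) (v 1) f)
    exact (UD.of_D0 d0_ij).comp ![1, 2, 0]
  have h2 : UD fun (M : Set ZFSet.{0}) (v : Fin 3 → ZFSet.{0}) => ∀ y ∈ v 0, y ∈ v 2 :=
    UD.of_D0 (D0.ball (D0v.proj 0) (D0.mem (D0v.proj 0) (D0v.proj 3)))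
  have h3 : UD fun (M : Set ZFSet.{0}) (v : Fin 3 → ZFSet.{0}) => v 0 ∈ v 2 :=
    UD.of_D0 (D0.mem (D0v.proj 0) (D0v.proj 2))
  apply UD.all (Q := fun M x (v : Fin 2 → ZFSet.{0}) =>
    (x ∈ v 1 → (∀ y ∈ x, y ∈ v 1) ∧ ∃ f ∈ M, Ij x (v 0) f) ∧
    ((∀ y ∈ x, y ∈ v 1) → (∃ f ∈ M, Ij x (v 0) f) → x ∈ v 1))
  exact (h3.imp (h2.and h1)).and (h2.imp (h1.imp h3))

theorem Q0.full {c : Cardinal.{0}} {M : Set ZFSet.{0}} (hM : Full c M) {D N : ZFSet.{0}}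
    (hD : D ∈ M) (hN : N ∈ M) (h : Q0 M D N) (hw : ∃ w ∈ N, ℵ₀ ≤ w.card) :
    Full D.card {x | x ∈ N} := by
  have key : ∀ x, x ∈ N ↔ (∀ y ∈ x, y ∈ N) ∧ x.card ≤ D.card := by
    intro x
    constructor
    · intro hx
      obtain ⟨h1, f, -, hf⟩ := (h x (hM.trans hN hx)).1 hx
      exact ⟨h1, card_le_of_ij hf⟩
    · rintro ⟨h1, h2⟩
      have hxM : x ∈ M := hM.sub hN h1
      obtain ⟨f, hf, hf'⟩ := exists_ij h2
      exact (h x hxM).2 h1 ⟨f, hM.sub (hM.prod_mem hxM hD) hf', hf⟩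
  obtain ⟨w, hw, hw'⟩ := hw
  exact ⟨hw'.trans ((key w).1 hw).2, key⟩

/-- The number that says that the value of the variable `4` is the pair of the values of the
variables `0` and `1`. -/
theorem exists_k0 : ∃ k : ℕ, ∀ N : Set ZFSet.{0}, (∀ x ∈ N, ∀ y ∈ x, y ∈ N) →
    ∀ f : ℕ → ZFSet.{0}, f 0 ∈ N → f 1 ∈ N → f 4 ∈ N → (GS N k f ↔ f 4 = pair (f 0) (f 1)) := by
  obtain ⟨φ, hφ⟩ := D0.isPair (D0v.proj (n := 3) 2) (D0v.proj 0) (D0v.proj 1)
  obtain ⟨k, hk⟩ := fml_gs φ ![0, 1, 4]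
  refine ⟨k, fun N hN f h0 h1 h4 => ?_⟩
  have h2 : (fun i => f ((![0, 1, 4] : Fin 3 → ℕ) i)) = ![f 0, f 1, f 4] := by
    funext i
    fin_cases i <;> rfl
  rw [hk, h2, hφ N hN]
  · rfl
  · intro i
    fin_cases i
    exacts [h0, h1, h4]

/-- Recursive axiomatizations give models of one cardinality. -/
theorem card_eq {T : Set (SOF ar)} (hc : CompleteT T) (hr : RecAx T) {A B : Struc ar}
    (hA : ModelsT A T) (hB : ModelsT B T) (hAi : ℵ₀ ≤ #A.Dom) (hBi : ℵ₀ ≤ #B.Dom)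
    (hmin : ∀ A' : Struc ar, ModelsT A' T → ℵ₀ ≤ #A'.Dom → #A.Dom ≤ #A'.Dom)
    (hN : ∃ N0 : ZFSet.{0}, (∀ x, x ∈ N0 ↔ x ∈ HH #A.Dom) ∧ N0.card ≤ Order.succ #A.Dom) :
    #B.Dom = #A.Dom := by
  by_contra hne
  have hlt : #A.Dom < #B.Dom := lt_of_le_of_ne (hmin B hB hBi) (Ne.symm hne)
  obtain ⟨N0, hN0, hN0c⟩ := hN
  have hM1 := full_HH hAi
  have hM2 := full_HH hBi
  have hN0M : N0 ∈ HH #B.Dom := hh_of_trans hM2
    (fun y hy z hz => (hN0 z).2 (hM1.trans ((hN0 y).1 hy) hz)) (hN0c.trans (Order.succ_le_of_lt hlt))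
  obtain ⟨T', hT', hrec, hTT⟩ := hr
  let C : ℕ → Prop := fun n => ∃ φ ∈ T', φ.code = n
  obtain ⟨k0, hk0⟩ := exists_k0
  -- the truth of the numbers in the classes of sets
  have hcmp : ∀ {κ : Cardinal.{0}} {N : Set ZFSet.{0}}, Full κ N → ∀ {a : ZFSet.{0}}, a ∈ N →
      ∀ {A : Struc ar}, IsCode A a →
      ((∀ n, C n → GS N (cmpn k0 n) (asg a)) ↔ ModelsT A T) := by
    intro κ N hN a haN A ha
    rw [hTT]
    have hp := (isCode_iff.1 ha).1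
    obtain ⟨hf, hs⟩ := hN.of_pair_mem (hp ▸ haN)
    have h1 : ∀ φ ∈ T', (GS N (cmpn k0 φ.code) (asg a) ↔ Models A φ) := by
      intro φ hφ
      rw [GS_cmpn, ← gs_code hN ha haN (hT' φ hφ)]
      constructor
      · rintro ⟨D, hD, d, hd, h2, h3⟩
        rw [hk0 N hN.base.trans _ (by simpa using hD) (by simpa using hd)
          (by simpa [asg] using haN)] at h2
        have h4 : a = pair D d := by simpa [asg] using h2
        rw [h4, fs_pair, sn_pair]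
        exact (GS_sentence (hT' φ hφ) (by simp [asd]) (by simp [asd])).1 h3
      · intro h3
        refine ⟨fs a, hf, sn a, hs, ?_, ?_⟩
        · rw [hk0 N hN.base.trans _ (by simpa using hf) (by simpa using hs)
            (by simpa [asg] using haN)]
          simpa [asg] using hp
        · exact (GS_sentence (hT' φ hφ) (by simp [asd]) (by simp [asd])).1 h3
    constructor
    · intro h φ hφ
      exact (h1 φ hφ).1 (h _ ⟨φ, hφ, rfl⟩)
    · rintro h n ⟨φ, hφ, rfl⟩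
      exact (h1 φ hφ).2 (h φ hφ)
  -- the formulas
  have hJ : Dfn ∅ (HH #B.Dom) fun v : Fin 3 → ZFSet.{0} => v 0 ∈ JJ (v 1) (v 2) :=
    Dfn.mem (DfnF.proj 0) (DfnF.comp2 (f := JJ) hM2.jj (DfnF.proj 1) (DfnF.proj 2))
  obtain ⟨ψ, hψ⟩ := dfn_iff.1 hJ
  have hCC : Dfn ∅ (HH #B.Dom) fun v : Fin 1 → ZFSet.{0} => v 0 ∈ CC C k0 :=
    Dfn.mem (DfnF.proj 0) (dfnF_of_const
      (hM2.sub hM2.omega_mem fun x hx => (ZFSet.mem_sep.1 hx).1) (dfn_CC hM2 hrec k0))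
  obtain ⟨χ, hχ⟩ := dfn_iff.1 hCC
  have hψ2 : ∀ x ∈ HH #B.Dom, ∀ N ∈ HH #B.Dom, ∀ a ∈ HH #B.Dom,
      (Sat (HH #B.Dom) Empty.elim ψ ![x, N, a] ↔ x ∈ JJ N a) := by
    intro x hx N hN a ha
    rw [hψ]
    · rfl
    · intro i
      fin_cases i
      exacts [hx, hN, ha]
  have hχ2 : ∀ x ∈ HH #B.Dom, (Sat (HH #B.Dom) Empty.elim χ ![x] ↔ x ∈ CC C k0) := by
    intro x hx
    rw [hχ]
    · rfl
    · intro i
      fin_cases i
      exact hx
  -- the formulas are correct in the smaller class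
  have hχ1 : ∀ n, C n → Sat (HH #A.Dom) Empty.elim χ ![nat (cmpn k0 n)] := by
    intro n hn
    have h1 := elem_equiv hc hA hB hAi hBi
      (R := fun M => ∀ x ∈ M, x = nat (cmpn k0 n) → Sat M Empty.elim χ ![x]) (by
        apply UD.all (Q := fun M x _ => x = nat (cmpn k0 n) → Sat M Empty.elim χ ![x])
        apply UD.imp
        · exact UD.of_D0 (D0.isNat (D0v.proj 0) _)
        · refine ((UD.sat χ).comp ![0]).congr fun M _ _ v _ => ?_
          have h2 : (fun i => v ((![0] : Fin 1 → Fin 2) i)) = ![v 0] := by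
            funext i
            fin_cases i
            rfl
          rw [h2])
    refine h1.2 (fun x hx h2 => ?_) _ (hM1.nat_mem _) rfl
    rw [hχ2 x hx, h2]
    exact mem_CC.2 ⟨n, hn, rfl⟩
  have hψ1 : ∀ n : ℕ, ∀ N ∈ HH #A.Dom, ∀ a ∈ HH #A.Dom, (∀ x ∈ N, ∀ y ∈ x, y ∈ N) → ∅ ∈ N →
      a ∈ N → Sat (HH #A.Dom) Empty.elim ψ ![nat n, N, a] → GS {x | x ∈ N} n (asg a) := by
    intro n
    obtain ⟨φ, hφ⟩ := gs_fml n
    have h1 := elem_equiv hc hA hB hAi hBi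
      (R := fun M => ∀ x ∈ M, ∀ N ∈ M, ∀ a ∈ M, (x = nat n ∧ (∀ x ∈ N, ∀ y ∈ x, y ∈ N) ∧
        (∃ e ∈ N, e = nat 0) ∧ a ∈ N) →
        Sat M Empty.elim ψ ![x, N, a] → Sat {x | x ∈ N} Empty.elim φ ![a]) (by
        apply UD.all (Q := fun M x _ => ∀ N ∈ M, ∀ a ∈ M, (x = nat n ∧
          (∀ x ∈ N, ∀ y ∈ x, y ∈ N) ∧ (∃ e ∈ N, e = nat 0) ∧ a ∈ N) →
          Sat M Empty.elim ψ ![x, N, a] → Sat {x | x ∈ N} Empty.elim φ ![a])
        apply UD.all (Q := fun M N (w : Fin 2 → ZFSet.{0}) => ∀ a ∈ M, (w 0 = nat n ∧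
          (∀ x ∈ N, ∀ y ∈ x, y ∈ N) ∧ (∃ e ∈ N, e = nat 0) ∧ a ∈ N) →
          Sat M Empty.elim ψ ![w 0, N, a] → Sat {x | x ∈ N} Empty.elim φ ![a])
        apply UD.all (Q := fun M a (w : Fin 3 → ZFSet.{0}) => (w 1 = nat n ∧
          (∀ x ∈ w 0, ∀ y ∈ x, y ∈ w 0) ∧ (∃ e ∈ w 0, e = nat 0) ∧ a ∈ w 0) →
          Sat M Empty.elim ψ ![w 1, w 0, a] → Sat {x | x ∈ w 0} Empty.elim φ ![a])
        apply UD.imp
        · apply UD.of_D0
          apply D0.and (D0.isNat (D0v.proj 2) n)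
          apply D0.and
          · apply D0.ball (D0v.proj 1)
            apply D0.ball (D0v.proj 0)
            exact D0.mem (D0v.proj 0) (D0v.proj 3)
          apply D0.and
          · apply D0.bex (D0v.proj 1)
            exact D0.isNat (D0v.proj 0) 0
          · exact D0.mem (D0v.proj 0) (D0v.proj 1)
        · apply UD.imp
          · refine ((UD.sat ψ).comp ![2, 1, 0]).congr fun M _ _ v _ => ?_
            have h2 : (fun i => v ((![2, 1, 0] : Fin 3 → Fin 4) i)) = ![v 2, v 1, v 0] := by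
              funext i
              fin_cases i <;> rfl
            rw [h2]
            rfl
          · refine ((UD.of_D0 (D0.relSat φ)).comp ![1, 0]).congr fun M _ _ v _ => ?_
            have h2 : (Fin.tail fun i => v ((![1, 0] : Fin 2 → Fin 4) i)) = ![v 0] := by
              funext i
              fin_cases i
              rfl
            rw [h2]
            rfl)
    intro N hN a ha h2 h3 h4 h5
    rw [← hφ {x | x ∈ N} h2 h3 a h4]
    refine h1.2 (fun x hx N hN a ha h6 h7 => ?_) _ (hM1.nat_mem n) N hN a ha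
      ⟨rfl, h2, ⟨_, h3, rfl⟩, h4⟩ h5
    obtain ⟨rfl, h8, ⟨e, h9, rfl⟩, h10⟩ := h6
    rw [hψ2 _ hx N hN a ha] at h7
    rw [hφ {x | x ∈ N} h8 h9 a h10]
    exact nat_mem_JS.1 h7
  -- the description of the models in the small classes
  have hσ := elem_equiv hc hA hB hAi hBi
    (R := fun M => ∃ N ∈ M, ∃ D ∈ M, ∃ d ∈ M, ∃ a ∈ M, (P0 ar a d D N ∧ Q0 M D N) ∧
      ∀ x ∈ M, Sat M Empty.elim χ ![x] → Sat M Empty.elim ψ ![x, N, a]) (by
      apply UD.ex (Q := fun M N _ => ∃ D ∈ M, ∃ d ∈ M, ∃ a ∈ M, (P0 ar a d D N ∧ Q0 M D N) ∧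
        ∀ x ∈ M, Sat M Empty.elim χ ![x] → Sat M Empty.elim ψ ![x, N, a])
      apply UD.ex (Q := fun M D (w : Fin 2 → ZFSet.{0}) => ∃ d ∈ M, ∃ a ∈ M,
        (P0 ar a d D (w 0) ∧ Q0 M D (w 0)) ∧
        ∀ x ∈ M, Sat M Empty.elim χ ![x] → Sat M Empty.elim ψ ![x, w 0, a])
      apply UD.ex (Q := fun M d (w : Fin 3 → ZFSet.{0}) => ∃ a ∈ M,
        (P0 ar a d (w 0) (w 1) ∧ Q0 M (w 0) (w 1)) ∧
        ∀ x ∈ M, Sat M Empty.elim χ ![x] → Sat M Empty.elim ψ ![x, w 1, a])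
      apply UD.ex (Q := fun M a (w : Fin 4 → ZFSet.{0}) =>
        (P0 ar a (w 0) (w 1) (w 2) ∧ Q0 M (w 1) (w 2)) ∧
        ∀ x ∈ M, Sat M Empty.elim χ ![x] → Sat M Empty.elim ψ ![x, w 2, a])
      apply UD.and
      · apply UD.and
        · exact (UD.of_D0 d0_P0).comp ![0, 1, 2, 3]
        · exact ud_Q0.comp ![2, 3]
      · apply UD.all (Q := fun M x (w : Fin 5 → ZFSet.{0}) =>
          Sat M Empty.elim χ ![x] → Sat M Empty.elim ψ ![x, w 3, w 0])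
        apply UD.imp
        · refine ((UD.sat χ).comp ![0]).congr fun M _ _ v _ => ?_
          have h2 : (fun i => v ((![0] : Fin 1 → Fin 6) i)) = ![v 0] := by
            funext i
            fin_cases i
            rfl
          rw [h2]
        · refine ((UD.sat ψ).comp ![0, 4, 1]).congr fun M _ _ v _ => ?_
          have h2 : (fun i => v ((![0, 4, 1] : Fin 3 → Fin 6) i)) = ![v 0, v 4, v 1] := by
            funext i
            fin_cases i <;> rfl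
          rw [h2]
          rfl)
  -- it holds in the larger class
  obtain ⟨a0, ha0, hca0⟩ := exists_code_hh A hAi
  have hw0 := hca0.wfc
  have hf0 : fs a0 ∈ HH #A.Dom := fs_mem hM1 ha0 hw0
  have hs0 : sn a0 ∈ HH #A.Dom := (hM1.of_pair_mem (hw0.1 ▸ ha0)).2
  have hup : ∀ {x}, x ∈ HH #A.Dom → x ∈ HH #B.Dom := fun hx => hM2.trans hN0M ((hN0 _).2 hx)
  have hset : {x | x ∈ N0} = HH #A.Dom := Set.ext fun x => hN0 x
  have h2 : ∃ N ∈ HH #A.Dom, ∃ D ∈ HH #A.Dom, ∃ d ∈ HH #A.Dom, ∃ a ∈ HH #A.Dom,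
      (P0 ar a d D N ∧ Q0 (HH #A.Dom) D N) ∧ ∀ x ∈ HH #A.Dom,
      Sat (HH #A.Dom) Empty.elim χ ![x] → Sat (HH #A.Dom) Empty.elim ψ ![x, N, a] := by
    refine hσ.2 ⟨N0, hN0M, fs a0, hup hf0, sn a0, hup hs0, a0, hup ha0, ⟨⟨hw0.1, (hN0 _).2 ha0,
      ⟨ZFSet.omega, (hN0 _).2 hM1.omega_mem, ⟨_, ZFSet.omega_zero, rfl⟩, fun z hz => ?_⟩,
      hw0.2.1, ?_, fun p hp => ?_⟩, fun x hx => ⟨fun hx' => ?_, fun h3 h4 => ?_⟩⟩,
      fun x hx hx' => ?_⟩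
    · exact ⟨_, ZFSet.omega_succ hz, ZFSet.mem_insert _ _⟩
    · obtain ⟨x, hx⟩ := hw0.2.2.1
      exact ⟨x, hx, rfl⟩
    · obtain ⟨r, h3, h4⟩ := hw0.2.2.2 p hp
      exact ⟨_, _, h3, r, rfl, h4⟩
    · refine ⟨fun y hy => (hN0 y).2 (hM1.trans ((hN0 x).1 hx') hy), ?_⟩
      obtain ⟨f, hf, hf'⟩ := exists_ij (x := x) (D := fs a0) (by
        rw [hca0.card]
        exact hM1.card ((hN0 x).1 hx'))
      exact ⟨f, hM2.sub (hM2.prod_mem hx (hup hf0)) hf', hf⟩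
    · obtain ⟨f, -, hf⟩ := h4
      refine (hN0 x).2 ((hM1.iff x).2 ⟨fun y hy => (hN0 y).1 (h3 y hy), ?_⟩)
      rw [← hca0.card]
      exact card_le_of_ij hf
    · rw [hχ2 x hx] at hx'
      rw [hψ2 x hx N0 hN0M a0 (hup ha0)]
      obtain ⟨n, hn, rfl⟩ := mem_CC.1 hx'
      refine nat_mem_JS.2 ?_
      rw [hset]
      exact (hcmp hM1 ha0 hca0).2 hA n hn
  -- it fails in the smaller class
  obtain ⟨N, hN, D, hD, d, hd, a, ha, ⟨hP, hQ⟩, hS⟩ := h2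
  have hfull : Full D.card {x | x ∈ N} := by
    refine hQ.full hM1 hD hN ?_
    obtain ⟨-, -, ⟨w, hw, ⟨z, hz, -⟩, h3⟩, -⟩ := hP
    exact ⟨w, hw, infinite_of_no_max ⟨z, hz⟩ h3⟩
  have haN : a ∈ N := hP.2.1
  have hDN : D ∈ N := (hfull.of_pair_mem (M := {x | x ∈ N}) (x := D) (y := d)
    (by rw [← hP.1]; exact haN)).1
  have hcode := hP.wfc.isCode
  have hmod : ModelsT (dst ar a hP.wfc.2.2.1) T := by
    refine (hcmp hfull haN hcode).1 fun n hn => ?_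
    exact hψ1 _ N hN a ha hfull.base.trans hfull.empty_mem haN
      (hS _ (hM1.nat_mem _) (hχ1 n hn))
  have hDc : D.card = #(dst ar a hP.wfc.2.2.1).Dom := by
    rw [← hcode.card, hP.1, fs_pair]
  have h3 := hmin _ hmod (hDc ▸ hfull.inf)
  rw [← hDc] at h3
  have h4 : ZFSet.powerset D ⊆ N := fun y hy => hfull.sub hDN (ZFSet.mem_powerset.1 hy)
  have h5 := (ZFSet.card_mono h4).trans (hM1.card hN)
  rw [ZFSet.card_powerset] at h5
  exact absurd (h5.trans h3) (not_le.2 (Cardinal.cantor _))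

end Pool.Agent.R587
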