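import Pool.Agent.R587.TyL

/-!
# The critical point of an iterate
-/

set_option autoImplicit false

namespace Pool.Agent.R587

open Pool.Agent.W868 hiding Models
open ZFSet (pair)
open Cardinal

/-- The set `t` is bounded in the critical point. -/
def Bd (W t : ZFSet.{0}) : Prop := ∃ β ∈ (ZFSet.sUnion W : ZFSet.{0}), ∀ ξ ∈ t, ξ ∈ β

namespace Pm

variable {Q : Set ZFSet.{0}} {W : ZFSet.{0}} (hP : Pm Q W)

include hP

theorem exists_gt {α : ZFSet.{0}} (h : α ∈ (ZFSet.sUnion W : ZFSet.{0})) :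
    ∃ β ∈ (ZFSet.sUnion W : ZFSet.{0}), α ∈ β := by
  obtain ⟨β, hβ⟩ := hP.inhab (hP.unif α h)
  exact ⟨β, ZFSet.mem_sep.1 hβ⟩

theorem bd_empty : Bd W ∅ := by
  obtain ⟨β, hβ⟩ := hP.inhab hP.kW
  exact ⟨β, hβ, fun ξ hξ => absurd hξ (ZFSet.notMem_empty ξ)⟩

theorem bd_insert {t η : ZFSet.{0}} (ht : Bd W t) (hη : η ∈ (ZFSet.sUnion W : ZFSet.{0})) :
    Bd W (insert η t) := by
  obtain ⟨β, hβ, h1⟩ := ht
  obtain ⟨β', hβ', h2⟩ := hP.exists_gt hη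
  rcases (hP.ordk hβ).mem_trichotomous (hP.ordk hβ') with h | h | h
  · refine ⟨β', hβ', fun ξ hξ => ?_⟩
    rcases ZFSet.mem_insert_iff.1 hξ with rfl | hξ
    · exact h2
    · exact (hP.ordk hβ').mem_trans (h1 ξ hξ) h
  · refine ⟨β', hβ', fun ξ hξ => ?_⟩
    rcases ZFSet.mem_insert_iff.1 hξ with rfl | hξ
    · exact h2
    · exact h ▸ h1 ξ hξ
  · refine ⟨β, hβ, fun ξ hξ => ?_⟩
    rcases ZFSet.mem_insert_iff.1 hξ with rfl | hξ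
    · exact (hP.ordk hβ).mem_trans h2 h
    · exact h1 ξ hξ

theorem bd_W {t : ZFSet.{0}} (ht : t ∈ Q) (h : Bd W t) :
    ZFSet.sep (fun η => ∀ ξ ∈ t, ξ ∈ η) (ZFSet.sUnion W) ∈ W := by
  obtain ⟨β, hβ, h1⟩ := h
  have hu : UD fun _ (v : Fin 2 → ZFSet.{0}) => ∀ ξ ∈ v 1, ξ ∈ v 0 :=
    UD.of_D0 (D0.ball (D0v.proj 1) (D0.mem (D0v.proj 0) (D0v.proj 1)))
  refine hP.upw (hP.unif β hβ) (hP.sepU hu (v := ![t]) (by
    intro i
    fin_cases i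
    exact ht) hP.kQ) (fun y hy => (ZFSet.mem_sep.1 hy).1) fun η hη => ?_
  obtain ⟨h2, h3⟩ := ZFSet.mem_sep.1 hη
  exact ZFSet.mem_sep.2 ⟨h2, fun ξ hξ => (hP.ordk h2).mem_trans (h1 ξ hξ) h3⟩

theorem insQ {t η : ZFSet.{0}} (ht : t ∈ Q) (hη : η ∈ (ZFSet.sUnion W : ZFSet.{0})) :
    (insert η t : ZFSet.{0}) ∈ Q := hP.ins (hP.trans _ hP.kQ _ hη) ht

/-- Monotonicity. -/
theorem wq_mono {P P' : Pr} {a a' : ZFSet.{0}}
    (h : ∀ t ∈ Q, Bd W t → P Q W a t → P' Q W a' t) {t : ZFSet.{0}} (ht : t ∈ Q)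
    (hb : Bd W t) (hw : WQ P Q W a t) : WQ P' Q W a' t := by
  obtain ⟨B, hB, hBW, h1⟩ := hw
  refine ⟨B, hB, hBW, fun η hη hs t' ht' h2 => ?_⟩
  refine h t' ht' ?_ (h1 η hη hs t' ht' h2)
  rw [h2]
  exact hP.bd_insert hb (sub_k hBW hη)

theorem wqn_mono (n : ℕ) : ∀ {P P' : Pr} {a a' : ZFSet.{0}},
    (∀ t ∈ Q, Bd W t → P Q W a t → P' Q W a' t) → ∀ {t : ZFSet.{0}}, t ∈ Q →
    Bd W t → (WQ^[n] P) Q W a t → (WQ^[n] P') Q W a' t := by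
  induction n with
  | zero => intro P P' a a' h t ht hb hw; exact h t ht hb hw
  | succ n ih =>
    intro P P' a a' h t ht hb hw
    rw [Function.iterate_succ_apply] at hw ⊢
    exact ih (fun t ht hb hw => hP.wq_mono h ht hb hw) ht hb hw

/-- The quantifiers for a predicate and its negation are incompatible. -/
theorem wq_not {P : Pr} {a t : ZFSet.{0}} (ht : t ∈ Q) (hb : Bd W t)
    (h : WQ P Q W a t) (h' : WQ (fun M W a s => ¬ P M W a s) Q W a t) : False := by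
  obtain ⟨B, hB, hBW, h1⟩ := h
  obtain ⟨B', hB', hBW', h1'⟩ := h'
  obtain ⟨η, hη⟩ := hP.inhab (hP.inter _ (hP.inter _ hBW _ hBW') _ (hP.bd_W ht hb))
  rw [ZFSet.mem_inter, ZFSet.mem_inter, ZFSet.mem_sep] at hη
  obtain ⟨⟨h2, h3⟩, h4, h5⟩ := hη
  exact h1' η h3 h5 _ (hP.insQ ht h4) rfl (h1 η h2 h5 _ (hP.insQ ht h4) rfl)

/-- Completeness. -/
theorem compl {P : Pr} (hPu : UPr P) {a α t : ZFSet.{0}} (ha : a ∈ Q) (ht : t ∈ Q)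
    (hα : α ∈ (ZFSet.sUnion W : ZFSet.{0})) (hb : Bd W t) {B : ZFSet.{0}} (hB : B ∈ W)
    (h : ∀ η ∈ B, (∀ ξ ∈ t, ξ ∈ η) → ∃ γ ∈ α, P Q W (pair a γ) (insert η t)) :
    ∃ γ ∈ α, WQ P Q W (pair a γ) t := by
  by_contra hcon
  push Not at hcon
  have hαQ := hP.trans _ hP.kQ _ hα
  have hu : UD fun M (v : Fin 5 → ZFSet.{0}) => ∀ ξ ∈ M, ∀ η ∈ M, v 0 = pair ξ η →
      ξ ∈ v 3 → (∀ ζ ∈ v 4, ζ ∈ η) → ∀ t' ∈ M, t' = insert η (v 4) → ∀ b ∈ M,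
      b = pair (v 2) ξ → ¬ P M (v 1) b t' := by
    apply UD.all
    apply UD.all
    apply UD.imp
    · exact UD.of_D0 (D0.isPair (D0v.proj 2) (D0v.proj 1) (D0v.proj 0))
    apply UD.imp
    · exact UD.of_D0 (D0.mem (D0v.proj 1) (D0v.proj 5))
    apply UD.imp
    · exact UD.of_D0 (D0.ball (D0v.proj 6) (D0.mem (D0v.proj 0) (D0v.proj 1)))
    apply UD.all
    apply UD.imp
    · exact UD.of_D0 (D0.isInsert (D0v.proj 0) (D0v.proj 1) (D0v.proj 7))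
    apply UD.all
    apply UD.imp
    · exact UD.of_D0 (D0.isPair (D0v.proj 0) (D0v.proj 6) (D0v.proj 3))
    · exact (UD.comp hPu ![5, 0, 1]).not
  have hF := hP.sepU hu (v := ![W, a, α, t]) (by
    intro i
    fin_cases i
    exacts [hP.mem, ha, hαQ, ht]) (hP.prod _ hP.kQ _ hP.kQ)
  set F := ZFSet.sep (fun p => (fun M (v : Fin 5 → ZFSet.{0}) => ∀ ξ ∈ M, ∀ η ∈ M,
      v 0 = pair ξ η → ξ ∈ v 3 → (∀ ζ ∈ v 4, ζ ∈ η) → ∀ t' ∈ M, t' = insert η (v 4) → ∀ b ∈ M,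
      b = pair (v 2) ξ → ¬ P M (v 1) b t') Q (Fin.cons p ![W, a, α, t]))
      (ZFSet.prod (ZFSet.sUnion W) (ZFSet.sUnion W)) with hFdef
  have hmem : ∀ ξ ∈ (ZFSet.sUnion W : ZFSet.{0}), ∀ η ∈ (ZFSet.sUnion W : ZFSet.{0}),
      (pair ξ η ∈ F ↔ (ξ ∈ α → (∀ ζ ∈ t, ζ ∈ η) → ¬ P Q W (pair a ξ) (insert η t))) := by
    intro ξ hξ η hη
    have hξQ := hP.trans _ hP.kQ _ hξ
    have hηQ := hP.trans _ hP.kQ _ hη
    rw [hFdef, ZFSet.mem_sep, ZFSet.pair_mem_prod]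
    constructor
    · rintro ⟨-, h1⟩ h2 h3
      exact h1 ξ hξQ η hηQ rfl h2 h3 _ (hP.ins hηQ ht) rfl _ (hP.pr ha hξQ) rfl
    · intro h1
      refine ⟨⟨hξ, hη⟩, ?_⟩
      rintro ξ' - η' - h2 h3 h4 t' - rfl b - rfl
      have h2' : pair ξ η = pair ξ' η' := h2
      obtain ⟨rfl, rfl⟩ := ZFSet.pair_inj.1 h2'
      exact h1 h3 h4
  have hsec : ∀ ξ ∈ (ZFSet.sUnion W : ZFSet.{0}),
      ZFSet.sep (fun η => pair ξ η ∈ F) (ZFSet.sUnion W) ∈ W := by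
    intro ξ hξ
    have hξQ := hP.trans _ hP.kQ _ hξ
    have hu2 : UD fun _ (v : Fin 3 → ZFSet.{0}) => pair (v 1) (v 0) ∈ v 2 :=
      UD.of_D0 (D0.pairMem (D0v.proj 1) (D0v.proj 0) (D0v.proj 2))
    have h1 := hP.sepU hu2 (v := ![ξ, F]) (by
      intro i
      fin_cases i
      exacts [hξQ, hF]) hP.kQ
    by_cases hξα : ξ ∈ α
    · obtain ⟨B', hB'Q, hB', h2⟩ := (hP.dich hPu (hP.pr ha hξQ) ht).resolve_left (hcon ξ hξα)
      refine hP.upw hB' h1 (fun y hy => (ZFSet.mem_sep.1 hy).1) fun η hη => ?_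
      have hηk := sub_k hB' hη
      exact ZFSet.mem_sep.2 ⟨hηk, (hmem ξ hξ η hηk).2 fun _ h3 =>
        h2 η hη h3 _ (hP.insQ ht hηk) rfl⟩
    · refine hP.upw hP.kW h1 (fun y hy => (ZFSet.mem_sep.1 hy).1) fun η hη => ?_
      exact ZFSet.mem_sep.2 ⟨hη, (hmem ξ hξ η hη).2 fun h3 => absurd h3 hξα⟩
  obtain ⟨η, hη⟩ := hP.inhab (hP.inter _ (hP.inter _ (hP.inter _ hB _ (hP.norm F hF hsec)) _
    (hP.unif α hα)) _ (hP.bd_W ht hb))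
  rw [ZFSet.mem_inter, ZFSet.mem_inter, ZFSet.mem_inter, ZFSet.mem_sep, ZFSet.mem_sep,
    ZFSet.mem_sep] at hη
  obtain ⟨⟨⟨h1, h2, h3⟩, -, h4⟩, -, h5⟩ := hη
  obtain ⟨γ, hγ, h6⟩ := h η h1 h5
  have hγη : γ ∈ η := (hP.ordk h2).mem_trans hγ h4
  exact (hmem γ (hP.ord.mem_trans hγη h2) η h2).1 (h3 γ hγη) hγ h5 h6

/-- Pressing down. -/
theorem fodor {P : Pr} (hPu : UPr P) {a t : ZFSet.{0}} (ha : a ∈ Q) (ht : t ∈ Q)
    (hb : Bd W t) {B : ZFSet.{0}} (hB : B ∈ W)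
    (h : ∀ η ∈ B, (∀ ξ ∈ t, ξ ∈ η) → ∃ γ ∈ η, P Q W (pair a γ) (insert η t)) :
    ∃ γ ∈ (ZFSet.sUnion W : ZFSet.{0}), WQ P Q W (pair a γ) t := by
  by_contra hcon
  push Not at hcon
  have hu : UD fun M (v : Fin 4 → ZFSet.{0}) => ∀ ξ ∈ M, ∀ η ∈ M, v 0 = pair ξ η →
      (∀ ζ ∈ v 3, ζ ∈ η) → ∀ t' ∈ M, t' = insert η (v 3) → ∀ b ∈ M,
      b = pair (v 2) ξ → ¬ P M (v 1) b t' := by
    apply UD.all
    apply UD.all
    apply UD.imp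
    · exact UD.of_D0 (D0.isPair (D0v.proj 2) (D0v.proj 1) (D0v.proj 0))
    apply UD.imp
    · exact UD.of_D0 (D0.ball (D0v.proj 5) (D0.mem (D0v.proj 0) (D0v.proj 1)))
    apply UD.all
    apply UD.imp
    · exact UD.of_D0 (D0.isInsert (D0v.proj 0) (D0v.proj 1) (D0v.proj 6))
    apply UD.all
    apply UD.imp
    · exact UD.of_D0 (D0.isPair (D0v.proj 0) (D0v.proj 6) (D0v.proj 3))
    · exact (UD.comp hPu ![5, 0, 1]).not
  have hF := hP.sepU hu (v := ![W, a, t]) (by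
    intro i
    fin_cases i
    exacts [hP.mem, ha, ht]) (hP.prod _ hP.kQ _ hP.kQ)
  set F := ZFSet.sep (fun p => (fun M (v : Fin 4 → ZFSet.{0}) => ∀ ξ ∈ M, ∀ η ∈ M,
      v 0 = pair ξ η → (∀ ζ ∈ v 3, ζ ∈ η) → ∀ t' ∈ M, t' = insert η (v 3) → ∀ b ∈ M,
      b = pair (v 2) ξ → ¬ P M (v 1) b t') Q (Fin.cons p ![W, a, t]))
      (ZFSet.prod (ZFSet.sUnion W) (ZFSet.sUnion W)) with hFdef
  have hmem : ∀ ξ ∈ (ZFSet.sUnion W : ZFSet.{0}), ∀ η ∈ (ZFSet.sUnion W : ZFSet.{0}),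
      (pair ξ η ∈ F ↔ ((∀ ζ ∈ t, ζ ∈ η) → ¬ P Q W (pair a ξ) (insert η t))) := by
    intro ξ hξ η hη
    have hξQ := hP.trans _ hP.kQ _ hξ
    have hηQ := hP.trans _ hP.kQ _ hη
    rw [hFdef, ZFSet.mem_sep, ZFSet.pair_mem_prod]
    constructor
    · rintro ⟨-, h1⟩ h3
      exact h1 ξ hξQ η hηQ rfl h3 _ (hP.ins hηQ ht) rfl _ (hP.pr ha hξQ) rfl
    · intro h1
      refine ⟨⟨hξ, hη⟩, ?_⟩
      rintro ξ' - η' - h2 h4 t' - rfl b - rfl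
      have h2' : pair ξ η = pair ξ' η' := h2
      obtain ⟨rfl, rfl⟩ := ZFSet.pair_inj.1 h2'
      exact h1 h4
  have hsec : ∀ ξ ∈ (ZFSet.sUnion W : ZFSet.{0}),
      ZFSet.sep (fun η => pair ξ η ∈ F) (ZFSet.sUnion W) ∈ W := by
    intro ξ hξ
    have hξQ := hP.trans _ hP.kQ _ hξ
    have hu2 : UD fun _ (v : Fin 3 → ZFSet.{0}) => pair (v 1) (v 0) ∈ v 2 :=
      UD.of_D0 (D0.pairMem (D0v.proj 1) (D0v.proj 0) (D0v.proj 2))
    have h1 := hP.sepU hu2 (v := ![ξ, F]) (by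
      intro i
      fin_cases i
      exacts [hξQ, hF]) hP.kQ
    obtain ⟨B', hB'Q, hB', h2⟩ := (hP.dich hPu (hP.pr ha hξQ) ht).resolve_left (hcon ξ hξ)
    refine hP.upw hB' h1 (fun y hy => (ZFSet.mem_sep.1 hy).1) fun η hη => ?_
    have hηk := sub_k hB' hη
    exact ZFSet.mem_sep.2 ⟨hηk, (hmem ξ hξ η hηk).2 fun h3 =>
      h2 η hη h3 _ (hP.insQ ht hηk) rfl⟩
  obtain ⟨η, hη⟩ := hP.inhab (hP.inter _ (hP.inter _ hB _ (hP.norm F hF hsec)) _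
    (hP.bd_W ht hb))
  rw [ZFSet.mem_inter, ZFSet.mem_inter, ZFSet.mem_sep, ZFSet.mem_sep] at hη
  obtain ⟨⟨h1, h2, h3⟩, -, h5⟩ := hη
  obtain ⟨γ, hγ, h6⟩ := h η h1 h5
  exact (hmem γ (hP.ord.mem_trans hγ h2) η h2).1 (h3 γ hγ) h5 h6

end Pm

/-- Disjunction over the elements of the second component of the parameter. -/
def PE (P : Pr) : Pr := fun M W b s => ∃ a ∈ M, ∃ α ∈ M, b = pair a α ∧ ∃ γ ∈ α,
  ∀ b' ∈ M, b' = pair a γ → P M W b' s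

theorem UPr.pe {P : Pr} (h : UPr P) : UPr (PE P) := by
  unfold UPr PE
  apply UD.ex
  apply UD.ex
  apply UD.and
  · exact UD.of_D0 (D0.isPair (D0v.proj 3) (D0v.proj 1) (D0v.proj 0))
  apply UD.bex (D0v.proj 0)
  apply UD.all
  apply UD.imp
  · exact UD.of_D0 (D0.isPair (D0v.proj 0) (D0v.proj 3) (D0v.proj 1))
  · exact UD.comp h ![4, 0, 6]

namespace Pm

variable {Q : Set ZFSet.{0}} {W : ZFSet.{0}} (hP : Pm Q W)

include hP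

theorem pe_iff {P : Pr} {a α s : ZFSet.{0}} (ha : a ∈ Q) (hα : α ∈ Q) :
    PE P Q W (pair a α) s ↔ ∃ γ ∈ α, P Q W (pair a γ) s := by
  constructor
  · rintro ⟨a', -, α', -, h1, γ, hγ, h2⟩
    obtain ⟨rfl, rfl⟩ := ZFSet.pair_inj.1 h1
    exact ⟨γ, hγ, h2 _ (hP.pr ha (hP.trans _ hα _ hγ)) rfl⟩
  · rintro ⟨γ, hγ, h1⟩
    exact ⟨a, ha, α, hα, rfl, γ, hγ, fun b' _ h2 => h2 ▸ h1⟩

theorem wqn_pe (n : ℕ) : ∀ {P : Pr}, UPr P → ∀ {a α : ZFSet.{0}}, a ∈ Q →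
    α ∈ (ZFSet.sUnion W : ZFSet.{0}) → ∀ {t : ZFSet.{0}}, t ∈ Q → Bd W t →
    (WQ^[n] (PE P)) Q W (pair a α) t → ∃ γ ∈ α, (WQ^[n] P) Q W (pair a γ) t := by
  induction n with
  | zero =>
    intro P hPu a α ha hα t ht hb h
    exact (hP.pe_iff ha (hP.trans _ hP.kQ _ hα)).1 h
  | succ n ih =>
    intro P hPu a α ha hα t ht hb h
    have hαQ := hP.trans _ hP.kQ _ hα
    rw [Function.iterate_succ_apply] at h
    have h1 : (WQ^[n] (PE (WQ P))) Q W (pair a α) t := by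
      refine hP.wqn_mono n (fun t ht hb hw => ?_) ht hb h
      rw [hP.pe_iff ha hαQ]
      obtain ⟨B, hB, hBW, h2⟩ := hw
      refine hP.compl hPu ha ht hα hb hBW fun η hη hs => ?_
      exact (hP.pe_iff ha hαQ).1 (h2 η hη hs _ (hP.insQ ht (sub_k hBW hη)) rfl)
    obtain ⟨γ, hγ, h2⟩ := ih hPu.wq ha hα ht hb h1
    exact ⟨γ, hγ, h2⟩

end Pm

/-- The formula defines `y` from `a` and `s`. -/
theorem ud_Dy (φ : Fml Empty 3) : UD fun M (v : Fin 3 → ZFSet.{0}) => Dy M φ (v 0) (v 1) (v 2) := by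
  unfold Dy
  apply UD.all
  apply UD.iff
  · refine (UD.comp (UD.sat φ) ![0, 2, 3]).congr fun M _ _ v _ => ?_
    have h : (fun i => v ((![0, 2, 3] : Fin 3 → Fin 4) i)) = ![v 0, v 2, v 3] := by
      funext i
      fin_cases i <;> rfl
    rw [h]
    rfl
  · exact UD.of_D0 (D0.eq (D0v.proj 0) (D0v.proj 1))

theorem Dy.uniq {R : Set ZFSet.{0}} {φ : Fml Empty 3} {y y' a s : ZFSet.{0}} (hy : y ∈ R)
    (h : Dy R φ y a s) (h' : Dy R φ y' a s) : y = y' := (h' y hy).1 ((h y hy).2 rfl)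

namespace Gen

variable {Q R : Set ZFSet.{0}} {W : ZFSet.{0}} {σ : ZFSet.{0} → ZFSet.{0}}
  {C : Set ZFSet.{0}} (h : Gen Q W R σ C)

include h

theorem map_pair {a b : ZFSet.{0}} (ha : a ∈ Q) (hb : b ∈ Q) : σ (pair a b) = pair (σ a) (σ b) :=
  (h.tr3 (P := fun _ x y z => x = pair y z) (UD.of_D0 (D0.isPair (D0v.proj 0) (D0v.proj 1)
    (D0v.proj 2))) (h.pm.pr ha hb) ha hb).1 rfl

/-- The use of normality in the iterate. -/
theorem no_use {G : Gr} (hG : UGr G) {a : ZFSet.{0}} (ha : a ∈ Q)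
    (h1 : ∀ t ∈ Q, ∃ B ∈ W, ∀ η ∈ B, (∀ ξ ∈ t, ξ ∈ η) → G Q W a t η)
    {n : ℕ} {s c : ZFSet.{0}} (hs : Inc C n s) (hc : c ∈ C) (hlt : ∀ ξ ∈ s, ξ ∈ c) :
    G R (σ W) (σ a) s c := by
  obtain ⟨B, hB, h2⟩ := h.pm.no_iter hG ha h1 n ∅ h.pm.zero
  have hBQ := h.pm.trans _ h.pm.mem _ hB
  have hu : UD fun M (v : Fin 4 → ZFSet.{0}) => ∀ η ∈ v 0, (NO^[n] G) M (v 1) (v 2) (v 3) η := by
    apply UD.ball (D0v.proj 0)
    exact UD.comp (hG.iter n) ![2, 3, 4, 0]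
  have h3 := (h.tr4 (P := fun M B W a e => ∀ η ∈ B, (NO^[n] G) M W a e η) hu hBQ h.pm.mem ha
    h.pm.zero).1 fun η hη => h2 η hη fun ξ hξ => absurd hξ (ZFSet.notMem_empty ξ)
  have h4 := h3 c (h.gen c hc B hB)
  rw [h.empty] at h4
  exact (no_elim h.insR (fun c hc => h.cR hc) h.zero hs hlt h4).2

variable (hul : ∀ y ∈ R, y ∈ Hd Q R σ C)

include hul

/-- The ordinals below the critical point are fixed. -/
theorem crit : ∀ α ∈ (ZFSet.sUnion W : ZFSet.{0}), σ α = α := by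
  intro α
  induction α using ZFSet.inductionOn with
  | _ α ih =>
  intro hα
  have hαQ := h.pm.trans _ h.pm.kQ _ hα
  have ih' : ∀ γ ∈ α, σ γ = γ := fun γ hγ => ih γ hγ (h.pm.ord.mem_trans hγ hα)
  ext γ'
  constructor
  · intro hγ'
    obtain ⟨hγR, a, ha, n, s, hs, φ, hφ⟩ := hul γ' (h.trans _ (h.el.maps _ hαQ) _ hγ')
    let P : Pr := fun M _ b s => ∃ a ∈ M, ∃ γ ∈ M, b = pair a γ ∧ Dy M φ γ a s
    have hPu : UPr P := by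
      unfold UPr
      apply UD.ex
      apply UD.ex
      apply UD.and
      · exact UD.of_D0 (D0.isPair (D0v.proj 3) (D0v.proj 1) (D0v.proj 0))
      · exact UD.comp (ud_Dy φ) ![0, 1, 4]
    have h1 : PE P R (σ W) (σ (pair a α)) s := by
      rw [h.map_pair ha hαQ]
      refine ⟨σ a, h.el.maps _ ha, σ α, h.el.maps _ hαQ, rfl, γ', hγ', fun b' _ hb' => ?_⟩
      exact ⟨σ a, h.el.maps _ ha, γ', hγR, hb', hφ⟩
    rw [h.type_iff hs hPu.pe (h.pm.pr ha hαQ)] at h1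
    obtain ⟨γ, hγ, h2⟩ := h.pm.wqn_pe n hPu ha hα h.pm.zero h.pm.bd_empty h1
    have hγQ := h.pm.trans _ hαQ _ hγ
    rw [← h.type_iff hs hPu (h.pm.pr ha hγQ), h.map_pair ha hγQ] at h2
    obtain ⟨a', -, γ'', -, h3, h4⟩ := h2
    obtain ⟨rfl, rfl⟩ := ZFSet.pair_inj.1 h3
    have h5 := hφ.uniq hγR h4
    rw [h5, ih' γ hγ]
    exact hγ
  · intro hγ
    have hγQ := h.pm.trans _ hαQ _ hγ
    have h1 := (h.memi hγQ hαQ).1 hγ
    rwa [ih' γ' hγ] at h1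

/-- Subsets of fixed sets. -/
theorem pow {v : ZFSet.{0}} (hv : v ∈ Q) (hfix : ∀ u ∈ v, σ u = u) {x : ZFSet.{0}}
    (hx : x ∈ R) (hxv : x ⊆ v) : x ∈ Q := by
  obtain ⟨-, a, ha, n, s, hs, φ, hφ⟩ := hul x hx
  let P : Pr := fun M _ b s => ∃ a ∈ M, ∃ u ∈ M, b = pair a u ∧ ∃ x ∈ M, Dy M φ x a s ∧ u ∈ x
  have hPu : UPr P := by
    unfold UPr
    apply UD.ex
    apply UD.ex
    apply UD.and
    · exact UD.of_D0 (D0.isPair (D0v.proj 3) (D0v.proj 1) (D0v.proj 0))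
    apply UD.ex
    apply UD.and
    · exact UD.comp (ud_Dy φ) ![0, 2, 5]
    · exact UD.of_D0 (D0.mem (D0v.proj 1) (D0v.proj 0))
  have hu : UD fun M (w : Fin 4 → ZFSet.{0}) => ∃ b ∈ M, b = pair (w 2) (w 0) ∧
      (WQ^[n] P) M (w 1) b (w 3) := by
    apply UD.ex
    apply UD.and
    · exact UD.of_D0 (D0.isPair (D0v.proj 0) (D0v.proj 3) (D0v.proj 1))
    · exact UD.comp (hPu.iter n) ![2, 0, 4]
  have h1 := h.pm.sepU hu (v := ![W, a, ∅]) (by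
    intro i
    fin_cases i
    exacts [h.pm.mem, ha, h.pm.zero]) hv
  have h2 : x = ZFSet.sep (fun u => (fun M (w : Fin 4 → ZFSet.{0}) => ∃ b ∈ M,
      b = pair (w 2) (w 0) ∧ (WQ^[n] P) M (w 1) b (w 3)) Q (Fin.cons u ![W, a, ∅])) v := by
    ext u
    rw [ZFSet.mem_sep]
    have key : ∀ u ∈ v, (u ∈ x ↔ (WQ^[n] P) Q W (pair a u) ∅) := by
      intro u hu
      have huQ := h.pm.trans _ hv _ hu
      rw [← h.type_iff hs hPu (h.pm.pr ha huQ), h.map_pair ha huQ, hfix u hu]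
      constructor
      · intro hux
        exact ⟨σ a, h.el.maps _ ha, u, h.trans _ hx _ hux, rfl, x, hx, hφ, hux⟩
      · rintro ⟨a', -, u', -, h3, x', hx', h4, h5⟩
        obtain ⟨rfl, rfl⟩ := ZFSet.pair_inj.1 h3
        rw [hφ.uniq hx h4]
        exact h5
    constructor
    · intro hux
      have huv := hxv hux
      exact ⟨huv, _, h.pm.pr ha (h.pm.trans _ hv _ huv), rfl, (key u huv).1 hux⟩
    · rintro ⟨huv, b, -, h3, h4⟩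
      have h3' : b = pair a u := h3
      subst h3'
      exact (key u huv).2 h4
  rw [h2]
  exact h1

omit hul in
theorem fix_sub {v : ZFSet.{0}} (hv : v ∈ Q) (hfix : ∀ u ∈ v, σ u = u) (hfv : σ v = v)
    {x : ZFSet.{0}} (hx : x ∈ Q) (hxv : x ⊆ v) : σ x = x := by
  have h1 : σ x ⊆ σ v := (h.tr2 (P := fun _ x v => ∀ u ∈ x, u ∈ v) (UD.of_D0 (D0.ball (D0v.proj 0)
    (D0.mem (D0v.proj 0) (D0v.proj 2)))) hx hv).1 hxv
  ext u
  constructor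
  · intro hu
    have huv : u ∈ v := hfv ▸ h1 hu
    rw [← hfix u huv] at hu
    exact (h.memi (h.pm.trans _ hv _ huv) hx).2 hu
  · intro hu
    have h2 := (h.memi (h.pm.trans _ hx _ hu) hx).1 hu
    rwa [hfix u (hxv hu)] at h2

end Gen

end Pool.Agent.R587
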