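import Mathlib

/-!
# Second-order logic with full semantics: the definitions

A finite relational vocabulary is given by a number `m` and arities `ar : Fin m → ℕ`.
-/

set_option autoImplicit false

namespace Pool.Agent.R587

variable {m : ℕ}

/-- Second-order formulas in the vocabulary with the relation symbols `0, ..., m - 1` of arities
`ar`. There are individual variables `x` for `x : ℕ` and, for each arity `k`, relation variables
`i` for `i : ℕ`. -/
inductive SOF (ar : Fin m → ℕ) : Type
  /-- the relation symbol `r` holds of the variables `x` -/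
  | rel (r : Fin m) (x : Fin (ar r) → ℕ) : SOF ar
  /-- the relation variable `i` of arity `k` holds of the variables `x` -/
  | app (k i : ℕ) (x : Fin k → ℕ) : SOF ar
  /-- equality of variables -/
  | eq (x y : ℕ) : SOF ar
  /-- negation -/
  | neg (φ : SOF ar) : SOF ar
  /-- conjunction -/
  | and (φ ψ : SOF ar) : SOF ar
  /-- there is an element `x` -/
  | ex (x : ℕ) (φ : SOF ar) : SOF ar
  /-- there is a relation `i` of arity `k` -/
  | exR (k i : ℕ) (φ : SOF ar) : SOF ar

/-- Structures. -/
structure Struc (ar : Fin m → ℕ) where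
  /-- the domain -/
  Dom : Type
  /-- the domain is nonempty -/
  ne : Nonempty Dom
  /-- the relations -/
  R : (r : Fin m) → (Fin (ar r) → Dom) → Prop

variable {ar : Fin m → ℕ}

/-- Truth of a second-order formula, where `v` and `w` interpret the individual variables and the
relation variables. The relation quantifiers range over all relations on the domain. -/
def SOF.Sat (A : Struc ar) : SOF ar → (ℕ → A.Dom) → ((k : ℕ) → ℕ → (Fin k → A.Dom) → Prop) → Prop
  | rel r x, v, _ => A.R r fun j => v (x j)
  | app k i x, v, w => w k i fun j => v (x j)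
  | eq x y, v, _ => v x = v y
  | neg φ, v, w => ¬ φ.Sat A v w
  | and φ ψ, v, w => φ.Sat A v w ∧ ψ.Sat A v w
  | ex x φ, v, w => ∃ a : A.Dom, φ.Sat A (Function.update v x a) w
  | exR k i φ, v, w => ∃ P : (Fin k → A.Dom) → Prop,
      φ.Sat A v (Function.update w k (Function.update (w k) i P))

/-- The individual variable `z` is free in the formula. -/
def SOF.FreeI (z : ℕ) : SOF ar → Prop
  | rel _ x => ∃ j, x j = z
  | app _ _ x => ∃ j, x j = z
  | eq x y => x = z ∨ y = z
  | neg φ => φ.FreeI z
  | and φ ψ => φ.FreeI z ∨ ψ.FreeI z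
  | ex x φ => x ≠ z ∧ φ.FreeI z
  | exR _ _ φ => φ.FreeI z

/-- The relation variable `l` of arity `j` is free in the formula. -/
def SOF.FreeR (j l : ℕ) : SOF ar → Prop
  | rel _ _ => False
  | app k i _ => k = j ∧ i = l
  | eq _ _ => False
  | neg φ => φ.FreeR j l
  | and φ ψ => φ.FreeR j l ∨ ψ.FreeR j l
  | ex _ φ => φ.FreeR j l
  | exR k i φ => ¬ (k = j ∧ i = l) ∧ φ.FreeR j l

/-- A sentence is a formula without free variables. -/
def SOF.Sentence (φ : SOF ar) : Prop := (∀ z, ¬ φ.FreeI z) ∧ ∀ j l, ¬ φ.FreeR j l

/-- The structure satisfies the formula (under all interpretations of the variables). -/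
def Models (A : Struc ar) (φ : SOF ar) : Prop := ∀ v w, φ.Sat A v w

/-- The structure is a model of the theory. -/
def ModelsT (A : Struc ar) (T : Set (SOF ar)) : Prop := ∀ φ ∈ T, Models A φ

/-- Isomorphism of structures. -/
def Isom (A B : Struc ar) : Prop :=
  ∃ e : A.Dom ≃ B.Dom, ∀ r x, A.R r x ↔ B.R r fun j => e (x j)

/-- A Goedel numbering of the formulas. The individual variable `x` has the number `3 * x + 2`,
the relation variable `i` of arity `k` has the number `3 * ⟨k, i⟩ + 3`. -/
def SOF.code : SOF ar → ℕ
  | rel r x => Nat.pair 0 (Nat.pair r (Encodable.encode (List.ofFn fun j => 3 * x j + 2)))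
  | app k i x => Nat.pair 1 (Nat.pair (3 * Nat.pair k i + 3)
      (Encodable.encode (List.ofFn fun j => 3 * x j + 2)))
  | eq x y => Nat.pair 2 (Nat.pair (3 * x + 2) (3 * y + 2))
  | neg φ => Nat.pair 3 φ.code
  | and φ ψ => Nat.pair 4 (Nat.pair φ.code ψ.code)
  | ex x φ => Nat.pair 5 (Nat.pair (3 * x + 2) φ.code)
  | exR k i φ => Nat.pair 6 (Nat.pair k (Nat.pair (3 * Nat.pair k i + 3) φ.code))

/-- A theory: a set of sentences. -/
def IsTheory (T : Set (SOF ar)) : Prop := ∀ φ ∈ T, φ.Sentence

/-- The theory is complete: it has a model, and each sentence or its negation holds in all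
its models. -/
def CompleteT (T : Set (SOF ar)) : Prop :=
  (∃ A : Struc ar, ModelsT A T) ∧ ∀ φ : SOF ar, φ.Sentence →
    (∀ A : Struc ar, ModelsT A T → Models A φ) ∨ ∀ A : Struc ar, ModelsT A T → Models A φ.neg

/-- The theory is recursively axiomatized: it has the same models as some recursive set of
sentences. -/
def RecAx (T : Set (SOF ar)) : Prop :=
  ∃ T' : Set (SOF ar), IsTheory T' ∧ (ComputablePred fun n : ℕ => ∃ φ ∈ T', φ.code = n) ∧
    ∀ A : Struc ar, ModelsT A T ↔ ModelsT A T'

/-- The theory is categorical: any two models are isomorphic. -/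
def CategoricalT (T : Set (SOF ar)) : Prop :=
  ∀ A B : Struc ar, ModelsT A T → ModelsT B T → Isom A B

end Pool.Agent.R587
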