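import Pool.Agent.R587.Tm

/-!
# The long iterate, constructed from terms
-/

set_option autoImplicit false

namespace Pool.Agent.R587

open Pool.Agent.W868 hiding Models
open ZFSet (pair)
open Cardinal

/-- The terms with values for the indices in `Θ`. -/
structure TmM (Q : Set ZFSet.{0}) (W : ZFSet.{0}) (Θ : Set ZFSet.{0}) {T : Type} (te : T → Te) :
    Prop where
  pm : Pm Q W
  ord : ∀ y ∈ Θ, y.IsOrdinal
  rea : ∀ S : Set ZFSet.{0}, (∀ j ∈ S, j ∈ Θ) → S.Countable → ∃ R σ g, Rea Q W S R σ g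
  ok : ∀ p, (te p).Ok Q Θ
  hv : ∀ p, ∃ S R σ g, Rea Q W S R σ g ∧ (te p).Ok Q S ∧ ∃ y, (te p).V R σ g y
  surj : ∀ t : Te, t.Ok Q Θ → (∃ S R σ g, Rea Q W S R σ g ∧ t.Ok Q S ∧ ∃ y, t.V R σ g y) →
    ∃ p, te p = t

section

variable {Q : Set ZFSet.{0}} {W : ZFSet.{0}} {Θ : Set ZFSet.{0}} {T : Type} {te : T → Te}

/-- The membership of the terms. -/
def Em (Q : Set ZFSet.{0}) (W : ZFSet.{0}) (te : T → Te) (p q : T) : Prop :=
  ∃ (S R : Set ZFSet.{0}) (σ g : ZFSet.{0} → ZFSet.{0}) (y z : ZFSet.{0}), Rea Q W S R σ g ∧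
    (te p).Ok Q S ∧ (te q).Ok Q S ∧ (te p).V R σ g y ∧ (te q).V R σ g z ∧ y ∈ z

namespace TmM

variable (h : TmM Q W Θ te)

include h

theorem rea_of {I : Type} [Countable I] (ts : I → T) : ∃ (S R : Set ZFSet.{0})
    (σ g : ZFSet.{0} → ZFSet.{0}), Rea Q W S R σ g ∧
    ∀ i, (te (ts i)).Ok Q S ∧ ∃ y, (te (ts i)).V R σ g y := by
  let S : Set ZFSet.{0} := ⋃ i, {x | x ∈ (te (ts i)).s}
  have hS : S.Countable := Set.countable_iUnion fun i => (h.ok (ts i)).2.1.2.countable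
  obtain ⟨R, σ, g, hR⟩ := h.rea S (fun j hj => by
    obtain ⟨i, hi⟩ := Set.mem_iUnion.1 hj
    exact (h.ok (ts i)).2.2 j hi) hS
  refine ⟨S, R, σ, g, hR, fun i => ?_⟩
  have h1 : (te (ts i)).Ok Q S :=
    ⟨(h.ok _).1, (h.ok _).2.1, fun x hx => Set.mem_iUnion.2 ⟨i, hx⟩⟩
  obtain ⟨S', R', σ', g', hR', h2, h3⟩ := h.hv (ts i)
  exact ⟨h1, tv h.pm hR' hR h2 h1 h3⟩

theorem rea3 (p q r : T) : ∃ (S R : Set ZFSet.{0}) (σ g : ZFSet.{0} → ZFSet.{0})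
    (x y z : ZFSet.{0}), Rea Q W S R σ g ∧ (te p).Ok Q S ∧ (te q).Ok Q S ∧ (te r).Ok Q S ∧
    (te p).V R σ g x ∧ (te q).V R σ g y ∧ (te r).V R σ g z := by
  obtain ⟨S, R, σ, g, hR, h1⟩ := h.rea_of ![p, q, r]
  obtain ⟨a1, x, b1⟩ := h1 0
  obtain ⟨a2, y, b2⟩ := h1 1
  obtain ⟨a3, z, b3⟩ := h1 2
  exact ⟨S, R, σ, g, x, y, z, hR, a1, a2, a3, b1, b2, b3⟩

omit h in
theorem v2 {R : Set ZFSet.{0}} {σ g : ZFSet.{0} → ZFSet.{0}} {p q : Te} {y z : ZFSet.{0}}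
    (h : p.V R σ g y) (h' : q.V R σ g z) : ∀ l, ((![p, q] : Fin 2 → Te) l).V R σ g
      ((![y, z] : Fin 2 → ZFSet.{0}) l) := by
  intro l
  fin_cases l
  exacts [h, h']

omit h in
theorem o2 {Q S : Set ZFSet.{0}} {p q : Te} (h : p.Ok Q S) (h' : q.Ok Q S) :
    ∀ l, ((![p, q] : Fin 2 → Te) l).Ok Q S := by
  intro l
  fin_cases l
  exacts [h, h']

theorem em_iff {p q : T} {S R : Set ZFSet.{0}} {σ g : ZFSet.{0} → ZFSet.{0}} {y z : ZFSet.{0}}
    (hR : Rea Q W S R σ g) (hp : (te p).Ok Q S) (hq : (te q).Ok Q S) (hy : (te p).V R σ g y)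
    (hz : (te q).V R σ g z) : Em Q W te p q ↔ y ∈ z := by
  constructor
  · rintro ⟨S', R', σ', g', y', z', hR', hp', hq', hy', hz', h1⟩
    have h2 := tt h.pm hR' hR (.mem (Sum.inl 0) (Sum.inl 1) : Fml Empty 2) (o2 hp' hq')
      (o2 hp hq) (v2 hy' hz') (v2 hy hz)
    exact h2.1 h1
  · intro h1
    exact ⟨S, R, σ, g, y, z, hR, hp, hq, hy, hz, h1⟩

theorem eq_iff {p q : T} {S R S' R' : Set ZFSet.{0}} {σ g σ' g' : ZFSet.{0} → ZFSet.{0}}
    {y z y' z' : ZFSet.{0}} (hR : Rea Q W S R σ g) (hp : (te p).Ok Q S) (hq : (te q).Ok Q S)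
    (hy : (te p).V R σ g y) (hz : (te q).V R σ g z)
    (hR' : Rea Q W S' R' σ' g') (hp' : (te p).Ok Q S') (hq' : (te q).Ok Q S')
    (hy' : (te p).V R' σ' g' y') (hz' : (te q).V R' σ' g' z') : y = z ↔ y' = z' :=
  tt h.pm hR hR' (.eq (Sum.inl 0) (Sum.inl 1) : Fml Empty 2) (o2 hp hq) (o2 hp' hq') (v2 hy hz)
    (v2 hy' hz')

theorem wf : WellFounded (Em Q W te) := by
  rw [wellFounded_iff_isEmpty_descending_chain]
  refine ⟨fun ⟨f, hf⟩ => ?_⟩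
  obtain ⟨S, R, σ, g, hR, h1⟩ := h.rea_of f
  choose y hy using fun i => (h1 i).2
  have h2 : ∀ n, y (n + 1) ∈ y n := fun n =>
    (h.em_iff hR (h1 (n + 1)).1 (h1 n).1 (hy (n + 1)) (hy n)).1 (hf n)
  exact (wellFounded_iff_isEmpty_descending_chain.1 ZFSet.mem_wf).false ⟨y, h2⟩

/-- The set coded by a term. -/
theorem mem_pi {p : T} {z : ZFSet.{0}} : z ∈ val (Em Q W te) p ↔
    ∃ q, Em Q W te q p ∧ z = val (Em Q W te) q := mem_val h.wf

/-- Terms with the same value code the same set. -/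
theorem pi_congr {p q : T} {S R : Set ZFSet.{0}} {σ g : ZFSet.{0} → ZFSet.{0}} {y : ZFSet.{0}}
    (hR : Rea Q W S R σ g) (hp : (te p).Ok Q S) (hq : (te q).Ok Q S) (hy : (te p).V R σ g y)
    (hz : (te q).V R σ g y) : val (Em Q W te) p = val (Em Q W te) q := by
  have key : ∀ r, Em Q W te r p ↔ Em Q W te r q := by
    intro r
    obtain ⟨S', R', σ', g', y1, y2, y3, hR', hr1, hr2, hr3, hy1, hy2, hy3⟩ :=
      h.rea3 r p q
    have h2 : y2 = y3 := (h.eq_iff hR hp hq hy hz hR' hr2 hr3 hy2 hy3).1 rfl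
    rw [h.em_iff hR' hr1 hr2 hy1 hy2, h.em_iff hR' hr1 hr3 hy1 hy3, h2]
  ext z
  rw [h.mem_pi, h.mem_pi]
  exact exists_congr fun r => and_congr_left fun _ => key r

/-- Witnesses are values of terms. -/
theorem sk' {S R : Set ZFSet.{0}} {σ g : ZFSet.{0} → ZFSet.{0}} (hR : Rea Q W S R σ g) {k : ℕ}
    (ψ : Fml Empty (k + 1)) {ts : Fin k → T} (ht : ∀ l, (te (ts l)).Ok Q S)
    {y : Fin k → ZFSet.{0}} (hy : ∀ l, (te (ts l)).V R σ g (y l))
    (hex : ∃ x ∈ R, Sat R Empty.elim ψ (Fin.cons x y)) :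
    ∃ p, (te p).Ok Q S ∧ ∃ y0, (te p).V R σ g y0 ∧ Sat R Empty.elim ψ (Fin.cons y0 y) := by
  obtain ⟨t0, h1, h2, y0, h3, h4⟩ := sk h.pm hR ψ ht hy hex
  obtain ⟨p, hp⟩ := h.surj t0 ⟨h1.1, h1.2.1, fun x hx => by
    obtain ⟨l, hl⟩ := h2 x hx
    exact (h.ok (ts l)).2.2 x hl⟩ ⟨S, R, σ, g, hR, h1, y0, h3⟩
  exact ⟨p, by rw [hp]; exact h1, y0, by rw [hp]; exact h3, h4⟩

/-- Terms that code the same set have the same values. -/
theorem pi_inj {p : T} : ∀ {q : T}, val (Em Q W te) p = val (Em Q W te) q →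
    ∀ {S R : Set ZFSet.{0}} {σ g : ZFSet.{0} → ZFSet.{0}} {y z : ZFSet.{0}}, Rea Q W S R σ g →
    (te p).Ok Q S → (te q).Ok Q S → (te p).V R σ g y → (te q).V R σ g z → y = z := by
  induction p using h.wf.induction with
  | _ p ih =>
  intro q hpq S R σ g y z hR hp hq hy hz
  have h2 : ∀ ts : Fin 2 → T, (∀ l, (te (ts l)).Ok Q S) → ∀ w : Fin 2 → ZFSet.{0},
      (∀ l, (te (ts l)).V R σ g (w l)) → (∃ x, x ∈ w 0 ∧ ¬ x ∈ w 1) →
      ∃ r, (te r).Ok Q S ∧ ∃ x, (te r).V R σ g x ∧ x ∈ w 0 ∧ ¬ x ∈ w 1 := by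
    intro ts hts w hw hex
    obtain ⟨x, hx1, hx2⟩ := hex
    obtain ⟨r, h3, x, h4, h5⟩ := h.sk' hR (.and (.mem (Sum.inl 0) (Sum.inl 1))
      (.neg (.mem (Sum.inl 0) (Sum.inl 2))) : Fml Empty 3) hts hw
      ⟨x, hR.trans _ (hw 0).1 _ hx1, hx1, hx2⟩
    exact ⟨r, h3, x, h4, h5.1, h5.2⟩
  -- a difference gives a contradiction
  have key1 : ∀ x ∈ y, x ∈ z := by
    by_contra hcon
    push Not at hcon
    obtain ⟨x, hx⟩ := hcon
    obtain ⟨r, h3, x', h4, h5, h6⟩ := h2 ![p, q] (by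
      intro l
      fin_cases l
      exacts [hp, hq]) ![y, z] (by
      intro l
      fin_cases l
      exacts [hy, hz]) ⟨x, hx⟩
    have h7 : Em Q W te r p := (h.em_iff hR h3 hp h4 hy).2 h5
    have h8 : val (Em Q W te) r ∈ val (Em Q W te) q := hpq ▸ h.mem_pi.2 ⟨r, h7, rfl⟩
    obtain ⟨r', h9, h10⟩ := h.mem_pi.1 h8
    obtain ⟨S', R', σ', g', y1, y2, y3, hR', hr1, hr2, hr3, hy1, hy2, hy3⟩ :=
      h.rea3 r r' q
    have h12 : y1 = y2 := ih r h7 h10 hR' hr1 hr2 hy1 hy2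
    have h13 : y2 ∈ y3 := (h.em_iff hR' hr2 hr3 hy2 hy3).1 h9
    rw [← h12, ← h.em_iff hR' hr1 hr3 hy1 hy3, h.em_iff hR h3 hq h4 hz] at h13
    exact h6 h13
  have key2 : ∀ x ∈ z, x ∈ y := by
    by_contra hcon
    push Not at hcon
    obtain ⟨x, hx⟩ := hcon
    obtain ⟨r, h3, x', h4, h5, h6⟩ := h2 ![q, p] (by
      intro l
      fin_cases l
      exacts [hq, hp]) ![z, y] (by
      intro l
      fin_cases l
      exacts [hz, hy]) ⟨x, hx⟩
    have h7 : Em Q W te r q := (h.em_iff hR h3 hq h4 hz).2 h5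
    have h8 : val (Em Q W te) r ∈ val (Em Q W te) p := hpq ▸ h.mem_pi.2 ⟨r, h7, rfl⟩
    obtain ⟨r', h9, h10⟩ := h.mem_pi.1 h8
    obtain ⟨S', R', σ', g', y1, y2, y3, hR', hr1, hr2, hr3, hy1, hy2, hy3⟩ :=
      h.rea3 r r' p
    have h12 : y2 = y1 := ih r' h9 h10.symm hR' hr2 hr1 hy2 hy1
    have h13 : y2 ∈ y3 := (h.em_iff hR' hr2 hr3 hy2 hy3).1 h9
    rw [h12, ← h.em_iff hR' hr1 hr3 hy1 hy3, h.em_iff hR h3 hp h4 hy] at h13
    exact h6 h13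
  ext x
  exact ⟨key1 x, key2 x⟩

/-- The iterate. -/
theorem los {k : ℕ} (ψ : Fml Empty k) : ∀ {ts : Fin k → T} {S R : Set ZFSet.{0}}
    {σ g : ZFSet.{0} → ZFSet.{0}} {y : Fin k → ZFSet.{0}}, Rea Q W S R σ g →
    (∀ l, (te (ts l)).Ok Q S) → (∀ l, (te (ts l)).V R σ g (y l)) →
    (Sat (Set.range (val (Em Q W te))) Empty.elim ψ (fun l => val (Em Q W te) (ts l)) ↔
      Sat R Empty.elim ψ y) := by
  induction ψ with
  | mem s t =>
    rcases s with i | a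
    · rcases t with j | a
      · intro ts S R σ g y hR ht hy
        change val (Em Q W te) (ts i) ∈ val (Em Q W te) (ts j) ↔ y i ∈ y j
        rw [← h.em_iff hR (ht i) (ht j) (hy i) (hy j)]
        constructor
        · intro h1
          obtain ⟨r, h2, h3⟩ := h.mem_pi.1 h1
          obtain ⟨S', R', σ', g', y1, y2, y3, hR', hr1, hr2, hr3, hy1, hy2, hy3⟩ :=
            h.rea3 (ts i) r (ts j)
          have h5 : y1 = y2 := h.pi_inj h3 hR' hr1 hr2 hy1 hy2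
          have h6 : Em Q W te (ts i) (ts j) := by
            rw [h.em_iff hR' hr1 hr3 hy1 hy3, h5, ← h.em_iff hR' hr2 hr3 hy2 hy3]
            exact h2
          exact h6
        · intro h1
          exact h.mem_pi.2 ⟨_, h1, rfl⟩
      · exact a.elim
    · exact a.elim
  | eq s t =>
    rcases s with i | a
    · rcases t with j | a
      · intro ts S R σ g y hR ht hy
        change val (Em Q W te) (ts i) = val (Em Q W te) (ts j) ↔ y i = y j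
        constructor
        · intro h1
          exact h.pi_inj h1 hR (ht i) (ht j) (hy i) (hy j)
        · intro h1
          exact h.pi_congr hR (ht i) (ht j) (hy i) (by rw [h1]; exact hy j)
      · exact a.elim
    · exact a.elim
  | neg φ ih =>
    intro ts S R σ g y hR ht hy
    exact not_congr (ih hR ht hy)
  | and φ ψ ih1 ih2 =>
    intro ts S R σ g y hR ht hy
    exact and_congr (ih1 hR ht hy) (ih2 hR ht hy)
  | @ex k φ ih =>
    intro ts S R σ g y hR ht hy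
    constructor
    · rintro ⟨x, ⟨p, rfl⟩, h1⟩
      obtain ⟨S', R', σ', g', hR', h2⟩ := h.rea_of (Fin.cons p ts : Fin (k + 1) → T)
      choose w hw using fun i => (h2 i).2
      have h3 : (fun l => val (Em Q W te) ((Fin.cons p ts : Fin (k + 1) → T) l)) =
          Fin.cons (val (Em Q W te) p) fun l => val (Em Q W te) (ts l) := by
        funext l
        refine Fin.cases ?_ (fun l => ?_) l
        · rfl
        · rfl
      have h4 := (ih (ts := Fin.cons p ts) hR' (fun l => (h2 l).1) hw).1 (by rw [h3]; exact h1)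
      have h5 : Sat R' Empty.elim (.ex φ) fun l => w l.succ := by
        refine ⟨w 0, (hw 0).1, ?_⟩
        have h6 : (Fin.cons (w 0) (fun l : Fin k => w l.succ) : Fin (k + 1) → ZFSet.{0}) = w :=
          Fin.cons_self_tail w
        rw [h6]
        exact h4
      exact (tt h.pm hR' hR (.ex φ) (t := fun l => te (ts l)) (fun l => (h2 l.succ).1) ht
        (fun l => hw l.succ) hy).1 h5
    · intro h1
      obtain ⟨p, h2, y0, h3, h4⟩ := h.sk' hR φ ht hy h1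
      refine ⟨val (Em Q W te) p, ⟨p, rfl⟩, ?_⟩
      have h5 := (ih (ts := Fin.cons p ts) (y := Fin.cons y0 y) hR (by
        intro l
        refine Fin.cases ?_ (fun l => ?_) l
        · exact h2
        · exact ht l) (by
        intro l
        refine Fin.cases ?_ (fun l => ?_) l
        · exact h3
        · exact hy l)).2 h4
      have h6 : (fun l => val (Em Q W te) ((Fin.cons p ts : Fin (k + 1) → T) l)) =
          Fin.cons (val (Em Q W te) p) fun l => val (Em Q W te) (ts l) := by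
        funext l
        refine Fin.cases ?_ (fun l => ?_) l
        · rfl
        · rfl
      rw [h6] at h5
      exact h5

end TmM

end

/-- There is a set of terms. -/
theorem exists_tmM {Q : ZFSet.{0}} {W : ZFSet.{0}} (hP : Pm {x | x ∈ Q} W) {Θ : ZFSet.{0}}
    (hΘ : ∀ y ∈ Θ, y.IsOrdinal)
    (hR : ∀ S : Set ZFSet.{0}, (∀ j ∈ S, j ∈ Θ) → S.Countable →
      ∃ R σ g, Rea {x | x ∈ Q} W S R σ g) :
    ∃ (T : Type) (te : T → Te), TmM {x | x ∈ Q} W {j | j ∈ Θ} te := by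
  let T0 : Type := Fml Empty 3 × Shrink.{0} {a : ZFSet.{0} // a ∈ Q} ×
    Shrink.{0} {s : ZFSet.{0} // s ∈ finS Θ}
  let te0 : T0 → Te := fun p => ⟨p.1, ((equivShrink _).symm p.2.1).1,
    ((equivShrink _).symm p.2.2).1⟩
  have hok : ∀ p, (te0 p).Ok {x | x ∈ Q} {j | j ∈ Θ} := by
    intro p
    have h1 := ((equivShrink {s : ZFSet.{0} // s ∈ finS Θ}).symm p.2.2).2
    have h2 := ZFSet.mem_sep.1 h1
    have h3 := ZFSet.mem_powerset.1 h2.1
    exact ⟨((equivShrink {a : ZFSet.{0} // a ∈ Q}).symm p.2.1).2,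
      ⟨fun y hy => hΘ y (h3 hy), h2.2⟩, fun x hx => h3 hx⟩
  refine ⟨{p : T0 // ∃ S R σ g, Rea {x | x ∈ Q} W S R σ g ∧ (te0 p).Ok {x | x ∈ Q} S ∧
    ∃ y, (te0 p).V R σ g y}, fun p => te0 p.1, hP, hΘ, hR, fun p => hok p.1, fun p => p.2,
    fun t ht hv => ?_⟩
  obtain ⟨h1, h2, h3⟩ := ht
  have h4 : t.s ∈ finS Θ := ZFSet.mem_sep.2 ⟨ZFSet.mem_powerset.2 fun x hx => h3 x hx, h2.2⟩
  let p : T0 := ⟨t.f, equivShrink _ ⟨t.a, h1⟩, equivShrink _ ⟨t.s, h4⟩⟩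
  have hp : te0 p = t := by
    simp [te0, p]
  exact ⟨⟨p, by rw [hp]; exact hv⟩, hp⟩

/-- The formula `y = a`. -/
noncomputable def fId : Fml Empty 3 := .eq (Sum.inl 0) (Sum.inl 1)

/-- The formula `y = s`. -/
noncomputable def fSu : Fml Empty 3 := .eq (Sum.inl 0) (Sum.inl 2)

/-- The formula `y ∈ s`. -/
noncomputable def fEl : Fml Empty 3 := .mem (Sum.inl 0) (Sum.inl 2)

theorem im_empty' {g : ZFSet.{0} → ZFSet.{0}} : im g ∅ = ∅ := by
  rw [ZFSet.eq_empty]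
  intro y hy
  obtain ⟨x, hx, -⟩ := mem_im.1 hy
  exact ZFSet.notMem_empty x hx

theorem im_single {g : ZFSet.{0} → ZFSet.{0}} {j : ZFSet.{0}} : im g {j} = {g j} := by
  ext y
  rw [mem_im, ZFSet.mem_singleton]
  constructor
  · rintro ⟨x, hx, rfl⟩
    rw [ZFSet.mem_singleton.1 hx]
  · rintro rfl
    exact ⟨j, ZFSet.mem_singleton.2 rfl, rfl⟩

theorem v_id {Q S R : Set ZFSet.{0}} {W : ZFSet.{0}} {σ g : ZFSet.{0} → ZFSet.{0}}
    (h : Rea Q W S R σ g) {a s : ZFSet.{0}} (ha : a ∈ Q) : (Te.mk fId a s).V R σ g (σ a) :=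
  ⟨h.el.maps _ ha, fun _ _ => Iff.rfl⟩

theorem v_su {Q S R : Set ZFSet.{0}} {W : ZFSet.{0}} {σ g : ZFSet.{0} → ZFSet.{0}}
    (h : Rea Q W S R σ g) (hP : Pm Q W) {a s : ZFSet.{0}} (hs : FO s) (hsS : ∀ x ∈ s, x ∈ S) :
    (Te.mk fSu a s).V R σ g (im g s) :=
  ⟨h.imR hP hs hsS, fun _ _ => Iff.rfl⟩

theorem v_el {Q S R : Set ZFSet.{0}} {W : ZFSet.{0}} {σ g : ZFSet.{0} → ZFSet.{0}}
    (h : Rea Q W S R σ g) (hP : Pm Q W) {a j : ZFSet.{0}} (hj : j ∈ S) :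
    (Te.mk fEl a {j}).V R σ g (g j) := by
  refine ⟨h.gR hP hj, fun z _ => ?_⟩
  change z ∈ im g {j} ↔ z = g j
  rw [im_single, ZFSet.mem_singleton]

/-- The long iterate. -/
theorem em {Q : ZFSet.{0}} {W : ZFSet.{0}} (hP : Pm {x | x ∈ Q} W) {Θ : ZFSet.{0}}
    (hΘ : ∀ y ∈ Θ, y.IsOrdinal)
    (hR : ∀ S : Set ZFSet.{0}, (∀ j ∈ S, j ∈ Θ) → S.Countable →
      ∃ R σ g, Rea {x | x ∈ Q} W S R σ g) :
    ∃ (R : ZFSet.{0}) (σ g : ZFSet.{0} → ZFSet.{0}),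
      Rea {x | x ∈ Q} W {j | j ∈ Θ} {x | x ∈ R} σ g ∧
      ∀ y ∈ R, y ∈ Hd {x | x ∈ Q} {x | x ∈ R} σ {c | ∃ j ∈ Θ, c = g j} := by
  classical
  obtain ⟨T, te, h⟩ := exists_tmM hP hΘ hR
  -- the terms for the parameters and for the indices
  have hid : ∀ a ∈ Q, ∃ p, te p = ⟨fId, a, ∅⟩ := by
    intro a ha
    have hO : ∀ S, (Te.mk fId a ∅).Ok {x | x ∈ Q} S := fun S =>
      ⟨ha, FO.empty, fun x hx => absurd hx (ZFSet.notMem_empty x)⟩
    obtain ⟨R, σ, g, hR1⟩ := hR ∅ (fun _ h => h.elim) Set.countable_empty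
    exact h.surj _ (hO _) ⟨∅, R, σ, g, hR1, hO _, _, v_id hR1 ha⟩
  have hel : ∀ j ∈ Θ, ∃ p, te p = ⟨fEl, ∅, {j}⟩ := by
    intro j hj
    have hO : ∀ S : Set ZFSet.{0}, j ∈ S → (Te.mk fEl ∅ {j}).Ok {x | x ∈ Q} S := fun S hS =>
      ⟨hP.zero, FO.single (hΘ j hj), fun x hx => ZFSet.mem_singleton.1 hx ▸ hS⟩
    obtain ⟨R, σ, g, hR1⟩ := hR {j} (fun x hx => (Set.mem_singleton_iff.1 hx) ▸ hj)
      (Set.countable_singleton j)
    exact h.surj _ (hO _ hj) ⟨{j}, R, σ, g, hR1, hO _ rfl, _, v_el hR1 hP rfl⟩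
  have hsu : ∀ s, FO s → (∀ x ∈ s, x ∈ Θ) → ∃ p, te p = ⟨fSu, ∅, s⟩ := by
    intro s hs hsΘ
    have hO : ∀ S : Set ZFSet.{0}, (∀ x ∈ s, x ∈ S) → (Te.mk fSu ∅ s).Ok {x | x ∈ Q} S :=
      fun S hS => ⟨hP.zero, hs, hS⟩
    obtain ⟨R, σ, g, hR1⟩ := hR {x | x ∈ s} hsΘ hs.2.countable
    exact h.surj _ (hO _ hsΘ) ⟨_, R, σ, g, hR1, hO _ fun x hx => hx, _,
      v_su hR1 hP hs fun x hx => hx⟩
  let π : T → ZFSet.{0} := val (Em {x | x ∈ Q} W te)
  let σ' : ZFSet.{0} → ZFSet.{0} := fun a => if ha : a ∈ Q then π (hid a ha).choose else ∅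
  let g' : ZFSet.{0} → ZFSet.{0} := fun j => if hj : j ∈ Θ then π (hel j hj).choose else ∅
  let R' : ZFSet.{0} := ZFSet.range π
  have hR' : {x | x ∈ R'} = Set.range (val (Em {x | x ∈ Q} W te)) := by
    ext x
    exact ZFSet.mem_range
  have hσ : ∀ a ∈ Q, ∃ p, te p = ⟨fId, a, ∅⟩ ∧ σ' a = π p := fun a ha =>
    ⟨_, (hid a ha).choose_spec, dif_pos ha⟩
  have hg : ∀ j ∈ Θ, ∃ p, te p = ⟨fEl, ∅, {j}⟩ ∧ g' j = π p := fun j hj =>
    ⟨_, (hel j hj).choose_spec, dif_pos hj⟩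
  have htrans : ∀ x ∈ {x | x ∈ R'}, ∀ y ∈ x, y ∈ {x | x ∈ R'} := by
    intro x hx y hy
    rw [hR'] at hx ⊢
    obtain ⟨p, rfl⟩ := hx
    obtain ⟨q, -, rfl⟩ := h.mem_pi.1 hy
    exact ⟨q, rfl⟩
  have hRea : Rea {x | x ∈ Q} W {j | j ∈ Θ} {x | x ∈ R'} σ' g' := by
    refine ⟨htrans, ⟨fun x hx => ?_, fun {n} φ v hv => ?_⟩, fun j hj A hA => ?_,
      fun j hj k hk hkj => ?_⟩
    · obtain ⟨p, -, h1⟩ := hσ x hx
      rw [h1]
      exact ZFSet.mem_range.2 ⟨p, rfl⟩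
    · choose p hp1 hp2 using fun i => hσ (v i) (hv i)
      obtain ⟨S, R, σ, g, hR1, h1⟩ := h.rea_of p
      have h2 : ∀ l, (te (p l)).V R σ g (σ (v l)) := fun l => by
        rw [hp1]
        exact v_id hR1 (hv l)
      rw [hR', funext hp2]
      exact (hR1.el.sat φ v hv).trans (h.los φ hR1 (fun l => (h1 l).1) h2).symm
    · obtain ⟨p, hp1, hp2⟩ := hg j hj
      have hAQ := hP.trans _ hP.mem _ hA
      obtain ⟨q, hq1, hq2⟩ := hσ A hAQ
      rw [hp2, hq2]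
      obtain ⟨S, R, σ, g, hR1, h1⟩ := h.rea_of ![p, q]
      have hpo : (te p).Ok {x | x ∈ Q} S := (h1 0).1
      have hqo : (te q).Ok {x | x ∈ Q} S := (h1 1).1
      have hjS : j ∈ S := by
        have h2 := hpo.2.2
        rw [hp1] at h2
        exact h2 j (ZFSet.mem_singleton.2 rfl)
      have hpv : (te p).V R σ g (g j) := hp1 ▸ v_el hR1 hP hjS
      have hqv : (te q).V R σ g (σ A) := hq1 ▸ v_id hR1 hAQ
      exact h.mem_pi.2 ⟨p, (h.em_iff hR1 hpo hqo hpv hqv).2 (hR1.gen j hjS A hA), rfl⟩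
    · obtain ⟨p, hp1, hp2⟩ := hg k hk
      obtain ⟨q, hq1, hq2⟩ := hg j hj
      rw [hp2, hq2]
      obtain ⟨S, R, σ, g, hR1, h1⟩ := h.rea_of ![p, q]
      have hpo : (te p).Ok {x | x ∈ Q} S := (h1 0).1
      have hqo : (te q).Ok {x | x ∈ Q} S := (h1 1).1
      have hkS : k ∈ S := by
        have h2 := hpo.2.2
        rw [hp1] at h2
        exact h2 k (ZFSet.mem_singleton.2 rfl)
      have hjS : j ∈ S := by
        have h2 := hqo.2.2
        rw [hq1] at h2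
        exact h2 j (ZFSet.mem_singleton.2 rfl)
      have hpv : (te p).V R σ g (g k) := hp1 ▸ v_el hR1 hP hkS
      have hqv : (te q).V R σ g (g j) := hq1 ▸ v_el hR1 hP hjS
      exact h.mem_pi.2 ⟨p, (h.em_iff hR1 hpo hqo hpv hqv).2 (hR1.mono j hjS k hkS hkj), rfl⟩
  refine ⟨R', σ', g', hRea, fun y hy => ?_⟩
  obtain ⟨p, rfl⟩ := ZFSet.mem_range.1 hy
  obtain ⟨h1, h2, h3⟩ := h.ok p
  obtain ⟨n, hn⟩ := fo_inc h2
  have hinc := ((hn.mono (C' := {j | j ∈ Θ}) h3).im (g := g') hRea.mono).2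
  refine ⟨hy, (te p).a, h1, n, im g' (te p).s, hinc, (te p).f, fun z hz => ?_⟩
  obtain ⟨q, rfl⟩ := ZFSet.mem_range.1 hz
  obtain ⟨a, ha1, ha2⟩ := hσ _ h1
  obtain ⟨r, hr1⟩ := hsu _ h2 h3
  -- the set of the indices
  have hsr : im g' (te p).s = π r := by
    ext z
    rw [mem_im]
    constructor
    · rintro ⟨j, hj, rfl⟩
      obtain ⟨e, he1, he2⟩ := hg j (h3 j hj)
      rw [he2]
      obtain ⟨S, R, σ, g, hR1, h4⟩ := h.rea_of ![e, r]
      have heo : (te e).Ok {x | x ∈ Q} S := (h4 0).1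
      have hro : (te r).Ok {x | x ∈ Q} S := (h4 1).1
      have hrS : ∀ x ∈ (te p).s, x ∈ S := by
        have h5 := hro.2.2
        rw [hr1] at h5
        exact h5
      have hev : (te e).V R σ g (g j) := he1 ▸ v_el hR1 hP (hrS j hj)
      have hrv : (te r).V R σ g (im g (te p).s) := hr1 ▸ v_su hR1 hP h2 hrS
      exact h.mem_pi.2 ⟨e, (h.em_iff hR1 heo hro hev hrv).2 (mem_im.2 ⟨j, hj, rfl⟩), rfl⟩
    · intro hz
      obtain ⟨e, he, rfl⟩ := h.mem_pi.1 hz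
      obtain ⟨S, R, σ, g, y1, y2, y3, hR1, heo, hro, -, hev, hrv', -⟩ := h.rea3 e r r
      have hrS : ∀ x ∈ (te p).s, x ∈ S := by
        have h5 := hro.2.2
        rw [hr1] at h5
        exact h5
      have hrv : (te r).V R σ g (im g (te p).s) := hr1 ▸ v_su hR1 hP h2 hrS
      obtain ⟨j, hj, h6⟩ := mem_im.1 ((h.em_iff hR1 heo hro hev hrv).1 he)
      obtain ⟨e', he1, he2⟩ := hg j (h3 j hj)
      have heo' : (te e').Ok {x | x ∈ Q} S := by
        rw [he1]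
        exact ⟨hP.zero, FO.single (hΘ j (h3 j hj)), fun x hx =>
          ZFSet.mem_singleton.1 hx ▸ hrS j hj⟩
      have hev' : (te e').V R σ g y1 := by
        rw [he1, h6]
        exact v_el hR1 hP (hrS j hj)
      exact ⟨j, hj, (h.pi_congr hR1 heo heo' hev hev').trans he2.symm⟩
  rw [hsr, ha2, hR']
  obtain ⟨S, R, σ, g, hR1, h4⟩ := h.rea_of ![p, q, a, r]
  have hpo : (te p).Ok {x | x ∈ Q} S := (h4 0).1
  have hqo : (te q).Ok {x | x ∈ Q} S := (h4 1).1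
  have hao : (te a).Ok {x | x ∈ Q} S := (h4 2).1
  have hro : (te r).Ok {x | x ∈ Q} S := (h4 3).1
  obtain ⟨yp, hpv⟩ : ∃ y, (te p).V R σ g y := (h4 0).2
  obtain ⟨yq, hqv⟩ : ∃ y, (te q).V R σ g y := (h4 1).2
  have hav : (te a).V R σ g (σ (te p).a) := ha1 ▸ v_id hR1 h1
  have hrS : ∀ x ∈ (te p).s, x ∈ S := by
    have h5 := hro.2.2
    rw [hr1] at h5
    exact h5
  have hrv : (te r).V R σ g (im g (te p).s) := hr1 ▸ v_su hR1 hP h2 hrS
  have h5 := h.los (te p).f (ts := ![q, a, r]) (y := ![yq, σ (te p).a, im g (te p).s]) hR1 (by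
    intro l
    fin_cases l
    exacts [hqo, hao, hro]) (by
    intro l
    fin_cases l
    exacts [hqv, hav, hrv])
  have h6 : (fun l => val (Em {x | x ∈ Q} W te) ((![q, a, r] : Fin 3 → T) l)) =
      ![π q, π a, π r] := by
    funext l
    fin_cases l <;> rfl
  rw [h6] at h5
  rw [h5, hpv.2 yq hqv.1]
  constructor
  · intro h7
    subst h7
    exact h.pi_congr hR1 hqo hpo hqv hpv
  · intro h7
    exact h.pi_inj h7 hR1 hqo hpo hqv hpv

end Pool.Agent.R587
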