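import Pool.Agent.R587.Defs

/-!
# Sentences from formulas, and sentences which describe finite structures
-/

set_option autoImplicit false

namespace Pool.Agent.R587

variable {m : ℕ} {ar : Fin m → ℕ}

/-- Truth depends only on the values of the free variables. -/
theorem sat_congr_free {A : Struc ar} (φ : SOF ar) : ∀ {v v' : ℕ → A.Dom}
    {w w' : (k : ℕ) → ℕ → (Fin k → A.Dom) → Prop},
    (∀ z, φ.FreeI z → v z = v' z) → (∀ j l, φ.FreeR j l → w j l = w' j l) →
    (φ.Sat A v w ↔ φ.Sat A v' w') := by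
  induction φ with
  | rel r x =>
    intro v v' w w' hv hw
    simp only [SOF.Sat]
    have : (fun j => v (x j)) = fun j => v' (x j) := funext fun j => hv _ ⟨j, rfl⟩
    rw [this]
  | app k i x =>
    intro v v' w w' hv hw
    simp only [SOF.Sat]
    have : (fun j => v (x j)) = fun j => v' (x j) := funext fun j => hv _ ⟨j, rfl⟩
    rw [this, hw k i ⟨rfl, rfl⟩]
  | eq x y =>
    intro v v' w w' hv hw
    simp only [SOF.Sat]
    rw [hv x (Or.inl rfl), hv y (Or.inr rfl)]
  | neg φ ih =>
    intro v v' w w' hv hw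
    simp only [SOF.Sat]
    rw [ih hv hw]
  | and φ ψ ih1 ih2 =>
    intro v v' w w' hv hw
    simp only [SOF.Sat]
    rw [ih1 (fun z hz => hv z (Or.inl hz)) (fun j l hz => hw j l (Or.inl hz)),
      ih2 (fun z hz => hv z (Or.inr hz)) (fun j l hz => hw j l (Or.inr hz))]
  | ex x φ ih =>
    intro v v' w w' hv hw
    simp only [SOF.Sat]
    refine exists_congr fun a => ih (fun z hz => ?_) hw
    by_cases h : z = x
    · subst h
      simp
    · rw [Function.update_of_ne h, Function.update_of_ne h]
      exact hv z ⟨fun h' => h h'.symm, hz⟩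
  | exR k i φ ih =>
    intro v v' w w' hv hw
    simp only [SOF.Sat]
    refine exists_congr fun P => ih hv fun j l hz => ?_
    by_cases h : k = j
    · subst h
      by_cases h2 : i = l
      · subst h2
        simp
      · simp only [Function.update_self]
        rw [Function.update_of_ne (Ne.symm h2), Function.update_of_ne (Ne.symm h2)]
        exact hw k l ⟨fun h' => h2 h'.2, hz⟩
    · rw [Function.update_of_ne (Ne.symm h), Function.update_of_ne (Ne.symm h)]
      exact hw j l ⟨fun h' => h h'.1, hz⟩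

/-- The free variables of a formula are bounded. -/
theorem exists_bound (φ : SOF ar) : ∃ N : ℕ, (∀ z, φ.FreeI z → z < N) ∧
    ∀ j l, φ.FreeR j l → j < N ∧ l < N := by
  induction φ with
  | rel r x =>
    refine ⟨(Finset.univ.sup x) + 1, ?_, ?_⟩
    · rintro z ⟨j, rfl⟩
      exact Nat.lt_succ_of_le (Finset.le_sup (f := x) (Finset.mem_univ j))
    · intro j l h
      exact absurd h (by simp [SOF.FreeR])
  | app k i x =>
    refine ⟨(Finset.univ.sup x) + 1 + k + i, ?_, ?_⟩
    · rintro z ⟨j, rfl⟩
      have := Finset.le_sup (f := x) (Finset.mem_univ j)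
      omega
    · rintro j l ⟨rfl, rfl⟩
      omega
  | eq x y =>
    refine ⟨x + y + 1, ?_, ?_⟩
    · rintro z (rfl | rfl) <;> omega
    · intro j l h
      exact absurd h (by simp [SOF.FreeR])
  | neg φ ih => exact ih
  | and φ ψ ih1 ih2 =>
    obtain ⟨N1, h1, h1'⟩ := ih1
    obtain ⟨N2, h2, h2'⟩ := ih2
    refine ⟨N1 + N2, ?_, ?_⟩
    · rintro z (h | h)
      · have := h1 z h
        omega
      · have := h2 z h
        omega
    · rintro j l (h | h)
      · have := h1' j l h
        omega
      · have := h2' j l h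
        omega
  | ex x φ ih =>
    obtain ⟨N, h1, h2⟩ := ih
    exact ⟨N, fun z hz => h1 z hz.2, h2⟩
  | exR k i φ ih =>
    obtain ⟨N, h1, h2⟩ := ih
    exact ⟨N, h1, fun j l hz => h2 j l hz.2⟩

/-- Existential quantification over the individual variables of a list. -/
def exL (L : List ℕ) (φ : SOF ar) : SOF ar := L.foldr SOF.ex φ

/-- Existential quantification over the relation variables of a list. -/
def exRL (L : List (ℕ × ℕ)) (φ : SOF ar) : SOF ar := L.foldr (fun p φ => SOF.exR p.1 p.2 φ) φ

theorem sat_exL {A : Struc ar} (L : List ℕ) (φ : SOF ar) (v : ℕ → A.Dom)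
    (w : (k : ℕ) → ℕ → (Fin k → A.Dom) → Prop) :
    (exL L φ).Sat A v w ↔ ∃ v' : ℕ → A.Dom, (∀ z, z ∉ L → v' z = v z) ∧ φ.Sat A v' w := by
  induction L generalizing v with
  | nil =>
    constructor
    · intro h
      exact ⟨v, fun _ _ => rfl, h⟩
    · rintro ⟨v', h1, h2⟩
      have : v' = v := funext fun z => h1 z (by simp)
      rw [this] at h2
      exact h2
  | cons x L ih =>
    change (∃ a : A.Dom, (exL L φ).Sat A (Function.update v x a) w) ↔ _
    constructor
    · rintro ⟨a, h⟩
      obtain ⟨v', h1, h2⟩ := (ih _).mp h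
      refine ⟨v', fun z hz => ?_, h2⟩
      rw [List.mem_cons, not_or] at hz
      rw [h1 z hz.2, Function.update_of_ne hz.1]
    · rintro ⟨v', h1, h2⟩
      refine ⟨v' x, (ih _).mpr ⟨v', fun z hz => ?_, h2⟩⟩
      by_cases h : z = x
      · subst h
        simp
      · rw [Function.update_of_ne h]
        exact h1 z (by simp [h, hz])

theorem sat_exRL {A : Struc ar} (L : List (ℕ × ℕ)) (φ : SOF ar) (v : ℕ → A.Dom)
    (w : (k : ℕ) → ℕ → (Fin k → A.Dom) → Prop) :
    (exRL L φ).Sat A v w ↔ ∃ w' : (k : ℕ) → ℕ → (Fin k → A.Dom) → Prop,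
      (∀ j l, (j, l) ∉ L → w' j l = w j l) ∧ φ.Sat A v w' := by
  induction L generalizing w with
  | nil =>
    constructor
    · intro h
      exact ⟨w, fun _ _ _ => rfl, h⟩
    · rintro ⟨w', h1, h2⟩
      have : w' = w := funext fun j => funext fun l => h1 j l (by simp)
      rw [this] at h2
      exact h2
  | cons p L ih =>
    obtain ⟨k, i⟩ := p
    change (∃ P : (Fin k → A.Dom) → Prop,
      (exRL L φ).Sat A v (Function.update w k (Function.update (w k) i P))) ↔ _
    constructor
    · rintro ⟨P, h⟩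
      obtain ⟨w', h1, h2⟩ := (ih _).mp h
      refine ⟨w', fun j l hz => ?_, h2⟩
      rw [List.mem_cons, not_or] at hz
      rw [h1 j l hz.2]
      by_cases h : j = k
      · subst h
        by_cases h3 : l = i
        · subst h3
          exact absurd rfl hz.1
        · rw [Function.update_self, Function.update_of_ne h3]
      · rw [Function.update_of_ne h]
    · rintro ⟨w', h1, h2⟩
      refine ⟨w' k i, (ih _).mpr ⟨w', fun j l hz => ?_, h2⟩⟩
      by_cases h : j = k
      · subst h
        by_cases h3 : l = i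
        · subst h3
          simp
        · rw [Function.update_self, Function.update_of_ne h3]
          exact h1 j l (by simp [h3, hz])
      · rw [Function.update_of_ne h]
        exact h1 j l (by simp [h, hz])

theorem freeI_exL (L : List ℕ) (φ : SOF ar) (z : ℕ) :
    (exL L φ).FreeI z ↔ z ∉ L ∧ φ.FreeI z := by
  induction L with
  | nil => simp [exL]
  | cons x L ih =>
    change (x ≠ z ∧ (exL L φ).FreeI z) ↔ _
    rw [ih, List.mem_cons, not_or]
    constructor
    · rintro ⟨h1, h2, h3⟩
      exact ⟨⟨fun h => h1 h.symm, h2⟩, h3⟩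
    · rintro ⟨⟨h1, h2⟩, h3⟩
      exact ⟨fun h => h1 h.symm, h2, h3⟩

theorem freeR_exL (L : List ℕ) (φ : SOF ar) (j l : ℕ) :
    (exL L φ).FreeR j l ↔ φ.FreeR j l := by
  induction L with
  | nil => simp [exL]
  | cons x L ih =>
    change (exL L φ).FreeR j l ↔ _
    rw [ih]

theorem freeI_exRL (L : List (ℕ × ℕ)) (φ : SOF ar) (z : ℕ) :
    (exRL L φ).FreeI z ↔ φ.FreeI z := by
  induction L with
  | nil => simp [exRL]
  | cons x L ih =>
    change (exRL L φ).FreeI z ↔ _
    rw [ih]

theorem freeR_exRL (L : List (ℕ × ℕ)) (φ : SOF ar) (j l : ℕ) :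
    (exRL L φ).FreeR j l ↔ (j, l) ∉ L ∧ φ.FreeR j l := by
  induction L with
  | nil => simp [exRL]
  | cons p L ih =>
    obtain ⟨k, i⟩ := p
    change (¬ (k = j ∧ i = l) ∧ (exRL L φ).FreeR j l) ↔ _
    rw [ih, List.mem_cons, not_or]
    constructor
    · rintro ⟨h1, h2, h3⟩
      refine ⟨⟨fun h => h1 ?_, h2⟩, h3⟩
      rw [Prod.mk.injEq] at h
      exact ⟨h.1.symm, h.2.symm⟩
    · rintro ⟨⟨h1, h2⟩, h3⟩
      refine ⟨fun h => h1 ?_, h2, h3⟩
      rw [h.1, h.2]

/-- Closure of a formula by existential quantifiers. -/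
theorem exists_sentence (φ : SOF ar) : ∃ θ : SOF ar, θ.Sentence ∧
    ∀ A : Struc ar, (Models A θ ↔ ∃ v w, φ.Sat A v w) := by
  obtain ⟨N, hI, hR⟩ := exists_bound φ
  have hmI : ∀ z, φ.FreeI z → z ∈ List.range N := fun z hz => List.mem_range.mpr (hI z hz)
  have hmR : ∀ j l, φ.FreeR j l → (j, l) ∈ (List.range N).product (List.range N) := by
    intro j l h
    rw [List.pair_mem_product]
    exact ⟨List.mem_range.mpr (hR j l h).1, List.mem_range.mpr (hR j l h).2⟩
  refine ⟨exRL ((List.range N).product (List.range N)) (exL (List.range N) φ), ⟨?_, ?_⟩, ?_⟩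
  · intro z hz
    rw [freeI_exRL, freeI_exL] at hz
    exact hz.1 (hmI z hz.2)
  · intro j l hz
    rw [freeR_exRL, freeR_exL] at hz
    exact hz.1 (hmR j l hz.2)
  · intro A
    constructor
    · intro h
      obtain ⟨a⟩ := A.ne
      have h1 := h (fun _ => a) (fun _ _ _ => True)
      rw [sat_exRL] at h1
      obtain ⟨w', -, h2⟩ := h1
      rw [sat_exL] at h2
      obtain ⟨v', -, h3⟩ := h2
      exact ⟨v', w', h3⟩
    · rintro ⟨v', w', h⟩ v w
      classical
      rw [sat_exRL]
      refine ⟨fun j l => if (j, l) ∈ (List.range N).product (List.range N) then w' j l else w j l,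
        fun j l hz => if_neg hz, ?_⟩
      rw [sat_exL]
      refine ⟨fun z => if z ∈ List.range N then v' z else v z, fun z hz => if_neg hz, ?_⟩
      refine (sat_congr_free φ (fun z hz => ?_) (fun j l hz => ?_)).mp h
      · rw [if_pos (hmI z hz)]
      · rw [if_pos (hmR j l hz)]

/-! ### Definable conditions -/

/-- The interpretations of the relation variables. -/
abbrev RAsg (A : Struc ar) : Type := (k : ℕ) → ℕ → (Fin k → A.Dom) → Prop

/-- A condition on a structure and an interpretation of the variables that is expressed by a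
second-order formula. -/
def SD (P : (A : Struc ar) → (ℕ → A.Dom) → RAsg A → Prop) : Prop :=
  ∃ θ : SOF ar, ∀ A v w, θ.Sat A v w ↔ P A v w

namespace SD

variable {P Q : (A : Struc ar) → (ℕ → A.Dom) → RAsg A → Prop}

theorem congr (h : SD P) (hPQ : ∀ A v w, P A v w ↔ Q A v w) : SD Q := by
  obtain ⟨θ, hθ⟩ := h
  exact ⟨θ, fun A v w => (hθ A v w).trans (hPQ A v w)⟩

theorem rel (r : Fin m) (x : Fin (ar r) → ℕ) :
    SD fun (A : Struc ar) v _ => A.R r fun j => v (x j) :=
  ⟨.rel r x, fun _ _ _ => Iff.rfl⟩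

theorem app (k i : ℕ) (x : Fin k → ℕ) :
    SD fun (A : Struc ar) v w => w k i fun j => v (x j) :=
  ⟨.app k i x, fun _ _ _ => Iff.rfl⟩

theorem eq (x y : ℕ) : SD fun (_ : Struc ar) v _ => v x = v y :=
  ⟨.eq x y, fun _ _ _ => Iff.rfl⟩

theorem not (h : SD P) : SD fun (A : Struc ar) v w => ¬ P A v w := by
  obtain ⟨θ, hθ⟩ := h
  exact ⟨.neg θ, fun A v w => not_congr (hθ A v w)⟩

theorem and (h : SD P) (h' : SD Q) : SD fun (A : Struc ar) v w => P A v w ∧ Q A v w := by
  obtain ⟨θ, hθ⟩ := h
  obtain ⟨θ', hθ'⟩ := h'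
  exact ⟨.and θ θ', fun A v w => and_congr (hθ A v w) (hθ' A v w)⟩

theorem or (h : SD P) (h' : SD Q) : SD fun (A : Struc ar) v w => P A v w ∨ Q A v w :=
  (h.not.and h'.not).not.congr fun A v w => by tauto

theorem imp (h : SD P) (h' : SD Q) : SD fun (A : Struc ar) v w => P A v w → Q A v w :=
  (h.and h'.not).not.congr fun A v w => by tauto

theorem iff (h : SD P) (h' : SD Q) : SD fun (A : Struc ar) v w => (P A v w ↔ Q A v w) :=
  ((h.imp h').and (h'.imp h)).congr fun A v w => by tauto

theorem ex (x : ℕ) (h : SD P) :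
    SD fun (A : Struc ar) v w => ∃ a : A.Dom, P A (Function.update v x a) w := by
  obtain ⟨θ, hθ⟩ := h
  exact ⟨.ex x θ, fun A v w => exists_congr fun a => hθ A _ w⟩

theorem all (x : ℕ) (h : SD P) :
    SD fun (A : Struc ar) v w => ∀ a : A.Dom, P A (Function.update v x a) w :=
  (h.not.ex x).not.congr fun A v w => by simp

theorem exR (k i : ℕ) (h : SD P) :
    SD fun (A : Struc ar) v w => ∃ R : (Fin k → A.Dom) → Prop,
      P A v (Function.update w k (Function.update (w k) i R)) := by
  obtain ⟨θ, hθ⟩ := h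
  exact ⟨.exR k i θ, fun A v w => exists_congr fun a => hθ A v _⟩

theorem allR (k i : ℕ) (h : SD P) :
    SD fun (A : Struc ar) v w => ∀ R : (Fin k → A.Dom) → Prop,
      P A v (Function.update w k (Function.update (w k) i R)) :=
  (h.not.exR k i).not.congr fun A v w => by simp

theorem tru : SD fun (_ : Struc ar) _ _ => True :=
  (eq 0 0).congr fun A v w => by simp

theorem fls : SD fun (_ : Struc ar) _ _ => False :=
  tru.not.congr fun A v w => by simp

theorem const (p : Prop) : SD fun (_ : Struc ar) _ _ => p := by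
  by_cases h : p
  · exact tru.congr fun A v w => by simp [h]
  · exact fls.congr fun A v w => by simp [h]

/-- Conjunctions over finite types. -/
theorem forall_fintype {ι : Type*} [Finite ι] {P : ι → (A : Struc ar) → (ℕ → A.Dom) → RAsg A → Prop}
    (h : ∀ i, SD (P i)) : SD fun (A : Struc ar) v w => ∀ i, P i A v w := by
  classical
  have := Fintype.ofFinite ι
  have key : ∀ s : Finset ι, SD fun (A : Struc ar) v w => ∀ i ∈ s, P i A v w := by
    intro s
    induction s using Finset.induction_on with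
    | empty => exact tru.congr fun A v w => by simp
    | insert i s _ ih => exact ((h i).and ih).congr fun A v w => by simp
  exact (key Finset.univ).congr fun A v w => by simp

/-- Disjunctions over finite types. -/
theorem exists_fintype {ι : Type*} [Finite ι] {P : ι → (A : Struc ar) → (ℕ → A.Dom) → RAsg A → Prop}
    (h : ∀ i, SD (P i)) : SD fun (A : Struc ar) v w => ∃ i, P i A v w :=
  (forall_fintype fun i => (h i).not).not.congr fun A v w => by simp

end SD

/-- A sentence from a definable condition. -/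
theorem SD.sentence {P : (A : Struc ar) → (ℕ → A.Dom) → RAsg A → Prop} (h : SD P) :
    ∃ θ : SOF ar, θ.Sentence ∧ ∀ A : Struc ar, (Models A θ ↔ ∃ v w, P A v w) := by
  obtain ⟨φ, hφ⟩ := h
  obtain ⟨θ, h1, h2⟩ := exists_sentence φ
  refine ⟨θ, h1, fun A => (h2 A).trans ?_⟩
  simp only [hφ]

/-- A finite structure is described by a sentence. -/
theorem finite_sentence (A : Struc ar) (hA : Finite A.Dom) : ∃ θ : SOF ar, θ.Sentence ∧
    ∀ B : Struc ar, Models B θ ↔ Isom A B := by
  classical
  obtain ⟨n, ⟨e⟩⟩ := Finite.exists_equiv_fin A.Dom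
  have h1 : SD fun (B : Struc ar) v _ => ∀ p : {p : Fin n × Fin n // p.1 ≠ p.2},
      ¬ v (p.1.1 : ℕ) = v (p.1.2 : ℕ) :=
    SD.forall_fintype fun p => (SD.eq _ _).not
  have h2 : SD fun (B : Struc ar) v _ => ∀ y : B.Dom, ∃ i : Fin n,
      (Function.update v n y) i = (Function.update v n y) n :=
    SD.all n (SD.exists_fintype fun i : Fin n => SD.eq (i : ℕ) n)
  have h3 : SD fun (B : Struc ar) v _ => ∀ q : (r : Fin m) × (Fin (ar r) → Fin n),
      ((B.R q.1 fun j => v (q.2 j : ℕ)) ↔ A.R q.1 fun j => e.symm (q.2 j)) :=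
    SD.forall_fintype fun q => (SD.rel q.1 fun j => (q.2 j : ℕ)).iff (SD.const _)
  obtain ⟨θ, hθ, hθ'⟩ := ((h1.and h2).and h3).sentence
  refine ⟨θ, hθ, fun B => (hθ' B).trans ?_⟩
  constructor
  · rintro ⟨v, w, ⟨hv1, hv2⟩, hv3⟩
    let f : A.Dom → B.Dom := fun a => v (e a : ℕ)
    have hf : Function.Bijective f := by
      constructor
      · intro a b hab
        by_contra hne
        exact hv1 ⟨(e a, e b), fun h => hne (e.injective h)⟩ hab
      · intro y
        obtain ⟨i, hi⟩ := hv2 y
        rw [Function.update_self, Function.update_of_ne (by have := i.2; omega)] at hi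
        exact ⟨e.symm i, by simp [f, hi]⟩
    refine ⟨Equiv.ofBijective f hf, fun r x => ?_⟩
    have := hv3 ⟨r, fun j => e (x j)⟩
    simp only [Equiv.symm_apply_apply] at this
    exact this.symm
  · rintro ⟨g, hg⟩
    obtain ⟨b⟩ := B.ne
    let v : ℕ → B.Dom := fun i => if h : i < n then g (e.symm ⟨i, h⟩) else b
    have hv : ∀ i : Fin n, v i = g (e.symm i) := fun i => by simp [v]
    refine ⟨v, fun _ _ _ => True, ⟨?_, ?_⟩, ?_⟩
    · rintro ⟨⟨i, j⟩, hij⟩ h
      rw [hv, hv] at h
      exact hij (e.symm.injective (g.injective h))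
    · intro y
      refine ⟨e (g.symm y), ?_⟩
      rw [Function.update_self, Function.update_of_ne (by have := (e (g.symm y)).2; omega), hv]
      simp
    · rintro ⟨r, x⟩
      simp only [hv]
      exact (hg r fun j => e.symm (x j)).symm

end Pool.Agent.R587
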