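import Pool.Agent.R587.MDefs

/-!
# The order given by the least codes, and the properties of the models with a measure that are used
-/

set_option autoImplicit false

namespace Pool.Agent.R587

open Pool.Agent.W868 hiding Models
open ZFSet (pair)
open Cardinal

/-- The pair `e`, `n` is the least code of `x` in `M`. -/
def LC (M : Set ZFSet.{0}) (W x e : ZFSet.{0}) (n : ℕ) : Prop :=
  e ∈ M ∧ FO e ∧ CdU W x e (nat n) ∧ ∀ e' ∈ M, FO e' → ∀ n' : ℕ, CdU W x e' (nat n') →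
    clt e (nat n) e' (nat n') ∨ (e = e' ∧ n = n')

/-- The order of the least codes. -/
def ltW (M : Set ZFSet.{0}) (W x y : ZFSet.{0}) : Prop :=
  ∃ (e : ZFSet.{0}) (n : ℕ) (e' : ZFSet.{0}) (n' : ℕ), LC M W x e n ∧ LC M W y e' n' ∧
    clt e (nat n) e' (nat n')

/-- The properties of the models of hereditary size at most `c` that are used. -/
structure Ifc (U : ZFSet.{0}) (c : Cardinal.{0}) : Prop where
  inf : ℵ₀ ≤ c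
  lt_iff : ∀ {Q W : ZFSet.{0}}, Good c Q W → ∀ β ∈ (ZFSet.sUnion W : ZFSet.{0}), ∀ X ∈ Q, ∀ Y ∈ Q,
    X ⊆ ZFSet.prod β β → Y ⊆ ZFSet.prod β β →
    (ltW {z | z ∈ Q} W X Y ↔ ltW Set.univ U X Y)
  lt_mem : ∀ {Q W : ZFSet.{0}}, Good c Q W → ∀ β ∈ (ZFSet.sUnion W : ZFSet.{0}), ∀ Y ∈ Q,
    Y ⊆ ZFSet.prod β β → ∀ X : ZFSet.{0}, X ⊆ ZFSet.prod β β → ltW Set.univ U X Y → X ∈ Q
  sub : ∀ {Q W Q' W' : ZFSet.{0}} {e : ZFSet.{0} → ZFSet.{0}}, Good c Q W → Good c Q' W' →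
    Elem {z | z ∈ Q} {z | z ∈ Q'} e → e W = W' → ∀ β ∈ (ZFSet.sUnion W : ZFSet.{0}),
    β ∈ (ZFSet.sUnion W' : ZFSet.{0}) → ∀ X ∈ Q, X ⊆ ZFSet.prod β β → X ∈ Q'
  ex : ∀ x ∈ HH c, ∀ β ∈ HH c, β.IsOrdinal → ∃ Q W : ZFSet.{0}, Good c Q W ∧ x ∈ Q ∧
    β ∈ (ZFSet.sUnion W : ZFSet.{0})
  down : ∀ {Q W Q' W' : ZFSet.{0}} {e : ZFSet.{0} → ZFSet.{0}}, Q ∈ HH c →
    (∀ x ∈ Q, ∀ y ∈ x, y ∈ Q) → W ∈ Q → Elem {z | z ∈ Q} {z | z ∈ Q'} e → e W = W' →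
    Good c Q' W' → Good c Q W
  tr : ∀ {Q W Q' W' : ZFSet.{0}} {e : ZFSet.{0} → ZFSet.{0}}, Good c Q W → Good c Q' W' →
    Elem {z | z ∈ Q} {z | z ∈ Q'} e → e W = W' → ∀ X ∈ Q, ∀ Y ∈ Q,
    (ltW {z | z ∈ Q} W X Y ↔ ltW {z | z ∈ Q'} W' (e X) (e Y))
  good' : Dfn ∅ (HH c) fun v : Fin 2 → ZFSet.{0} => Good c (v 0) (v 1)
  lt' : Dfn ∅ (HH c) fun v : Fin 4 → ZFSet.{0} => ltW {z | z ∈ v 0} (v 1) (v 2) (v 3)
  wf : ∀ P : ZFSet.{0} → Prop, (∃ x, P x) → ∃ x, P x ∧ ∀ y, P y → ¬ ltW Set.univ U y x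
  tri : ∀ x y : ZFSet.{0}, ltW Set.univ U x y ∨ x = y ∨ ltW Set.univ U y x
  pow : ∀ γ ∈ kap c, (ZFSet.powerset (ZFSet.prod γ γ) : ZFSet.{0}) ∈ HH c

end Pool.Agent.R587
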