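import Pool.Agent.R587.PmT
import Pool.Agent.R587.Ifc

/-!
# The iterable models form a definable class
-/

set_option autoImplicit false

namespace Pool.Agent.R587

open Pool.Agent.W868 hiding Models
open ZFSet (pair)
open Cardinal

/-! ### Nested pairs -/

/-- A tuple as nested pairs. -/
noncomputable def enc : {n : ℕ} → (Fin n → ZFSet.{0}) → ZFSet.{0}
  | 0, _ => ∅
  | _ + 1, v => pair (v 0) (enc (Fin.tail v))

theorem pair_mem_base {N : Set ZFSet.{0}} (hN : IsBase N) {x y : ZFSet.{0}} (hx : x ∈ N)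
    (hy : y ∈ N) : pair x y ∈ N := by
  have h1 := hN.pairing _ (hN.pairing x hx x hx) _ (hN.pairing x hx y hy)
  rw [ZFSet.pair_eq_singleton] at h1
  exact h1

theorem of_pair_mem' {N : Set ZFSet.{0}} (hN : ∀ x ∈ N, ∀ y ∈ x, y ∈ N) {x y : ZFSet.{0}}
    (h : pair x y ∈ N) : x ∈ N ∧ y ∈ N := by
  have h1 : ({x, y} : ZFSet.{0}) ∈ N := hN _ h _ (by simp [ZFSet.pair])
  exact ⟨hN _ h1 _ (by simp), hN _ h1 _ (by simp)⟩

theorem enc_mem {N : Set ZFSet.{0}} (hN : IsBase N) (h0 : ∅ ∈ N) : ∀ {n : ℕ}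
    {v : Fin n → ZFSet.{0}}, (∀ i, v i ∈ N) → enc v ∈ N
  | 0, _, _ => h0
  | _ + 1, _, hv => pair_mem_base hN (hv 0) (enc_mem hN h0 fun i => hv i.succ)

theorem of_enc_mem {N : Set ZFSet.{0}} (hN : ∀ x ∈ N, ∀ y ∈ x, y ∈ N) : ∀ {n : ℕ}
    {v : Fin n → ZFSet.{0}}, enc v ∈ N → ∀ i, v i ∈ N
  | 0, _, _ => fun i => i.elim0
  | _ + 1, _, h => by
    have h1 := of_pair_mem' hN h
    intro i
    refine Fin.cases ?_ (fun i => ?_) i
    · exact h1.1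
    · exact of_enc_mem hN h1.2 i

theorem enc_inj : ∀ {n : ℕ} {v w : Fin n → ZFSet.{0}}, enc v = enc w → v = w
  | 0, _, _, _ => funext fun i => i.elim0
  | _ + 1, v, w, h => by
    obtain ⟨h1, h2⟩ := ZFSet.pair_inj.1 h
    have h3 := enc_inj h2
    rw [← Fin.cons_self_tail v, ← Fin.cons_self_tail w, h1, h3]

theorem D0.isEnc : ∀ {n m : ℕ} {F : (Fin m → ZFSet.{0}) → ZFSet.{0}} (_ : D0v F)
    (ρ : Fin n → Fin m), D0 fun v : Fin m → ZFSet.{0} => F v = enc fun i => v (ρ i)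
  | 0, _, _, hF, _ => D0.isNat hF 0
  | n + 1, m, F, hF, ρ => by
    have h1 : D0 fun v : Fin m → ZFSet.{0} => ∃ x y, F v = pair x y ∧
        (x = v (ρ 0) ∧ y = enc fun i : Fin n => v (ρ i.succ)) := by
      apply D0.expair hF
      apply D0.and
      · exact D0.eq (D0v.proj 1) (D0v.proj (ρ 0).succ.succ)
      · exact D0.isEnc (D0v.proj 0) fun i : Fin n => (ρ i.succ).succ.succ
    refine h1.congr fun v => ?_
    constructor
    · rintro ⟨x, y, h2, rfl, rfl⟩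
      exact h2
    · intro h2
      exact ⟨_, _, h2, rfl, rfl⟩

theorem asg_four (b : ZFSet.{0}) : (fun i => asg b ((![4] : Fin 1 → ℕ) i)) = ![b] := by
  funext i
  fin_cases i
  simp [asg]

/-- Truth of a formula is truth of its number. -/
theorem exists_enc_num {n : ℕ} (φ : Fml Empty n) : ∃ k : ℕ, ∀ N : Set ZFSet.{0},
    (∀ x ∈ N, ∀ y ∈ x, y ∈ N) → ∅ ∈ N → ∀ v : Fin n → ZFSet.{0}, enc v ∈ N →
      (GS N k (asg (enc v)) ↔ Sat N Empty.elim φ v) := by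
  have h1 : UD fun (M : Set ZFSet.{0}) (w : Fin (n + 1) → ZFSet.{0}) =>
      w (Fin.last n) = (enc fun i : Fin n => w i.castSucc) →
        Sat M Empty.elim φ fun i : Fin n => w i.castSucc :=
    UD.imp (UD.of_D0 (D0.isEnc (D0v.proj (Fin.last n)) fun i : Fin n => i.castSucc))
      ((UD.sat φ).comp fun i : Fin n => i.castSucc)
  obtain ⟨ψ, hψ⟩ := h1.closed1
  obtain ⟨k, hk⟩ := fml_gs ψ ![4]
  refine ⟨k, fun N hN h0 v hv => ?_⟩
  rw [hk, asg_four, hψ N hN h0 ![enc v] (by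
    intro i
    fin_cases i
    exact hv)]
  have hvi := of_enc_mem hN hv
  constructor
  · intro h
    have := h (Fin.snoc v (enc v)) (by
      intro i
      refine Fin.lastCases ?_ (fun i => ?_) i
      · rw [Fin.snoc_last]; exact hv
      · rw [Fin.snoc_castSucc]; exact hvi i) (by rw [Fin.snoc_last]; rfl) (by
      rw [Fin.snoc_last]
      simp)
    simpa using this
  · intro h w _ hwl hw
    have h2 : (fun i : Fin n => w i.castSucc) = v := by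
      apply enc_inj
      rw [← hw, hwl]
      rfl
    rw [h2]
    exact h

/-- The truth of a number is the truth of a formula. -/
theorem exists_enc_fml (k n : ℕ) : ∃ φ : Fml Empty n, ∀ N : Set ZFSet.{0},
    (∀ x ∈ N, ∀ y ∈ x, y ∈ N) → ∅ ∈ N → ∀ v : Fin n → ZFSet.{0}, (∀ i, v i ∈ N) → enc v ∈ N →
      (Sat N Empty.elim φ v ↔ GS N k (asg (enc v))) := by
  obtain ⟨ψ, hψ⟩ := gs_fml k
  have h1 : UD fun (M : Set ZFSet.{0}) (v : Fin n → ZFSet.{0}) => ∃ b ∈ M,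
      (b = enc fun i => v i) ∧ Sat M Empty.elim ψ ![b] := by
    apply UD.ex (Q := fun M b (v : Fin n → ZFSet.{0}) => (b = enc fun i => v i) ∧
      Sat M Empty.elim ψ ![b])
    apply UD.and
    · exact UD.of_D0 (D0.isEnc (D0v.proj 0) Fin.succ)
    · refine ((UD.sat ψ).comp (fun _ : Fin 1 => (0 : Fin (n + 1)))).congr fun M _ _ w _ => ?_
      have : (fun _ : Fin 1 => w 0) = ![w 0] := by
        funext i
        fin_cases i
        rfl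
      rw [this]
  obtain ⟨φ, hφ⟩ := h1
  refine ⟨φ, fun N hN h0 v hv hve => ?_⟩
  rw [hφ N hN h0 v hv, ← hψ N hN h0 _ hve]
  constructor
  · rintro ⟨b, -, rfl, h⟩
    exact h
  · intro h
    exact ⟨_, hve, rfl, h⟩

theorem exists_pair_fml (k : ℕ) : ∃ φ : Fml Empty 2, ∀ N : Set ZFSet.{0},
    (∀ x ∈ N, ∀ y ∈ x, y ∈ N) → ∅ ∈ N → ∀ y p : ZFSet.{0}, pair y p ∈ N →
      (Sat N Empty.elim φ ![y, p] ↔ GS N k (asg (pair y p))) := by
  obtain ⟨ψ, hψ⟩ := gs_fml k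
  have h1 : UD fun (M : Set ZFSet.{0}) (v : Fin 2 → ZFSet.{0}) => ∃ b ∈ M,
      b = pair (v 0) (v 1) ∧ Sat M Empty.elim ψ ![b] := by
    apply UD.ex (Q := fun M b (v : Fin 2 → ZFSet.{0}) => b = pair (v 0) (v 1) ∧
      Sat M Empty.elim ψ ![b])
    apply UD.and
    · exact UD.of_D0 (D0.isPair (D0v.proj 0) (D0v.proj 1) (D0v.proj 2))
    · refine ((UD.sat ψ).comp (fun _ : Fin 1 => (0 : Fin 3))).congr fun M _ _ w _ => ?_
      have : (fun _ : Fin 1 => w 0) = ![w 0] := by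
        funext i
        fin_cases i
        rfl
      rw [this]
  obtain ⟨φ, hφ⟩ := h1
  refine ⟨φ, fun N hN h0 y p hyp => ?_⟩
  obtain ⟨hy, hp⟩ := of_pair_mem' hN hyp
  rw [hφ N hN h0 ![y, p] (by
    intro i
    fin_cases i
    exacts [hy, hp]), ← hψ N hN h0 _ hyp]
  constructor
  · rintro ⟨b, -, rfl, h⟩
    exact h
  · intro h
    exact ⟨_, hyp, rfl, h⟩

theorem PA.base {M : Set ZFSet.{0}} {W : ZFSet.{0}} (hM : ∀ x ∈ M, ∀ y ∈ x, y ∈ M)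
    (h : PA M W) : IsBase M := by
  obtain ⟨h1, h2, -⟩ := h
  refine ⟨hM, fun x hx y hy => ?_, fun x hx => ?_⟩
  · obtain ⟨z, hz, hz'⟩ := h1 x hx y hy
    rw [DPr_iff] at hz'
    rwa [← hz']
  · obtain ⟨z, hz, hz'⟩ := h2 x hx
    rw [DUn_iff] at hz'
    rwa [← hz']

theorem nat_jj {N b : ZFSet.{0}} {k : ℕ} : nat k ∈ JJ N b ↔ GS {y | y ∈ N} k (asg b) := nat_mem_JS

/-- Comprehension, for the numbers of formulas. -/
def CmI (Q : ZFSet.{0}) : Prop := ∀ k ∈ (ZFSet.omega : ZFSet.{0}), ∀ p ∈ Q, ∀ x ∈ Q, ∃ z ∈ Q,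
  ∀ y ∈ Q, (y ∈ z ↔ y ∈ x ∧ k ∈ JJ Q (pair y p))

/-- Skolem functions, for the numbers of formulas. -/
def SkI (Q W : ZFSet.{0}) : Prop := ∃ j ∈ (ZFSet.omega : ZFSet.{0}),
  ∀ k ∈ (ZFSet.omega : ZFSet.{0}), ∀ p ∈ Q, (∃ y ∈ Q, k ∈ JJ Q (pair y p)) →
    ∃ y ∈ Q, k ∈ JJ Q (pair y p) ∧ ∀ z ∈ Q, k ∈ JJ Q (pair z p) → ¬ z = y →
      j ∈ JJ Q (pair y (pair z (pair W ∅))) ∧ ¬ j ∈ JJ Q (pair z (pair y (pair W ∅)))

theorem enc_three {x y z : ZFSet.{0}} : enc ![x, y, z] = pair x (pair y (pair z ∅)) := rfl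

theorem pm_int {Q W : ZFSet.{0}} : Pm {x | x ∈ Q} W ↔
    ((∀ x ∈ Q, ∀ y ∈ x, y ∈ Q) ∧ ∅ ∈ Q ∧ W ∈ Q) ∧ PA {x | x ∈ Q} W ∧ CmI Q ∧ SkI Q W := by
  constructor
  · intro h
    have hb := h.base
    have h0 : (∅ : ZFSet.{0}) ∈ {x | x ∈ Q} := h.empty
    have hW : W ∈ {x | x ∈ Q} := h.mem
    refine ⟨⟨hb.trans, h0, hW⟩, ((pm_iff hb.trans hW).1 h).1, ?_, ?_⟩
    · intro k hk p hp x hx
      obtain ⟨k, rfl⟩ := mem_omega_iff.1 hk
      obtain ⟨φ, hφ⟩ := exists_pair_fml k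
      refine ⟨_, h.comp φ ![p] (fun i => by
        fin_cases i
        exact hp) x hx, fun y hy => ?_⟩
      rw [ZFSet.mem_sep, nat_jj, ← hφ _ hb.trans h0 y p (pair_mem_base hb hy hp)]
      rfl
    · obtain ⟨χ, hχ⟩ := h.sko
      obtain ⟨j, hj⟩ := exists_enc_num χ
      refine ⟨nat j, mem_omega_iff.2 ⟨j, rfl⟩, fun k hk p hp hy => ?_⟩
      obtain ⟨k, rfl⟩ := mem_omega_iff.1 hk
      obtain ⟨φ, hφ⟩ := exists_pair_fml k
      have e : ∀ y ∈ Q, (Sat {x | x ∈ Q} Empty.elim φ (Fin.cons y ![p]) ↔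
          nat k ∈ JJ Q (pair y p)) := by
        intro y hy
        rw [nat_jj, ← hφ _ hb.trans h0 y p (pair_mem_base hb hy hp)]
        rfl
      have e' : ∀ y ∈ Q, ∀ z ∈ Q, (Sat {x | x ∈ Q} Empty.elim χ ![y, z, W] ↔
          nat j ∈ JJ Q (pair y (pair z (pair W ∅)))) := by
        intro y hy z hz
        rw [nat_jj, ← enc_three, hj _ hb.trans h0]
        refine enc_mem hb h0 fun i => ?_
        fin_cases i
        exacts [hy, hz, hW]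
      obtain ⟨y, hy, h1, h2⟩ := hχ φ ![p] (fun i => by
        fin_cases i
        exact hp) (by
          obtain ⟨y, hy, hy'⟩ := hy
          exact ⟨y, hy, (e y hy).2 hy'⟩)
      refine ⟨y, hy, (e y hy).1 h1, fun z hz h3 h4 => ?_⟩
      rw [← e' y hy z hz, ← e' z hz y hy]
      exact h2 z hz ((e z hz).2 h3) h4
  · rintro ⟨⟨hQ, h0, hW⟩, hA, hC, j, hj, hS⟩
    have hb : IsBase {x | x ∈ Q} := hA.base hQ
    refine (pm_iff (M := {x | x ∈ Q}) hQ hW).2 ⟨hA, fun n φ w hw => ?_, ?_⟩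
    · obtain ⟨k, hk⟩ := exists_enc_num φ
      have hp : enc (Fin.tail w) ∈ {x | x ∈ Q} := enc_mem hb h0 fun i => hw _
      obtain ⟨z, hz, hz'⟩ := hC (nat k) (mem_omega_iff.2 ⟨k, rfl⟩) _ hp (w 0) (hw 0)
      refine ⟨z, hz, fun y hy => ?_⟩
      rw [hz' y hy, nat_jj]
      have h1 : pair y (enc (Fin.tail w)) = enc (Fin.cons y (Fin.tail w) :
        Fin (n + 1) → ZFSet.{0}) := rfl
      rw [h1, hk {x | x ∈ Q} hQ h0]
      rw [← h1]
      exact pair_mem_base hb hy hp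
    · obtain ⟨j, rfl⟩ := mem_omega_iff.1 hj
      obtain ⟨χ, hχ⟩ := exists_enc_fml j 3
      refine ⟨χ, fun n φ w hw hwl hy => ?_⟩
      obtain ⟨k, hk⟩ := exists_enc_num φ
      have hp : enc (Fin.init w) ∈ {x | x ∈ Q} := enc_mem hb h0 fun i => hw _
      have e : ∀ y ∈ Q, (Sat {x | x ∈ Q} Empty.elim φ (Fin.cons y (Fin.init w)) ↔
          nat k ∈ JJ Q (pair y (enc (Fin.init w)))) := by
        intro y hy
        have h1 : pair y (enc (Fin.init w)) = enc (Fin.cons y (Fin.init w) :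
          Fin (n + 1) → ZFSet.{0}) := rfl
        rw [nat_jj, h1, hk {x | x ∈ Q} hQ h0]
        rw [← h1]
        exact pair_mem_base hb hy hp
      have e' : ∀ y ∈ Q, ∀ z ∈ Q, (Sat {x | x ∈ Q} Empty.elim χ ![y, z, W] ↔
          nat j ∈ JJ Q (pair y (pair z (pair W ∅)))) := by
        intro y hy z hz
        have hv : ∀ i, (![y, z, W] : Fin 3 → ZFSet.{0}) i ∈ {x | x ∈ Q} := by
          intro i
          fin_cases i
          exacts [hy, hz, hW]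
        rw [nat_jj, ← enc_three, hχ {x | x ∈ Q} hQ h0 _ hv (enc_mem hb h0 hv)]
      rw [hwl]
      obtain ⟨y0, hy0, hy0'⟩ := hy
      obtain ⟨y, hy, h1, h2⟩ := hS (nat k) (mem_omega_iff.2 ⟨k, rfl⟩) _ hp
        ⟨y0, hy0, (e y0 hy0).1 hy0'⟩
      refine ⟨y, hy, (e y hy).2 h1, fun z hz h3 h4 => ?_⟩
      rw [e' y hy z hz, e' z hz y hy]
      exact h2 z hz ((e z hz).1 h3) h4

/-! ### Elementary maps -/

theorem elem_int {Q R : Set ZFSet.{0}} {σ : ZFSet.{0} → ZFSet.{0}} (hQ : IsBase Q) (h0 : ∅ ∈ Q)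
    (hR : ∀ x ∈ R, ∀ y ∈ x, y ∈ R) : Elem Q R σ ↔ (∀ x ∈ Q, σ x ∈ R) ∧ σ ∅ = ∅ ∧
      (∀ x ∈ Q, ∀ y ∈ Q, σ (pair x y) = pair (σ x) (σ y)) ∧
      ∀ k : ℕ, ∀ b ∈ Q, (GS Q k (asg b) ↔ GS R k (asg (σ b))) := by
  constructor
  · intro h
    have he := h.empty hQ.trans hR h0
    have h0' : ∅ ∈ R := by
      rw [← he]
      exact h.maps _ h0
    refine ⟨h.maps, he, fun x hx y hy => ?_, fun k b hb => ?_⟩
    · have h1 := (UD.of_D0 (D0.isPair (n := 3) (D0v.proj 0) (D0v.proj 1) (D0v.proj 2))).tr h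
        hQ.trans hR h0 h0' ![pair x y, x, y] (by
          intro i
          fin_cases i
          exacts [pair_mem_base hQ hx hy, hx, hy])
      exact h1.1 rfl
    · obtain ⟨ψ, hψ⟩ := gs_fml k
      rw [← hψ Q hQ.trans h0 b hb, ← hψ R hR h0' _ (h.maps b hb), h.sat ψ ![b] (by
        intro i
        fin_cases i
        exact hb)]
      have : (fun i => σ ((![b] : Fin 1 → ZFSet.{0}) i)) = ![σ b] := by
        funext i
        fin_cases i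
        rfl
      rw [this]
  · rintro ⟨h1, h2, h3, h4⟩
    have h0' : ∅ ∈ R := by
      rw [← h2]
      exact h1 _ h0
    have henc : ∀ {n : ℕ} (v : Fin n → ZFSet.{0}), (∀ i, v i ∈ Q) →
        σ (enc v) = enc fun i => σ (v i) := by
      intro n
      induction n with
      | zero => exact fun v _ => h2
      | succ n ih =>
        intro v hv
        show σ (pair (v 0) (enc (Fin.tail v))) = pair (σ (v 0)) (enc _)
        rw [h3 (v 0) (hv 0) (enc (Fin.tail v)) (enc_mem hQ h0 fun i => hv i.succ),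
          ih (Fin.tail v) fun i => hv i.succ]
        rfl
    refine ⟨h1, fun {n} φ v hv => ?_⟩
    obtain ⟨k, hk⟩ := exists_enc_num φ
    have h5 := enc_mem hQ h0 hv
    rw [← hk Q hQ.trans h0 v h5, h4 k _ h5, henc v hv, hk R hR h0']
    rw [← henc v hv]
    exact h1 _ h5

/-! ### Finite sets of elements -/

/-- `s` is a finite set of elements of `C`, inside of `M`. -/
def IncI (M : Set ZFSet.{0}) (C s : ZFSet.{0}) : Prop :=
  ∃ n ∈ (ZFSet.omega : ZFSet.{0}), ∃ f ∈ M, ap f ∅ = ∅ ∧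
    (∀ m ∈ n, ∃ c ∈ C, ap f (insert m m) = insert c (ap f m) ∧ ∀ ξ ∈ ap f m, ξ ∈ c) ∧ s = ap f n

theorem Inc.fn {M : Set ZFSet.{0}} (h0 : ∅ ∈ M) (hins : ∀ x ∈ M, ∀ y ∈ M, insert x y ∈ M)
    {C : Set ZFSet.{0}} (hC : ∀ x ∈ C, x ∈ M) {n : ℕ} {s : ZFSet.{0}} (h : Inc C n s) :
    ∃ g : ℕ → ZFSet.{0}, (∀ i, g i ∈ M) ∧ g 0 = ∅ ∧
      (∀ m < n, ∃ c ∈ C, g (m + 1) = insert c (g m) ∧ ∀ ξ ∈ g m, ξ ∈ c) ∧ g n = s := by
  induction h with
  | zero => exact ⟨fun _ => ∅, fun _ => h0, rfl, fun m hm => absurd hm (Nat.not_lt_zero m), rfl⟩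
  | @succ n s c h hc hs ih =>
    obtain ⟨g, h1, h2, h3, h4⟩ := ih
    refine ⟨fun i => if i ≤ n then g i else insert c s, fun i => ?_, ?_, fun m hm => ?_, ?_⟩
    · beta_reduce
      split
      · exact h1 i
      · exact hins _ (hC c hc) _ (h4 ▸ h1 n)
    · simp [h2]
    · rcases Nat.lt_succ_iff_lt_or_eq.1 hm with hm | rfl
      · have e1 : m ≤ n := hm.le
        have e2 : m + 1 ≤ n := hm
        simp only [e1, e2, if_true]
        exact h3 m hm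
      · have e2 : ¬ (m + 1 ≤ m) := by omega
        simp only [le_refl, e2, if_true, if_false]
        exact ⟨c, hc, by rw [h4], by rw [h4]; exact hs⟩
    · simp

section

variable {c : Cardinal.{0}} {M : Set ZFSet.{0}}

theorem gE_mem (hM : Full c M) {f : ℕ → ZFSet.{0}} (hf : ∀ i, f i ∈ M) : gE f ∈ M := by
  refine hM.of_countable (fun p hp => ?_) ?_
  · obtain ⟨i, rfl⟩ := mem_gE.1 hp
    exact hM.pair_mem (hM.nat_mem i) (hf i)
  · have := card_range_le fun i : ℕ => pair (nat i) (f i)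
    simpa [gE] using this

theorem incI_iff (hM : Full c M) {C s : ZFSet.{0}} (hC : C ∈ M) :
    IncI M C s ↔ ∃ n, Inc {x | x ∈ C} n s := by
  constructor
  · rintro ⟨n, hn, f, -, h1, h2, rfl⟩
    obtain ⟨k, rfl⟩ := mem_omega_iff.1 hn
    have key : ∀ j ≤ k, Inc {x | x ∈ C} j (ap f (nat j)) := by
      intro j
      induction j with
      | zero =>
        intro _
        rw [nat_zero', h1]
        exact Inc.zero
      | succ j ih =>
        intro hj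
        obtain ⟨c, hc, h3, h4⟩ := h2 (nat j) (nat_mem_nat_iff.2 hj)
        rw [insert_nat] at h3
        rw [h3]
        exact Inc.succ (ih (by omega)) hc h4
    exact ⟨k, key k le_rfl⟩
  · rintro ⟨n, h⟩
    obtain ⟨g, h1, h2, h3, h4⟩ := h.fn hM.empty_mem (fun x hx y hy => hM.insert_mem hx hy)
      (fun x hx => hM.trans hC hx)
    refine ⟨nat n, mem_omega_iff.2 ⟨n, rfl⟩, gE g, gE_mem hM h1, ?_, ?_, ?_⟩
    · rw [← nat_zero', ap_gE, h2, nat_zero']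
    · intro m hm
      obtain ⟨m, hm', rfl⟩ := mem_nat_iff.1 hm
      rw [insert_nat, ap_gE, ap_gE]
      exact h3 m hm'
    · rw [ap_gE, h4]

theorem dfn_incI (hM : Full c M) {n : ℕ} {F G : (Fin n → ZFSet.{0}) → ZFSet.{0}}
    (hF : DfnF ∅ M F) (hG : DfnF ∅ M G) : Dfn ∅ M fun v => IncI M (F v) (G v) := by
  have hB := hM.base
  refine Dfn.comp2 (Q := IncI M) ?_ hF hG
  unfold IncI
  apply hB.bex hM.omega'
  apply Dfn.ex
  apply Dfn.and (Dfn.eq (hM.ap' (DfnF.proj 0) hM.empty') hM.empty')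
  apply Dfn.and
  · apply hB.ball (DfnF.proj 1)
    apply hB.bex (DfnF.proj 3)
    apply Dfn.and
    · exact Dfn.eq (hM.ap' (DfnF.proj 2) (hB.insert' (DfnF.proj 1) (DfnF.proj 1)))
        (hB.insert' (DfnF.proj 0) (hM.ap' (DfnF.proj 2) (DfnF.proj 1)))
    · apply hB.ball (hM.ap' (DfnF.proj 2) (DfnF.proj 1))
      exact Dfn.mem (DfnF.proj 0) (DfnF.proj 1)
  · exact Dfn.eq (DfnF.proj 3) (hM.ap' (DfnF.proj 0) (DfnF.proj 1))

end

/-! ### Definable elements -/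

theorem dy_iff {R : ZFSet.{0}} (hR : IsBase {x | x ∈ R}) (h0 : ∅ ∈ R) {y a s : ZFSet.{0}}
    (ha : a ∈ R) (hs : s ∈ R) : (∃ φ : Fml Empty 3, Dy {x | x ∈ R} φ y a s) ↔
      ∃ k ∈ (ZFSet.omega : ZFSet.{0}), ∀ z ∈ R,
        (k ∈ JJ R (pair z (pair a (pair s ∅))) ↔ z = y) := by
  have hv : ∀ z ∈ R, ∀ i, (![z, a, s] : Fin 3 → ZFSet.{0}) i ∈ {x | x ∈ R} := by
    intro z hz i
    fin_cases i
    exacts [hz, ha, hs]
  constructor
  · rintro ⟨φ, hφ⟩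
    obtain ⟨k, hk⟩ := exists_enc_num φ
    refine ⟨nat k, mem_omega_iff.2 ⟨k, rfl⟩, fun z hz => ?_⟩
    rw [nat_jj, ← enc_three, hk {x | x ∈ R} hR.trans h0 _ (enc_mem hR h0 (hv z hz))]
    exact hφ z hz
  · rintro ⟨k, hk, h⟩
    obtain ⟨k, rfl⟩ := mem_omega_iff.1 hk
    obtain ⟨φ, hφ⟩ := exists_enc_fml k 3
    refine ⟨φ, fun z hz => ?_⟩
    rw [hφ {x | x ∈ R} hR.trans h0 _ (hv z hz) (enc_mem hR h0 (hv z hz)), enc_three, ← h z hz,
      nat_jj]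

theorem Inc.mem' {M : Set ZFSet.{0}} (h0 : ∅ ∈ M) (hins : ∀ x ∈ M, ∀ y ∈ M, insert x y ∈ M)
    {C : Set ZFSet.{0}} (hC : ∀ x ∈ C, x ∈ M) {n : ℕ} {s : ZFSet.{0}} (h : Inc C n s) :
    s ∈ M := by
  obtain ⟨g, h1, -, -, rfl⟩ := h.fn h0 hins hC
  exact h1 n

theorem base_insert {M : Set ZFSet.{0}} (hM : IsBase M) {x y : ZFSet.{0}} (hx : x ∈ M)
    (hy : y ∈ M) : insert x y ∈ M := by
  have h1 := hM.pairing _ (hM.pairing x hx x hx) _ hy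
  have h2 := hM.union _ h1
  have h3 : (ZFSet.sUnion {{x, x}, y} : ZFSet.{0}) = insert x y := by
    ext z
    simp
  rwa [h3] at h2

/-! ### Codes -/

section

variable {c : Cardinal.{0}} {M : Set ZFSet.{0}}

theorem stepN_mem (hM : Full c M) (A : ZFSet.{0}) {X : ZFSet.{0}} (hX : X ∈ M) (k : ℕ) :
    stepN A X k ∈ M := by
  induction k with
  | zero => exact hX
  | succ k ih =>
    refine hM.union_mem ih ?_
    refine hM.im_mem (hM.prod_mem (hM.insert_mem hX hX) (hM.insert_mem hX hX)) fun p _ => ?_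
    exact hM.sep_mem hX

theorem Lv_memM (hM : Full c M) (A z : ZFSet.{0}) (hz : z ∈ M) : Lv A z ∈ M := by
  induction z using ZFSet.inductionOn with
  | _ z ih =>
    rw [Lv_eq]
    have h1 : gr (Lv A) z ∈ M :=
      hM.im_mem hz fun u hu => hM.pair_mem (hM.trans hz hu) (ih u hu (hM.trans hz hu))
    refine hM.base.union _ (hM.im_mem h1 fun p hp => ?_)
    obtain ⟨u, hu, rfl⟩ := mem_gr.1 hp
    rw [sn_pair]
    exact stepN_mem hM A (ih u hu (hM.trans hz hu)) 11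

/-- `Y` is the level number `δ`, inside of `M`. -/
def LvI (M : Set ZFSet.{0}) (W δ Y : ZFSet.{0}) : Prop := ∃ f ∈ M, Sq W f ∧ pair δ Y ∈ f

theorem lvI_iff (hM : Full c M) {W δ Y : ZFSet.{0}} (hδ : δ ∈ M) (hδo : δ.IsOrdinal) :
    LvI M W δ Y ↔ Y = Lv W δ := by
  constructor
  · rintro ⟨f, -, h1, h2⟩
    exact h1.eq _ _ h2
  · rintro rfl
    refine ⟨gr (Lv W) (sc δ), ?_, sq_gr (isOrdinal_sc hδo),
      mem_gr.2 ⟨δ, ZFSet.mem_insert _ _, rfl⟩⟩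
    have h1 : sc δ ∈ M := hM.insert_mem hδ hδ
    exact hM.im_mem h1 fun u hu => hM.pair_mem (hM.trans h1 hu) (Lv_memM hM W u (hM.trans h1 hu))

theorem dfn_lvI (hM : Full c M) {n : ℕ} {F G H : (Fin n → ZFSet.{0}) → ZFSet.{0}}
    (hF : DfnF ∅ M F) (hG : DfnF ∅ M G) (hH : DfnF ∅ M H) :
    Dfn ∅ M fun v => LvI M (F v) (G v) (H v) := by
  have hB := hM.base
  unfold LvI
  apply Dfn.ex
  apply Dfn.and
  · exact Dfn.comp2 (Q := Sq) (d0_Sq.dfn hB.trans) hF.tail (DfnF.proj 0)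
  · exact Dfn.mem (hB.pair' hG.tail hH.tail) (DfnF.proj 0)

/-- Codes inside of `M`. -/
def CdI (M : Set ZFSet.{0}) (W x e n : ZFSet.{0}) : Prop := ∃ δ ∈ e, ∃ ζ ∈ e, δ.IsOrdinal ∧
  ¬ ζ = δ ∧ (∀ μ ∈ e, μ = δ ∨ μ ∈ δ) ∧ (∀ μ ∈ e, μ = δ ∨ μ = ζ ∨ μ ∈ ζ) ∧
  ∃ Y ∈ M, ∃ Z ∈ M, LvI M W δ Y ∧ LvI M W ζ Z ∧
  (∀ y ∈ Y, pair (pair y (ZFSet.sep (fun z => z ∈ Z) W)) (ZFSet.sep (fun y => ¬ y = δ) e) ∈ Y) ∧
  x ∈ Y ∧ n ∈ JJ Y (pair (pair x (ZFSet.sep (fun z => z ∈ Z) W))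
    (ZFSet.sep (fun y => ¬ y = δ) e)) ∧
  ∀ y ∈ Y, n ∈ JJ Y (pair (pair y (ZFSet.sep (fun z => z ∈ Z) W))
    (ZFSet.sep (fun y => ¬ y = δ) e)) → y = x

theorem inter_eq_sep (x y : ZFSet.{0}) : x ∩ y = ZFSet.sep (fun z => z ∈ y) x := by
  ext z
  rw [ZFSet.mem_inter, ZFSet.mem_sep]

theorem cdI_iff (hM : Full c M) {W x e n : ZFSet.{0}} (he : e ∈ M) :
    CdI M W x e n ↔ CdU W x e n := by
  unfold CdI CdU
  refine exists_congr fun δ => and_congr_right fun hδ => exists_congr fun ζ =>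
    and_congr_right fun hζ => and_congr_right fun h1 => ?_
  refine and_congr_right fun h2 => and_congr_right fun h3 => and_congr_right fun h4 => ?_
  have hδM := hM.trans he hδ
  have hζM := hM.trans he hζ
  have hζo : ζ.IsOrdinal := h1.mem ((h3 ζ hζ).resolve_left h2)
  rw [inter_eq_sep]
  constructor
  · rintro ⟨Y, -, Z, -, h5, h6, h7⟩
    rw [lvI_iff hM hδM h1] at h5
    rw [lvI_iff hM hζM hζo] at h6
    subst h5 h6
    exact h7
  · intro h7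
    exact ⟨_, Lv_memM hM W δ hδM, _, Lv_memM hM W ζ hζM, (lvI_iff hM hδM h1).2 rfl,
      (lvI_iff hM hζM hζo).2 rfl, h7⟩

theorem dfn_cdU' (hM : Full c M) : Dfn ∅ M fun v : Fin 4 → ZFSet.{0} =>
    CdU (v 0) (v 1) (v 2) (v 3) := by
  have hB := hM.base
  have hJ : ∀ {n : ℕ} {F G : (Fin n → ZFSet.{0}) → ZFSet.{0}}, DfnF ∅ M F → DfnF ∅ M G →
      DfnF ∅ M fun v => JJ (F v) (G v) := fun hF hG => DfnF.comp2 (f := JJ) hM.jj hF hG
  have key : Dfn ∅ M fun v : Fin 4 → ZFSet.{0} => CdI M (v 0) (v 1) (v 2) (v 3) := by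
    unfold CdI
    apply hB.bex (DfnF.proj 2)
    apply hB.bex (DfnF.proj 3)
    apply Dfn.and (hB.isOrdinal' (DfnF.proj 1))
    apply Dfn.and (Dfn.eq (DfnF.proj 0) (DfnF.proj 1)).not
    apply Dfn.and
    · apply hB.ball (DfnF.proj 4)
      exact (Dfn.eq (DfnF.proj 0) (DfnF.proj 2)).or (Dfn.mem (DfnF.proj 0) (DfnF.proj 2))
    apply Dfn.and
    · apply hB.ball (DfnF.proj 4)
      exact (Dfn.eq (DfnF.proj 0) (DfnF.proj 2)).or ((Dfn.eq (DfnF.proj 0) (DfnF.proj 1)).or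
        (Dfn.mem (DfnF.proj 0) (DfnF.proj 1)))
    apply Dfn.ex
    apply Dfn.ex
    -- variables: Z, Y, ζ, δ, W, x, e, n
    have hs : DfnF ∅ M fun w : Fin 8 → ZFSet.{0} => ZFSet.sep (fun y => ¬ y = w 3) (w 6) :=
      hM.sep' (Q := fun y w => ¬ y = w 3) (DfnF.proj 6) (Dfn.eq (DfnF.proj 0) (DfnF.proj 4)).not
    have hw : DfnF ∅ M fun w : Fin 8 → ZFSet.{0} => ZFSet.sep (fun z => z ∈ w 0) (w 4) :=
      hM.sep' (Q := fun z w => z ∈ w 0) (DfnF.proj 4) (Dfn.mem (DfnF.proj 0) (DfnF.proj 1))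
    apply Dfn.and (dfn_lvI hM (DfnF.proj 4) (DfnF.proj 3) (DfnF.proj 1))
    apply Dfn.and (dfn_lvI hM (DfnF.proj 4) (DfnF.proj 2) (DfnF.proj 0))
    apply Dfn.and
    · apply hB.ball (DfnF.proj 1)
      exact Dfn.mem (hB.pair' (hB.pair' (DfnF.proj 0) hw.tail) hs.tail) (DfnF.proj 2)
    apply Dfn.and (Dfn.mem (DfnF.proj 5) (DfnF.proj 1))
    apply Dfn.and
    · exact Dfn.mem (DfnF.proj 7) (hJ (DfnF.proj 1) (hB.pair' (hB.pair' (DfnF.proj 5) hw) hs))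
    · apply hB.ball (DfnF.proj 1)
      apply Dfn.imp
      · exact Dfn.mem (DfnF.proj 8) (hJ (DfnF.proj 2) (hB.pair' (hB.pair' (DfnF.proj 0)
          hw.tail) hs.tail))
      · exact Dfn.eq (DfnF.proj 0) (DfnF.proj 6)
  exact key.congr fun v hv => cdI_iff hM (hv 2)

/-- Codes are definable. -/
theorem dfn_cdU (hM : Full c M) {n : ℕ} {F G H K : (Fin n → ZFSet.{0}) → ZFSet.{0}}
    (hF : DfnF ∅ M F) (hG : DfnF ∅ M G) (hH : DfnF ∅ M H) (hK : DfnF ∅ M K) :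
    Dfn ∅ M fun v => CdU (F v) (G v) (H v) (K v) :=
  Dfn.comp4 (Q := CdU) (dfn_cdU' hM) hF hG hH hK

theorem exists_nat_iff {P : ZFSet.{0} → Prop} :
    (∃ n ∈ (ZFSet.omega : ZFSet.{0}), P n) ↔ ∃ n : ℕ, P (nat n) := by
  constructor
  · rintro ⟨n, hn, h⟩
    obtain ⟨n, rfl⟩ := mem_omega_iff.1 hn
    exact ⟨n, h⟩
  · rintro ⟨n, h⟩
    exact ⟨nat n, mem_omega_iff.2 ⟨n, rfl⟩, h⟩

theorem forall_nat_iff {P : ZFSet.{0} → Prop} :
    (∀ n ∈ (ZFSet.omega : ZFSet.{0}), P n) ↔ ∀ n : ℕ, P (nat n) := by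
  constructor
  · intro h n
    exact h _ (mem_omega_iff.2 ⟨n, rfl⟩)
  · intro h n hn
    obtain ⟨n, rfl⟩ := mem_omega_iff.1 hn
    exact h n

theorem dfn_cod (hM : Full c M) : Dfn ∅ M fun v : Fin 2 → ZFSet.{0} =>
    Cod {x | x ∈ v 0} (v 1) := by
  have hB := hM.base
  have key : Dfn ∅ M fun v : Fin 2 → ZFSet.{0} => ∀ x ∈ v 0, ∃ e ∈ v 0, FO e ∧
      ∃ n ∈ (ZFSet.omega : ZFSet.{0}), CdU (v 1) x e n := by
    apply hB.ball (DfnF.proj 0)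
    apply hB.bex (DfnF.proj 1)
    apply Dfn.and (hM.fo' (DfnF.proj 0))
    apply hB.bex hM.omega'
    exact dfn_cdU hM (DfnF.proj 4) (DfnF.proj 2) (DfnF.proj 1) (DfnF.proj 0)
  refine key.congr fun v _ => ?_
  refine forall_congr' fun x => forall_congr' fun _ => exists_congr fun e =>
    and_congr_right fun _ => and_congr_right fun _ => exists_nat_iff

/-! ### The order of the least codes -/

/-- Least codes, for sets. -/
def LCI (Q W x e n : ZFSet.{0}) : Prop :=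
  e ∈ Q ∧ FO e ∧ CdU W x e n ∧ ∀ e' ∈ Q, FO e' → ∀ n' ∈ (ZFSet.omega : ZFSet.{0}),
    CdU W x e' n' → clt e n e' n' ∨ (e = e' ∧ n = n')

theorem lcI_iff {Q W x e : ZFSet.{0}} {n : ℕ} :
    LCI Q W x e (nat n) ↔ LC {z | z ∈ Q} W x e n := by
  refine and_congr_right fun _ => and_congr_right fun _ => and_congr_right fun _ => ?_
  refine forall_congr' fun e' => forall_congr' fun _ => forall_congr' fun _ => ?_
  rw [forall_nat_iff]
  refine forall_congr' fun n' => forall_congr' fun _ => ?_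
  refine or_congr_right (and_congr_right fun _ => ?_)
  exact ⟨fun h => nat_injective h, fun h => by rw [h]⟩

theorem dfn_clt (hM : Full c M) {n : ℕ} {F G H K : (Fin n → ZFSet.{0}) → ZFSet.{0}}
    (hF : DfnF ∅ M F) (hG : DfnF ∅ M G) (hH : DfnF ∅ M H) (hK : DfnF ∅ M K) :
    Dfn ∅ M fun v => clt (F v) (G v) (H v) (K v) := by
  unfold clt
  exact (hM.clx' hF hH).or ((Dfn.eq hF hH).and (Dfn.mem hG hK))

theorem dfn_LCI (hM : Full c M) : Dfn ∅ M fun v : Fin 5 → ZFSet.{0} =>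
    LCI (v 0) (v 1) (v 2) (v 3) (v 4) := by
  have hB := hM.base
  unfold LCI
  apply Dfn.and (Dfn.mem (DfnF.proj 3) (DfnF.proj 0))
  apply Dfn.and (hM.fo' (DfnF.proj 3))
  apply Dfn.and (dfn_cdU hM (DfnF.proj 1) (DfnF.proj 2) (DfnF.proj 3) (DfnF.proj 4))
  apply hB.ball (DfnF.proj 0)
  apply Dfn.imp (hM.fo' (DfnF.proj 0))
  apply hB.ball hM.omega'
  apply Dfn.imp (dfn_cdU hM (DfnF.proj 3) (DfnF.proj 4) (DfnF.proj 1) (DfnF.proj 0))
  apply Dfn.or (dfn_clt hM (DfnF.proj 5) (DfnF.proj 6) (DfnF.proj 1) (DfnF.proj 0))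
  exact (Dfn.eq (DfnF.proj 5) (DfnF.proj 1)).and (Dfn.eq (DfnF.proj 6) (DfnF.proj 0))

/-- The order of the least codes is definable. -/
theorem dfn_ltW' (hM : Full c M) : Dfn ∅ M fun v : Fin 4 → ZFSet.{0} =>
    ltW {z | z ∈ v 0} (v 1) (v 2) (v 3) := by
  have hB := hM.base
  have key : Dfn ∅ M fun v : Fin 4 → ZFSet.{0} => ∃ e ∈ v 0, ∃ n ∈ (ZFSet.omega : ZFSet.{0}),
      ∃ e' ∈ v 0, ∃ n' ∈ (ZFSet.omega : ZFSet.{0}), LCI (v 0) (v 1) (v 2) e n ∧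
        LCI (v 0) (v 1) (v 3) e' n' ∧ clt e n e' n' := by
    apply hB.bex (DfnF.proj 0)
    apply hB.bex hM.omega'
    apply hB.bex (DfnF.proj 2)
    apply hB.bex hM.omega'
    -- variables: n', e', n, e, Q, W, x, y
    apply Dfn.and ((dfn_LCI hM).comp ![4, 5, 6, 3, 2])
    apply Dfn.and ((dfn_LCI hM).comp ![4, 5, 7, 1, 0])
    exact dfn_clt hM (DfnF.proj 3) (DfnF.proj 2) (DfnF.proj 1) (DfnF.proj 0)
  refine key.congr fun v _ => ?_
  constructor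
  · rintro ⟨e, he, n, hn, e', he', n', hn', h1, h2, h3⟩
    obtain ⟨n, rfl⟩ := mem_omega_iff.1 hn
    obtain ⟨n', rfl⟩ := mem_omega_iff.1 hn'
    exact ⟨e, n, e', n', lcI_iff.1 h1, lcI_iff.1 h2, h3⟩
  · rintro ⟨e, n, e', n', h1, h2, h3⟩
    exact ⟨e, h1.1, nat n, mem_omega_iff.2 ⟨n, rfl⟩, e', h2.1, nat n',
      mem_omega_iff.2 ⟨n', rfl⟩, lcI_iff.2 h1, lcI_iff.2 h2, h3⟩

end

/-! ### Iterates -/

/-- The conditions on iterates, for sets. -/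
def RzF (Q W R : ZFSet.{0}) (σ : ZFSet.{0} → ZFSet.{0}) (i : ZFSet.{0})
    (g : ZFSet.{0} → ZFSet.{0}) : Prop :=
  (∀ x ∈ R, ∀ y ∈ x, y ∈ R) ∧ (∀ x ∈ Q, σ x ∈ R) ∧ σ ∅ = ∅ ∧
  (∀ x ∈ Q, ∀ y ∈ Q, σ (pair x y) = pair (σ x) (σ y)) ∧
  (∀ b ∈ Q, ∀ k ∈ (ZFSet.omega : ZFSet.{0}), (k ∈ JJ Q b ↔ k ∈ JJ R (σ b))) ∧
  (∀ j ∈ i, ∀ A ∈ W, g j ∈ σ A) ∧ ∀ j ∈ i, ∀ k ∈ i, k ∈ j → g k ∈ g j

theorem RzF.congr {Q W R i : ZFSet.{0}} {σ σ' g g' : ZFSet.{0} → ZFSet.{0}}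
    (h : RzF Q W R σ i g) (hQ : IsBase {x | x ∈ Q}) (h0 : ∅ ∈ Q) (hW : W ∈ Q)
    (hσ : ∀ x ∈ Q, σ' x = σ x) (hg : ∀ j ∈ i, g' j = g j) :
    RzF Q W R σ' i g' := by
  obtain ⟨h1, h2, h3, h4, h5, h6, h8⟩ := h
  refine ⟨h1, fun x hx => ?_, ?_, fun x hx y hy => ?_, fun b hb k hk => ?_, fun j hj A hA => ?_,
    fun j hj k hk hkj => ?_⟩
  · rw [hσ x hx]
    exact h2 x hx
  · rw [hσ _ h0, h3]
  · rw [hσ _ (pair_mem_base hQ hx hy), hσ x hx, hσ y hy]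
    exact h4 x hx y hy
  · rw [hσ b hb]
    exact h5 b hb k hk
  · rw [hg j hj, hσ A (hQ.trans W hW A hA)]
    exact h6 j hj A hA
  · rw [hg j hj, hg k hk]
    exact h8 j hj k hk hkj

theorem Pm.ne_mem {Q : Set ZFSet.{0}} {W : ZFSet.{0}} (hQ : Pm Q W) : ∃ A, A ∈ W := by
  rcases hQ.ultra ∅ hQ.empty (by simp) with h | h
  · exact ⟨_, h⟩
  · exact ⟨_, h⟩

section

variable {c : Cardinal.{0}} {M : Set ZFSet.{0}}

theorem rea_iff {Q W R i : ZFSet.{0}} {σ g : ZFSet.{0} → ZFSet.{0}}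
    (hQ : Pm {x | x ∈ Q} W) :
    Rea {x | x ∈ Q} W {j | j ∈ i} {x | x ∈ R} σ g ↔ RzF Q W R σ i g := by
  have hQb := hQ.base
  have hQ0 : ∅ ∈ Q := hQ.empty
  constructor
  · rintro ⟨h1, h2, h3, h5⟩
    obtain ⟨h6, h7, h8, h9⟩ := (elem_int hQb hQ0 h1).1 h2
    refine ⟨h1, h6, h7, h8, fun b hb k hk => ?_, h3, h5⟩
    obtain ⟨k, rfl⟩ := mem_omega_iff.1 hk
    rw [nat_jj, nat_jj]
    exact h9 k b hb
  · rintro ⟨h1, h2, h3, h4, h5, h6, h8⟩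
    have hel : Elem {x | x ∈ Q} {x | x ∈ R} σ := by
      refine (elem_int (R := {x | x ∈ R}) hQb hQ0 h1).2 ⟨h2, h3, h4, fun k b hb => ?_⟩
      rw [← nat_jj, ← nat_jj]
      exact h5 b hb (nat k) (mem_omega_iff.2 ⟨k, rfl⟩)
    exact ⟨h1, hel, h6, h8⟩

theorem dfn_rzF (hM : Full c M) : Dfn ∅ M fun v : Fin 6 → ZFSet.{0} =>
    RzF (v 0) (v 1) (v 2) (ap (v 3)) (v 4) (ap (v 5)) := by
  have hB := hM.base
  have hJ : ∀ {n : ℕ} {F G : (Fin n → ZFSet.{0}) → ZFSet.{0}}, DfnF ∅ M F → DfnF ∅ M G →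
      DfnF ∅ M fun v => JJ (F v) (G v) := fun hF hG => DfnF.comp2 (f := JJ) hM.jj hF hG
  unfold RzF
  apply Dfn.and
  · apply hB.ball (DfnF.proj 2)
    apply hB.ball (DfnF.proj 0)
    exact Dfn.mem (DfnF.proj 0) (DfnF.proj 4)
  apply Dfn.and
  · apply hB.ball (DfnF.proj 0)
    exact Dfn.mem (hM.ap' (DfnF.proj 4) (DfnF.proj 0)) (DfnF.proj 3)
  apply Dfn.and (Dfn.eq (hM.ap' (DfnF.proj 3) hM.empty') hM.empty')
  apply Dfn.and
  · apply hB.ball (DfnF.proj 0)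
    apply hB.ball (DfnF.proj 1)
    exact Dfn.eq (hM.ap' (DfnF.proj 5) (hB.pair' (DfnF.proj 1) (DfnF.proj 0)))
      (hB.pair' (hM.ap' (DfnF.proj 5) (DfnF.proj 1)) (hM.ap' (DfnF.proj 5) (DfnF.proj 0)))
  apply Dfn.and
  · apply hB.ball (DfnF.proj 0)
    apply hB.ball hM.omega'
    exact (Dfn.mem (DfnF.proj 0) (hJ (DfnF.proj 2) (DfnF.proj 1))).iff
      (Dfn.mem (DfnF.proj 0) (hJ (DfnF.proj 4) (hM.ap' (DfnF.proj 5) (DfnF.proj 1))))
  apply Dfn.and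
  · apply hB.ball (DfnF.proj 4)
    apply hB.ball (DfnF.proj 2)
    exact Dfn.mem (hM.ap' (DfnF.proj 7) (DfnF.proj 1)) (hM.ap' (DfnF.proj 5) (DfnF.proj 0))
  · apply hB.ball (DfnF.proj 4)
    apply hB.ball (DfnF.proj 5)
    apply Dfn.imp (Dfn.mem (DfnF.proj 0) (DfnF.proj 1))
    exact Dfn.mem (hM.ap' (DfnF.proj 7) (DfnF.proj 0)) (hM.ap' (DfnF.proj 7) (DfnF.proj 1))

/-! ### The iterable models -/

/-- The iterable models, inside of `M`. -/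
def GoodI (M : Set ZFSet.{0}) (Q W : ZFSet.{0}) : Prop :=
  (((∀ x ∈ Q, ∀ y ∈ x, y ∈ Q) ∧ ∅ ∈ Q ∧ W ∈ Q) ∧ PA {x | x ∈ Q} W ∧ CmI Q ∧ SkI Q W) ∧
  Cod {x | x ∈ Q} W ∧
  ∀ i ∈ M, i.IsOrdinal → ∃ R ∈ M, ∃ s ∈ M, ∃ G ∈ M, RzF Q W R (ap s) i (ap G)

theorem ap_im {f : ZFSet.{0} → ZFSet.{0}} {x y : ZFSet.{0}} (hy : y ∈ x) :
    ap (im (fun z => pair z (f z)) x) y = f y := by
  refine ap_eq (fun q hq => ?_) (mem_im.2 ⟨y, hy, rfl⟩)
  obtain ⟨z, hz, rfl⟩ := mem_im.1 hq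
  rw [fs_pair]
  constructor
  · rintro rfl
    rfl
  · intro h
    exact (ZFSet.pair_inj.1 h).1

theorem goodI_iff (hc : ℵ₀ ≤ c) {Q W : ZFSet.{0}} (hQM : Q ∈ HH c) :
    GoodI (HH c) Q W ↔ Good c Q W := by
  have hM := full_HH hc
  constructor
  · rintro ⟨h1, h2, h3⟩
    have hP := pm_int.2 h1
    refine ⟨hQM, hP, h2, fun i hi hio => ?_⟩
    obtain ⟨R, hR, s, -, G, -, h⟩ := h3 i hi hio
    exact ⟨R, hR, ap s, ap G, (rea_iff hP).2 h⟩
  · rintro ⟨-, hP, h2, h3⟩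
    refine ⟨pm_int.1 hP, h2, fun i hi hio => ?_⟩
    obtain ⟨R, hR, σ, g, h⟩ := h3 i hi hio
    have h4 := (rea_iff hP).1 h
    have hQb := hP.base
    have hg : ∀ j ∈ i, g j ∈ R := by
      intro j hj
      obtain ⟨A, hA⟩ := hP.ne_mem
      exact h4.1 _ (h4.2.1 A (hQb.trans _ hP.mem _ hA)) _ (h4.2.2.2.2.2.1 j hj A hA)
    refine ⟨R, hR, im (fun x => pair x (σ x)) Q, ?_, im (fun j => pair j (g j)) i, ?_, ?_⟩
    · exact hM.im_mem hQM fun x hx => hM.pair_mem (hM.trans hQM hx) (hM.trans hR (h4.2.1 x hx))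
    · exact hM.im_mem hi fun j hj => hM.pair_mem (hM.trans hi hj) (hM.trans hR (hg j hj))
    · exact h4.congr hQb hP.empty hP.mem (fun x hx => ap_im hx) fun j hj => ap_im hj

theorem dfn_CmI (hM : Full c M) : Dfn ∅ M fun v : Fin 1 → ZFSet.{0} => CmI (v 0) := by
  have hB := hM.base
  have hJ : ∀ {n : ℕ} {F G : (Fin n → ZFSet.{0}) → ZFSet.{0}}, DfnF ∅ M F → DfnF ∅ M G →
      DfnF ∅ M fun v => JJ (F v) (G v) := fun hF hG => DfnF.comp2 (f := JJ) hM.jj hF hG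
  unfold CmI
  apply hB.ball hM.omega'
  apply hB.ball (DfnF.proj 1)
  apply hB.ball (DfnF.proj 2)
  apply hB.bex (DfnF.proj 3)
  apply hB.ball (DfnF.proj 4)
  apply Dfn.iff (Dfn.mem (DfnF.proj 0) (DfnF.proj 1))
  apply Dfn.and (Dfn.mem (DfnF.proj 0) (DfnF.proj 2))
  exact Dfn.mem (DfnF.proj 4) (hJ (DfnF.proj 5) (hB.pair' (DfnF.proj 0) (DfnF.proj 3)))

theorem dfn_SkI (hM : Full c M) : Dfn ∅ M fun v : Fin 2 → ZFSet.{0} => SkI (v 0) (v 1) := by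
  have hB := hM.base
  have hJ : ∀ {n : ℕ} {F G : (Fin n → ZFSet.{0}) → ZFSet.{0}}, DfnF ∅ M F → DfnF ∅ M G →
      DfnF ∅ M fun v => JJ (F v) (G v) := fun hF hG => DfnF.comp2 (f := JJ) hM.jj hF hG
  unfold SkI
  apply hB.bex hM.omega'
  apply hB.ball hM.omega'
  apply hB.ball (DfnF.proj 2)
  apply Dfn.imp
  · apply hB.bex (DfnF.proj 3)
    exact Dfn.mem (DfnF.proj 2) (hJ (DfnF.proj 4) (hB.pair' (DfnF.proj 0) (DfnF.proj 1)))
  · apply hB.bex (DfnF.proj 3)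
    apply Dfn.and
    · exact Dfn.mem (DfnF.proj 2) (hJ (DfnF.proj 4) (hB.pair' (DfnF.proj 0) (DfnF.proj 1)))
    · apply hB.ball (DfnF.proj 4)
      apply Dfn.imp
      · exact Dfn.mem (DfnF.proj 3) (hJ (DfnF.proj 5) (hB.pair' (DfnF.proj 0) (DfnF.proj 2)))
      · apply Dfn.imp (Dfn.eq (DfnF.proj 0) (DfnF.proj 1)).not
        apply Dfn.and
        · exact Dfn.mem (DfnF.proj 4) (hJ (DfnF.proj 5) (hB.pair' (DfnF.proj 1)
            (hB.pair' (DfnF.proj 0) (hB.pair' (DfnF.proj 6) hM.empty'))))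
        · exact (Dfn.mem (DfnF.proj 4) (hJ (DfnF.proj 5) (hB.pair' (DfnF.proj 0)
            (hB.pair' (DfnF.proj 1) (hB.pair' (DfnF.proj 6) hM.empty'))))).not

theorem dfn_goodI (hM : Full c M) : Dfn ∅ M fun v : Fin 2 → ZFSet.{0} => GoodI M (v 0) (v 1) := by
  have hB := hM.base
  unfold GoodI
  apply Dfn.and
  · have h1 : Dfn ∅ M fun v : Fin 2 → ZFSet.{0} =>
        ((∀ x ∈ v 0, ∀ y ∈ x, y ∈ v 0) ∧ ∅ ∈ v 0 ∧ v 1 ∈ v 0) := by
      apply Dfn.and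
      · apply hB.ball (DfnF.proj 0)
        apply hB.ball (DfnF.proj 0)
        exact Dfn.mem (DfnF.proj 0) (DfnF.proj 2)
      · exact (Dfn.mem hM.empty' (DfnF.proj 0)).and (Dfn.mem (DfnF.proj 1) (DfnF.proj 0))
    obtain ⟨φ, hφ⟩ := ud_PA
    have h2 : Dfn ∅ M fun v : Fin 2 → ZFSet.{0} => Sat {x | x ∈ v 0} Empty.elim φ (Fin.tail v) :=
      (D0.relSat φ).dfn hB.trans
    have h3 := (h1.and h2).and (((dfn_CmI hM).comp fun _ => (0 : Fin 2)).and (dfn_SkI hM))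
    refine h3.congr fun v hv => ?_
    rw [and_assoc]
    refine and_congr_right fun h => ?_
    refine and_congr_left fun _ => ?_
    exact hφ {x | x ∈ v 0} h.1 h.2.1 (Fin.tail v) fun i => by
      fin_cases i
      exact h.2.2
  apply Dfn.and (dfn_cod hM)
  apply Dfn.all
  apply Dfn.imp (hB.isOrdinal' (DfnF.proj 0))
  apply Dfn.ex
  apply Dfn.ex
  apply Dfn.ex
  exact (dfn_rzF hM).comp ![4, 5, 2, 1, 3, 0]

/-- The class of the iterable models is definable. -/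
theorem dfn_good {c : Cardinal.{0}} (hc : ℵ₀ ≤ c) :
    Dfn ∅ (HH c) fun v : Fin 2 → ZFSet.{0} => Good c (v 0) (v 1) :=
  (dfn_goodI (full_HH hc)).congr fun _ hv => goodI_iff hc (hv 0)

/-- The order of the least codes is definable. -/
theorem dfn_ltW {c : Cardinal.{0}} (hc : ℵ₀ ≤ c) :
    Dfn ∅ (HH c) fun v : Fin 4 → ZFSet.{0} => ltW {z | z ∈ v 0} (v 1) (v 2) (v 3) :=
  dfn_ltW' (full_HH hc)

end

end Pool.Agent.R587
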