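import Pool.Agent.R587.GdDef

/-!
# Definable hulls and their collapses
-/

set_option autoImplicit false

namespace Pool.Agent.R587

open Pool.Agent.W868 hiding Models
open ZFSet (pair)
open Cardinal

theorem empty_of_trans {Q : Set ZFSet.{0}} (hQ : ∀ x ∈ Q, ∀ y ∈ x, y ∈ Q) {x : ZFSet.{0}}
    (hx : x ∈ Q) : ∅ ∈ Q := by
  induction x using ZFSet.inductionOn with
  | _ x ih =>
    by_cases h : x = ∅
    · exact h ▸ hx
    · have h1 : ∃ y, y ∈ x := by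
        by_contra hcon
        apply h
        rw [ZFSet.eq_empty]
        exact fun y hy => hcon ⟨y, hy⟩
      obtain ⟨y, hy⟩ := h1
      exact ih y hy (hQ x hx y hy)

theorem Elem.enc {Q R : Set ZFSet.{0}} {σ : ZFSet.{0} → ZFSet.{0}} (h : Elem Q R σ)
    (hQ : IsBase Q) (h0 : ∅ ∈ Q) (hR : ∀ x ∈ R, ∀ y ∈ x, y ∈ R) : ∀ {n : ℕ}
    (v : Fin n → ZFSet.{0}), (∀ i, v i ∈ Q) → σ (enc v) = enc fun i => σ (v i) := by
  obtain ⟨-, h2, h3, -⟩ := (elem_int hQ h0 hR).1 h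
  intro n
  induction n with
  | zero => exact fun v _ => h2
  | succ n ih =>
    intro v hv
    show σ (pair (v 0) (Pool.Agent.R587.enc (Fin.tail v))) =
      pair (σ (v 0)) (Pool.Agent.R587.enc _)
    rw [h3 (v 0) (hv 0) (Pool.Agent.R587.enc (Fin.tail v)) (enc_mem hQ h0 fun i => hv i.succ),
      ih (Fin.tail v) fun i => hv i.succ]
    rfl

/-- The elements of `R` that are definable from `s` and an element of the range of `e`. -/
def HdS (Q R : Set ZFSet.{0}) (e : ZFSet.{0} → ZFSet.{0}) (s : ZFSet.{0}) : Set ZFSet.{0} :=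
  {y | y ∈ R ∧ ∃ a ∈ Q, ∃ φ : Fml Empty 3, Dy R φ y (e a) s}

theorem mem_Hd {Q R D : Set ZFSet.{0}} {e : ZFSet.{0} → ZFSet.{0}} {y : ZFSet.{0}} :
    y ∈ Hd Q R e D ↔ ∃ (n : ℕ) (s : ZFSet.{0}), Inc D n s ∧ y ∈ HdS Q R e s := by
  constructor
  · rintro ⟨h1, a, ha, n, s, hs, h2⟩
    exact ⟨n, s, hs, h1, a, ha, h2⟩
  · rintro ⟨n, s, hs, h1, a, ha, h2⟩
    exact ⟨h1, a, ha, n, s, hs, h2⟩

/-- What is used about the map. -/
structure Hyp (Q : Set ZFSet.{0}) (W : ZFSet.{0}) (R : Set ZFSet.{0})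
    (e : ZFSet.{0} → ZFSet.{0}) : Prop where
  pq : Pm Q W
  pr : Pm R (e W)
  el : Elem Q R e

theorem Hyp.mk' {Q R : Set ZFSet.{0}} {W : ZFSet.{0}} {e : ZFSet.{0} → ZFSet.{0}}
    (hQ : ∀ x ∈ Q, ∀ y ∈ x, y ∈ Q) (hW : W ∈ Q) (he : Elem Q R e) (hP : Pm R (e W)) :
    Hyp Q W R e :=
  ⟨Pm.down he hQ (empty_of_trans hQ hW) hW hP, hP, he⟩

section

variable {Q R : Set ZFSet.{0}} {W : ZFSet.{0}} {e : ZFSet.{0} → ZFSet.{0}} (hH : Hyp Q W R e)

include hH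

theorem Hyp.closed {s : ZFSet.{0}} (hs : s ∈ R) {n : ℕ}
    {T : ZFSet.{0} → ZFSet.{0} → (Fin n → ZFSet.{0}) → Prop}
    (hT : Dfn ∅ R fun w : Fin (n + 2) → ZFSet.{0} => T (w 0) (w 1) (Fin.tail (Fin.tail w)))
    {v : Fin n → ZFSet.{0}} (hv : ∀ i, v i ∈ HdS Q R e s) {y : ZFSet.{0}} (hy : y ∈ R)
    (h : ∀ z ∈ R, (T z s v ↔ z = y)) : y ∈ HdS Q R e s := by
  have hR := hH.pr.base
  choose a ha φ hφ using fun i => (hv i).2
  have hD : Dfn ∅ R fun w : Fin 3 → ZFSet.{0} => ∃ u : Fin n → ZFSet.{0}, (∀ i, u i ∈ R) ∧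
      ∃ b : Fin n → ZFSet.{0}, (∀ i, b i ∈ R) ∧ (w 1 = enc b ∧
        (∀ i, Sat R Empty.elim (φ i) ![u i, b i, w 2]) ∧ T (w 0) (w 2) u) := by
    refine Dfn.exN n 3 (fun u w => ∃ b : Fin n → ZFSet.{0}, (∀ i, b i ∈ R) ∧ (w 1 = enc b ∧
        (∀ i, Sat R Empty.elim (φ i) ![u i, b i, w 2]) ∧ T (w 0) (w 2) u)) ?_
    intro l ρ σ
    refine Dfn.exN n l (fun b w => (w (σ 1) = enc b ∧
        (∀ i, Sat R Empty.elim (φ i) ![w (ρ i), b i, w (σ 2)]) ∧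
        T (w (σ 0)) (w (σ 2)) fun i => w (ρ i))) ?_
    intro l' ρ' σ'
    apply Dfn.and
    · exact (D0.isEnc (D0v.proj _) ρ').dfn hR.trans
    apply Dfn.and
    · apply Dfn.allFin
      intro i
      refine ((dfn_iff.2 ⟨φ i, fun _ _ => Iff.rfl⟩ : Dfn ∅ R fun w => Sat R Empty.elim (φ i) w).comp
        ![σ' (ρ i), ρ' i, σ' (σ 2)]).congr fun w _ => ?_
      have : (fun j => w ((![σ' (ρ i), ρ' i, σ' (σ 2)] : Fin 3 → Fin l') j)) =
          ![w (σ' (ρ i)), w (ρ' i), w (σ' (σ 2))] := by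
        funext j
        fin_cases j <;> rfl
      rw [this]
    · exact hT.comp (Fin.cons (σ' (σ 0)) (Fin.cons (σ' (σ 2)) fun i => σ' (ρ i)))
  obtain ⟨ψ, hψ⟩ := dfn_iff.1 hD
  have haQ : enc a ∈ Q := enc_mem hH.pq.base hH.pq.empty ha
  have hea : e (enc a) = enc fun i => e (a i) :=
    hH.el.enc hH.pq.base hH.pq.empty hR.trans a ha
  refine ⟨hy, enc a, haQ, ψ, fun z hz => ?_⟩
  rw [hψ _ (by
    intro i
    fin_cases i
    exacts [hz, hH.el.maps _ haQ, hs]), ← h z hz]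
  constructor
  · rintro ⟨u, hu, b, hb, h1, h2, h3⟩
    have h4 : b = fun i => e (a i) := by
      apply enc_inj
      rw [← hea]
      exact h1.symm
    have h5 : u = v := by
      funext i
      have := h2 i
      rw [h4] at this
      exact (hφ i _ (hu i)).1 this
    rw [h5] at h3
    exact h3
  · intro h3
    refine ⟨v, fun i => (hv i).1, fun i => e (a i), fun i => hH.el.maps _ (ha i), hea,
      fun i => ?_, h3⟩
    exact (hφ i _ (hv i).1).2 rfl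

omit hH in
theorem dfn_sat {n : ℕ} (φ : Fml Empty n) : Dfn ∅ R fun w => Sat R Empty.elim φ w :=
  dfn_iff.2 ⟨φ, fun _ _ => Iff.rfl⟩

theorem Hyp.range {s a : ZFSet.{0}} (ha : a ∈ Q) : e a ∈ HdS Q R e s :=
  ⟨hH.el.maps a ha, a, ha, .eq (Sum.inl 0) (Sum.inl 1), fun _ _ => Iff.rfl⟩

theorem Hyp.self {s : ZFSet.{0}} (hs : s ∈ R) : s ∈ HdS Q R e s :=
  ⟨hs, ∅, hH.pq.empty, .eq (Sum.inl 0) (Sum.inl 2), fun _ _ => Iff.rfl⟩

theorem Hyp.le {s t y : ZFSet.{0}} (hs : s ∈ R) (ht : t ∈ HdS Q R e s)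
    (hy : y ∈ HdS Q R e t) : y ∈ HdS Q R e s := by
  obtain ⟨hyR, a, ha, φ, hφ⟩ := hy
  refine hH.closed hs (n := 2) (T := fun z _ v => Sat R Empty.elim φ ![z, v 0, v 1])
    ?_ (v := ![e a, t]) (fun i => ?_) hyR fun z hz => hφ z hz
  · refine ((dfn_sat φ).comp ![0, 2, 3]).congr fun w _ => ?_
    have : (fun j => w ((![0, 2, 3] : Fin 3 → Fin 4) j)) = ![w 0, w 2, w 3] := by
      funext j
      fin_cases j <;> rfl
    rw [this]
    rfl
  · fin_cases i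
    · exact hH.range ha
    · exact ht

theorem Hyp.opN {s : ZFSet.{0}} (hs : s ∈ R) {n : ℕ} {F : (Fin n → ZFSet.{0}) → ZFSet.{0}}
    (hF : DfnF ∅ R F) {v : Fin n → ZFSet.{0}} (hv : ∀ i, v i ∈ HdS Q R e s) :
    F v ∈ HdS Q R e s :=
  hH.closed hs (T := fun z _ v => z = F v) (hF.2.comp (Fin.cons 0 fun i => i.succ.succ)) hv
    (hF.1 v fun i => (hv i).1) fun _ _ => Iff.rfl

theorem Hyp.ins {s x y : ZFSet.{0}} (hs : s ∈ R) (hx : x ∈ HdS Q R e s)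
    (hy : y ∈ HdS Q R e s) : insert x y ∈ HdS Q R e s :=
  hH.opN hs (n := 2) (F := fun v => insert (v 0) (v 1))
    (hH.pr.base.insert' (DfnF.proj 0) (DfnF.proj 1)) (v := ![x, y]) fun i => by
      fin_cases i
      · exact hx
      · exact hy

/-! ### The sets of critical points -/

/-- `D` consists of generating elements. -/
theorem Hyp.ord {D : Set ZFSet.{0}} (hD : ∀ d ∈ D, ∀ A ∈ W, d ∈ e A) {d : ZFSet.{0}}
    (hd : d ∈ D) : d ∈ R ∧ d.IsOrdinal := by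
  have h1 : (ZFSet.sUnion W : ZFSet.{0}) ∈ W := by
    rcases hH.pq.ultra ∅ hH.pq.empty (by simp) with h | h
    · exact absurd h hH.pq.ne
    · have : (ZFSet.sUnion W : ZFSet.{0}) \ ∅ = (ZFSet.sUnion W : ZFSet.{0}) := by
        ext z
        simp
      rwa [this] at h
  have h2 := hH.pq.base.trans _ hH.pq.mem _ h1
  have h3 : (e (ZFSet.sUnion W : ZFSet.{0})).IsOrdinal := by
    have := (UD.of_D0 (D0.isOrdinal (D0v.proj (0 : Fin 1)))).tr hH.el hH.pq.base.trans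
      hH.pr.base.trans hH.pq.empty hH.pr.empty (fun _ => (ZFSet.sUnion W : ZFSet.{0}))
      fun _ => h2
    exact this.1 hH.pq.ord
  have h4 := hD d hd _ h1
  exact ⟨hH.pr.base.trans _ (hH.el.maps _ h2) _ h4, h3.mem h4⟩

omit hH in
theorem base_ins {M : Set ZFSet.{0}} (hM : IsBase M) : ∀ x ∈ M, ∀ y ∈ M, insert x y ∈ M :=
  fun _ hx _ hy => base_insert hM hx hy

theorem Hyp.inc_mem {D : Set ZFSet.{0}} (hD : ∀ d ∈ D, ∀ A ∈ W, d ∈ e A) {n : ℕ}
    {s : ZFSet.{0}} (hs : Inc D n s) : s ∈ R :=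
  hs.mem' hH.pr.empty (base_ins hH.pr.base) fun _ hx => (hH.ord hD hx).1

/-- The elements of a finite set of ordinals are definable from the set. -/
theorem Hyp.inc_elem {D : Set ZFSet.{0}} (hD : ∀ d ∈ D, ∀ A ∈ W, d ∈ e A) {n : ℕ}
    {s : ZFSet.{0}} (hs : Inc D n s) : ∀ x ∈ s, x ∈ HdS Q R e s := by
  induction hs with
  | zero => exact fun x hx => absurd hx (ZFSet.notMem_empty x)
  | @succ n s c h hc hs ih =>
    have hsR := hH.inc_mem hD h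
    have hs'R := hH.inc_mem hD (Inc.succ h hc hs)
    have hcR := (hH.ord hD hc).1
    have hB := hH.pr.base
    have h1 : c ∈ HdS Q R e (insert c s) := by
      refine hH.closed hs'R (n := 0) (T := fun z t _ => z ∈ t ∧ ∀ ξ ∈ t, ξ = z ∨ ξ ∈ z) ?_
        (v := Fin.elim0) (fun i => i.elim0) hcR fun z hz => ?_
      · apply Dfn.and (Dfn.mem (DfnF.proj 0) (DfnF.proj 1))
        apply hB.ball (DfnF.proj 1)
        exact (Dfn.eq (DfnF.proj 0) (DfnF.proj 1)).or (Dfn.mem (DfnF.proj 0) (DfnF.proj 1))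
      · constructor
        · rintro ⟨h2, h3⟩
          rcases ZFSet.mem_insert_iff.1 h2 with h4 | h4
          · exact h4
          · rcases h3 c (ZFSet.mem_insert _ _) with h5 | h5
            · exact h5.symm
            · exact absurd (hs z h4) (ZFSet.mem_asymm h5)
        · rintro rfl
          refine ⟨ZFSet.mem_insert _ _, fun ξ hξ => ?_⟩
          rcases ZFSet.mem_insert_iff.1 hξ with h4 | h4
          · exact Or.inl h4
          · exact Or.inr (hs ξ h4)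
    have h2 : s ∈ HdS Q R e (insert c s) := by
      refine hH.closed hs'R (n := 1) (T := fun z t v => (∀ ξ ∈ z, ξ ∈ t ∧ ¬ ξ = v 0) ∧
        ∀ ξ ∈ t, ¬ ξ = v 0 → ξ ∈ z) ?_ (v := ![c]) (fun i => by
          fin_cases i
          exact h1) hsR fun z hz => ?_
      · apply Dfn.and
        · apply hB.ball (DfnF.proj 0)
          exact (Dfn.mem (DfnF.proj 0) (DfnF.proj 2)).and (Dfn.eq (DfnF.proj 0) (DfnF.proj 3)).not
        · apply hB.ball (DfnF.proj 1)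
          exact (Dfn.eq (DfnF.proj 0) (DfnF.proj 3)).not.imp (Dfn.mem (DfnF.proj 0) (DfnF.proj 1))
      · have hcs : c ∉ s := fun h => ZFSet.mem_irrefl c (hs c h)
        constructor
        · rintro ⟨h3, h4⟩
          ext ξ
          constructor
          · intro hξ
            obtain ⟨h5, h6⟩ := h3 ξ hξ
            exact (ZFSet.mem_insert_iff.1 h5).resolve_left h6
          · intro hξ
            refine h4 ξ (ZFSet.mem_insert_of_mem _ hξ) fun h5 => ?_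
            have h6 : ξ = c := h5
            exact hcs (h6 ▸ hξ)
        · rintro rfl
          refine ⟨fun ξ hξ => ⟨ZFSet.mem_insert_of_mem _ hξ, fun h5 => ?_⟩,
            fun ξ hξ h5 => (ZFSet.mem_insert_iff.1 hξ).resolve_left h5⟩
          have h6 : ξ = c := h5
          exact hcs (h6 ▸ hξ)
    intro x hx
    rcases ZFSet.mem_insert_iff.1 hx with rfl | hx
    · exact h1
    · exact hH.le hs'R h2 (ih x hx)

/-- Finite subsets are definable from finite sets. -/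
theorem Hyp.inc_sub {D : Set ZFSet.{0}} (hD : ∀ d ∈ D, ∀ A ∈ W, d ∈ e A) {n m : ℕ}
    {s u : ZFSet.{0}} (hs : Inc D n s) (hu : Inc D m u) (h : s ⊆ u) : s ∈ HdS Q R e u := by
  have huR := hH.inc_mem hD hu
  induction hs with
  | zero =>
    have h1 := hH.range (s := u) hH.pq.empty
    rwa [hH.el.empty hH.pq.base.trans hH.pr.base.trans hH.pq.empty] at h1
  | @succ n s c hs hc hs' ih =>
    exact hH.ins huR (hH.inc_elem hD hu c (h (ZFSet.mem_insert _ _)))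
      (ih fun x hx => h (ZFSet.mem_insert_of_mem _ hx))

omit hH in
theorem Inc.ins {D : Set ZFSet.{0}} (hD : ∀ d ∈ D, d.IsOrdinal) {n : ℕ} {s d : ZFSet.{0}}
    (hs : Inc D n s) (hd : d ∈ D) : ∃ k, Inc D k (insert d s) := by
  induction hs with
  | zero => exact ⟨1, Inc.succ Inc.zero hd fun ξ hξ => absurd hξ (ZFSet.notMem_empty ξ)⟩
  | @succ n s c hs hc hs' ih =>
    rcases (hD d hd).mem_trichotomous (hD c hc) with h | h | h
    · obtain ⟨k, hk⟩ := ih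
      refine ⟨k + 1, ?_⟩
      have h1 : (insert d (insert c s) : ZFSet.{0}) = insert c (insert d s) := by
        ext z
        simp only [ZFSet.mem_insert_iff]
        tauto
      rw [h1]
      refine Inc.succ hk hc fun ξ hξ => ?_
      rcases ZFSet.mem_insert_iff.1 hξ with rfl | hξ
      · exact h
      · exact hs' ξ hξ
    · refine ⟨n + 1, ?_⟩
      have h1 : (insert d (insert c s) : ZFSet.{0}) = insert c s := by
        ext z
        simp only [ZFSet.mem_insert_iff, h]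
        tauto
      rw [h1]
      exact Inc.succ hs hc hs'
    · refine ⟨n + 1 + 1, Inc.succ (Inc.succ hs hc hs') hd fun ξ hξ => ?_⟩
      rcases ZFSet.mem_insert_iff.1 hξ with rfl | hξ
      · exact h
      · exact (hD d hd).isTransitive.subset_of_mem h (hs' ξ hξ)

omit hH in
theorem Inc.union {D : Set ZFSet.{0}} (hD : ∀ d ∈ D, d.IsOrdinal) {n m : ℕ} {s t : ZFSet.{0}}
    (hs : Inc D n s) (ht : Inc D m t) : ∃ k u, Inc D k u ∧ s ⊆ u ∧ t ⊆ u := by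
  induction ht with
  | zero => exact ⟨n, s, hs, fun _ h => h, fun x hx => absurd hx (ZFSet.notMem_empty x)⟩
  | @succ n' t c _ hc _ ih =>
    obtain ⟨k, u, h1, h2, h3⟩ := ih
    obtain ⟨k', h4⟩ := h1.ins hD hc
    refine ⟨k', _, h4, fun x hx => ZFSet.mem_insert_of_mem _ (h2 hx), fun x hx => ?_⟩
    rcases ZFSet.mem_insert_iff.1 hx with rfl | hx
    · exact ZFSet.mem_insert _ _
    · exact ZFSet.mem_insert_of_mem _ (h3 hx)

theorem Hyp.dir {D : Set ZFSet.{0}} (hD : ∀ d ∈ D, ∀ A ∈ W, d ∈ e A) {n : ℕ}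
    {v : Fin n → ZFSet.{0}} (hv : ∀ i, v i ∈ Hd Q R e D) :
    ∃ k u, Inc D k u ∧ ∀ i, v i ∈ HdS Q R e u := by
  induction n with
  | zero => exact ⟨0, ∅, Inc.zero, fun i => i.elim0⟩
  | succ n ih =>
    obtain ⟨k, u, h1, h2⟩ := ih (v := Fin.tail v) fun i => hv i.succ
    obtain ⟨m, t, h3, h4⟩ := mem_Hd.1 (hv 0)
    obtain ⟨l, w, h5, h6, h7⟩ := h1.union (fun d hd => (hH.ord hD hd).2) h3
    have hwR := hH.inc_mem hD h5
    refine ⟨l, w, h5, fun i => ?_⟩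
    refine Fin.cases ?_ (fun i => ?_) i
    · exact hH.le hwR (hH.inc_sub hD h3 h5 h7) h4
    · exact hH.le hwR (hH.inc_sub hD h1 h5 h6) (h2 i)

/-- The hull satisfies the criterion of Tarski and Vaught. -/
theorem Hyp.tv {D : Set ZFSet.{0}} (hD : ∀ d ∈ D, ∀ A ∈ W, d ∈ e A) :
    TV R (Hd Q R e D) := by
  refine ⟨fun y hy => hy.1, fun n T hT v hv hy => ?_⟩
  obtain ⟨k, u, hu, hvu⟩ := hH.dir hD hv
  have huR := hH.inc_mem hD hu
  have hvR : ∀ i, v i ∈ R := fun i => (hvu i).1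
  obtain ⟨φ, hφ⟩ := dfn_iff.1 hT
  have hφ' : ∀ y ∈ R, (Sat R Empty.elim φ (Fin.cons y v) ↔ T y v) := by
    intro y hy
    rw [hφ _ (by
      intro i
      refine Fin.cases ?_ (fun i => ?_) i
      · exact hy
      · exact hvR i)]
    rfl
  obtain ⟨χ, hχ⟩ := hH.pr.sko
  obtain ⟨y1, hy1, hy1'⟩ := hy
  obtain ⟨y, hy, h1, h2⟩ := hχ φ v hvR ⟨y1, hy1, (hφ' y1 hy1).2 hy1'⟩
  refine ⟨y, mem_Hd.2 ⟨k, u, hu, ?_⟩, (hφ' y hy).1 h1⟩
  refine hH.closed huR (n := n + 1) (T := fun z _ v => Sat R Empty.elim φ (Fin.cons z (Fin.tail v)) ∧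
    ∀ z' ∈ R, Sat R Empty.elim φ (Fin.cons z' (Fin.tail v)) → ¬ z' = z →
      Sat R Empty.elim χ ![z, z', v 0] ∧ ¬ Sat R Empty.elim χ ![z', z, v 0]) ?_
    (v := Fin.cons (e W) v) (fun i => ?_) hy fun z hz => ?_
  · have h3 : ∀ {l : ℕ} (ρ : Fin (n + 1) → Fin l), Dfn ∅ R fun w : Fin l → ZFSet.{0} =>
        Sat R Empty.elim φ fun i => w (ρ i) := fun ρ => (dfn_sat φ).comp ρ
    have h4 : ∀ {l : ℕ} (i j k : Fin l), Dfn ∅ R fun w : Fin l → ZFSet.{0} =>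
        Sat R Empty.elim χ ![w i, w j, w k] := by
      intro l i j k
      refine ((dfn_sat χ).comp ![i, j, k]).congr fun w _ => ?_
      have : (fun a => w ((![i, j, k] : Fin 3 → Fin l) a)) = ![w i, w j, w k] := by
        funext a
        fin_cases a <;> rfl
      rw [this]
    apply Dfn.and
    · refine (h3 (Fin.cons 0 fun i => i.succ.succ.succ)).congr fun w _ => ?_
      have : (fun i => w ((Fin.cons 0 fun i : Fin n => i.succ.succ.succ :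
          Fin (n + 1) → Fin (n + 1 + 2)) i)) = Fin.cons (w 0) (Fin.tail (Fin.tail (Fin.tail w))) := by
        funext i
        refine Fin.cases rfl (fun i => rfl) i
      rw [this]
    · apply Dfn.all
      apply Dfn.imp
      · refine (h3 (Fin.cons 0 fun i => i.succ.succ.succ.succ)).congr fun w _ => ?_
        have : (fun i => w ((Fin.cons 0 fun i : Fin n => i.succ.succ.succ.succ :
            Fin (n + 1) → Fin (n + 1 + 2 + 1)) i)) =
            Fin.cons (w 0) (Fin.tail (Fin.tail (Fin.tail (Fin.tail w)))) := by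
          funext i
          refine Fin.cases rfl (fun i => rfl) i
        rw [this]
      · apply Dfn.imp (Dfn.eq (DfnF.proj 0) (DfnF.proj 1)).not
        exact (h4 1 0 3).and (h4 0 1 3).not
  · refine Fin.cases ?_ (fun i => ?_) i
    · exact hH.range hH.pq.mem
    · exact hvu i
  · rw [Fin.tail_cons, Fin.cons_zero]
    constructor
    · rintro ⟨h3, h4⟩
      by_contra hne
      have h5 := h4 y hy h1 fun h => hne h.symm
      have h6 := h2 z hz h3 hne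
      exact h5.2 h6.1
    · rintro rfl
      exact ⟨h1, fun z' hz' h3 h4 => h2 z' hz' h3 h4⟩

omit hH in
theorem TV.ext' {M X : Set ZFSet.{0}} (hM : ∀ x ∈ M, ∀ y ∈ x, y ∈ M) (hX : TV M X)
    {x y : ZFSet.{0}} (hx : x ∈ X) (hy : y ∈ X) (h : ∀ z ∈ X, z ∈ x ↔ z ∈ y) : x = y := by
  by_contra hne
  obtain ⟨z, hz⟩ : ∃ z, ¬ (z ∈ x ↔ z ∈ y) := by
    by_contra h2
    push Not at h2
    exact hne (ZFSet.ext h2)
  have hd : Dfn ∅ M fun w : Fin 3 → ZFSet.{0} => ¬ (w 0 ∈ w 1 ↔ w 0 ∈ w 2) :=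
    (Dfn.iff (Dfn.mem (DfnF.proj 0) (DfnF.proj 1)) (Dfn.mem (DfnF.proj 0) (DfnF.proj 2))).not
  have hzM : z ∈ M := by
    by_cases h1 : z ∈ x
    · exact hM _ (hX.1 hx) _ h1
    · by_cases h2 : z ∈ y
      · exact hM _ (hX.1 hy) _ h2
      · exact absurd (iff_of_false h1 h2) hz
  obtain ⟨u, hu, h1⟩ := hX.2 2 (fun a v => ¬ (a ∈ v 0 ↔ a ∈ v 1)) hd ![x, y] (by
    intro i
    fin_cases i
    · exact hx
    · exact hy) ⟨z, hzM, hz⟩
  exact h1 (h u hu)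

end

/-! ### The results -/

section

variable {Q R : Set ZFSet.{0}} {W : ZFSet.{0}} {e : ZFSet.{0} → ZFSet.{0}} {D : Set ZFSet.{0}}

/-- Truth in the hull. -/
theorem Hyp.sat (hH : Hyp Q W R e) (hD : ∀ d ∈ D, ∀ A ∈ W, d ∈ e A) {n : ℕ} (φ : Fml Empty n)
    (v : Fin n → ZFSet.{0}) (hv : ∀ i, v i ∈ Hd Q R e D) :
    Sat (Hd Q R e D) Empty.elim φ v ↔ Sat R Empty.elim φ v := (hH.tv hD).sat φ v hv

theorem Hyp.range_mem (hH : Hyp Q W R e) {a : ZFSet.{0}} (ha : a ∈ Q) : e a ∈ Hd Q R e D :=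
  mem_Hd.2 ⟨0, ∅, Inc.zero, hH.range ha⟩

theorem Hyp.inc_mem_Hd (hH : Hyp Q W R e) (hD : ∀ d ∈ D, ∀ A ∈ W, d ∈ e A) {n : ℕ}
    {s : ZFSet.{0}} (hs : Inc D n s) : s ∈ Hd Q R e D :=
  mem_Hd.2 ⟨n, s, hs, hH.self (hH.inc_mem hD hs)⟩

theorem Hyp.crit_mem (hH : Hyp Q W R e) (hD : ∀ d ∈ D, ∀ A ∈ W, d ∈ e A) {d : ZFSet.{0}}
    (hd : d ∈ D) : d ∈ Hd Q R e D := by
  have h1 : Inc D 1 (insert d ∅) :=
    Inc.succ Inc.zero hd fun ξ hξ => absurd hξ (ZFSet.notMem_empty ξ)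
  exact mem_Hd.2 ⟨1, _, h1, hH.inc_elem hD h1 d (ZFSet.mem_insert _ _)⟩

theorem col_insert {K x y : ZFSet.{0}} (hx : x ∈ K) : col K (insert x y) = insert (col K x) (col K y) := by
  ext z
  rw [mem_col, ZFSet.mem_insert_iff, mem_col]
  constructor
  · rintro ⟨u, hu, huK, rfl⟩
    rcases ZFSet.mem_insert_iff.1 hu with rfl | hu
    · exact Or.inl rfl
    · exact Or.inr ⟨u, hu, huK, rfl⟩
  · rintro (rfl | ⟨u, hu, huK, rfl⟩)
    · exact ⟨x, ZFSet.mem_insert _ _, hx, rfl⟩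
    · exact ⟨u, ZFSet.mem_insert_of_mem _ hu, huK, rfl⟩

theorem Inc.col {K : ZFSet.{0}} (hK : ∀ d ∈ D, d ∈ K) {n : ℕ} {s : ZFSet.{0}} (hs : Inc D n s) :
    Inc {c | ∃ d ∈ D, c = Pool.Agent.W868.col K d} n (Pool.Agent.W868.col K s) := by
  induction hs with
  | zero =>
    have : Pool.Agent.W868.col K ∅ = ∅ := by
      rw [ZFSet.eq_empty]
      intro z hz
      obtain ⟨u, hu, -⟩ := mem_col.1 hz
      exact ZFSet.notMem_empty u hu
    rw [this]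
    exact Inc.zero
  | @succ n s c hs hc hs' ih =>
    rw [col_insert (hK c hc)]
    refine Inc.succ ih ⟨c, hc, rfl⟩ fun ξ hξ => ?_
    obtain ⟨u, hu, huK, rfl⟩ := mem_col.1 hξ
    exact mem_col.2 ⟨u, hs' u hu, huK, rfl⟩

variable {K : ZFSet.{0}}

theorem Hyp.xt (hH : Hyp Q W R e) (hD : ∀ d ∈ D, ∀ A ∈ W, d ∈ e A)
    (hK : ∀ x, x ∈ K ↔ x ∈ Hd Q R e D) : Xt K := by
  intro x hx y hy h
  exact (hH.tv hD).ext' hH.pr.base.trans ((hK x).1 hx) ((hK y).1 hy) fun z hz => h z ((hK z).2 hz)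

/-- Truth in the collapse of the hull. -/
theorem Hyp.sat_im (hH : Hyp Q W R e) (hD : ∀ d ∈ D, ∀ A ∈ W, d ∈ e A)
    (hK : ∀ x, x ∈ K ↔ x ∈ Hd Q R e D) {n : ℕ} (φ : Fml Empty n) (v : Fin n → ZFSet.{0})
    (hv : ∀ i, v i ∈ K) : Sat {x | x ∈ im (col K) K} Empty.elim φ (fun i => col K (v i)) ↔
      Sat R Empty.elim φ v := by
  have h1 : {x | x ∈ K} = Hd Q R e D := Set.ext hK
  rw [sat_col (hH.xt hD hK) φ v hv, h1]
  exact hH.sat hD φ v fun i => (hK _).1 (hv i)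

/-- The collapse of the hull is a realization. -/
theorem Hyp.hull (hH : Hyp Q W R e) (hD : ∀ d ∈ D, ∀ A ∈ W, d ∈ e A)
    (hK : ∀ x, x ∈ K ↔ x ∈ Hd Q R e D) :
    Rlz Q W {x | x ∈ im (col K) K} (fun a => col K (e a)) {c | ∃ d ∈ D, c = col K d} := by
  have hX := hH.xt hD hK
  have hr : ∀ {a : ZFSet.{0}}, a ∈ Q → e a ∈ K := fun ha => (hK _).2 (hH.range_mem ha)
  refine ⟨col_trans, ⟨fun x hx => mem_im.2 ⟨_, hr hx, rfl⟩, fun φ v hv => ?_⟩, ?_, ?_⟩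
  · rw [hH.sat_im hD hK φ (fun i => e (v i)) fun i => hr (hv i)]
    exact hH.el.sat φ v hv
  · rintro c ⟨d, hd, rfl⟩ A hA
    exact mem_col.2 ⟨d, hD d hd A hA, (hK d).2 (hH.crit_mem hD hd), rfl⟩
  · intro y hy
    obtain ⟨x, hx, rfl⟩ := mem_im.1 hy
    obtain ⟨-, a, ha, n, s, hs, φ, hφ⟩ := (hK x).1 hx
    refine ⟨hy, a, ha, n, col K s, hs.col fun d hd => (hK d).2 (hH.crit_mem hD hd), φ, ?_⟩
    intro z hz
    obtain ⟨z, hzK, rfl⟩ := mem_im.1 hz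
    have hsK : s ∈ K := (hK s).2 (hH.inc_mem_Hd hD hs)
    have hv : ∀ i, (![z, e a, s] : Fin 3 → ZFSet.{0}) i ∈ K := by
      intro i
      fin_cases i
      exacts [hzK, hr ha, hsK]
    have h1 := hH.sat_im hD hK φ ![z, e a, s] hv
    have h2 : (fun i => col K ((![z, e a, s] : Fin 3 → ZFSet.{0}) i)) =
        ![col K z, col K (e a), col K s] := by
      funext i
      fin_cases i <;> rfl
    rw [h2] at h1
    rw [h1, hφ z ((hK z).1 hzK).1]
    exact ⟨fun h => by rw [h], fun h => col_inj hX z hzK x hx h⟩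

/-! The same with the hypotheses spelled out. -/

theorem Hd.sat {W' : ZFSet.{0}} (hP : Pm R W') (he : Elem Q R e) (hQ : ∀ x ∈ Q, ∀ y ∈ x, y ∈ Q)
    (hW : W ∈ Q) (heW : e W = W') (hD : ∀ d ∈ D, ∀ A ∈ W, d ∈ e A) {n : ℕ} (φ : Fml Empty n)
    (v : Fin n → ZFSet.{0}) (hv : ∀ i, v i ∈ Hd Q R e D) :
    Sat (Hd Q R e D) Empty.elim φ v ↔ Sat R Empty.elim φ v :=
  (Hyp.mk' hQ hW he (heW ▸ hP)).sat hD φ v hv

theorem Hd.range_mem {W' : ZFSet.{0}} (hP : Pm R W') (he : Elem Q R e)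
    (hQ : ∀ x ∈ Q, ∀ y ∈ x, y ∈ Q) (hW : W ∈ Q) (heW : e W = W') {a : ZFSet.{0}} (ha : a ∈ Q) :
    e a ∈ Hd Q R e D :=
  (Hyp.mk' hQ hW he (heW ▸ hP)).range_mem ha

theorem Hd.crit_mem {W' : ZFSet.{0}} (hP : Pm R W') (he : Elem Q R e)
    (hQ : ∀ x ∈ Q, ∀ y ∈ x, y ∈ Q) (hW : W ∈ Q) (heW : e W = W')
    (hD : ∀ d ∈ D, ∀ A ∈ W, d ∈ e A) {d : ZFSet.{0}} (hd : d ∈ D) : d ∈ Hd Q R e D :=
  (Hyp.mk' hQ hW he (heW ▸ hP)).crit_mem hD hd

theorem Hd.xt {W' : ZFSet.{0}} (hP : Pm R W') (he : Elem Q R e)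
    (hQ : ∀ x ∈ Q, ∀ y ∈ x, y ∈ Q) (hW : W ∈ Q) (heW : e W = W')
    (hD : ∀ d ∈ D, ∀ A ∈ W, d ∈ e A) (hK : ∀ x, x ∈ K ↔ x ∈ Hd Q R e D) : Xt K :=
  (Hyp.mk' hQ hW he (heW ▸ hP)).xt hD hK

theorem Rlz.hull {W' : ZFSet.{0}} (hP : Pm R W') (he : Elem Q R e)
    (hQ : ∀ x ∈ Q, ∀ y ∈ x, y ∈ Q) (hW : W ∈ Q) (heW : e W = W')
    (hD : ∀ d ∈ D, ∀ A ∈ W, d ∈ e A) (hK : ∀ x, x ∈ K ↔ x ∈ Hd Q R e D) :
    Rlz Q W {x | x ∈ im (col K) K} (fun a => col K (e a)) {c | ∃ d ∈ D, c = col K d} ∧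
    ∀ {n : ℕ} (φ : Fml Empty n) (v : Fin n → ZFSet.{0}), (∀ i, v i ∈ K) →
      (Sat {x | x ∈ im (col K) K} Empty.elim φ (fun i => col K (v i)) ↔ Sat R Empty.elim φ v) :=
  have hH := Hyp.mk' hQ hW he (heW ▸ hP)
  ⟨hH.hull hD hK, fun φ v hv => hH.sat_im hD hK φ v hv⟩

theorem Inc.finite {n : ℕ} {s : ZFSet.{0}} (hs : Inc D n s) :
    {y | y ∈ s}.Finite ∧ ∀ y ∈ s, y ∈ D := by
  induction hs with
  | zero => exact ⟨Set.Finite.subset Set.finite_empty fun y hy => ZFSet.notMem_empty y hy,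
      fun y hy => absurd hy (ZFSet.notMem_empty y)⟩
  | @succ n s c hs hc hs' ih =>
    refine ⟨(ih.1.insert c).subset fun y hy => ?_, fun y hy => ?_⟩
    · exact ZFSet.mem_insert_iff.1 hy
    · rcases ZFSet.mem_insert_iff.1 hy with rfl | hy
      · exact hc
      · exact ih.2 y hy

/-- The hull is a small set. -/
theorem exists_hd {c : Cardinal.{0}} (hc : ℵ₀ ≤ c) {Q D : ZFSet.{0}} (hQ : Q.card ≤ c)
    (hD : D.card ≤ c) (R : Set ZFSet.{0}) (e : ZFSet.{0} → ZFSet.{0}) :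
    ∃ K : ZFSet.{0}, (∀ x, x ∈ K ↔ x ∈ Hd {x | x ∈ Q} R e {x | x ∈ D}) ∧ K.card ≤ c := by
  classical
  let α := Shrink.{0} {z : ZFSet.{0} // z ∈ Q}
  let β := Shrink.{0} {z : ZFSet.{0} // z ∈ finS D}
  let f : α × β × Fml Empty 3 → ZFSet.{0} := fun p =>
    if h : ∃ y ∈ R, Dy R p.2.2 y (e ((equivShrink {z : ZFSet.{0} // z ∈ Q}).symm p.1).1)
      ((equivShrink {z : ZFSet.{0} // z ∈ finS D}).symm p.2.1).1 then h.choose else ∅
  let K0 : ZFSet.{0} := ZFSet.range f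
  refine ⟨ZFSet.sep (fun y => y ∈ Hd {x | x ∈ Q} R e {x | x ∈ D}) K0, fun x => ?_, ?_⟩
  · rw [ZFSet.mem_sep]
    refine and_iff_right_of_imp fun hx => ?_
    obtain ⟨hxR, a, ha, n, s, hs, φ, hφ⟩ := hx
    have hsD : s ∈ finS D := by
      rw [finS, ZFSet.mem_sep, ZFSet.mem_powerset]
      exact ⟨hs.finite.2, hs.finite.1⟩
    refine ZFSet.mem_range.2 ⟨(equivShrink _ ⟨a, ha⟩, equivShrink _ ⟨s, hsD⟩, φ), ?_⟩
    have h1 : ∃ y ∈ R, Dy R φ y (e ((equivShrink {z : ZFSet.{0} // z ∈ Q}).symm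
        (equivShrink _ ⟨a, ha⟩)).1) ((equivShrink {z : ZFSet.{0} // z ∈ finS D}).symm
        (equivShrink _ ⟨s, hsD⟩)).1 := by
      refine ⟨x, hxR, ?_⟩
      simpa using hφ
    have h2 : f (equivShrink _ ⟨a, ha⟩, equivShrink _ ⟨s, hsD⟩, φ) = h1.choose := dif_pos h1
    rw [h2]
    have h3 := h1.choose_spec
    have h4 : Dy R φ h1.choose (e a) s := by simpa using h3.2
    exact (hφ _ h3.1).1 ((h4 _ h3.1).2 rfl)
  · refine (ZFSet.card_mono fun y hy => (ZFSet.mem_sep.1 hy).1).trans ?_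
    refine (card_range_le f).trans ?_
    rw [Cardinal.mk_prod, Cardinal.mk_prod, Cardinal.lift_id, Cardinal.lift_id, Cardinal.lift_id,
      Cardinal.lift_id]
    have h1 : #α ≤ c := hQ
    have h2 : #β ≤ c := card_finS_le hc hD
    have h3 : #(Fml Empty 3) ≤ ℵ₀ := by
      have := (countable_fmlE 3)
      rw [Set.countable_univ_iff] at this
      exact Cardinal.mk_le_aleph0
    calc #α * (#β * #(Fml Empty 3)) ≤ c * (c * c) :=
          mul_le_mul' h1 (mul_le_mul' h2 (h3.trans hc))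
      _ = c := by rw [Cardinal.mul_eq_self hc, Cardinal.mul_eq_self hc]

end

end Pool.Agent.R587
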