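import Pool.Agent.R587.Colex

/-!
# Definable hulls in a class with a definable well-ordering
-/

set_option autoImplicit false

namespace Pool.Agent.R587

open Pool.Agent.W868
open ZFSet (pair)
open Cardinal

/-- `lt` is a well-ordering of `M`, definable without parameters. -/
structure WO (M : Set ZFSet.{0}) (lt : ZFSet.{0} → ZFSet.{0} → Prop) : Prop where
  dfn : Dfn ∅ M fun v : Fin 2 → ZFSet.{0} => lt (v 0) (v 1)
  wf : ∀ P : ZFSet.{0} → Prop, (∃ x ∈ M, P x) → ∃ x ∈ M, P x ∧ ∀ y ∈ M, P y → ¬ lt y x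
  tri : ∀ x ∈ M, ∀ y ∈ M, lt x y ∨ x = y ∨ lt y x

open Classical in
/-- The least element of `M` with the property `P`. -/
noncomputable def lst (M : Set ZFSet.{0}) (lt : ZFSet.{0} → ZFSet.{0} → Prop)
    (P : ZFSet.{0} → Prop) : ZFSet.{0} :=
  if h : ∃ x ∈ M, P x ∧ ∀ y ∈ M, P y → ¬ lt y x then h.choose else ∅

section

variable {c : Cardinal.{0}} {M : Set ZFSet.{0}} {lt : ZFSet.{0} → ZFSet.{0} → Prop}

theorem WO.lst_spec (hW : WO M lt) {P : ZFSet.{0} → Prop} (h : ∃ x ∈ M, P x) :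
    lst M lt P ∈ M ∧ P (lst M lt P) ∧ ∀ y ∈ M, P y → ¬ lt y (lst M lt P) := by
  have h1 := hW.wf P h
  rw [lst, dif_pos h1]
  exact h1.choose_spec

theorem WO.asymm (hW : WO M lt) {x y : ZFSet.{0}} (hx : x ∈ M) (hy : y ∈ M) (h1 : lt x y)
    (h2 : lt y x) : False := by
  obtain ⟨z, hz, h3, h4⟩ := hW.wf (fun z => z = x ∨ z = y) ⟨x, hx, Or.inl rfl⟩
  rcases h3 with rfl | rfl
  · exact h4 y hy (Or.inr rfl) h2
  · exact h4 x hx (Or.inl rfl) h1

theorem WO.lst_eq (hW : WO M lt) {P : ZFSet.{0} → Prop} {x : ZFSet.{0}} (hx : x ∈ M) (h : P x)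
    (h' : ∀ y ∈ M, P y → ¬ lt y x) : lst M lt P = x := by
  obtain ⟨h1, h2, h3⟩ := hW.lst_spec ⟨x, hx, h⟩
  rcases hW.tri _ h1 x hx with h4 | h4 | h4
  · exact absurd h4 (h' _ h1 h2)
  · exact h4
  · exact absurd h4 (h3 x hx h)

theorem lst_none {P : ZFSet.{0} → Prop} (h : ¬ ∃ x ∈ M, P x) : lst M lt P = ∅ := by
  rw [lst, dif_neg]
  rintro ⟨x, hx, h1, -⟩
  exact h ⟨x, hx, h1⟩

theorem WO.dfn_lst (hW : WO M lt) (hM : Full c M) {n : ℕ}
    {Q : ZFSet.{0} → (Fin n → ZFSet.{0}) → Prop}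
    (hQ : Dfn ∅ M fun w : Fin (n + 1) → ZFSet.{0} => Q (w 0) (Fin.tail w)) :
    DfnF ∅ M fun v => lst M lt fun x => Q x v := by
  refine DfnF.of_unique (R := fun y v => (Q y v ∧ ∀ z ∈ M, Q z v → ¬ lt z y) ∨
    (y = ∅ ∧ ¬ ∃ z ∈ M, Q z v)) ?_ ?_
  · have h1 : Dfn ∅ M fun w : Fin (n + 2) → ZFSet.{0} => Q (w 0) (Fin.tail (Fin.tail w)) :=
      hQ.comp (Fin.cons 0 fun i => i.succ.succ)
    apply Dfn.or
    · apply Dfn.and hQ
      apply Dfn.all
      apply Dfn.imp h1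
      exact (hW.dfn.comp ![0, 1]).not
    · apply Dfn.and (Dfn.eq (DfnF.proj 0) hM.empty')
      exact (Dfn.ex h1).not
  · intro v hv
    by_cases h : ∃ x ∈ M, Q x v
    · obtain ⟨h1, h2, h3⟩ := hW.lst_spec h
      refine ⟨h1, fun y hy => ?_⟩
      constructor
      · rintro (⟨h4, h5⟩ | ⟨-, h4⟩)
        · exact (hW.lst_eq hy h4 h5).symm
        · exact absurd h h4
      · rintro rfl
        exact Or.inl ⟨h2, h3⟩
    · rw [lst_none h]
      refine ⟨hM.empty_mem, fun y hy => ?_⟩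
      constructor
      · rintro (⟨h4, -⟩ | ⟨h4, -⟩)
        · exact absurd ⟨y, hy, h4⟩ h
        · exact h4
      · rintro rfl
        exact Or.inr ⟨rfl, h⟩

/-! ### Types and hulls -/

/-- `a` and `b` have the same type. -/
def Tp (M : Set ZFSet.{0}) (a b : ZFSet.{0}) : Prop :=
  ∀ R : ZFSet.{0} → Prop, Dfn ∅ M (fun v : Fin 1 → ZFSet.{0} => R (v 0)) → (R a ↔ R b)

/-- A definable operation. -/
def Op (M : Set ZFSet.{0}) (h : ZFSet.{0} → ZFSet.{0}) : Prop :=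
  DfnF ∅ M fun v : Fin 1 → ZFSet.{0} => h (v 0)

/-- The definable hull of `a`. -/
def Hul (M : Set ZFSet.{0}) (a : ZFSet.{0}) : Set ZFSet.{0} := {x | ∃ h, Op M h ∧ x = h a}

theorem Op.mem {h : ZFSet.{0} → ZFSet.{0}} (hh : Op M h) {a : ZFSet.{0}} (ha : a ∈ M) :
    h a ∈ M := hh.1 (fun _ => a) fun _ => ha

theorem Op.comp {h k : ZFSet.{0} → ZFSet.{0}} (hh : Op M h) (hk : Op M k) :
    Op M fun x => h (k x) := DfnF.comp1 (f := h) hh hk

theorem Op.id : Op M fun x => x := DfnF.proj 0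

theorem Tp.symm {a b : ZFSet.{0}} (h : Tp M a b) : Tp M b a := fun R hR => (h R hR).symm

theorem Tp.trans {a b d : ZFSet.{0}} (h : Tp M a b) (h' : Tp M b d) : Tp M a d :=
  fun R hR => (h R hR).trans (h' R hR)

theorem Tp.refl {a : ZFSet.{0}} : Tp M a a := fun _ _ => Iff.rfl

theorem Tp.op {a b : ZFSet.{0}} (h : Tp M a b) {k : ZFSet.{0} → ZFSet.{0}} (hk : Op M k) :
    Tp M (k a) (k b) := fun R hR => h (fun x => R (k x)) (Dfn.comp1 (Q := R) hR hk)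

theorem hul_self {a : ZFSet.{0}} : a ∈ Hul M a := ⟨_, Op.id, rfl⟩

theorem hul_mem {a x : ZFSet.{0}} (ha : a ∈ M) (hx : x ∈ Hul M a) : x ∈ M := by
  obtain ⟨h, hh, rfl⟩ := hx
  exact hh.mem ha

theorem hul_trans {a b x : ZFSet.{0}} (hx : x ∈ Hul M b) (hb : b ∈ Hul M a) : x ∈ Hul M a := by
  obtain ⟨h, hh, rfl⟩ := hx
  obtain ⟨k, hk, rfl⟩ := hb
  exact ⟨_, hh.comp hk, rfl⟩

theorem hul_op {a x : ZFSet.{0}} {h : ZFSet.{0} → ZFSet.{0}} (hh : Op M h) (hx : x ∈ Hul M a) :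
    h x ∈ Hul M a := hul_trans ⟨h, hh, rfl⟩ hx

theorem hul_opN {a : ZFSet.{0}} {n : ℕ} {F : (Fin n → ZFSet.{0}) → ZFSet.{0}}
    (hF : DfnF ∅ M F) {v : Fin n → ZFSet.{0}} (hv : ∀ i, v i ∈ Hul M a) : F v ∈ Hul M a := by
  choose h hh hv using hv
  refine ⟨fun x => F fun i => h i x, DfnF.compN hF fun i => hh i, ?_⟩
  congr 1
  exact funext hv

theorem hul_op2 {a x y : ZFSet.{0}} {f : ZFSet.{0} → ZFSet.{0} → ZFSet.{0}}
    (hf : DfnF ∅ M fun v : Fin 2 → ZFSet.{0} => f (v 0) (v 1)) (hx : x ∈ Hul M a)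
    (hy : y ∈ Hul M a) : f x y ∈ Hul M a := by
  have h := hul_opN (a := a) hf (v := ![x, y]) (by
    intro i
    fin_cases i
    · exact hx
    · exact hy)
  exact h

/-- `X` satisfies the criterion of Tarski and Vaught. -/
def TV (M X : Set ZFSet.{0}) : Prop := X ⊆ M ∧
  ∀ (n : ℕ) (R : ZFSet.{0} → (Fin n → ZFSet.{0}) → Prop),
    Dfn ∅ M (fun w : Fin (n + 1) → ZFSet.{0} => R (w 0) (Fin.tail w)) →
    ∀ v, (∀ i, v i ∈ X) → (∃ y ∈ M, R y v) → ∃ y ∈ X, R y v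

theorem WO.tv_hul (hW : WO M lt) (hM : Full c M) {a : ZFSet.{0}} (ha : a ∈ M) :
    TV M (Hul M a) := by
  refine ⟨fun x hx => hul_mem ha hx, fun n R hR v hv h => ?_⟩
  obtain ⟨h1, h2, -⟩ := hW.lst_spec (P := fun y => R y v) h
  exact ⟨_, hul_opN (hW.dfn_lst hM hR) hv, h2⟩

/-- The union of a directed family of hulls. -/
theorem tv_directed {I : Type*} [Nonempty I] {b : I → ZFSet.{0}}
    (htv : ∀ i, TV M (Hul M (b i)))
    (hdir : ∀ i j, ∃ k, b i ∈ Hul M (b k) ∧ b j ∈ Hul M (b k)) :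
    TV M {x | ∃ i, x ∈ Hul M (b i)} := by
  refine ⟨fun x ⟨i, hi⟩ => (htv i).1 hi, fun n R hR v hv h => ?_⟩
  have key : ∀ (n : ℕ) (v : Fin n → ZFSet.{0}), (∀ i, ∃ j, v i ∈ Hul M (b j)) →
      ∃ k, ∀ i, v i ∈ Hul M (b k) := by
    intro n
    induction n with
    | zero =>
      intro v _
      exact ⟨Classical.arbitrary I, fun i => i.elim0⟩
    | succ n ih =>
      intro v hv
      obtain ⟨k, hk⟩ := ih (fun i => v i.succ) fun i => hv i.succ
      obtain ⟨j, hj⟩ := hv 0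
      obtain ⟨l, h1, h2⟩ := hdir k j
      refine ⟨l, fun i => ?_⟩
      refine Fin.cases ?_ (fun i => ?_) i
      · exact hul_trans hj h2
      · exact hul_trans (hk i) h1
  obtain ⟨k, hk⟩ := key n v hv
  obtain ⟨y, hy, h1⟩ := (htv k).2 n R hR v hk h
  exact ⟨y, ⟨k, hy⟩, h1⟩

/-- Truth in `X` and in `M` agree. -/
theorem TV.sat {X : Set ZFSet.{0}} (hX : TV M X) : ∀ {n : ℕ} (φ : Fml Empty n)
    (v : Fin n → ZFSet.{0}), (∀ i, v i ∈ X) → (Sat X Empty.elim φ v ↔ Sat M Empty.elim φ v)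
  | _, .mem s t, v, hv => Iff.rfl
  | _, .eq s t, v, hv => Iff.rfl
  | _, .neg φ, v, hv => not_congr (TV.sat hX φ v hv)
  | _, .and φ ψ, v, hv => and_congr (TV.sat hX φ v hv) (TV.sat hX ψ v hv)
  | n, .ex φ, v, hv => by
    have hc : ∀ a ∈ X, ∀ k, (Fin.cons a v : Fin (n + 1) → ZFSet.{0}) k ∈ X := by
      intro a ha k
      refine Fin.cases ?_ (fun k => ?_) k
      · exact ha
      · exact hv k
    constructor
    · rintro ⟨a, ha, h⟩
      exact ⟨a, hX.1 ha, (TV.sat hX φ _ (hc a ha)).1 h⟩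
    · rintro ⟨a, ha, h⟩
      have h1 : Dfn ∅ M fun w : Fin (n + 1) → ZFSet.{0} =>
          Sat M Empty.elim φ (Fin.cons (w 0) (Fin.tail w)) := by
        rw [dfn_iff]
        refine ⟨φ, fun w _ => ?_⟩
        rw [Fin.cons_self_tail]
      obtain ⟨b, hb, h2⟩ := hX.2 n (fun a v => Sat M Empty.elim φ (Fin.cons a v)) h1 v hv
        ⟨a, ha, h⟩
      exact ⟨b, hb, (TV.sat hX φ _ (hc b hb)).2 h2⟩

/-- If two sets in `X` have the same elements in `X`, they are equal. -/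
theorem TV.ext {X : Set ZFSet.{0}} (hM : Full c M) (hX : TV M X) {x y : ZFSet.{0}} (hx : x ∈ X)
    (hy : y ∈ X) (h : ∀ z ∈ X, z ∈ x ↔ z ∈ y) : x = y := by
  by_contra hne
  obtain ⟨z, hz⟩ : ∃ z, ¬ (z ∈ x ↔ z ∈ y) := by
    by_contra h2
    push Not at h2
    exact hne (ZFSet.ext h2)
  have hd : Dfn ∅ M fun w : Fin 3 → ZFSet.{0} => ¬ (w 0 ∈ w 1 ↔ w 0 ∈ w 2) :=
    (Dfn.iff (Dfn.mem (DfnF.proj 0) (DfnF.proj 1)) (Dfn.mem (DfnF.proj 0) (DfnF.proj 2))).not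
  have hzM : z ∈ M := by
    by_cases h1 : z ∈ x
    · exact hM.trans (hX.1 hx) h1
    · by_cases h2 : z ∈ y
      · exact hM.trans (hX.1 hy) h2
      · exact absurd (iff_of_false h1 h2) hz
  obtain ⟨u, hu, h1⟩ := hX.2 2 (fun a v => ¬ (a ∈ v 0 ↔ a ∈ v 1)) hd ![x, y] (by
    intro i
    fin_cases i
    · exact hx
    · exact hy) ⟨z, hzM, hz⟩
  exact h1 (h u hu)

/-! ### Elements of the same type -/

/-- An element is not definable from another element of the same type. -/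
theorem WO.lemmaR (hW : WO M lt) (hM : Full c M) {a b : ZFSet.{0}} (ha : a ∈ M) (h : Tp M a b)
    (hb : b ∈ Hul M a) : a = b := by
  have hlt : ∀ {h k : ZFSet.{0} → ZFSet.{0}}, Op M h → Op M k →
      Dfn ∅ M fun v : Fin 1 → ZFSet.{0} => lt (h (v 0)) (k (v 0)) := fun hh hk =>
    Dfn.comp2 (Q := lt) hW.dfn hh hk
  have heq : ∀ {h k : ZFSet.{0} → ZFSet.{0}}, Op M h → Op M k →
      Dfn ∅ M fun v : Fin 1 → ZFSet.{0} => h (v 0) = k (v 0) := fun hh hk => Dfn.eq hh hk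
  by_contra hne
  obtain ⟨h0, hh0, rfl⟩ := hb
  obtain ⟨a, ha, ⟨h, hh, ht, hna⟩, hmin⟩ := hW.wf
    (fun x => ∃ h, Op M h ∧ Tp M x (h x) ∧ h x ≠ x) ⟨a, ha, h0, hh0, h, fun h => hne h.symm⟩
  have hbM : h a ∈ M := hh.mem ha
  -- the least element with the same value
  set f : ZFSet.{0} → ZFSet.{0} := fun x => lst M lt fun y => h y = h x with hf
  have hfo : Op M f := by
    have h1 : Dfn ∅ M fun w : Fin 2 → ZFSet.{0} => h (w 0) = h (w 1) :=
      Dfn.eq (DfnF.comp1 (f := h) hh (DfnF.proj 0)) (DfnF.comp1 (f := h) hh (DfnF.proj 1))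
    exact hW.dfn_lst hM (Q := fun y v => h y = h (v 0)) h1
  have hfs : ∀ x ∈ M, f x ∈ M ∧ h (f x) = h x ∧ ∀ y ∈ M, h y = h x → ¬ lt y (f x) := by
    intro x hx
    exact hW.lst_spec (P := fun y => h y = h x) ⟨x, hx, rfl⟩
  obtain ⟨h1, h2, h3⟩ := hfs a ha
  obtain ⟨h4, h5, h6⟩ := hfs (h a) hbM
  rcases hW.tri _ h1 a ha with h7 | h7 | h7
  · -- the least element is smaller
    by_cases h8 : f a = f (h a)
    · have h9 : h (h a) = h a := by rw [← h5, ← h8, h2]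
      have h10 := (ht (fun x => h x = x) (heq hh Op.id)).2 h9
      exact hna h10
    · refine hmin (f a) h1 ⟨fun x => f (h x), hfo.comp hh, ?_, ?_⟩ h7
      · change Tp M (f a) (f (h (f a)))
        rw [h2]
        exact ht.op hfo
      · change f (h (f a)) ≠ f a
        rw [h2]
        exact fun h9 => h8 h9.symm
  · -- the element is definable from its image
    set g : ZFSet.{0} → ZFSet.{0} := fun y => lst M lt fun x => h x = y with hg
    have hgo : Op M g := by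
      have h1 : Dfn ∅ M fun w : Fin 2 → ZFSet.{0} => h (w 0) = w 1 :=
        Dfn.eq (DfnF.comp1 (f := h) hh (DfnF.proj 0)) (DfnF.proj 1)
      exact hW.dfn_lst hM (Q := fun y v => h y = v 0) h1
    have hga : g (h a) = a := h7
    rcases hW.tri _ hbM a ha with h8 | h8 | h8
    · -- the image is smaller
      have h9 : Tp M (h a) (h (h a)) := ht.op hh
      have h10 : h (h a) ≠ h a := fun h10 =>
        hna ((ht (fun x => h x = x) (heq hh Op.id)).2 h10)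
      exact hmin _ hbM ⟨h, hh, h9, h10⟩ h8
    · exact hna h8
    · -- the preimage is smaller
      have h9 : lt (g a) a := (ht (fun x => lt (g x) x) (hlt hgo Op.id)).2 (by rwa [hga])
      have h10 : Tp M (g a) a := by
        have := ht.op hgo
        rwa [hga] at this
      refine hmin (g a) (hgo.mem ha) ⟨g, hgo, (h10.op hgo).symm, ?_⟩ h9
      intro h11
      have h12 : g a = a := (h10 (fun x => g x = x) (heq hgo Op.id)).1 h11
      rw [h12] at h9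
      exact hW.asymm ha ha h9 h9
  · exact h3 a ha rfl h7

end

end Pool.Agent.R587
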