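import Pool.Agent.R587.Base

/-!
# Graphs of partial recursive functions are definable without parameters

The class `M` is transitive, closed under pairs and unions, contains `ω` and all relations on `ω`.
-/

set_option autoImplicit false
set_option linter.unreachableTactic false
set_option linter.unusedTactic false

namespace Pool.Agent.R587

open Pool.Agent.W868
open ZFSet (pair)

/-- The graph of a partial function on the natural numbers, as a set of pairs. -/
noncomputable def gph (f : ℕ →. ℕ) : ZFSet.{0} :=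
  ZFSet.sep (fun p => ∃ a b : ℕ, b ∈ f a ∧ p = ZFSet.pair (nat a) (nat b))
    (ZFSet.prod ZFSet.omega ZFSet.omega)

theorem nat_mem_omega (n : ℕ) : nat n ∈ ZFSet.omega := mem_omega_iff.2 ⟨n, rfl⟩

theorem gph_sub (f : ℕ →. ℕ) : gph f ⊆ ZFSet.prod ZFSet.omega ZFSet.omega :=
  fun _ hz => (ZFSet.mem_sep.1 hz).1

theorem mem_gph {f : ℕ →. ℕ} {x y : ZFSet.{0}} :
    pair x y ∈ gph f ↔ ∃ a b : ℕ, b ∈ f a ∧ x = nat a ∧ y = nat b := by
  rw [gph, ZFSet.mem_sep, ZFSet.pair_mem_prod]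
  constructor
  · rintro ⟨-, a, b, h, h'⟩
    obtain ⟨h1, h2⟩ := ZFSet.pair_inj.1 h'
    exact ⟨a, b, h, h1, h2⟩
  · rintro ⟨a, b, h, rfl, rfl⟩
    exact ⟨⟨nat_mem_omega a, nat_mem_omega b⟩, a, b, h, rfl⟩

theorem nat_pair_mem_gph {f : ℕ →. ℕ} {a b : ℕ} : pair (nat a) (nat b) ∈ gph f ↔ b ∈ f a := by
  rw [mem_gph]
  constructor
  · rintro ⟨a', b', h, h1, h2⟩
    rw [nat_injective h1, nat_injective h2]
    exact h
  · intro h
    exact ⟨a, b, h, rfl, rfl⟩

theorem mem_nat_iff {n : ℕ} {x : ZFSet.{0}} : x ∈ nat n ↔ ∃ m, m < n ∧ x = nat m := by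
  induction n with
  | zero => simp [nat, ZFSet.notMem_empty]
  | succ n ih =>
    rw [nat, ZFSet.mem_insert_iff, ih]
    constructor
    · rintro (rfl | ⟨m, hm, rfl⟩)
      · exact ⟨n, by omega, rfl⟩
      · exact ⟨m, by omega, rfl⟩
    · rintro ⟨m, hm, rfl⟩
      rcases Nat.lt_succ_iff_lt_or_eq.1 hm with h | rfl
      · exact Or.inr ⟨m, h, rfl⟩
      · exact Or.inl rfl

theorem nat_mem_nat_iff {m n : ℕ} : nat m ∈ nat n ↔ m < n := by
  rw [mem_nat_iff]
  constructor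
  · rintro ⟨k, hk, h⟩
    rwa [nat_injective h]
  · intro h
    exact ⟨m, h, rfl⟩

theorem insert_nat (n : ℕ) : insert (nat n) (nat n) = nat (n + 1) := rfl

theorem nat_zero' : nat 0 = ∅ := rfl

/-- The successor of a pair in the enumeration of the pairs of natural numbers. -/
def nxt (p : ℕ × ℕ) : ℕ × ℕ :=
  if p.1 + 1 < p.2 then (p.1 + 1, p.2) else if p.1 + 1 = p.2 then (p.2, 0)
  else if p.2 < p.1 then (p.1, p.2 + 1) else (0, p.1 + 1)

theorem pair_nxt (a b : ℕ) : Nat.pair (nxt (a, b)).1 (nxt (a, b)).2 = Nat.pair a b + 1 := by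
  unfold nxt
  dsimp only
  split_ifs with h1 h2 h3
  · simp only [Nat.pair]
    rw [if_pos h1, if_pos (by omega)]
    ring
  · simp only [Nat.pair]
    rw [if_neg (by omega), if_pos (by omega)]
    subst h2
    ring
  · simp only [Nat.pair]
    rw [if_neg (by omega), if_neg (by omega)]
    ring
  · simp only [Nat.pair]
    have h4 : a = b := by omega
    subst h4
    rw [if_pos (by omega), if_neg (by omega)]
    ring

theorem unpair_succ (n : ℕ) : Nat.unpair (n + 1) = nxt (Nat.unpair n) := by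
  have h := pair_nxt (Nat.unpair n).1 (Nat.unpair n).2
  rw [Nat.pair_unpair] at h
  rw [← h, Nat.unpair_pair]

theorem mem_seq_pair {x y : Part ℕ} {b : ℕ} :
    b ∈ (Nat.pair <$> x <*> y) ↔ ∃ c ∈ x, ∃ d ∈ y, Nat.pair c d = b := by
  constructor
  · intro h
    obtain ⟨f, hf, h1⟩ := Part.mem_bind_iff.1 h
    obtain ⟨c, hc, rfl⟩ := (Part.mem_map_iff _).1 hf
    obtain ⟨d, hd, h2⟩ := (Part.mem_map_iff _).1 h1
    exact ⟨c, hc, d, hd, h2⟩
  · rintro ⟨c, hc, d, hd, h⟩
    exact Part.mem_bind_iff.2 ⟨_, (Part.mem_map_iff _).2 ⟨c, hc, rfl⟩,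
      (Part.mem_map_iff _).2 ⟨d, hd, h⟩⟩

theorem mem_rfind_zero {F : ℕ → Part ℕ} {b : ℕ} :
    b ∈ Nat.rfind (fun n => (fun m => decide (m = 0)) <$> F n) ↔
      0 ∈ F b ∧ ∀ m < b, ∃ k, k ≠ 0 ∧ k ∈ F m := by
  refine Nat.mem_rfind.trans ?_
  constructor
  · rintro ⟨h1, h2⟩
    obtain ⟨c, hc, h3⟩ := (Part.mem_map_iff _).1 h1
    refine ⟨?_, fun m hm => ?_⟩
    · simp only [decide_eq_true_eq] at h3
      exact h3 ▸ hc
    · obtain ⟨d, hd, h4⟩ := (Part.mem_map_iff _).1 (h2 hm)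
      simp only [decide_eq_false_iff_not] at h4
      exact ⟨d, h4, hd⟩
  · rintro ⟨h1, h2⟩
    refine ⟨(Part.mem_map_iff _).2 ⟨0, h1, by simp⟩, fun {m} hm => ?_⟩
    obtain ⟨k, hk, h3⟩ := h2 m hm
    exact (Part.mem_map_iff _).2 ⟨k, h3, by simp [hk]⟩

/-! ### Constants that are definable without parameters -/

section

variable {M : Set ZFSet.{0}} {c : ZFSet.{0}}

/-- The set `c` is in `M` and definable without parameters. -/
def KD (M : Set ZFSet.{0}) (c : ZFSet.{0}) : Prop :=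
  ∀ n : ℕ, DfnF ∅ M fun _ : Fin n → ZFSet.{0} => c

theorem KD.mk (hc : c ∈ M) (h : Dfn ∅ M fun v : Fin 1 → ZFSet.{0} => v 0 = c) : KD M c :=
  fun _ => ⟨fun _ _ => hc, h.comp (fun _ => 0)⟩

theorem KD.dfn (h : KD M c) : Dfn ∅ M fun v : Fin 1 → ZFSet.{0} => v 0 = c := (h 0).2

variable (hB : IsBase M)

include hB

theorem kd_empty (hω : ZFSet.omega ∈ M) : KD M ∅ := by
  refine KD.mk (hB.trans _ hω _ ZFSet.omega_zero) ?_
  have h : Dfn ∅ M fun w : Fin 1 → ZFSet.{0} => ∀ a ∈ w 0, False := by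
    (repeat' first
      | exact DfnF.proj _
      | exact Dfn.prop _
      | apply hB.ball)
  exact h.congr fun v _ => by
    rw [ZFSet.eq_empty]

theorem kd_omega (hω : ZFSet.omega ∈ M) : KD M ZFSet.omega := by
  have h0 := kd_empty hB hω
  refine KD.mk hω ?_
  have h : Dfn ∅ M fun w : Fin 1 → ZFSet.{0} => ∅ ∈ w 0 ∧
      (∀ x ∈ w 0, insert x x ∈ w 0) ∧ ∀ y ∈ w 0, y = ∅ ∨ ∃ z ∈ w 0, y = insert z z := by
    (repeat' first
      | exact DfnF.proj _
      | exact h0 _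
      | exact Dfn.prop _
      | apply Dfn.and | apply Dfn.or
      | apply hB.bex | apply hB.ball
      | apply Dfn.eq | apply Dfn.mem | apply hB.insert')
  refine h.congr fun v _ => ?_
  constructor
  · rintro ⟨h1, h2, h3⟩
    ext z
    rw [mem_omega_iff]
    constructor
    · induction z using ZFSet.inductionOn with
      | _ z ih =>
        intro hz
        rcases h3 z hz with rfl | ⟨y, hy, rfl⟩
        · exact ⟨0, rfl⟩
        · obtain ⟨n, rfl⟩ := ih y (ZFSet.mem_insert y y) hy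
          exact ⟨n + 1, rfl⟩
    · rintro ⟨n, rfl⟩
      induction n with
      | zero => exact h1
      | succ n ih => exact h2 _ ih
  · intro h1
    rw [h1]
    refine ⟨ZFSet.omega_zero, fun x hx => ZFSet.omega_succ hx, fun y hy => ?_⟩
    obtain ⟨n, rfl⟩ := mem_omega_iff.1 hy
    cases n with
    | zero => exact Or.inl rfl
    | succ n => exact Or.inr ⟨nat n, nat_mem_omega n, rfl⟩

omit hB in
/-- The graph of a partial function is definable if the function is. -/
theorem kd_of_rel (hB : IsBase M) (hω : ZFSet.omega ∈ M)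
    (hs : ∀ x : ZFSet.{0}, x ⊆ ZFSet.prod ZFSet.omega ZFSet.omega → x ∈ M) {f : ℕ →. ℕ}
    {Q : ZFSet.{0} → ZFSet.{0} → Prop} (hQ : Dfn ∅ M fun w : Fin 2 → ZFSet.{0} => Q (w 0) (w 1))
    (h : ∀ a b : ℕ, Q (nat a) (nat b) ↔ b ∈ f a) : KD M (gph f) := by
  have h0 := kd_omega hB hω
  have hg : gph f ⊆ ZFSet.prod ZFSet.omega ZFSet.omega := fun z hz => (ZFSet.mem_sep.1 hz).1
  refine KD.mk (hs _ hg) ?_
  have h1 : Dfn ∅ M fun w : Fin 1 → ZFSet.{0} =>
      (∀ p ∈ w 0, ∃ a ∈ ZFSet.omega, ∃ b ∈ ZFSet.omega, p = pair a b ∧ Q a b) ∧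
      ∀ a ∈ ZFSet.omega, ∀ b ∈ ZFSet.omega, Q a b → pair a b ∈ w 0 := by
    (repeat' first
      | exact DfnF.proj _
      | exact h0 _
      | exact Dfn.prop _
      | exact Dfn.comp2 (Q := Q) hQ (DfnF.proj _) (DfnF.proj _)
      | exact Dfn.comp2 (Q := Q) hQ (DfnF.proj 1) (DfnF.proj 0)
      | apply Dfn.and | apply Dfn.or | apply Dfn.imp
      | apply hB.bex | apply hB.ball
      | apply Dfn.eq | apply Dfn.mem | apply hB.pair' | apply hB.insert')
  refine h1.congr fun v _ => ?_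
  constructor
  · rintro ⟨h2, h3⟩
    ext z
    constructor
    · intro hz
      obtain ⟨a, ha, b, hb, rfl, h4⟩ := h2 z hz
      obtain ⟨m, rfl⟩ := mem_omega_iff.1 ha
      obtain ⟨n, rfl⟩ := mem_omega_iff.1 hb
      exact nat_pair_mem_gph.2 ((h m n).1 h4)
    · intro hz
      obtain ⟨a, ha, b, hb, rfl⟩ := ZFSet.mem_prod.1 (hg hz)
      obtain ⟨m, rfl⟩ := mem_omega_iff.1 ha
      obtain ⟨n, rfl⟩ := mem_omega_iff.1 hb
      exact h3 _ ha _ hb ((h m n).2 (nat_pair_mem_gph.1 hz))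
  · intro h2
    rw [h2]
    constructor
    · intro p hp
      obtain ⟨a, ha, b, hb, rfl⟩ := ZFSet.mem_prod.1 (hg hp)
      obtain ⟨m, rfl⟩ := mem_omega_iff.1 ha
      obtain ⟨n, rfl⟩ := mem_omega_iff.1 hb
      exact ⟨_, ha, _, hb, rfl, (h m n).2 (nat_pair_mem_gph.1 hp)⟩
    · intro a ha b hb h4
      obtain ⟨m, rfl⟩ := mem_omega_iff.1 ha
      obtain ⟨n, rfl⟩ := mem_omega_iff.1 hb
      exact nat_pair_mem_gph.2 ((h m n).1 h4)

/-- The left component of the enumeration. -/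
noncomputable def gL : ZFSet.{0} := gph ↑fun n : ℕ => n.unpair.1

/-- The right component of the enumeration. -/
noncomputable def gR : ZFSet.{0} := gph ↑fun n : ℕ => n.unpair.2

/-- The successor relation for pairs. -/
def Nx (a b a' b' : ZFSet.{0}) : Prop :=
  (insert a a ∈ b ∧ a' = insert a a ∧ b' = b) ∨ (insert a a = b ∧ a' = b ∧ b' = ∅) ∨
    (b ∈ a ∧ a' = a ∧ b' = insert b b) ∨ (a = b ∧ a' = ∅ ∧ b' = insert a a)

omit hB in
theorem nx_iff {a b a' b' : ℕ} : Nx (nat a) (nat b) (nat a') (nat b') ↔ (a', b') = nxt (a, b) := by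
  unfold Nx nxt
  simp only [insert_nat, ← nat_zero', nat_mem_nat_iff, nat_injective.eq_iff]
  split_ifs with h1 h2 h3 <;> simp only [Prod.mk.injEq] <;> omega

/-- The pair `(x, y)` has the number `z`, by a computation. -/
def PQ (M : Set ZFSet.{0}) (x y z : ZFSet.{0}) : Prop :=
  ∃ s ∈ M, ∃ t ∈ M, pair z x ∈ s ∧ pair z y ∈ t ∧
    ∀ n ∈ ZFSet.omega, ∀ a ∈ ZFSet.omega, ∀ b ∈ ZFSet.omega, pair n a ∈ s → pair n b ∈ t →
      (n = ∅ ∧ a = ∅ ∧ b = ∅) ∨ ∃ n' ∈ ZFSet.omega, ∃ a' ∈ ZFSet.omega, ∃ b' ∈ ZFSet.omega,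
        n = insert n' n' ∧ pair n' a' ∈ s ∧ pair n' b' ∈ t ∧ Nx a' b' a b

theorem dfn_nx (hω : ZFSet.omega ∈ M) :
    Dfn ∅ M fun w : Fin 4 → ZFSet.{0} => Nx (w 0) (w 1) (w 2) (w 3) := by
  have h0 := kd_empty hB hω
  unfold Nx
  (repeat' first
      | exact DfnF.proj _
      | exact h0 _
      | exact Dfn.prop _
      | apply Dfn.and | apply Dfn.or | apply Dfn.imp
      | apply hB.bex | apply hB.ball
      | apply Dfn.eq | apply Dfn.mem | apply hB.pair' | apply hB.insert')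

theorem dfn_pq (hω : ZFSet.omega ∈ M) :
    Dfn ∅ M fun w : Fin 3 → ZFSet.{0} => PQ M (w 0) (w 1) (w 2) := by
  have h0 := kd_empty hB hω
  have h1 := kd_omega hB hω
  have h2 := dfn_nx hB hω
  unfold PQ
  (repeat' first
      | exact DfnF.proj _
      | exact h0 _
      | exact h1 _
      | exact Dfn.prop _
      | exact Dfn.comp4 (Q := Nx) h2 (DfnF.proj 1) (DfnF.proj 0) (DfnF.proj 4) (DfnF.proj 3)
      | apply Dfn.and | apply Dfn.or | apply Dfn.imp
      | apply hB.bex | apply hB.ball | apply Dfn.ex | apply Dfn.all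
      | apply Dfn.eq | apply Dfn.mem | apply hB.pair' | apply hB.insert')

omit hB in
theorem pq_iff (hs : ∀ x : ZFSet.{0}, x ⊆ ZFSet.prod ZFSet.omega ZFSet.omega → x ∈ M)
    {a b n : ℕ} : PQ M (nat a) (nat b) (nat n) ↔ n.unpair = (a, b) := by
  constructor
  · rintro ⟨s, -, t, -, h1, h2, h3⟩
    induction n generalizing a b with
    | zero =>
      rcases h3 _ (nat_mem_omega _) _ (nat_mem_omega _) _ (nat_mem_omega _) h1 h2 with
        ⟨-, h4, h5⟩ | ⟨n', -, a', -, b', -, h4, -⟩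
      · rw [← nat_zero'] at h4 h5
        rw [nat_injective h4, nat_injective h5]
        rfl
      · exfalso
        have h5 : n' ∈ nat 0 := by
          rw [h4]
          exact ZFSet.mem_insert n' n'
        exact ZFSet.notMem_empty _ h5
    | succ n ih =>
      rcases h3 _ (nat_mem_omega _) _ (nat_mem_omega _) _ (nat_mem_omega _) h1 h2 with
        ⟨h4, -⟩ | ⟨n', hn, a', ha, b', hb, h4, h5, h6, h7⟩
      · rw [← nat_zero'] at h4
        exact absurd (nat_injective h4) (by omega)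
      · obtain ⟨n', rfl⟩ := mem_omega_iff.1 hn
        obtain ⟨a', rfl⟩ := mem_omega_iff.1 ha
        obtain ⟨b', rfl⟩ := mem_omega_iff.1 hb
        rw [insert_nat] at h4
        have h8 : n = n' := by
          have := nat_injective h4
          omega
        subst h8
        rw [unpair_succ, ih h5 h6]
        exact (nx_iff.1 h7).symm
  · intro h
    refine ⟨gL, hs _ (gph_sub _), gR, hs _ (gph_sub _), ?_, ?_, ?_⟩
    · rw [gL, nat_pair_mem_gph]
      simp [h]
    · rw [gR, nat_pair_mem_gph]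
      simp [h]
    · intro m hm c hc d hd h1 h2
      obtain ⟨m, rfl⟩ := mem_omega_iff.1 hm
      obtain ⟨c, rfl⟩ := mem_omega_iff.1 hc
      obtain ⟨d, rfl⟩ := mem_omega_iff.1 hd
      rw [gL, nat_pair_mem_gph] at h1
      rw [gR, nat_pair_mem_gph] at h2
      simp only [PFun.coe_val, Part.mem_some_iff] at h1 h2
      subst h1 h2
      cases m with
      | zero => exact Or.inl ⟨rfl, rfl, rfl⟩
      | succ m =>
        refine Or.inr ⟨nat m, nat_mem_omega _, nat m.unpair.1, nat_mem_omega _,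
          nat m.unpair.2, nat_mem_omega _, rfl, ?_, ?_, ?_⟩
        · rw [gL, nat_pair_mem_gph]
          simp
        · rw [gR, nat_pair_mem_gph]
          simp
        · rw [nx_iff, unpair_succ]

theorem kd_gL (hω : ZFSet.omega ∈ M)
    (hs : ∀ x : ZFSet.{0}, x ⊆ ZFSet.prod ZFSet.omega ZFSet.omega → x ∈ M) : KD M gL := by
  have h1 := kd_omega hB hω
  have h2 := dfn_pq hB hω
  refine kd_of_rel hB hω hs (Q := fun a b => ∃ c ∈ ZFSet.omega, PQ M b c a) ?_ ?_
  · apply hB.bex (h1 _)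
    exact Dfn.comp3 (Q := PQ M) h2 (DfnF.proj 2) (DfnF.proj 0) (DfnF.proj 1)
  · intro a b
    simp only [PFun.coe_val, Part.mem_some_iff]
    constructor
    · rintro ⟨c, hc, h⟩
      obtain ⟨c, rfl⟩ := mem_omega_iff.1 hc
      rw [pq_iff hs] at h
      simp [h]
    · rintro rfl
      refine ⟨nat a.unpair.2, nat_mem_omega _, ?_⟩
      rw [pq_iff hs]

theorem kd_gR (hω : ZFSet.omega ∈ M)
    (hs : ∀ x : ZFSet.{0}, x ⊆ ZFSet.prod ZFSet.omega ZFSet.omega → x ∈ M) : KD M gR := by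
  have h1 := kd_omega hB hω
  have h2 := dfn_pq hB hω
  refine kd_of_rel hB hω hs (Q := fun a b => ∃ c ∈ ZFSet.omega, PQ M c b a) ?_ ?_
  · apply hB.bex (h1 _)
    exact Dfn.comp3 (Q := PQ M) h2 (DfnF.proj 0) (DfnF.proj 2) (DfnF.proj 1)
  · intro a b
    simp only [PFun.coe_val, Part.mem_some_iff]
    constructor
    · rintro ⟨c, hc, h⟩
      obtain ⟨c, rfl⟩ := mem_omega_iff.1 hc
      rw [pq_iff hs] at h
      simp [h]
    · rintro rfl
      refine ⟨nat a.unpair.1, nat_mem_omega _, ?_⟩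
      rw [pq_iff hs]

omit hB in
theorem mem_gL {x y : ZFSet.{0}} : pair x y ∈ gL ↔ ∃ n : ℕ, x = nat n ∧ y = nat n.unpair.1 := by
  rw [gL, mem_gph]
  simp only [PFun.coe_val, Part.mem_some_iff]
  constructor
  · rintro ⟨a, b, rfl, h1, h2⟩
    exact ⟨a, h1, h2⟩
  · rintro ⟨n, h1, h2⟩
    exact ⟨n, _, rfl, h1, h2⟩

omit hB in
theorem mem_gR {x y : ZFSet.{0}} : pair x y ∈ gR ↔ ∃ n : ℕ, x = nat n ∧ y = nat n.unpair.2 := by
  rw [gR, mem_gph]
  simp only [PFun.coe_val, Part.mem_some_iff]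
  constructor
  · rintro ⟨a, b, rfl, h1, h2⟩
    exact ⟨a, h1, h2⟩
  · rintro ⟨n, h1, h2⟩
    exact ⟨n, _, rfl, h1, h2⟩

/-- The number `z` codes the pair `(x, y)`. -/
def PR (x y z : ZFSet.{0}) : Prop := pair z x ∈ gL ∧ pair z y ∈ gR

omit hB in
theorem pr_iff {x y z : ZFSet.{0}} : PR x y z ↔ ∃ a b : ℕ, x = nat a ∧ y = nat b ∧
    z = nat (Nat.pair a b) := by
  unfold PR
  rw [mem_gL, mem_gR]
  constructor
  · rintro ⟨⟨n, rfl, rfl⟩, m, h, rfl⟩
    have h1 := nat_injective h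
    subst h1
    exact ⟨_, _, rfl, rfl, by rw [Nat.pair_unpair]⟩
  · rintro ⟨a, b, rfl, rfl, rfl⟩
    exact ⟨⟨_, rfl, by simp⟩, _, rfl, by simp⟩

omit hB in
theorem pr_nat {a b : ℕ} {z : ZFSet.{0}} : PR (nat a) (nat b) z ↔ z = nat (Nat.pair a b) := by
  rw [pr_iff]
  constructor
  · rintro ⟨a', b', h1, h2, rfl⟩
    rw [nat_injective h1, nat_injective h2]
  · intro h
    exact ⟨a, b, rfl, rfl, h⟩

omit hB in
theorem mem_gph_left {f : ℕ →. ℕ} {a : ℕ} {y : ZFSet.{0}} :
    pair (nat a) y ∈ gph f ↔ ∃ b : ℕ, b ∈ f a ∧ y = nat b := by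
  rw [mem_gph]
  constructor
  · rintro ⟨a', b, h, h1, h2⟩
    rw [nat_injective h1]
    exact ⟨b, h, h2⟩
  · rintro ⟨b, h, h2⟩
    exact ⟨a, b, h, rfl, h2⟩

/-- The clause for primitive recursion. -/
def PC (f g : ℕ →. ℕ) (c t i j : ZFSet.{0}) : Prop :=
  (i = ∅ ∧ pair c j ∈ gph f) ∨ ∃ i' ∈ ZFSet.omega, ∃ j' ∈ ZFSet.omega, i = insert i' i' ∧
    pair i' j' ∈ t ∧ ∃ u ∈ ZFSet.omega, ∃ w ∈ ZFSet.omega, PR i' j' u ∧ PR c u w ∧
      pair w j ∈ gph g

/-- Primitive recursion. -/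
def PP (M : Set ZFSet.{0}) (f g : ℕ →. ℕ) (a b : ZFSet.{0}) : Prop :=
  ∃ c ∈ ZFSet.omega, ∃ d ∈ ZFSet.omega, PR c d a ∧ ∃ t ∈ M, pair d b ∈ t ∧
    ∀ i ∈ ZFSet.omega, ∀ j ∈ ZFSet.omega, pair i j ∈ t → PC f g c t i j

/-- The values of a function that is defined by primitive recursion. -/
def rv (f g : ℕ →. ℕ) (c : ℕ) : ℕ →. ℕ := fun n =>
  n.rec (f c) fun y IH => do
    let i ← IH
    g (Nat.pair c (Nat.pair y i))

omit hB in
theorem pp_iff (hs : ∀ x : ZFSet.{0}, x ⊆ ZFSet.prod ZFSet.omega ZFSet.omega → x ∈ M)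
    {f g : ℕ →. ℕ} {a b : ℕ} : PP M f g (nat a) (nat b) ↔ b ∈ rv f g a.unpair.1 a.unpair.2 := by
  constructor
  · rintro ⟨c, hc, d, hd, h1, t, -, h2, h3⟩
    obtain ⟨c, rfl⟩ := mem_omega_iff.1 hc
    obtain ⟨d, rfl⟩ := mem_omega_iff.1 hd
    rw [pr_nat] at h1
    have h4 := nat_injective h1
    subst h4
    rw [Nat.unpair_pair]
    dsimp only
    clear h1 hc hd
    induction d generalizing b with
    | zero =>
      rcases h3 _ (nat_mem_omega _) _ (nat_mem_omega _) h2 with ⟨-, h4⟩ | ⟨i, -, j, -, h4, -⟩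
      · have h5 : b ∈ f c := nat_pair_mem_gph.1 h4
        exact h5
      · exfalso
        have h5 : i ∈ nat 0 := by
          rw [h4]
          exact ZFSet.mem_insert i i
        exact ZFSet.notMem_empty _ h5
    | succ d ih =>
      rcases h3 _ (nat_mem_omega _) _ (nat_mem_omega _) h2 with ⟨h4, -⟩ |
        ⟨i, hi, j, hj, h4, h5, u, hu, w, hw, h6, h7, h8⟩
      · rw [← nat_zero'] at h4
        exact absurd (nat_injective h4) (by omega)
      · obtain ⟨i, rfl⟩ := mem_omega_iff.1 hi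
        obtain ⟨j, rfl⟩ := mem_omega_iff.1 hj
        rw [insert_nat] at h4
        have h9 : d = i := by
          have := nat_injective h4
          omega
        subst h9
        rw [pr_nat] at h6
        subst h6
        rw [pr_nat] at h7
        subst h7
        rw [nat_pair_mem_gph] at h8
        exact Part.mem_bind_iff.2 ⟨j, ih h5, h8⟩
  · intro h
    refine ⟨nat a.unpair.1, nat_mem_omega _, nat a.unpair.2, nat_mem_omega _, ?_,
      gph (rv f g a.unpair.1), hs _ (gph_sub _), nat_pair_mem_gph.2 h, ?_⟩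
    · rw [pr_nat, Nat.pair_unpair]
    · intro i hi j hj h1
      obtain ⟨i, rfl⟩ := mem_omega_iff.1 hi
      obtain ⟨j, rfl⟩ := mem_omega_iff.1 hj
      rw [nat_pair_mem_gph] at h1
      cases i with
      | zero => exact Or.inl ⟨rfl, nat_pair_mem_gph.2 h1⟩
      | succ i =>
        obtain ⟨k, hk, h2⟩ := Part.mem_bind_iff.1 h1
        exact Or.inr ⟨nat i, nat_mem_omega _, nat k, nat_mem_omega _, rfl,
          nat_pair_mem_gph.2 hk, nat (Nat.pair i k), nat_mem_omega _,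
          nat (Nat.pair a.unpair.1 (Nat.pair i k)), nat_mem_omega _, pr_nat.2 rfl, pr_nat.2 rfl,
          nat_pair_mem_gph.2 h2⟩

theorem kd_gph_all (hω : ZFSet.omega ∈ M)
    (hs : ∀ x : ZFSet.{0}, x ⊆ ZFSet.prod ZFSet.omega ZFSet.omega → x ∈ M) {f : ℕ →. ℕ}
    (hf : Nat.Partrec f) : KD M (gph f) := by
  have k0 := kd_empty hB hω
  have k1 := kd_omega hB hω
  have kL := kd_gL hB hω hs
  have kR := kd_gR hB hω hs
  have kP : Dfn ∅ M fun w : Fin 3 → ZFSet.{0} => PR (w 0) (w 1) (w 2) := by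
    unfold PR
    (repeat' first
      | exact DfnF.proj _
      | exact kL _
      | exact kR _
      | apply Dfn.and
      | apply Dfn.mem | apply hB.pair')
  induction hf with
  | zero =>
    refine kd_of_rel hB hω hs (Q := fun a b => b = ∅) ?_ ?_
    · exact Dfn.eq (DfnF.proj _) (k0 _)
    · intro a b
      rw [← nat_zero', nat_injective.eq_iff]
      exact Part.mem_some_iff.symm
  | succ =>
    refine kd_of_rel hB hω hs (Q := fun a b => b = insert a a) ?_ ?_
    · exact Dfn.eq (DfnF.proj _) (hB.insert' (DfnF.proj _) (DfnF.proj _))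
    · intro a b
      rw [insert_nat, nat_injective.eq_iff]
      exact Part.mem_some_iff.symm
  | left => exact kL
  | right => exact kR
  | @pair f g hf hg ihf ihg =>
    refine kd_of_rel hB hω hs (Q := fun a b => ∃ c ∈ ZFSet.omega, ∃ d ∈ ZFSet.omega,
      pair a c ∈ gph f ∧ pair a d ∈ gph g ∧ PR c d b) ?_ ?_
    · (repeat' first
      | exact DfnF.proj _
      | exact k1 _
      | exact ihf _
      | exact ihg _
      | exact Dfn.comp3 (Q := PR) kP (DfnF.proj 1) (DfnF.proj 0) (DfnF.proj 3)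
      | apply Dfn.and
      | apply hB.bex
      | apply Dfn.mem | apply hB.pair')
    · intro a b
      refine Iff.trans ?_ (mem_seq_pair (x := f a) (y := g a) (b := b)).symm
      constructor
      · rintro ⟨c, hc, d, hd, h1, h2, h3⟩
        obtain ⟨c, rfl⟩ := mem_omega_iff.1 hc
        obtain ⟨d, rfl⟩ := mem_omega_iff.1 hd
        rw [nat_pair_mem_gph] at h1 h2
        rw [pr_nat, nat_injective.eq_iff] at h3
        exact ⟨c, h1, d, h2, h3.symm⟩
      · rintro ⟨c, h1, d, h2, rfl⟩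
        exact ⟨nat c, nat_mem_omega _, nat d, nat_mem_omega _, nat_pair_mem_gph.2 h1,
          nat_pair_mem_gph.2 h2, pr_nat.2 rfl⟩
  | @comp f g hf hg ihf ihg =>
    refine kd_of_rel hB hω hs (Q := fun a b => ∃ c ∈ ZFSet.omega,
      pair a c ∈ gph g ∧ pair c b ∈ gph f) ?_ ?_
    · (repeat' first
      | exact DfnF.proj _
      | exact k1 _
      | exact ihf _
      | exact ihg _
      | apply Dfn.and
      | apply hB.bex
      | apply Dfn.mem | apply hB.pair')
    · intro a b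
      refine Iff.trans ?_ (Part.mem_bind_iff (f := g a) (g := f) (b := b)).symm
      constructor
      · rintro ⟨c, hc, h1, h2⟩
        obtain ⟨c, rfl⟩ := mem_omega_iff.1 hc
        exact ⟨c, nat_pair_mem_gph.1 h1, nat_pair_mem_gph.1 h2⟩
      · rintro ⟨c, h1, h2⟩
        exact ⟨nat c, nat_mem_omega _, nat_pair_mem_gph.2 h1, nat_pair_mem_gph.2 h2⟩
  | @prec f g hf hg ihf ihg =>
    refine kd_of_rel hB hω hs (Q := PP M f g) ?_ fun a b => pp_iff hs
    unfold PP PC
    (repeat' first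
      | exact DfnF.proj _
      | exact k0 _
      | exact k1 _
      | exact ihf _
      | exact ihg _
      | exact Dfn.comp3 (Q := PR) kP (DfnF.proj _) (DfnF.proj _) (DfnF.proj _)
      | apply Dfn.and | apply Dfn.or | apply Dfn.imp
      | apply hB.bex | apply hB.ball | apply Dfn.ex | apply Dfn.all
      | apply Dfn.eq | apply Dfn.mem | apply hB.pair' | apply hB.insert')
  | @rfind f hf ihf =>
    refine kd_of_rel hB hω hs (Q := fun a b => (∃ u ∈ ZFSet.omega, PR a b u ∧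
      pair u ∅ ∈ gph f) ∧ ∀ m ∈ b, ∃ u ∈ ZFSet.omega, PR a m u ∧ ∃ k ∈ ZFSet.omega,
        k ≠ ∅ ∧ pair u k ∈ gph f) ?_ ?_
    · (repeat' first
      | exact DfnF.proj _
      | exact k0 _
      | exact k1 _
      | exact ihf _
      | exact Dfn.comp3 (Q := PR) kP (DfnF.proj 1) (DfnF.proj 2) (DfnF.proj 0)
      | exact Dfn.comp3 (Q := PR) kP (DfnF.proj 2) (DfnF.proj 1) (DfnF.proj 0)
      | apply Dfn.not | apply Dfn.and | apply Dfn.or | apply Dfn.imp
      | apply hB.bex | apply hB.ball | apply Dfn.ex | apply Dfn.all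
      | apply Dfn.eq | apply Dfn.mem | apply hB.pair' | apply hB.insert')
    · intro a b
      refine Iff.trans ?_ (mem_rfind_zero (F := fun n => f (Nat.pair a n)) (b := b)).symm
      constructor
      · rintro ⟨⟨u, hu, h1, h2⟩, h3⟩
        rw [pr_nat] at h1
        subst h1
        rw [← nat_zero'] at h2
        refine ⟨nat_pair_mem_gph.1 h2, fun m hm => ?_⟩
        obtain ⟨u, hu, h4, k, hk, h5, h6⟩ := h3 (nat m) (nat_mem_nat_iff.2 hm)
        obtain ⟨k, rfl⟩ := mem_omega_iff.1 hk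
        rw [pr_nat] at h4
        subst h4
        refine ⟨k, ?_, nat_pair_mem_gph.1 h6⟩
        rintro rfl
        exact h5 rfl
      · rintro ⟨h1, h2⟩
        refine ⟨⟨nat (Nat.pair a b), nat_mem_omega _, pr_nat.2 rfl, nat_pair_mem_gph.2 h1⟩, ?_⟩
        intro m hm
        obtain ⟨m, hm', rfl⟩ := mem_nat_iff.1 hm
        obtain ⟨k, hk, h3⟩ := h2 m hm'
        refine ⟨nat (Nat.pair a m), nat_mem_omega _, pr_nat.2 rfl, nat k, nat_mem_omega _, ?_,
          nat_pair_mem_gph.2 h3⟩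
        rw [← nat_zero']
        exact fun h => hk (nat_injective h)

/-- The graph of a partial recursive function is definable without parameters. -/
theorem kd_gph (hω : ZFSet.omega ∈ M)
    (hs : ∀ x : ZFSet.{0}, x ⊆ ZFSet.prod ZFSet.omega ZFSet.omega → x ∈ M) {f : ℕ →. ℕ}
    (hf : Nat.Partrec f) : Dfn ∅ M fun v : Fin 1 → ZFSet.{0} => v 0 = gph f :=
  (kd_gph_all hB hω hs hf).dfn

end

end Pool.Agent.R587
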