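import Pool.Agent.R587.Cal
import Pool.Agent.R587.Rec

/-!
# Truth in a set, inside a class of hereditarily small sets
-/

set_option autoImplicit false

namespace Pool.Agent.R587

open Pool.Agent.W868
open ZFSet (pair)
open Cardinal

theorem mem_gph' {f : ℕ →. ℕ} {p : ZFSet.{0}} :
    p ∈ gph f ↔ ∃ a b : ℕ, b ∈ f a ∧ p = pair (nat a) (nat b) := by
  rw [gph, ZFSet.mem_sep]
  refine and_iff_right_of_imp ?_
  rintro ⟨a, b, -, rfl⟩
  exact ZFSet.pair_mem_prod.2 ⟨mem_omega_iff.2 ⟨_, rfl⟩, mem_omega_iff.2 ⟨_, rfl⟩⟩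

theorem pair_mem_gph {f : ℕ →. ℕ} {a b : ℕ} : pair (nat a) (nat b) ∈ gph f ↔ b ∈ f a :=
  nat_pair_mem_gph

/-- The first projection of a number. -/
def pf1 : ℕ →. ℕ := fun n => Part.some n.unpair.1

/-- The second projection of a number. -/
def pf2 : ℕ →. ℕ := fun n => Part.some n.unpair.2

/-- The members of the lists. -/
def pfl : ℕ →. ℕ := fun m => ((ls m.unpair.1)[m.unpair.2]? : Option ℕ)

theorem partrec_pf1 : Nat.Partrec pf1 := Nat.Partrec.left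
theorem partrec_pf2 : Nat.Partrec pf2 := Nat.Partrec.right

theorem partrec_pfl : Nat.Partrec pfl := by
  rw [← Partrec.nat_iff]
  have h1 : Computable fun m : ℕ => (ls m.unpair.1)[m.unpair.2]? := by
    refine Computable.list_getElem?.comp ?_ ?_
    · exact (Computable.ofNat (List ℕ)).comp (Computable.fst.comp Computable.unpair)
    · exact Computable.snd.comp Computable.unpair
  exact h1.ofOption

/-- The projections, for sets. -/
noncomputable def A1 (x : ZFSet.{0}) : ZFSet.{0} := ap (gph pf1) x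

/-- The projections, for sets. -/
noncomputable def A2 (x : ZFSet.{0}) : ZFSet.{0} := ap (gph pf2) x

theorem ap_eq {g a b : ZFSet.{0}} (h : ∀ q ∈ g, fs q = a ↔ q = pair a b) (h' : pair a b ∈ g) :
    ap g a = b := by
  have h1 : im sn (ZFSet.sep (fun q => fs q = a) g) = {b} := by
    ext z
    rw [mem_im, ZFSet.mem_singleton]
    constructor
    · rintro ⟨p, hp, rfl⟩
      rw [ZFSet.mem_sep] at hp
      rw [(h p hp.1).1 hp.2, sn_pair]
    · rintro rfl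
      exact ⟨pair a z, ZFSet.mem_sep.2 ⟨h', by rw [fs_pair]⟩, by rw [sn_pair]⟩
  rw [ap, h1, ZFSet.sUnion_singleton]

theorem ap_gph {f : ℕ →. ℕ} {a b : ℕ} (h : b ∈ f a) : ap (gph f) (nat a) = nat b := by
  refine ap_eq (fun q hq => ?_) (pair_mem_gph.2 h)
  obtain ⟨a', b', h', rfl⟩ := mem_gph'.1 hq
  rw [fs_pair]
  constructor
  · intro h1
    have h2 := nat_injective h1
    subst h2
    rw [Part.mem_unique h h']
  · intro h1
    exact (ZFSet.pair_inj.1 h1).1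

theorem A1_nat (n : ℕ) : A1 (nat n) = nat n.unpair.1 := ap_gph (Part.mem_some _)

theorem A2_nat (n : ℕ) : A2 (nat n) = nat n.unpair.2 := ap_gph (Part.mem_some _)

/-- The graph of an assignment. -/
noncomputable def gE (f : ℕ → ZFSet.{0}) : ZFSet.{0} :=
  ZFSet.range fun i : ℕ => pair (nat i) (f i)

theorem mem_gE {f : ℕ → ZFSet.{0}} {p : ZFSet.{0}} : p ∈ gE f ↔ ∃ i, p = pair (nat i) (f i) := by
  rw [gE, ZFSet.mem_range]
  exact exists_congr fun i => eq_comm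

theorem ap_gE {f : ℕ → ZFSet.{0}} {i : ℕ} : ap (gE f) (nat i) = f i := by
  refine ap_eq (fun q hq => ?_) (mem_gE.2 ⟨i, rfl⟩)
  obtain ⟨j, rfl⟩ := mem_gE.1 hq
  rw [fs_pair]
  constructor
  · intro h1
    rw [nat_injective h1]
  · intro h1
    exact (ZFSet.pair_inj.1 h1).1

/-- Change of a value. -/
noncomputable def up (f x z : ZFSet.{0}) : ZFSet.{0} :=
  insert (pair x z) (ZFSet.sep (fun q => fs q ≠ x) f)

theorem up_gE {f : ℕ → ZFSet.{0}} {i : ℕ} {z : ZFSet.{0}} :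
    up (gE f) (nat i) z = gE (Function.update f i z) := by
  ext q
  rw [up, ZFSet.mem_insert_iff, ZFSet.mem_sep, mem_gE, mem_gE]
  constructor
  · rintro (rfl | ⟨⟨j, rfl⟩, h⟩)
    · exact ⟨i, by simp⟩
    · rw [fs_pair] at h
      refine ⟨j, ?_⟩
      rw [Function.update_of_ne]
      rintro rfl
      exact h rfl
  · rintro ⟨j, rfl⟩
    by_cases h : j = i
    · subst h
      exact Or.inl (by simp)
    · right
      rw [Function.update_of_ne h, fs_pair]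
      exact ⟨⟨j, rfl⟩, fun h1 => h (nat_injective h1)⟩

/-- The tuple of the values of `f` at the members of the list number `l`. -/
noncomputable def tI (l f : ZFSet.{0}) : ZFSet.{0} :=
  im (fun q => pair (fs q) (ap f (sn q)))
    (ZFSet.sep (fun q => ∃ m ∈ (ZFSet.omega : ZFSet.{0}), A1 m = l ∧ A2 m = fs q ∧
      pair m (sn q) ∈ gph pfl) (ZFSet.prod ZFSet.omega ZFSet.omega))

theorem tI_gE {l : ℕ} {f : ℕ → ZFSet.{0}} : tI (nat l) (gE f) = tup (ls l) f := by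
  ext p
  rw [tI, mem_im, tup, mem_tp]
  constructor
  · rintro ⟨q, hq, rfl⟩
    rw [ZFSet.mem_sep, ZFSet.mem_prod] at hq
    obtain ⟨⟨a, ha, b, hb, rfl⟩, m, hm, h1, h2, h3⟩ := hq
    obtain ⟨a, rfl⟩ := mem_omega_iff.1 ha
    obtain ⟨b, rfl⟩ := mem_omega_iff.1 hb
    obtain ⟨m, rfl⟩ := mem_omega_iff.1 hm
    rw [A1_nat] at h1
    rw [A2_nat, fs_pair] at h2
    rw [sn_pair, pair_mem_gph, pfl, nat_injective h1, nat_injective h2] at h3
    have h4 : (ls l)[a]? = some b := by simpa using h3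
    obtain ⟨h5, h6⟩ := List.getElem?_eq_some_iff.1 h4
    refine ⟨⟨a, h5⟩, ?_⟩
    rw [fs_pair, sn_pair, ap_gE]
    simp [h6]
  · rintro ⟨j, rfl⟩
    refine ⟨pair (nat j) (nat ((ls l).get j)), ?_, ?_⟩
    · rw [ZFSet.mem_sep, fs_pair, sn_pair]
      refine ⟨ZFSet.pair_mem_prod.2 ⟨mem_omega_iff.2 ⟨_, rfl⟩, mem_omega_iff.2 ⟨_, rfl⟩⟩,
        nat (Nat.pair l j), mem_omega_iff.2 ⟨_, rfl⟩, ?_, ?_, ?_⟩
      · rw [A1_nat, Nat.unpair_pair]
      · rw [A2_nat, Nat.unpair_pair]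
      · rw [pair_mem_gph, pfl, Nat.unpair_pair]
        simp
    · rw [fs_pair, sn_pair, ap_gE]

/-- The clauses in the definition of truth, for sets. -/
def Cls (S N n f : ZFSet.{0}) : Prop :=
  (A1 n = nat 0 ∧ pair (A1 (A2 n)) (tI (A2 (A2 n)) f) ∈ ap f (nat 1)) ∨
  (A1 n = nat 1 ∧ tI (A2 (A2 n)) f ∈ ap f (A1 (A2 n))) ∨
  (A1 n = nat 2 ∧ ap f (A1 (A2 n)) = ap f (A2 (A2 n))) ∨
  (A1 n = nat 3 ∧ pair (A2 n) f ∉ S) ∨
  (A1 n = nat 4 ∧ pair (A1 (A2 n)) f ∈ S ∧ pair (A2 (A2 n)) f ∈ S) ∨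
  (A1 n = nat 5 ∧ ∃ z ∈ N, z ∈ ap f (nat 0) ∧ pair (A2 (A2 n)) (up f (A1 (A2 n)) z) ∈ S) ∨
  (A1 n = nat 6 ∧ ∃ z ∈ N, (∀ t ∈ z, ZFSet.IsFunc (A1 (A2 n)) (ap f (nat 0)) t) ∧
    pair (A2 (A2 (A2 n))) (up f (A1 (A2 (A2 n))) z) ∈ S) ∨
  (A1 n = nat 7 ∧ ap f (A1 (A2 n)) ∈ ap f (A2 (A2 n))) ∨
  (A1 n ∉ nat 8 ∧ ∃ z ∈ N, pair (A2 (A2 n)) (up f (A1 (A2 n)) z) ∈ S)

/-- The clauses for sets and the clauses for classes. -/
theorem cls_iff {S N : ZFSet.{0}} {T : ℕ → (ℕ → ZFSet.{0}) → Prop} {n : ℕ} {f : ℕ → ZFSet.{0}}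
    (h : ∀ m < n, ∀ g : ℕ → ZFSet.{0}, (g = f ∨ ∃ x z, z ∈ N ∧ g = Function.update f x z) →
      (pair (nat m) (gE g) ∈ S ↔ T m g)) :
    Cls S N (nat n) (gE f) ↔ Stp {y | y ∈ N} T n.unpair.1 n.unpair.2 f := by
  have hlt : 1 ≤ n.unpair.1 → n.unpair.2 < n := lt_of_tag
  have l1 := Nat.unpair_left_le n.unpair.2
  have l2 := Nat.unpair_right_le n.unpair.2
  have l3 := Nat.unpair_right_le n.unpair.2.unpair.2
  have hne : ∀ {a b : ℕ}, nat a = nat b ↔ a = b := ⟨fun h => nat_injective h, fun h => by rw [h]⟩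
  have hmem : ∀ {a b : ℕ}, nat a ∈ nat b ↔ a < b := by
    intro a b
    rw [nat_eq, nat_eq, Ordinal.toZFSet_mem_toZFSet_iff]
    exact Nat.cast_lt
  unfold Cls
  simp only [A1_nat, A2_nat, tI_gE, up_gE, hne, hmem]
  simp only [ap_gE]
  rcases ht : n.unpair.1 with _ | _ | _ | _ | _ | _ | _ | _ | t
  · simp [Stp, show nat 1 = nat 1 from rfl, ap_gE]
  · simp [Stp]
  · simp [Stp]
  · rw [ht] at hlt
    simp [Stp, h n.unpair.2 (hlt (by omega)) f (Or.inl rfl)]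
  · rw [ht] at hlt
    have h0 := hlt (by omega)
    simp [Stp, h n.unpair.2.unpair.1 (by omega) f (Or.inl rfl),
      h n.unpair.2.unpair.2 (by omega) f (Or.inl rfl)]
  · rw [ht] at hlt
    have h0 := hlt (by omega)
    simp only [Stp]
    simp
    refine exists_congr fun z => and_congr_right fun hz => and_congr_right fun _ => ?_
    exact h _ (by omega) _ (Or.inr ⟨_, z, hz, rfl⟩)
  · rw [ht] at hlt
    have h0 := hlt (by omega)
    simp only [Stp]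
    simp
    refine exists_congr fun z => and_congr_right fun hz => and_congr_right fun _ => ?_
    exact h _ (by omega) _ (Or.inr ⟨_, z, hz, rfl⟩)
  · simp [Stp]
  · rw [ht] at hlt
    have h0 := hlt (by omega)
    simp only [Stp]
    simp
    refine exists_congr fun z => and_congr_right fun hz => ?_
    exact h _ (by omega) _ (Or.inr ⟨_, z, hz, rfl⟩)

/-- The set `S` is the truth relation for the assignments in `U`. -/
def Tru (U S N : ZFSet.{0}) : Prop :=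
  (∀ f ∈ U, ∀ x ∈ (ZFSet.omega : ZFSet.{0}), ∀ z ∈ N, up f x z ∈ U) ∧
  ∀ n ∈ (ZFSet.omega : ZFSet.{0}), ∀ f ∈ U, (pair n f ∈ S ↔ Cls S N n f)

theorem Tru.spec {U S N : ZFSet.{0}} (h : Tru U S N) : ∀ (n : ℕ) (f : ℕ → ZFSet.{0}),
    gE f ∈ U → (pair (nat n) (gE f) ∈ S ↔ GS {y | y ∈ N} n f) := by
  intro n
  induction n using Nat.strong_induction_on with
  | _ n ih =>
  intro f hf
  rw [h.2 (nat n) (mem_omega_iff.2 ⟨n, rfl⟩) _ hf, GS_iff]
  refine cls_iff fun m hm g hg => ?_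
  rcases hg with rfl | ⟨x, z, hz, rfl⟩
  · exact ih m hm g hf
  · refine ih m hm _ ?_
    rw [← up_gE]
    exact h.1 _ hf _ (mem_omega_iff.2 ⟨x, rfl⟩) z hz

theorem gE_asg {b : ZFSet.{0}} : gE (asg b) = up (ZFSet.prod ZFSet.omega {∅}) (nat 4) b := by
  have h : ZFSet.prod ZFSet.omega {∅} = gE fun _ => ∅ := by
    ext p
    rw [ZFSet.mem_prod, mem_gE]
    constructor
    · rintro ⟨a, ha, b, hb, rfl⟩
      obtain ⟨i, rfl⟩ := mem_omega_iff.1 ha
      rw [ZFSet.mem_singleton] at hb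
      exact ⟨i, by rw [hb]⟩
    · rintro ⟨i, rfl⟩
      exact ⟨_, mem_omega_iff.2 ⟨i, rfl⟩, _, ZFSet.mem_singleton.2 rfl, rfl⟩
  rw [h, up_gE]
  congr 1
  funext i
  by_cases hi : i = 4
  · subst hi
    simp [asg]
  · rw [Function.update_of_ne hi, asg, if_neg hi]

/-- The finite modifications of `f` with values in `N`. -/
noncomputable def updl (N : ZFSet.{0}) (f : ℕ → ZFSet.{0}) :
    List (ℕ × Shrink.{0} {z : ZFSet.{0} // z ∈ N}) → ℕ → ZFSet.{0}
  | [] => f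
  | p :: l => Function.update (updl N f l) p.1 ((equivShrink {z : ZFSet.{0} // z ∈ N}).symm p.2).1

section

variable {c : Cardinal.{0}} {M : Set ZFSet.{0}} (hM : Full c M)

include hM

theorem exists_Tru {N b : ZFSet.{0}} (hN : N ∈ M) (hb : b ∈ M) :
    ∃ U ∈ M, ∃ S ∈ M, Tru U S N ∧ gE (asg b) ∈ U := by
  let α := Shrink.{0} {z : ZFSet.{0} // z ∈ N}
  let U : ZFSet.{0} := ZFSet.range fun l : List (ℕ × α) => gE (updl N (asg b) l)
  have hval : ∀ (l : List (ℕ × α)) (i : ℕ), updl N (asg b) l i ∈ M := by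
    intro l
    induction l with
    | nil =>
      intro i
      change asg b i ∈ M
      unfold asg
      split
      · exact hb
      · exact hM.empty_mem
    | cons p l ih =>
      intro i
      change Function.update (updl N (asg b) l) p.1 _ i ∈ M
      by_cases h : i = p.1
      · subst h
        rw [Function.update_self]
        exact hM.trans hN ((equivShrink {z : ZFSet.{0} // z ∈ N}).symm p.2).2
      · rw [Function.update_of_ne h]
        exact ih i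
  have hgE : ∀ f : ℕ → ZFSet.{0}, (∀ i, f i ∈ M) → gE f ∈ M := by
    intro f hf
    refine hM.of_countable (fun p hp => ?_) ?_
    · obtain ⟨i, rfl⟩ := mem_gE.1 hp
      exact hM.pair_mem (hM.nat_mem i) (hf i)
    · have := card_range_le fun i : ℕ => pair (nat i) (f i)
      simpa [gE] using this
  have hU : U ∈ M := by
    refine (hM.iff _).2 ⟨fun y hy => ?_, ?_⟩
    · obtain ⟨l, rfl⟩ := ZFSet.mem_range.1 hy
      exact hgE _ (hval l)
    · refine (card_range_le _).trans ((Cardinal.mk_list_le_max _).trans ?_)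
      refine max_le hM.inf ?_
      rw [Cardinal.mk_prod, Cardinal.lift_id, Cardinal.lift_id, Cardinal.mk_nat]
      exact (mul_le_mul' hM.inf (hM.card hN)).trans (Cardinal.mul_eq_self hM.inf).le
  let S : ZFSet.{0} := ZFSet.sep (fun p => ∃ (n : ℕ) (f : ℕ → ZFSet.{0}),
    p = pair (nat n) (gE f) ∧ GS {y | y ∈ N} n f) (ZFSet.prod ZFSet.omega U)
  have hS : S ∈ M := hM.sep_mem (hM.prod_mem hM.omega_mem hU)
  have hinj : ∀ {f g : ℕ → ZFSet.{0}}, gE f = gE g → f = g := by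
    intro f g h
    funext i
    rw [← ap_gE (f := f), h, ap_gE]
  have hSmem : ∀ (n : ℕ) (f : ℕ → ZFSet.{0}), gE f ∈ U →
      (pair (nat n) (gE f) ∈ S ↔ GS {y | y ∈ N} n f) := by
    intro n f hf
    rw [ZFSet.mem_sep, ZFSet.pair_mem_prod]
    constructor
    · rintro ⟨-, n', f', h1, h2⟩
      obtain ⟨h3, h4⟩ := ZFSet.pair_inj.1 h1
      rw [nat_injective h3, hinj h4]
      exact h2
    · intro h
      exact ⟨⟨mem_omega_iff.2 ⟨n, rfl⟩, hf⟩, n, f, rfl, h⟩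
  have hup : ∀ f : ℕ → ZFSet.{0}, gE f ∈ U → ∀ (x : ℕ), ∀ z ∈ N,
      gE (Function.update f x z) ∈ U := by
    intro f hf x z hz
    obtain ⟨l, hl⟩ := ZFSet.mem_range.1 hf
    rw [← hinj hl]
    refine ZFSet.mem_range.2 ⟨(x, equivShrink _ ⟨z, hz⟩) :: l, ?_⟩
    change gE (Function.update (updl N (asg b) l) x _) = _
    simp
  refine ⟨U, hU, S, hS, ⟨?_, ?_⟩, ?_⟩
  · intro f hf x hx z hz
    obtain ⟨l, rfl⟩ := ZFSet.mem_range.1 hf
    obtain ⟨x, rfl⟩ := mem_omega_iff.1 hx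
    rw [up_gE]
    exact hup _ hf x z hz
  · intro n hn f hf
    obtain ⟨n, rfl⟩ := mem_omega_iff.1 hn
    obtain ⟨l, rfl⟩ := ZFSet.mem_range.1 hf
    beta_reduce at hf ⊢
    rw [hSmem n _ hf, GS_iff]
    refine (cls_iff fun m hm g hg => ?_).symm
    refine hSmem m g ?_
    rcases hg with rfl | ⟨x, z, hz, rfl⟩
    · exact hf
    · exact hup _ hf x z hz
  · exact ZFSet.mem_range.2 ⟨[], rfl⟩

section

variable {n : ℕ} {F G H K : (Fin n → ZFSet.{0}) → ZFSet.{0}}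

theorem Full.ap' (hF : DfnF ∅ M F) (hG : DfnF ∅ M G) : DfnF ∅ M fun v => ap (F v) (G v) := by
  refine hM.base.sUnion' (hM.im' (h := fun p _ => sn p) (hM.sep' (Q := fun q v => fs q = G v) hF
    (Dfn.eq (hM.fs' (DfnF.proj 0)) hG.tail)) (hM.sn' (DfnF.proj 0)))

theorem gph_mem (f : ℕ →. ℕ) : gph f ∈ M :=
  hM.sep_mem (hM.prod_mem hM.omega_mem hM.omega_mem)

variable (hk : ∀ f : ℕ →. ℕ, Nat.Partrec f → Dfn ∅ M fun v : Fin 1 → ZFSet.{0} => v 0 = gph f)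

include hk

theorem gph' {f : ℕ →. ℕ} (hf : Nat.Partrec f) :
    DfnF ∅ M fun _ : Fin n → ZFSet.{0} => gph f := dfnF_of_const (gph_mem hM f) (hk f hf)

theorem A1' (hF : DfnF ∅ M F) : DfnF ∅ M fun v => A1 (F v) :=
  hM.ap' (gph' hM hk partrec_pf1) hF

theorem A2' (hF : DfnF ∅ M F) : DfnF ∅ M fun v => A2 (F v) :=
  hM.ap' (gph' hM hk partrec_pf2) hF

omit hk in
theorem up' (hF : DfnF ∅ M F) (hG : DfnF ∅ M G) (hH : DfnF ∅ M H) :
    DfnF ∅ M fun v => up (F v) (G v) (H v) := by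
  refine hM.base.insert' (hM.base.pair' hG hH) (hM.sep' (Q := fun q v => fs q ≠ G v) hF ?_)
  exact (Dfn.eq (hM.fs' (DfnF.proj 0)) hG.tail).not

theorem tI' (hF : DfnF ∅ M F) (hG : DfnF ∅ M G) : DfnF ∅ M fun v => tI (F v) (G v) := by
  refine hM.im' (h := fun q v => pair (fs q) (ap (G v) (sn q))) (hM.sep' (Q := fun q v =>
    ∃ m ∈ (ZFSet.omega : ZFSet.{0}), A1 m = F v ∧ A2 m = fs q ∧ pair m (sn q) ∈ gph pfl)
    (hM.prod' hM.omega' hM.omega') ?_) ?_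
  · apply hM.base.bex hM.omega'
    apply Dfn.and (Dfn.eq (A1' hM hk (DfnF.proj 0)) hF.tail.tail)
    apply Dfn.and (Dfn.eq (A2' hM hk (DfnF.proj 0)) (hM.fs' (DfnF.proj 1)))
    exact Dfn.mem (hM.base.pair' (DfnF.proj 0) (hM.sn' (DfnF.proj 1))) (gph' hM hk partrec_pfl)
  · exact hM.base.pair' (hM.fs' (DfnF.proj 0)) (hM.ap' hG.tail (hM.sn' (DfnF.proj 0)))

theorem cls' (hF : DfnF ∅ M F) (hG : DfnF ∅ M G) (hH : DfnF ∅ M H) (hK : DfnF ∅ M K) :
    Dfn ∅ M fun v => Cls (F v) (G v) (H v) (K v) := by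
  have hB := hM.base
  refine Dfn.comp4 (Q := Cls) ?_ hF hG hH hK
  unfold Cls
  have a : DfnF ∅ M fun w : Fin 4 → ZFSet.{0} => A1 (w 2) := A1' hM hk (DfnF.proj 2)
  have b : DfnF ∅ M fun w : Fin 4 → ZFSet.{0} => A2 (w 2) := A2' hM hk (DfnF.proj 2)
  have ab := A1' hM hk b
  have bb := A2' hM hk b
  have abb := A1' hM hk bb
  have bbb := A2' hM hk bb
  have f : DfnF ∅ M fun w : Fin 4 → ZFSet.{0} => w 3 := DfnF.proj 3
  have S : DfnF ∅ M fun w : Fin 4 → ZFSet.{0} => w 0 := DfnF.proj 0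
  have N : DfnF ∅ M fun w : Fin 4 → ZFSet.{0} => w 1 := DfnF.proj 1
  have z : DfnF ∅ M fun w : Fin 5 → ZFSet.{0} => w 0 := DfnF.proj 0
  apply Dfn.or
  · exact (Dfn.eq a (hM.nat' 0)).and (Dfn.mem (hB.pair' ab (tI' hM hk bb f))
      (hM.ap' f (hM.nat' 1)))
  apply Dfn.or
  · exact (Dfn.eq a (hM.nat' 1)).and (Dfn.mem (tI' hM hk bb f) (hM.ap' f ab))
  apply Dfn.or
  · exact (Dfn.eq a (hM.nat' 2)).and (Dfn.eq (hM.ap' f ab) (hM.ap' f bb))
  apply Dfn.or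
  · exact (Dfn.eq a (hM.nat' 3)).and (Dfn.mem (hB.pair' b f) S).not
  apply Dfn.or
  · exact (Dfn.eq a (hM.nat' 4)).and ((Dfn.mem (hB.pair' ab f) S).and
      (Dfn.mem (hB.pair' bb f) S))
  apply Dfn.or
  · apply Dfn.and (Dfn.eq a (hM.nat' 5))
    apply hB.bex N
    apply Dfn.and (Dfn.mem z (hM.ap' f.tail (hM.nat' 0)))
    exact Dfn.mem (hB.pair' bb.tail (up' hM f.tail ab.tail z)) S.tail
  apply Dfn.or
  · apply Dfn.and (Dfn.eq a (hM.nat' 6))
    apply hB.bex N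
    apply Dfn.and
    · apply hB.ball z
      exact hB.isFunc' ab.tail.tail (hM.ap' f.tail.tail (hM.nat' 0)) (DfnF.proj 0)
    · exact Dfn.mem (hB.pair' bbb.tail (up' hM f.tail abb.tail z)) S.tail
  apply Dfn.or
  · exact (Dfn.eq a (hM.nat' 7)).and (Dfn.mem (hM.ap' f ab) (hM.ap' f bb))
  · apply Dfn.and (Dfn.mem a (hM.nat' 8)).not
    apply hB.bex N
    exact Dfn.mem (hB.pair' bb.tail (up' hM f.tail ab.tail z)) S.tail

theorem tru' (hF : DfnF ∅ M F) (hG : DfnF ∅ M G) (hH : DfnF ∅ M H) :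
    Dfn ∅ M fun v => Tru (F v) (G v) (H v) := by
  have hB := hM.base
  refine Dfn.comp3 (Q := Tru) ?_ hF hG hH
  unfold Tru
  apply Dfn.and
  · apply hB.ball (DfnF.proj 0)
    apply hB.ball hM.omega'
    apply hB.ball (DfnF.proj 4)
    exact Dfn.mem (up' hM (DfnF.proj 2) (DfnF.proj 1) (DfnF.proj 0)) (DfnF.proj 3)
  · apply hB.ball hM.omega'
    apply hB.ball (DfnF.proj 1)
    apply Dfn.iff (Dfn.mem (hB.pair' (DfnF.proj 1) (DfnF.proj 0)) (DfnF.proj 3))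
    exact cls' hM hk (DfnF.proj 3) (DfnF.proj 4) (DfnF.proj 1) (DfnF.proj 0)

/-- Truth in sets is definable. -/
theorem dfn_JJ : DfnF ∅ M fun v : Fin 2 → ZFSet.{0} => JJ (v 0) (v 1) := by
  have hB := hM.base
  have hg : ∀ {n : ℕ} {F : (Fin n → ZFSet.{0}) → ZFSet.{0}}, DfnF ∅ M F →
      DfnF ∅ M fun v => up (ZFSet.prod ZFSet.omega {∅}) (nat 4) (F v) := fun hF =>
    up' hM (hM.prod' hM.omega' (hB.single' hM.empty')) (hM.nat' 4) hF
  have hJ : ∀ {U S N b : ZFSet.{0}}, Tru U S N → gE (asg b) ∈ U →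
      JJ N b = ZFSet.sep (fun m => pair m (gE (asg b)) ∈ S) ZFSet.omega := by
    intro U S N b h1 h2
    ext m
    rw [JJ, ZFSet.mem_sep, ZFSet.mem_sep]
    refine and_congr_right fun hm => ?_
    obtain ⟨m, rfl⟩ := mem_omega_iff.1 hm
    rw [h1.spec m _ h2]
    constructor
    · rintro ⟨k, hk, hk'⟩
      rw [nat_injective hk]
      exact hk'
    · intro h
      exact ⟨m, rfl, h⟩
  refine DfnF.of_unique (R := fun y v => ∃ U ∈ M, ∃ S ∈ M, Tru U S (v 0) ∧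
    up (ZFSet.prod ZFSet.omega {∅}) (nat 4) (v 1) ∈ U ∧
    y = ZFSet.sep (fun m => pair m (up (ZFSet.prod ZFSet.omega {∅}) (nat 4) (v 1)) ∈ S)
      ZFSet.omega) ?_ ?_
  · apply Dfn.ex
    apply Dfn.ex
    apply Dfn.and (tru' hM hk (DfnF.proj 1) (DfnF.proj 0) (DfnF.proj 3))
    apply Dfn.and (Dfn.mem (hg (DfnF.proj 4)) (DfnF.proj 1))
    apply Dfn.eq (DfnF.proj 2)
    refine hM.sep' (Q := fun m w => pair m (up (ZFSet.prod ZFSet.omega {∅}) (nat 4)
      (w 4)) ∈ w 0) hM.omega' ?_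
    exact Dfn.mem (hB.pair' (DfnF.proj 0) (hg (DfnF.proj 5))) (DfnF.proj 1)
  · intro v hv
    refine ⟨hM.sep_mem hM.omega_mem, fun y _ => ?_⟩
    rw [← gE_asg]
    constructor
    · rintro ⟨U, -, S, -, h1, h2, rfl⟩
      exact (hJ h1 h2).symm
    · rintro rfl
      obtain ⟨U, hU, S, hS, h1, h2⟩ := exists_Tru hM (hv 0) (hv 1)
      exact ⟨U, hU, S, hS, h1, h2, hJ h1 h2⟩

end

end

end Pool.Agent.R587
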