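import Pool.Agent.R587.EM
import Pool.Agent.R587.HdC

/-!
# The critical points of the long iterate
-/

set_option autoImplicit false

namespace Pool.Agent.R587

open Pool.Agent.W868 hiding Models
open ZFSet (pair)
open Cardinal

theorem Inc.restrict {C : Set ZFSet.{0}} {P : ZFSet.{0} → Prop} {n : ℕ} {s : ZFSet.{0}}
    (hs : Inc C n s) (h : ∀ ξ ∈ s, P ξ) : Inc {d | d ∈ C ∧ P d} n s := by
  induction hs with
  | zero => exact Inc.zero
  | succ _ hc hlt ih =>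
    exact Inc.succ (ih fun ξ hξ => h ξ (ZFSet.mem_insert_of_mem _ hξ))
      ⟨hc, h _ (ZFSet.mem_insert _ _)⟩ hlt

namespace Gen

variable {Q R : Set ZFSet.{0}} {W : ZFSet.{0}} {σ : ZFSet.{0} → ZFSet.{0}}
  {C : Set ZFSet.{0}} (h : Gen Q W R σ C)

include h

theorem pmR : Pm R (σ W) := Pm.push h.el h.trans h.pm

/-- Ordinals that are definable from smaller critical points are below the next one. -/
theorem bdd {φ : Fml Empty 3} {a s c y : ZFSet.{0}} (ha : a ∈ Q) {n : ℕ} (hs : Inc C n s)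
    (hc : c ∈ C) (hlt : ∀ ξ ∈ s, ξ ∈ c) (hy : y ∈ R) (hd : Dy R φ y (σ a) s)
    (hk : y ∈ (ZFSet.sUnion (σ W) : ZFSet.{0})) : y ∈ c := by
  let G : Gr := fun M W a t η => ∀ y ∈ M, Dy M φ y a t → (∃ A ∈ W, y ∈ A) → y ∈ η
  have hG : UGr G := by
    unfold UGr
    apply UD.all
    apply UD.imp
    · exact UD.comp (ud_Dy φ) ![0, 2, 3]
    apply UD.of_D0
    apply D0.imp
    · exact D0.bex (D0v.proj 1) (D0.mem (D0v.proj 1) (D0v.proj 0))
    · exact D0.mem (D0v.proj 0) (D0v.proj 4)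
  have h1 : ∀ t ∈ Q, ∃ B ∈ W, ∀ η ∈ B, (∀ ξ ∈ t, ξ ∈ η) → G Q W a t η := by
    intro t _
    by_cases hex : ∃ y ∈ Q, Dy Q φ y a t ∧ y ∈ (ZFSet.sUnion W : ZFSet.{0})
    · obtain ⟨y, hy, h1, h2⟩ := hex
      refine ⟨_, h.pm.unif y h2, fun η hη _ y' hy' h3 _ => ?_⟩
      rw [h3.uniq hy' h1]
      exact (ZFSet.mem_sep.1 hη).2
    · refine ⟨_, h.pm.kW, fun η _ _ y' hy' h3 h4 => ?_⟩
      exact absurd ⟨y', hy', h3, ZFSet.mem_sUnion.2 h4⟩ hex
  exact h.no_use hG ha h1 hs hc hlt y hy hd (ZFSet.mem_sUnion.1 hk)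

/-- The later critical points are in the sets of measure one. -/
theorem mes {φ : Fml Empty 3} {a s c A : ZFSet.{0}} (ha : a ∈ Q) {n : ℕ} (hs : Inc C n s)
    (hc : c ∈ C) (hlt : ∀ ξ ∈ s, ξ ∈ c) (hA : A ∈ R) (hd : Dy R φ A (σ a) s)
    (hAW : A ∈ σ W) : c ∈ A := by
  let G : Gr := fun M W a t η => ∀ A ∈ M, Dy M φ A a t → A ∈ W → η ∈ A
  have hG : UGr G := by
    unfold UGr
    apply UD.all
    apply UD.imp
    · exact UD.comp (ud_Dy φ) ![0, 2, 3]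
    apply UD.of_D0
    apply D0.imp
    · exact D0.mem (D0v.proj 0) (D0v.proj 1)
    · exact D0.mem (D0v.proj 4) (D0v.proj 0)
  have h1 : ∀ t ∈ Q, ∃ B ∈ W, ∀ η ∈ B, (∀ ξ ∈ t, ξ ∈ η) → G Q W a t η := by
    intro t _
    by_cases hex : ∃ A ∈ Q, Dy Q φ A a t ∧ A ∈ W
    · obtain ⟨A, hA, h1, h2⟩ := hex
      refine ⟨A, h2, fun η hη _ A' hA' h3 _ => ?_⟩
      rw [h3.uniq hA' h1]
      exact hη
    · refine ⟨_, h.pm.kW, fun η _ _ A' hA' h3 h4 => ?_⟩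
      exact absurd ⟨A', hA', h3, h4⟩ hex
  exact h.no_use hG ha h1 hs hc hlt A hA hd hAW

/-- Ordinals below the last critical point are definable without it. -/
theorem drop {φ : Fml Empty 3} {a s d α : ZFSet.{0}} (ha : a ∈ Q) {n : ℕ} (hs : Inc C n s)
    (hd : d ∈ C) (hlt : ∀ ξ ∈ s, ξ ∈ d) (hα : α ∈ d) (hdy : Dy R φ α (σ a) (insert d s)) :
    ∃ φ' : Fml Empty 3, Dy R φ' α (σ (pair a W)) s := by
  have hdR := h.cR hd
  have hαR := h.trans _ hdR _ hα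
  have hsR := h.incR hs
  let P : Pr := fun M _ b s => ∃ a ∈ M, ∃ γ ∈ M, b = pair a γ ∧ Dy M φ γ a s
  have hPu : UPr P := by
    unfold UPr
    apply UD.ex
    apply UD.ex
    apply UD.and
    · exact UD.of_D0 (D0.isPair (D0v.proj 3) (D0v.proj 1) (D0v.proj 0))
    · exact UD.comp (ud_Dy φ) ![0, 1, 4]
  let G : Gr := fun M W a t η => ∀ t' ∈ M, t' = insert η t → ∀ γ ∈ η, Dy M φ γ a t' →
    ∀ b ∈ M, b = pair a γ → WQ P M W b t
  have hG : UGr G := by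
    unfold UGr
    apply UD.all
    apply UD.imp
    · exact UD.of_D0 (D0.isInsert (D0v.proj 0) (D0v.proj 4) (D0v.proj 3))
    apply UD.ball (D0v.proj 4)
    apply UD.imp
    · exact UD.comp (ud_Dy φ) ![0, 3, 1]
    apply UD.all
    apply UD.imp
    · exact UD.of_D0 (D0.isPair (D0v.proj 0) (D0v.proj 4) (D0v.proj 1))
    · exact UD.comp hPu.wq ![3, 0, 5]
  have h1 : ∀ t ∈ Q, ∃ B ∈ W, ∀ η ∈ B, (∀ ξ ∈ t, ξ ∈ η) → G Q W a t η := by
    intro t ht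
    by_cases hb : Bd W t
    · have hN := h.pm.sepU (P := fun M v => G M (v 1) (v 2) (v 3) (v 0))
        (UD.comp hG ![1, 2, 3, 0]) (v := ![W, a, t]) (by
        intro i
        fin_cases i
        exacts [h.pm.mem, ha, ht]) h.pm.kQ
      rcases h.pm.ultra _ hN (fun y hy => (ZFSet.mem_sep.1 hy).1) with h2 | h2
      · exact ⟨_, h2, fun η hη _ => (ZFSet.mem_sep.1 hη).2⟩
      · exfalso
        have h3 : ∀ η ∈ (ZFSet.sUnion W : ZFSet.{0}) \ ZFSet.sep (fun y =>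
            (fun M (v : Fin 4 → ZFSet.{0}) => G M (v 1) (v 2) (v 3) (v 0)) Q
              (Fin.cons y ![W, a, t])) (ZFSet.sUnion W), ∃ γ ∈ η,
            Dy Q φ γ a (insert η t) ∧ ¬ WQ P Q W (pair a γ) t := by
          intro η hη
          rw [ZFSet.mem_sdiff, ZFSet.mem_sep, not_and] at hη
          by_contra hcon
          push Not at hcon
          refine hη.2 hη.1 ?_
          change G Q W a t η
          rintro t' - rfl γ hγ h4 b - rfl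
          exact hcon γ hγ h4
        obtain ⟨γ', hγ', B', hB', hBW', h4⟩ := h.pm.fodor hPu ha ht hb h2 fun η hη _ => by
          obtain ⟨γ, hγ, h4, -⟩ := h3 η hη
          have hηQ := h.pm.trans _ h.pm.kQ _ ((ZFSet.mem_sdiff.1 hη).1)
          exact ⟨γ, hγ, a, ha, γ, h.pm.trans _ hηQ _ hγ, rfl, h4⟩
        obtain ⟨η, hη⟩ := h.pm.inhab (h.pm.inter _ (h.pm.inter _ h2 _ hBW') _ (h.pm.bd_W ht hb))
        rw [ZFSet.mem_inter, ZFSet.mem_inter, ZFSet.mem_sep] at hη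
        obtain ⟨⟨h5, h6⟩, h7, h8⟩ := hη
        have hηQ := h.pm.trans _ h.pm.kQ _ h7
        obtain ⟨γ, hγ, h9, h10⟩ := h3 η h5
        obtain ⟨a', -, γ'', -, h11, h12⟩ := h4 η h6 h8 _ (h.pm.insQ ht h7) rfl
        obtain ⟨rfl, rfl⟩ := ZFSet.pair_inj.1 h11
        have h13 := h9.uniq (h.pm.trans _ hηQ _ hγ) h12
        subst h13
        exact h10 ⟨B', hB', hBW', h4⟩
    · refine ⟨_, h.pm.kW, fun η hη h2 => ?_⟩
      exact absurd ⟨η, hη, h2⟩ hb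
  have h2 := h.no_use hG ha h1 hs hd hlt _ (h.insR _ hdR _ hsR) rfl α hα hdy _
    (h.pmR.pr (h.el.maps _ ha) hαR) rfl
  have hu : UD fun M (v : Fin 3 → ZFSet.{0}) => ∃ a ∈ M, ∃ w ∈ M, v 1 = pair a w ∧
      ∃ b ∈ M, b = pair a (v 0) ∧ WQ P M w b (v 2) := by
    apply UD.ex
    apply UD.ex
    apply UD.and
    · exact UD.of_D0 (D0.isPair (D0v.proj 3) (D0v.proj 1) (D0v.proj 0))
    apply UD.ex
    apply UD.and
    · exact UD.of_D0 (D0.isPair (D0v.proj 0) (D0v.proj 2) (D0v.proj 3))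
    · exact UD.comp hPu.wq ![1, 0, 5]
  obtain ⟨φ', hφ'⟩ := hu
  have haW := h.pm.pr ha h.pm.mem
  refine ⟨φ', fun z hz => ?_⟩
  rw [hφ' R h.trans h.zero _ (by
    intro i
    fin_cases i
    exacts [hz, h.el.maps _ haW, hsR])]
  constructor
  · rintro ⟨a', -, w', -, h3, b, -, h4, h5⟩
    have h3' : σ (pair a W) = pair a' w' := h3
    rw [h.map_pair ha h.pm.mem] at h3'
    obtain ⟨rfl, rfl⟩ := ZFSet.pair_inj.1 h3'
    have h4' : b = pair (σ a) z := h4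
    subst h4'
    obtain ⟨B1, -, hB1, h6⟩ := h5
    obtain ⟨B2, -, hB2, h7⟩ := h2
    obtain ⟨η, hη⟩ := h.pmR.inhab (h.pmR.inter _ (h.pmR.inter _ hB1 _ hB2) _
      (h.pmR.bd_W hsR ⟨d, h.ck hd, hlt⟩))
    rw [ZFSet.mem_inter, ZFSet.mem_inter, ZFSet.mem_sep] at hη
    obtain ⟨⟨h8, h9⟩, h10, h11⟩ := hη
    obtain ⟨a1, -, γ1, -, h12, h13⟩ := h6 η h8 h11 _ (h.pmR.insQ hsR h10) rfl
    obtain ⟨a2, -, γ2, -, h14, h15⟩ := h7 η h9 h11 _ (h.pmR.insQ hsR h10) rfl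
    obtain ⟨rfl, rfl⟩ := ZFSet.pair_inj.1 h12
    obtain ⟨rfl, rfl⟩ := ZFSet.pair_inj.1 h14
    exact h13.uniq hz h15
  · intro h3
    have h3' : z = α := h3
    subst h3'
    exact ⟨σ a, h.el.maps _ ha, σ W, h.el.maps _ h.pm.mem, h.map_pair ha h.pm.mem, _,
      h.pmR.pr (h.el.maps _ ha) hz, rfl, h2⟩

theorem oC {d : ZFSet.{0}} (hd : d ∈ C) : d.IsOrdinal := h.ordR.mem (h.ck hd)

/-- Ordinals below a critical point are definable from smaller ones. -/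
theorem belowc {c α : ZFSet.{0}} (hc : c ∈ C) (hα : α ∈ c) {n : ℕ} {s : ZFSet.{0}}
    (hs : Inc C n s) : ∀ {a : ZFSet.{0}} {φ : Fml Empty 3}, a ∈ Q → Dy R φ α (σ a) s →
    α ∈ Hd Q R σ {d | d ∈ C ∧ d ∈ c} := by
  have hαR := h.trans _ (h.cR hc) _ hα
  induction hs with
  | zero =>
    intro a φ ha hd
    exact ⟨hαR, a, ha, 0, ∅, Inc.zero, φ, hd⟩
  | @succ n s d hs' hdC hlt ih =>
    intro a φ ha hd
    have hle : d ∈ c ∨ α ∈ d := by
      rcases (h.oC hdC).mem_trichotomous (h.oC hc) with h1 | h1 | h1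
      · exact Or.inl h1
      · exact Or.inr (h1 ▸ hα)
      · exact Or.inr ((h.oC hdC).mem_trans hα h1)
    rcases hle with h1 | h1
    · refine ⟨hαR, a, ha, _, _, (Inc.succ hs' hdC hlt).restrict fun ξ hξ => ?_, φ, hd⟩
      rcases ZFSet.mem_insert_iff.1 hξ with rfl | hξ
      · exact h1
      · exact (h.oC hc).mem_trans (hlt ξ hξ) h1
    · obtain ⟨φ', hφ'⟩ := h.drop ha hs' hdC hlt h1 hd
      exact ih (h.pm.pr ha h.pm.mem) hφ'

end Gen

end Pool.Agent.R587
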