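import Pool.Agent.R587.Core

/-!
# Small elementary subclasses
-/

set_option autoImplicit false

namespace Pool.Agent.R587

open Pool.Agent.W868
open ZFSet (pair)
open Cardinal

section

variable {c : Cardinal.{0}} {M : Set ZFSet.{0}}

/-- The arities of the Skolem functions. -/
def SkA (α : Type) : α ⊕ (Σ n : ℕ, Fml Empty (n + 1)) → Type
  | Sum.inl _ => Empty
  | Sum.inr p => Fin p.1

instance {α : Type} (a : α ⊕ (Σ n : ℕ, Fml Empty (n + 1))) : Finite (SkA α a) := by
  cases a with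
  | inl _ => exact (inferInstance : Finite Empty)
  | inr p => exact (inferInstance : Finite (Fin p.1))

open Classical in
/-- The value of a Skolem function. -/
noncomputable def skf (M : Set ZFSet.{0}) {n : ℕ} (φ : Fml Empty (n + 1))
    (v : Fin n → ZFSet.{0}) : ZFSet.{0} :=
  if h : ∃ y ∈ M, Sat M Empty.elim φ (Fin.cons y v) then h.choose else ∅

theorem skf_mem (hM : Full c M) {n : ℕ} (φ : Fml Empty (n + 1)) (v : Fin n → ZFSet.{0}) :
    skf M φ v ∈ M := by
  unfold skf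
  split
  · rename_i h
    exact h.choose_spec.1
  · exact hM.empty_mem

/-- The value of a Skolem term. -/
noncomputable def skv (M : Set ZFSet.{0}) {α : Type} (g : α → ZFSet.{0}) :
    WType (SkA α) → ZFSet.{0} :=
  WType.elim ZFSet.{0} fun p => match p with
    | ⟨Sum.inl a, _⟩ => g a
    | ⟨Sum.inr q, v⟩ => skf M q.2 v

theorem exists_tv (hM : Full c M) {Z : ZFSet.{0}} (hZ : ∀ x ∈ Z, x ∈ M) (hZc : Z.card ≤ c) :
    ∃ H : ZFSet.{0}, Z ⊆ H ∧ TV M {x | x ∈ H} ∧ H.card ≤ c := by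
  let α := Shrink.{0} {z : ZFSet.{0} // z ∈ Z}
  let g : α → ZFSet.{0} := fun a => ((equivShrink {z : ZFSet.{0} // z ∈ Z}).symm a).1
  refine ⟨ZFSet.range (skv M g), ?_, ⟨?_, ?_⟩, ?_⟩
  · intro x hx
    refine ZFSet.mem_range.2 ⟨WType.mk (Sum.inl (equivShrink _ ⟨x, hx⟩)) Empty.elim, ?_⟩
    change g _ = x
    simp [g]
  · rintro x hx
    obtain ⟨t, rfl⟩ := ZFSet.mem_range.1 hx
    cases t with
    | mk a f =>
      cases a with
      | inl a =>
        change g a ∈ M
        exact hZ _ ((equivShrink {z : ZFSet.{0} // z ∈ Z}).symm a).2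
      | inr q =>
        exact skf_mem hM q.2 _
  · intro n R hR v hv h
    obtain ⟨φ, hφ⟩ := dfn_iff.1 hR
    have hv' : ∀ i, ∃ t, skv M g t = v i := fun i => ZFSet.mem_range.1 (hv i)
    have hvM : ∀ i, v i ∈ M := by
      intro i
      obtain ⟨t, ht⟩ := hv' i
      rw [← ht]
      cases t with
      | mk a f =>
        cases a with
        | inl a =>
          change g a ∈ M
          exact hZ _ ((equivShrink {z : ZFSet.{0} // z ∈ Z}).symm a).2
        | inr q =>
          exact skf_mem hM q.2 _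
    have hc : ∀ a ∈ M, ∀ k, (Fin.cons a v : Fin (n + 1) → ZFSet.{0}) k ∈ M := by
      intro a ha k
      refine Fin.cases ?_ (fun k => ?_) k
      · exact ha
      · exact hvM k
    choose t ht using hv'
    have h1 : skv M g (WType.mk (Sum.inr ⟨n, φ⟩) t) = skf M φ v := by
      change skf M φ (fun i => skv M g (t i)) = _
      rw [funext ht]
    refine ⟨skf M φ v, ZFSet.mem_range.2 ⟨_, h1⟩, ?_⟩
    obtain ⟨y, hy, hRy⟩ := h
    have h2 : ∃ y ∈ M, Sat M Empty.elim φ (Fin.cons y v) :=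
      ⟨y, hy, (hφ _ (hc y hy)).2 hRy⟩
    rw [skf, dif_pos h2]
    have h3 := h2.choose_spec
    exact (hφ _ (hc _ h3.1)).1 h3.2
  · refine (card_range_le _).trans (WType.cardinalMk_le_max_aleph0_of_finite.trans ?_)
    refine max_le ?_ hM.inf
    rw [Cardinal.mk_sum, Cardinal.lift_id, Cardinal.lift_id]
    refine (add_le_add (show #α ≤ c from hZc) (show #(Σ n : ℕ, Fml Empty (n + 1)) ≤ c from ?_)).trans
      (Cardinal.add_eq_self hM.inf).le
    have : ∀ n, Countable (Fml Empty (n + 1)) := fun n =>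
      Set.countable_univ_iff.1 (countable_fmlE (n + 1))
    exact (Cardinal.mk_le_aleph0).trans hM.inf

/-- Every hereditarily small set is an element of a small transitive set. -/
theorem exists_tc (hM : Full c M) {x : ZFSet.{0}} (hx : Hl c x) :
    ∃ T : ZFSet.{0}, x ∈ T ∧ (∀ y ∈ T, ∀ z ∈ y, z ∈ T) ∧ T.card ≤ c := by
  induction hx with
  | mk x h h' ih =>
    choose T h1 h2 h3 using ih
    let U : ZFSet.{0} := ZFSet.range fun y : x => T y.1 y.2
    have hU : ∀ y ∈ U, y.card ≤ c := by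
      intro y hy
      obtain ⟨z, rfl⟩ := ZFSet.mem_range.1 hy
      exact h3 _ _
    have hUc : U.card ≤ c := by
      have h4 : U = im (fun y => open Classical in if hy : y ∈ x then T y hy else ∅) x := by
        ext w
        rw [ZFSet.mem_range, mem_im]
        constructor
        · rintro ⟨y, rfl⟩
          exact ⟨y.1, y.2, by rw [dif_pos y.2]⟩
        · rintro ⟨y, hy, rfl⟩
          exact ⟨⟨y, hy⟩, by rw [dif_pos hy]⟩
      rw [h4]
      exact card_im_le.trans h
    refine ⟨insert x (ZFSet.sUnion U), ZFSet.mem_insert _ _, ?_, ?_⟩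
    · intro y hy z hz
      rcases ZFSet.mem_insert_iff.1 hy with rfl | hy
      · refine ZFSet.mem_insert_of_mem _ (ZFSet.mem_sUnion.2 ⟨T z hz, ?_, h1 z hz⟩)
        exact ZFSet.mem_range.2 ⟨⟨z, hz⟩, rfl⟩
      · obtain ⟨t, ht, hyt⟩ := ZFSet.mem_sUnion.1 hy
        refine ZFSet.mem_insert_of_mem _ (ZFSet.mem_sUnion.2 ⟨t, ht, ?_⟩)
        obtain ⟨w, rfl⟩ := ZFSet.mem_range.1 ht
        exact h2 _ _ y hyt z hz
    · refine ZFSet.card_insert_le.trans ?_
      have h4 := card_sUnion_le hM.inf hUc hU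
      refine (add_le_add h4 (Cardinal.one_le_aleph0.trans hM.inf)).trans
        (Cardinal.add_eq_self hM.inf).le

theorem full_HH {c : Cardinal.{0}} (hc : ℵ₀ ≤ c) : Full c (HH c) := by
  refine ⟨hc, fun x => ⟨fun h => ?_, fun h => Hl.mk x h.2 h.1⟩⟩
  cases h with
  | mk _ h h' => exact ⟨h', h⟩

theorem hh_of_trans {c : Cardinal.{0}} (hM : Full c M) {T : ZFSet.{0}}
    (h : ∀ y ∈ T, ∀ z ∈ y, z ∈ T) (hT : T.card ≤ c) : T ∈ M := by
  have h1 : ∀ y : ZFSet.{0}, y ∈ T → y ∈ M := by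
    intro y
    induction y using ZFSet.inductionOn with
    | _ y ih =>
    intro hy
    exact (hM.iff y).2 ⟨fun z hz => ih z hz (h y hy z hz), (ZFSet.card_mono (h y hy)).trans hT⟩
  exact (hM.iff T).2 ⟨fun y hy => h1 y hy, hT⟩

open Classical in
/-- Elements that are uniquely determined by a definable relation are in the hull. -/
theorem hul_of_unique (hM : Full c M) {R : ZFSet.{0} → ZFSet.{0} → Prop}
    (hR : Dfn ∅ M fun v : Fin 2 → ZFSet.{0} => R (v 0) (v 1)) {a b : ZFSet.{0}} (ha : a ∈ M)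
    (hb : b ∈ M) (h : ∀ y ∈ M, R y a ↔ y = b) : b ∈ Hul M a := by
  let f : ZFSet.{0} → ZFSet.{0} := fun x =>
    if h : ∃ y ∈ M, ∀ z ∈ M, R z x ↔ z = y then h.choose else ∅
  have hf : Op M f := by
    refine DfnF.of_unique (R := fun y v => (∀ z ∈ M, R z (v 0) ↔ z = y) ∨
      (y = ∅ ∧ ¬ ∃ y ∈ M, ∀ z ∈ M, R z (v 0) ↔ z = y)) ?_ ?_
    · apply Dfn.or
      · apply Dfn.all
        apply Dfn.iff
        · exact hR.comp ![0, 2]
        · exact Dfn.eq (DfnF.proj 0) (DfnF.proj 1)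
      · apply Dfn.and (Dfn.eq (DfnF.proj 0) hM.empty')
        apply Dfn.not
        apply Dfn.ex
        apply Dfn.all
        apply Dfn.iff
        · exact hR.comp ![0, 3]
        · exact Dfn.eq (DfnF.proj 0) (DfnF.proj 1)
    · intro v hv
      by_cases h : ∃ y ∈ M, ∀ z ∈ M, R z (v 0) ↔ z = y
      · have h1 : f (v 0) = h.choose := dif_pos h
        rw [h1]
        refine ⟨h.choose_spec.1, fun y hy => ?_⟩
        constructor
        · rintro (h2 | ⟨-, h2⟩)
          · exact (h.choose_spec.2 y hy).1 ((h2 y hy).2 rfl)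
          · exact absurd h h2
        · rintro rfl
          exact Or.inl h.choose_spec.2
      · have h1 : f (v 0) = ∅ := dif_neg h
        rw [h1]
        refine ⟨hM.empty_mem, fun y hy => ?_⟩
        constructor
        · rintro (h2 | ⟨h2, -⟩)
          · exact absurd ⟨y, hy, h2⟩ h
          · exact h2
        · rintro rfl
          exact Or.inr ⟨rfl, h⟩
  refine ⟨f, hf, ?_⟩
  have h1 : ∃ y ∈ M, ∀ z ∈ M, R z a ↔ z = y := ⟨b, hb, h⟩
  have h2 : f a = h1.choose := dif_pos h1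
  rw [h2]
  exact ((h _ h1.choose_spec.1).1 ((h1.choose_spec.2 _ h1.choose_spec.1).2 rfl)).symm

theorem hul_insert (hM : Full c M) {a x y : ZFSet.{0}} (hx : x ∈ Hul M a) (hy : y ∈ Hul M a) :
    (insert x y : ZFSet.{0}) ∈ Hul M a :=
  hul_op2 (f := fun a b => (insert a b : ZFSet.{0})) (hM.base.insert' (DfnF.proj 0)
    (DfnF.proj 1)) hx hy

/-- The subsets of a finite set of ordinals are definable from it. -/
theorem fo_sub' (hM : Full c M) : ∀ e, FO e → e ∈ M → ∀ d, d ⊆ e → d ∈ Hul M e := by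
  have hB := hM.base
  intro e
  induction e using pr_wf.induction with
  | _ e ih =>
  intro he heM d hd
  by_cases hde : d = e
  · exact hde ▸ hul_self
  have hne : ∃ y, y ∈ e := by
    by_contra h
    apply hde
    ext y
    exact iff_of_false (fun h1 => h ⟨y, hd h1⟩) fun h1 => h ⟨y, h1⟩
  obtain ⟨μ, hμ, hmin⟩ := exists_min he.1 hne
  have hμe : μ ∈ Hul M e := by
    have h1 : Dfn ∅ M fun v : Fin 2 → ZFSet.{0} =>
        v 0 ∈ v 1 ∧ ∀ y ∈ v 1, y = v 0 ∨ v 0 ∈ y := by
      apply Dfn.and (Dfn.mem (DfnF.proj 0) (DfnF.proj 1))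
      apply hB.ball (DfnF.proj 1)
      exact (Dfn.eq (DfnF.proj 0) (DfnF.proj 1)).or (Dfn.mem (DfnF.proj 1) (DfnF.proj 0))
    refine hul_of_unique hM (R := fun x e => x ∈ e ∧ ∀ y ∈ e, y = x ∨ x ∈ y) h1 heM
      (hM.trans heM hμ) fun y _ => ⟨fun h => ?_, fun h => h ▸ ⟨hμ, hmin⟩⟩
    rcases hmin y h.1 with h2 | h2
    · exact h2
    · rcases h.2 μ hμ with h3 | h3
      · exact h3.symm
      · exact absurd h2 (ZFSet.mem_asymm h3)
  have hs : DfnF ∅ M fun v : Fin 2 → ZFSet.{0} => ZFSet.sep (fun y => y ≠ v 1) (v 0) :=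
    hM.sep' (Q := fun y v => y ≠ v 1) (DfnF.proj 0) (Dfn.eq (DfnF.proj 0) (DfnF.proj 2)).not
  set e' := ZFSet.sep (fun y => y ≠ μ) e with he'
  have he'e : e' ∈ Hul M e := hul_op2 (f := fun x m => ZFSet.sep (fun y => y ≠ m) x) hs hul_self hμe
  have he'o : FO e' := he.sub fun y hy => (ZFSet.mem_sep.1 hy).1
  have hpr : e' ∈ pr e := by
    refine mem_pr.2 ⟨he'o, he, μ, hμ, fun h => (ZFSet.mem_sep.1 h).2 rfl, fun κ hκ => ?_⟩
    rw [he', ZFSet.mem_sep]
    exact ⟨fun h => h.1, fun h => ⟨h, fun h1 => ZFSet.mem_irrefl _ (h1 ▸ hκ)⟩⟩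
  have h1 : ZFSet.sep (fun y => y ≠ μ) d ∈ Hul M e := by
    refine hul_trans (ih e' hpr he'o (hul_mem heM he'e) _ fun y hy => ?_) he'e
    rw [ZFSet.mem_sep] at hy ⊢
    exact ⟨hd hy.1, hy.2⟩
  by_cases hμd : μ ∈ d
  · have h2 : d = insert μ (ZFSet.sep (fun y => y ≠ μ) d) := by
      ext y
      rw [ZFSet.mem_insert_iff, ZFSet.mem_sep]
      constructor
      · intro hy
        by_cases h3 : y = μ
        · exact Or.inl h3
        · exact Or.inr ⟨hy, h3⟩
      · rintro (rfl | h3)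
        · exact hμd
        · exact h3.1
    rw [h2]
    exact hul_insert hM hμe h1
  · have h2 : d = ZFSet.sep (fun y => y ≠ μ) d := by
      ext y
      rw [ZFSet.mem_sep]
      exact ⟨fun hy => ⟨hy, fun h3 => hμd (h3 ▸ hy)⟩, fun h => h.1⟩
    rw [h2]
    exact h1

end

end Pool.Agent.R587
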