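import Pool.Agent.R587.Cmp

/-!
# Categoricity in `L[U]`
-/

set_option autoImplicit false

namespace Pool.Agent.R587

open Pool.Agent.W868 hiding Models
open ZFSet (pair)
open Cardinal

/-! ### The small classes -/

theorem kap_mem_kap {c d : Cardinal.{0}} (h : c < d) : kap c ∈ kap d := by
  rw [kap, kap, Ordinal.toZFSet_mem_toZFSet_iff]
  exact Cardinal.ord_lt_ord.2 h

theorem setg_LU {U : ZFSet.{0}} (hU : NMs U)
    (hpm : ∀ ν : Cardinal.{0}, ℵ₀ ≤ ν → U ∈ HH ν → Pm (HH ν) U ∧ Cod (HH ν) U) :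
    ∀ c : Cardinal.{0}, ℵ₀ ≤ c → kap c ∈ (ZFSet.sUnion U : ZFSet.{0}) →
      (∃ lt, Setg c (HH c) lt) ∧
      ∃ N0 : ZFSet.{0}, (∀ x, x ∈ N0 ↔ x ∈ HH c) ∧ N0.card ≤ Order.succ c := by
  intro c
  induction c using WellFoundedLT.induction with
  | _ c ih =>
  intro hc hcU
  have hM := full_HH hc
  have hpow : ∀ γ ∈ kap c, (ZFSet.powerset (ZFSet.prod γ γ) : ZFSet.{0}) ∈ HH c := by
    intro γ hγ
    have hkM : kap c ∈ HH c := hh_of_trans hM (fun y hy z hz => ord_kap.mem_trans hz hy)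
      card_kap.le
    have hγM : γ ∈ HH c := hM.trans hkM hγ
    have hγo : γ.IsOrdinal := ord_kap.mem hγ
    have hd : γ.card < c := card_lt_of_mem_kap hγ
    have hsub : ∀ y ∈ (ZFSet.powerset (ZFSet.prod γ γ) : ZFSet.{0}), y ∈ HH c := fun y hy =>
      hM.sub (hM.prod_mem hγM hγM) (ZFSet.mem_powerset.1 hy)
    refine (hM.iff _).2 ⟨hsub, ?_⟩
    by_cases h1 : ℵ₀ ≤ γ.card
    · obtain ⟨-, N0, h2, h3⟩ := ih _ hd h1 (hU.ord.mem_trans (kap_mem_kap hd) hcU)
      have hM' := full_HH h1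
      have h4 : γ ∈ HH γ.card := hh_of_trans hM' (fun y hy z hz => hγo.mem_trans hz hy) le_rfl
      have h5 : (ZFSet.powerset (ZFSet.prod γ γ) : ZFSet.{0}) ⊆ N0 := fun y hy =>
        (h2 y).2 (hM'.sub (hM'.prod_mem h4 h4) (ZFSet.mem_powerset.1 hy))
      exact (ZFSet.card_mono h5).trans (h3.trans (Order.succ_le_of_lt hd))
    · push Not at h1
      rw [ZFSet.card_powerset, card_prod]
      exact (Cardinal.power_lt_aleph0 (Cardinal.nat_lt_aleph0 2)
        (Cardinal.mul_lt_aleph0 h1 h1)).le.trans hc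
  obtain ⟨lt, h⟩ := (ifc_of hU hpm hc hcU hpow).setg
  exact ⟨⟨lt, h⟩, exists_N0_of_setg h⟩

/-! ### Normal measures -/

namespace IsNormalMeasure

variable {κ : Cardinal.{0}} {U : ZFSet.{0}} (h : IsNormalMeasure κ U)

include h

theorem sUnion_eq : (ZFSet.sUnion U : ZFSet.{0}) = kap κ := by
  ext x
  rw [ZFSet.mem_sUnion]
  constructor
  · rintro ⟨A, hA, hx⟩
    exact h.sub A hA hx
  · intro hx
    exact ⟨_, h.univ, hx⟩

theorem inter {A B : ZFSet.{0}} (hA : A ∈ U) (hB : B ∈ U) : A ∩ B ∈ U := by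
  have h1 := h.complete Bool (fun b => if b then A else B) (by
    have h2 : #Bool < ℵ₀ := Cardinal.lt_aleph0_of_finite Bool
    exact h2.trans h.uncountable) (by
    intro b
    cases b
    · exact hB
    · exact hA)
  refine h.up _ h1 _ (fun y hy => h.sub A hA (ZFSet.mem_inter.1 hy).1) fun y hy => ?_
  obtain ⟨-, h2⟩ := ZFSet.mem_sep.1 hy
  exact ZFSet.mem_inter.2 ⟨h2 true, h2 false⟩

theorem inh {A : ZFSet.{0}} (hA : A ∈ U) : ∃ x, x ∈ A := by
  by_contra hcon
  have h1 : A = ∅ := (ZFSet.eq_empty _).2 fun y hy => hcon ⟨y, hy⟩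
  exact h.empty (h1 ▸ hA)

theorem kap_lt {α : ZFSet.{0}} (hα : α ∈ kap κ) : (sc α).card < κ := by
  have h1 : α.card < κ := card_lt_of_mem_kap hα
  have h2 : (sc α).card ≤ α.card + 1 := ZFSet.card_insert_le
  have h3 := h.uncountable.le
  exact lt_of_le_of_lt h2 (Cardinal.add_lt_of_lt h3 h1 (Cardinal.one_lt_aleph0.trans_le h3))

theorem nms : NMs U := by
  have hS := h.sUnion_eq
  have hko : (kap κ).IsOrdinal := ord_kap
  refine ⟨hS ▸ hko, fun A hA B hB => h.inter hA hB, h.empty, fun A hA => ?_, fun α hα => ?_,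
    fun F hF => ?_⟩
  · rw [hS] at hA ⊢
    exact h.ultra A hA
  · rw [hS] at hα ⊢
    -- the final segments
    let I : Type := Shrink.{0} {x : ZFSet.{0} // x ∈ sc α}
    let f : I → ZFSet.{0} := fun i => ((equivShrink {x : ZFSet.{0} // x ∈ sc α}).symm i).1
    have hf : ∀ i, f i ∈ sc α := fun i =>
      ((equivShrink {x : ZFSet.{0} // x ∈ sc α}).symm i).2
    have hαo := hko.mem hα
    have h1 := h.complete I (fun i => kap κ \ {f i}) (h.kap_lt hα) fun i => by
      have h2 : f i ∈ kap κ := by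
        rcases ZFSet.mem_insert_iff.1 (hf i) with h3 | h3
        · rw [h3]
          exact hα
        · exact hko.mem_trans h3 hα
      rcases h.ultra {f i} (fun y hy => by
        rw [ZFSet.mem_singleton] at hy
        rw [hy]
        exact h2) with h3 | h3
      · exact absurd h3 (h.nonprincipal _)
      · exact h3
    refine h.up _ h1 _ (fun y hy => (ZFSet.mem_sep.1 hy).1) fun η hη => ?_
    obtain ⟨h2, h3⟩ := ZFSet.mem_sep.1 hη
    refine ZFSet.mem_sep.2 ⟨h2, ?_⟩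
    by_contra h4
    have h5 : η ∈ sc α := by
      rcases (hko.mem h2).mem_trichotomous hαo with h6 | h6 | h6
      · exact ZFSet.mem_insert_of_mem _ h6
      · rw [h6]
        exact ZFSet.mem_insert _ _
      · exact absurd h6 h4
    have h6 := h3 (equivShrink {x : ZFSet.{0} // x ∈ sc α} ⟨η, h5⟩)
    rw [ZFSet.mem_sdiff] at h6
    refine h6.2 (ZFSet.mem_singleton.2 ?_)
    simp [f]
  · rw [hS] at hF ⊢
    classical
    rcases h.ultra (ZFSet.sep (fun η => ∀ ξ ∈ η, pair ξ η ∈ F) (kap κ))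
      (fun y hy => (ZFSet.mem_sep.1 hy).1) with h1 | h1
    · exact h1
    exfalso
    let f : ZFSet.{0} → ZFSet.{0} := fun η =>
      if hη : ∃ ξ ∈ η, pair ξ η ∉ F then hη.choose else η
    have hf : ∀ η ∈ kap κ \ ZFSet.sep (fun η => ∀ ξ ∈ η, pair ξ η ∈ F) (kap κ),
        η ∈ kap κ ∧ f η ∈ η ∧ pair (f η) η ∉ F := by
      intro η hη
      rw [ZFSet.mem_sdiff, ZFSet.mem_sep, not_and] at hη
      have h2 := hη.2 hη.1
      push Not at h2
      have h3 : f η = h2.choose := dif_pos h2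
      rw [h3]
      exact ⟨hη.1, h2.choose_spec.1, h2.choose_spec.2⟩
    obtain ⟨γ, hγ⟩ := h.normal f (h.up _ h1 _ (fun y hy => (ZFSet.mem_sep.1 hy).1) fun η hη => by
      obtain ⟨h2, h3, -⟩ := hf η hη
      exact ZFSet.mem_sep.2 ⟨h2, h3⟩)
    have h2 := h.inter h1 hγ
    obtain ⟨η, hη⟩ := h.inh h2
    rw [ZFSet.mem_inter, ZFSet.mem_sep] at hη
    obtain ⟨h3, h4, h5⟩ := hη
    have h6 : γ ∈ kap κ := by
      rw [← h5]
      exact hko.mem_trans (hf η h3).2.1 h4
    obtain ⟨ζ, hζ⟩ := h.inh (h.inter h2 (hF γ h6))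
    rw [ZFSet.mem_inter, ZFSet.mem_inter, ZFSet.mem_sep, ZFSet.mem_sep] at hζ
    obtain ⟨⟨h7, h8, h9⟩, -, h10⟩ := hζ
    have h11 := (hf ζ h7).2.2
    rw [h9] at h11
    exact h11 h10

end IsNormalMeasure

/-! ### Categoricity -/

/-- Categoricity, from the properties of the classes of hereditarily small sets. -/
theorem categorical_of_pm {κ : Cardinal.{0}} {U : ZFSet.{0}} (hU : IsNormalMeasure κ U)
    (hpm : ∀ ν : Cardinal.{0}, ℵ₀ ≤ ν → U ∈ HH ν → Pm (HH ν) U ∧ Cod (HH ν) U)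
    {m : ℕ} {ar : Fin m → ℕ} {T : Set (SOF ar)} (hc : CompleteT T) (hr : RecAx T)
    {A : Struc ar} (hA : ModelsT A T) (hlt : #A.Dom < κ) : CategoricalT T := by
  by_cases hAf : Finite A.Dom
  · intro B B' hB hB'
    obtain ⟨e, he⟩ := isom_of_finite hc hA hB hAf
    obtain ⟨e', he'⟩ := isom_of_finite hc hA hB' hAf
    refine ⟨e.symm.trans e', fun r x => ?_⟩
    have h1 := he r fun j => e.symm (x j)
    have h2 := he' r fun j => e.symm (x j)
    simp only [Equiv.apply_symm_apply] at h1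
    rw [← h1, h2]
    rfl
  · refine categorical_of hc hr fun c hω hmin => ?_
    have hAi : ℵ₀ ≤ #A.Dom := Cardinal.infinite_iff.1 (not_finite_iff_infinite.1 hAf)
    have h1 : c < κ := (hmin A hA hAi).trans_lt hlt
    have h2 : kap c ∈ (ZFSet.sUnion U : ZFSet.{0}) := by
      rw [hU.sUnion_eq]
      exact kap_mem_kap h1
    exact setg_LU hU.nms hpm c hω h2

end Pool.Agent.R587
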