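import Pool.Agent.R587.Lvl
import Pool.Agent.R587.Ifc

/-!
# The least codes in a level of the hierarchy
-/

set_option autoImplicit false

namespace Pool.Agent.R587

open Pool.Agent.W868 hiding Models
open ZFSet (pair)
open Cardinal

theorem fo_mem {R : Set ZFSet.{0}} (h0 : ∅ ∈ R)
    (hins : ∀ x ∈ R, ∀ y ∈ R, (insert x y : ZFSet.{0}) ∈ R) {e : ZFSet.{0}} (he : FO e)
    (h : ∀ x ∈ e, x ∈ R) : e ∈ R := by
  obtain ⟨n, hn⟩ := fo_inc he
  have key : ∀ {n : ℕ} {s : ZFSet.{0}}, Inc {y | y ∈ e} n s → s ∈ R := by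
    intro n s hs
    induction hs with
    | zero => exact h0
    | succ _ hc _ ih => exact hins _ (h _ hc) _ ih
  exact key hn

/-- Codes in the hierarchy relative to the intersection with a level. -/
theorem cdU_level {U N ρ x e n : ZFSet.{0}} (hρ : ρ.IsOrdinal) (hN : N = Lv U ρ)
    (he : ∀ y ∈ e, y ∈ ρ) : CdU (U ∩ N) x e n ↔ CdU U x e n := by
  have h1 : ∀ δ ∈ e, Lv (U ∩ N) δ = Lv U δ := by
    intro δ hδ
    refine (Lv_congr (A := U) (A' := U ∩ N) fun u hu => ?_).symm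
    rw [ZFSet.mem_inter]
    refine (and_iff_left ?_).symm
    rw [hN]
    exact Lv_subset (he δ hδ) hu
  have h2 : ∀ δ ∈ e, (U ∩ N) ∩ Lv (U ∩ N) δ = U ∩ Lv U δ := by
    intro δ hδ
    rw [h1 δ hδ]
    ext y
    rw [ZFSet.mem_inter, ZFSet.mem_inter, ZFSet.mem_inter]
    constructor
    · rintro ⟨⟨h3, -⟩, h4⟩
      exact ⟨h3, h4⟩
    · rintro ⟨h3, h4⟩
      refine ⟨⟨h3, ?_⟩, h4⟩
      rw [hN]
      exact Lv_subset (he δ hδ) h4
  unfold CdU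
  refine exists_congr fun δ => and_congr_right fun hδ => exists_congr fun ζ =>
    and_congr_right fun hζ => ?_
  rw [h1 δ hδ, h2 ζ hζ]

theorem clx_of_not_sub {ρ e e' : ZFSet.{0}} (hρ : ρ.IsOrdinal) (he : ∀ y ∈ e, y ∈ ρ)
    (he' : FO e') (h : ¬ ∀ y ∈ e', y ∈ ρ) : clx e e' := by
  push Not at h
  obtain ⟨μ, hμ, hμρ⟩ := h
  obtain ⟨ν, hν, h1⟩ := he'.exists_max ⟨μ, hμ⟩
  have h2 : ν ∉ ρ := by
    intro h2
    rcases h1 μ hμ with h3 | h3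
    · exact hμρ (h3 ▸ h2)
    · exact hμρ (hρ.mem_trans h3 h2)
  refine ⟨ν, hν, fun h3 => h2 (he ν h3), fun μ' hμ' => ?_⟩
  constructor
  · intro h3
    exact absurd (hρ.mem_trans hμ' (he μ' h3)) h2
  · intro h3
    rcases h1 μ' h3 with h4 | h4
    · exact absurd (h4 ▸ hμ') (ZFSet.mem_irrefl _)
    · exact absurd hμ' (ZFSet.mem_asymm h4)

theorem clt_asymm3 {e n e' n' : ZFSet.{0}} (he : FO e) (he' : FO e') (h : clt e n e' n')
    (h' : clt e' n' e n) : False := by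
  rcases h with h1 | ⟨rfl, h1⟩ <;> rcases h' with h2 | ⟨h2, h3⟩
  · exact clx_asymm he he' h1 h2
  · subst h2
    exact clx_irrefl h1
  · exact clx_irrefl h2
  · exact ZFSet.mem_asymm h1 h3

/-- What is used about a level. -/
structure LvN (U ρ : ZFSet.{0}) (N : ZFSet.{0}) : Prop where
  ord : ρ.IsOrdinal
  eq : N = Lv U ρ
  onn : ∀ y ∈ ρ, y ∈ N
  zero : ∅ ∈ N
  ins : ∀ x ∈ N, ∀ y ∈ N, (insert x y : ZFSet.{0}) ∈ N

namespace LvN

variable {U ρ N : ZFSet.{0}} (h : LvN U ρ N)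

include h

theorem sub_of_mem {e : ZFSet.{0}} (he : FO e) (heN : e ∈ N) : ∀ y ∈ e, y ∈ ρ := by
  intro y hy
  have h1 : y ∈ N := by
    rw [h.eq] at heN ⊢
    exact Lv_trans ρ e heN y hy
  rw [h.eq] at h1
  exact ord_Lv (he.1 y hy) h.ord h1

theorem mem_of_sub {e : ZFSet.{0}} (he : FO e) (hs : ∀ y ∈ e, y ∈ ρ) : e ∈ N :=
  fo_mem (R := {x | x ∈ N}) h.zero h.ins he fun x hx => h.onn x (hs x hx)

theorem cd {x e n : ZFSet.{0}} (he : FO e) (heN : e ∈ N) : CdU (U ∩ N) x e n ↔ CdU U x e n :=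
  cdU_level h.ord h.eq (h.sub_of_mem he heN)

/-- The least code in the level is the least code. -/
theorem lc_univ {x e : ZFSet.{0}} {n : ℕ} (hl : LC {z | z ∈ N} (U ∩ N) x e n) :
    LC Set.univ U x e n := by
  obtain ⟨h1, h2, h3, h4⟩ := hl
  refine ⟨trivial, h2, (h.cd h2 h1).1 h3, fun e' _ he' n' h5 => ?_⟩
  by_cases h6 : ∀ y ∈ e', y ∈ ρ
  · have h7 := h.mem_of_sub he' h6
    exact h4 e' h7 he' n' ((h.cd he' h7).2 h5)
  · exact Or.inl (Or.inl (clx_of_not_sub h.ord (h.sub_of_mem h2 h1) he' h6))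

/-- Codes that are smaller than codes in the level are in the level. -/
theorem mem_of_clt {e n e' n' : ZFSet.{0}} (he : FO e) (he' : FO e') (heN : e' ∈ N)
    (hlt : clt e n e' n' ∨ (e = e' ∧ n = n')) : ∀ y ∈ e, y ∈ ρ := by
  by_contra hcon
  have h1 := clx_of_not_sub h.ord (h.sub_of_mem he' heN) he hcon
  rcases hlt with (h2 | ⟨rfl, -⟩) | ⟨rfl, -⟩
  · exact clx_asymm he he' h2 h1
  · exact clx_irrefl h1
  · exact clx_irrefl h1

theorem lc_level {x e e0 : ZFSet.{0}} {n n0 : ℕ} (hl : LC Set.univ U x e n)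
    (h0 : LC {z | z ∈ N} (U ∩ N) x e0 n0) : e = e0 ∧ n = n0 := by
  obtain ⟨-, h2, h3, h4⟩ := hl
  obtain ⟨-, h2', h3', h4'⟩ := h.lc_univ h0
  rcases h4 e0 trivial h2' n0 h3' with h5 | h5
  · rcases h4' e trivial h2 n h3 with h6 | h6
    · exact absurd (clt_asymm3 h2 h2' h5 h6) id
    · exact ⟨h6.1.symm, h6.2.symm⟩
  · exact h5

/-- The order in the level. -/
theorem lt_iff {x y e0 e1 : ZFSet.{0}} {n0 n1 : ℕ} (h0 : LC {z | z ∈ N} (U ∩ N) x e0 n0)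
    (h1 : LC {z | z ∈ N} (U ∩ N) y e1 n1) :
    ltW {z | z ∈ N} (U ∩ N) x y ↔ ltW Set.univ U x y := by
  constructor
  · rintro ⟨e, n, e', n', h2, h3, h4⟩
    exact ⟨e, n, e', n', h.lc_univ h2, h.lc_univ h3, h4⟩
  · rintro ⟨e, n, e', n', h2, h3, h4⟩
    obtain ⟨rfl, rfl⟩ := h.lc_level h2 h0
    obtain ⟨rfl, rfl⟩ := h.lc_level h3 h1
    exact ⟨e, n, e', n', h0, h1, h4⟩

/-- The level is an initial segment. -/
theorem lt_mem {x y e1 : ZFSet.{0}} {n1 : ℕ} (h1 : LC {z | z ∈ N} (U ∩ N) y e1 n1)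
    (hlt : ltW Set.univ U x y) : x ∈ N := by
  obtain ⟨e, n, e', n', h2, h3, h4⟩ := hlt
  obtain ⟨rfl, rfl⟩ := h.lc_level h3 h1
  have h5 := h.mem_of_clt h2.2.1 h1.2.1 h1.1 (Or.inl h4)
  obtain ⟨δ, hδ, ζ, -, -, -, -, -, -, h6, -⟩ := h2.2.2.1
  rw [h.eq]
  exact Lv_subset (h5 δ hδ) h6

end LvN

theorem LI.lvN {U : ZFSet.{0}} {c : Cardinal.{0}} {Q W R : ZFSet.{0}}
    {σ g : ZFSet.{0} → ZFSet.{0}} (h : LI U c Q W R σ g) : LvN U (onn R) R :=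
  ⟨isOrdinal_onn h.rtrans, h.lev, fun _ hy => (mem_onn.1 hy).1, h.gen.zero, h.gen.insR⟩

end Pool.Agent.R587
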