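import Pool.Agent.R587.VLDefs
import Pool.Agent.W868.Itr

/-!
# The constructible hierarchy is contained in every inner model
-/

set_option autoImplicit false
set_option linter.unreachableTactic false
set_option linter.unusedTactic false
set_option linter.unusedVariables false

namespace Pool.Agent.R587.LM

open Pool.Agent.W868
open ZFSet (pair)

/-! ### Iterations -/

theorem itr_ind {T : ZFSet.{0} → ZFSet.{0}} {a : ZFSet.{0}} {P : ZFSet.{0} → Prop}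
    (h0 : ∀ y ∈ a, P y) (h1 : ∀ S, (∀ y ∈ S, P y) → ∀ y ∈ T S, P y) (z : ZFSet.{0}) :
    ∀ y ∈ itr T a z, P y := by
  induction z using ZFSet.inductionOn with
  | _ z ih =>
    intro y hy
    rcases mem_itr.1 hy with h | ⟨u, hu, h⟩
    · exact h0 y h
    · exact h1 _ (ih u hu) y h

/-- The operation uses finitely many elements. -/
def Fin' (T : ZFSet.{0} → ZFSet.{0}) : Prop :=
  ∀ (f : ℕ → ZFSet.{0}) (S : ZFSet.{0}), (∀ k l, k ≤ l → f k ⊆ f l) → (∀ y ∈ S, ∃ k, y ∈ f k) →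
    ∀ y ∈ T S, ∃ k, y ∈ T (f k)

theorem itr_closed {T : ZFSet.{0} → ZFSet.{0}} {a : ZFSet.{0}} (hT : Fin' T) :
    T (itr T a ZFSet.omega) ⊆ itr T a ZFSet.omega := by
  intro y hy
  obtain ⟨k, hk⟩ := hT (fun k => itr T a (nat k)) _ (fun k l h => itr_mono (nat_subset h))
    (fun y hy => mem_itr_omega hy) y hy
  exact itr_mono nat_subset_omega (itr_step (z := nat (k + 1)) (ZFSet.mem_insert _ _) hk)

/-- Uniform definability of a closure. -/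
theorem dfn_clo {M : Set ZFSet.{0}} (hM : IsZF M) {a : ZFSet.{0} → ZFSet.{0}}
    {T : ZFSet.{0} → ZFSet.{0} → ZFSet.{0}}
    (ha : DfnF M M fun w : Fin 1 → ZFSet.{0} => a (w 0))
    (hT : DfnF M M fun w : Fin 2 → ZFSet.{0} => T (w 0) (w 1))
    (hfin : ∀ X, Fin' (T X)) (hmono : ∀ X S S', S ⊆ S' → T X S ⊆ T X S') :
    DfnF M M fun w : Fin 1 → ZFSet.{0} => itr (T (w 0)) (a (w 0)) ZFSet.omega := by
  have hB := hM.base
  refine DfnF.of_unique (R := fun y v => a (v 0) ⊆ y ∧ T (v 0) y ⊆ y ∧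
    ∀ z ∈ M, a (v 0) ⊆ z → T (v 0) z ⊆ z → y ⊆ z) ?_ ?_
  · apply Dfn.and
    · apply hB.subset'
      · exact DfnF.comp1 ha (DfnF.proj 1)
      · exact DfnF.proj 0
    · apply Dfn.and
      · apply hB.subset'
        · exact DfnF.comp2 hT (DfnF.proj 1) (DfnF.proj 0)
        · exact DfnF.proj 0
      · apply Dfn.all
        apply Dfn.imp
        · apply hB.subset'
          · exact DfnF.comp1 ha (DfnF.proj 2)
          · exact DfnF.proj 0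
        · apply Dfn.imp
          · apply hB.subset'
            · exact DfnF.comp2 hT (DfnF.proj 2) (DfnF.proj 0)
            · exact DfnF.proj 0
          · apply hB.subset'
            · exact DfnF.proj 1
            · exact DfnF.proj 0
  · intro v hv
    have h1 : itr (T (v 0)) (a (v 0)) ZFSet.omega ∈ M := by
      refine itr_mem_M hM (ha.1 v hv) hM.infinity ?_
      exact DfnF.comp2 hT (DfnF.const (hv 0)) (DfnF.proj 0)
    have h2 := itr_closed (a := a (v 0)) (hfin (v 0))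
    have h3 : ∀ z, a (v 0) ⊆ z → T (v 0) z ⊆ z → itr (T (v 0)) (a (v 0)) ZFSet.omega ⊆ z := by
      intro z h4 h5
      exact itr_ind (P := fun y => y ∈ z) (fun y hy => h4 hy)
        (fun S hS y hy => h5 (hmono _ _ _ (fun y hy => hS y hy) hy)) _
    refine ⟨h1, fun y hy => ?_⟩
    constructor
    · rintro ⟨h4, h5, h6⟩
      ext x
      exact ⟨fun hx => h6 _ h1 itr_base h2 hx, fun hx => h3 y h4 h5 hx⟩
    · rintro rfl
      exact ⟨itr_base, h2, fun z _ h4 h5 => h3 z h4 h5⟩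

/-! ### Terms -/

/-- The set of the tuples `(x, p)` with their values, where the values of `p` are given. -/
noncomputable def plus (X τ : ZFSet.{0}) : ZFSet.{0} :=
  im (fun t => pair (pair (fs t) (fs (sn t))) (sn (sn t))) (ZFSet.prod X τ)

noncomputable def hd (X A : ZFSet.{0}) : ZFSet.{0} := im (fun t => pair t (fs t)) (ZFSet.prod X A)

noncomputable def T1 (X S : ZFSet.{0}) : ZFSet.{0} :=
  im (fun q => pair (ZFSet.prod X (fs q)) (plus X (sn q))) S ∪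
    im (fun q => pair (ZFSet.prod X (fs q)) (hd X (fs q))) S

noncomputable def a1 (X : ZFSet.{0}) : ZFSet.{0} :=
  insert (pair {∅} ∅) (im (fun a => pair {∅} {pair ∅ a}) X)

noncomputable def TT (X : ZFSet.{0}) : ZFSet.{0} := itr (T1 X) (a1 X) ZFSet.omega

/-- The graph of a term. -/
noncomputable def tg (X : ZFSet.{0}) (n : ℕ) (s : Fin n ⊕ ZFSet.{0}) : ZFSet.{0} :=
  im (fun p => pair p (Sum.elim (ut n p) id s)) (pw X n)

theorem mem_tg {X : ZFSet.{0}} {n : ℕ} {s : Fin n ⊕ ZFSet.{0}} {q : ZFSet.{0}} :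
    q ∈ tg X n s ↔ ∃ v : Fin n → ZFSet.{0}, (∀ i, v i ∈ X) ∧
      q = pair (tup v) (Sum.elim v id s) := by
  rw [tg, mem_im]
  constructor
  · rintro ⟨p, hp, rfl⟩
    obtain ⟨v, hv, rfl⟩ := mem_pw.1 hp
    exact ⟨v, hv, by rw [ut_tup]⟩
  · rintro ⟨v, hv, rfl⟩
    exact ⟨tup v, mem_pw.2 ⟨v, hv, rfl⟩, by rw [ut_tup]⟩

/-- Shift of a term. -/
def sh {n : ℕ} (s : Fin n ⊕ ZFSet.{0}) : Fin (n + 1) ⊕ ZFSet.{0} := Sum.map Fin.succ id s

theorem sh_elim {n : ℕ} (s : Fin n ⊕ ZFSet.{0}) (v : Fin (n + 1) → ZFSet.{0}) :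
    Sum.elim v id (sh s) = Sum.elim (Fin.tail v) id s := by
  cases s <;> rfl

theorem plus_tg (X : ZFSet.{0}) (n : ℕ) (s : Fin n ⊕ ZFSet.{0}) :
    plus X (tg X n s) = tg X (n + 1) (sh s) := by
  ext q
  rw [plus, mem_im, mem_tg]
  constructor
  · rintro ⟨t, ht, rfl⟩
    obtain ⟨x, hx, b, hb, rfl⟩ := ZFSet.mem_prod.1 ht
    obtain ⟨v, hv, rfl⟩ := mem_tg.1 hb
    refine ⟨Fin.cons x v, fun i => ?_, ?_⟩
    · refine Fin.cases ?_ (fun i => ?_) i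
      · exact hx
      · exact hv i
    · rw [sh_elim, Fin.tail_cons, tup_cons]
      simp
  · rintro ⟨v, hv, rfl⟩
    refine ⟨pair (v 0) (pair (tup (Fin.tail v)) (Sum.elim (Fin.tail v) id s)),
      ZFSet.pair_mem_prod.2 ⟨hv 0, mem_tg.2 ⟨_, fun i => hv _, rfl⟩⟩, ?_⟩
    rw [sh_elim]
    simp [tup]

theorem hd_pw (X : ZFSet.{0}) (n : ℕ) : hd X (pw X n) = tg X (n + 1) (Sum.inl 0) := by
  ext q
  rw [hd, mem_im, mem_tg]
  constructor
  · rintro ⟨t, ht, rfl⟩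
    obtain ⟨v, hv, rfl⟩ := (mem_pw (X := X) (n := n + 1)).1 ht
    exact ⟨v, hv, by simp [tup]⟩
  · rintro ⟨v, hv, rfl⟩
    exact ⟨tup v, (mem_pw (X := X) (n := n + 1)).2 ⟨v, hv, rfl⟩, by simp [tup]⟩

theorem plus_empty (X : ZFSet.{0}) : plus X ∅ = ∅ := by
  rw [ZFSet.eq_empty]
  intro q hq
  rw [plus, mem_im] at hq
  obtain ⟨t, ht, -⟩ := hq
  obtain ⟨x, hx, b, hb, rfl⟩ := ZFSet.mem_prod.1 ht
  exact ZFSet.notMem_empty _ hb

theorem fin_T1 (X : ZFSet.{0}) : Fin' (T1 X) := by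
  intro f S hf hS y hy
  rw [T1, ZFSet.mem_union, mem_im, mem_im] at hy
  rcases hy with ⟨q, hq, rfl⟩ | ⟨q, hq, rfl⟩
  · obtain ⟨k, hk⟩ := hS q hq
    exact ⟨k, by rw [T1, ZFSet.mem_union, mem_im]; exact Or.inl ⟨q, hk, rfl⟩⟩
  · obtain ⟨k, hk⟩ := hS q hq
    exact ⟨k, by rw [T1, ZFSet.mem_union, mem_im, mem_im]; exact Or.inr ⟨q, hk, rfl⟩⟩

theorem im_mono {h : ZFSet.{0} → ZFSet.{0}} {S S' : ZFSet.{0}} (hS : S ⊆ S') :
    im h S ⊆ im h S' := by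
  intro y hy
  obtain ⟨q, hq, rfl⟩ := mem_im.1 hy
  exact mem_im.2 ⟨q, hS hq, rfl⟩

theorem union_mono {A B A' B' : ZFSet.{0}} (h : A ⊆ A') (h' : B ⊆ B') : A ∪ B ⊆ A' ∪ B' := by
  intro y hy
  rcases ZFSet.mem_union.1 hy with h1 | h1
  · exact ZFSet.mem_union.2 (Or.inl (h h1))
  · exact ZFSet.mem_union.2 (Or.inr (h' h1))

theorem T1_mono (X S S' : ZFSet.{0}) (h : S ⊆ S') : T1 X S ⊆ T1 X S' :=
  union_mono (im_mono h) (im_mono h)

theorem mem_TT {X y : ZFSet.{0}} : y ∈ TT X ↔ ∃ n, y = pair (pw X n) ∅ ∨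
    ∃ s : Fin n ⊕ ZFSet.{0}, TOver {x | x ∈ X} s ∧ y = pair (pw X n) (tg X n s) := by
  constructor
  · refine itr_ind (P := fun y => ∃ n, y = pair (pw X n) ∅ ∨
      ∃ s : Fin n ⊕ ZFSet.{0}, TOver {x | x ∈ X} s ∧ y = pair (pw X n) (tg X n s)) ?_ ?_ _ y
    · intro y hy
      rw [a1, ZFSet.mem_insert_iff, mem_im] at hy
      rcases hy with rfl | ⟨a, ha, rfl⟩
      · exact ⟨0, Or.inl rfl⟩
      · refine ⟨0, Or.inr ⟨Sum.inr a, tOver_inr.2 ha, ?_⟩⟩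
        have h1 : tg X 0 (Sum.inr a) = {pair ∅ a} := by
          ext q
          rw [mem_tg, ZFSet.mem_singleton]
          constructor
          · rintro ⟨v, -, rfl⟩
            rfl
          · rintro rfl
            exact ⟨Fin.elim0, fun i => i.elim0, rfl⟩
        rw [h1]
        rfl
    · intro S hS y hy
      rw [T1, ZFSet.mem_union, mem_im, mem_im] at hy
      rcases hy with ⟨q, hq, rfl⟩ | ⟨q, hq, rfl⟩
      · obtain ⟨n, rfl | ⟨s, hs, rfl⟩⟩ := hS q hq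
        · refine ⟨n + 1, Or.inl ?_⟩
          rw [fs_pair, sn_pair, plus_empty]
          rfl
        · refine ⟨n + 1, Or.inr ⟨sh s, ?_, ?_⟩⟩
          · cases s with
            | inl i => exact TOver.inl _
            | inr a => exact tOver_inr.2 (tOver_inr.1 hs)
          · rw [fs_pair, sn_pair, plus_tg]
            rfl
      · obtain ⟨n, h⟩ := hS q hq
        have h1 : fs q = pw X n := by
          rcases h with rfl | ⟨s, hs, rfl⟩ <;> simp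
        refine ⟨n + 1, Or.inr ⟨Sum.inl 0, TOver.inl _, ?_⟩⟩
        rw [h1, hd_pw]
        rfl
  · have hc := itr_closed (a := a1 X) (fin_T1 X)
    have h0 : ∀ n, pair (pw X n) ∅ ∈ TT X := by
      intro n
      induction n with
      | zero => exact itr_base (ZFSet.mem_insert _ _)
      | succ n ih =>
        apply hc
        rw [T1, ZFSet.mem_union, mem_im]
        refine Or.inl ⟨_, ih, ?_⟩
        rw [fs_pair, sn_pair, plus_empty]
        rfl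
    rintro ⟨n, rfl | ⟨s, hs, rfl⟩⟩
    · exact h0 n
    · induction n with
      | zero =>
        cases s with
        | inl i => exact i.elim0
        | inr a =>
          apply itr_base
          rw [a1, ZFSet.mem_insert_iff, mem_im]
          refine Or.inr ⟨a, tOver_inr.1 hs, ?_⟩
          have h1 : tg X 0 (Sum.inr a) = {pair ∅ a} := by
            ext q
            rw [mem_tg, ZFSet.mem_singleton]
            constructor
            · rintro ⟨v, -, rfl⟩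
              rfl
            · rintro rfl
              exact ⟨Fin.elim0, fun i => i.elim0, rfl⟩
          rw [h1]
          rfl
      | succ n ih =>
        apply hc
        rw [T1, ZFSet.mem_union, mem_im, mem_im]
        cases s with
        | inl i =>
          refine Fin.cases ?_ (fun i => ?_) i
          · refine Or.inr ⟨_, h0 n, ?_⟩
            rw [fs_pair, hd_pw]
            rfl
          · refine Or.inl ⟨_, ih (Sum.inl i) (TOver.inl _), ?_⟩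
            rw [fs_pair, sn_pair, plus_tg]
            rfl
        | inr a =>
          refine Or.inl ⟨_, ih (Sum.inr a) (tOver_inr.2 (tOver_inr.1 hs)), ?_⟩
          rw [fs_pair, sn_pair, plus_tg]
          rfl

/-! ### Relations -/

/-- The tuples for which the value of the first term is an element of the value of the second. -/
noncomputable def Mm (τ τ' : ZFSet.{0}) : ZFSet.{0} :=
  im (fun t => fs (fs t))
    (ZFSet.sep (fun t => fs (fs t) = fs (sn t) ∧ sn (fs t) ∈ sn (sn t)) (ZFSet.prod τ τ'))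

/-- The tuples for which the values of the terms are equal. -/
noncomputable def Ee (τ τ' : ZFSet.{0}) : ZFSet.{0} :=
  im (fun t => fs (fs t))
    (ZFSet.sep (fun t => fs (fs t) = fs (sn t) ∧ sn (fs t) = sn (sn t)) (ZFSet.prod τ τ'))

/-- The set of the tuples that satisfy a formula. -/
noncomputable def E (X : ZFSet.{0}) (n : ℕ) (φ : Fml ZFSet.{0} n) : ZFSet.{0} :=
  ZFSet.sep (fun p => Sat {x | x ∈ X} id φ (ut n p)) (pw X n)

theorem mem_E {X : ZFSet.{0}} {n : ℕ} {φ : Fml ZFSet.{0} n} {p : ZFSet.{0}} :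
    p ∈ E X n φ ↔ ∃ v : Fin n → ZFSet.{0}, (∀ i, v i ∈ X) ∧ Sat {x | x ∈ X} id φ v ∧
      p = tup v := by
  rw [E, ZFSet.mem_sep, mem_pw]
  constructor
  · rintro ⟨⟨v, hv, rfl⟩, h⟩
    rw [ut_tup] at h
    exact ⟨v, hv, h, rfl⟩
  · rintro ⟨v, hv, h, rfl⟩
    exact ⟨⟨v, hv, rfl⟩, by rwa [ut_tup]⟩

theorem Mm_tg (X : ZFSet.{0}) (n : ℕ) (s t : Fin n ⊕ ZFSet.{0}) :
    Mm (tg X n s) (tg X n t) = E X n (.mem s t) := by
  ext p
  rw [Mm, mem_im, mem_E]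
  constructor
  · rintro ⟨q, hq, rfl⟩
    obtain ⟨h1, h2, h3⟩ := ZFSet.mem_sep.1 hq
    obtain ⟨x, hx, y, hy, rfl⟩ := ZFSet.mem_prod.1 h1
    obtain ⟨v, hv, rfl⟩ := mem_tg.1 hx
    obtain ⟨w, hw, rfl⟩ := mem_tg.1 hy
    simp only [fs_pair, sn_pair] at h2 h3
    have h4 := tup_inj h2
    subst h4
    exact ⟨v, hv, h3, by simp⟩
  · rintro ⟨v, hv, h, rfl⟩
    refine ⟨pair (pair (tup v) (Sum.elim v id s)) (pair (tup v) (Sum.elim v id t)), ?_, by simp⟩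
    refine ZFSet.mem_sep.2 ⟨ZFSet.pair_mem_prod.2 ⟨mem_tg.2 ⟨v, hv, rfl⟩, mem_tg.2 ⟨v, hv, rfl⟩⟩, ?_⟩
    simp only [fs_pair, sn_pair]
    exact ⟨trivial, h⟩

theorem Ee_tg (X : ZFSet.{0}) (n : ℕ) (s t : Fin n ⊕ ZFSet.{0}) :
    Ee (tg X n s) (tg X n t) = E X n (.eq s t) := by
  ext p
  rw [Ee, mem_im, mem_E]
  constructor
  · rintro ⟨q, hq, rfl⟩
    obtain ⟨h1, h2, h3⟩ := ZFSet.mem_sep.1 hq
    obtain ⟨x, hx, y, hy, rfl⟩ := ZFSet.mem_prod.1 h1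
    obtain ⟨v, hv, rfl⟩ := mem_tg.1 hx
    obtain ⟨w, hw, rfl⟩ := mem_tg.1 hy
    simp only [fs_pair, sn_pair] at h2 h3
    have h4 := tup_inj h2
    subst h4
    exact ⟨v, hv, h3, by simp⟩
  · rintro ⟨v, hv, h, rfl⟩
    refine ⟨pair (pair (tup v) (Sum.elim v id s)) (pair (tup v) (Sum.elim v id t)), ?_, by simp⟩
    refine ZFSet.mem_sep.2 ⟨ZFSet.pair_mem_prod.2 ⟨mem_tg.2 ⟨v, hv, rfl⟩, mem_tg.2 ⟨v, hv, rfl⟩⟩, ?_⟩
    simp only [fs_pair, sn_pair]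
    exact ⟨trivial, h⟩

/-- A false formula. -/
def fls (n : ℕ) : Fml ZFSet.{0} n :=
  .and (.ex (.eq (Sum.inl 0) (Sum.inl 0))) (.neg (.ex (.eq (Sum.inl 0) (Sum.inl 0))))

theorem fls_over (n : ℕ) (S : Set ZFSet.{0}) : (fls n).Over S :=
  ⟨⟨TOver.inl _, TOver.inl _⟩, ⟨TOver.inl _, TOver.inl _⟩⟩

theorem E_fls (X : ZFSet.{0}) (n : ℕ) : E X n (fls n) = ∅ := by
  rw [ZFSet.eq_empty]
  intro p hp
  obtain ⟨v, -, h, -⟩ := mem_E.1 hp
  exact h.2 h.1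

theorem Mm_empty_left (τ : ZFSet.{0}) : Mm ∅ τ = ∅ := by
  rw [ZFSet.eq_empty]
  intro p hp
  rw [Mm, mem_im] at hp
  obtain ⟨t, ht, -⟩ := hp
  obtain ⟨x, hx, y, hy, rfl⟩ := ZFSet.mem_prod.1 (ZFSet.mem_sep.1 ht).1
  exact ZFSet.notMem_empty _ hx

theorem Mm_empty_right (τ : ZFSet.{0}) : Mm τ ∅ = ∅ := by
  rw [ZFSet.eq_empty]
  intro p hp
  rw [Mm, mem_im] at hp
  obtain ⟨t, ht, -⟩ := hp
  obtain ⟨x, hx, y, hy, rfl⟩ := ZFSet.mem_prod.1 (ZFSet.mem_sep.1 ht).1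
  exact ZFSet.notMem_empty _ hy

theorem Ee_empty_left (τ : ZFSet.{0}) : Ee ∅ τ = ∅ := by
  rw [ZFSet.eq_empty]
  intro p hp
  rw [Ee, mem_im] at hp
  obtain ⟨t, ht, -⟩ := hp
  obtain ⟨x, hx, y, hy, rfl⟩ := ZFSet.mem_prod.1 (ZFSet.mem_sep.1 ht).1
  exact ZFSet.notMem_empty _ hx

theorem Ee_empty_right (τ : ZFSet.{0}) : Ee τ ∅ = ∅ := by
  rw [ZFSet.eq_empty]
  intro p hp
  rw [Ee, mem_im] at hp
  obtain ⟨t, ht, -⟩ := hp
  obtain ⟨x, hx, y, hy, rfl⟩ := ZFSet.mem_prod.1 (ZFSet.mem_sep.1 ht).1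
  exact ZFSet.notMem_empty _ hy

theorem prod_inj {X A B : ZFSet.{0}} (hX : ∃ x, x ∈ X) (h : ZFSet.prod X A = ZFSet.prod X B) :
    A = B := by
  obtain ⟨x, hx⟩ := hX
  ext y
  have h1 : ∀ C : ZFSet.{0}, y ∈ C ↔ pair x y ∈ ZFSet.prod X C := fun C => by
    rw [ZFSet.pair_mem_prod]
    exact ⟨fun h => ⟨hx, h⟩, fun h => h.2⟩
  rw [h1, h1, h]

theorem empty_ne_pair (a b : ZFSet.{0}) : (∅ : ZFSet.{0}) ≠ pair a b := by
  intro h
  have h1 : ({a} : ZFSet.{0}) ∈ pair a b := by simp [pair]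
  rw [← h] at h1
  exact ZFSet.notMem_empty _ h1

theorem pw_inj {X : ZFSet.{0}} (hX : ∃ x, x ∈ X) : ∀ {n m : ℕ}, pw X n = pw X m → n = m
  | 0, 0, _ => rfl
  | 0, m + 1, h => by
    have h1 : (∅ : ZFSet.{0}) ∈ pw X (m + 1) := by
      rw [← h, pw]
      exact ZFSet.mem_singleton.2 rfl
    obtain ⟨a, -, b, -, h2⟩ := ZFSet.mem_prod.1 h1
    exact absurd h2 (empty_ne_pair a b)
  | n + 1, 0, h => by
    have h1 : (∅ : ZFSet.{0}) ∈ pw X (n + 1) := by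
      rw [h, pw]
      exact ZFSet.mem_singleton.2 rfl
    obtain ⟨a, -, b, -, h2⟩ := ZFSet.mem_prod.1 h1
    exact absurd h2 (empty_ne_pair a b)
  | n + 1, m + 1, h => by rw [pw_inj hX (prod_inj hX h)]

/-- The pairs of elements of `S` with the same first component. -/
noncomputable def Wq (S : ZFSet.{0}) : ZFSet.{0} :=
  ZFSet.sep (fun q => fs (fs q) = fs (sn q)) (ZFSet.prod S S)

theorem mem_Wq {S q : ZFSet.{0}} : q ∈ Wq S ↔ ∃ a ∈ S, ∃ b ∈ S, q = pair a b ∧ fs a = fs b := by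
  rw [Wq, ZFSet.mem_sep, ZFSet.mem_prod]
  constructor
  · rintro ⟨⟨a, ha, b, hb, rfl⟩, h⟩
    exact ⟨a, ha, b, hb, rfl, by simpa using h⟩
  · rintro ⟨a, ha, b, hb, rfl, h⟩
    exact ⟨⟨a, ha, b, hb, rfl⟩, by simpa using h⟩

noncomputable def bb (X : ZFSet.{0}) : ZFSet.{0} :=
  im (fun q => pair (fs (fs q)) (Mm (sn (fs q)) (sn (sn q)))) (Wq (TT X)) ∪
    im (fun q => pair (fs (fs q)) (Ee (sn (fs q)) (sn (sn q)))) (Wq (TT X))

noncomputable def Vq (X S : ZFSet.{0}) : ZFSet.{0} :=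
  ZFSet.sep (fun q => fs (fs q) = ZFSet.prod X (fs (sn q))) (ZFSet.prod S S)

theorem mem_Vq {X S q : ZFSet.{0}} :
    q ∈ Vq X S ↔ ∃ a ∈ S, ∃ b ∈ S, q = pair a b ∧ fs a = ZFSet.prod X (fs b) := by
  rw [Vq, ZFSet.mem_sep, ZFSet.mem_prod]
  constructor
  · rintro ⟨⟨a, ha, b, hb, rfl⟩, h⟩
    exact ⟨a, ha, b, hb, rfl, by simpa using h⟩
  · rintro ⟨a, ha, b, hb, rfl, h⟩
    exact ⟨⟨a, ha, b, hb, rfl⟩, by simpa using h⟩

noncomputable def T2 (X S : ZFSet.{0}) : ZFSet.{0} :=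
  im (fun q => pair (fs q) (ZFSet.sep (fun p => p ∉ sn q) (fs q))) S ∪
    (im (fun q => pair (fs (fs q)) (ZFSet.sep (fun p => p ∈ sn (sn q)) (sn (fs q)))) (Wq S) ∪
      im (fun q => pair (fs (sn q)) (im sn (sn (fs q)))) (Vq X S))

noncomputable def RR (X : ZFSet.{0}) : ZFSet.{0} := itr (T2 X) (bb X) ZFSet.omega

theorem Wq_mono {S S' : ZFSet.{0}} (h : S ⊆ S') : Wq S ⊆ Wq S' := by
  intro q hq
  obtain ⟨a, ha, b, hb, h1⟩ := mem_Wq.1 hq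
  exact mem_Wq.2 ⟨a, h ha, b, h hb, h1⟩

theorem Vq_mono {X S S' : ZFSet.{0}} (h : S ⊆ S') : Vq X S ⊆ Vq X S' := by
  intro q hq
  obtain ⟨a, ha, b, hb, h1⟩ := mem_Vq.1 hq
  exact mem_Vq.2 ⟨a, h ha, b, h hb, h1⟩

theorem T2_mono (X S S' : ZFSet.{0}) (h : S ⊆ S') : T2 X S ⊆ T2 X S' :=
  union_mono (im_mono h) (union_mono (im_mono (Wq_mono h)) (im_mono (Vq_mono h)))

theorem mem_T2 {X S y : ZFSet.{0}} : y ∈ T2 X S ↔
    (∃ q ∈ S, y = pair (fs q) (ZFSet.sep (fun p => p ∉ sn q) (fs q))) ∨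
    (∃ a ∈ S, ∃ b ∈ S, fs a = fs b ∧ y = pair (fs a) (ZFSet.sep (fun p => p ∈ sn b) (sn a))) ∨
    ∃ a ∈ S, ∃ b ∈ S, fs a = ZFSet.prod X (fs b) ∧ y = pair (fs b) (im sn (sn a)) := by
  rw [T2, ZFSet.mem_union, ZFSet.mem_union, mem_im, mem_im, mem_im]
  refine or_congr Iff.rfl (or_congr ?_ ?_)
  · constructor
    · rintro ⟨q, hq, rfl⟩
      obtain ⟨a, ha, b, hb, rfl, h⟩ := mem_Wq.1 hq
      exact ⟨a, ha, b, hb, h, by simp⟩
    · rintro ⟨a, ha, b, hb, h, rfl⟩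
      exact ⟨pair a b, mem_Wq.2 ⟨a, ha, b, hb, rfl, h⟩, by simp⟩
  · constructor
    · rintro ⟨q, hq, rfl⟩
      obtain ⟨a, ha, b, hb, rfl, h⟩ := mem_Vq.1 hq
      exact ⟨a, ha, b, hb, h, by simp⟩
    · rintro ⟨a, ha, b, hb, h, rfl⟩
      exact ⟨pair a b, mem_Vq.2 ⟨a, ha, b, hb, rfl, h⟩, by simp⟩

theorem fin_T2 (X : ZFSet.{0}) : Fin' (T2 X) := by
  intro f S hf hS y hy
  rcases mem_T2.1 hy with ⟨q, hq, rfl⟩ | ⟨a, ha, b, hb, h, rfl⟩ | ⟨a, ha, b, hb, h, rfl⟩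
  · obtain ⟨k, hk⟩ := hS q hq
    exact ⟨k, mem_T2.2 (Or.inl ⟨q, hk, rfl⟩)⟩
  · obtain ⟨k, hk⟩ := hS a ha
    obtain ⟨l, hl⟩ := hS b hb
    exact ⟨max k l, mem_T2.2 (Or.inr (Or.inl ⟨a, hf k _ (le_max_left _ _) hk, b,
      hf l _ (le_max_right _ _) hl, h, rfl⟩))⟩
  · obtain ⟨k, hk⟩ := hS a ha
    obtain ⟨l, hl⟩ := hS b hb
    exact ⟨max k l, mem_T2.2 (Or.inr (Or.inr ⟨a, hf k _ (le_max_left _ _) hk, b,
      hf l _ (le_max_right _ _) hl, h, rfl⟩))⟩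

theorem mem_bb {X y : ZFSet.{0}} : y ∈ bb X ↔ ∃ a ∈ TT X, ∃ b ∈ TT X, fs a = fs b ∧
    (y = pair (fs a) (Mm (sn a) (sn b)) ∨ y = pair (fs a) (Ee (sn a) (sn b))) := by
  rw [bb, ZFSet.mem_union, mem_im, mem_im]
  constructor
  · rintro (⟨q, hq, rfl⟩ | ⟨q, hq, rfl⟩)
    · obtain ⟨a, ha, b, hb, rfl, h⟩ := mem_Wq.1 hq
      exact ⟨a, ha, b, hb, h, Or.inl (by simp)⟩
    · obtain ⟨a, ha, b, hb, rfl, h⟩ := mem_Wq.1 hq
      exact ⟨a, ha, b, hb, h, Or.inr (by simp)⟩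
  · rintro ⟨a, ha, b, hb, h, rfl | rfl⟩
    · exact Or.inl ⟨pair a b, mem_Wq.2 ⟨a, ha, b, hb, rfl, h⟩, by simp⟩
    · exact Or.inr ⟨pair a b, mem_Wq.2 ⟨a, ha, b, hb, rfl, h⟩, by simp⟩

theorem E_neg (X : ZFSet.{0}) (n : ℕ) (φ : Fml ZFSet.{0} n) :
    ZFSet.sep (fun p => p ∉ E X n φ) (pw X n) = E X n (.neg φ) := by
  ext p
  rw [ZFSet.mem_sep, mem_pw, mem_E (φ := .neg φ)]
  constructor
  · rintro ⟨⟨v, hv, rfl⟩, h⟩
    exact ⟨v, hv, fun h' => h (mem_E.2 ⟨v, hv, h', rfl⟩), rfl⟩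
  · rintro ⟨v, hv, h, rfl⟩
    refine ⟨⟨v, hv, rfl⟩, fun h' => ?_⟩
    obtain ⟨w, -, h1, h2⟩ := mem_E.1 h'
    rw [← tup_inj h2] at h1
    exact h h1

theorem E_and (X : ZFSet.{0}) (n : ℕ) (φ ψ : Fml ZFSet.{0} n) :
    ZFSet.sep (fun p => p ∈ E X n ψ) (E X n φ) = E X n (.and φ ψ) := by
  ext p
  rw [ZFSet.mem_sep, mem_E (φ := φ), mem_E (φ := .and φ ψ)]
  constructor
  · rintro ⟨⟨v, hv, h, rfl⟩, h'⟩
    obtain ⟨w, -, h1, h2⟩ := mem_E.1 h'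
    rw [← tup_inj h2] at h1
    exact ⟨v, hv, ⟨h, h1⟩, rfl⟩
  · rintro ⟨v, hv, h, rfl⟩
    exact ⟨⟨v, hv, h.1, rfl⟩, mem_E.2 ⟨v, hv, h.2, rfl⟩⟩

theorem E_ex (X : ZFSet.{0}) (n : ℕ) (φ : Fml ZFSet.{0} (n + 1)) :
    im sn (E X (n + 1) φ) = E X n (.ex φ) := by
  ext p
  rw [mem_im, mem_E]
  constructor
  · rintro ⟨q, hq, rfl⟩
    obtain ⟨v, hv, h, rfl⟩ := mem_E.1 hq
    refine ⟨Fin.tail v, fun i => hv _, ⟨v 0, hv 0, ?_⟩, by simp [tup]⟩
    rwa [Fin.cons_self_tail]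
  · rintro ⟨v, hv, ⟨x, hx, h⟩, rfl⟩
    refine ⟨pair x (tup v), mem_E.2 ⟨Fin.cons x v, fun i => ?_, h, rfl⟩, by simp⟩
    refine Fin.cases ?_ (fun i => ?_) i
    · exact hx
    · exact hv i

theorem fs_TT {X a : ZFSet.{0}} {n : ℕ} (h : a = pair (pw X n) ∅ ∨
    ∃ s : Fin n ⊕ ZFSet.{0}, TOver {x | x ∈ X} s ∧ a = pair (pw X n) (tg X n s)) :
    fs a = pw X n := by
  rcases h with rfl | ⟨s, hs, rfl⟩ <;> simp

theorem mem_RR {X y : ZFSet.{0}} (hX : ∃ x, x ∈ X) : y ∈ RR X ↔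
    ∃ (n : ℕ) (φ : Fml ZFSet.{0} n), φ.Over {x | x ∈ X} ∧ y = pair (pw X n) (E X n φ) := by
  constructor
  · refine itr_ind (P := fun y => ∃ (n : ℕ) (φ : Fml ZFSet.{0} n), φ.Over {x | x ∈ X} ∧
      y = pair (pw X n) (E X n φ)) ?_ ?_ _ y
    · intro y hy
      obtain ⟨a, ha, b, hb, hab, h⟩ := mem_bb.1 hy
      obtain ⟨n, hn⟩ := mem_TT.1 ha
      obtain ⟨m, hm⟩ := mem_TT.1 hb
      have h1 := fs_TT hn
      have h2 := fs_TT hm
      have h3 : n = m := pw_inj hX (by rw [← h1, ← h2, hab])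
      subst h3
      rw [h1] at h
      have hf : y = pair (pw X n) ∅ → ∃ (n : ℕ) (φ : Fml ZFSet.{0} n), φ.Over {x | x ∈ X} ∧
          y = pair (pw X n) (E X n φ) := by
        intro h4
        exact ⟨n, fls n, fls_over n _, by rw [E_fls]; exact h4⟩
      rcases hn with rfl | ⟨s, hs, rfl⟩
      · apply hf
        rw [sn_pair] at h
        rcases h with rfl | rfl
        · rw [Mm_empty_left]
        · rw [Ee_empty_left]
      · rcases hm with rfl | ⟨t, ht, rfl⟩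
        · apply hf
          rw [sn_pair, sn_pair] at h
          rcases h with rfl | rfl
          · rw [Mm_empty_right]
          · rw [Ee_empty_right]
        · rw [sn_pair, sn_pair] at h
          rcases h with rfl | rfl
          · exact ⟨n, .mem s t, ⟨hs, ht⟩, by rw [Mm_tg]⟩
          · exact ⟨n, .eq s t, ⟨hs, ht⟩, by rw [Ee_tg]⟩
    · intro S hS y hy
      rcases mem_T2.1 hy with ⟨q, hq, rfl⟩ | ⟨a, ha, b, hb, h, rfl⟩ | ⟨a, ha, b, hb, h, rfl⟩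
      · obtain ⟨n, φ, hφ, rfl⟩ := hS q hq
        refine ⟨n, .neg φ, hφ, ?_⟩
        rw [fs_pair, sn_pair, E_neg]
      · obtain ⟨n, φ, hφ, rfl⟩ := hS a ha
        obtain ⟨m, ψ, hψ, rfl⟩ := hS b hb
        rw [fs_pair, fs_pair] at h
        have h3 : n = m := pw_inj hX h
        subst h3
        refine ⟨n, .and φ ψ, ⟨hφ, hψ⟩, ?_⟩
        rw [fs_pair, sn_pair, sn_pair, E_and]
      · obtain ⟨n, φ, hφ, rfl⟩ := hS a ha
        obtain ⟨m, ψ, hψ, rfl⟩ := hS b hb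
        rw [fs_pair, fs_pair] at h
        have h3 : n = m + 1 := pw_inj hX h
        subst h3
        refine ⟨m, .ex φ, hφ, ?_⟩
        rw [fs_pair, sn_pair, E_ex]
  · have hc := itr_closed (a := bb X) (fin_T2 X)
    have hb : bb X ⊆ RR X := itr_base
    rintro ⟨n, φ, hφ, rfl⟩
    induction φ with
    | @mem n s t =>
      apply hb
      refine mem_bb.2 ⟨pair (pw X n) (tg X n s), mem_TT.2 ⟨n, Or.inr ⟨s, hφ.1, rfl⟩⟩,
        pair (pw X n) (tg X n t), mem_TT.2 ⟨n, Or.inr ⟨t, hφ.2, rfl⟩⟩, by simp, Or.inl ?_⟩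
      rw [fs_pair, sn_pair, sn_pair, Mm_tg]
    | @eq n s t =>
      apply hb
      refine mem_bb.2 ⟨pair (pw X n) (tg X n s), mem_TT.2 ⟨n, Or.inr ⟨s, hφ.1, rfl⟩⟩,
        pair (pw X n) (tg X n t), mem_TT.2 ⟨n, Or.inr ⟨t, hφ.2, rfl⟩⟩, by simp, Or.inr ?_⟩
      rw [fs_pair, sn_pair, sn_pair, Ee_tg]
    | @neg n φ ih =>
      apply hc
      refine mem_T2.2 (Or.inl ⟨_, ih hφ, ?_⟩)
      rw [fs_pair, sn_pair, E_neg]
    | @and n φ ψ ih1 ih2 =>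
      apply hc
      refine mem_T2.2 (Or.inr (Or.inl ⟨_, ih1 hφ.1, _, ih2 hφ.2, by simp, ?_⟩))
      rw [fs_pair, sn_pair, sn_pair, E_and]
    | @ex n φ ih =>
      apply hc
      have h1 : pair (pw X n) ∅ ∈ RR X := by
        apply hb
        refine mem_bb.2 ⟨pair (pw X n) ∅, mem_TT.2 ⟨n, Or.inl rfl⟩,
          pair (pw X n) ∅, mem_TT.2 ⟨n, Or.inl rfl⟩, by simp, Or.inl ?_⟩
        rw [fs_pair, sn_pair, Mm_empty_left]
      refine mem_T2.2 (Or.inr (Or.inr ⟨_, ih hφ, _, h1, ?_, ?_⟩))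
      · rw [fs_pair, fs_pair]
        rfl
      · rw [fs_pair, sn_pair, E_ex]

/-! ### The definable subsets -/

theorem mem_DefP {X y : ZFSet.{0}} : y ∈ DefP X ↔ y ⊆ X ∧
    ∃ φ : Fml ZFSet.{0} 1, φ.Over {x | x ∈ X} ∧
      ∀ z, z ∈ y ↔ z ∈ X ∧ Sat {x | x ∈ X} id φ ![z] := by
  rw [DefP, ZFSet.mem_sep, ZFSet.mem_powerset]

theorem mem_imfs {X : ZFSet.{0}} {φ : Fml ZFSet.{0} 1} {z : ZFSet.{0}} :
    z ∈ im fs (E X 1 φ) ↔ z ∈ X ∧ Sat {x | x ∈ X} id φ ![z] := by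
  rw [mem_im]
  have h1 : ∀ v : Fin 1 → ZFSet.{0}, v = ![v 0] := by
    intro v
    funext i
    fin_cases i
    rfl
  constructor
  · rintro ⟨p, hp, rfl⟩
    obtain ⟨v, hv, h, rfl⟩ := mem_E.1 hp
    rw [h1 v] at h
    simp only [tup, fs_pair]
    exact ⟨hv 0, h⟩
  · rintro ⟨h2, h3⟩
    refine ⟨_, mem_E.2 ⟨![z], fun i => ?_, h3, rfl⟩, by simp [tup]⟩
    fin_cases i
    exact h2

theorem DefP_eq {X : ZFSet.{0}} (hX : ∃ x, x ∈ X) :
    DefP X = im (fun q => im fs (sn q)) (ZFSet.sep (fun q => fs q = ZFSet.prod X {∅}) (RR X)) := by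
  have h1 : ZFSet.prod X {∅} = pw X 1 := rfl
  ext y
  rw [mem_DefP, mem_im]
  constructor
  · rintro ⟨hy, φ, hφ, h⟩
    refine ⟨pair (pw X 1) (E X 1 φ), ZFSet.mem_sep.2 ⟨(mem_RR hX).2 ⟨1, φ, hφ, rfl⟩, ?_⟩, ?_⟩
    · rw [fs_pair, h1]
    · rw [sn_pair]
      ext z
      rw [h, mem_imfs]
  · rintro ⟨q, hq, rfl⟩
    obtain ⟨h2, h3⟩ := ZFSet.mem_sep.1 hq
    obtain ⟨n, φ, hφ, rfl⟩ := (mem_RR hX).1 h2
    rw [fs_pair, h1] at h3
    have h4 : n = 1 := pw_inj hX h3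
    subst h4
    rw [sn_pair]
    exact ⟨fun z hz => (mem_imfs.1 hz).1, φ, hφ, fun z => mem_imfs⟩

theorem DefP_empty : DefP ∅ = {∅} := by
  ext y
  rw [mem_DefP, ZFSet.mem_singleton]
  constructor
  · rintro ⟨h, -⟩
    rw [ZFSet.eq_empty]
    exact fun z hz => ZFSet.notMem_empty _ (h hz)
  · rintro rfl
    refine ⟨fun z hz => hz, fls 1, fls_over 1 _, fun z => ?_⟩
    simp

section dfn

variable {M : Set ZFSet.{0}} (hM : IsZF M)

include hM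

theorem dfn_TT : DfnF M M fun w : Fin 1 → ZFSet.{0} => TT (w 0) := by
  have hB := hM.base
  have he := hM.empty_mem
  have hs := hM.single_mem he
  refine dfn_clo hM (a := a1) (T := T1) ?_ ?_ fin_T1 T1_mono
  · refine hB.insert' (DfnF.const (hM.pair_mem hs he)) ?_
    refine hM.im' (h := fun a _ => pair {∅} {pair ∅ a}) (DfnF.proj 0) ?_
    exact hB.pair' (DfnF.const hs) (hB.single' (hB.pair' (DfnF.const he) (DfnF.proj 0)))
  · refine hB.union' ?_ ?_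
    · refine hM.im' (h := fun q v => pair (ZFSet.prod (v 0) (fs q)) (plus (v 0) (sn q)))
        (DfnF.proj 1) ?_
      refine hB.pair' (hM.prod' (DfnF.proj 1) (hM.fs' (DfnF.proj 0))) ?_
      refine DfnF.comp2 (f := plus) ?_ (DfnF.proj 1) (hM.sn' (DfnF.proj 0))
      refine hM.im' (h := fun t _ => pair (pair (fs t) (fs (sn t))) (sn (sn t)))
        (hM.prod' (DfnF.proj 0) (DfnF.proj 1)) ?_
      exact hB.pair' (hB.pair' (hM.fs' (DfnF.proj 0)) (hM.fs' (hM.sn' (DfnF.proj 0))))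
        (hM.sn' (hM.sn' (DfnF.proj 0)))
    · refine hM.im' (h := fun q v => pair (ZFSet.prod (v 0) (fs q)) (hd (v 0) (fs q)))
        (DfnF.proj 1) ?_
      refine hB.pair' (hM.prod' (DfnF.proj 1) (hM.fs' (DfnF.proj 0))) ?_
      refine DfnF.comp2 (f := hd) ?_ (DfnF.proj 1) (hM.fs' (DfnF.proj 0))
      refine hM.im' (h := fun t _ => pair t (fs t))
        (hM.prod' (DfnF.proj 0) (DfnF.proj 1)) ?_
      exact hB.pair' (DfnF.proj 0) (hM.fs' (DfnF.proj 0))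

theorem dfn_Wq {n : ℕ} {F : (Fin n → ZFSet.{0}) → ZFSet.{0}} (hF : DfnF M M F) :
    DfnF M M fun v => Wq (F v) := by
  refine DfnF.comp1 (f := Wq) ?_ hF
  refine hM.sep' (Q := fun q _ => fs (fs q) = fs (sn q)) (hM.prod' (DfnF.proj 0) (DfnF.proj 0)) ?_
  exact Dfn.eq (hM.fs' (hM.fs' (DfnF.proj 0))) (hM.fs' (hM.sn' (DfnF.proj 0)))

theorem dfn_Vq : DfnF M M fun w : Fin 2 → ZFSet.{0} => Vq (w 0) (w 1) := by
  refine hM.sep' (Q := fun q v => fs (fs q) = ZFSet.prod (v 0) (fs (sn q)))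
    (hM.prod' (DfnF.proj 1) (DfnF.proj 1)) ?_
  exact Dfn.eq (hM.fs' (hM.fs' (DfnF.proj 0)))
    (hM.prod' (DfnF.proj 1) (hM.fs' (hM.sn' (DfnF.proj 0))))

theorem dfn_Mm : DfnF M M fun w : Fin 2 → ZFSet.{0} => Mm (w 0) (w 1) := by
  refine hM.im' (h := fun t _ => fs (fs t)) ?_ (hM.fs' (hM.fs' (DfnF.proj 0)))
  refine hM.sep' (Q := fun t _ => fs (fs t) = fs (sn t) ∧ sn (fs t) ∈ sn (sn t))
    (hM.prod' (DfnF.proj 0) (DfnF.proj 1)) ?_
  exact (Dfn.eq (hM.fs' (hM.fs' (DfnF.proj 0))) (hM.fs' (hM.sn' (DfnF.proj 0)))).and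
    (Dfn.mem (hM.sn' (hM.fs' (DfnF.proj 0))) (hM.sn' (hM.sn' (DfnF.proj 0))))

theorem dfn_Ee : DfnF M M fun w : Fin 2 → ZFSet.{0} => Ee (w 0) (w 1) := by
  refine hM.im' (h := fun t _ => fs (fs t)) ?_ (hM.fs' (hM.fs' (DfnF.proj 0)))
  refine hM.sep' (Q := fun t _ => fs (fs t) = fs (sn t) ∧ sn (fs t) = sn (sn t))
    (hM.prod' (DfnF.proj 0) (DfnF.proj 1)) ?_
  exact (Dfn.eq (hM.fs' (hM.fs' (DfnF.proj 0))) (hM.fs' (hM.sn' (DfnF.proj 0)))).and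
    (Dfn.eq (hM.sn' (hM.fs' (DfnF.proj 0))) (hM.sn' (hM.sn' (DfnF.proj 0))))

theorem dfn_RR : DfnF M M fun w : Fin 1 → ZFSet.{0} => RR (w 0) := by
  have hB := hM.base
  have hT := dfn_TT hM
  refine dfn_clo hM (a := bb) (T := T2) ?_ ?_ fin_T2 T2_mono
  · refine hB.union' ?_ ?_
    · refine hM.im' (h := fun q _ => pair (fs (fs q)) (Mm (sn (fs q)) (sn (sn q))))
        (dfn_Wq hM hT) ?_
      exact hB.pair' (hM.fs' (hM.fs' (DfnF.proj 0))) (DfnF.comp2 (f := Mm) (dfn_Mm hM)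
        (hM.sn' (hM.fs' (DfnF.proj 0))) (hM.sn' (hM.sn' (DfnF.proj 0))))
    · refine hM.im' (h := fun q _ => pair (fs (fs q)) (Ee (sn (fs q)) (sn (sn q))))
        (dfn_Wq hM hT) ?_
      exact hB.pair' (hM.fs' (hM.fs' (DfnF.proj 0))) (DfnF.comp2 (f := Ee) (dfn_Ee hM)
        (hM.sn' (hM.fs' (DfnF.proj 0))) (hM.sn' (hM.sn' (DfnF.proj 0))))
  · refine hB.union' ?_ (hB.union' ?_ ?_)
    · refine hM.im' (h := fun q _ => pair (fs q) (ZFSet.sep (fun p => p ∉ sn q) (fs q)))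
        (DfnF.proj 1) ?_
      refine hB.pair' (hM.fs' (DfnF.proj 0)) ?_
      refine hM.sep' (Q := fun p v => p ∉ sn (v 0)) (hM.fs' (DfnF.proj 0)) ?_
      exact (Dfn.mem (DfnF.proj 0) (hM.sn' (DfnF.proj 1))).not
    · refine hM.im' (h := fun q _ => pair (fs (fs q))
        (ZFSet.sep (fun p => p ∈ sn (sn q)) (sn (fs q)))) (dfn_Wq hM (DfnF.proj 1)) ?_
      refine hB.pair' (hM.fs' (hM.fs' (DfnF.proj 0))) ?_
      refine hM.sep' (Q := fun p v => p ∈ sn (sn (v 0))) (hM.sn' (hM.fs' (DfnF.proj 0))) ?_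
      exact Dfn.mem (DfnF.proj 0) (hM.sn' (hM.sn' (DfnF.proj 1)))
    · refine hM.im' (h := fun q _ => pair (fs (sn q)) (im sn (sn (fs q)))) (dfn_Vq hM) ?_
      refine hB.pair' (hM.fs' (hM.sn' (DfnF.proj 0))) ?_
      exact hM.im' (h := fun t _ => sn t) (hM.sn' (hM.fs' (DfnF.proj 0))) (hM.sn' (DfnF.proj 0))

theorem dfn_DefP : DfnF M M fun w : Fin 1 → ZFSet.{0} => DefP (w 0) := by
  classical
  have hB := hM.base
  have he := hM.empty_mem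
  have hs := hM.single_mem he
  have h1 : DfnF M M fun w : Fin 1 → ZFSet.{0} => im (fun q => im fs (sn q))
      (ZFSet.sep (fun q => fs q = ZFSet.prod (w 0) {∅}) (RR (w 0))) := by
    refine hM.im' (h := fun q _ => im fs (sn q)) ?_ ?_
    · refine hM.sep' (Q := fun q v => fs q = ZFSet.prod (v 0) {∅}) (dfn_RR hM) ?_
      exact Dfn.eq (hM.fs' (DfnF.proj 0)) (hM.prod' (DfnF.proj 1) (DfnF.const hs))
    · exact hM.im' (h := fun t _ => fs t) (hM.sn' (DfnF.proj 0)) (hM.fs' (DfnF.proj 0))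
  have h2 := DfnF.ite (M := M) (S := M) (n := 1) (Q := fun w : Fin 1 → ZFSet.{0} => w 0 = ∅)
    (Dfn.eq (DfnF.proj 0) (DfnF.const he)) (DfnF.const hs) h1
  refine h2.congr fun w hw => ?_
  split_ifs with h
  · rw [h, DefP_empty]
  · have h3 : ∃ x, x ∈ w 0 := by
      by_contra h4
      push Not at h4
      exact h (ZFSet.eq_empty _ |>.2 h4)
    rw [DefP_eq h3]

end dfn

/-! ### The levels -/

noncomputable def LZ : ZFSet.{0} → ZFSet.{0} :=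
  wfF (fun z => z) ZFSet.mem_wf fun _ g => ZFSet.sUnion (im (fun p => DefP (sn p)) g)

theorem LZ_eq (z : ZFSet.{0}) :
    LZ z = ZFSet.sUnion (im (fun p => DefP (sn p)) (gr LZ z)) := by
  rw [LZ, wfF_eq]

theorem mem_LZ {z y : ZFSet.{0}} : y ∈ LZ z ↔ ∃ u ∈ z, y ∈ DefP (LZ u) := by
  rw [LZ_eq, ZFSet.mem_sUnion]
  constructor
  · rintro ⟨w, hw, h⟩
    obtain ⟨p, hp, rfl⟩ := mem_im.1 hw
    obtain ⟨u, hu, rfl⟩ := mem_gr.1 hp
    rw [sn_pair] at h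
    exact ⟨u, hu, h⟩
  · rintro ⟨u, hu, h⟩
    exact ⟨_, mem_im.2 ⟨_, mem_gr.2 ⟨u, hu, rfl⟩, rfl⟩, by rwa [sn_pair]⟩

theorem mem_Lev {α : Ordinal.{0}} {y : ZFSet.{0}} : y ∈ Lev α ↔ ∃ β < α, y ∈ DefP (Lev β) := by
  rw [Lev, ZFSet.mem_sUnion]
  constructor
  · rintro ⟨w, hw, h⟩
    obtain ⟨β, rfl⟩ := ZFSet.mem_range.1 hw
    exact ⟨β.1, β.2, h⟩
  · rintro ⟨β, hβ, h⟩
    exact ⟨_, ZFSet.mem_range.2 ⟨⟨β, hβ⟩, rfl⟩, h⟩

theorem LZ_toZFSet (α : Ordinal.{0}) : LZ α.toZFSet = Lev α := by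
  induction α using WellFoundedLT.induction with
  | _ α ih =>
    ext y
    rw [mem_LZ, mem_Lev]
    constructor
    · rintro ⟨u, hu, h⟩
      obtain ⟨β, hβ, rfl⟩ := Ordinal.mem_toZFSet_iff.1 hu
      rw [ih β hβ] at h
      exact ⟨β, hβ, h⟩
    · rintro ⟨β, hβ, h⟩
      refine ⟨β.toZFSet, Ordinal.mem_toZFSet_iff.2 ⟨β, hβ, rfl⟩, ?_⟩
      rwa [ih β hβ]

theorem dfn_LZ {M : Set ZFSet.{0}} (hM : IsZF M) :
    DfnF M M fun w : Fin 1 → ZFSet.{0} => LZ (w 0) := by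
  have hB := hM.base
  refine hM.memrec (G := fun _ g => ZFSet.sUnion (im (fun p => DefP (sn p)) g)) ?_ LZ_eq
  refine hB.sUnion' (hM.im' (h := fun p _ => DefP (sn p)) (DfnF.proj 1) ?_)
  exact DfnF.comp1 (f := DefP) (dfn_DefP hM) (hM.sn' (DfnF.proj 0))

end Pool.Agent.R587.LM

namespace Pool.Agent.R587

open Pool.Agent.W868

/-- The levels of the constructible hierarchy are elements of every inner model of ZF. -/
theorem lev_mem {M : Set ZFSet.{0}} (hM : IsZF M) (hO : ∀ x : ZFSet.{0}, x.IsOrdinal → x ∈ M) :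
    ∀ α : Ordinal.{0}, Lev α ∈ M := by
  intro α
  rw [← LM.LZ_toZFSet]
  exact (LM.dfn_LZ hM).1 (fun _ => α.toZFSet) fun _ => hO _ (ZFSet.isOrdinal_toZFSet α)

end Pool.Agent.R587
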