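import Pool.Agent.R587.ULDefs
import Pool.Agent.R587.LevM
import Pool.Agent.R587.LInst

/-!
# The hierarchy `L[U]` is contained in every inner model that contains `U`
-/

set_option autoImplicit false
set_option linter.unreachableTactic false
set_option linter.unusedTactic false
set_option linter.unusedVariables false

namespace Pool.Agent.R587.LMU

open Pool.Agent.W868
open Pool.Agent.R587.LM
open ZFSet (pair)

/-! ### Relations -/

/-- The tuples for which the value of the term is an element of the set. -/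
noncomputable def Pr (W τ : ZFSet.{0}) : ZFSet.{0} :=
  im fs (ZFSet.sep (fun r => sn r ∈ W) τ)

/-- The set of the tuples that satisfy a formula. -/
noncomputable def E (U X : ZFSet.{0}) (n : ℕ) (φ : FmP n) : ZFSet.{0} :=
  ZFSet.sep (fun p => φ.Sat {x | x ∈ X} {x | x ∈ U} (ut n p)) (pw X n)

variable {U : ZFSet.{0}}

theorem mem_E {X : ZFSet.{0}} {n : ℕ} {φ : FmP n} {p : ZFSet.{0}} :
    p ∈ E U X n φ ↔ ∃ v : Fin n → ZFSet.{0}, (∀ i, v i ∈ X) ∧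
      φ.Sat {x | x ∈ X} {x | x ∈ U} v ∧ p = W868.tup v := by
  rw [E, ZFSet.mem_sep, mem_pw]
  constructor
  · rintro ⟨⟨v, hv, rfl⟩, h⟩
    rw [ut_tup] at h
    exact ⟨v, hv, h, rfl⟩
  · rintro ⟨v, hv, h, rfl⟩
    exact ⟨⟨v, hv, rfl⟩, by rwa [ut_tup]⟩

theorem Mm_tg (X : ZFSet.{0}) (n : ℕ) (s t : Fin n ⊕ ZFSet.{0}) :
    Mm (tg X n s) (tg X n t) = E U X n (.mem s t) := by
  ext p
  rw [LM.Mm_tg, LM.mem_E, mem_E]
  rfl

theorem Ee_tg (X : ZFSet.{0}) (n : ℕ) (s t : Fin n ⊕ ZFSet.{0}) :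
    Ee (tg X n s) (tg X n t) = E U X n (.eq s t) := by
  ext p
  rw [LM.Ee_tg, LM.mem_E, mem_E]
  rfl

theorem Pr_tg (X : ZFSet.{0}) (n : ℕ) (s : Fin n ⊕ ZFSet.{0}) :
    Pr U (tg X n s) = E U X n (.pred s) := by
  ext p
  rw [Pr, mem_im, mem_E]
  constructor
  · rintro ⟨q, hq, rfl⟩
    obtain ⟨h1, h2⟩ := ZFSet.mem_sep.1 hq
    obtain ⟨v, hv, rfl⟩ := mem_tg.1 h1
    simp only [sn_pair] at h2
    exact ⟨v, hv, h2, by simp⟩
  · rintro ⟨v, hv, h, rfl⟩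
    refine ⟨pair (W868.tup v) (Sum.elim v id s), ?_, by simp⟩
    refine ZFSet.mem_sep.2 ⟨mem_tg.2 ⟨v, hv, rfl⟩, ?_⟩
    simp only [sn_pair]
    exact h

theorem Pr_empty : Pr U ∅ = ∅ := by
  rw [ZFSet.eq_empty]
  intro p hp
  rw [Pr, mem_im] at hp
  obtain ⟨t, ht, -⟩ := hp
  exact ZFSet.notMem_empty _ (ZFSet.mem_sep.1 ht).1

/-- A false formula. -/
def fls (n : ℕ) : FmP n :=
  .and (.ex (.eq (Sum.inl 0) (Sum.inl 0))) (.neg (.ex (.eq (Sum.inl 0) (Sum.inl 0))))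

theorem fls_over (n : ℕ) (S : Set ZFSet.{0}) : (fls n).Over S :=
  ⟨⟨TOver.inl _, TOver.inl _⟩, ⟨TOver.inl _, TOver.inl _⟩⟩

theorem E_fls (X : ZFSet.{0}) (n : ℕ) : E U X n (fls n) = ∅ := by
  rw [ZFSet.eq_empty]
  intro p hp
  obtain ⟨v, -, h, -⟩ := mem_E.1 hp
  exact h.2 h.1

theorem E_neg (X : ZFSet.{0}) (n : ℕ) (φ : FmP n) :
    ZFSet.sep (fun p => p ∉ E U X n φ) (pw X n) = E U X n (.neg φ) := by
  ext p
  rw [ZFSet.mem_sep, mem_pw, mem_E (φ := .neg φ)]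
  constructor
  · rintro ⟨⟨v, hv, rfl⟩, h⟩
    exact ⟨v, hv, fun h' => h (mem_E.2 ⟨v, hv, h', rfl⟩), rfl⟩
  · rintro ⟨v, hv, h, rfl⟩
    refine ⟨⟨v, hv, rfl⟩, fun h' => ?_⟩
    obtain ⟨w, -, h1, h2⟩ := mem_E.1 h'
    rw [← tup_inj h2] at h1
    exact h h1

theorem E_and (X : ZFSet.{0}) (n : ℕ) (φ ψ : FmP n) :
    ZFSet.sep (fun p => p ∈ E U X n ψ) (E U X n φ) = E U X n (.and φ ψ) := by
  ext p
  rw [ZFSet.mem_sep, mem_E (φ := φ), mem_E (φ := .and φ ψ)]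
  constructor
  · rintro ⟨⟨v, hv, h, rfl⟩, h'⟩
    obtain ⟨w, -, h1, h2⟩ := mem_E.1 h'
    rw [← tup_inj h2] at h1
    exact ⟨v, hv, ⟨h, h1⟩, rfl⟩
  · rintro ⟨v, hv, h, rfl⟩
    exact ⟨⟨v, hv, h.1, rfl⟩, mem_E.2 ⟨v, hv, h.2, rfl⟩⟩

theorem E_ex (X : ZFSet.{0}) (n : ℕ) (φ : FmP (n + 1)) :
    im sn (E U X (n + 1) φ) = E U X n (.ex φ) := by
  ext p
  rw [mem_im, mem_E]
  constructor
  · rintro ⟨q, hq, rfl⟩
    obtain ⟨v, hv, h, rfl⟩ := mem_E.1 hq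
    refine ⟨Fin.tail v, fun i => hv _, ⟨v 0, hv 0, ?_⟩, by simp [W868.tup]⟩
    rwa [Fin.cons_self_tail]
  · rintro ⟨v, hv, ⟨x, hx, h⟩, rfl⟩
    refine ⟨pair x (W868.tup v), mem_E.2 ⟨Fin.cons x v, fun i => ?_, h, rfl⟩, by simp⟩
    refine Fin.cases ?_ (fun i => ?_) i
    · exact hx
    · exact hv i

noncomputable def bp (U X : ZFSet.{0}) : ZFSet.{0} :=
  bb X ∪ im (fun a => pair (fs a) (Pr U (sn a))) (TT X)

theorem mem_bp {X y : ZFSet.{0}} : y ∈ bp U X ↔ (∃ a ∈ TT X, ∃ b ∈ TT X, fs a = fs b ∧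
    (y = pair (fs a) (Mm (sn a) (sn b)) ∨ y = pair (fs a) (Ee (sn a) (sn b)))) ∨
    ∃ a ∈ TT X, y = pair (fs a) (Pr U (sn a)) := by
  rw [bp, ZFSet.mem_union, mem_bb, mem_im]

/-- The definable relations. -/
noncomputable def RR (U X : ZFSet.{0}) : ZFSet.{0} := itr (T2 X) (bp U X) ZFSet.omega

theorem mem_RR {X y : ZFSet.{0}} (hX : ∃ x, x ∈ X) : y ∈ RR U X ↔
    ∃ (n : ℕ) (φ : FmP n), φ.Over {x | x ∈ X} ∧ y = pair (pw X n) (E U X n φ) := by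
  constructor
  · refine itr_ind (P := fun y => ∃ (n : ℕ) (φ : FmP n), φ.Over {x | x ∈ X} ∧
      y = pair (pw X n) (E U X n φ)) ?_ ?_ _ y
    · intro y hy
      have hf : ∀ n, y = pair (pw X n) ∅ → ∃ (n : ℕ) (φ : FmP n), φ.Over {x | x ∈ X} ∧
          y = pair (pw X n) (E U X n φ) := by
        intro n h4
        exact ⟨n, fls n, fls_over n _, by rw [E_fls]; exact h4⟩
      rcases mem_bp.1 hy with ⟨a, ha, b, hb, hab, h⟩ | ⟨a, ha, h⟩
      · obtain ⟨n, hn⟩ := mem_TT.1 ha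
        obtain ⟨m, hm⟩ := mem_TT.1 hb
        have h1 := fs_TT hn
        have h2 := fs_TT hm
        have h3 : n = m := pw_inj hX (by rw [← h1, ← h2, hab])
        subst h3
        rw [h1] at h
        rcases hn with rfl | ⟨s, hs, rfl⟩
        · apply hf n
          rw [sn_pair] at h
          rcases h with rfl | rfl
          · rw [Mm_empty_left]
          · rw [Ee_empty_left]
        · rcases hm with rfl | ⟨t, ht, rfl⟩
          · apply hf n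
            rw [sn_pair, sn_pair] at h
            rcases h with rfl | rfl
            · rw [Mm_empty_right]
            · rw [Ee_empty_right]
          · rw [sn_pair, sn_pair] at h
            rcases h with rfl | rfl
            · exact ⟨n, .mem s t, ⟨hs, ht⟩, by rw [Mm_tg (U := U)]⟩
            · exact ⟨n, .eq s t, ⟨hs, ht⟩, by rw [Ee_tg (U := U)]⟩
      · obtain ⟨n, hn⟩ := mem_TT.1 ha
        have h1 := fs_TT hn
        rw [h1] at h
        rcases hn with rfl | ⟨s, hs, rfl⟩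
        · apply hf n
          rw [sn_pair, Pr_empty] at h
          exact h
        · rw [sn_pair, Pr_tg] at h
          exact ⟨n, .pred s, hs, h⟩
    · intro S hS y hy
      rcases mem_T2.1 hy with ⟨q, hq, rfl⟩ | ⟨a, ha, b, hb, h, rfl⟩ | ⟨a, ha, b, hb, h, rfl⟩
      · obtain ⟨n, φ, hφ, rfl⟩ := hS q hq
        refine ⟨n, .neg φ, hφ, ?_⟩
        rw [fs_pair, sn_pair, E_neg]
      · obtain ⟨n, φ, hφ, rfl⟩ := hS a ha
        obtain ⟨m, ψ, hψ, rfl⟩ := hS b hb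
        rw [fs_pair, fs_pair] at h
        have h3 : n = m := pw_inj hX h
        subst h3
        refine ⟨n, .and φ ψ, ⟨hφ, hψ⟩, ?_⟩
        rw [fs_pair, sn_pair, sn_pair, E_and]
      · obtain ⟨n, φ, hφ, rfl⟩ := hS a ha
        obtain ⟨m, ψ, hψ, rfl⟩ := hS b hb
        rw [fs_pair, fs_pair] at h
        have h3 : n = m + 1 := pw_inj hX h
        subst h3
        refine ⟨m, .ex φ, hφ, ?_⟩
        rw [fs_pair, sn_pair, E_ex]
  · have hc := itr_closed (a := bp U X) (fin_T2 X)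
    have hb : bp U X ⊆ RR U X := itr_base
    rintro ⟨n, φ, hφ, rfl⟩
    induction φ with
    | @mem n s t =>
      apply hb
      refine mem_bp.2 (Or.inl ⟨pair (pw X n) (tg X n s), mem_TT.2 ⟨n, Or.inr ⟨s, hφ.1, rfl⟩⟩,
        pair (pw X n) (tg X n t), mem_TT.2 ⟨n, Or.inr ⟨t, hφ.2, rfl⟩⟩, by simp, Or.inl ?_⟩)
      rw [fs_pair, sn_pair, sn_pair, Mm_tg (U := U)]
    | @eq n s t =>
      apply hb
      refine mem_bp.2 (Or.inl ⟨pair (pw X n) (tg X n s), mem_TT.2 ⟨n, Or.inr ⟨s, hφ.1, rfl⟩⟩,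
        pair (pw X n) (tg X n t), mem_TT.2 ⟨n, Or.inr ⟨t, hφ.2, rfl⟩⟩, by simp, Or.inr ?_⟩)
      rw [fs_pair, sn_pair, sn_pair, Ee_tg (U := U)]
    | @pred n s =>
      apply hb
      refine mem_bp.2 (Or.inr ⟨pair (pw X n) (tg X n s), mem_TT.2 ⟨n, Or.inr ⟨s, hφ, rfl⟩⟩, ?_⟩)
      rw [fs_pair, sn_pair, Pr_tg]
    | @neg n φ ih =>
      apply hc
      refine mem_T2.2 (Or.inl ⟨_, ih hφ, ?_⟩)
      rw [fs_pair, sn_pair, E_neg]
    | @and n φ ψ ih1 ih2 =>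
      apply hc
      refine mem_T2.2 (Or.inr (Or.inl ⟨_, ih1 hφ.1, _, ih2 hφ.2, by simp, ?_⟩))
      rw [fs_pair, sn_pair, sn_pair, E_and]
    | @ex n φ ih =>
      apply hc
      have h1 : pair (pw X n) ∅ ∈ RR U X := by
        apply hb
        refine mem_bp.2 (Or.inl ⟨pair (pw X n) ∅, mem_TT.2 ⟨n, Or.inl rfl⟩,
          pair (pw X n) ∅, mem_TT.2 ⟨n, Or.inl rfl⟩, by simp, Or.inl ?_⟩)
        rw [fs_pair, sn_pair, Mm_empty_left]
      refine mem_T2.2 (Or.inr (Or.inr ⟨_, ih hφ, _, h1, ?_, ?_⟩))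
      · rw [fs_pair, fs_pair]
        rfl
      · rw [fs_pair, sn_pair, E_ex]

/-! ### The definable subsets -/

theorem mem_DefU {X y : ZFSet.{0}} : y ∈ DefU U X ↔ y ⊆ X ∧
    ∃ φ : FmP 1, φ.Over {x | x ∈ X} ∧
      ∀ z, z ∈ y ↔ z ∈ X ∧ φ.Sat {x | x ∈ X} {x | x ∈ U} ![z] := by
  rw [DefU, ZFSet.mem_sep, ZFSet.mem_powerset]

theorem mem_imfs {X : ZFSet.{0}} {φ : FmP 1} {z : ZFSet.{0}} :
    z ∈ im fs (E U X 1 φ) ↔ z ∈ X ∧ φ.Sat {x | x ∈ X} {x | x ∈ U} ![z] := by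
  rw [mem_im]
  have h1 : ∀ v : Fin 1 → ZFSet.{0}, v = ![v 0] := by
    intro v
    funext i
    fin_cases i
    rfl
  constructor
  · rintro ⟨p, hp, rfl⟩
    obtain ⟨v, hv, h, rfl⟩ := mem_E.1 hp
    rw [h1 v] at h
    simp only [W868.tup, fs_pair]
    exact ⟨hv 0, h⟩
  · rintro ⟨h2, h3⟩
    refine ⟨_, mem_E.2 ⟨![z], fun i => ?_, h3, rfl⟩, by simp [W868.tup]⟩
    fin_cases i
    exact h2

theorem DefU_eq {X : ZFSet.{0}} (hX : ∃ x, x ∈ X) :
    DefU U X = im (fun q => im fs (sn q))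
      (ZFSet.sep (fun q => fs q = ZFSet.prod X {∅}) (RR U X)) := by
  have h1 : ZFSet.prod X {∅} = pw X 1 := rfl
  ext y
  rw [mem_DefU, mem_im]
  constructor
  · rintro ⟨hy, φ, hφ, h⟩
    refine ⟨pair (pw X 1) (E U X 1 φ), ZFSet.mem_sep.2 ⟨(mem_RR hX).2 ⟨1, φ, hφ, rfl⟩, ?_⟩, ?_⟩
    · rw [fs_pair, h1]
    · rw [sn_pair]
      ext z
      rw [h, mem_imfs]
  · rintro ⟨q, hq, rfl⟩
    obtain ⟨h2, h3⟩ := ZFSet.mem_sep.1 hq
    obtain ⟨n, φ, hφ, rfl⟩ := (mem_RR hX).1 h2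
    rw [fs_pair, h1] at h3
    have h4 : n = 1 := pw_inj hX h3
    subst h4
    rw [sn_pair]
    exact ⟨fun z hz => (mem_imfs.1 hz).1, φ, hφ, fun z => mem_imfs⟩

theorem DefU_empty : DefU U ∅ = {∅} := by
  ext y
  rw [mem_DefU, ZFSet.mem_singleton]
  constructor
  · rintro ⟨h, -⟩
    rw [ZFSet.eq_empty]
    exact fun z hz => ZFSet.notMem_empty _ (h hz)
  · rintro rfl
    refine ⟨fun z hz => hz, fls 1, fls_over 1 _, fun z => ?_⟩
    simp

/-- The truth of a formula depends only on the predicate on the structure. -/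
theorem sat_congr {X : Set ZFSet.{0}} {P Q : Set ZFSet.{0}} (h : ∀ x ∈ X, x ∈ P ↔ x ∈ Q) :
    {n : ℕ} → (φ : FmP n) → φ.Over X → (v : Fin n → ZFSet.{0}) → (∀ i, v i ∈ X) →
    (φ.Sat X P v ↔ φ.Sat X Q v)
  | _, .mem s t, _, v, _ => Iff.rfl
  | _, .eq s t, _, v, _ => Iff.rfl
  | _, .pred s, h1, v, hv => by
    refine h _ ?_
    cases s with
    | inl i => exact hv i
    | inr a => exact tOver_inr.1 h1
  | _, .neg φ, h1, v, hv => not_congr (sat_congr h φ h1 v hv)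
  | _, .and φ ψ, h1, v, hv => and_congr (sat_congr h φ h1.1 v hv) (sat_congr h ψ h1.2 v hv)
  | _, .ex φ, h1, v, hv => by
    refine exists_congr fun a => and_congr_right fun ha => ?_
    refine sat_congr h φ h1 _ fun i => ?_
    refine Fin.cases ?_ (fun i => ?_) i
    · exact ha
    · exact hv i

theorem DefU_congr {U W X : ZFSet.{0}} (h : ∀ x ∈ X, x ∈ U ↔ x ∈ W) : DefU U X = DefU W X := by
  ext y
  rw [mem_DefU, mem_DefU]
  refine and_congr_right fun _ => exists_congr fun φ => and_congr_right fun hφ => ?_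
  refine forall_congr' fun z => iff_congr Iff.rfl (and_congr_right fun hz => ?_)
  refine sat_congr (P := {x | x ∈ U}) (Q := {x | x ∈ W}) h φ hφ _ fun i => ?_
  fin_cases i
  exact hz

section dfn

variable {M : Set ZFSet.{0}} (hM : IsZF M) {W : ZFSet.{0}} (hW : W ∈ M)

include hM hW

theorem dfn_RR : DfnF M M fun w : Fin 1 → ZFSet.{0} => RR W (w 0) := by
  have hB := hM.base
  have hT := dfn_TT hM
  refine dfn_clo hM (a := bp W) (T := T2) ?_ ?_ fin_T2 T2_mono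
  · refine hB.union' (hB.union' ?_ ?_) ?_
    · refine hM.im' (h := fun q _ => pair (fs (fs q)) (Mm (sn (fs q)) (sn (sn q))))
        (dfn_Wq hM hT) ?_
      exact hB.pair' (hM.fs' (hM.fs' (DfnF.proj 0))) (DfnF.comp2 (f := Mm) (dfn_Mm hM)
        (hM.sn' (hM.fs' (DfnF.proj 0))) (hM.sn' (hM.sn' (DfnF.proj 0))))
    · refine hM.im' (h := fun q _ => pair (fs (fs q)) (Ee (sn (fs q)) (sn (sn q))))
        (dfn_Wq hM hT) ?_
      exact hB.pair' (hM.fs' (hM.fs' (DfnF.proj 0))) (DfnF.comp2 (f := Ee) (dfn_Ee hM)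
        (hM.sn' (hM.fs' (DfnF.proj 0))) (hM.sn' (hM.sn' (DfnF.proj 0))))
    · refine hM.im' (h := fun a _ => pair (fs a) (Pr W (sn a))) hT ?_
      refine hB.pair' (hM.fs' (DfnF.proj 0)) ?_
      refine DfnF.comp1 (f := Pr W) ?_ (hM.sn' (DfnF.proj 0))
      refine hM.im' (h := fun t _ => fs t) ?_ (hM.fs' (DfnF.proj 0))
      refine hM.sep' (Q := fun t _ => sn t ∈ W) (DfnF.proj 0) ?_
      exact Dfn.mem (hM.sn' (DfnF.proj 0)) (DfnF.const hW)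
  · refine hB.union' ?_ (hB.union' ?_ ?_)
    · refine hM.im' (h := fun q _ => pair (fs q) (ZFSet.sep (fun p => p ∉ sn q) (fs q)))
        (DfnF.proj 1) ?_
      refine hB.pair' (hM.fs' (DfnF.proj 0)) ?_
      refine hM.sep' (Q := fun p v => p ∉ sn (v 0)) (hM.fs' (DfnF.proj 0)) ?_
      exact (Dfn.mem (DfnF.proj 0) (hM.sn' (DfnF.proj 1))).not
    · refine hM.im' (h := fun q _ => pair (fs (fs q))
        (ZFSet.sep (fun p => p ∈ sn (sn q)) (sn (fs q)))) (dfn_Wq hM (DfnF.proj 1)) ?_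
      refine hB.pair' (hM.fs' (hM.fs' (DfnF.proj 0))) ?_
      refine hM.sep' (Q := fun p v => p ∈ sn (sn (v 0))) (hM.sn' (hM.fs' (DfnF.proj 0))) ?_
      exact Dfn.mem (DfnF.proj 0) (hM.sn' (hM.sn' (DfnF.proj 1)))
    · refine hM.im' (h := fun q _ => pair (fs (sn q)) (im sn (sn (fs q)))) (dfn_Vq hM) ?_
      refine hB.pair' (hM.fs' (hM.sn' (DfnF.proj 0))) ?_
      exact hM.im' (h := fun t _ => sn t) (hM.sn' (hM.fs' (DfnF.proj 0))) (hM.sn' (DfnF.proj 0))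

theorem dfn_DefU : DfnF M M fun w : Fin 1 → ZFSet.{0} => DefU W (w 0) := by
  classical
  have hB := hM.base
  have he := hM.empty_mem
  have hs := hM.single_mem he
  have h1 : DfnF M M fun w : Fin 1 → ZFSet.{0} => im (fun q => im fs (sn q))
      (ZFSet.sep (fun q => fs q = ZFSet.prod (w 0) {∅}) (RR W (w 0))) := by
    refine hM.im' (h := fun q _ => im fs (sn q)) ?_ ?_
    · refine hM.sep' (Q := fun q v => fs q = ZFSet.prod (v 0) {∅}) (dfn_RR hM hW) ?_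
      exact Dfn.eq (hM.fs' (DfnF.proj 0)) (hM.prod' (DfnF.proj 1) (DfnF.const hs))
    · exact hM.im' (h := fun t _ => fs t) (hM.sn' (DfnF.proj 0)) (hM.fs' (DfnF.proj 0))
  have h2 := DfnF.ite (M := M) (S := M) (n := 1) (Q := fun w : Fin 1 → ZFSet.{0} => w 0 = ∅)
    (Dfn.eq (DfnF.proj 0) (DfnF.const he)) (DfnF.const hs) h1
  refine h2.congr fun w hw => ?_
  split_ifs with h
  · rw [h, DefU_empty]
  · have h3 : ∃ x, x ∈ w 0 := by
      by_contra h4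
      push Not at h4
      exact h (ZFSet.eq_empty _ |>.2 h4)
    rw [DefU_eq h3]

end dfn

/-! ### The levels -/

noncomputable def LZ (W : ZFSet.{0}) : ZFSet.{0} → ZFSet.{0} :=
  wfF (fun z => z) ZFSet.mem_wf fun _ g => ZFSet.sUnion (im (fun p => DefU W (sn p)) g)

theorem LZ_eq (W z : ZFSet.{0}) :
    LZ W z = ZFSet.sUnion (im (fun p => DefU W (sn p)) (gr (LZ W) z)) := by
  rw [LZ, wfF_eq]

theorem mem_LZ {W z y : ZFSet.{0}} : y ∈ LZ W z ↔ ∃ u ∈ z, y ∈ DefU W (LZ W u) := by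
  rw [LZ_eq, ZFSet.mem_sUnion]
  constructor
  · rintro ⟨w, hw, h⟩
    obtain ⟨p, hp, rfl⟩ := mem_im.1 hw
    obtain ⟨u, hu, rfl⟩ := mem_gr.1 hp
    rw [sn_pair] at h
    exact ⟨u, hu, h⟩
  · rintro ⟨u, hu, h⟩
    exact ⟨_, mem_im.2 ⟨_, mem_gr.2 ⟨u, hu, rfl⟩, rfl⟩, by rwa [sn_pair]⟩

theorem mem_LevU {U : ZFSet.{0}} {α : Ordinal.{0}} {y : ZFSet.{0}} :
    y ∈ LevU U α ↔ ∃ β < α, y ∈ DefU U (LevU U β) := by
  rw [LevU, ZFSet.mem_sUnion]
  constructor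
  · rintro ⟨w, hw, h⟩
    obtain ⟨β, rfl⟩ := ZFSet.mem_range.1 hw
    exact ⟨β.1, β.2, h⟩
  · rintro ⟨β, hβ, h⟩
    exact ⟨_, ZFSet.mem_range.2 ⟨⟨β, hβ⟩, rfl⟩, h⟩

theorem LZ_toZFSet (W : ZFSet.{0}) (α : Ordinal.{0}) : LZ W α.toZFSet = LevU W α := by
  induction α using WellFoundedLT.induction with
  | _ α ih =>
    ext y
    rw [mem_LZ, mem_LevU]
    constructor
    · rintro ⟨u, hu, h⟩
      obtain ⟨β, hβ, rfl⟩ := Ordinal.mem_toZFSet_iff.1 hu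
      rw [ih β hβ] at h
      exact ⟨β, hβ, h⟩
    · rintro ⟨β, hβ, h⟩
      refine ⟨β.toZFSet, Ordinal.mem_toZFSet_iff.2 ⟨β, hβ, rfl⟩, ?_⟩
      rwa [ih β hβ]

theorem dfn_LZ {M : Set ZFSet.{0}} (hM : IsZF M) {W : ZFSet.{0}} (hW : W ∈ M) :
    DfnF M M fun w : Fin 1 → ZFSet.{0} => LZ W (w 0) := by
  have hB := hM.base
  refine hM.memrec (G := fun _ g => ZFSet.sUnion (im (fun p => DefU W (sn p)) g)) ?_ (LZ_eq W)
  refine hB.sUnion' (hM.im' (h := fun p _ => DefU W (sn p)) (DfnF.proj 1) ?_)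
  exact DfnF.comp1 (f := DefU W) (dfn_DefU hM hW) (hM.sn' (DfnF.proj 0))

/-- The levels are elements of every inner model of ZF that contains the set. -/
theorem levU_mem {M : Set ZFSet.{0}} (hM : IsZF M) (hO : ∀ x : ZFSet.{0}, x.IsOrdinal → x ∈ M)
    {W : ZFSet.{0}} (hW : W ∈ M) : ∀ α : Ordinal.{0}, LevU W α ∈ M := by
  intro α
  rw [← LZ_toZFSet]
  exact (dfn_LZ hM hW).1 (fun _ => α.toZFSet) fun _ => hO _ (ZFSet.isOrdinal_toZFSet α)

/-- The levels depend only on the intersection of the set with the inner model. -/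
theorem levU_congr {M : Set ZFSet.{0}} (hM : IsZF M)
    (hO : ∀ x : ZFSet.{0}, x.IsOrdinal → x ∈ M) {U W : ZFSet.{0}} (hW : W ∈ M)
    (h : ∀ x ∈ M, x ∈ U ↔ x ∈ W) (α : Ordinal.{0}) : LevU U α = LevU W α := by
  induction α using WellFoundedLT.induction with
  | _ α ih =>
    ext y
    rw [mem_LevU, mem_LevU]
    refine exists_congr fun β => and_congr_right fun hβ => ?_
    rw [ih β hβ, DefU_congr fun x hx => h x (hM.trans _ (levU_mem hM hO hW β) _ hx)]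

end Pool.Agent.R587.LMU

namespace Pool.Agent.R587

open Pool.Agent.W868

/-- `V = L[U]` for the two hierarchies. -/
theorem VLU.lv {U : ZFSet.{0}} (hV : VLU U) :
    ∀ x : ZFSet.{0}, ∃ ξ : ZFSet.{0}, ξ.IsOrdinal ∧ x ∈ Lv U ξ := by
  intro x
  have hU : U ∈ (Set.univ : Set ZFSet.{0}) := Set.mem_univ _
  have hZ : IsZF (LC Set.univ U) := isZF_LC isZF_univ hU
  have hO : ∀ y : ZFSet.{0}, y.IsOrdinal → y ∈ LC Set.univ U :=
    fun y hy => ord_LC isZF_univ hU (Set.mem_univ _) hy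
  obtain ⟨δ, -, hδ, h1⟩ := exists_level isZF_univ hU hU (Q := fun w z => w = z)
    (Dfn.eq (DfnF.proj 0) (DfnF.proj 1))
  have hW : ZFSet.sep (fun u => u ∈ U) (Lv U δ) ∈ LC Set.univ U := by
    refine ⟨sc δ, Set.mem_univ _, isOrdinal_sc hδ, ?_⟩
    rw [Lv_sc]
    refine mem_step.2 (Or.inr ⟨10, by omega, Lv U δ, ZFSet.mem_insert _ _, Lv U δ,
      ZFSet.mem_insert _ _, fun u => ?_⟩)
    rw [ZFSet.mem_sep]
    exact ⟨fun hu => hu, fun hu => hu⟩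
  obtain ⟨α, hα⟩ := hV x
  have h2 : LevU U α ∈ LC Set.univ U := by
    rw [LMU.levU_congr hZ hO hW (fun y hy => ?_) α]
    · exact LMU.levU_mem hZ hO hW α
    · rw [ZFSet.mem_sep]
      constructor
      · intro h3
        obtain ⟨w, hw, rfl⟩ := h1 y h3 ⟨y, hy, rfl⟩
        exact ⟨hw, h3⟩
      · exact fun h3 => h3.2
  obtain ⟨ξ, -, h3, h4⟩ := hZ.trans _ h2 _ hα
  exact ⟨ξ, h3, h4⟩

end Pool.Agent.R587
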