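import Pool.Agent.R587.Kap

/-!
# The long iterate is a level of the hierarchy
-/

set_option autoImplicit false

namespace Pool.Agent.R587

open Pool.Agent.W868 hiding Models
open ZFSet (pair)
open Cardinal

namespace NMs

variable {U : ZFSet.{0}} (hU : NMs U)

include hU

theorem kK : (ZFSet.sUnion U : ZFSet.{0}) ∈ U := by
  rcases hU.ultra ∅ (ZFSet.empty_subset _) with h | h
  · exact absurd h hU.ne
  · have h1 : (ZFSet.sUnion U : ZFSet.{0}) \ ∅ = ZFSet.sUnion U := by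
      ext z
      simp
    rwa [h1] at h

omit hU in
theorem subK {A : ZFSet.{0}} (hA : A ∈ U) : A ⊆ (ZFSet.sUnion U : ZFSet.{0}) :=
  fun _ hy => ZFSet.mem_sUnion.2 ⟨A, hA, hy⟩

theorem upK {A B : ZFSet.{0}} (hA : A ∈ U) (hBk : B ⊆ (ZFSet.sUnion U : ZFSet.{0}))
    (h : A ⊆ B) : B ∈ U := by
  rcases hU.ultra B hBk with h1 | h1
  · exact h1
  · exfalso
    have h2 := hU.inter _ hA _ h1
    have h3 : A ∩ ((ZFSet.sUnion U : ZFSet.{0}) \ B) = ∅ := by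
      rw [ZFSet.eq_empty]
      intro z hz
      rw [ZFSet.mem_inter, ZFSet.mem_sdiff] at hz
      exact hz.2.2 (h hz.1)
    rw [h3] at h2
    exact hU.ne h2

theorem inhK {A : ZFSet.{0}} (hA : A ∈ U) : ∃ x, x ∈ A := by
  by_contra h
  have h1 : A = ∅ := (ZFSet.eq_empty _).2 fun y hy => h ⟨y, hy⟩
  exact hU.ne (h1 ▸ hA)

theorem gtK {α : ZFSet.{0}} (hα : α ∈ (ZFSet.sUnion U : ZFSet.{0})) :
    ∃ β ∈ (ZFSet.sUnion U : ZFSet.{0}), α ∈ β := by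
  obtain ⟨β, hβ⟩ := hU.inhK (hU.unif α hα)
  exact ⟨β, ZFSet.mem_sep.1 hβ⟩

theorem scK {α : ZFSet.{0}} (hα : α ∈ (ZFSet.sUnion U : ZFSet.{0})) :
    sc α ∈ (ZFSet.sUnion U : ZFSet.{0}) := by
  obtain ⟨β, hβ, h1⟩ := hU.gtK hα
  have hβo := hU.ord.mem hβ
  have h2 : sc α ⊆ β := fun y hy => by
    rcases ZFSet.mem_insert_iff.1 hy with rfl | hy
    · exact h1
    · exact hβo.mem_trans hy h1
  exact (isOrdinal_sc (hU.ord.mem hα)).mem_of_subset_of_mem hU.ord h2 hβ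

/-- Normality, for relations. -/
theorem normK {P : ZFSet.{0} → ZFSet.{0} → Prop}
    (h : ∀ ξ ∈ (ZFSet.sUnion U : ZFSet.{0}), ∃ B ∈ U, ∀ η ∈ B, P ξ η) :
    ∃ B ∈ U, ∀ η ∈ B, ∀ ξ ∈ η, P ξ η := by
  let F : ZFSet.{0} := ZFSet.sep (fun p => ∃ ξ η, p = pair ξ η ∧ P ξ η)
    (ZFSet.prod (ZFSet.sUnion U) (ZFSet.sUnion U))
  have hF : ∀ {ξ η : ZFSet.{0}}, ξ ∈ (ZFSet.sUnion U : ZFSet.{0}) →
      η ∈ (ZFSet.sUnion U : ZFSet.{0}) → (pair ξ η ∈ F ↔ P ξ η) := by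
    intro ξ η hξ hη
    rw [ZFSet.mem_sep, ZFSet.pair_mem_prod]
    constructor
    · rintro ⟨-, ξ', η', h1, h2⟩
      obtain ⟨rfl, rfl⟩ := ZFSet.pair_inj.1 h1
      exact h2
    · intro h1
      exact ⟨⟨hξ, hη⟩, ξ, η, rfl, h1⟩
  refine ⟨_, hU.norm F fun ξ hξ => ?_, fun η hη ξ hξ => ?_⟩
  · obtain ⟨B, hB, h1⟩ := h ξ hξ
    refine hU.upK hB (fun y hy => (ZFSet.mem_sep.1 hy).1) fun η hη => ?_
    have hηk := subK hB hη
    exact ZFSet.mem_sep.2 ⟨hηk, (hF hξ hηk).2 (h1 η hη)⟩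
  · obtain ⟨h1, h2⟩ := ZFSet.mem_sep.1 hη
    exact (hF (hU.ord.mem_trans hξ h1) h1).1 (h2 ξ hξ)

theorem card_ltK {μ : ZFSet.{0}} (hμ : μ ∈ (ZFSet.sUnion U : ZFSet.{0})) :
    μ.card < (ZFSet.sUnion U : ZFSet.{0}).card := by
  by_contra hcon
  push Not at hcon
  obtain ⟨f, hf⟩ := exists_isInj hcon
  obtain ⟨B, hB, h1⟩ := hU.normK (P := fun ξ η => pair η ξ ∉ f) fun ξ hξ => by
    by_cases h : ∃ η ∈ (ZFSet.sUnion U : ZFSet.{0}), pair η ξ ∈ f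
    · obtain ⟨η, hη, h2⟩ := h
      refine ⟨_, hU.unif η hη, fun η' hη' h3 => ?_⟩
      have h4 := hf.2 _ _ _ h2 h3
      have h5 := (ZFSet.mem_sep.1 hη').2
      rw [h4] at h5
      exact ZFSet.mem_irrefl _ h5
    · push Not at h
      exact ⟨_, hU.kK, fun η hη => h η hη⟩
  obtain ⟨η, hη⟩ := hU.inhK (hU.inter _ hB _ (hU.unif μ hμ))
  rw [ZFSet.mem_inter, ZFSet.mem_sep] at hη
  obtain ⟨h2, h3, h4⟩ := hη
  obtain ⟨ξ, hξ, h5⟩ := fun_exists hf.1 h3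
  exact h1 η h2 ξ ((hU.ord.mem h3).mem_trans hξ h4) h5

end NMs

/-- The long iterate. -/
structure LI (U : ZFSet.{0}) (c : Cardinal.{0}) (Q W R : ZFSet.{0})
    (σ g : ZFSet.{0} → ZFSet.{0}) : Prop where
  nms : NMs U
  inf : ℵ₀ ≤ c
  cU : kap c ∈ (ZFSet.sUnion U : ZFSet.{0})
  pm : Pm {x | x ∈ Q} W
  qc : Q.card ≤ c
  rea : Rea {x | x ∈ Q} W {j | j ∈ (ZFSet.sUnion U : ZFSet.{0})} {x | x ∈ R} σ g
  hul : ∀ y ∈ R, y ∈ Hd {x | x ∈ Q} {x | x ∈ R} σ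
    {c | ∃ j ∈ (ZFSet.sUnion U : ZFSet.{0}), c = g j}

namespace LI

variable {U : ZFSet.{0}} {c : Cardinal.{0}} {Q W R : ZFSet.{0}} {σ g : ZFSet.{0} → ZFSet.{0}}
  (h : LI U c Q W R σ g)

include h

theorem gen : Gen {x | x ∈ Q} W {x | x ∈ R} σ {c | ∃ j ∈ (ZFSet.sUnion U : ZFSet.{0}), c = g j} :=
  h.rea.toGen h.pm

theorem gk {j : ZFSet.{0}} (hj : j ∈ (ZFSet.sUnion U : ZFSet.{0})) :
    g j ∈ (ZFSet.sUnion (σ W) : ZFSet.{0}) := h.gen.ck ⟨j, hj, rfl⟩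

theorem go {j : ZFSet.{0}} (hj : j ∈ (ZFSet.sUnion U : ZFSet.{0})) : (g j).IsOrdinal :=
  h.gen.ordR.mem (h.gk hj)

theorem ko {j : ZFSet.{0}} (hj : j ∈ (ZFSet.sUnion U : ZFSet.{0})) : j.IsOrdinal :=
  h.nms.ord.mem hj

theorem g_iff {i j : ZFSet.{0}} (hi : i ∈ (ZFSet.sUnion U : ZFSet.{0}))
    (hj : j ∈ (ZFSet.sUnion U : ZFSet.{0})) : g i ∈ g j ↔ i ∈ j := by
  constructor
  · intro h1
    rcases (h.ko hi).mem_trichotomous (h.ko hj) with h2 | h2 | h2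
    · exact h2
    · exact absurd (h2 ▸ h1) (ZFSet.mem_irrefl _)
    · exact absurd (h.rea.mono i hi j hj h2) (ZFSet.mem_asymm h1)
  · exact h.rea.mono j hj i hi

theorem le_g {j : ZFSet.{0}} : j ∈ (ZFSet.sUnion U : ZFSet.{0}) → j ⊆ g j := by
  induction j using ZFSet.inductionOn with
  | _ j ih =>
  intro hj i hi
  have hik := h.nms.ord.mem_trans hi hj
  exact (h.ko hik).mem_of_subset_of_mem (h.go hj) (ih i hi hik) ((h.g_iff hik hj).2 hi)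

/-- Finitely many critical points are bounded by a critical point. -/
theorem bound {P : ZFSet.{0} → Prop} (hP0 : ∃ i ∈ (ZFSet.sUnion U : ZFSet.{0}), P i)
    (hP1 : ∀ i ∈ (ZFSet.sUnion U : ZFSet.{0}), P i → P (sc i)) {n : ℕ} {s : ZFSet.{0}}
    (hs : Inc {c | ∃ j ∈ (ZFSet.sUnion U : ZFSet.{0}), c = g j ∧ P j} n s) :
    ∃ j ∈ (ZFSet.sUnion U : ZFSet.{0}), P j ∧ ∀ ξ ∈ s, ξ ∈ g j := by
  cases hs with
  | zero =>
    obtain ⟨i, hi, h1⟩ := hP0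
    exact ⟨i, hi, h1, fun ξ hξ => absurd hξ (ZFSet.notMem_empty ξ)⟩
  | @succ n s d hs hd hlt =>
    obtain ⟨j, hj, rfl, h1⟩ := hd
    have hsc := h.nms.scK hj
    have h2 : g j ∈ g (sc j) := (h.g_iff hj hsc).2 (ZFSet.mem_insert _ _)
    refine ⟨sc j, hsc, hP1 j hj h1, fun ξ hξ => ?_⟩
    rcases ZFSet.mem_insert_iff.1 hξ with rfl | hξ
    · exact h2
    · exact (h.go hsc).mem_trans (hlt ξ hξ) h2

theorem kne : ∃ i, i ∈ (ZFSet.sUnion U : ZFSet.{0}) := ⟨_, h.cU⟩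

/-- Elements of the iterate are definable from critical points below some critical point. -/
theorem rep {y : ZFSet.{0}} (hy : y ∈ R) : ∃ a ∈ Q, ∃ (n : ℕ) (s : ZFSet.{0}),
    Inc {c | ∃ j ∈ (ZFSet.sUnion U : ZFSet.{0}), c = g j} n s ∧ ∃ φ : Fml Empty 3,
    Dy {x | x ∈ R} φ y (σ a) s ∧ ∃ j ∈ (ZFSet.sUnion U : ZFSet.{0}), ∀ ξ ∈ s, ξ ∈ g j := by
  obtain ⟨-, a, ha, n, s, hs, φ, hφ⟩ := h.hul y hy
  obtain ⟨i, hi⟩ := h.kne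
  obtain ⟨j, hj, -, h1⟩ := h.bound (P := fun _ => True) ⟨i, hi, trivial⟩ (fun _ _ _ => trivial)
    (hs.mono fun c hc => by
      obtain ⟨j, hj, rfl⟩ := hc
      exact ⟨j, hj, rfl, trivial⟩)
  exact ⟨a, ha, n, s, hs, φ, hφ, j, hj, h1⟩

theorem lt_g {α : ZFSet.{0}} (hα : α ∈ (ZFSet.sUnion (σ W) : ZFSet.{0})) :
    ∃ j ∈ (ZFSet.sUnion U : ZFSet.{0}), α ∈ g j := by
  have hαR : α ∈ R := h.gen.trans _ h.gen.pmR.kQ _ hα
  obtain ⟨a, ha, n, s, hs, φ, hφ, j, hj, h1⟩ := h.rep hαR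
  exact ⟨j, hj, h.gen.bdd ha hs ⟨j, hj, rfl⟩ h1 hαR hφ hα⟩

/-- Ordinals below a critical point. -/
theorem below {j α : ZFSet.{0}} (hj : j ∈ (ZFSet.sUnion U : ZFSet.{0})) (hα : α ∈ g j) :
    α ∈ Hd {x | x ∈ Q} {x | x ∈ R} σ {d | ∃ i ∈ (ZFSet.sUnion U : ZFSet.{0}), d = g i ∧ i ∈ j} := by
  have hαR : α ∈ R := h.gen.trans _ (h.gen.cR ⟨j, hj, rfl⟩) _ hα
  obtain ⟨-, a, ha, n, s, hs, φ, hφ⟩ := h.hul α hαR
  obtain ⟨h1, a', ha', n', s', hs', φ', h2⟩ := h.gen.belowc ⟨j, hj, rfl⟩ hα hs ha hφ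
  refine ⟨h1, a', ha', n', s', hs'.mono fun d hd => ?_, φ', h2⟩
  obtain ⟨⟨i, hi, rfl⟩, h3⟩ := hd
  exact ⟨i, hi, rfl, (h.g_iff hi hj).1 h3⟩

/-- The critical points are below `κ`. -/
theorem g_lt {j : ZFSet.{0}} (hj : j ∈ (ZFSet.sUnion U : ZFSet.{0})) :
    g j ∈ (ZFSet.sUnion U : ZFSet.{0}) := by
  have hκ := h.nms.ord
  -- a cardinal below `κ`
  obtain ⟨m, hm1, hm2, hm3⟩ : ∃ m : Cardinal.{0}, c ≤ m ∧ j.card ≤ m ∧
      m < (ZFSet.sUnion U : ZFSet.{0}).card := by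
    have h1 := h.nms.card_ltK hj
    have h2 := h.nms.card_ltK h.cU
    rw [card_kap] at h2
    exact ⟨max c j.card, le_max_left _ _, le_max_right _ _, max_lt h2 h1⟩
  have hmi : ℵ₀ ≤ m := h.inf.trans hm1
  obtain ⟨K, hK1, hK2⟩ := exists_hd hmi (Q := Q) (D := im g j) (h.qc.trans hm1)
    (card_im_le.trans hm2) {x | x ∈ R} σ
  have h1 : g j ⊆ K := by
    intro α hα
    rw [hK1]
    obtain ⟨h1, a', ha', n', s', hs', h2⟩ := h.below hj hα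
    refine ⟨h1, a', ha', n', s', hs'.mono fun d hd => ?_, h2⟩
    obtain ⟨i, hi, rfl, h3⟩ := hd
    exact mem_im.2 ⟨i, h3, rfl⟩
  have h2 : (g j).card ≤ m := (ZFSet.card_mono h1).trans hK2
  rcases (h.go hj).mem_trichotomous hκ with h3 | h3 | h3
  · exact h3
  · rw [h3] at h2
    exact absurd h2 (not_le.2 hm3)
  · have h4 : (ZFSet.sUnion U : ZFSet.{0}) ⊆ g j := (h.go hj).subset_of_mem h3
    exact absurd ((ZFSet.card_mono h4).trans h2) (not_le.2 hm3)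

/-- The critical point of the iterate is `κ`. -/
theorem k_eq : (ZFSet.sUnion (σ W) : ZFSet.{0}) = ZFSet.sUnion U := by
  ext α
  constructor
  · intro hα
    obtain ⟨j, hj, h1⟩ := h.lt_g hα
    exact h.nms.ord.mem_trans h1 (h.g_lt hj)
  · intro hα
    exact (h.ko hα).mem_of_subset_of_mem h.gen.ordR (h.le_g hα) (h.gk hα)

/-- Almost all ordinals are critical points. -/
theorem fixed : ∃ B ∈ U, ∀ η ∈ B, g η = η := by
  obtain ⟨B1, hB1, h1⟩ := h.nms.normK (P := fun ξ η => g ξ ∈ η) fun ξ hξ =>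
    ⟨_, h.nms.unif _ (h.g_lt hξ), fun η hη => (ZFSet.mem_sep.1 hη).2⟩
  obtain ⟨B2, hB2, h2⟩ := h.nms.normK (P := fun ξ η => sc ξ ∈ η) fun ξ hξ =>
    ⟨_, h.nms.unif _ (h.nms.scK hξ), fun η hη => (ZFSet.mem_sep.1 hη).2⟩
  refine ⟨_, h.nms.inter _ (h.nms.inter _ hB1 _ hB2) _ (h.nms.unif _ h.cU), fun η hη => ?_⟩
  rw [ZFSet.mem_inter, ZFSet.mem_inter, ZFSet.mem_sep] at hη
  obtain ⟨⟨h3, h4⟩, hηk, h5⟩ := hη
  ext α
  constructor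
  · intro hα
    have hαR : α ∈ R := h.gen.trans _ (h.gen.cR ⟨η, hηk, rfl⟩) _ hα
    obtain ⟨-, a, ha, n, s, hs, φ, hφ⟩ := h.below hηk hα
    obtain ⟨i, hi, hiη, h6⟩ := h.bound (P := fun i => i ∈ η) ⟨_, h.cU, h5⟩
      (fun i _ hi => h2 η h4 i hi) hs
    have h7 := h.gen.bdd ha (hs.mono fun d hd => by
      obtain ⟨j, hj, rfl, -⟩ := hd
      exact ⟨j, hj, rfl⟩) ⟨i, hi, rfl⟩ h6 hαR hφ (h.gen.ordR.mem_trans hα (h.gk hηk))
    exact (h.ko hηk).mem_trans h7 (h1 η h3 i hiη)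
  · intro hα
    exact h.le_g hηk hα

theorem mesU {A : ZFSet.{0}} (hA : A ∈ σ W) : A ∈ U := by
  have hAR : A ∈ R := h.gen.trans _ (h.rea.el.maps _ h.pm.mem) _ hA
  obtain ⟨a, ha, n, s, hs, φ, hφ, j, hj, h1⟩ := h.rep hAR
  obtain ⟨B, hB, h2⟩ := h.fixed
  refine h.nms.upK (h.nms.inter _ hB _ (h.nms.unif j hj)) ?_ fun η hη => ?_
  · rw [← h.k_eq]
    exact fun y hy => ZFSet.mem_sUnion.2 ⟨A, hA, hy⟩
  · rw [ZFSet.mem_inter, ZFSet.mem_sep] at hη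
    obtain ⟨h3, h4, h5⟩ := hη
    have h6 := h.gen.mes ha hs ⟨η, h4, rfl⟩ (fun ξ hξ =>
      (h.go h4).mem_trans (h1 ξ hξ) ((h.g_iff hj h4).2 h5)) hAR hφ hA
    rwa [h2 η h3] at h6

/-- The measure of the iterate. -/
theorem mes_iff {A : ZFSet.{0}} (hA : A ∈ R) : A ∈ σ W ↔ A ∈ U := by
  refine ⟨h.mesU, fun h1 => ?_⟩
  have h2 : A ⊆ (ZFSet.sUnion (σ W) : ZFSet.{0}) := by
    rw [h.k_eq]
    exact fun y hy => ZFSet.mem_sUnion.2 ⟨A, h1, hy⟩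
  rcases h.gen.pmR.ultra A hA h2 with h3 | h3
  · exact h3
  · exfalso
    have h4 := h.nms.inter _ h1 _ (h.mesU h3)
    have h5 : A ∩ ((ZFSet.sUnion (σ W) : ZFSet.{0}) \ A) = ∅ := by
      rw [ZFSet.eq_empty]
      intro z hz
      rw [ZFSet.mem_inter, ZFSet.mem_sdiff] at hz
      exact hz.2.2 hz.1
    rw [h5] at h4
    exact h.nms.ne h4

end LI

end Pool.Agent.R587
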