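import Pool.Agent.R587.Lng

/-!
# Comparison of the models with a measure
-/

set_option autoImplicit false

namespace Pool.Agent.R587

open Pool.Agent.W868 hiding Models
open ZFSet (pair)
open Cardinal

theorem GR_congr {A A' u a b : ZFSet.{0}} {i : ℕ} (h : u ∈ A ↔ u ∈ A') :
    GR A i u a b ↔ GR A' i u a b := by
  unfold GR
  split
  all_goals first | exact h | exact Iff.rfl

theorem step_congr {A A' X : ZFSet.{0}} (h : ∀ u ∈ X, (u ∈ A ↔ u ∈ A')) :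
    step A X = step A' X := by
  ext y
  rw [mem_step, mem_step]
  refine or_congr Iff.rfl ?_
  unfold SR
  refine exists_congr fun i => and_congr_right fun _ => exists_congr fun a =>
    and_congr_right fun _ => exists_congr fun b => and_congr_right fun _ =>
    forall_congr' fun u => iff_congr Iff.rfl (and_congr_right fun hu => GR_congr (h u hu))

theorem Lv_congr {A A' ξ : ZFSet.{0}} : (∀ u ∈ Lv A ξ, (u ∈ A ↔ u ∈ A')) →
    Lv A ξ = Lv A' ξ := by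
  induction ξ using ZFSet.inductionOn with
  | _ ξ ih =>
  intro h
  have h1 : ∀ u ∈ ξ, step A (Lv A u) = step A' (Lv A' u) := by
    intro u hu
    have h2 : ∀ w ∈ Lv A u, (w ∈ A ↔ w ∈ A') := fun w hw => h w (Lv_subset hu hw)
    rw [← ih u hu h2]
    exact step_congr h2
  ext y
  rw [mem_Lv, mem_Lv]
  exact exists_congr fun u => and_congr_right fun hu => by rw [h1 u hu]

/-- In classes of constructible witnesses, the levels are available. -/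
theorem psi_levelA {A : ZFSet.{0}} {X : Set ZFSet.{0}} (ht : ∀ x ∈ X, ∀ y ∈ x, y ∈ X)
    (hP : ∀ x ∈ X, ∃ f ∈ X, Psi A x f) {ξ : ZFSet.{0}} (hξ : ξ ∈ X) (hξo : ξ.IsOrdinal) :
    ∃ f ∈ X, Sq A f ∧ pair ξ (Lv A ξ) ∈ f ∧ ∃ η ∈ X, η.IsOrdinal ∧ ξ ∈ η ∧ Lv A η ∈ X := by
  obtain ⟨f, hf, h1, p, hp, η, Y, rfl, h2⟩ := hP ξ hξ
  obtain ⟨η', Y', h3, h4, h5, -⟩ := h1 _ hp
  obtain ⟨rfl, rfl⟩ := ZFSet.pair_inj.1 h3
  have h6 := h1.eq _ _ hp
  rw [h6] at h2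
  have h7 := ord_Lv hξo h4 h2
  obtain ⟨q, hq, η'', Z, rfl, rfl⟩ := h5 ξ h7
  have h8 := h1.eq _ _ hq
  rw [h8] at hq
  have h9 : ({η, Y} : ZFSet.{0}) ∈ X := ht _ (ht _ hf _ hp) _ (by simp [ZFSet.pair])
  refine ⟨f, hf, h1, hq, η, ht _ h9 _ (by simp), h4, h7, ?_⟩
  rw [← h6]
  exact ht _ h9 _ (by simp)

/-- A transitive set of constructible witnesses is a level. -/
theorem lev_of_psiA {A N : ZFSet.{0}} (ht : ∀ x ∈ N, ∀ y ∈ x, y ∈ N)
    (hP : ∀ x ∈ N, ∃ f ∈ N, Psi A x f) : N = Lv A (onn N) := by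
  have hlev : ∀ {ξ : ZFSet.{0}}, ξ ∈ N → ξ.IsOrdinal → ∃ η ∈ N, η.IsOrdinal ∧ ξ ∈ η ∧
      Lv A η ∈ N := by
    intro ξ h1 h2
    obtain ⟨f, -, -, -, h3⟩ := psi_levelA (X := {x | x ∈ N}) ht hP h1 h2
    exact h3
  ext x
  constructor
  · intro hx
    obtain ⟨f, hf, h1, p, hp, η, Y, rfl, h2⟩ := hP x hx
    obtain ⟨η', Y', h3, h4, -⟩ := h1 _ hp
    obtain ⟨rfl, rfl⟩ := ZFSet.pair_inj.1 h3
    rw [h1.eq _ _ hp] at h2
    have h9 : ({η, Y} : ZFSet.{0}) ∈ N := ht _ (ht _ hf _ hp) _ (by simp [ZFSet.pair])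
    exact Lv_subset (mem_onn.2 ⟨ht _ h9 _ (by simp), h4⟩) h2
  · intro hx
    obtain ⟨u, hu, h1⟩ := mem_Lv.1 hx
    obtain ⟨huN, huo⟩ := mem_onn.1 hu
    obtain ⟨η, -, -, h2, h3⟩ := hlev huN huo
    exact ht _ h3 _ (step_subset_Lv h2 h1)

namespace LI

variable {U : ZFSet.{0}} {c : Cardinal.{0}} {Q W R : ZFSet.{0}} {σ g : ZFSet.{0} → ZFSet.{0}}
  (h : LI U c Q W R σ g)

include h

theorem rtrans : ∀ x ∈ R, ∀ y ∈ x, y ∈ R := h.gen.trans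

/-- The iterate is a level of the hierarchy. -/
theorem lev : R = Lv U (onn R) := by
  have h1 : R = Lv (σ W) (onn R) := lev_of_psiA h.rtrans h.gen.pmR.lev
  rw [h1] at h
  have h2 := Lv_congr (A := σ W) (A' := U) (ξ := onn R) fun u hu => h.mes_iff hu
  rw [← h2]
  exact h1

theorem map_W : σ W = U ∩ R := by
  ext A
  rw [ZFSet.mem_inter]
  constructor
  · intro hA
    exact ⟨h.mesU hA, h.rtrans _ (h.rea.el.maps _ h.pm.mem) _ hA⟩
  · rintro ⟨h1, h2⟩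
    exact (h.mes_iff h2).2 h1

theorem critQ {α : ZFSet.{0}} (hα : α ∈ (ZFSet.sUnion W : ZFSet.{0})) : σ α = α :=
  h.gen.crit h.hul α hα

theorem fix_prod {β : ZFSet.{0}} (hβ : β ∈ (ZFSet.sUnion W : ZFSet.{0})) :
    ZFSet.prod β β ∈ Q ∧ (∀ u ∈ ZFSet.prod β β, σ u = u) ∧
      σ (ZFSet.prod β β) = ZFSet.prod β β := by
  have hβQ := h.pm.trans _ h.pm.kQ _ hβ
  have hpQ := h.pm.prod _ hβQ _ hβQ
  refine ⟨hpQ, fun u hu => ?_, ?_⟩
  · obtain ⟨a, ha, b, hb, rfl⟩ := ZFSet.mem_prod.1 hu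
    have ha' := h.pm.ord.mem_trans ha hβ
    have hb' := h.pm.ord.mem_trans hb hβ
    rw [h.gen.map_pair (h.pm.trans _ h.pm.kQ _ ha') (h.pm.trans _ h.pm.kQ _ hb'), h.critQ ha',
      h.critQ hb']
  · have h1 := (h.gen.tr3 (P := fun _ x y z => DPd x y z) (UD.of_D0 d0_DPd) hβQ hβQ hpQ).1
      (DPd_iff.2 rfl)
    rw [DPd_iff, h.critQ hβ] at h1
    exact h1

theorem fixX {β X : ZFSet.{0}} (hβ : β ∈ (ZFSet.sUnion W : ZFSet.{0})) (hX : X ∈ Q)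
    (hs : X ⊆ ZFSet.prod β β) : σ X = X := by
  obtain ⟨h1, h2, h3⟩ := h.fix_prod hβ
  exact h.gen.fix_sub h1 h2 h3 hX hs

theorem memR {β X : ZFSet.{0}} (hβ : β ∈ (ZFSet.sUnion W : ZFSet.{0})) (hX : X ∈ Q)
    (hs : X ⊆ ZFSet.prod β β) : X ∈ R := by
  have h1 := h.rea.el.maps X hX
  rwa [h.fixX hβ hX hs] at h1

theorem memQ {β X : ZFSet.{0}} (hβ : β ∈ (ZFSet.sUnion W : ZFSet.{0})) (hX : X ∈ R)
    (hs : X ⊆ ZFSet.prod β β) : X ∈ Q := by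
  obtain ⟨h1, h2, -⟩ := h.fix_prod hβ
  exact h.gen.pow h.hul h1 h2 hX hs

end LI

/-! ### Existence -/

theorem Good.countable {c : Cardinal.{0}} (hc : ℵ₀ ≤ c) {Q W : ZFSet.{0}} (hG : Good c Q W)
    {S : Set ZFSet.{0}} (hS : ∀ j ∈ S, j.IsOrdinal) (hS' : S.Countable) :
    ∃ R σ g, Rea {x | x ∈ Q} W S R σ g := by
  have hM := full_HH hc
  haveI : Countable S := hS'.to_subtype
  haveI : Small.{0} S := Countable.toSmall S
  let s : ZFSet.{0} := ZFSet.range fun x : Shrink.{0} S => ((equivShrink S).symm x).1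
  have hs : ∀ x, x ∈ s ↔ x ∈ S := by
    intro x
    rw [ZFSet.mem_range]
    constructor
    · rintro ⟨y, rfl⟩
      exact ((equivShrink S).symm y).2
    · intro hx
      exact ⟨equivShrink S ⟨x, hx⟩, by simp⟩
  have hsc : s.card ≤ ℵ₀ := by
    have h1 := card_range_le fun x : Shrink.{0} S => ((equivShrink S).symm x).1
    refine h1.trans ?_
    haveI : Countable (Shrink.{0} S) := (equivShrink S).symm.injective.countable
    exact Cardinal.mk_le_aleph0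
  have hio : (im (col s) s).IsOrdinal := by
    have key : ∀ u : ZFSet.{0}, u.IsOrdinal → (col s u).IsOrdinal := by
      intro u
      induction u using ZFSet.inductionOn with
      | _ u ih =>
      intro hu
      rw [ZFSet.isOrdinal_iff_forall_mem_isOrdinal]
      constructor
      · intro y hy z hz
        obtain ⟨a, ha, ha', rfl⟩ := mem_col.1 hy
        obtain ⟨b, hb, hb', rfl⟩ := mem_col.1 hz
        exact mem_col.2 ⟨b, hu.mem_trans hb ha, hb', rfl⟩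
      · intro y hy
        obtain ⟨a, ha, ha', rfl⟩ := mem_col.1 hy
        exact ih a ha (hu.mem ha)
    rw [ZFSet.isOrdinal_iff_forall_mem_isOrdinal]
    refine ⟨col_trans, fun y hy => ?_⟩
    obtain ⟨a, ha, rfl⟩ := mem_im.1 hy
    exact key a (hS a ((hs a).1 ha))
  have hiM : im (col s) s ∈ HH c := hh_of_trans hM col_trans ((card_im_le.trans hsc).trans hc)
  obtain ⟨R, -, σ, g, hR⟩ := hG.rz _ hiM hio
  refine ⟨_, σ, fun j => g (col s j), hR.trans, hR.el, fun j hj A hA => ?_,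
    fun j hj k hk hkj => ?_⟩
  · exact hR.gen _ (mem_im.2 ⟨j, (hs j).2 hj, rfl⟩) A hA
  · exact hR.mono _ (mem_im.2 ⟨j, (hs j).2 hj, rfl⟩) _ (mem_im.2 ⟨k, (hs k).2 hk, rfl⟩)
      (mem_col.2 ⟨k, hkj, (hs k).2 hk, rfl⟩)

theorem exists_LI {U : ZFSet.{0}} (hU : NMs U) {c : Cardinal.{0}} (hc : ℵ₀ ≤ c)
    (hcU : kap c ∈ (ZFSet.sUnion U : ZFSet.{0})) {Q W : ZFSet.{0}} (hG : Good c Q W) :
    ∃ (R : ZFSet.{0}) (σ g : ZFSet.{0} → ZFSet.{0}), LI U c Q W R σ g := by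
  have hQ : Q.card ≤ c := (full_HH hc).card hG.mem
  obtain ⟨R, σ, g, h1, h2⟩ := em hG.pm (Θ := ZFSet.sUnion U) (fun y hy => hU.ord.mem hy)
    fun S hS hS' => hG.countable hc (fun j hj => hU.ord.mem (hS j hj)) hS'
  exact ⟨R, σ, g, hU, hc, hcU, hG.pm, hQ, h1, h2⟩

/-! ### Embeddings -/

theorem Inc.preim {S : Set ZFSet.{0}} (hS : ∀ j ∈ S, j.IsOrdinal) {g : ZFSet.{0} → ZFSet.{0}}
    (hg : ∀ j ∈ S, ∀ k ∈ S, k ∈ j → g k ∈ g j) {n : ℕ} {s' : ZFSet.{0}}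
    (hs : Inc {c | ∃ j ∈ S, c = g j} n s') : ∃ s, Inc S n s ∧ s' = Pool.Agent.W868.im g s := by
  induction hs with
  | zero => exact ⟨∅, Inc.zero, im_empty'.symm⟩
  | @succ n s' d _ hd hlt ih =>
    obtain ⟨s, hs, rfl⟩ := ih
    obtain ⟨j, hj, rfl⟩ := hd
    have hsS := (hs.fo hS).2
    refine ⟨insert j s, Inc.succ hs hj fun ξ hξ => ?_, ?_⟩
    · have h1 := hlt _ (mem_im.2 ⟨ξ, hξ, rfl⟩)
      rcases (hS ξ (hsS ξ hξ)).mem_trichotomous (hS j hj) with h2 | h2 | h2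
      · exact h2
      · exact absurd (h2 ▸ h1) (ZFSet.mem_irrefl _)
      · exact absurd (hg ξ (hsS ξ hξ) j hj h2) (ZFSet.mem_asymm h1)
    · ext y
      rw [ZFSet.mem_insert_iff, mem_im, mem_im]
      constructor
      · rintro (rfl | ⟨x, hx, rfl⟩)
        · exact ⟨j, ZFSet.mem_insert _ _, rfl⟩
        · exact ⟨x, ZFSet.mem_insert_of_mem _ hx, rfl⟩
      · rintro ⟨x, hx, rfl⟩
        rcases ZFSet.mem_insert_iff.1 hx with rfl | hx
        · exact Or.inl rfl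
        · exact Or.inr ⟨x, hx, rfl⟩

theorem embed {Q : Set ZFSet.{0}} {W : ZFSet.{0}} (hP : Pm Q W) {S R R' : Set ZFSet.{0}}
    {σ g σ' g' : ZFSet.{0} → ZFSet.{0}} (hS : ∀ j ∈ S, j.IsOrdinal) (h : Rea Q W S R σ g)
    (h' : Rea Q W S R' σ' g') (hul : ∀ y ∈ R, y ∈ Hd Q R σ {c | ∃ j ∈ S, c = g j}) :
    ∃ π, Elem R R' π := by
  classical
  have h1 : ∀ y ∈ R, ∃ t : Te, t.Ok Q S ∧ t.V R σ g y ∧ ∃ y', t.V R' σ' g' y' := by
    intro y hy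
    obtain ⟨-, a, ha, n, s', hs', φ, hφ⟩ := hul y hy
    obtain ⟨s, hs, rfl⟩ := hs'.preim hS h.mono
    obtain ⟨h2, h3⟩ := hs.fo hS
    have h4 : (Te.mk φ a s).Ok Q S := ⟨ha, h2, h3⟩
    have h5 : (Te.mk φ a s).V R σ g y := ⟨hy, hφ⟩
    exact ⟨_, h4, h5, tv hP h h' h4 h4 ⟨y, h5⟩⟩
  haveI : Nonempty Te := ⟨⟨fId, ∅, ∅⟩⟩
  choose! t ht1 ht2 π ht3 using h1
  refine ⟨π, fun x hx => (ht3 x hx).1, fun {n} φ v hv => ?_⟩
  exact tt hP h h' φ (t := fun i => t (v i)) (fun i => ht1 _ (hv i)) (fun i => ht1 _ (hv i))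
    (fun i => ht2 _ (hv i)) (fun i => ht3 _ (hv i))

/-- Elementary maps do not decrease ordinals. -/
theorem Elem.le_ord {R R' : Set ZFSet.{0}} {π : ZFSet.{0} → ZFSet.{0}} (h : Elem R R' π)
    (hR : ∀ x ∈ R, ∀ y ∈ x, y ∈ R) (hR' : ∀ x ∈ R', ∀ y ∈ x, y ∈ R') (h0 : ∅ ∈ R)
    {α : ZFSet.{0}} : α ∈ R → α.IsOrdinal → α ⊆ π α ∧ (π α).IsOrdinal := by
  have h0' : ∅ ∈ R' := h.map_empty h0 hR' ▸ h.maps _ h0
  induction α using ZFSet.inductionOn with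
  | _ α ih =>
  intro hα hαo
  have h1 : (π α).IsOrdinal := (h.tr hR h0 hR' h0' (P := fun _ (v : Fin 1 → ZFSet.{0}) =>
    (v 0).IsOrdinal) (UD.of_D0 (D0.isOrdinal (D0v.proj 0))) (v := ![α]) (by
      intro i
      fin_cases i
      exact hα)).1 hαo
  refine ⟨fun γ hγ => ?_, h1⟩
  have hγR := hR _ hα _ hγ
  obtain ⟨h2, h3⟩ := ih γ hγ hγR (hαo.mem hγ)
  have h4 : π γ ∈ π α := (h.tr hR h0 hR' h0' (P := fun _ (v : Fin 2 → ZFSet.{0}) =>
    v 0 ∈ v 1) (UD.of_D0 (D0.mem (D0v.proj 0) (D0v.proj 1))) (v := ![γ, α]) (by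
      intro i
      fin_cases i
      exacts [hγR, hα])).1 hγ
  exact (hαo.mem hγ).mem_of_subset_of_mem h1 h2 h4

theorem Elem.comp' {Q R R' : Set ZFSet.{0}} {σ π : ZFSet.{0} → ZFSet.{0}} (h : Elem Q R σ)
    (h' : Elem R R' π) : Elem Q R' fun x => π (σ x) :=
  ⟨fun x hx => h'.maps _ (h.maps x hx), fun φ v hv =>
    (h.sat φ v hv).trans (h'.sat φ _ fun i => h.maps _ (hv i))⟩

/-- The iterate of the domain of an elementary map is a smaller level. -/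
theorem LI.le {U : ZFSet.{0}} {c : Cardinal.{0}} {Q W R Q' W' R' : ZFSet.{0}}
    {σ g σ' g' e : ZFSet.{0} → ZFSet.{0}} (h : LI U c Q W R σ g) (h' : LI U c Q' W' R' σ' g')
    (he : Elem {x | x ∈ Q} {x | x ∈ Q'} e) (heW : e W = W') : R ⊆ R' := by
  have h1 : Rea {x | x ∈ Q} W {j | j ∈ (ZFSet.sUnion U : ZFSet.{0})} {x | x ∈ R'}
      (fun x => σ' (e x)) g' := by
    refine ⟨h'.rea.trans, he.comp' h'.rea.el, fun j hj A hA => h'.rea.gen j hj _ ?_,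
      h'.rea.mono⟩
    rw [← heW]
    exact (he.sat (.mem (Sum.inl 0) (Sum.inl 1) : Fml Empty 2) ![A, W] (by
      intro i
      fin_cases i
      exacts [h.pm.trans _ h.pm.mem _ hA, h.pm.mem])).1 hA
  obtain ⟨π, hπ⟩ := embed h.pm (fun j hj => h.nms.ord.mem hj) h.rea h1 h.hul
  have h2 : onn R ⊆ onn R' := by
    intro α hα
    obtain ⟨h3, h4⟩ := mem_onn.1 hα
    obtain ⟨h5, h6⟩ := hπ.le_ord h.rtrans h'.rtrans h.gen.zero h3 h4
    exact h4.mem_of_subset_of_mem (isOrdinal_onn h'.rtrans) h5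
      (mem_onn.2 ⟨hπ.maps _ h3, h6⟩)
  rw [h.lev, h'.lev]
  exact Lv_mono h2

end Pool.Agent.R587
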