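import Pool.Agent.R587.Main

/-!
# Models with a measure: the definitions

The critical point of the measure `W` is `⋃ W`.
-/

set_option autoImplicit false

namespace Pool.Agent.R587

open Pool.Agent.W868 hiding Models
open ZFSet (pair)
open Cardinal

/-- Elementary maps. -/
structure Elem (Q R : Set ZFSet.{0}) (σ : ZFSet.{0} → ZFSet.{0}) : Prop where
  maps : ∀ x ∈ Q, σ x ∈ R
  sat : ∀ {n : ℕ} (φ : Fml Empty n) (v : Fin n → ZFSet.{0}), (∀ i, v i ∈ Q) →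
    (Sat Q Empty.elim φ v ↔ Sat R Empty.elim φ fun i => σ (v i))

/-- The transitive class `Q` satisfies the schema of comprehension, all its elements are
constructible from `W`, which is a normal measure on `⋃ W` in `Q`, and there are definable
Skolem functions. -/
structure Pm (Q : Set ZFSet.{0}) (W : ZFSet.{0}) : Prop where
  base : IsBase Q
  om : ZFSet.omega ∈ Q
  prod : ∀ x ∈ Q, ∀ y ∈ Q, ZFSet.prod x y ∈ Q
  comp : ∀ {n : ℕ} (φ : Fml Empty (n + 1)) (v : Fin n → ZFSet.{0}), (∀ i, v i ∈ Q) → ∀ x ∈ Q,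
    ZFSet.sep (fun y => Sat Q Empty.elim φ (Fin.cons y v)) x ∈ Q
  mem : W ∈ Q
  ord : (ZFSet.sUnion W : ZFSet.{0}).IsOrdinal
  inter : ∀ A ∈ W, ∀ B ∈ W, A ∩ B ∈ W
  ne : ∅ ∉ W
  ultra : ∀ A ∈ Q, A ⊆ (ZFSet.sUnion W : ZFSet.{0}) → A ∈ W ∨ (ZFSet.sUnion W : ZFSet.{0}) \ A ∈ W
  unif : ∀ α ∈ (ZFSet.sUnion W : ZFSet.{0}), ZFSet.sep (fun η => α ∈ η) (ZFSet.sUnion W) ∈ W
  norm : ∀ F ∈ Q, (∀ ξ ∈ (ZFSet.sUnion W : ZFSet.{0}),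
      ZFSet.sep (fun η => pair ξ η ∈ F) (ZFSet.sUnion W) ∈ W) →
    ZFSet.sep (fun η => ∀ ξ ∈ η, pair ξ η ∈ F) (ZFSet.sUnion W) ∈ W
  lev : ∀ x ∈ Q, ∃ f ∈ Q, Psi W x f
  sko : ∃ χ : Fml Empty 3, ∀ {n : ℕ} (φ : Fml Empty (n + 1)) (v : Fin n → ZFSet.{0}),
    (∀ i, v i ∈ Q) → (∃ y ∈ Q, Sat Q Empty.elim φ (Fin.cons y v)) →
    ∃ y ∈ Q, Sat Q Empty.elim φ (Fin.cons y v) ∧ ∀ z ∈ Q, Sat Q Empty.elim φ (Fin.cons z v) →
      z ≠ y → Sat Q Empty.elim χ ![y, z, W] ∧ ¬ Sat Q Empty.elim χ ![z, y, W]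

/-- `s` is a set of `n` elements of `C`. -/
inductive Inc (C : Set ZFSet.{0}) : ℕ → ZFSet.{0} → Prop
  | zero : Inc C 0 ∅
  | succ {n : ℕ} {s c : ZFSet.{0}} (h : Inc C n s) (hc : c ∈ C) (hs : ∀ ξ ∈ s, ξ ∈ c) :
    Inc C (n + 1) (insert c s)

/-- `y` is the element defined by the formula from `a` and `s` in `R`. -/
def Dy (R : Set ZFSet.{0}) (φ : Fml Empty 3) (y a s : ZFSet.{0}) : Prop :=
  ∀ z ∈ R, (Sat R Empty.elim φ ![z, a, s] ↔ z = y)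

/-- The elements of `R` that are definable from elements of the range of `σ` and elements
of `D`. -/
def Hd (Q R : Set ZFSet.{0}) (σ : ZFSet.{0} → ZFSet.{0}) (D : Set ZFSet.{0}) : Set ZFSet.{0} :=
  {y | y ∈ R ∧ ∃ a ∈ Q, ∃ (n : ℕ) (s : ZFSet.{0}), Inc D n s ∧ ∃ φ : Fml Empty 3,
    Dy R φ y (σ a) s}

/-- The class `R` with the map `σ : Q → R` is the iterate of `Q`, `W` with the critical
points `C`. -/
structure Rlz (Q : Set ZFSet.{0}) (W : ZFSet.{0}) (R : Set ZFSet.{0})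
    (σ : ZFSet.{0} → ZFSet.{0}) (C : Set ZFSet.{0}) : Prop where
  trans : ∀ x ∈ R, ∀ y ∈ x, y ∈ R
  el : Elem Q R σ
  gen : ∀ c ∈ C, ∀ A ∈ W, c ∈ σ A
  hul : ∀ y ∈ R, y ∈ Hd Q R σ C

/-- The elements `g j` for `j ∈ S` are in the images of the sets of measure one, in increasing
order. -/
structure Rea (Q : Set ZFSet.{0}) (W : ZFSet.{0}) (S : Set ZFSet.{0}) (R : Set ZFSet.{0})
    (σ g : ZFSet.{0} → ZFSet.{0}) : Prop where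
  trans : ∀ x ∈ R, ∀ y ∈ x, y ∈ R
  el : Elem Q R σ
  gen : ∀ j ∈ S, ∀ A ∈ W, g j ∈ σ A
  mono : ∀ j ∈ S, ∀ k ∈ S, k ∈ j → g k ∈ g j

/-- The finite set of ordinals `e` and the number `n` are a code of `x` in the hierarchy
relative to `W`: let `δ` be the largest element of `e`, and `ζ` the second largest one. Then `x` is
defined in `Lv W δ` by the formula number `n` from `W ∩ Lv W ζ` and the set of the other elements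
of `e`. -/
def CdU (W x e n : ZFSet.{0}) : Prop := ∃ δ ∈ e, ∃ ζ ∈ e, δ.IsOrdinal ∧ ζ ≠ δ ∧
  (∀ μ ∈ e, μ = δ ∨ μ ∈ δ) ∧ (∀ μ ∈ e, μ = δ ∨ μ = ζ ∨ μ ∈ ζ) ∧
  (∀ y ∈ Lv W δ, pair (pair y (W ∩ Lv W ζ)) (ZFSet.sep (fun y => y ≠ δ) e) ∈ Lv W δ) ∧
  x ∈ Lv W δ ∧ n ∈ JJ (Lv W δ) (pair (pair x (W ∩ Lv W ζ)) (ZFSet.sep (fun y => y ≠ δ) e)) ∧
  ∀ y ∈ Lv W δ,
    n ∈ JJ (Lv W δ) (pair (pair y (W ∩ Lv W ζ)) (ZFSet.sep (fun y => y ≠ δ) e)) → y = x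

/-- All elements have codes. -/
def Cod (Q : Set ZFSet.{0}) (W : ZFSet.{0}) : Prop :=
  ∀ x ∈ Q, ∃ e ∈ Q, FO e ∧ ∃ n : ℕ, CdU W x e (nat n)

/-- The set `Q` with `W` is an iterable model of hereditary size at most `c`. -/
structure Good (c : Cardinal.{0}) (Q W : ZFSet.{0}) : Prop where
  mem : Q ∈ HH c
  pm : Pm {x | x ∈ Q} W
  cod : Cod {x | x ∈ Q} W
  rz : ∀ i ∈ HH c, i.IsOrdinal → ∃ R ∈ HH c, ∃ σ g : ZFSet.{0} → ZFSet.{0},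
    Rea {x | x ∈ Q} W {j | j ∈ i} {x | x ∈ R} σ g

/-- `U` is a normal measure on `⋃ U`. -/
structure NMs (U : ZFSet.{0}) : Prop where
  ord : (ZFSet.sUnion U : ZFSet.{0}).IsOrdinal
  inter : ∀ A ∈ U, ∀ B ∈ U, A ∩ B ∈ U
  ne : ∅ ∉ U
  ultra : ∀ A : ZFSet.{0}, A ⊆ (ZFSet.sUnion U : ZFSet.{0}) →
    A ∈ U ∨ (ZFSet.sUnion U : ZFSet.{0}) \ A ∈ U
  unif : ∀ α ∈ (ZFSet.sUnion U : ZFSet.{0}), ZFSet.sep (fun η => α ∈ η) (ZFSet.sUnion U) ∈ U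
  norm : ∀ F : ZFSet.{0}, (∀ ξ ∈ (ZFSet.sUnion U : ZFSet.{0}),
      ZFSet.sep (fun η => pair ξ η ∈ F) (ZFSet.sUnion U) ∈ U) →
    ZFSet.sep (fun η => ∀ ξ ∈ η, pair ξ η ∈ F) (ZFSet.sUnion U) ∈ U

end Pool.Agent.R587
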