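import Pool.Agent.R587.Crd

/-!
# Categoricity
-/

set_option autoImplicit false

namespace Pool.Agent.R587

open Pool.Agent.W868 hiding Models
open ZFSet (pair)
open Cardinal

variable {m : ℕ} {ar : Fin m → ℕ}

/-- Categoricity from the fine structure of the small classes. -/
theorem categorical_of {T : Set (SOF ar)} (hc : CompleteT T) (hr : RecAx T)
    (h : ∀ c : Cardinal.{0}, ℵ₀ ≤ c → (∀ A : Struc ar, ModelsT A T → ℵ₀ ≤ #A.Dom → c ≤ #A.Dom) →
      (∃ lt, Setg c (HH c) lt) ∧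
      ∃ N0 : ZFSet.{0}, (∀ x, x ∈ N0 ↔ x ∈ HH c) ∧ N0.card ≤ Order.succ c) :
    CategoricalT T := by
  intro A B hA hB
  by_cases hAf : Finite A.Dom
  · exact isom_of_finite hc hA hB hAf
  by_cases hBf : Finite B.Dom
  · exact (isom_of_finite hc hB hA hBf).symm
  have hinf : ∀ {A : Struc ar}, ¬ Finite A.Dom → ℵ₀ ≤ #A.Dom := fun h =>
    Cardinal.infinite_iff.1 (not_finite_iff_infinite.1 h)
  obtain ⟨c0, ⟨A0, hA0, hA0i, rfl⟩, hmin⟩ := WellFounded.has_min
    (wellFounded_lt (α := Cardinal.{0}))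
    {c | ∃ A : Struc ar, ModelsT A T ∧ ℵ₀ ≤ #A.Dom ∧ #A.Dom = c} ⟨_, A, hA, hinf hAf, rfl⟩
  have hmin' : ∀ A' : Struc ar, ModelsT A' T → ℵ₀ ≤ #A'.Dom → #A0.Dom ≤ #A'.Dom :=
    fun A' h1 h2 => not_lt.1 (hmin _ ⟨A', h1, h2, rfl⟩)
  obtain ⟨⟨lt, hS⟩, hN⟩ := h _ hA0i hmin'
  have h1 := card_eq hc hr hA0 hA hA0i (hinf hAf) hmin' hN
  have h2 := card_eq hc hr hA0 hB hA0i (hinf hBf) hmin' hN
  exact same_card hc hr hA0i hS hA hB h1 h2

section

variable {c : Cardinal.{0}}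

theorem mem_kap_succ {y : ZFSet.{0}} (hy : y.IsOrdinal) (h : y.card ≤ c) :
    y ∈ kap (Order.succ c) := by
  rw [← hy.toZFSet_rank_eq] at h ⊢
  rw [Ordinal.card_toZFSet] at h
  rw [kap, Ordinal.toZFSet_mem_toZFSet_iff, Cardinal.lt_ord]
  exact lt_of_le_of_lt h (Order.lt_succ c)

open Classical in
/-- The generalized continuum hypothesis, from codes that are finite sets of ordinals and
numbers. -/
theorem exists_N0 (hc : ℵ₀ ≤ c) {D : ZFSet.{0} → ZFSet.{0} → ZFSet.{0} → Prop}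
    (hu : ∀ x y e n, D x e n → D y e n → x = y)
    (he : ∀ x ∈ HH c, ∃ e, FO e ∧ e ∈ HH c ∧ ∃ n : ℕ, D x e (nat n)) :
    ∃ N0 : ZFSet.{0}, (∀ x, x ∈ N0 ↔ x ∈ HH c) ∧ N0.card ≤ Order.succ c := by
  have hM := full_HH hc
  let dec : ZFSet.{0} → ZFSet.{0} := fun p =>
    if h : ∃ x ∈ HH c, D x (fs p) (sn p) then h.choose else ∅
  refine ⟨im dec (ZFSet.prod (finS (kap (Order.succ c))) ZFSet.omega), fun x => ?_, ?_⟩
  · rw [mem_im]
    constructor
    · rintro ⟨p, -, rfl⟩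
      by_cases h : ∃ x ∈ HH c, D x (fs p) (sn p)
      · have h1 : dec p = h.choose := dif_pos h
        rw [h1]
        exact h.choose_spec.1
      · have h1 : dec p = ∅ := dif_neg h
        rw [h1]
        exact hM.empty_mem
    · intro hx
      obtain ⟨e, he1, he2, n, hn⟩ := he x hx
      refine ⟨pair e (nat n), ZFSet.pair_mem_prod.2 ⟨?_, mem_omega_iff.2 ⟨n, rfl⟩⟩, ?_⟩
      · rw [finS, ZFSet.mem_sep, ZFSet.mem_powerset]
        exact ⟨fun y hy => mem_kap_succ (he1.1 y hy) (hM.card (hM.trans he2 hy)), he1.2⟩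
      · have h : ∃ x ∈ HH c, D x (fs (pair e (nat n))) (sn (pair e (nat n))) :=
          ⟨x, hx, by rw [fs_pair, sn_pair]; exact hn⟩
        have h1 : dec (pair e (nat n)) = h.choose := dif_pos h
        rw [h1]
        have h2 : D (dec (pair e (nat n))) (fs (pair e (nat n))) (sn (pair e (nat n))) := by
          rw [h1]
          exact h.choose_spec.2
        rw [← h1]
        rw [fs_pair, sn_pair] at h2
        exact hu _ _ _ _ hn h2
  · have hs : ℵ₀ ≤ Order.succ c := hc.trans (Order.le_succ c)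
    refine card_im_le.trans ?_
    rw [card_prod]
    refine (mul_le_mul' (card_finS_le hs card_kap.le) (card_omega.le.trans hs)).trans ?_
    exact (Cardinal.mul_eq_self hs).le

end

/-- Categoricity, if every set is constructible. -/
theorem categorical_of_VLv (hV : VLv) {T : Set (SOF ar)} (hc : CompleteT T) (hr : RecAx T) :
    CategoricalT T := by
  refine categorical_of hc hr fun c hω _ => ?_
  have hL := hV.lcls hω (full_HH hω).jj
  exact ⟨⟨_, hL.setg⟩, exists_N0 hω (D := Cd) (fun _ _ _ _ h h' => h.uniq h')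
    fun x hx => hL.exists_Cd hx⟩

end Pool.Agent.R587
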