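import Pool.Agent.R587.LInst
import Pool.Agent.R587.MDefs
import Pool.Agent.R587.GdDef

/-!
# The hereditarily small sets when all sets are constructible from a normal measure
-/

set_option autoImplicit false

namespace Pool.Agent.R587

open Pool.Agent.W868 hiding Models
open ZFSet (pair)
open Cardinal

namespace Omg

/-! ### Levels relative to a set -/

/-- In classes of constructible witnesses, the levels are available. -/
theorem psi_level {A : ZFSet.{0}} {X : Set ZFSet.{0}} (ht : ∀ x ∈ X, ∀ y ∈ x, y ∈ X)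
    (hP : ∀ x ∈ X, ∃ f ∈ X, Psi A x f) {ξ : ZFSet.{0}} (hξ : ξ ∈ X) (hξo : ξ.IsOrdinal) :
    ∃ f ∈ X, Sq A f ∧ pair ξ (Lv A ξ) ∈ f ∧ ∃ η ∈ X, η.IsOrdinal ∧ ξ ∈ η ∧ Lv A η ∈ X := by
  obtain ⟨f, hf, h1, p, hp, η, Y, rfl, h2⟩ := hP ξ hξ
  obtain ⟨η', Y', h3, h4, h5, -⟩ := h1 _ hp
  obtain ⟨rfl, rfl⟩ := ZFSet.pair_inj.1 h3
  have h6 := h1.eq _ _ hp
  rw [h6] at h2
  have h7 := ord_Lv hξo h4 h2
  obtain ⟨q, hq, η'', Z, rfl, rfl⟩ := h5 ξ h7
  have h8 := h1.eq _ _ hq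
  rw [h8] at hq
  have h9 : ({η, Y} : ZFSet.{0}) ∈ X := ht _ (ht _ hf _ hp) _ (by simp [ZFSet.pair])
  refine ⟨f, hf, h1, hq, η, ht _ h9 _ (by simp), h4, h7, ?_⟩
  rw [← h6]
  exact ht _ h9 _ (by simp)

/-- A transitive set of constructible witnesses is a level. -/
theorem lev_of_psi {A N : ZFSet.{0}} (ht : ∀ x ∈ N, ∀ y ∈ x, y ∈ N)
    (hP : ∀ x ∈ N, ∃ f ∈ N, Psi A x f) : N = Lv A (onn N) := by
  have hlev : ∀ {ξ : ZFSet.{0}}, ξ ∈ N → ξ.IsOrdinal → ∃ η ∈ N, η.IsOrdinal ∧ ξ ∈ η ∧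
      Lv A η ∈ N := by
    intro ξ h1 h2
    obtain ⟨f, -, -, -, h3⟩ := psi_level (X := {x | x ∈ N}) ht hP h1 h2
    exact h3
  ext x
  constructor
  · intro hx
    obtain ⟨f, hf, h1, p, hp, η, Y, rfl, h2⟩ := hP x hx
    obtain ⟨η', Y', h3, h4, -⟩ := h1 _ hp
    obtain ⟨rfl, rfl⟩ := ZFSet.pair_inj.1 h3
    rw [h1.eq _ _ hp] at h2
    have h9 : ({η, Y} : ZFSet.{0}) ∈ N := ht _ (ht _ hf _ hp) _ (by simp [ZFSet.pair])
    exact Lv_subset (mem_onn.2 ⟨ht _ h9 _ (by simp), h4⟩) h2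
  · intro hx
    obtain ⟨u, hu, h1⟩ := mem_Lv.1 hx
    obtain ⟨huN, huo⟩ := mem_onn.1 hu
    obtain ⟨η, -, -, h2, h3⟩ := hlev huN huo
    exact ht _ h3 _ (step_subset_Lv h2 h1)

section

variable {c : Cardinal.{0}}

theorem exists_psi {U : ZFSet.{0}} (hV : ∀ x : ZFSet.{0}, ∃ ξ : ZFSet.{0}, ξ.IsOrdinal ∧ x ∈ Lv U ξ)
    (hc : ℵ₀ ≤ c) (hU : U ∈ HH c) {x : ZFSet.{0}} (hx : x ∈ HH c) :
    ∃ f ∈ HH c, Psi U x f := by
  have hM := full_HH hc
  have hLA : IsLA U (Set.univ : Set ZFSet.{0}) := ⟨isZF_univ, trivial, fun y _ => by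
    obtain ⟨ξ, h1, h2⟩ := hV y
    exact ⟨ξ, trivial, h1, h2⟩⟩
  obtain ⟨T, h1, h2, h3⟩ := exists_tc hM hx
  obtain ⟨T', h1', h2', h3'⟩ := exists_tc hM hU
  have h4 : ∀ y ∈ (T ∪ T' : ZFSet.{0}), ∀ z ∈ y, z ∈ (T ∪ T' : ZFSet.{0}) := by
    intro y hy z hz
    rcases ZFSet.mem_union.1 hy with hy | hy
    · exact ZFSet.mem_union.2 (Or.inl (h2 y hy z hz))
    · exact ZFSet.mem_union.2 (Or.inr (h2' y hy z hz))
  have h5 : (T ∪ T' : ZFSet.{0}).card ≤ (kap c).card := by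
    rw [card_kap]
    refine ZFSet.card_union_le.trans ?_
    exact (add_le_add h3 h3').trans (Cardinal.add_eq_self hc).le
  obtain ⟨g, hg⟩ := exists_isInj h5
  obtain ⟨N, -, h6, h7, ⟨g', -, hg'⟩, h8⟩ := condensation hLA (κ := kap c) trivial ord_kap
    (omega_sub_kap hc) (a := T ∪ T') trivial h4 (ZFSet.mem_union.2 (Or.inr h1')) ⟨g, trivial, hg⟩
  have h9 : N.card ≤ c := by
    have := card_le_of_isInj hg'
    rwa [card_kap] at this
  have hN := hh_of_trans hM h6 h9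
  obtain ⟨f, hf, h10⟩ := h8 x (h7 (ZFSet.mem_union.2 (Or.inl h1)))
  exact ⟨f, hM.trans hN hf, h10⟩

end

/-- What is used about `M`. -/
structure UCls (c : Cardinal.{0}) (M : Set ZFSet.{0}) (U : ZFSet.{0}) : Prop where
  full : Full c M
  mem : U ∈ M
  psi : ∀ x ∈ M, ∃ f ∈ M, Psi U x f

variable {c : Cardinal.{0}} {M : Set ZFSet.{0}} {U : ZFSet.{0}}

/-- The levels, as elements of `M`. -/
def LevM (M : Set ZFSet.{0}) (W ξ Y : ZFSet.{0}) : Prop := ∃ f ∈ M, Sq W f ∧ pair ξ Y ∈ f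

theorem CdU.uniq {W x y e n : ZFSet.{0}} (h : CdU W x e n) (h' : CdU W y e n) : x = y := by
  obtain ⟨δ, hδ, ζ, hζ, h1, h2, h3, h4, h5, h6, h7, h8⟩ := h
  obtain ⟨δ', hδ', ζ', hζ', h1', h2', h3', h4', h5', h6', h7', h8'⟩ := h'
  have e1 : δ' = δ := by
    rcases h3 δ' hδ' with h | h
    · exact h
    · rcases h3' δ hδ with h9 | h9
      · exact h9.symm
      · exact absurd h (ZFSet.mem_asymm h9)
  subst e1
  have e2 : ζ' = ζ := by
    rcases h4 ζ' hζ' with h | h | h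
    · exact absurd h h2'
    · exact h
    · rcases h4' ζ hζ with h9 | h9 | h9
      · exact absurd h9 h2
      · exact h9.symm
      · exact absurd h (ZFSet.mem_asymm h9)
  subst e2
  exact h8' x h6 h7

section dfn

variable (hM : Full c M)

include hM

theorem sq' {S : Set ZFSet.{0}} {n : ℕ} {F G : (Fin n → ZFSet.{0}) → ZFSet.{0}}
    (hF : DfnF S M F) (hG : DfnF S M G) : Dfn S M fun v => Sq (F v) (G v) :=
  Dfn.comp2 (Q := Sq) (d0_Sq.dfn hM.base.trans) hF hG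

theorem psi' {S : Set ZFSet.{0}} {n : ℕ} {F G H : (Fin n → ZFSet.{0}) → ZFSet.{0}}
    (hF : DfnF S M F) (hG : DfnF S M G) (hH : DfnF S M H) :
    Dfn S M fun v => Psi (F v) (G v) (H v) :=
  Dfn.comp3 (Q := Psi) (d0_Psi.dfn hM.base.trans) hF hG hH

theorem levM' {S : Set ZFSet.{0}} {n : ℕ} {F G H : (Fin n → ZFSet.{0}) → ZFSet.{0}}
    (hF : DfnF S M F) (hG : DfnF S M G) (hH : DfnF S M H) :
    Dfn S M fun v => LevM M (F v) (G v) (H v) := by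
  unfold LevM
  apply Dfn.ex
  apply Dfn.and (sq' hM hF.tail (DfnF.proj 0))
  exact Dfn.mem (hM.base.pair' hG.tail hH.tail) (DfnF.proj 0)

end dfn

namespace UCls

variable (hL : UCls c M U)

include hL

theorem Lv_mem {ξ : ZFSet.{0}} (hξ : ξ ∈ M) (hξo : ξ.IsOrdinal) : Lv U ξ ∈ M := by
  obtain ⟨f, hf, -, h, -⟩ := psi_level hL.full.base.trans hL.psi hξ hξo
  exact (hL.full.of_pair_mem (hL.full.trans hf h)).2

theorem lev_iff {ξ Y : ZFSet.{0}} (hξ : ξ ∈ M) (hξo : ξ.IsOrdinal) :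
    LevM M U ξ Y ↔ Y = Lv U ξ := by
  constructor
  · rintro ⟨f, -, h1, h2⟩
    exact h1.eq _ _ h2
  · rintro rfl
    obtain ⟨f, hf, h1, h2, -⟩ := psi_level hL.full.base.trans hL.psi hξ hξo
    exact ⟨f, hf, h1, h2⟩

/-- Elementary subclasses that are transitive are levels. -/
theorem tv_lev {H : ZFSet.{0}} (hH : TV M {x | x ∈ H}) (hU : U ∈ H)
    (ht : ∀ x ∈ H, ∀ y ∈ x, y ∈ H) : H = Lv U (onn H) := by
  refine lev_of_psi ht fun x hx => ?_
  obtain ⟨f, hf, h⟩ := hH.2 2 (fun f v => Psi (v 1) (v 0) f)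
    (psi' hL.full (DfnF.proj 2) (DfnF.proj 1) (DfnF.proj 0)) ![x, U] (by
      intro i
      fin_cases i
      exacts [hx, hU]) (hL.psi x (hH.1 hx))
  exact ⟨f, hf, h⟩

/-- Every element is definable from `U` and a finite set of ordinals. -/
theorem exists_fo {x : ZFSet.{0}} (hx : x ∈ M) :
    ∃ p, FO p ∧ p ∈ M ∧ x ∈ Hul M (pair U p) := by
  have hM := hL.full
  have hB := hM.base
  have hself : ∀ q, U ∈ Hul M (pair U q) := by
    intro q
    have h := hul_op (a := pair U q) (h := fun x => fs x) (hM.fs' (DfnF.proj 0)) (hul_self (M := M))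
    simpa using h
  have hsn : ∀ q, q ∈ Hul M (pair U q) := by
    intro q
    have h := hul_op (a := pair U q) (h := fun x => sn x) (hM.sn' (DfnF.proj 0)) (hul_self (M := M))
    simpa using h
  have hpr : ∀ {a x y : ZFSet.{0}}, x ∈ Hul M a → y ∈ Hul M a → pair x y ∈ Hul M a :=
    fun hx hy => hul_op2 (f := fun a b => pair a b) (hB.pair' (DfnF.proj 0) (DfnF.proj 1)) hx hy
  have hmono : ∀ {p q x : ZFSet.{0}}, FO q → q ∈ M → p ⊆ q → x ∈ Hul M (pair U p) →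
      x ∈ Hul M (pair U q) := fun {p q x} hq hqM hpq hx =>
    hul_trans hx (hpr (hself q) (hul_trans (fo_sub' hM _ hq hqM _ hpq) (hsn q)))
  have key : ∀ ξ : ZFSet.{0}, ξ ∈ M → ξ.IsOrdinal → ∀ x ∈ Lv U ξ, ∃ p, FO p ∧ p ∈ M ∧
      x ∈ Hul M (pair U p) := by
    intro ξ
    induction ξ using ZFSet.inductionOn with
    | _ ξ ih =>
    intro hξ hξo x hx
    obtain ⟨u, hu, h1⟩ := mem_Lv.1 hx
    have huM := hM.trans hξ hu
    have huo := hξo.mem hu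
    have ih' := ih u hu huM huo
    rcases mem_step.1 h1 with h1 | ⟨i, -, a, ha, b, hb, h2⟩
    · exact ih' x h1
    have hLu : Lv U u ∈ Hul M (pair U {u}) := by
      have h3 : u ∈ Hul M (pair U {u}) := by
        have := hul_op (a := pair U {u}) (h := fun x => (ZFSet.sUnion x : ZFSet.{0}))
          (hB.sUnion' (DfnF.proj 0)) (hsn {u})
        rwa [ZFSet.sUnion_singleton] at this
      have h5 : Lv U u ∈ Hul M (pair U u) := by
        refine hul_of_unique hM (R := fun Y a => LevM M (fs a) (sn a) Y)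
          (levM' hM (hM.fs' (DfnF.proj 1)) (hM.sn' (DfnF.proj 1)) (DfnF.proj 0))
          (hM.pair_mem hL.mem huM) (hL.Lv_mem huM huo) fun Y _ => ?_
        rw [fs_pair, sn_pair]
        exact hL.lev_iff huM huo
      exact hul_trans h5 (hpr (hself _) h3)
    have hab : ∀ a ∈ (insert (Lv U u) (Lv U u) : ZFSet.{0}), ∃ p, FO p ∧ p ∈ M ∧
        a ∈ Hul M (pair U p) := by
      intro a ha
      rcases ZFSet.mem_insert_iff.1 ha with rfl | ha
      · exact ⟨{u}, FO.single huo, hM.single_mem huM, hLu⟩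
      · exact ih' a ha
    obtain ⟨p, hp, hpM, hap⟩ := hab a ha
    obtain ⟨q, hq, hqM, hbq⟩ := hab b hb
    have ho : FO ((p ∪ q) ∪ {u}) := (hp.union hq).union (FO.single huo)
    have hoM : (p ∪ q) ∪ {u} ∈ M := hM.union_mem (hM.union_mem hpM hqM) (hM.single_mem huM)
    refine ⟨_, ho, hoM, ?_⟩
    have hF : DfnF ∅ M fun v : Fin 4 → ZFSet.{0} =>
        ZFSet.sep (fun w => GR (v 3) i w (v 1) (v 2)) (v 0) := by
      refine hM.sep' (Q := fun w v => GR (v 3) i w (v 1) (v 2)) (DfnF.proj 0) ?_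
      exact Dfn.comp4 (Q := fun a b c d => GR a i b c d) ((d0_GR i).dfn hB.trans) (DfnF.proj 4)
        (DfnF.proj 0) (DfnF.proj 2) (DfnF.proj 3)
    have h3 := hul_opN (a := pair U ((p ∪ q) ∪ {u})) hF (v := ![Lv U u, a, b, U]) (by
      intro i
      fin_cases i
      · refine hmono ho hoM (fun y hy => ?_) hLu
        exact ZFSet.mem_union.2 (Or.inr hy)
      · refine hmono ho hoM (fun y hy => ?_) hap
        exact ZFSet.mem_union.2 (Or.inl (ZFSet.mem_union.2 (Or.inl hy)))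
      · refine hmono ho hoM (fun y hy => ?_) hbq
        exact ZFSet.mem_union.2 (Or.inl (ZFSet.mem_union.2 (Or.inr hy)))
      · exact hself _)
    have h4 : ZFSet.sep (fun w => GR U i w a b) (Lv U u) = x := by
      ext w
      rw [ZFSet.mem_sep, h2]
    rw [← h4]
    exact h3
  obtain ⟨f, hf, hp⟩ := hL.psi x hx
  obtain ⟨ξ, X, h1, h2, h3⟩ := hp.spec
  exact key ξ (hM.of_pair_mem (hM.trans hf h1)).1 h2 x h3

theorem hul_mono' {p q x : ZFSet.{0}} (hq : FO q) (hqM : q ∈ M) (hpq : p ⊆ q)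
    (hx : x ∈ Hul M (pair U p)) : x ∈ Hul M (pair U q) := by
  have hM := hL.full
  have hB := hM.base
  have hself : ∀ q, U ∈ Hul M (pair U q) := by
    intro q
    have h := hul_op (a := pair U q) (h := fun x => fs x) (hM.fs' (DfnF.proj 0)) (hul_self (M := M))
    simpa using h
  have hsn : ∀ q, q ∈ Hul M (pair U q) := by
    intro q
    have h := hul_op (a := pair U q) (h := fun x => sn x) (hM.sn' (DfnF.proj 0)) (hul_self (M := M))
    simpa using h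
  have hpr : ∀ {a x y : ZFSet.{0}}, x ∈ Hul M a → y ∈ Hul M a → pair x y ∈ Hul M a :=
    fun hx hy => hul_op2 (f := fun a b => pair a b) (hB.pair' (DfnF.proj 0) (DfnF.proj 1)) hx hy
  exact hul_trans hx (hpr (hself q) (hul_trans (fo_sub' hM _ hq hqM _ hpq) (hsn q)))

/-- Every element is definable from `U` and a finite set of ordinals whose largest element
is large. -/
theorem exists_fo' {x : ZFSet.{0}} (hx : x ∈ M) :
    ∃ p, FO p ∧ p ∈ M ∧ x ∈ Hul M (pair U p) ∧ ∃ ζ ∈ p, (∀ μ ∈ p, μ = ζ ∨ μ ∈ ζ) ∧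
      U ∩ Lv U ζ = U := by
  have hM := hL.full
  obtain ⟨p, hp, hpM, h⟩ := hL.exists_fo hx
  have hq := hM.pair_mem hL.mem hpM
  obtain ⟨f, hf, h1⟩ := hL.psi _ hq
  obtain ⟨ζ, X, h2, h3, h4⟩ := h1.spec
  have hζM : ζ ∈ M := (hM.of_pair_mem (hM.trans hf h2)).1
  have lvt : ∀ {y z : ZFSet.{0}}, y ∈ Lv U ζ → z ∈ y → z ∈ Lv U ζ := fun hy hz =>
    Lv_trans _ _ hy _ hz
  have hpU : ∀ y ∈ (pair U p : ZFSet.{0}), ∀ z ∈ y, z ∈ Lv U ζ := fun y hy z hz =>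
    lvt (lvt h4 hy) hz
  have hp1 : ({U, p} : ZFSet.{0}) ∈ (pair U p : ZFSet.{0}) := by simp [ZFSet.pair]
  have hUL : U ∈ Lv U ζ := hpU _ hp1 _ (by simp)
  have hpL : p ∈ Lv U ζ := hpU _ hp1 _ (by simp)
  have hpζ : ∀ y ∈ p, y ∈ ζ := fun y hy => ord_Lv (hp.1 y hy) h3 (lvt hpL hy)
  have hins : (insert ζ p : ZFSet.{0}) = p ∪ {ζ} := by
    ext y
    rw [ZFSet.mem_insert_iff, ZFSet.mem_union, ZFSet.mem_singleton]
    exact or_comm
  have hFO : FO (insert ζ p : ZFSet.{0}) := by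
    rw [hins]
    exact hp.union (FO.single h3)
  refine ⟨insert ζ p, hFO, hM.insert_mem hζM hpM, ?_, ζ, ZFSet.mem_insert _ _, ?_, ?_⟩
  · exact hL.hul_mono' hFO (hM.insert_mem hζM hpM)
      (fun y hy => ZFSet.mem_insert_iff.2 (Or.inr hy)) h
  · intro μ hμ
    rcases ZFSet.mem_insert_iff.1 hμ with h5 | h5
    · exact Or.inl h5
    · exact Or.inr (hpζ _ h5)
  · ext y
    rw [ZFSet.mem_inter]
    exact ⟨fun h5 => h5.1, fun h5 => ⟨h5, lvt hUL h5⟩⟩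

/-- Every element has a code. -/
theorem exists_CdU {x : ZFSet.{0}} (hx : x ∈ M) :
    ∃ e, FO e ∧ e ∈ M ∧ ∃ n : ℕ, CdU U x e (nat n) := by
  have hM := hL.full
  have hB := hM.base
  obtain ⟨p, hp, hpM, ⟨h, hh, rfl⟩, ζ, hζp, hζm, hζU⟩ := hL.exists_fo' hx
  obtain ⟨φ, hφ⟩ := dfn_iff.1 hh.2
  have hc := hM.inf
  have hkM : kap c ∈ M := hh_of_trans hM (fun y hy z hz => ord_kap.mem_trans hz hy) card_kap.le
  -- the elementary subclass
  obtain ⟨H, hZ, hH, hHc⟩ := exists_tv hM (Z := kap c ∪ {kap c, h (pair U p)} ∪ {p, U}) (by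
      intro y hy
      rw [ZFSet.mem_union, ZFSet.mem_union, ZFSet.mem_pair, ZFSet.mem_pair] at hy
      rcases hy with (hy | rfl | rfl) | rfl | rfl
      · exact hM.trans hkM hy
      · exact hkM
      · exact hx
      · exact hpM
      · exact hL.mem) (by
    refine ZFSet.card_union_le.trans ?_
    have h1 : (kap c ∪ {kap c, h (pair U p)}).card ≤ c := by
      refine ZFSet.card_union_le.trans ?_
      exact (add_le_add card_kap.le (card_pair_le.trans hc)).trans (Cardinal.add_eq_self hc).le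
    exact (add_le_add h1 (card_pair_le.trans hc)).trans (Cardinal.add_eq_self hc).le)
  have hkH : kap c ⊆ H := fun y hy => hZ (ZFSet.mem_union.2 (Or.inl (ZFSet.mem_union.2
    (Or.inl hy))))
  have hkH' : kap c ∈ H := hZ (ZFSet.mem_union.2 (Or.inl (ZFSet.mem_union.2
    (Or.inr (ZFSet.mem_pair.2 (Or.inl rfl))))))
  have hxH : h (pair U p) ∈ H := hZ (ZFSet.mem_union.2 (Or.inl (ZFSet.mem_union.2
    (Or.inr (ZFSet.mem_pair.2 (Or.inr rfl))))))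
  have hpH : p ∈ H := hZ (ZFSet.mem_union.2 (Or.inr (ZFSet.mem_pair.2 (Or.inl rfl))))
  have hUH : U ∈ H := hZ (ZFSet.mem_union.2 (Or.inr (ZFSet.mem_pair.2 (Or.inr rfl))))
  have ht : ∀ y ∈ H, ∀ z ∈ y, z ∈ H := by
    intro y hy z hz
    have hyM := hH.1 hy
    obtain ⟨f0, hf0⟩ := exists_isInj (x := y) (y := kap c) (by
      rw [card_kap]
      exact hM.card hyM)
    have hf0M : f0 ∈ M := hM.sub (hM.prod_mem hyM hkM) hf0.1.1
    obtain ⟨f, hf, hf1⟩ := hH.2 2 (fun f v => IsInj (v 0) (v 1) f)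
      (hB.isInj' (DfnF.proj 1) (DfnF.proj 2) (DfnF.proj 0)) ![y, kap c] (by
        intro i
        fin_cases i
        exacts [hy, hkH']) ⟨f0, hf0M, hf0⟩
    have hf2 : IsInj y (kap c) f := hf1
    obtain ⟨ζ, hζ, h2⟩ := fun_exists hf2.1 hz
    obtain ⟨w, hw, h3⟩ := hH.2 2 (fun w v => pair w (v 0) ∈ v 1)
      (Dfn.mem (hB.pair' (DfnF.proj 0) (DfnF.proj 1)) (DfnF.proj 2)) ![ζ, f] (by
        intro i
        fin_cases i
        exacts [hkH hζ, hf]) ⟨z, hM.trans hyM hz, h2⟩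
    have h4 : pair w ζ ∈ f := h3
    rw [hf2.2 z w ζ h2 h4]
    exact hw
  have hlev := hL.tv_lev hH hUH ht
  set δ := onn H with hδ
  have hδo : δ.IsOrdinal := isOrdinal_onn ht
  have hHM : H ∈ M := hh_of_trans hM ht hHc
  have hδM : δ ∈ M := hM.sub hHM fun y hy => (mem_onn.1 hy).1
  have hpδ : p ⊆ δ := fun y hy => mem_onn.2 ⟨ht p hpH y hy, hp.1 y hy⟩
  -- the number of the formula
  have hBH : IsBase {x | x ∈ H} := by
    refine ⟨ht, fun x hx y hy => hH.upair_mem hM hx hy, fun x hx => ?_⟩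
    exact hH.opN (F := fun v : Fin 1 → ZFSet.{0} => (ZFSet.sUnion (v 0) : ZFSet.{0}))
      (hB.sUnion' (DfnF.proj 0)) (v := ![x]) (by
        intro i
        fin_cases i
        exact hx)
  have hD : Dfn ∅ {x | x ∈ H} fun v : Fin 1 → ZFSet.{0} =>
      ∃ y ∈ {x | x ∈ H}, ∃ w ∈ {x | x ∈ H}, ∃ q ∈ {x | x ∈ H}, ∃ r ∈ {x | x ∈ H},
        v 0 = pair (pair y w) q ∧ r = pair w q ∧ Sat {x | x ∈ H} Empty.elim φ ![y, r] := by
    apply Dfn.ex
    apply Dfn.ex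
    apply Dfn.ex
    apply Dfn.ex
    apply Dfn.and
    · exact Dfn.eq (DfnF.proj 4) (hBH.pair' (hBH.pair' (DfnF.proj 3) (DfnF.proj 2))
        (DfnF.proj 1))
    apply Dfn.and
    · exact Dfn.eq (DfnF.proj 0) (hBH.pair' (DfnF.proj 2) (DfnF.proj 1))
    · rw [dfn_iff]
      refine ⟨φ.subst fun i => Sum.inl ((![3, 0] : Fin 2 → Fin 5) i), fun v _ => ?_⟩
      rw [sat_subst]
      have h1 : (fun k => Sum.elim v Empty.elim (Sum.inl ((![3, 0] : Fin 2 → Fin 5) k) :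
          Fin 5 ⊕ Empty)) = ![v 3, v 0] := by
        funext i
        fin_cases i <;> rfl
      rw [h1]
      exact Iff.rfl
  obtain ⟨k, hk⟩ := exists_num (R := fun b => ∃ y ∈ {x | x ∈ H}, ∃ w ∈ {x | x ∈ H},
    ∃ q ∈ {x | x ∈ H}, ∃ r ∈ {x | x ∈ H}, b = pair (pair y w) q ∧ r = pair w q ∧
      Sat {x | x ∈ H} Empty.elim φ ![y, r]) hD
  have haH : pair U p ∈ H := hH.pair_mem hM hUH hpH
  have hkey : ∀ y ∈ H, (nat k ∈ JJ H (pair (pair y U) p) ↔ y = h (pair U p)) := by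
    intro y hy
    have h1 : nat k ∈ JJ H (pair (pair y U) p) ↔ GS {x | x ∈ H} k (asg (pair (pair y U) p)) :=
      nat_mem_JS
    rw [h1, hk _ (hH.pair_mem hM (hH.pair_mem hM hy hUH) hpH)]
    have h2 : (∃ y' ∈ {x | x ∈ H}, ∃ w ∈ {x | x ∈ H}, ∃ q ∈ {x | x ∈ H}, ∃ r ∈ {x | x ∈ H},
        pair (pair y U) p = pair (pair y' w) q ∧ r = pair w q ∧
          Sat {x | x ∈ H} Empty.elim φ ![y', r]) ↔
        Sat {x | x ∈ H} Empty.elim φ ![y, pair U p] := by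
      constructor
      · rintro ⟨y', -, w, -, q, -, r, -, h3, rfl, h4⟩
        obtain ⟨h5, rfl⟩ := ZFSet.pair_inj.1 h3
        obtain ⟨rfl, rfl⟩ := ZFSet.pair_inj.1 h5
        exact h4
      · intro h3
        exact ⟨y, hy, U, hUH, p, hpH, pair U p, haH, rfl, rfl, h3⟩
    rw [h2, hH.sat φ ![y, pair U p] (by
      intro i
      fin_cases i
      exacts [hy, haH]), hφ ![y, pair U p] (by
      intro i
      fin_cases i
      exacts [hH.1 hy, hM.pair_mem hL.mem hpM])]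
    rfl
  have hsep : ZFSet.sep (fun y => y ≠ δ) (insert δ p) = p := by
    ext y
    rw [ZFSet.mem_sep, ZFSet.mem_insert_iff]
    constructor
    · rintro ⟨h1 | h1, h2⟩
      · exact absurd h1 h2
      · exact h1
    · intro h1
      exact ⟨Or.inr h1, fun h2 => ZFSet.mem_irrefl _ (h2 ▸ hpδ h1)⟩
  have hins : (insert δ p : ZFSet.{0}) = p ∪ {δ} := by
    ext y
    rw [ZFSet.mem_insert_iff, ZFSet.mem_union, ZFSet.mem_singleton]
    exact or_comm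
  have hζδ : ζ ∈ δ := hpδ hζp
  refine ⟨insert δ p, ?_, hM.insert_mem hδM hpM, k, δ, ZFSet.mem_insert _ _, ζ,
    ZFSet.mem_insert_iff.2 (Or.inr hζp), hδo, fun h9 => ZFSet.mem_irrefl _ (h9 ▸ hζδ), ?_, ?_, ?_⟩
  · rw [hins]
    exact hp.union (FO.single hδo)
  · intro μ hμ
    rcases ZFSet.mem_insert_iff.1 hμ with h1 | h1
    · exact Or.inl h1
    · exact Or.inr (hpδ h1)
  · intro μ hμ
    rcases ZFSet.mem_insert_iff.1 hμ with h1 | h1
    · exact Or.inl h1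
    · exact Or.inr (hζm μ h1)
  · rw [hsep, ← hlev, hζU]
    exact ⟨fun y hy => hH.pair_mem hM (hH.pair_mem hM hy hUH) hpH, hxH, (hkey _ hxH).2 rfl,
      fun y hy h1 => (hkey y hy).1 h1⟩

end UCls

/-- The well-ordering of the elements given by their least codes. -/
def ltU (M : Set ZFSet.{0}) (U x y : ZFSet.{0}) : Prop :=
  ∃ e ∈ M, ∃ n ∈ (ZFSet.omega : ZFSet.{0}), FO e ∧ CdU U x e n ∧
    ∀ e' ∈ M, ∀ n' ∈ (ZFSet.omega : ZFSet.{0}), FO e' → CdU U y e' n' → clt e n e' n'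

theorem ltU' (hM : Full c M) :
    Dfn ∅ M fun v : Fin 3 → ZFSet.{0} => ltU M (v 2) (v 0) (v 1) := by
  have hB := hM.base
  unfold ltU
  apply Dfn.ex
  apply hB.bex hM.omega'
  apply Dfn.and (hM.fo' (DfnF.proj 1))
  apply Dfn.and (dfn_cdU hM (DfnF.proj 4) (DfnF.proj 2) (DfnF.proj 1) (DfnF.proj 0))
  apply Dfn.all
  apply hB.ball hM.omega'
  apply Dfn.imp (hM.fo' (DfnF.proj 1))
  apply Dfn.imp (dfn_cdU hM (DfnF.proj 6) (DfnF.proj 5) (DfnF.proj 1) (DfnF.proj 0))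
  unfold clt
  apply Dfn.or (hM.clx' (DfnF.proj 3) (DfnF.proj 1))
  exact (Dfn.eq (DfnF.proj 3) (DfnF.proj 1)).and (Dfn.mem (DfnF.proj 2) (DfnF.proj 0))

theorem clt_trans {e n e' n' e'' n'' : ZFSet.{0}} (h1 : FO e) (h2 : FO e') (h3 : FO e'')
    (hn : n'' ∈ (ZFSet.omega : ZFSet.{0})) (h : clt e n e' n') (h' : clt e' n' e'' n'') :
    clt e n e'' n'' := by
  rcases h with h | ⟨rfl, h⟩ <;> rcases h' with h' | ⟨rfl, h'⟩
  · exact Or.inl (clx_trans h1 h2 h3 h h')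
  · exact Or.inl h
  · exact Or.inl h'
  · exact Or.inr ⟨rfl, (isOrdinal_omega.mem hn).mem_trans h h'⟩

theorem clt_irrefl {e n : ZFSet.{0}} : ¬ clt e n e n := by
  rintro (h | ⟨-, h⟩)
  · exact clx_irrefl h
  · exact ZFSet.mem_irrefl _ h

namespace UCls

variable (hL : UCls c M U)

include hL

theorem least_code {P : ZFSet.{0} → Prop} (hP : ∃ x ∈ M, P x) : ∃ x ∈ M, P x ∧ ∃ e ∈ M,
    ∃ n ∈ (ZFSet.omega : ZFSet.{0}), FO e ∧ CdU U x e n ∧
      ∀ y ∈ M, P y → ∀ e' ∈ M, ∀ n' ∈ (ZFSet.omega : ZFSet.{0}), FO e' → CdU U y e' n' →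
        clt e n e' n' ∨ (e = e' ∧ n = n') := by
  obtain ⟨x0, hx0, hPx0⟩ := hP
  obtain ⟨e0, h1, h2, n0, h3⟩ := hL.exists_CdU hx0
  obtain ⟨e, ⟨heo, heM, he⟩, hmin⟩ := pr_wf.has_min
    {e | FO e ∧ e ∈ M ∧ ∃ x ∈ M, P x ∧ ∃ n ∈ (ZFSet.omega : ZFSet.{0}), CdU U x e n}
    ⟨e0, h1, h2, x0, hx0, hPx0, nat n0, mem_omega_iff.2 ⟨_, rfl⟩, h3⟩
  obtain ⟨x1, hx1, hPx1, n1, hn1, hc1⟩ := he
  have hS : {n | n ∈ (ZFSet.omega : ZFSet.{0}) ∧ ∃ x ∈ M, P x ∧ CdU U x e n}.Nonempty :=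
    ⟨n1, hn1, x1, hx1, hPx1, hc1⟩
  obtain ⟨hn, x, hx, hPx, hc⟩ := ZFSet.mem_wf.min_mem _ hS
  set n := ZFSet.mem_wf.min _ hS with hndef
  have hnmin : ∀ n' ∈ {n | n ∈ (ZFSet.omega : ZFSet.{0}) ∧ ∃ x ∈ M, P x ∧ CdU U x e n},
      ¬ n' ∈ n := fun n' hn' => ZFSet.mem_wf.not_lt_min _ hn'
  refine ⟨x, hx, hPx, e, heM, n, hn, heo, hc, fun y hy hPy e' he' n' hn' he'o hc' => ?_⟩
  rcases clx_tri heo he'o with h | h | h
  · exact Or.inl (Or.inl h)
  · subst h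
    have ho : ∀ {z : ZFSet.{0}}, z ∈ (ZFSet.omega : ZFSet.{0}) → z.IsOrdinal :=
      fun hz => isOrdinal_omega.mem hz
    rcases (ho hn).mem_trichotomous (ho hn') with h | h | h
    · exact Or.inl (Or.inr ⟨rfl, h⟩)
    · exact Or.inr ⟨rfl, h⟩
    · exact absurd h (hnmin n' ⟨hn', y, hy, hPy, hc'⟩)
  · exact absurd (mem_pr.2 ⟨he'o, heo, h⟩) (hmin e' ⟨he'o, he', y, hy, hPy, n', hn', hc'⟩)

/-- least elements exist -/
theorem exists_least {P : ZFSet.{0} → Prop} (hP : ∃ x ∈ M, P x) :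
    ∃ x ∈ M, P x ∧ ∀ y ∈ M, P y → ¬ ltU M U y x := by
  obtain ⟨x, hx, hPx, e, he, n, hn, heo, hc, hmin⟩ := hL.least_code hP
  refine ⟨x, hx, hPx, fun y hy hPy h => ?_⟩
  obtain ⟨e', he', n', hn', he'o, hc', h'⟩ := h
  have h1 := h' e he n hn heo hc
  rcases hmin y hy hPy e' he' n' hn' he'o hc' with h2 | ⟨rfl, rfl⟩
  · exact clt_irrefl (clt_trans he'o heo he'o hn' h1 h2)
  · exact clt_irrefl h1

theorem tri {x y : ZFSet.{0}} (hx : x ∈ M) (hy : y ∈ M) :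
    ltU M U x y ∨ x = y ∨ ltU M U y x := by
  obtain ⟨x', -, rfl, e, he, n, hn, heo, hc, hmin⟩ := hL.least_code (P := fun z => z = x)
    ⟨x, hx, rfl⟩
  obtain ⟨y', -, rfl, e', he', n', hn', he'o, hc', hmin'⟩ := hL.least_code
    (P := fun z => z = y) ⟨y, hy, rfl⟩
  have key : ∀ {x y e n e' n' : ZFSet.{0}}, e ∈ M → n ∈ (ZFSet.omega : ZFSet.{0}) → FO e →
      e' ∈ M → n' ∈ (ZFSet.omega : ZFSet.{0}) → FO e' →
      CdU U x e n → (∀ z ∈ M, z = y → ∀ e'' ∈ M, ∀ n'' ∈ (ZFSet.omega : ZFSet.{0}), FO e'' →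
        CdU U z e'' n'' → clt e' n' e'' n'' ∨ (e' = e'' ∧ n' = n'')) → y ∈ M →
      clt e n e' n' → ltU M U x y := by
    intro x y e n e' n' he hn heo he' hn' he'o hc hmin' hy h
    refine ⟨e, he, n, hn, heo, hc, fun e'' he'' n'' hn'' he''o hc'' => ?_⟩
    rcases hmin' y hy rfl e'' he'' n'' hn'' he''o hc'' with h1 | ⟨rfl, rfl⟩
    · exact clt_trans heo he'o he''o hn'' h h1
    · exact h
  rcases clx_tri heo he'o with h | h | h
  · exact Or.inl (key he hn heo he' hn' he'o hc hmin' hy (Or.inl h))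
  · subst h
    have ho : ∀ {z : ZFSet.{0}}, z ∈ (ZFSet.omega : ZFSet.{0}) → z.IsOrdinal :=
      fun hz => isOrdinal_omega.mem hz
    rcases (ho hn).mem_trichotomous (ho hn') with h | h | h
    · exact Or.inl (key he hn heo he' hn' he'o hc hmin' hy (Or.inr ⟨rfl, h⟩))
    · subst h
      exact Or.inr (Or.inl (CdU.uniq hc hc'))
    · exact Or.inr (Or.inr (key he' hn' he'o he hn heo hc' hmin hx (Or.inr ⟨rfl, h⟩)))
  · exact Or.inr (Or.inr (key he' hn' he'o he hn heo hc' hmin hx (Or.inl h)))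

/-- definable Skolem functions -/
theorem sko : ∃ χ : Fml Empty 3, ∀ {n : ℕ} (φ : Fml Empty (n + 1)) (v : Fin n → ZFSet.{0}),
    (∀ i, v i ∈ M) → (∃ y ∈ M, Sat M Empty.elim φ (Fin.cons y v)) →
    ∃ y ∈ M, Sat M Empty.elim φ (Fin.cons y v) ∧ ∀ z ∈ M, Sat M Empty.elim φ (Fin.cons z v) →
      z ≠ y → Sat M Empty.elim χ ![y, z, U] ∧ ¬ Sat M Empty.elim χ ![z, y, U] := by
  obtain ⟨χ, hχ⟩ := dfn_iff.1 (ltU' hL.full)
  refine ⟨χ, fun {n} φ v hv h => ?_⟩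
  obtain ⟨y, hy, hPy, hmin⟩ := hL.exists_least (P := fun y => Sat M Empty.elim φ (Fin.cons y v)) h
  refine ⟨y, hy, hPy, fun z hz hPz hne => ?_⟩
  have h1 : ∀ a b : ZFSet.{0}, a ∈ M → b ∈ M → (Sat M Empty.elim χ ![a, b, U] ↔ ltU M U a b) := by
    intro a b ha hb
    rw [hχ ![a, b, U] (by
      intro i
      fin_cases i
      exacts [ha, hb, hL.mem])]
    rfl
  rw [h1 _ _ hy hz, h1 _ _ hz hy]
  refine ⟨?_, hmin z hz hPz⟩
  rcases hL.tri hy hz with h2 | h2 | h2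
  · exact h2
  · exact absurd h2.symm hne
  · exact absurd h2 (hmin z hz hPz)

end UCls

end Omg

theorem ucls_HH {U : ZFSet.{0}} {ν : Cardinal.{0}}
    (hV : ∀ x : ZFSet.{0}, ∃ ξ : ZFSet.{0}, ξ.IsOrdinal ∧ x ∈ Lv U ξ)
    (hν : ℵ₀ ≤ ν) (hUν : U ∈ HH ν) : Omg.UCls ν (HH ν) U :=
  ⟨full_HH hν, hUν, fun _ hx => Omg.exists_psi hV hν hUν hx⟩

theorem cod_HH {U : ZFSet.{0}} {ν : Cardinal.{0}} (_hU : NMs U)
    (hV : ∀ x : ZFSet.{0}, ∃ ξ : ZFSet.{0}, ξ.IsOrdinal ∧ x ∈ Lv U ξ)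
    (hν : ℵ₀ ≤ ν) (hUν : U ∈ HH ν) : Cod (HH ν) U := by
  intro x hx
  obtain ⟨e, h1, h2, n, h3⟩ := (ucls_HH hV hν hUν).exists_CdU hx
  exact ⟨e, h2, h1, n, h3⟩

theorem pm_HH {U : ZFSet.{0}} {ν : Cardinal.{0}} (hU : NMs U)
    (hV : ∀ x : ZFSet.{0}, ∃ ξ : ZFSet.{0}, ξ.IsOrdinal ∧ x ∈ Lv U ξ)
    (hν : ℵ₀ ≤ ν) (hUν : U ∈ HH ν) : Pm (HH ν) U := by
  have hL := ucls_HH hV hν hUν
  have hM := hL.full
  exact
    { base := hM.base
      om := hM.omega_mem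
      prod := fun x hx y hy => hM.prod_mem hx hy
      comp := fun φ v _ x hx => hM.sep_mem hx
      mem := hUν
      ord := hU.ord
      inter := hU.inter
      ne := hU.ne
      ultra := fun A _ hA => hU.ultra A hA
      unif := hU.unif
      norm := fun F _ h => hU.norm F h
      lev := hL.psi
      sko := hL.sko }

end Pool.Agent.R587
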