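import Pool.Agent.R587.MDefs

/-!
# Premodels transfer along elementary maps
-/

set_option autoImplicit false

namespace Pool.Agent.R587

open Pool.Agent.W868 hiding Models
open ZFSet (pair)
open Cardinal

theorem UD.tr {Q R : Set ZFSet.{0}} {σ : ZFSet.{0} → ZFSet.{0}} (h : Elem Q R σ)
    (hQ : ∀ x ∈ Q, ∀ y ∈ x, y ∈ Q) (hR : ∀ x ∈ R, ∀ y ∈ x, y ∈ R) (h0 : ∅ ∈ Q) (h0' : ∅ ∈ R)
    {n : ℕ} {P : Set ZFSet.{0} → (Fin n → ZFSet.{0}) → Prop} (hP : UD P)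
    (v : Fin n → ZFSet.{0}) (hv : ∀ i, v i ∈ Q) : P Q v ↔ P R (fun i => σ (v i)) := by
  obtain ⟨φ, hφ⟩ := hP
  rw [← hφ Q hQ h0 v hv, ← hφ R hR h0' _ (fun i => h.maps _ (hv i))]
  exact h.sat φ v hv

theorem Elem.empty {Q R : Set ZFSet.{0}} {σ : ZFSet.{0} → ZFSet.{0}} (h : Elem Q R σ)
    (hQ : ∀ x ∈ Q, ∀ y ∈ x, y ∈ Q) (hR : ∀ x ∈ R, ∀ y ∈ x, y ∈ R) (h0 : ∅ ∈ Q) : σ ∅ = ∅ := by
  obtain ⟨φ, hφ⟩ := D0.isNat (n := 1) (F := fun v => v 0) (D0v.proj 0) 0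
  have hv : ∀ i : Fin 1, (fun _ : Fin 1 => (∅ : ZFSet.{0})) i ∈ Q := fun _ => h0
  have h1 := (hφ Q hQ (fun _ => ∅) hv).2 rfl
  rw [h.sat φ _ hv, hφ R hR _ (fun i => h.maps _ (hv i))] at h1
  exact h1

/-! ### Universal closures -/

/-- The universal closure. -/
theorem UD.closed {n : ℕ} {P : Set ZFSet.{0} → (Fin n → ZFSet.{0}) → Prop} (hP : UD P) :
    UD fun M (_ : Fin 0 → ZFSet.{0}) => ∀ v : Fin n → ZFSet.{0}, (∀ i, v i ∈ M) → P M v := by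
  induction n with
  | zero =>
    refine hP.congr fun M _ _ v _ => ⟨fun h w _ => ?_, fun h => h v (fun i => i.elim0)⟩
    rw [Subsingleton.elim w v]
    exact h
  | succ n ih =>
    have h1 : UD fun (M : Set ZFSet.{0}) (v : Fin n → ZFSet.{0}) => ∀ a ∈ M, P M (Fin.cons a v) := by
      apply UD.all (Q := fun M a (v : Fin n → ZFSet.{0}) => P M (Fin.cons a v))
      refine hP.congr fun M _ _ v _ => ?_
      rw [Fin.cons_self_tail]
    refine (ih h1).congr fun M _ _ _ _ => ⟨fun h v hv => ?_, fun h v hv a ha => h _ ?_⟩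
    · have := h (Fin.tail v) (fun i => hv _) (v 0) (hv 0)
      rwa [Fin.cons_self_tail] at this
    · intro i
      refine Fin.cases ?_ (fun i => ?_) i
      · exact ha
      · exact hv i

/-- The universal closure with one parameter. -/
theorem UD.closed1 {n : ℕ} {P : Set ZFSet.{0} → (Fin (n + 1) → ZFSet.{0}) → Prop} (hP : UD P) :
    UD fun M (w : Fin 1 → ZFSet.{0}) => ∀ v : Fin (n + 1) → ZFSet.{0}, (∀ i, v i ∈ M) →
      v (Fin.last n) = w 0 → P M v := by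
  induction n with
  | zero =>
    refine hP.congr fun M _ _ v hv => ⟨fun h w _ hw => ?_, fun h => h v hv rfl⟩
    have : w = v := by
      funext i
      refine Fin.cases ?_ (fun j => j.elim0) i
      exact hw
    rw [this]
    exact h
  | succ n ih =>
    have h1 : UD fun (M : Set ZFSet.{0}) (v : Fin (n + 1) → ZFSet.{0}) =>
        ∀ a ∈ M, P M (Fin.cons a v) := by
      apply UD.all (Q := fun M a (v : Fin (n + 1) → ZFSet.{0}) => P M (Fin.cons a v))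
      refine hP.congr fun M _ _ v _ => ?_
      rw [Fin.cons_self_tail]
    refine (ih h1).congr fun M _ _ w _ => ⟨fun h v hv hw => ?_, fun h v hv hw a ha => h _ ?_ ?_⟩
    · have := h (Fin.tail v) (fun i => hv _) hw (v 0) (hv 0)
      rwa [Fin.cons_self_tail] at this
    · intro i
      refine Fin.cases ?_ (fun i => ?_) i
      · exact ha
      · exact hv i
    · rw [← hw, ← Fin.succ_last, Fin.cons_succ]

theorem UD.iff' {n : ℕ} {R T : Set ZFSet.{0} → (Fin n → ZFSet.{0}) → Prop} (h : UD R)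
    (h' : UD T) : UD fun M v => R M v ↔ T M v :=
  ((h.imp h').and (h'.imp h)).congr fun M _ _ v _ => by tauto

/-! ### Descriptions -/

/-- `z` is the pair. -/
def DPr (x y z : ZFSet.{0}) : Prop := x ∈ z ∧ y ∈ z ∧ ∀ t ∈ z, t = x ∨ t = y

theorem d0_DPr : D0 fun v : Fin 3 → ZFSet.{0} => DPr (v 0) (v 1) (v 2) := by
  unfold DPr
  apply D0.and (D0.mem (D0v.proj 0) (D0v.proj 2))
  apply D0.and (D0.mem (D0v.proj 1) (D0v.proj 2))
  apply D0.ball (D0v.proj 2)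
  exact D0.or (D0.eq (D0v.proj 0) (D0v.proj 1)) (D0.eq (D0v.proj 0) (D0v.proj 2))

theorem DPr_iff {x y z : ZFSet.{0}} : DPr x y z ↔ z = {x, y} := by
  constructor
  · rintro ⟨h1, h2, h3⟩
    ext t
    rw [ZFSet.mem_pair]
    constructor
    · exact h3 t
    · rintro (rfl | rfl)
      · exact h1
      · exact h2
  · rintro rfl
    exact ⟨ZFSet.mem_pair.2 (Or.inl rfl), ZFSet.mem_pair.2 (Or.inr rfl), fun t ht =>
      ZFSet.mem_pair.1 ht⟩

/-- `z` is the union. -/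
def DUn (x z : ZFSet.{0}) : Prop := (∀ y ∈ x, ∀ t ∈ y, t ∈ z) ∧ ∀ t ∈ z, ∃ y ∈ x, t ∈ y

theorem d0_DUn : D0 fun v : Fin 2 → ZFSet.{0} => DUn (v 0) (v 1) := by
  unfold DUn
  apply D0.and
  · apply D0.ball (D0v.proj 0)
    apply D0.ball (D0v.proj 0)
    exact D0.mem (D0v.proj 0) (D0v.proj 3)
  · apply D0.ball (D0v.proj 1)
    apply D0.bex (D0v.proj 1)
    exact D0.mem (D0v.proj 1) (D0v.proj 0)

theorem DUn_iff {x z : ZFSet.{0}} : DUn x z ↔ z = (ZFSet.sUnion x : ZFSet.{0}) := by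
  constructor
  · rintro ⟨h1, h2⟩
    ext t
    rw [ZFSet.mem_sUnion]
    exact ⟨h2 t, fun ⟨y, hy, ht⟩ => h1 y hy t ht⟩
  · rintro rfl
    exact ⟨fun y hy t ht => ZFSet.mem_sUnion.2 ⟨y, hy, ht⟩, fun t ht => ZFSet.mem_sUnion.1 ht⟩

/-- `s` is the successor of `y`. -/
def DSc (y s : ZFSet.{0}) : Prop := (∀ t ∈ s, t ∈ y ∨ t = y) ∧ (∀ t ∈ y, t ∈ s) ∧ y ∈ s

theorem d0_DSc : D0 fun v : Fin 2 → ZFSet.{0} => DSc (v 0) (v 1) := by
  unfold DSc
  apply D0.and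
  · apply D0.ball (D0v.proj 1)
    exact D0.or (D0.mem (D0v.proj 0) (D0v.proj 1)) (D0.eq (D0v.proj 0) (D0v.proj 1))
  apply D0.and
  · apply D0.ball (D0v.proj 0)
    exact D0.mem (D0v.proj 0) (D0v.proj 2)
  · exact D0.mem (D0v.proj 0) (D0v.proj 1)

theorem DSc_iff {y s : ZFSet.{0}} : DSc y s ↔ s = insert y y := by
  constructor
  · rintro ⟨h1, h2, h3⟩
    ext t
    rw [ZFSet.mem_insert_iff]
    constructor
    · intro ht
      exact (h1 t ht).symm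
    · rintro (rfl | ht)
      · exact h3
      · exact h2 t ht
  · rintro rfl
    refine ⟨fun t ht => (ZFSet.mem_insert_iff.1 ht).symm,
      fun t ht => ZFSet.mem_insert_iff.2 (Or.inr ht), ZFSet.mem_insert_iff.2 (Or.inl rfl)⟩

/-- `z` is the set of the natural numbers. -/
def DOm (z : ZFSet.{0}) : Prop := (∃ e ∈ z, e = nat 0) ∧ (∀ y ∈ z, ∃ s ∈ z, DSc y s) ∧
  ∀ y ∈ z, y = nat 0 ∨ ∃ t ∈ z, DSc t y

theorem d0_DOm : D0 fun v : Fin 1 → ZFSet.{0} => DOm (v 0) := by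
  unfold DOm
  apply D0.and
  · apply D0.bex (D0v.proj 0)
    exact D0.isNat (D0v.proj 0) 0
  apply D0.and
  · apply D0.ball (D0v.proj 0)
    apply D0.bex (D0v.proj 1)
    exact d0_DSc.comp ![1, 0]
  · apply D0.ball (D0v.proj 0)
    apply D0.or (D0.isNat (D0v.proj 0) 0)
    apply D0.bex (D0v.proj 1)
    exact d0_DSc.comp ![0, 1]

theorem DOm_iff {z : ZFSet.{0}} : DOm z ↔ z = ZFSet.omega := by
  constructor
  · rintro ⟨⟨e, he, rfl⟩, h2, h3⟩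
    ext t
    constructor
    · induction t using ZFSet.inductionOn with
      | _ t ih =>
        intro ht
        rcases h3 t ht with rfl | ⟨u, hu, hut⟩
        · exact mem_omega_iff.2 ⟨0, rfl⟩
        · rw [DSc_iff] at hut
          have h4 := ih u (by rw [hut]; exact ZFSet.mem_insert_iff.2 (Or.inl rfl)) hu
          obtain ⟨k, rfl⟩ := mem_omega_iff.1 h4
          rw [hut]
          exact mem_omega_iff.2 ⟨k + 1, rfl⟩
    · intro ht
      obtain ⟨k, rfl⟩ := mem_omega_iff.1 ht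
      clear ht
      induction k with
      | zero => exact he
      | succ k ih =>
        obtain ⟨s, hs, hs'⟩ := h2 _ ih
        rw [DSc_iff] at hs'
        rw [hs'] at hs
        exact hs
  · rintro rfl
    refine ⟨⟨_, mem_omega_iff.2 ⟨0, rfl⟩, rfl⟩, fun y hy => ?_, fun y hy => ?_⟩
    · obtain ⟨k, rfl⟩ := mem_omega_iff.1 hy
      exact ⟨nat (k + 1), mem_omega_iff.2 ⟨k + 1, rfl⟩, DSc_iff.2 rfl⟩
    · obtain ⟨k, rfl⟩ := mem_omega_iff.1 hy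
      cases k with
      | zero => exact Or.inl rfl
      | succ k => exact Or.inr ⟨nat k, mem_omega_iff.2 ⟨k, rfl⟩, DSc_iff.2 rfl⟩

/-- `z` is the product. -/
def DPd (x y z : ZFSet.{0}) : Prop := (∀ p ∈ z, ∃ a ∈ x, ∃ b ∈ y, p = pair a b) ∧
  ∀ a ∈ x, ∀ b ∈ y, pair a b ∈ z

theorem d0_DPd : D0 fun v : Fin 3 → ZFSet.{0} => DPd (v 0) (v 1) (v 2) := by
  unfold DPd
  apply D0.and
  · apply D0.ball (D0v.proj 2)
    apply D0.bex (D0v.proj 1)
    apply D0.bex (D0v.proj 3)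
    exact D0.isPair (D0v.proj 2) (D0v.proj 1) (D0v.proj 0)
  · apply D0.ball (D0v.proj 0)
    apply D0.ball (D0v.proj 2)
    exact D0.pairMem (D0v.proj 1) (D0v.proj 0) (D0v.proj 4)

theorem DPd_iff {x y z : ZFSet.{0}} : DPd x y z ↔ z = ZFSet.prod x y := by
  constructor
  · rintro ⟨h1, h2⟩
    ext t
    rw [ZFSet.mem_prod]
    constructor
    · intro ht
      exact h1 t ht
    · rintro ⟨a, ha, b, hb, rfl⟩
      exact h2 a ha b hb
  · rintro rfl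
    exact ⟨fun p hp => ZFSet.mem_prod.1 hp, fun a ha b hb => ZFSet.pair_mem_prod.2 ⟨ha, hb⟩⟩

/-- Closure of `W` under intersections. -/
def DIn (W : ZFSet.{0}) : Prop := ∀ A ∈ W, ∀ B ∈ W, ∃ C ∈ W, (∀ t ∈ C, t ∈ A ∧ t ∈ B) ∧
  ∀ t ∈ A, t ∈ B → t ∈ C

theorem d0_DIn : D0 fun v : Fin 1 → ZFSet.{0} => DIn (v 0) := by
  unfold DIn
  apply D0.ball (D0v.proj 0)
  apply D0.ball (D0v.proj 1)
  apply D0.bex (D0v.proj 2)
  apply D0.and
  · apply D0.ball (D0v.proj 0)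
    exact D0.and (D0.mem (D0v.proj 0) (D0v.proj 3)) (D0.mem (D0v.proj 0) (D0v.proj 2))
  · apply D0.ball (D0v.proj 2)
    exact D0.imp (D0.mem (D0v.proj 0) (D0v.proj 2)) (D0.mem (D0v.proj 0) (D0v.proj 1))

theorem DIn_iff {W : ZFSet.{0}} : DIn W ↔ ∀ A ∈ W, ∀ B ∈ W, A ∩ B ∈ W := by
  refine forall_congr' fun A => forall_congr' fun _ => forall_congr' fun B =>
    forall_congr' fun _ => ?_
  constructor
  · rintro ⟨C, hC, h1, h2⟩
    have : C = A ∩ B := by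
      ext t
      rw [ZFSet.mem_inter]
      exact ⟨h1 t, fun h => h2 t h.1 h.2⟩
    rwa [← this]
  · intro h
    exact ⟨_, h, fun t ht => ZFSet.mem_inter.1 ht, fun t h1 h2 => ZFSet.mem_inter.2 ⟨h1, h2⟩⟩

/-- The elements of `W` are not empty. -/
def DNe (W : ZFSet.{0}) : Prop := ∀ A ∈ W, ∃ t ∈ A, t = t

theorem d0_DNe : D0 fun v : Fin 1 → ZFSet.{0} => DNe (v 0) := by
  unfold DNe
  apply D0.ball (D0v.proj 0)
  apply D0.bex (D0v.proj 0)
  exact D0.eq (D0v.proj 0) (D0v.proj 0)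

theorem DNe_iff {W : ZFSet.{0}} : DNe W ↔ ∅ ∉ W := by
  constructor
  · intro h h0
    obtain ⟨t, ht, -⟩ := h _ h0
    exact ZFSet.notMem_empty t ht
  · intro h A hA
    by_contra hcon
    apply h
    have : A = ∅ := by
      rw [ZFSet.eq_empty]
      intro t ht
      exact hcon ⟨t, ht, rfl⟩
    rwa [← this]

/-- `W` is an ultrafilter on `u` as far as `A` is concerned. -/
def DUl (W u A : ZFSet.{0}) : Prop := A ⊆ u → A ∈ W ∨ ∃ C ∈ W, (∀ t ∈ C, t ∈ u ∧ ¬ t ∈ A) ∧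
  ∀ t ∈ u, ¬ t ∈ A → t ∈ C

theorem d0_DUl : D0 fun v : Fin 3 → ZFSet.{0} => DUl (v 0) (v 1) (v 2) := by
  unfold DUl
  apply D0.imp (D0.subset (D0v.proj 2) (D0v.proj 1))
  apply D0.or (D0.mem (D0v.proj 2) (D0v.proj 0))
  apply D0.bex (D0v.proj 0)
  apply D0.and
  · apply D0.ball (D0v.proj 0)
    exact D0.and (D0.mem (D0v.proj 0) (D0v.proj 3)) (D0.mem (D0v.proj 0) (D0v.proj 4)).not
  · apply D0.ball (D0v.proj 2)
    exact D0.imp (D0.mem (D0v.proj 0) (D0v.proj 4)).not (D0.mem (D0v.proj 0) (D0v.proj 1))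

theorem DUl_iff {W u A : ZFSet.{0}} : DUl W u A ↔ (A ⊆ u → A ∈ W ∨ u \ A ∈ W) := by
  refine forall_congr' fun _ => or_congr_right ?_
  constructor
  · rintro ⟨C, hC, h1, h2⟩
    have : C = u \ A := by
      ext t
      rw [ZFSet.mem_sdiff]
      exact ⟨h1 t, fun h => h2 t h.1 h.2⟩
    rwa [← this]
  · intro h
    exact ⟨_, h, fun t ht => ZFSet.mem_sdiff.1 ht, fun t h1 h2 => ZFSet.mem_sdiff.2 ⟨h1, h2⟩⟩

/-- `W` contains the final segments of `u`. -/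
def DUf (W u : ZFSet.{0}) : Prop := ∀ α ∈ u, ∃ C ∈ W, (∀ t ∈ C, t ∈ u ∧ α ∈ t) ∧
  ∀ t ∈ u, α ∈ t → t ∈ C

theorem d0_DUf : D0 fun v : Fin 2 → ZFSet.{0} => DUf (v 0) (v 1) := by
  unfold DUf
  apply D0.ball (D0v.proj 1)
  apply D0.bex (D0v.proj 1)
  apply D0.and
  · apply D0.ball (D0v.proj 0)
    exact D0.and (D0.mem (D0v.proj 0) (D0v.proj 4)) (D0.mem (D0v.proj 2) (D0v.proj 0))
  · apply D0.ball (D0v.proj 3)
    exact D0.imp (D0.mem (D0v.proj 2) (D0v.proj 0)) (D0.mem (D0v.proj 0) (D0v.proj 1))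

theorem sep_mem_iff {W u : ZFSet.{0}} {p : ZFSet.{0} → Prop} :
    (∃ C ∈ W, (∀ t ∈ C, t ∈ u ∧ p t) ∧ ∀ t ∈ u, p t → t ∈ C) ↔ ZFSet.sep p u ∈ W := by
  constructor
  · rintro ⟨C, hC, h1, h2⟩
    have : C = ZFSet.sep p u := by
      ext t
      rw [ZFSet.mem_sep]
      exact ⟨h1 t, fun h => h2 t h.1 h.2⟩
    rwa [← this]
  · intro h
    exact ⟨_, h, fun t ht => ZFSet.mem_sep.1 ht, fun t h1 h2 => ZFSet.mem_sep.2 ⟨h1, h2⟩⟩

theorem DUf_iff {W u : ZFSet.{0}} : DUf W u ↔ ∀ α ∈ u, ZFSet.sep (fun η => α ∈ η) u ∈ W := by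
  refine forall_congr' fun α => forall_congr' fun _ => ?_
  exact sep_mem_iff

/-- Normality of `W` as far as `F` is concerned. -/
def DNm (W u F : ZFSet.{0}) : Prop :=
  (∀ ξ ∈ u, ∃ C ∈ W, (∀ t ∈ C, t ∈ u ∧ pair ξ t ∈ F) ∧ ∀ t ∈ u, pair ξ t ∈ F → t ∈ C) →
    ∃ C ∈ W, (∀ t ∈ C, t ∈ u ∧ ∀ ξ ∈ t, pair ξ t ∈ F) ∧ ∀ t ∈ u, (∀ ξ ∈ t, pair ξ t ∈ F) → t ∈ C

theorem d0_DNm : D0 fun v : Fin 3 → ZFSet.{0} => DNm (v 0) (v 1) (v 2) := by
  unfold DNm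
  apply D0.imp
  · apply D0.ball (D0v.proj 1)
    apply D0.bex (D0v.proj 1)
    apply D0.and
    · apply D0.ball (D0v.proj 0)
      exact D0.and (D0.mem (D0v.proj 0) (D0v.proj 4))
        (D0.pairMem (D0v.proj 2) (D0v.proj 0) (D0v.proj 5))
    · apply D0.ball (D0v.proj 3)
      exact D0.imp (D0.pairMem (D0v.proj 2) (D0v.proj 0) (D0v.proj 5))
        (D0.mem (D0v.proj 0) (D0v.proj 1))
  · apply D0.bex (D0v.proj 0)
    apply D0.and
    · apply D0.ball (D0v.proj 0)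
      apply D0.and (D0.mem (D0v.proj 0) (D0v.proj 3))
      apply D0.ball (D0v.proj 0)
      exact D0.pairMem (D0v.proj 0) (D0v.proj 1) (D0v.proj 5)
    · apply D0.ball (D0v.proj 2)
      apply D0.imp
      · apply D0.ball (D0v.proj 0)
        exact D0.pairMem (D0v.proj 0) (D0v.proj 1) (D0v.proj 5)
      · exact D0.mem (D0v.proj 0) (D0v.proj 1)

theorem DNm_iff {W u F : ZFSet.{0}} : DNm W u F ↔
    ((∀ ξ ∈ u, ZFSet.sep (fun η => pair ξ η ∈ F) u ∈ W) →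
      ZFSet.sep (fun η => ∀ ξ ∈ η, pair ξ η ∈ F) u ∈ W) := by
  unfold DNm
  refine imp_congr (forall_congr' fun ξ => forall_congr' fun _ => ?_) ?_
  · exact sep_mem_iff
  · exact sep_mem_iff

/-! ### The description of premodels -/

/-- The part of the description of the premodels that is not a schema. -/
def PA (M : Set ZFSet.{0}) (W : ZFSet.{0}) : Prop :=
  (∀ x ∈ M, ∀ y ∈ M, ∃ z ∈ M, DPr x y z) ∧ (∀ x ∈ M, ∃ z ∈ M, DUn x z) ∧ (∃ z ∈ M, DOm z) ∧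
  (∀ x ∈ M, ∀ y ∈ M, ∃ z ∈ M, DPd x y z) ∧ DIn W ∧ DNe W ∧
  (∃ u ∈ M, (DUn W u ∧ u.IsOrdinal ∧ DUf W u) ∧ ∀ A ∈ M, DUl W u A ∧ DNm W u A) ∧
  ∀ x ∈ M, ∃ f ∈ M, Psi W x f

theorem ud_PA : UD fun M (v : Fin 1 → ZFSet.{0}) => PA M (v 0) := by
  unfold PA
  apply UD.and
  · apply UD.all (Q := fun M x (v : Fin 1 → ZFSet.{0}) => ∀ y ∈ M, ∃ z ∈ M, DPr x y z)
    apply UD.all (Q := fun M y (v : Fin 2 → ZFSet.{0}) => ∃ z ∈ M, DPr (v 0) y z)
    apply UD.ex (Q := fun M z (v : Fin 3 → ZFSet.{0}) => DPr (v 1) (v 0) z)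
    exact (UD.of_D0 d0_DPr).comp ![2, 1, 0]
  apply UD.and
  · apply UD.all (Q := fun M x (v : Fin 1 → ZFSet.{0}) => ∃ z ∈ M, DUn x z)
    apply UD.ex (Q := fun M z (v : Fin 2 → ZFSet.{0}) => DUn (v 0) z)
    exact (UD.of_D0 d0_DUn).comp ![1, 0]
  apply UD.and
  · apply UD.ex (Q := fun M z (v : Fin 1 → ZFSet.{0}) => DOm z)
    exact (UD.of_D0 d0_DOm).comp ![0]
  apply UD.and
  · apply UD.all (Q := fun M x (v : Fin 1 → ZFSet.{0}) => ∀ y ∈ M, ∃ z ∈ M, DPd x y z)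
    apply UD.all (Q := fun M y (v : Fin 2 → ZFSet.{0}) => ∃ z ∈ M, DPd (v 0) y z)
    apply UD.ex (Q := fun M z (v : Fin 3 → ZFSet.{0}) => DPd (v 1) (v 0) z)
    exact (UD.of_D0 d0_DPd).comp ![2, 1, 0]
  apply UD.and (UD.of_D0 d0_DIn)
  apply UD.and (UD.of_D0 d0_DNe)
  apply UD.and
  · apply UD.ex (Q := fun M u (v : Fin 1 → ZFSet.{0}) => (DUn (v 0) u ∧ u.IsOrdinal ∧
      DUf (v 0) u) ∧ ∀ A ∈ M, DUl (v 0) u A ∧ DNm (v 0) u A)
    apply UD.and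
    · apply UD.and ((UD.of_D0 d0_DUn).comp ![1, 0])
      apply UD.and (UD.of_D0 (D0.isOrdinal (D0v.proj 0)))
      exact (UD.of_D0 d0_DUf).comp ![1, 0]
    · apply UD.all (Q := fun M A (v : Fin 2 → ZFSet.{0}) => DUl (v 1) (v 0) A ∧
        DNm (v 1) (v 0) A)
      apply UD.and
      · exact (UD.of_D0 d0_DUl).comp ![2, 1, 0]
      · exact (UD.of_D0 d0_DNm).comp ![2, 1, 0]
  · apply UD.all (Q := fun M x (v : Fin 1 → ZFSet.{0}) => ∃ f ∈ M, Psi (v 0) x f)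
    apply UD.ex (Q := fun M f (v : Fin 2 → ZFSet.{0}) => Psi (v 1) (v 0) f)
    exact (UD.of_D0 d0_Psi).comp ![2, 1, 0]

/-- An instance of comprehension. -/
def PCm {n : ℕ} (φ : Fml Empty (n + 1)) (M : Set ZFSet.{0}) (w : Fin (n + 1) → ZFSet.{0}) : Prop :=
  ∃ z ∈ M, ∀ y ∈ M, (y ∈ z ↔ y ∈ w 0 ∧ Sat M Empty.elim φ (Fin.cons y (Fin.tail w)))

theorem ud_PC {n : ℕ} (φ : Fml Empty (n + 1)) :
    UD fun M (_ : Fin 0 → ZFSet.{0}) => ∀ w : Fin (n + 1) → ZFSet.{0}, (∀ i, w i ∈ M) →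
      PCm φ M w := by
  apply UD.closed
  unfold PCm
  apply UD.ex (Q := fun M z (w : Fin (n + 1) → ZFSet.{0}) =>
    ∀ y ∈ M, (y ∈ z ↔ y ∈ w 0 ∧ Sat M Empty.elim φ (Fin.cons y (Fin.tail w))))
  apply UD.all (Q := fun M y (w : Fin (n + 1 + 1) → ZFSet.{0}) =>
    (y ∈ w 0 ↔ y ∈ w 1 ∧ Sat M Empty.elim φ (Fin.cons y (Fin.tail (Fin.tail w)))))
  apply UD.iff'
  · exact UD.of_D0 (D0.mem (D0v.proj 0) (D0v.proj 1))
  · apply UD.and
    · exact UD.of_D0 (D0.mem (D0v.proj 0) (D0v.proj 2))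
    · have h1 : UD fun (M : Set ZFSet.{0}) (w : Fin (n + 1 + 1 + 1) → ZFSet.{0}) =>
          Sat M Empty.elim φ fun i => w ((Fin.cons 0 fun j : Fin n => j.succ.succ.succ :
            Fin (n + 1) → Fin (n + 1 + 1 + 1)) i) :=
        (UD.sat φ).comp _
      refine h1.congr fun M _ _ w _ => ?_
      have h2 : (fun i => w ((Fin.cons 0 fun j : Fin n => j.succ.succ.succ :
          Fin (n + 1) → Fin (n + 1 + 1 + 1)) i)) =
          Fin.cons (w 0) (Fin.tail (Fin.tail (Fin.tail w))) := by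
        funext i
        refine Fin.cases ?_ (fun i => ?_) i
        · simp
        · simp [Fin.tail]
      rw [h2]

/-- An instance of the existence of Skolem functions. -/
def PSk (χ : Fml Empty 3) {n : ℕ} (φ : Fml Empty (n + 1)) (M : Set ZFSet.{0})
    (w : Fin (n + 1) → ZFSet.{0}) : Prop :=
  (∃ y ∈ M, Sat M Empty.elim φ (Fin.cons y (Fin.init w))) →
    ∃ y ∈ M, Sat M Empty.elim φ (Fin.cons y (Fin.init w)) ∧ ∀ z ∈ M,
      Sat M Empty.elim φ (Fin.cons z (Fin.init w)) → ¬ z = y →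
      Sat M Empty.elim χ ![y, z, w (Fin.last n)] ∧ ¬ Sat M Empty.elim χ ![z, y, w (Fin.last n)]

theorem ud_PS (χ : Fml Empty 3) {n : ℕ} (φ : Fml Empty (n + 1)) :
    UD fun M (u : Fin 1 → ZFSet.{0}) => ∀ w : Fin (n + 1) → ZFSet.{0}, (∀ i, w i ∈ M) →
      w (Fin.last n) = u 0 → PSk χ φ M w := by
  apply UD.closed1
  have hφ1 : UD fun (M : Set ZFSet.{0}) (w : Fin (n + 1 + 1) → ZFSet.{0}) =>
      Sat M Empty.elim φ (Fin.cons (w 0) (Fin.init (Fin.tail w))) := by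
    have h1 : UD fun (M : Set ZFSet.{0}) (w : Fin (n + 1 + 1) → ZFSet.{0}) =>
        Sat M Empty.elim φ fun i => w ((Fin.cons 0 fun j : Fin n => j.castSucc.succ :
          Fin (n + 1) → Fin (n + 1 + 1)) i) :=
      (UD.sat φ).comp _
    refine h1.congr fun M _ _ w _ => ?_
    have h2 : (fun i => w ((Fin.cons 0 fun j : Fin n => j.castSucc.succ :
        Fin (n + 1) → Fin (n + 1 + 1)) i)) = Fin.cons (w 0) (Fin.init (Fin.tail w)) := by
      funext i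
      refine Fin.cases ?_ (fun i => ?_) i
      · simp
      · simp [Fin.tail, Fin.init]
    rw [h2]
  unfold PSk
  apply UD.imp
  · apply UD.ex (Q := fun M y (w : Fin (n + 1) → ZFSet.{0}) =>
      Sat M Empty.elim φ (Fin.cons y (Fin.init w)))
    exact hφ1
  apply UD.ex (Q := fun M y (w : Fin (n + 1) → ZFSet.{0}) =>
    Sat M Empty.elim φ (Fin.cons y (Fin.init w)) ∧ ∀ z ∈ M,
      Sat M Empty.elim φ (Fin.cons z (Fin.init w)) → ¬ z = y →
      Sat M Empty.elim χ ![y, z, w (Fin.last n)] ∧ ¬ Sat M Empty.elim χ ![z, y, w (Fin.last n)])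
  apply UD.and
  · exact hφ1
  apply UD.all (Q := fun M z (w : Fin (n + 1 + 1) → ZFSet.{0}) =>
      Sat M Empty.elim φ (Fin.cons z (Fin.init (Fin.tail w))) → ¬ z = w 0 →
      Sat M Empty.elim χ ![w 0, z, (Fin.tail w) (Fin.last n)] ∧
        ¬ Sat M Empty.elim χ ![z, w 0, (Fin.tail w) (Fin.last n)])
  apply UD.imp
  · refine (hφ1.comp (Fin.cons (0 : Fin (n + 1 + 1 + 1)) fun j : Fin (n + 1) =>
      j.succ.succ)).congr fun M _ _ w _ => ?_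
    simp only [Fin.cons_zero]
    rfl
  apply UD.imp
  · exact (UD.of_D0 (D0.eq (D0v.proj 0) (D0v.proj 1))).not
  apply UD.and
  · refine ((UD.sat χ).comp ![(1 : Fin (n + 1 + 1 + 1)), 0, Fin.last _]).congr
      fun M _ _ w _ => ?_
    have h2 : (fun i => w ((![(1 : Fin (n + 1 + 1 + 1)), 0, Fin.last _]) i)) =
        ![(Fin.tail w) 0, w 0, (Fin.tail (Fin.tail w)) (Fin.last n)] := by
      funext i
      fin_cases i
      · rfl
      · rfl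
      · simp [Fin.tail, Fin.succ_last]
    rw [h2]
  · refine ((UD.sat χ).comp ![(0 : Fin (n + 1 + 1 + 1)), 1, Fin.last _]).not.congr
      fun M _ _ w _ => ?_
    have h2 : (fun i => w ((![(0 : Fin (n + 1 + 1 + 1)), 1, Fin.last _]) i)) =
        ![w 0, (Fin.tail w) 0, (Fin.tail (Fin.tail w)) (Fin.last n)] := by
      funext i
      fin_cases i
      · rfl
      · rfl
      · simp [Fin.tail, Fin.succ_last]
    rw [h2]

theorem pm_iff {M : Set ZFSet.{0}} {W : ZFSet.{0}} (hM : ∀ x ∈ M, ∀ y ∈ x, y ∈ M) (hW : W ∈ M) :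
    Pm M W ↔ PA M W ∧ (∀ (n : ℕ) (φ : Fml Empty (n + 1)), ∀ w : Fin (n + 1) → ZFSet.{0},
      (∀ i, w i ∈ M) → PCm φ M w) ∧ ∃ χ : Fml Empty 3, ∀ (n : ℕ) (φ : Fml Empty (n + 1)),
      ∀ w : Fin (n + 1) → ZFSet.{0}, (∀ i, w i ∈ M) → w (Fin.last n) = W → PSk χ φ M w := by
  constructor
  · intro h
    refine ⟨⟨fun x hx y hy => ⟨_, h.base.pairing x hx y hy, DPr_iff.2 rfl⟩,
      fun x hx => ⟨_, h.base.union x hx, DUn_iff.2 rfl⟩, ⟨_, h.om, DOm_iff.2 rfl⟩,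
      fun x hx y hy => ⟨_, h.prod x hx y hy, DPd_iff.2 rfl⟩, DIn_iff.2 h.inter, DNe_iff.2 h.ne,
      ⟨_, h.base.union W hW, ⟨DUn_iff.2 rfl, h.ord, DUf_iff.2 h.unif⟩, fun A hA =>
        ⟨DUl_iff.2 (h.ultra A hA), DNm_iff.2 (h.norm A hA)⟩⟩, h.lev⟩, fun n φ w hw => ?_, ?_⟩
    · refine ⟨_, h.comp φ (Fin.tail w) (fun i => hw _) (w 0) (hw 0), fun y hy => ?_⟩
      rw [ZFSet.mem_sep]
    · obtain ⟨χ, hχ⟩ := h.sko
      refine ⟨χ, fun n φ w hw hwl hy => ?_⟩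
      rw [hwl]
      exact hχ φ (Fin.init w) (fun i => hw _) hy
  · rintro ⟨⟨h1, h2, ⟨o, ho, ho'⟩, h4, h5, h6, ⟨u, hu, ⟨hu1, hu2, hu3⟩, hu4⟩, h8⟩, hc, χ, hs⟩
    rw [DUn_iff] at hu1
    subst hu1
    refine ⟨⟨hM, fun x hx y hy => ?_, fun x hx => ?_⟩, ?_, fun x hx y hy => ?_,
      fun {n} φ v hv x hx => ?_, hW, hu2, DIn_iff.1 h5, DNe_iff.1 h6,
      fun A hA => DUl_iff.1 (hu4 A hA).1, DUf_iff.1 hu3, fun F hF => DNm_iff.1 (hu4 F hF).2, h8,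
      ⟨χ, fun {n} φ v hv hy => ?_⟩⟩
    · obtain ⟨z, hz, hz'⟩ := h1 x hx y hy
      rw [DPr_iff] at hz'
      rwa [← hz']
    · obtain ⟨z, hz, hz'⟩ := h2 x hx
      rw [DUn_iff] at hz'
      rwa [← hz']
    · rw [DOm_iff] at ho'
      rwa [← ho']
    · obtain ⟨z, hz, hz'⟩ := h4 x hx y hy
      rw [DPd_iff] at hz'
      rwa [← hz']
    · obtain ⟨z, hz, hz'⟩ := hc n φ (Fin.cons x v) (by
        intro i
        refine Fin.cases ?_ (fun i => ?_) i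
        · exact hx
        · exact hv i)
      have : z = ZFSet.sep (fun y => Sat M Empty.elim φ (Fin.cons y v)) x := by
        ext t
        rw [ZFSet.mem_sep]
        constructor
        · intro ht
          have := (hz' t (hM z hz t ht)).1 ht
          simpa using this
        · rintro ⟨ht, ht'⟩
          refine (hz' t (hM x hx t ht)).2 ?_
          simpa using ⟨ht, ht'⟩
      rwa [← this]
    · have h9 := hs n φ (Fin.snoc v W) (by
        intro i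
        refine Fin.lastCases ?_ (fun i => ?_) i
        · rw [Fin.snoc_last]; exact hW
        · rw [Fin.snoc_castSucc]; exact hv i) (by rw [Fin.snoc_last])
      unfold PSk at h9
      rw [Fin.init_snoc, Fin.snoc_last] at h9
      exact h9 hy

theorem desc_iff {Q R : Set ZFSet.{0}} {W : ZFSet.{0}} {σ : ZFSet.{0} → ZFSet.{0}}
    (h : Elem Q R σ) (hQ : ∀ x ∈ Q, ∀ y ∈ x, y ∈ Q) (hR : ∀ x ∈ R, ∀ y ∈ x, y ∈ R) (h0 : ∅ ∈ Q)
    (hW : W ∈ Q) : Pm Q W ↔ Pm R (σ W) := by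
  have h0' : ∅ ∈ R := by
    rw [← h.empty hQ hR h0]
    exact h.maps _ h0
  rw [pm_iff hQ hW, pm_iff hR (h.maps _ hW)]
  refine and_congr ?_ (and_congr ?_ ?_)
  · exact ud_PA.tr h hQ hR h0 h0' (fun _ => W) fun _ => hW
  · refine forall_congr' fun n => forall_congr' fun φ => ?_
    exact (ud_PC φ).tr h hQ hR h0 h0' (fun i => i.elim0) fun i => i.elim0
  · refine exists_congr fun χ => forall_congr' fun n => forall_congr' fun φ => ?_
    exact (ud_PS χ φ).tr h hQ hR h0 h0' (fun _ => W) fun _ => hW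

theorem Pm.empty {Q : Set ZFSet.{0}} {W : ZFSet.{0}} (hQ : Pm Q W) : ∅ ∈ Q :=
  hQ.base.trans _ hQ.om _ (mem_omega_iff.2 ⟨0, rfl⟩)

theorem Pm.push {Q R : Set ZFSet.{0}} {W : ZFSet.{0}} {σ : ZFSet.{0} → ZFSet.{0}} (h : Elem Q R σ)
    (hR : ∀ x ∈ R, ∀ y ∈ x, y ∈ R) (hQ : Pm Q W) : Pm R (σ W) :=
  (desc_iff h hQ.base.trans hR hQ.empty hQ.mem).1 hQ

theorem Pm.down {Q R : Set ZFSet.{0}} {W : ZFSet.{0}} {σ : ZFSet.{0} → ZFSet.{0}}
    (h : Elem Q R σ) (hQ : ∀ x ∈ Q, ∀ y ∈ x, y ∈ Q) (h0 : ∅ ∈ Q) (hW : W ∈ Q)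
    (hR : Pm R (σ W)) : Pm Q W :=
  (desc_iff h hQ hR.base.trans h0 hW).2 hR

end Pool.Agent.R587
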