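import Pool.Agent.R587.Crit
import Pool.Agent.R587.PmT

/-!
# Positions in finite sets of ordinals
-/

set_option autoImplicit false

namespace Pool.Agent.R587

open Pool.Agent.W868 hiding Models
open ZFSet (pair)
open Cardinal

/-- The element `x` of `u` has `k` predecessors in `u`. -/
def Cnt : ℕ → ZFSet.{0} → ZFSet.{0} → Prop
  | 0, u, x => ∀ y ∈ u, y ∉ x
  | k + 1, u, x => ∃ z ∈ u, z ∈ x ∧ Cnt k u z ∧ ∀ y ∈ u, y ∈ x → y = z ∨ y ∈ z

theorem D0.cnt (k : ℕ) {n : ℕ} {F G : (Fin n → ZFSet.{0}) → ZFSet.{0}} (hF : D0v F)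
    (hG : D0v G) : D0 fun v => Cnt k (F v) (G v) := by
  induction k generalizing n with
  | zero =>
    unfold Cnt
    exact D0.ball hF (D0.mem (D0v.proj 0) hG.tail).not
  | succ k ih =>
    unfold Cnt
    apply D0.bex hF
    apply D0.and (D0.mem (D0v.proj 0) hG.tail)
    apply D0.and (ih hF.tail (D0v.proj 0))
    apply D0.ball hF.tail
    apply D0.imp (D0.mem (D0v.proj 0) hG.tail.tail)
    exact (D0.eq (D0v.proj 0) (D0v.proj 1)).or (D0.mem (D0v.proj 0) (D0v.proj 1))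

theorem Cnt.uniq {u : ZFSet.{0}} (hu : ∀ y ∈ u, y.IsOrdinal) (k : ℕ) : ∀ x ∈ u, ∀ y ∈ u,
    Cnt k u x → Cnt k u y → x = y := by
  induction k with
  | zero =>
    intro x hx y hy h h'
    rcases (hu x hx).mem_trichotomous (hu y hy) with h1 | h1 | h1
    · exact absurd h1 (h' x hx)
    · exact h1
    · exact absurd h1 (h y hy)
  | succ k ih =>
    rintro x hx y hy ⟨z, hz, h1, h2, h3⟩ ⟨z', hz', h1', h2', h3'⟩
    obtain rfl := ih z hz z' hz' h2 h2'
    rcases (hu x hx).mem_trichotomous (hu y hy) with h4 | h4 | h4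
    · rcases h3' x hx h4 with h5 | h5
      · exact absurd (h5 ▸ h1) (ZFSet.mem_irrefl _)
      · exact absurd h5 (ZFSet.mem_asymm h1)
    · exact h4
    · rcases h3 y hy h4 with h5 | h5
      · exact absurd (h5 ▸ h1') (ZFSet.mem_irrefl _)
      · exact absurd h5 (ZFSet.mem_asymm h1')

theorem Cnt.exists {u : ZFSet.{0}} (hu : FO u) : ∀ x ∈ u, ∃ k, Cnt k u x := by
  intro x
  induction x using ZFSet.inductionOn with
  | _ x ih =>
  intro hx
  by_cases h : ∃ y ∈ u, y ∈ x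
  · obtain ⟨y, hy, hyx⟩ := h
    obtain ⟨z, hz, h1⟩ := (hu.sub (d := ZFSet.sep (fun y => y ∈ x) u) fun z hz =>
      (ZFSet.mem_sep.1 hz).1).exists_max ⟨y, ZFSet.mem_sep.2 ⟨hy, hyx⟩⟩
    obtain ⟨h2, h3⟩ := ZFSet.mem_sep.1 hz
    obtain ⟨k, hk⟩ := ih z h3 h2
    exact ⟨k + 1, z, h2, h3, hk, fun y hy hyx => h1 y (ZFSet.mem_sep.2 ⟨hy, hyx⟩)⟩
  · push Not at h
    exact ⟨0, h⟩

/-- The map `g` is increasing on the set of ordinals `u`. -/
def Mon (u : ZFSet.{0}) (g : ZFSet.{0} → ZFSet.{0}) : Prop :=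
  (∀ y ∈ u, y.IsOrdinal) ∧ ∀ j ∈ u, ∀ k ∈ u, k ∈ j → g k ∈ g j

theorem Mon.iff {u : ZFSet.{0}} {g : ZFSet.{0} → ZFSet.{0}} (h : Mon u g) {j k : ZFSet.{0}}
    (hj : j ∈ u) (hk : k ∈ u) : g k ∈ g j ↔ k ∈ j := by
  refine ⟨fun h1 => ?_, h.2 j hj k hk⟩
  rcases (h.1 j hj).mem_trichotomous (h.1 k hk) with h2 | h2 | h2
  · exact absurd (h.2 k hk j hj h2) (ZFSet.mem_asymm h1)
  · exact absurd (h2 ▸ h1) (ZFSet.mem_irrefl _)
  · exact h2

theorem Mon.inj {u : ZFSet.{0}} {g : ZFSet.{0} → ZFSet.{0}} (h : Mon u g) {j k : ZFSet.{0}}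
    (hj : j ∈ u) (hk : k ∈ u) (he : g k = g j) : k = j := by
  rcases (h.1 j hj).mem_trichotomous (h.1 k hk) with h2 | h2 | h2
  · have h3 := h.2 k hk j hj h2
    rw [he] at h3
    exact absurd h3 (ZFSet.mem_irrefl _)
  · exact h2.symm
  · have h3 := h.2 j hj k hk h2
    rw [he] at h3
    exact absurd h3 (ZFSet.mem_irrefl _)

theorem Mon.sub {u s : ZFSet.{0}} {g : ZFSet.{0} → ZFSet.{0}} (h : Mon u g) (hs : s ⊆ u) :
    Mon s g := ⟨fun y hy => h.1 y (hs hy), fun j hj k hk => h.2 j (hs hj) k (hs hk)⟩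

theorem Mon.cnt {u : ZFSet.{0}} {g : ZFSet.{0} → ZFSet.{0}} (h : Mon u g) (k : ℕ) : ∀ x ∈ u,
    (Cnt k (im g u) (g x) ↔ Cnt k u x) := by
  induction k with
  | zero =>
    intro x hx
    unfold Cnt
    constructor
    · intro h1 y hy hyx
      exact h1 _ (mem_im.2 ⟨y, hy, rfl⟩) (h.2 x hx y hy hyx)
    · intro h1 y hy hyx
      obtain ⟨z, hz, rfl⟩ := mem_im.1 hy
      exact h1 z hz ((h.iff hx hz).1 hyx)
  | succ k ih =>
    intro x hx
    unfold Cnt
    constructor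
    · rintro ⟨z', hz', h1, h2, h3⟩
      obtain ⟨z, hz, rfl⟩ := mem_im.1 hz'
      refine ⟨z, hz, (h.iff hx hz).1 h1, (ih z hz).1 h2, fun y hy hyx => ?_⟩
      rcases h3 _ (mem_im.2 ⟨y, hy, rfl⟩) (h.2 x hx y hy hyx) with h4 | h4
      · exact Or.inl (h.inj hz hy h4)
      · exact Or.inr ((h.iff hz hy).1 h4)
    · rintro ⟨z, hz, h1, h2, h3⟩
      refine ⟨g z, mem_im.2 ⟨z, hz, rfl⟩, h.2 x hx z hz h1, (ih z hz).2 h2,
        fun y' hy' hyx => ?_⟩
      obtain ⟨y, hy, rfl⟩ := mem_im.1 hy'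
      rcases h3 y hy ((h.iff hx hy).1 hyx) with h4 | h4
      · exact Or.inl (by rw [h4])
      · exact Or.inr (h.2 z hz y hy h4)

/-- The set `t` consists of the elements of `u` at the positions `p`. -/
def Sbp (K : ℕ) (p : ℕ → Prop) (u t : ZFSet.{0}) : Prop :=
  (∀ x ∈ t, x ∈ u) ∧ ∀ x ∈ u, (x ∈ t ↔ ∃ k < K, p k ∧ Cnt k u x)

theorem D0.sb (K : ℕ) (p : ℕ → Prop) {n : ℕ} {F G : (Fin n → ZFSet.{0}) → ZFSet.{0}}
    (hF : D0v F) (hG : D0v G) : D0 fun v => Sbp K p (F v) (G v) := by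
  unfold Sbp
  apply D0.and (D0.ball hG (D0.mem (D0v.proj 0) hF.tail))
  apply D0.ball hF
  apply D0.iff (D0.mem (D0v.proj 0) hG.tail)
  apply D0.exLt'
  intro i _
  by_cases hp : p i
  · exact (D0.cnt i hF.tail (D0v.proj 0)).congr fun v => by simp [hp]
  · exact D0.tt.not.congr fun v => by simp [hp]

theorem Sbp.uniq {K : ℕ} {p : ℕ → Prop} {u t t' : ZFSet.{0}} (h : Sbp K p u t)
    (h' : Sbp K p u t') : t = t' := by
  ext x
  constructor
  · intro hx
    exact (h'.2 x (h.1 x hx)).2 ((h.2 x (h.1 x hx)).1 hx)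
  · intro hx
    exact (h.2 x (h'.1 x hx)).2 ((h'.2 x (h'.1 x hx)).1 hx)

/-- Subsets are given by positions. -/
theorem exists_sb {u s : ZFSet.{0}} (hu : FO u) (hs : s ⊆ u) : ∃ (K : ℕ) (p : ℕ → Prop),
    ∀ g : ZFSet.{0} → ZFSet.{0}, Mon u g → Sbp K p (im g u) (im g s) := by
  classical
  have h1 : ∀ x : {y | y ∈ u}, ∃ k, Cnt k u x.1 := fun x => Cnt.exists hu x.1 x.2
  choose f hf using h1
  haveI : Finite {y | y ∈ u} := hu.2
  obtain ⟨K, hK⟩ := (Set.finite_range f).bddAbove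
  refine ⟨K + 1, fun k => ∃ x ∈ s, Cnt k u x, fun g hg => ⟨fun y hy => ?_, fun y hy => ?_⟩⟩
  · obtain ⟨x, hx, rfl⟩ := mem_im.1 hy
    exact mem_im.2 ⟨x, hs hx, rfl⟩
  · obtain ⟨x, hx, rfl⟩ := mem_im.1 hy
    constructor
    · intro h2
      obtain ⟨x', hx', h3⟩ := mem_im.1 h2
      obtain rfl := hg.inj (hs hx') hx h3
      have h4 : f ⟨x, hx⟩ ≤ K := hK ⟨_, rfl⟩
      exact ⟨f ⟨x, hx⟩, by omega, ⟨x, hx', hf ⟨x, hx⟩⟩, (hg.cnt _ x hx).2 (hf ⟨x, hx⟩)⟩
    · rintro ⟨k, -, ⟨x', hx', h2⟩, h3⟩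
      have h4 := (hg.cnt k x hx).1 h3
      obtain rfl := Cnt.uniq hg.1 k x hx x' (hs hx') h4 h2
      exact mem_im.2 ⟨x, hx', rfl⟩

/-! ### Finite sets and enumerations -/

theorem Inc.mono {C C' : Set ZFSet.{0}} (h : ∀ c ∈ C, c ∈ C') {n : ℕ} {s : ZFSet.{0}}
    (hs : Inc C n s) : Inc C' n s := by
  induction hs with
  | zero => exact Inc.zero
  | succ _ hc hlt ih => exact Inc.succ ih (h _ hc) hlt

theorem fo_inc {u : ZFSet.{0}} (hu : FO u) : ∃ n, Inc {y | y ∈ u} n u := by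
  have key : ∀ (m : ℕ) (u : ZFSet.{0}), FO u → {y | y ∈ u}.ncard = m →
      ∃ n, Inc {y | y ∈ u} n u := by
    intro m
    induction m with
    | zero =>
      intro u hu hm
      have h1 : u = ∅ := by
        rw [ZFSet.eq_empty]
        intro y hy
        have h2 : {y | y ∈ u} = ∅ := (Set.ncard_eq_zero hu.2).1 hm
        have h3 : y ∈ {y | y ∈ u} := hy
        rw [h2] at h3
        exact h3
      subst h1
      exact ⟨0, Inc.zero⟩
    | succ m ih =>
      intro u hu hm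
      have h1 : ∃ y, y ∈ u := by
        by_contra h
        push Not at h
        have h2 : {y | y ∈ u} = ∅ := Set.eq_empty_iff_forall_notMem.2 h
        rw [h2] at hm
        simp at hm
      obtain ⟨μ, hμ, h2⟩ := hu.exists_max h1
      have h3 : (ZFSet.sep (fun y => y ∈ μ) u : ZFSet.{0}) ⊆ u := fun y hy =>
        (ZFSet.mem_sep.1 hy).1
      have h4 : {y | y ∈ u} = insert μ {y | y ∈ ZFSet.sep (fun y => y ∈ μ) u} := by
        ext y
        rw [Set.mem_insert_iff, Set.mem_setOf_eq, Set.mem_setOf_eq, ZFSet.mem_sep]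
        constructor
        · intro hy
          rcases h2 y hy with h5 | h5
          · exact Or.inl h5
          · exact Or.inr ⟨hy, h5⟩
        · rintro (rfl | ⟨hy, -⟩)
          · exact hμ
          · exact hy
      have h5 : μ ∉ {y | y ∈ ZFSet.sep (fun y => y ∈ μ) u} := fun h =>
        ZFSet.mem_irrefl _ (ZFSet.mem_sep.1 h).2
      have h6 : {y | y ∈ ZFSet.sep (fun y => y ∈ μ) u}.ncard = m := by
        rw [h4, Set.ncard_insert_of_notMem h5 (hu.sub h3).2] at hm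
        omega
      obtain ⟨n, hn⟩ := ih _ (hu.sub h3) h6
      refine ⟨n + 1, ?_⟩
      have h7 := Inc.succ (hn.mono (C' := {y | y ∈ u}) fun y hy => h3 hy) hμ
        fun ξ hξ => (ZFSet.mem_sep.1 hξ).2
      have h8 : (insert μ (ZFSet.sep (fun y => y ∈ μ) u) : ZFSet.{0}) = u := by
        ext y
        rw [ZFSet.mem_insert_iff, ZFSet.mem_sep]
        constructor
        · rintro (rfl | ⟨hy, -⟩)
          · exact hμ
          · exact hy
        · intro hy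
          rcases h2 y hy with h5 | h5
          · exact Or.inl h5
          · exact Or.inr ⟨hy, h5⟩
      rwa [h8] at h7
  exact key _ u hu rfl

theorem Inc.im {C : Set ZFSet.{0}} {g : ZFSet.{0} → ZFSet.{0}}
    (hg : ∀ j ∈ C, ∀ k ∈ C, k ∈ j → g k ∈ g j) {n : ℕ} {s : ZFSet.{0}} (hs : Inc C n s) :
    (∀ x ∈ s, x ∈ C) ∧ Inc {c | ∃ j ∈ C, c = g j} n (im g s) := by
  induction hs with
  | zero =>
    have h1 : Pool.Agent.W868.im g ∅ = ∅ := by
      rw [ZFSet.eq_empty]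
      intro y hy
      obtain ⟨x, hx, -⟩ := mem_im.1 hy
      exact ZFSet.notMem_empty x hx
    rw [h1]
    exact ⟨fun x hx => absurd hx (ZFSet.notMem_empty x), Inc.zero⟩
  | @succ n s c _ hc hlt ih =>
    obtain ⟨h1, h2⟩ := ih
    have h3 : Pool.Agent.W868.im g (insert c s) = insert (g c) (Pool.Agent.W868.im g s) := by
      ext y
      rw [mem_im, ZFSet.mem_insert_iff, mem_im]
      constructor
      · rintro ⟨x, hx, rfl⟩
        rcases ZFSet.mem_insert_iff.1 hx with rfl | hx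
        · exact Or.inl rfl
        · exact Or.inr ⟨x, hx, rfl⟩
      · rintro (rfl | ⟨x, hx, rfl⟩)
        · exact ⟨c, ZFSet.mem_insert _ _, rfl⟩
        · exact ⟨x, ZFSet.mem_insert_of_mem _ hx, rfl⟩
    rw [h3]
    refine ⟨fun x hx => ?_, Inc.succ h2 ⟨c, hc, rfl⟩ fun ξ hξ => ?_⟩
    · rcases ZFSet.mem_insert_iff.1 hx with rfl | hx
      · exact hc
      · exact h1 x hx
    · obtain ⟨x, hx, rfl⟩ := mem_im.1 hξ
      exact hg c hc x (h1 x hx) (hlt x hx)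

/-- The elements of an increasing enumeration form a finite set of ordinals. -/
theorem Inc.fo {C : Set ZFSet.{0}} (hC : ∀ c ∈ C, c.IsOrdinal) {n : ℕ} {s : ZFSet.{0}}
    (hs : Inc C n s) : FO s ∧ ∀ x ∈ s, x ∈ C := by
  induction hs with
  | zero => exact ⟨FO.empty, fun x hx => absurd hx (ZFSet.notMem_empty x)⟩
  | @succ n s c _ hc _ ih =>
    have h1 : (insert c s : ZFSet.{0}) = {c} ∪ s := by
      ext y
      rw [ZFSet.mem_insert_iff, ZFSet.mem_union, ZFSet.mem_singleton]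
    rw [h1]
    refine ⟨(FO.single (hC c hc)).union ih.1, fun x hx => ?_⟩
    rcases ZFSet.mem_union.1 hx with hx | hx
    · rw [ZFSet.mem_singleton] at hx
      exact hx ▸ hc
    · exact ih.2 x hx

end Pool.Agent.R587
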