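import Pool.Agent.R587.Wfc
import Pool.Agent.R587.FinS

/-!
# The numbers of the sentences
-/

set_option autoImplicit false

namespace Pool.Agent.R587

open Pool.Agent.W868
open ZFSet (pair)
open Cardinal

variable {m : ℕ} {ar : Fin m → ℕ}

theorem ls_encode (l : List ℕ) : ls (Encodable.encode l) = l := by
  rw [ls, Denumerable.ofNat_encode]

theorem tup_congr {l : List ℕ} {f g : ℕ → ZFSet.{0}} (h : ∀ i ∈ l, f i = g i) :
    tup l f = tup l g := by
  unfold tup
  congr 1
  funext j
  exact h _ (List.get_mem _ _)

/-- The truth of the formula number `φ.code` depends only on the values of the free variables. -/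
theorem GS_congr {N : Set ZFSet.{0}} (φ : SOF ar) : ∀ {f g : ℕ → ZFSet.{0}}, f 0 = g 0 → f 1 = g 1 →
    (∀ x, φ.FreeI x → f (3 * x + 2) = g (3 * x + 2)) →
    (∀ k i, φ.FreeR k i → f (3 * Nat.pair k i + 3) = g (3 * Nat.pair k i + 3)) →
    (GS N φ.code f ↔ GS N φ.code g) := by
  induction φ with
  | rel r x =>
    intro f g h0 h1 hI hR
    rw [SOF.code, GS_pair, GS_pair]
    simp only [Stp, Nat.unpair_pair, ls_encode]
    rw [tup_congr (g := g), h1]
    intro i hi
    obtain ⟨j, rfl⟩ := List.mem_ofFn.1 hi
    exact hI _ ⟨j, rfl⟩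
  | app k i x =>
    intro f g h0 h1 hI hR
    rw [SOF.code, GS_pair, GS_pair]
    simp only [Stp, Nat.unpair_pair, ls_encode]
    rw [tup_congr (g := g), hR k i ⟨rfl, rfl⟩]
    intro i hi
    obtain ⟨j, rfl⟩ := List.mem_ofFn.1 hi
    exact hI _ ⟨j, rfl⟩
  | eq x y =>
    intro f g h0 h1 hI hR
    rw [SOF.code, GS_pair, GS_pair]
    simp only [Stp, Nat.unpair_pair]
    rw [hI x (Or.inl rfl), hI y (Or.inr rfl)]
  | neg φ ih =>
    intro f g h0 h1 hI hR
    rw [SOF.code, GS_pair, GS_pair]
    simp only [Stp]
    exact not_congr (ih h0 h1 hI hR)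
  | and φ ψ ih1 ih2 =>
    intro f g h0 h1 hI hR
    rw [SOF.code, GS_pair, GS_pair]
    simp only [Stp, Nat.unpair_pair]
    exact and_congr (ih1 h0 h1 (fun x hx => hI x (Or.inl hx)) fun k i hx => hR k i (Or.inl hx))
      (ih2 h0 h1 (fun x hx => hI x (Or.inr hx)) fun k i hx => hR k i (Or.inr hx))
  | ex x φ ih =>
    intro f g h0 h1 hI hR
    rw [SOF.code, GS_pair, GS_pair]
    simp only [Stp, Nat.unpair_pair]
    refine exists_congr fun z => and_congr_right fun _ => and_congr (by rw [h0]) ?_
    refine ih ?_ ?_ (fun y hy => ?_) fun k i hy => ?_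
    · rw [Function.update_of_ne (by omega), Function.update_of_ne (by omega)]
      exact h0
    · rw [Function.update_of_ne (by omega), Function.update_of_ne (by omega)]
      exact h1
    · by_cases hxy : x = y
      · subst hxy
        rw [Function.update_self, Function.update_self]
      · rw [Function.update_of_ne (by omega), Function.update_of_ne (by omega)]
        exact hI y ⟨hxy, hy⟩
    · rw [Function.update_of_ne (by omega), Function.update_of_ne (by omega)]
      exact hR k i hy
  | exR k i φ ih =>
    intro f g h0 h1 hI hR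
    rw [SOF.code, GS_pair, GS_pair]
    simp only [Stp, Nat.unpair_pair]
    refine exists_congr fun z => and_congr_right fun _ => and_congr (by rw [h0]) ?_
    refine ih ?_ ?_ (fun y hy => ?_) fun k' i' hy => ?_
    · rw [Function.update_of_ne (by omega), Function.update_of_ne (by omega)]
      exact h0
    · rw [Function.update_of_ne (by omega), Function.update_of_ne (by omega)]
      exact h1
    · rw [Function.update_of_ne (by omega), Function.update_of_ne (by omega)]
      exact hI y hy
    · by_cases hki : k = k' ∧ i = i'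
      · obtain ⟨rfl, rfl⟩ := hki
        rw [Function.update_self, Function.update_self]
      · have hne : Nat.pair k' i' ≠ Nat.pair k i := by
          intro h
          obtain ⟨h2, h3⟩ := Nat.pair_eq_pair.1 h
          exact hki ⟨h2.symm, h3.symm⟩
        rw [Function.update_of_ne (by omega), Function.update_of_ne (by omega)]
        exact hR k' i' ⟨hki, hy⟩

/-- The numbers of the sentences do not depend on the other values. -/
theorem GS_sentence {N : Set ZFSet.{0}} {φ : SOF ar} (hφ : φ.Sentence) {f g : ℕ → ZFSet.{0}}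
    (h0 : f 0 = g 0) (h1 : f 1 = g 1) : GS N φ.code f ↔ GS N φ.code g :=
  GS_congr φ h0 h1 (fun x hx => absurd hx (hφ.1 x)) fun k i hx => absurd hx (hφ.2 k i)

/-- A sentence holds under all interpretations of the variables if it holds under one. -/
theorem models_iff {A : Struc ar} {φ : SOF ar} (hφ : φ.Sentence) (v : ℕ → A.Dom)
    (w : (k : ℕ) → ℕ → (Fin k → A.Dom) → Prop) : Models A φ ↔ φ.Sat A v w := by
  constructor
  · exact fun h => h v w
  · intro h v' w'
    exact (sat_congr_free φ (fun z hz => absurd hz (hφ.1 z))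
      (fun j l hz => absurd hz (hφ.2 j l))).1 h

theorem models_neg {A : Struc ar} {φ : SOF ar} (hφ : φ.Sentence) :
    Models A φ.neg ↔ ¬ Models A φ := by
  obtain ⟨a⟩ := A.ne
  have h : φ.neg.Sentence := hφ
  rw [models_iff h (fun _ => a) (fun _ _ _ => True), models_iff hφ (fun _ => a) (fun _ _ _ => True)]
  rfl

/-- In a complete theory, the models agree about each sentence. -/
theorem CompleteT.iff {T : Set (SOF ar)} (hc : CompleteT T) {φ : SOF ar} (hφ : φ.Sentence)
    {A B : Struc ar} (hA : ModelsT A T) (hB : ModelsT B T) : Models A φ ↔ Models B φ := by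
  rcases hc.2 φ hφ with h | h
  · exact iff_of_true (h A hA) (h B hB)
  · exact iff_of_false ((models_neg hφ).1 (h A hA)) ((models_neg hφ).1 (h B hB))

/-- A complete theory with a finite model is categorical. -/
theorem isom_of_finite {T : Set (SOF ar)} (hc : CompleteT T) {A B : Struc ar}
    (hA : ModelsT A T) (hB : ModelsT B T) (h : Finite A.Dom) : Isom A B := by
  obtain ⟨θ, h1, h2⟩ := finite_sentence A h
  have h3 : Isom A A := ⟨Equiv.refl _, fun r x => Iff.rfl⟩
  exact (h2 B).1 ((hc.iff h1 hA hB).1 ((h2 A).2 h3))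

theorem Isom.symm {A B : Struc ar} (h : Isom A B) : Isom B A := by
  obtain ⟨e, he⟩ := h
  refine ⟨e.symm, fun r x => ?_⟩
  rw [he]
  have h6 : (fun j => e (e.symm (x j))) = x := funext fun j => e.apply_symm_apply _
  rw [h6]

end Pool.Agent.R587
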