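import Mathlib

set_option autoImplicit false

open Set Filter Topology Cardinal

universe u

namespace Pool.Agent.R587.SG

/-- A real normed space `V` is *strong Gurarii*: every isometric embedding into `V` of a subspace
`X` of a finite dimensional normed space `Y` extends to an isometric embedding of `Y`. -/
def StrongGurarii (V : Type u) [NormedAddCommGroup V] [NormedSpace ℝ V] : Prop :=
  ∀ (Y : Type) [NormedAddCommGroup Y] [NormedSpace ℝ Y] [FiniteDimensional ℝ Y]
    (X : Submodule ℝ Y) (f : X →ₗᵢ[ℝ] V), ∃ g : Y →ₗᵢ[ℝ] V, ∀ x : X, g (x : Y) = f x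

/-- coordinate space without a norm -/
def Cp (n : ℕ) : Type := Fin n → ℝ

instance (n : ℕ) : AddCommGroup (Cp n) := inferInstanceAs (AddCommGroup (Fin n → ℝ))
instance (n : ℕ) : Module ℝ (Cp n) := inferInstanceAs (Module ℝ (Fin n → ℝ))
instance (n : ℕ) : FiniteDimensional ℝ (Cp n) :=
  inferInstanceAs (FiniteDimensional ℝ (Fin n → ℝ))

theorem StrongGurarii.extend {V : Type u} [NormedAddCommGroup V] [NormedSpace ℝ V]
    (hV : StrongGurarii V) {X Y : Type u} [NormedAddCommGroup X] [NormedSpace ℝ X]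
    [NormedAddCommGroup Y] [NormedSpace ℝ Y] [FiniteDimensional ℝ Y]
    (j : X →ₗᵢ[ℝ] Y) (f : X →ₗᵢ[ℝ] V) : ∃ g : Y →ₗᵢ[ℝ] V, ∀ x : X, g (j x) = f x := by
  classical
  let n := Module.finrank ℝ Y
  let e : Cp n ≃ₗ[ℝ] Y := (Module.finBasis ℝ Y).equivFun.symm
  letI i1 : NormedAddCommGroup (Cp n) :=
    NormedAddCommGroup.induced (Cp n) Y e.toLinearMap e.injective
  letI i2 : NormedSpace ℝ (Cp n) := NormedSpace.induced ℝ (Cp n) Y e.toLinearMap
  let e' : Cp n ≃ₗᵢ[ℝ] Y := { toLinearEquiv := e, norm_map' := fun x => rfl }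
  let j' : X →ₗᵢ[ℝ] Cp n := e'.symm.toLinearIsometry.comp j
  obtain ⟨g, hg⟩ := hV (Cp n) (LinearMap.range j'.toLinearMap)
    (f.comp j'.equivRange.symm.toLinearIsometry)
  refine ⟨g.comp e'.symm.toLinearIsometry, fun x => ?_⟩
  have h := hg (j'.equivRange x)
  have h2 : ((j'.equivRange x : LinearMap.range j'.toLinearMap) : Cp n) = j' x := rfl
  rw [h2] at h
  change g (j' x) = f x
  rw [h]
  change f (j'.equivRange.symm (j'.equivRange x)) = f x
  rw [LinearIsometryEquiv.symm_apply_apply]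

variable {V : Type u} [NormedAddCommGroup V] [NormedSpace ℝ V]

/-- the dual unit ball, as a type -/
abbrev DB (V : Type u) [NormedAddCommGroup V] [NormedSpace ℝ V] : Type u :=
  {b : V →L[ℝ] ℝ // ‖b‖ ≤ 1}

theorem db_le (b : DB V) (v : V) : |b.1 v| ≤ ‖v‖ := by
  have h := b.1.le_opNorm v
  have h2 := b.2
  calc |b.1 v| ≤ ‖b.1‖ * ‖v‖ := h
    _ ≤ 1 * ‖v‖ := by gcongr
    _ = ‖v‖ := one_mul _

/-- bounded functions on the dual ball -/
abbrev Wd (V : Type u) [NormedAddCommGroup V] [NormedSpace ℝ V] : Type u :=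
  lp (fun _ : DB V => ℝ) ⊤

/-- a bounded function as an element of `Wd V` -/
noncomputable def mkW (f : DB V → ℝ) (C : ℝ) (h : ∀ b, |f b| ≤ C) : Wd V :=
  ⟨f, memℓp_infty ⟨C, by rintro _ ⟨b, rfl⟩; exact h b⟩⟩

theorem mkW_apply (f : DB V → ℝ) (C : ℝ) (h : ∀ b, |f b| ≤ C) (b : DB V) :
    (mkW f C h : Wd V) b = f b := rfl

theorem norm_le_iff' (f : Wd V) (C : ℝ) (hC : 0 ≤ C) : ‖f‖ ≤ C ↔ ∀ b, |f b| ≤ C := by
  constructor
  · intro h b
    exact (lp.norm_apply_le_norm (by simp) f b).trans h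
  · intro h
    exact lp.norm_le_of_forall_le hC h

/-- evaluation embedding -/
noncomputable def J (V : Type u) [NormedAddCommGroup V] [NormedSpace ℝ V] : V →ₗᵢ[ℝ] Wd V where
  toFun v := mkW (fun b => b.1 v) ‖v‖ (fun b => db_le b v)
  map_add' v w := by
    apply lp.ext
    funext b
    change b.1 (v + w) = b.1 v + b.1 w
    simp
  map_smul' c v := by
    apply lp.ext
    funext b
    change b.1 (c • v) = c * b.1 v
    simp
  norm_map' v := by
    apply le_antisymm
    · exact (norm_le_iff' _ _ (norm_nonneg v)).2 (fun b => db_le b v)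
    · obtain ⟨g, hg, hgv⟩ := exists_dual_vector'' ℝ v
      have h := (norm_le_iff' (mkW (fun b : DB V => b.1 v) ‖v‖ (fun b => db_le b v)) _
        (norm_nonneg _)).1 le_rfl ⟨g, hg⟩
      have h2 : |g v| = ‖v‖ := by rw [hgv]; simp
      calc ‖v‖ = |g v| := h2.symm
        _ ≤ _ := h

theorem J_apply (v : V) (b : DB V) : (J V v) b = b.1 v := rfl

theorem ext2 (hV : StrongGurarii V) (X : Submodule ℝ V) [FiniteDimensional ℝ X] (y1 y2 : Wd V) :
    ∃ z1 z2 : V, ∀ x ∈ X, ∀ a b : ℝ, ‖x + a • z1 + b • z2‖ = ‖J V x + a • y1 + b • y2‖ := by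
  let T : Submodule ℝ (Wd V) := X.map (J V).toLinearMap ⊔ Submodule.span ℝ {y1, y2}
  haveI : FiniteDimensional ℝ (X.map (J V).toLinearMap) := inferInstance
  haveI : FiniteDimensional ℝ (Submodule.span ℝ ({y1, y2} : Set (Wd V))) :=
    FiniteDimensional.span_of_finite ℝ (by simp)
  haveI : FiniteDimensional ℝ T := Submodule.finiteDimensional_sup _ _
  have hJ : ∀ x : X, J V x ∈ T := fun x =>
    Submodule.mem_sup_left (Submodule.mem_map_of_mem x.2)
  have hy1 : y1 ∈ T := Submodule.mem_sup_right (Submodule.subset_span (by simp))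
  have hy2 : y2 ∈ T := Submodule.mem_sup_right (Submodule.subset_span (by simp))
  let j : X →ₗᵢ[ℝ] T :=
    { toFun := fun x => ⟨J V x, hJ x⟩
      map_add' := fun x y => by ext1; simp
      map_smul' := fun c x => by ext1; simp
      norm_map' := fun x => by
        change ‖J V (x : V)‖ = ‖x‖
        rw [LinearIsometry.norm_map]; rfl }
  obtain ⟨g, hg⟩ := hV.extend j X.subtypeₗᵢ
  refine ⟨g ⟨y1, hy1⟩, g ⟨y2, hy2⟩, fun x hx a b => ?_⟩
  have h1 : x = g (j ⟨x, hx⟩) := by rw [hg]; rfl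
  conv_lhs => rw [h1]
  rw [← map_smul, ← map_smul, ← map_add, ← map_add, LinearIsometry.norm_map]
  rfl

theorem ext1 (hV : StrongGurarii V) (X : Submodule ℝ V) [FiniteDimensional ℝ X] (y1 : Wd V) :
    ∃ z1 : V, ∀ x ∈ X, ∀ a : ℝ, ‖x + a • z1‖ = ‖J V x + a • y1‖ := by
  obtain ⟨z1, z2, h⟩ := ext2 hV X y1 0
  refine ⟨z1, fun x hx a => ?_⟩
  have := h x hx a 0
  simpa using this

/-- Intersection of balls whose centres lie in a finite dimensional subspace. -/
theorem balls (hV : StrongGurarii V) (X : Submodule ℝ V) [FiniteDimensional ℝ X] {ι : Type}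
    [Nonempty ι] (c : ι → V) (hc : ∀ k, c k ∈ X) (r : ι → ℝ)
    (h : ∀ k l, ‖c k - c l‖ ≤ r k + r l) : ∃ s : V, ∀ k, ‖c k - s‖ ≤ r k := by
  classical
  let k0 : ι := Classical.arbitrary ι
  have hr : ∀ k, 0 ≤ r k := fun k => by
    have := h k k
    simp at this
    linarith
  have hb : ∀ (b : DB V) (k l : ι), b.1 (c k) - r k ≤ b.1 (c l) + r l := by
    intro b k l
    have h1 := db_le b (c k - c l)
    have h2 := h k l
    rw [map_sub] at h1
    have := le_abs_self (b.1 (c k) - b.1 (c l))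
    linarith
  have hbdd : ∀ b : DB V, BddAbove (range fun k => b.1 (c k) - r k) := by
    intro b
    refine ⟨b.1 (c k0) + r k0, ?_⟩
    rintro _ ⟨k, rfl⟩
    exact hb b k k0
  let f : DB V → ℝ := fun b => ⨆ k, (b.1 (c k) - r k)
  have hf1 : ∀ b k, b.1 (c k) - r k ≤ f b := fun b k => le_ciSup (hbdd b) k
  have hf2 : ∀ b k, f b ≤ b.1 (c k) + r k := fun b k => ciSup_le (fun l => hb b l k)
  let y : Wd V := mkW f (‖c k0‖ + r k0) (by
    intro b
    have h1 := hf1 b k0
    have h2 := hf2 b k0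
    have h3 := db_le b (c k0)
    rw [abs_le] at h3 ⊢
    constructor <;> linarith [h3.1, h3.2])
  obtain ⟨s, hs⟩ := ext1 hV X y
  refine ⟨s, fun k => ?_⟩
  have h1 := hs (c k) (hc k) (-1)
  have h2 : c k + (-1 : ℝ) • s = c k - s := by simp [sub_eq_add_neg]
  rw [h2] at h1
  rw [h1]
  refine (norm_le_iff' _ _ (hr k)).2 (fun b => ?_)
  change |b.1 (c k) + (-1) * f b| ≤ r k
  rw [abs_le]
  constructor <;> linarith [hf1 b k, hf2 b k]

/-- peak vectors -/
theorem peak (hV : StrongGurarii V) (X : Submodule ℝ V) [FiniteDimensional ℝ X] (ψ : V →L[ℝ] ℝ)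
    (hψ : ‖ψ‖ ≤ 1) (hψ0 : ψ ≠ 0) :
    ∃ z : V, ‖z‖ = 1 ∧ ∀ v : V →L[ℝ] ℝ, ‖v‖ ≤ 1 → ∀ η : ℝ, 1 - η ≤ v z →
      ∀ x ∈ X, ‖x‖ ≤ 1 → |v x - ψ x| ≤ 2 * η := by
  classical
  have hne : ψ ≠ -ψ := by
    intro h
    apply hψ0
    ext x
    have := congrArg (fun t : V →L[ℝ] ℝ => t x) h
    simp only [ContinuousLinearMap.neg_apply] at this
    simp only [ContinuousLinearMap.zero_apply]
    linarith
  let f : DB V → ℝ := fun b => if b.1 = ψ then 1 else if b.1 = -ψ then -1 else 0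
  have hf : ∀ b, |f b| ≤ 1 := by
    intro b
    simp only [f]
    split_ifs <;> simp
  let y : Wd V := mkW f 1 hf
  obtain ⟨z, hz⟩ := ext1 hV X y
  have hz1 : ‖z‖ = 1 := by
    have h1 := hz 0 (zero_mem _) 1
    simp only [zero_add, one_smul, map_zero] at h1
    rw [h1]
    apply le_antisymm
    · exact (norm_le_iff' _ _ zero_le_one).2 hf
    · have := (norm_le_iff' y _ (norm_nonneg _)).1 le_rfl ⟨ψ, hψ⟩
      have h2 : y ⟨ψ, hψ⟩ = 1 := by
        change f ⟨ψ, hψ⟩ = 1
        simp [f]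
      rw [h2] at this
      simpa using this
  have key : ∀ x ∈ X, ‖x‖ ≤ 1 / 2 → ‖x + z‖ ≤ 1 + ψ x := by
    intro x hx hx2
    have h1 := hz x hx 1
    rw [one_smul, one_smul] at h1
    rw [h1]
    have h3 := db_le ⟨ψ, hψ⟩ x
    rw [abs_le] at h3
    simp only at h3
    refine (norm_le_iff' _ _ (by linarith [h3.1])).2 (fun b => ?_)
    change |b.1 x + f b| ≤ _
    simp only [f]
    have h2 := db_le b x
    split_ifs with h4 h5
    · rw [h4, abs_le]
      constructor <;> linarith [h3.1, h3.2]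
    · rw [h5, abs_le]
      simp only [ContinuousLinearMap.neg_apply]
      constructor <;> linarith [h3.1, h3.2]
    · rw [add_zero]
      linarith [h3.1]
  refine ⟨z, hz1, fun v hv η hη => ?_⟩
  have key2 : ∀ x ∈ X, ‖x‖ ≤ 1 / 2 → v x - ψ x ≤ η := by
    intro x hx hx2
    have h1 := key x hx hx2
    have h2 := db_le ⟨v, hv⟩ (x + z)
    simp only [map_add] at h2
    have h3 := le_abs_self (v x + v z)
    linarith
  intro x hx hx1
  have h2 := key2 ((1/2 : ℝ) • x) (X.smul_mem _ hx) (by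
    rw [norm_smul]; norm_num; linarith)
  have h3 := key2 ((-1/2 : ℝ) • x) (X.smul_mem _ hx) (by
    rw [norm_smul]; norm_num; linarith)
  simp only [map_smul, smul_eq_mul] at h2 h3
  rw [abs_le]
  constructor <;> linarith

end Pool.Agent.R587.SG
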