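import Pool.Agent.R587.SgA

set_option autoImplicit false

open Set Filter Topology Cardinal

universe u

namespace Pool.Agent.R587.SG

/-- The colouring of the shift graph. -/
theorem shift {α C : Type u} [LinearOrder α] (f : α → α → C) (h : (2 : Cardinal.{u}) ^ #C < #α) :
    ∃ i j k, i < j ∧ j < k ∧ f i j = f j k := by
  by_contra hcon
  push Not at hcon
  let g : α → Set C := fun j => {c | ∃ i < j, f i j = c}
  have hg : Function.Injective g := by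
    intro j k hjk
    by_contra hne
    rcases lt_or_gt_of_ne hne with h1 | h1
    · have : f j k ∈ g k := ⟨j, h1, rfl⟩
      rw [← hjk] at this
      obtain ⟨i, hi, h2⟩ := this
      exact hcon i j k hi h1 h2
    · have : f k j ∈ g j := ⟨k, h1, rfl⟩
      rw [hjk] at this
      obtain ⟨i, hi, h2⟩ := this
      exact hcon i k j hi h1 h2
  have := Cardinal.mk_le_of_injective hg
  rw [Cardinal.mk_set] at this
  exact absurd this (not_le.2 h)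

theorem card_colour (D : Type u) (κ : Cardinal.{u}) (hκ : ℵ₀ ≤ κ) (hD : #D ≤ κ) :
    #(Option (Option D) → ULift.{u} ℝ) ≤ 2 ^ κ := by
  have h1 : #(Option (Option D)) ≤ κ := by
    rw [Cardinal.mk_option, Cardinal.mk_option]
    have h2 : #D + 1 + 1 ≤ κ + 1 + 1 := by gcongr
    refine h2.trans ?_
    rw [Cardinal.add_one_eq hκ, Cardinal.add_one_eq hκ]
  have h3 : #(ULift.{u} ℝ) = 2 ^ ℵ₀ := by
    rw [Cardinal.mk_uLift, Cardinal.mk_real, Cardinal.lift_continuum, Cardinal.two_power_aleph0]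
  rw [← Cardinal.power_def, h3, ← Cardinal.power_mul]
  refine Cardinal.power_le_power_left two_ne_zero ?_
  calc ℵ₀ * #(Option (Option D)) ≤ ℵ₀ * κ := by gcongr
    _ = κ := Cardinal.aleph0_mul_eq hκ

variable {V : Type u} [NormedAddCommGroup V] [NormedSpace ℝ V]

theorem psi_exists (δ : ℝ) (hδ : 0 < δ) (hδ1 : δ ≤ 1 / 8) (x1 : V) (hB : ‖x1‖ = 1) (w w' : V) :
    ∃ ψ : V →L[ℝ] ℝ, ‖ψ‖ ≤ 1 ∧ 1 - 3 * δ ≤ ψ x1 ∧ ψ x1 ≤ 1 - δ ∧
      δ * ‖w - w'‖ ≤ |ψ w - ψ w'| := by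
  obtain ⟨φ, hφ, hφx⟩ := exists_dual_vector'' ℝ x1
  obtain ⟨θ, hθ, hθw⟩ := exists_dual_vector'' ℝ (w - w')
  have hφ1 : φ x1 = 1 := by rw [hφx, hB]; simp
  have hθ1 : θ (w - w') = ‖w - w'‖ := by rw [hθw]; simp
  have hx : |θ x1| ≤ 1 := by
    have := db_le ⟨θ, hθ⟩ x1
    rwa [hB] at this
  rw [abs_le] at hx
  have hw : 0 ≤ ‖w - w'‖ := norm_nonneg _
  have main : ∀ τ : ℝ, |τ| = 1 → ‖(1 - 2 * δ) • φ + (τ * δ) • θ‖ ≤ 1 := by
    intro τ hτ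
    calc ‖(1 - 2 * δ) • φ + (τ * δ) • θ‖ ≤ ‖(1 - 2 * δ) • φ‖ + ‖(τ * δ) • θ‖ := norm_add_le _ _
      _ = |1 - 2 * δ| * ‖φ‖ + |τ * δ| * ‖θ‖ := by
          rw [norm_smul, norm_smul, Real.norm_eq_abs, Real.norm_eq_abs]
      _ ≤ |1 - 2 * δ| * 1 + |τ * δ| * 1 := by gcongr
      _ = (1 - 2 * δ) + δ := by
          rw [abs_mul, hτ, abs_of_pos hδ, abs_of_pos (by linarith : (0:ℝ) < 1 - 2 * δ)]
          ring
      _ ≤ 1 := by linarith
  rcases le_total 0 (φ (w - w')) with h | h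
  · refine ⟨(1 - 2 * δ) • φ + ((1 : ℝ) * δ) • θ, main 1 (by simp), ?_, ?_, ?_⟩
    · simp only [ContinuousLinearMap.add_apply, ContinuousLinearMap.smul_apply, smul_eq_mul, hφ1]
      nlinarith [hx.1, hx.2]
    · simp only [ContinuousLinearMap.add_apply, ContinuousLinearMap.smul_apply, smul_eq_mul, hφ1]
      nlinarith [hx.1, hx.2]
    · rw [← map_sub]
      simp only [ContinuousLinearMap.add_apply, ContinuousLinearMap.smul_apply, smul_eq_mul, hθ1]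
      refine le_trans ?_ (le_abs_self _)
      nlinarith
  · refine ⟨(1 - 2 * δ) • φ + ((-1 : ℝ) * δ) • θ, main (-1) (by simp), ?_, ?_, ?_⟩
    · simp only [ContinuousLinearMap.add_apply, ContinuousLinearMap.smul_apply, smul_eq_mul, hφ1]
      nlinarith [hx.1, hx.2]
    · simp only [ContinuousLinearMap.add_apply, ContinuousLinearMap.smul_apply, smul_eq_mul, hφ1]
      nlinarith [hx.1, hx.2]
    · rw [← map_sub]
      simp only [ContinuousLinearMap.add_apply, ContinuousLinearMap.smul_apply, smul_eq_mul, hθ1]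
      refine le_trans ?_ (neg_le_abs _)
      nlinarith

/-- The data used at one step of the construction. -/
structure Peaks (D : Set V) (x1 : V) (δ η : ℝ) where
  z : V
  z' : V
  u : V →L[ℝ] ℝ
  u' : V →L[ℝ] ℝ
  nz : ‖z‖ = 1
  nz' : ‖z'‖ = 1
  nu : ‖u‖ ≤ 1
  nu' : ‖u'‖ ≤ 1
  uz : u z = 1
  uz' : u' z' = 1
  agree : ∀ e ∈ D, u e = u' e
  near : ∀ v : V →L[ℝ] ℝ, ‖v‖ ≤ 1 → 1 - η ≤ v z → 1 - 4 * δ ≤ v x1 ∧ v x1 ≤ 1 - δ / 2
  near' : ∀ v : V →L[ℝ] ℝ, ‖v‖ ≤ 1 → 1 - η ≤ v z' → 1 - 4 * δ ≤ v x1 ∧ v x1 ≤ 1 - δ / 2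
  disj : ∀ v : V →L[ℝ] ℝ, ‖v‖ ≤ 1 → 1 - η ≤ v z → 1 - η ≤ v z' → False

theorem peaks_exist (hV : StrongGurarii V) (D S : Set V) (κ : Cardinal.{u}) (hκ : ℵ₀ ≤ κ)
    (hD : #D ≤ κ) (hS : (2 : Cardinal.{u}) ^ ((2 : Cardinal.{u}) ^ κ) < #S) (σ : ℝ) (hσ : 0 < σ)
    (hσ1 : σ ≤ 1) (hS1 : ∀ w ∈ S, ‖w‖ ≤ 1) (hS2 : ∀ w ∈ S, ∀ w' ∈ S, w ≠ w' → σ ≤ ‖w - w'‖)
    (δ : ℝ) (hδ : 0 < δ) (hδ1 : δ ≤ 1 / 8) (x1 : V) (hB : ‖x1‖ = 1) :
    Nonempty (Peaks D x1 δ (δ * σ / 8)) := by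
  classical
  set η := δ * σ / 8 with hη
  have hη0 : 0 < η := by positivity
  have hη1 : η ≤ δ / 8 := by
    rw [hη]; nlinarith
  have h1 : ∀ w w' : S, ∃ ψ : V →L[ℝ] ℝ, ‖ψ‖ ≤ 1 ∧ 1 - 3 * δ ≤ ψ x1 ∧ ψ x1 ≤ 1 - δ ∧
      δ * ‖(w : V) - w'‖ ≤ |ψ w - ψ w'| := fun w w' => psi_exists δ hδ hδ1 x1 hB w w'
  choose ψ hψn hψ1 hψ2 hψ3 using h1
  have hψ0 : ∀ w w', ψ w w' ≠ 0 := by
    intro w w' h
    have := hψ1 w w'
    rw [h] at this
    simp at this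
    linarith
  have h2 : ∀ w w' : S, ∃ z : V, ‖z‖ = 1 ∧ ∀ v : V →L[ℝ] ℝ, ‖v‖ ≤ 1 → ∀ η : ℝ, 1 - η ≤ v z →
      ∀ x ∈ Submodule.span ℝ ({x1, (w : V), (w' : V)} : Set V), ‖x‖ ≤ 1 →
        |v x - ψ w w' x| ≤ 2 * η := by
    intro w w'
    haveI : FiniteDimensional ℝ (Submodule.span ℝ ({x1, (w : V), (w' : V)} : Set V)) :=
      FiniteDimensional.span_of_finite ℝ (by simp)
    exact peak hV _ (ψ w w') (hψn w w') (hψ0 w w')
  choose z hz1 hz2 using h2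
  have h3 : ∀ w w' : S, ∃ u : V →L[ℝ] ℝ, ‖u‖ ≤ 1 ∧ u (z w w') = 1 := by
    intro w w'
    obtain ⟨g, hg1, hg2⟩ := exists_dual_vector'' ℝ (z w w')
    exact ⟨g, hg1, by rw [hg2, hz1]; simp⟩
  choose u hu1 hu2 using h3
  let f : S → S → (Option (Option D) → ULift.{u} ℝ) := fun w w' o =>
    match o with
    | none => ⟨ψ w w' w⟩
    | some none => ⟨ψ w w' w'⟩
    | some (some d) => ⟨u w w' d⟩
  letI : LinearOrder S := linearOrderOfSTO (WellOrderingRel : S → S → Prop)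
  obtain ⟨i, j, k, hij, hjk, hf⟩ := shift f (by
    refine lt_of_le_of_lt ?_ hS
    exact Cardinal.power_le_power_left two_ne_zero (card_colour D κ hκ hD))
  have e1 : ψ i j i = ψ j k j := by
    have := congrFun hf none
    exact congrArg ULift.down this
  have e3 : ∀ d : D, u i j d = u j k d := by
    intro d
    have := congrFun hf (some (some d))
    exact congrArg ULift.down this
  have hx1 : ∀ w w' : S, x1 ∈ Submodule.span ℝ ({x1, (w : V), (w' : V)} : Set V) := fun w w' =>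
    Submodule.subset_span (by simp)
  have near : ∀ w w' : S, ∀ v : V →L[ℝ] ℝ, ‖v‖ ≤ 1 → 1 - η ≤ v (z w w') →
      1 - 4 * δ ≤ v x1 ∧ v x1 ≤ 1 - δ / 2 := by
    intro w w' v hv hvz
    have h4 := hz2 w w' v hv η hvz x1 (hx1 w w') hB.le
    rw [abs_le] at h4
    have h5 := hψ1 w w'
    have h6 := hψ2 w w'
    constructor <;> linarith [h4.1, h4.2]
  refine ⟨⟨z i j, z j k, u i j, u j k, hz1 _ _, hz1 _ _, hu1 _ _, hu1 _ _, hu2 _ _, hu2 _ _,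
    fun e he => e3 ⟨e, he⟩, near i j, near j k, ?_⟩⟩
  intro v hv hv1 hv2
  have hj1 : (j : V) ∈ Submodule.span ℝ ({x1, (i : V), (j : V)} : Set V) :=
    Submodule.subset_span (by simp)
  have hj2 : (j : V) ∈ Submodule.span ℝ ({x1, (j : V), (k : V)} : Set V) :=
    Submodule.subset_span (by simp)
  have h4 := hz2 i j v hv η hv1 j hj1 (hS1 j j.2)
  have h5 := hz2 j k v hv η hv2 j hj2 (hS1 j j.2)
  have h6 := hψ3 i j
  have hne : (i : V) ≠ j := fun h => (ne_of_lt hij) (Subtype.ext h)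
  have h7 := hS2 i i.2 j j.2 hne
  have h8 : δ * σ ≤ |ψ i j i - ψ i j j| := le_trans (by gcongr) h6
  rw [← e1] at h5
  have h9 : |ψ i j i - ψ i j j| ≤ 4 * η := by
    rw [abs_le] at h4 h5 ⊢
    constructor <;> linarith [h4.1, h4.2, h5.1, h5.2]
  have h10 : 4 * η = δ * σ / 2 := by rw [hη]; ring
  have : 0 < δ * σ := by positivity
  linarith

end Pool.Agent.R587.SG
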