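import Pool.Agent.R587.SgB

set_option autoImplicit false

open Set Filter Topology Cardinal

universe u

namespace Pool.Agent.R587.SG

variable {V : Type u} [NormedAddCommGroup V] [NormedSpace ℝ V]

theorem cs_abs (a b p q : ℝ) (h : p ^ 2 + q ^ 2 ≤ 1) : |a * p + b * q| ≤ √(a ^ 2 + b ^ 2) := by
  apply Real.abs_le_sqrt
  nlinarith [sq_nonneg (a * q - b * p), sq_nonneg a, sq_nonneg b,
    mul_le_mul_of_nonneg_left h (add_nonneg (sq_nonneg a) (sq_nonneg b))]

theorem disc_of (x1 x2 : V) (hA : ∀ a b : ℝ, ‖a • x1 + b • x2‖ ≤ √(a ^ 2 + b ^ 2)) (v : V →L[ℝ] ℝ)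
    (hv : ‖v‖ ≤ 1) : v x1 ^ 2 + v x2 ^ 2 ≤ 1 := by
  have h1 := hA (v x1) (v x2)
  have h2 := db_le ⟨v, hv⟩ ((v x1) • x1 + (v x2) • x2)
  simp only [map_add, map_smul, smul_eq_mul] at h2
  set t : ℝ := v x1 ^ 2 + v x2 ^ 2 with ht
  have ht0 : 0 ≤ t := by positivity
  have h3 : t ≤ √t := by
    have : v x1 * v x1 + v x2 * v x2 = t := by rw [ht]; ring
    rw [this, abs_of_nonneg ht0] at h2
    exact h2.trans h1
  have h4 : t ^ 2 ≤ t := (Real.le_sqrt ht0 ht0).1 h3
  nlinarith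

theorem g1 (t η M : ℝ) (hM : M * η = 2) (hM3 : 3 ≤ M) (h : 1 - η < t) (ht : t ≤ 1) :
    |M * t - 1| ≤ M - 1 := by
  rw [abs_le]
  constructor <;> nlinarith

theorem g2 (t η M : ℝ) (hM : M * η = 2) (hM3 : 3 ≤ M) (h : 1 - η < -t) (ht : -t ≤ 1) :
    |M * t + 1| ≤ M - 1 := by
  rw [abs_le]
  constructor <;> nlinarith

theorem g3 (t η M q : ℝ) (hM : M * η = 2) (hM3 : 3 ≤ M) (h : |t| ≤ 1 - η) (hq : |q| ≤ 1) :
    |M * t - q| ≤ M - 1 := by
  rw [abs_le] at *
  constructor <;> nlinarith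

theorem newpt (hV : StrongGurarii V) (D : Set V) (δ η ε c s : ℝ) (x1 x2 : V)
    (P : Peaks D x1 δ η) (hη : 0 < η) (hη1 : η ≤ 1 / 8) (hδ : 0 < δ) (hδ1 : δ = ε ^ 2 / 32)
    (hε : 0 < ε) (hε1 : ε ≤ 1) (hcs : c ^ 2 + s ^ 2 = 1) (hs0 : 0 ≤ s) (hs : s ≤ ε / 2)
    (hc : 1 - c ≤ ε) (hc1 : c ≤ 1)
    (hA : ∀ a b : ℝ, ‖a • x1 + b • x2‖ ≤ √(a ^ 2 + b ^ 2)) (hB : ‖x1‖ = 1) :
    ∃ z1 z2 : V, (∀ a b : ℝ, ‖a • z1 + b • z2‖ ≤ √(a ^ 2 + b ^ 2)) ∧ ‖z1‖ = 1 ∧
      ‖x1 - z1‖ ≤ ε ∧ ‖x2 - z2‖ ≤ ε ∧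
      ∀ N : ℝ, 0 ≤ N → ∀ e ∈ D, 2 * N ≤ ‖N • (c • z1 + s • z2) - e‖ +
        ‖N • (c • z1 - s • z2) + e‖ := by
  classical
  obtain ⟨ζ, ζ', u, u', nz, nz', nu, nu', uz, uz', agree, near, near', disj⟩ := P
  have hδ8 : δ ≤ 1 / 8 := by rw [hδ1]; nlinarith
  have negle : ∀ b : DB V, ‖-b.1‖ ≤ 1 := fun b => by rw [norm_neg]; exact b.2
  -- the new functions
  let y : DB V → ℝ × ℝ := fun b =>
    if 1 - η < b.1 ζ then (c, s) else if 1 - η < -b.1 ζ then (-c, -s) else
    if 1 - η < b.1 ζ' then (c, -s) else if 1 - η < -b.1 ζ' then (-c, s) else (b.1 x1, b.1 x2)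
  have hy : ∀ b, y b = if 1 - η < b.1 ζ then (c, s) else if 1 - η < -b.1 ζ then (-c, -s) else
    if 1 - η < b.1 ζ' then (c, -s) else if 1 - η < -b.1 ζ' then (-c, s) else
      (b.1 x1, b.1 x2) := fun b => rfl
  have F1 : ∀ b, (y b).1 ^ 2 + (y b).2 ^ 2 ≤ 1 := by
    intro b
    rw [hy]
    split_ifs
    · simp only; linarith
    · simp only; linarith [hcs, neg_sq c, neg_sq s]
    · simp only; linarith [hcs, neg_sq c, neg_sq s]
    · simp only; linarith [hcs, neg_sq c, neg_sq s]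
    · exact disc_of x1 x2 hA b.1 b.2
  have x2small : ∀ v : V →L[ℝ] ℝ, ‖v‖ ≤ 1 → 1 - 4 * δ ≤ v x1 → |v x2| ≤ ε / 2 := by
    intro v hv h
    have h1 := disc_of x1 x2 hA v hv
    apply abs_le_of_sq_le_sq _ (by linarith)
    have h2 : (1 - 4 * δ) ^ 2 ≤ v x1 ^ 2 := by
      apply pow_le_pow_left₀ _ h
      linarith
    nlinarith
  have x1le : ∀ v : V →L[ℝ] ℝ, ‖v‖ ≤ 1 → v x1 ≤ 1 := by
    intro v hv
    have := db_le ⟨v, hv⟩ x1
    rw [hB] at this
    exact (le_abs_self _).trans this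
  have h4δ : 4 * δ ≤ ε := by rw [hδ1]; nlinarith
  have F2 : ∀ b, |b.1 x1 - (y b).1| ≤ ε ∧ |b.1 x2 - (y b).2| ≤ ε := by
    intro b
    rw [hy]
    split_ifs with k1 k2 k3 k4
    · have h1 := near b.1 b.2 k1.le
      have h2 := x2small b.1 b.2 h1.1
      have h3 := x1le b.1 b.2
      rw [abs_le] at h2
      simp only
      rw [abs_le, abs_le]
      refine ⟨⟨?_, ?_⟩, ?_, ?_⟩ <;> linarith [h1.1, h2.1, h2.2]
    · have h1 := near (-b.1) (negle b) k2.le
      have h2 := x2small (-b.1) (negle b) h1.1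
      have h3 := x1le (-b.1) (negle b)
      simp only [ContinuousLinearMap.neg_apply, abs_neg] at h1 h2 h3
      rw [abs_le] at h2
      simp only
      rw [abs_le, abs_le]
      refine ⟨⟨?_, ?_⟩, ?_, ?_⟩ <;> linarith [h1.1, h2.1, h2.2]
    · have h1 := near' b.1 b.2 k3.le
      have h2 := x2small b.1 b.2 h1.1
      have h3 := x1le b.1 b.2
      rw [abs_le] at h2
      simp only
      rw [abs_le, abs_le]
      refine ⟨⟨?_, ?_⟩, ?_, ?_⟩ <;> linarith [h1.1, h2.1, h2.2]
    · have h1 := near' (-b.1) (negle b) k4.le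
      have h2 := x2small (-b.1) (negle b) h1.1
      have h3 := x1le (-b.1) (negle b)
      simp only [ContinuousLinearMap.neg_apply, abs_neg] at h1 h2 h3
      rw [abs_le] at h2
      simp only
      rw [abs_le, abs_le]
      refine ⟨⟨?_, ?_⟩, ?_, ?_⟩ <;> linarith [h1.1, h2.1, h2.2]
    · simp only [sub_self, abs_zero]
      exact ⟨hε.le, hε.le⟩
  -- the constant
  set M : ℝ := 2 / η with hMdef
  have hM : M * η = 2 := by rw [hMdef]; field_simp
  have hM3 : 3 ≤ M := by
    rw [hMdef, le_div_iff₀ hη]; linarith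
  have ζle : ∀ b : DB V, b.1 ζ ≤ 1 ∧ -b.1 ζ ≤ 1 := by
    intro b
    have := db_le b ζ
    rw [nz, abs_le] at this
    constructor <;> linarith [this.1, this.2]
  have ζle' : ∀ b : DB V, b.1 ζ' ≤ 1 ∧ -b.1 ζ' ≤ 1 := by
    intro b
    have := db_le b ζ'
    rw [nz', abs_le] at this
    constructor <;> linarith [this.1, this.2]
  have cs1 : ∀ b, |c * (y b).1 + s * (y b).2| ≤ 1 := by
    intro b
    have := cs_abs c s _ _ (F1 b)
    rwa [hcs, Real.sqrt_one] at this
  have cs2 : ∀ b, |c * (y b).1 - s * (y b).2| ≤ 1 := by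
    intro b
    have := cs_abs c (-s) _ _ (F1 b)
    rw [neg_sq, hcs, Real.sqrt_one] at this
    have h2 : c * (y b).1 - s * (y b).2 = c * (y b).1 + (-s) * (y b).2 := by ring
    rw [h2]
    exact this
  have F3 : ∀ b, |M * b.1 ζ - (c * (y b).1 + s * (y b).2)| ≤ M - 1 := by
    intro b
    by_cases k1 : 1 - η < b.1 ζ
    · have : y b = (c, s) := by rw [hy, if_pos k1]
      rw [this]
      simp only
      have h2 : c * c + s * s = 1 := by linarith [hcs, sq c, sq s]
      rw [h2]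
      exact g1 _ η M hM hM3 k1 (ζle b).1
    by_cases k2 : 1 - η < -b.1 ζ
    · have : y b = (-c, -s) := by rw [hy, if_neg k1, if_pos k2]
      rw [this]
      simp only
      have h2 : c * -c + s * -s = -1 := by linarith [hcs, sq c, sq s]
      rw [h2, sub_neg_eq_add]
      exact g2 _ η M hM hM3 k2 (ζle b).2
    · refine g3 _ η M _ hM hM3 ?_ (cs1 b)
      rw [abs_le]
      push Not at k1 k2
      constructor <;> linarith
  have F4 : ∀ b, |M * b.1 ζ' - (c * (y b).1 - s * (y b).2)| ≤ M - 1 := by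
    intro b
    by_cases k3 : 1 - η < b.1 ζ'
    · have k1 : ¬ 1 - η < b.1 ζ := fun k1 => disj b.1 b.2 k1.le k3.le
      have k2 : ¬ 1 - η < -b.1 ζ := by
        intro k2
        have h1 := near (-b.1) (negle b) k2.le
        have h2 := near' b.1 b.2 k3.le
        simp only [ContinuousLinearMap.neg_apply] at h1
        linarith [h1.1, h2.1]
      have : y b = (c, -s) := by rw [hy, if_neg k1, if_neg k2, if_pos k3]
      rw [this]
      simp only
      have h2 : c * c - s * -s = 1 := by linarith [hcs, sq c, sq s]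
      rw [h2]
      exact g1 _ η M hM hM3 k3 (ζle' b).1
    by_cases k4 : 1 - η < -b.1 ζ'
    · have k1 : ¬ 1 - η < b.1 ζ := by
        intro k1
        have h1 := near b.1 b.2 k1.le
        have h2 := near' (-b.1) (negle b) k4.le
        simp only [ContinuousLinearMap.neg_apply] at h2
        linarith [h1.1, h2.1]
      have k2 : ¬ 1 - η < -b.1 ζ := fun k2 => disj (-b.1) (negle b) k2.le k4.le
      have : y b = (-c, s) := by rw [hy, if_neg k1, if_neg k2, if_neg k3, if_pos k4]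
      rw [this]
      simp only
      have h2 : c * -c - s * s = -1 := by linarith [hcs, sq c, sq s]
      rw [h2, sub_neg_eq_add]
      exact g2 _ η M hM hM3 k4 (ζle' b).2
    · refine g3 _ η M _ hM hM3 ?_ (cs2 b)
      rw [abs_le]
      push Not at k3 k4
      constructor <;> linarith
  -- the norming functional of `x1`
  obtain ⟨φ, hφ, hφx⟩ := exists_dual_vector'' ℝ x1
  have hφ1 : φ x1 = 1 := by rw [hφx, hB]; simp
  have F5 : (y ⟨φ, hφ⟩).1 = 1 := by
    have n1 : ¬ 1 - η < φ ζ := fun k => by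
      have := near φ hφ k.le
      linarith [this.2]
    have n2 : ¬ 1 - η < -φ ζ := fun k => by
      have := near (-φ) (by rwa [norm_neg]) k.le
      simp only [ContinuousLinearMap.neg_apply] at this
      linarith [this.1]
    have n3 : ¬ 1 - η < φ ζ' := fun k => by
      have := near' φ hφ k.le
      linarith [this.2]
    have n4 : ¬ 1 - η < -φ ζ' := fun k => by
      have := near' (-φ) (by rwa [norm_neg]) k.le
      simp only [ContinuousLinearMap.neg_apply] at this
      linarith [this.1]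
    rw [hy]
    simp only [if_neg n1, if_neg n2, if_neg n3, if_neg n4]
    exact hφ1
  -- bounded functions
  have b1 : ∀ b, |(y b).1| ≤ 1 := by
    intro b
    apply abs_le_of_sq_le_sq _ zero_le_one
    nlinarith [F1 b, sq_nonneg (y b).2]
  have b2 : ∀ b, |(y b).2| ≤ 1 := by
    intro b
    apply abs_le_of_sq_le_sq _ zero_le_one
    nlinarith [F1 b, sq_nonneg (y b).1]
  let y1 : Wd V := mkW (fun b => (y b).1) 1 b1
  let y2 : Wd V := mkW (fun b => (y b).2) 1 b2
  haveI : FiniteDimensional ℝ (Submodule.span ℝ ({x1, x2, ζ, ζ'} : Set V)) :=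
    FiniteDimensional.span_of_finite ℝ (by simp)
  obtain ⟨z1, z2, hz⟩ := ext2 hV (Submodule.span ℝ ({x1, x2, ζ, ζ'} : Set V)) y1 y2
  have mx1 : x1 ∈ Submodule.span ℝ ({x1, x2, ζ, ζ'} : Set V) := Submodule.subset_span (by simp)
  have mx2 : x2 ∈ Submodule.span ℝ ({x1, x2, ζ, ζ'} : Set V) := Submodule.subset_span (by simp)
  have mz : ζ ∈ Submodule.span ℝ ({x1, x2, ζ, ζ'} : Set V) := Submodule.subset_span (by simp)
  have mz' : ζ' ∈ Submodule.span ℝ ({x1, x2, ζ, ζ'} : Set V) := Submodule.subset_span (by simp)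
  have upper : ∀ x ∈ Submodule.span ℝ ({x1, x2, ζ, ζ'} : Set V), ∀ a b C : ℝ, 0 ≤ C →
      (∀ f : DB V, |f.1 x + a * (y f).1 + b * (y f).2| ≤ C) → ‖x + a • z1 + b • z2‖ ≤ C := by
    intro x hx a b C hC h
    rw [hz x hx a b]
    exact (norm_le_iff' _ _ hC).2 h
  have A' : ∀ a b : ℝ, ‖a • z1 + b • z2‖ ≤ √(a ^ 2 + b ^ 2) := by
    intro a b
    have := upper 0 (zero_mem _) a b _ (Real.sqrt_nonneg (a ^ 2 + b ^ 2)) (by
      intro f
      rw [map_zero, zero_add]
      exact cs_abs a b _ _ (F1 f))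
    simpa using this
  have B' : ‖z1‖ = 1 := by
    apply le_antisymm
    · have := A' 1 0
      simpa using this
    · have h1 := hz 0 (zero_mem _) 1 0
      simp only [zero_add, one_smul, zero_smul, add_zero, map_zero] at h1
      rw [h1]
      have h2 := (norm_le_iff' y1 _ (norm_nonneg _)).1 le_rfl ⟨φ, hφ⟩
      have h3 : y1 ⟨φ, hφ⟩ = 1 := F5
      rw [h3] at h2
      simpa using h2
  refine ⟨z1, z2, A', B', ?_, ?_, ?_⟩
  · have := upper x1 mx1 (-1) 0 ε hε.le (by
      intro f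
      have := (F2 f).1
      have h2 : f.1 x1 + -1 * (y f).1 + 0 * (y f).2 = f.1 x1 - (y f).1 := by ring
      rw [h2]
      exact this)
    simpa [sub_eq_add_neg] using this
  · have := upper x2 mx2 0 (-1) ε hε.le (by
      intro f
      have := (F2 f).2
      have h2 : f.1 x2 + 0 * (y f).1 + -1 * (y f).2 = f.1 x2 - (y f).2 := by ring
      rw [h2]
      exact this)
    simpa [sub_eq_add_neg] using this
  · have hu : 1 ≤ u (c • z1 + s • z2) := by
      have h1 := upper (M • ζ) (Submodule.smul_mem _ _ mz) (-c) (-s) (M - 1) (by linarith) (by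
        intro f
        have := F3 f
        have h2 : f.1 (M • ζ) + -c * (y f).1 + -s * (y f).2 =
            M * f.1 ζ - (c * (y f).1 + s * (y f).2) := by
          rw [map_smul, smul_eq_mul]; ring
        rw [h2]
        exact this)
      have h2 := db_le ⟨u, nu⟩ (M • ζ + (-c) • z1 + (-s) • z2)
      have h3 := (le_abs_self _).trans (h2.trans h1)
      simp only [map_add, map_smul, smul_eq_mul, uz] at h3 ⊢
      linarith
    have hu' : 1 ≤ u' (c • z1 - s • z2) := by
      have h1 := upper (M • ζ') (Submodule.smul_mem _ _ mz') (-c) s (M - 1) (by linarith) (by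
        intro f
        have := F4 f
        have h2 : f.1 (M • ζ') + -c * (y f).1 + s * (y f).2 =
            M * f.1 ζ' - (c * (y f).1 - s * (y f).2) := by
          rw [map_smul, smul_eq_mul]; ring
        rw [h2]
        exact this)
      have h2 := db_le ⟨u', nu'⟩ (M • ζ' + (-c) • z1 + s • z2)
      have h3 := (le_abs_self _).trans (h2.trans h1)
      simp only [map_add, map_sub, map_smul, smul_eq_mul, uz'] at h3 ⊢
      linarith
    intro N hN e he
    have h1 := (le_abs_self _).trans (db_le ⟨u, nu⟩ (N • (c • z1 + s • z2) - e))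
    have h2 := (le_abs_self _).trans (db_le ⟨u', nu'⟩ (N • (c • z1 - s • z2) + e))
    have h3 := agree e he
    have h4 : u (N • (c • z1 + s • z2) - e) = N * u (c • z1 + s • z2) - u e := by
      rw [map_sub, map_smul, smul_eq_mul]
    have h5 : u' (N • (c • z1 - s • z2) + e) = N * u' (c • z1 - s • z2) + u' e := by
      rw [map_add, map_smul, smul_eq_mul]
    simp only at h1 h2
    rw [h4] at h1
    rw [h5] at h2
    nlinarith

end Pool.Agent.R587.SG
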