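import Pool.Agent.R587.SgC

set_option autoImplicit false

open Set Filter Topology Cardinal

universe u

namespace Pool.Agent.R587.SG

variable {V : Type u} [NormedAddCommGroup V] [NormedSpace ℝ V]

/-- The one step property of a set `D`. -/
def Step (D : Set V) : Prop :=
  ∀ ε c s : ℝ, 0 < ε → ε ≤ 1 → c ^ 2 + s ^ 2 = 1 → 0 ≤ s → s ≤ ε / 2 → 1 - c ≤ ε → c ≤ 1 →
    ∀ x1 x2 : V, (∀ a b : ℝ, ‖a • x1 + b • x2‖ ≤ √(a ^ 2 + b ^ 2)) → ‖x1‖ = 1 →
    ∃ z1 z2 : V, (∀ a b : ℝ, ‖a • z1 + b • z2‖ ≤ √(a ^ 2 + b ^ 2)) ∧ ‖z1‖ = 1 ∧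
      ‖x1 - z1‖ ≤ ε ∧ ‖x2 - z2‖ ≤ ε ∧
      ∀ N : ℝ, 0 ≤ N → ∀ e ∈ D, 2 * N ≤ ‖N • (c • z1 + s • z2) - e‖ +
        ‖N • (c • z1 - s • z2) + e‖

theorem step_of_sep (hV : StrongGurarii V) (D S : Set V) (κ : Cardinal.{u}) (hκ : ℵ₀ ≤ κ)
    (hD : #D ≤ κ) (hS : (2 : Cardinal.{u}) ^ ((2 : Cardinal.{u}) ^ κ) < #S) (σ : ℝ) (hσ : 0 < σ)
    (hσ1 : σ ≤ 1) (hS1 : ∀ w ∈ S, ‖w‖ ≤ 1)
    (hS2 : ∀ w ∈ S, ∀ w' ∈ S, w ≠ w' → σ ≤ ‖w - w'‖) : Step D := by
  intro ε c s hε hε1 hcs hs0 hs hc hc1 x1 x2 hA hB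
  have hδ : 0 < ε ^ 2 / 32 := by positivity
  have hδ1 : ε ^ 2 / 32 ≤ 1 / 8 := by nlinarith
  obtain ⟨P⟩ := peaks_exist hV D S κ hκ hD hS σ hσ hσ1 hS1 hS2 (ε ^ 2 / 32) hδ hδ1 x1 hB
  refine newpt hV D (ε ^ 2 / 32) _ ε c s x1 x2 P (by positivity) ?_ hδ rfl hε hε1 hcs hs0 hs hc
    hc1 hA hB
  have : ε ^ 2 / 32 * σ ≤ ε ^ 2 / 32 * 1 := by gcongr
  linarith

/-- the small numbers -/
noncomputable def ee : ℕ → ℝ
  | 0 => 1 / 2
  | n + 1 => ee n ^ 2 / 256

theorem ee_pos (n : ℕ) : 0 < ee n := by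
  induction n with
  | zero => simp [ee]
  | succ n ih => simp only [ee]; positivity

theorem ee_le (n : ℕ) : ee n ≤ 1 / 2 := by
  induction n with
  | zero => simp [ee]
  | succ n ih =>
    simp only [ee]
    have := ee_pos n
    nlinarith

theorem ee_half (n : ℕ) : ee (n + 1) ≤ ee n / 2 := by
  simp only [ee]
  have h1 := ee_pos n
  have h2 := ee_le n
  nlinarith

theorem ee_add (n k : ℕ) : ee (n + k) ≤ ee n / 2 ^ k := by
  induction k with
  | zero => simp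
  | succ k ih =>
    have h1 := ee_half (n + k)
    rw [← add_assoc, pow_succ]
    calc ee (n + k + 1) ≤ ee (n + k) / 2 := h1
      _ ≤ (ee n / 2 ^ k) / 2 := by gcongr
      _ = ee n / (2 ^ k * 2) := by rw [div_div]

theorem limit_exists [CompleteSpace V] (f : ℕ → V) (hf : ∀ n, ‖f n - f (n + 1)‖ ≤ ee n) :
    ∃ x : V, Tendsto f atTop (𝓝 x) ∧ ∀ n, ‖f n - x‖ ≤ 2 * ee n := by
  have h0 : ∀ n k, dist (f (n + k)) (f (n + k + 1)) ≤ 2 * ee n / 2 / 2 ^ k := by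
    intro n k
    rw [dist_eq_norm]
    refine (hf (n + k)).trans ((ee_add n k).trans ?_)
    rw [mul_div_cancel_left₀ _ (two_ne_zero)]
  have hc : CauchySeq f := by
    apply cauchySeq_of_le_geometric_two (C := 2 * ee 0)
    intro n
    have := h0 0 n
    simpa using this
  obtain ⟨x, hx⟩ := cauchySeq_tendsto_of_complete hc
  refine ⟨x, hx, fun n => ?_⟩
  have h1 : Tendsto (fun k => f (n + k)) atTop (𝓝 x) := by
    have := (tendsto_add_atTop_iff_nat n).2 hx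
    simpa [add_comm] using this
  have h2 := dist_le_of_le_geometric_two_of_tendsto₀ (C := 2 * ee n) (f := fun k => f (n + k))
    (fun k => by
      have := h0 n k
      simpa [add_assoc] using this) h1
  rw [← dist_eq_norm]
  simpa using h2

noncomputable def sn (n : ℕ) : ℝ := ee n / 2
noncomputable def cn (n : ℕ) : ℝ := √(1 - sn n ^ 2)
noncomputable def Nn (n : ℕ) : ℝ := 32 / ee n ^ 2

theorem sn_pos (n : ℕ) : 0 < sn n := by have := ee_pos n; unfold sn; positivity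
theorem sn_le (n : ℕ) : sn n ≤ 1 / 4 := by have := ee_le n; unfold sn; linarith

theorem cn_sq (n : ℕ) : cn n ^ 2 = 1 - sn n ^ 2 := by
  unfold cn
  have h1 := sn_pos n
  have h2 := sn_le n
  rw [Real.sq_sqrt (by nlinarith)]

theorem cn_nonneg (n : ℕ) : 0 ≤ cn n := Real.sqrt_nonneg _

theorem cn_le (n : ℕ) : cn n ≤ 1 := by
  have h1 := cn_sq n
  have h2 := sn_pos n
  have h3 := cn_nonneg n
  nlinarith

theorem cn_ge (n : ℕ) : 1 - cn n ≤ ee n := by
  have h1 := cn_sq n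
  have h2 := sn_pos n
  have h3 := cn_nonneg n
  have h4 := sn_le n
  have h5 : sn n = ee n / 2 := rfl
  have h6 : 1 - cn n ≤ sn n ^ 2 := by nlinarith [cn_le n]
  have h7 := ee_pos n
  have h8 := ee_le n
  nlinarith

theorem Nn_ge (n : ℕ) : 128 ≤ Nn n := by
  unfold Nn
  have h1 := ee_pos n
  have h2 := ee_le n
  rw [le_div_iff₀ (by positivity)]
  nlinarith

theorem Nn_sn (n : ℕ) : Nn n * sn n ^ 2 = 8 := by
  unfold Nn sn
  have h1 := (ee_pos n).ne'
  field_simp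
  norm_num

theorem Nn_ee (n : ℕ) : Nn n * ee (n + 1) = 1 / 8 := by
  unfold Nn
  simp only [ee]
  have h1 := (ee_pos n).ne'
  field_simp
  norm_num

theorem pairA (k l : ℕ) : (Nn k * cn k - Nn l * cn l) ^ 2 + (Nn k * sn k - Nn l * sn l) ^ 2 ≤
    (Nn k + Nn l - 2) ^ 2 := by
  have a1 := cn_sq k
  have a2 := cn_sq l
  have a3 := mul_nonneg (cn_nonneg k) (cn_nonneg l)
  have a4 := mul_nonneg (sn_pos k).le (sn_pos l).le
  have a5 := Nn_ge k
  have a6 := Nn_ge l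
  have a7 : 0 ≤ Nn k * Nn l := by positivity
  have e1 : (Nn k * cn k - Nn l * cn l) ^ 2 + (Nn k * sn k - Nn l * sn l) ^ 2 =
      Nn k ^ 2 * (cn k ^ 2 + sn k ^ 2) + Nn l ^ 2 * (cn l ^ 2 + sn l ^ 2) -
        2 * (Nn k * Nn l) * (cn k * cn l + sn k * sn l) := by ring
  rw [e1, a1, a2]
  have e2 : 0 ≤ (Nn k * Nn l) * (cn k * cn l + sn k * sn l) := by positivity
  have e3 : 4 * Nn k + 4 * Nn l ≤ 2 * (Nn k * Nn l) := by nlinarith
  nlinarith

theorem pairB (k l : ℕ) : (Nn k * cn k + Nn l * cn l) ^ 2 + (Nn k * sn k - Nn l * sn l) ^ 2 ≤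
    (Nn k + Nn l - 2) ^ 2 := by
  have a1 := cn_sq k
  have a2 := cn_sq l
  have a4 := mul_nonneg (sn_pos k).le (sn_pos l).le
  have a5 := Nn_ge k
  have a6 := Nn_ge l
  have a7 : 0 ≤ Nn k * Nn l := by positivity
  have b1 : cn k * cn l ≤ 1 - sn k ^ 2 / 2 := by
    have h1 : cn k * cn l ≤ cn k * 1 := mul_le_mul_of_nonneg_left (cn_le l) (cn_nonneg k)
    nlinarith [cn_nonneg k, cn_le k, sq_nonneg (cn k - 1)]
  have b2 : cn k * cn l ≤ 1 - sn l ^ 2 / 2 := by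
    have h1 : cn k * cn l ≤ 1 * cn l := mul_le_mul_of_nonneg_right (cn_le k) (cn_nonneg l)
    nlinarith [cn_nonneg l, cn_le l, sq_nonneg (cn l - 1)]
  have e1 : (Nn k * cn k + Nn l * cn l) ^ 2 + (Nn k * sn k - Nn l * sn l) ^ 2 =
      Nn k ^ 2 * (cn k ^ 2 + sn k ^ 2) + Nn l ^ 2 * (cn l ^ 2 + sn l ^ 2) +
        2 * (Nn k * Nn l) * (cn k * cn l) - 2 * (Nn k * Nn l) * (sn k * sn l) := by ring
  rw [e1, a1, a2]
  have c1 : (Nn k * Nn l) * (cn k * cn l) ≤ (Nn k * Nn l) * (1 - sn k ^ 2 / 2) :=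
    mul_le_mul_of_nonneg_left b1 a7
  have c2 : (Nn k * Nn l) * (cn k * cn l) ≤ (Nn k * Nn l) * (1 - sn l ^ 2 / 2) :=
    mul_le_mul_of_nonneg_left b2 a7
  have d1 : (Nn k * Nn l) * (1 - sn k ^ 2 / 2) = Nn k * Nn l - 4 * Nn l := by
    have := Nn_sn k
    linear_combination (-(Nn l) / 2) * this
  have d2 : (Nn k * Nn l) * (1 - sn l ^ 2 / 2) = Nn k * Nn l - 4 * Nn k := by
    have := Nn_sn l
    linear_combination (-(Nn k) / 2) * this
  have e2 : 0 ≤ (Nn k * Nn l) * (sn k * sn l) := by positivity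
  nlinarith

/-- The contradiction. -/
theorem no_steps [CompleteSpace V] (hV : StrongGurarii V) (D : ℕ → Set V)
    (hstep : ∀ n, Step (D n)) (hdense : Dense (⋃ n, D n)) : False := by
  classical
  -- a unit vector
  obtain ⟨v0, hv0⟩ : ∃ v : V, ‖v‖ = 1 := by
    obtain ⟨g, -⟩ := hV ℝ ⊥
      { toLinearMap := 0
        norm_map' := by
          intro x
          have : x = 0 := Subsingleton.elim _ _
          simp [this] }
    exact ⟨g 1, by rw [LinearIsometry.norm_map]; simp⟩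
  let Q : V × V → Prop := fun p => (∀ a b : ℝ, ‖a • p.1 + b • p.2‖ ≤ √(a ^ 2 + b ^ 2)) ∧ ‖p.1‖ = 1
  have hQ0 : Q (v0, 0) := by
    refine ⟨fun a b => ?_, hv0⟩
    simp only [smul_zero, add_zero]
    rw [norm_smul, hv0, mul_one, Real.norm_eq_abs]
    apply Real.abs_le_sqrt
    nlinarith [sq_nonneg b]
  have hnext : ∀ n (p : {p : V × V // Q p}), ∃ q : {p : V × V // Q p},
      ‖p.1.1 - q.1.1‖ ≤ ee n ∧ ‖p.1.2 - q.1.2‖ ≤ ee n ∧
      ∀ N : ℝ, 0 ≤ N → ∀ e ∈ D n, 2 * N ≤ ‖N • (cn n • q.1.1 + sn n • q.1.2) - e‖ +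
        ‖N • (cn n • q.1.1 - sn n • q.1.2) + e‖ := by
    intro n p
    have h1 := cn_sq n
    obtain ⟨z1, z2, h2, h3, h4, h5, h6⟩ := hstep n (ee n) (cn n) (sn n) (ee_pos n)
      (by linarith [ee_le n]) (by linarith) (sn_pos n).le le_rfl (cn_ge n) (cn_le n) p.1.1 p.1.2
      p.2.1 p.2.2
    exact ⟨⟨(z1, z2), h2, h3⟩, h4, h5, h6⟩
  choose nx hnx1 hnx2 hnx3 using hnext
  let p : ℕ → {p : V × V // Q p} := fun n => Nat.rec ⟨(v0, 0), hQ0⟩ (fun n q => nx n q) n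
  have hp : ∀ n, p (n + 1) = nx n (p n) := fun n => rfl
  obtain ⟨x1, hx1, hx1'⟩ := limit_exists (fun n => (p n).1.1) (fun n => by
    rw [hp]; exact hnx1 n (p n))
  obtain ⟨x2, hx2, hx2'⟩ := limit_exists (fun n => (p n).1.2) (fun n => by
    rw [hp]; exact hnx2 n (p n))
  have hA : ∀ a b : ℝ, ‖a • x1 + b • x2‖ ≤ √(a ^ 2 + b ^ 2) := by
    intro a b
    have h1 : Tendsto (fun n => ‖a • (p n).1.1 + b • (p n).1.2‖) atTop
        (𝓝 ‖a • x1 + b • x2‖) :=
      ((hx1.const_smul a).add (hx2.const_smul b)).norm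
    exact le_of_tendsto' h1 (fun n => (p n).2.1 a b)
  -- separation in the limit
  have hsep : ∀ n, ∀ e ∈ D n, 2 * Nn n - 1 ≤ ‖Nn n • (cn n • x1 + sn n • x2) - e‖ +
        ‖Nn n • (cn n • x1 - sn n • x2) + e‖ := by
    intro n e he
    have hN : 0 ≤ Nn n := by linarith [Nn_ge n]
    have h1 := hnx3 n (p n) (Nn n) hN e he
    rw [← hp] at h1
    have h2 := hx1' (n + 1)
    have h3 := hx2' (n + 1)
    set q1 := (p (n + 1)).1.1
    set q2 := (p (n + 1)).1.2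
    have h4 : ‖Nn n • (cn n • (q1 - x1))‖ ≤ 1 / 4 := by
      rw [norm_smul, norm_smul, Real.norm_of_nonneg hN, Real.norm_of_nonneg (cn_nonneg n)]
      have h5 : cn n * ‖q1 - x1‖ ≤ 1 * (2 * ee (n + 1)) := by
        gcongr
        · exact cn_le n
      calc Nn n * (cn n * ‖q1 - x1‖) ≤ Nn n * (1 * (2 * ee (n + 1))) := by gcongr
        _ = 1 / 4 := by linarith [Nn_ee n]
    have h5 : ‖Nn n • (sn n • (q2 - x2))‖ ≤ 1 / 4 := by
      rw [norm_smul, norm_smul, Real.norm_of_nonneg hN, Real.norm_of_nonneg (sn_pos n).le]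
      have h5 : sn n * ‖q2 - x2‖ ≤ 1 * (2 * ee (n + 1)) := by
        gcongr
        · linarith [sn_le n]
      calc Nn n * (sn n * ‖q2 - x2‖) ≤ Nn n * (1 * (2 * ee (n + 1))) := by gcongr
        _ = 1 / 4 := by linarith [Nn_ee n]
    have h6 : ‖Nn n • (cn n • q1 + sn n • q2) - e‖ ≤
        ‖Nn n • (cn n • x1 + sn n • x2) - e‖ + (1 / 4 + 1 / 4) := by
      have e1 : Nn n • (cn n • q1 + sn n • q2) - e = (Nn n • (cn n • x1 + sn n • x2) - e) +
          (Nn n • (cn n • (q1 - x1)) + Nn n • (sn n • (q2 - x2))) := by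
        simp only [smul_sub, smul_add]
        abel
      rw [e1]
      exact (norm_add_le _ _).trans (add_le_add le_rfl
        ((norm_add_le _ _).trans (add_le_add h4 h5)))
    have h7 : ‖Nn n • (cn n • q1 - sn n • q2) + e‖ ≤
        ‖Nn n • (cn n • x1 - sn n • x2) + e‖ + (1 / 4 + 1 / 4) := by
      have e1 : Nn n • (cn n • q1 - sn n • q2) + e = (Nn n • (cn n • x1 - sn n • x2) + e) +
          (Nn n • (cn n • (q1 - x1)) - Nn n • (sn n • (q2 - x2))) := by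
        simp only [smul_sub]
        abel
      rw [e1]
      exact (norm_add_le _ _).trans (add_le_add le_rfl
        ((norm_sub_le _ _).trans (add_le_add h4 h5)))
    linarith
  -- the balls
  haveI : FiniteDimensional ℝ (Submodule.span ℝ ({x1, x2} : Set V)) :=
    FiniteDimensional.span_of_finite ℝ (by simp)
  have m1 : x1 ∈ Submodule.span ℝ ({x1, x2} : Set V) := Submodule.subset_span (by simp)
  have m2 : x2 ∈ Submodule.span ℝ ({x1, x2} : Set V) := Submodule.subset_span (by simp)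
  have hmem : ∀ a b : ℝ, a • x1 + b • x2 ∈ Submodule.span ℝ ({x1, x2} : Set V) := fun a b =>
    Submodule.add_mem _ (Submodule.smul_mem _ _ m1) (Submodule.smul_mem _ _ m2)
  let cc : ℕ ⊕ ℕ → V := fun k => match k with
    | Sum.inl n => (Nn n * cn n) • x1 + (Nn n * sn n) • x2
    | Sum.inr n => (-(Nn n * cn n)) • x1 + (Nn n * sn n) • x2
  let rr : ℕ ⊕ ℕ → ℝ := fun k => match k with
    | Sum.inl n => Nn n - 1
    | Sum.inr n => Nn n - 1
  have bound : ∀ (k l : ℕ) (a b : ℝ), a ^ 2 + b ^ 2 ≤ (Nn k + Nn l - 2) ^ 2 →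
      ‖a • x1 + b • x2‖ ≤ (Nn k - 1) + (Nn l - 1) := by
    intro k l a b h
    refine (hA a b).trans ?_
    rw [Real.sqrt_le_iff]
    refine ⟨by linarith [Nn_ge k, Nn_ge l], ?_⟩
    have : (Nn k - 1) + (Nn l - 1) = Nn k + Nn l - 2 := by ring
    rw [this]
    exact h
  obtain ⟨s, hs⟩ := balls hV (Submodule.span ℝ ({x1, x2} : Set V)) cc (by
      rintro (n | n) <;> exact hmem _ _) rr (by
      rintro (k | k) (l | l)
      · have e1 : cc (Sum.inl k) - cc (Sum.inl l) = (Nn k * cn k - Nn l * cn l) • x1 +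
            (Nn k * sn k - Nn l * sn l) • x2 := by
          simp only [cc, sub_smul]; abel
        rw [e1]
        exact bound k l _ _ (pairA k l)
      · have e1 : cc (Sum.inl k) - cc (Sum.inr l) = (Nn k * cn k + Nn l * cn l) • x1 +
            (Nn k * sn k - Nn l * sn l) • x2 := by
          simp only [cc, sub_smul, add_smul, neg_smul]; abel
        rw [e1]
        exact bound k l _ _ (pairB k l)
      · have e1 : cc (Sum.inr k) - cc (Sum.inl l) = (-(Nn k * cn k + Nn l * cn l)) • x1 +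
            (Nn k * sn k - Nn l * sn l) • x2 := by
          simp only [cc, sub_smul, add_smul, neg_smul]; abel
        rw [e1]
        exact bound k l _ _ (by rw [neg_sq]; exact pairB k l)
      · have e1 : cc (Sum.inr k) - cc (Sum.inr l) = (-(Nn k * cn k - Nn l * cn l)) • x1 +
            (Nn k * sn k - Nn l * sn l) • x2 := by
          simp only [cc, sub_smul, neg_smul]; abel
        rw [e1]
        exact bound k l _ _ (by rw [neg_sq]; exact pairA k l))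
  obtain ⟨e, he, hes⟩ := hdense.exists_dist_lt s (by norm_num : (0:ℝ) < 1 / 2)
  obtain ⟨n, hn⟩ := mem_iUnion.1 he
  have h1 := hsep n e hn
  have h2 := hs (Sum.inl n)
  have h3 := hs (Sum.inr n)
  rw [dist_eq_norm] at hes
  have h4 : ‖Nn n • (cn n • x1 + sn n • x2) - e‖ ≤ ‖cc (Sum.inl n) - s‖ + ‖s - e‖ := by
    have e1 : Nn n • (cn n • x1 + sn n • x2) - e = (cc (Sum.inl n) - s) + (s - e) := by
      simp only [cc, smul_add, mul_smul]; abel
    rw [e1]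
    exact norm_add_le _ _
  have h5 : ‖Nn n • (cn n • x1 - sn n • x2) + e‖ ≤ ‖cc (Sum.inr n) - s‖ + ‖s - e‖ := by
    have e1 : Nn n • (cn n • x1 - sn n • x2) + e = -((cc (Sum.inr n) - s) + (s - e)) := by
      simp only [cc, smul_sub, mul_smul, neg_smul]; abel
    rw [e1, norm_neg]
    exact norm_add_le _ _
  have h6 : rr (Sum.inl n) = Nn n - 1 := rfl
  have h7 : rr (Sum.inr n) = Nn n - 1 := rfl
  rw [h6] at h2
  rw [h7] at h3
  linarith

end Pool.Agent.R587.SG
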