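import Pool.Agent.R587.SgD

set_option autoImplicit false

open Set Filter Topology Cardinal

universe u

namespace Pool.Agent.R587.SG

variable {V : Type u} [NormedAddCommGroup V] [NormedSpace ℝ V]

omit [NormedSpace ℝ V] in
/-- a maximal `1`-separated set -/
theorem exists_max_sep : ∃ S : Set V, (∀ w ∈ S, ∀ w' ∈ S, w ≠ w' → 1 ≤ ‖w - w'‖) ∧
    ∀ v : V, ∃ w ∈ S, ‖v - w‖ < 1 := by
  obtain ⟨S, hS⟩ := zorn_subset {S : Set V | ∀ w ∈ S, ∀ w' ∈ S, w ≠ w' → 1 ≤ ‖w - w'‖} (by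
    intro c hc hchain
    refine ⟨⋃₀ c, ?_, fun s hs => subset_sUnion_of_mem hs⟩
    rintro w ⟨s, hs, hws⟩ w' ⟨t, ht, hwt⟩ hne
    rcases hchain.total hs ht with h | h
    · exact hc ht w (h hws) w' hwt hne
    · exact hc hs w hws w' (h hwt) hne)
  refine ⟨S, hS.prop, fun v => ?_⟩
  by_contra hcon
  push Not at hcon
  have h1 : insert v S ⊆ S := by
    apply hS.le_of_ge (y := insert v S) _ (subset_insert v S)
    rintro w hw w' hw' hne
    rcases hw with rfl | hw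
    · rcases hw' with rfl | hw'
      · exact absurd rfl hne
      · exact hcon w' hw'
    · rcases hw' with rfl | hw'
      · rw [norm_sub_rev]
        exact hcon w hw
      · exact hS.prop w hw w' hw' hne
  have h2 : v ∈ S := h1 (mem_insert v S)
  have := hcon v h2
  simp at this
  linarith

theorem dense_of_max_sep (S : Set V) (hS : ∀ v : V, ∃ w ∈ S, ‖v - w‖ < 1) :
    Dense (range fun p : ULift.{u} ℕ × S => ((1 : ℝ) / ((p.1.down : ℝ) + 1)) • (p.2 : V)) := by
  rw [Metric.dense_iff]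
  intro v r hr
  obtain ⟨m, hm⟩ := exists_nat_one_div_lt hr
  obtain ⟨w, hw, hvw⟩ := hS (((m : ℝ) + 1) • v)
  have hm1 : (0 : ℝ) < (m : ℝ) + 1 := by positivity
  refine ⟨((1 : ℝ) / ((m : ℝ) + 1)) • w, ?_, ⟨(⟨m⟩, ⟨w, hw⟩), rfl⟩⟩
  rw [Metric.mem_ball, dist_comm, dist_eq_norm]
  have h1 : v - ((1 : ℝ) / ((m : ℝ) + 1)) • w =
      ((1 : ℝ) / ((m : ℝ) + 1)) • ((((m : ℝ) + 1) • v) - w) := by
    rw [smul_sub, smul_smul, one_div, inv_mul_cancel₀ hm1.ne', one_smul]
  rw [h1, norm_smul, Real.norm_of_nonneg (by positivity)]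
  calc (1 : ℝ) / ((m : ℝ) + 1) * ‖(((m : ℝ) + 1) • v) - w‖
      ≤ (1 : ℝ) / ((m : ℝ) + 1) * 1 := by gcongr
    _ < r := by rw [mul_one]; exact hm

theorem step_of_dens (hV : StrongGurarii V) (D : Set V) (κ : Cardinal.{u}) (hκ : ℵ₀ ≤ κ)
    (hD : #D ≤ κ)
    (hdens : ∀ E : Set V, Dense E → (2 : Cardinal.{u}) ^ ((2 : Cardinal.{u}) ^ κ) < #E) :
    Step D := by
  obtain ⟨S, hS1, hS2⟩ := exists_max_sep (V := V)
  set μ : Cardinal.{u} := (2 : Cardinal.{u}) ^ ((2 : Cardinal.{u}) ^ κ) with hμ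
  have hμ0 : ℵ₀ ≤ μ := (hκ.trans (Cardinal.cantor κ).le).trans (Cardinal.cantor _).le
  have h1 := hdens _ (dense_of_max_sep S hS2)
  have h2 : μ < #S := by
    by_contra hle
    push Not at hle
    refine absurd h1 (not_lt.2 ?_)
    refine Cardinal.mk_range_le.trans ?_
    rw [Cardinal.mk_prod, Cardinal.lift_id, Cardinal.lift_id]
    refine Cardinal.mul_le_of_le hμ0 ?_ hle
    simpa using hμ0
  obtain ⟨R, hR⟩ : ∃ R : ℕ, μ < #({w ∈ S | ‖w‖ ≤ (R : ℝ)} : Set V) := by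
    by_contra hcon
    push Not at hcon
    refine absurd h2 (not_lt.2 ?_)
    refine Cardinal.mk_subtype_le_of_countable_eventually_mem (l := (atTop : Filter ℕ)) ?_ hcon
    intro w hw
    obtain ⟨n, hn⟩ := exists_nat_ge ‖w‖
    filter_upwards [eventually_ge_atTop n] with m hm
    refine ⟨hw, hn.trans ?_⟩
    exact_mod_cast hm
  -- rescale
  let r : ℝ := 1 / ((R : ℝ) + 1)
  have hr : 0 < r := by positivity
  have hr1 : r ≤ 1 := by
    rw [div_le_one (by positivity)]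
    have : (0 : ℝ) ≤ R := Nat.cast_nonneg R
    linarith
  have hinj : Function.Injective (fun w : V => r • w) := smul_right_injective V hr.ne'
  refine step_of_sep hV D ((fun w : V => r • w) '' {w ∈ S | ‖w‖ ≤ (R : ℝ)}) κ hκ hD ?_ r hr hr1
    ?_ ?_
  · rw [Cardinal.mk_image_eq hinj]
    exact hR
  · rintro _ ⟨w, hw, rfl⟩
    simp only
    rw [norm_smul, Real.norm_of_nonneg hr.le]
    have h3 : ‖w‖ ≤ (R : ℝ) := hw.2
    have h4 : r * ((R : ℝ) + 1) = 1 := by
      simp only [r]; field_simp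
    nlinarith
  · rintro _ ⟨w, hw, rfl⟩ _ ⟨w', hw', rfl⟩ hne
    simp only
    rw [← smul_sub, norm_smul, Real.norm_of_nonneg hr.le]
    have h3 := hS1 w hw.1 w' hw'.1 (fun h => hne (by rw [h]))
    nlinarith

/-- Main theorem, in terms of dense sets. -/
theorem main_dense [CompleteSpace V] (hV : StrongGurarii V) (D : ℕ → Set V)
    (hD : Dense (⋃ n, D n)) : ∃ n, ∃ E : Set V, Dense E ∧
      #E ≤ (2 : Cardinal.{u}) ^ ((2 : Cardinal.{u}) ^ (max ℵ₀ #(D n))) := by
  by_contra hcon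
  push Not at hcon
  exact no_steps hV D (fun n => step_of_dens hV (D n) (max ℵ₀ #(D n)) (le_max_left _ _)
    (le_max_right _ _) (hcon n)) hD

/-- decomposition of a set of cardinality `κ`, `κ` of countable cofinality -/
theorem decomp {E : Type u} (κ : Cardinal.{u}) (hE : #E = κ) (f : ℕ → Cardinal.{u})
    (hf : ∀ μ < κ, ∃ n, μ < f n) : ∃ D : ℕ → Set E, (⋃ n, D n) = Set.univ ∧ ∀ n, #(D n) ≤ f n := by
  obtain ⟨i⟩ : Nonempty (E ≃ κ.ord.ToType) :=
    Cardinal.eq.1 (hE.trans (Cardinal.mk_ord_toType κ).symm)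
  let g : E → Ordinal.{u} := fun e => Ordinal.typein (α := κ.ord.ToType) (· < ·) (i e)
  have hg : Function.Injective g :=
    (Ordinal.typein_injective (α := κ.ord.ToType) (· < ·)).comp i.injective
  refine ⟨fun n => {e | g e < (f n).ord}, ?_, ?_⟩
  · rw [eq_univ_iff_forall]
    intro e
    rw [mem_iUnion]
    have h1 : g e < κ.ord := Ordinal.typein_lt_self (i e)
    rw [Cardinal.lt_ord] at h1
    obtain ⟨n, hn⟩ := hf _ h1
    exact ⟨n, Cardinal.lt_ord.2 hn⟩
  · intro n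
    have h1 : Cardinal.lift.{u + 1} #{e | g e < (f n).ord} ≤
        Cardinal.lift.{u} #(Iio (f n).ord) := by
      refine Cardinal.lift_mk_le_lift_mk_of_injective
        (f := fun e : {e | g e < (f n).ord} => (⟨g e.1, e.2⟩ : Iio (f n).ord)) ?_
      intro a b hab
      exact Subtype.ext (hg (congrArg Subtype.val hab))
    rw [Cardinal.mk_Iio_ordinal, Cardinal.card_ord, Cardinal.lift_lift, Cardinal.lift_le] at h1
    exact h1

/-- No strong Gurarii space has a density which is a strong limit cardinal of countable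
cofinality. -/
theorem no_strong_limit [CompleteSpace V] (hV : StrongGurarii V) (κ : Cardinal.{u})
    (hκ : ℵ₀ < κ) (hlim : ∀ μ < κ, (2 : Cardinal.{u}) ^ μ < κ) (f : ℕ → Cardinal.{u})
    (hf0 : ∀ n, f n < κ) (hf : ∀ μ < κ, ∃ n, μ ≤ f n) (E : Set V) (hE : Dense E) (hEc : #E = κ)
    (hmin : ∀ E' : Set V, Dense E' → κ ≤ #E') : False := by
  have hf' : ∀ μ < κ, ∃ n, μ < f n := by
    intro μ hμ
    obtain ⟨n, hn⟩ := hf _ (hlim μ hμ)
    exact ⟨n, (Cardinal.cantor μ).trans_le hn⟩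
  obtain ⟨D, hD1, hD2⟩ := decomp κ hEc f hf'
  obtain ⟨n, E', hE', hc⟩ := main_dense hV (fun n => (fun x : E => (x : V)) '' D n) (by
    rw [← image_iUnion, hD1, image_univ, Subtype.range_coe]
    exact hE)
  have h1 : max ℵ₀ #((fun x : E => (x : V)) '' D n) < κ := by
    apply max_lt hκ
    exact (Cardinal.mk_image_le).trans_lt ((hD2 n).trans_lt (hf0 n))
  have h2 := hlim _ (hlim _ h1)
  exact absurd ((hmin E' hE').trans hc) (not_le.2 h2)

end Pool.Agent.R587.SG
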