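import Mathlib

/-!
# Rigid and hereditarily rigid spaces
-/

set_option autoImplicit false

namespace Pool.Agent.R587

open Cardinal

/-- Every nonempty open subset has the cardinality of the continuum. -/
def CCrowded (X : Type) [TopologicalSpace X] : Prop :=
  ∀ U : Set X, IsOpen U → U.Nonempty → #U = 𝔠

/-- The identity is the only self-homeomorphism. -/
def RigidSp (X : Type) [TopologicalSpace X] : Prop := ∀ (h : X ≃ₜ X) (x : X), h x = x

/-- The space is `𝔠`-crowded, and all its `𝔠`-crowded subspaces are rigid. -/
def CHerRigid (X : Type) [TopologicalSpace X] : Prop :=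
  CCrowded X ∧ ∀ S : Set X, CCrowded S → RigidSp S

end Pool.Agent.R587
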