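import Mathlib

namespace Pool.Agent.R587.Sq

open Set Filter Topology

variable {X : Type}

/-- `x` and `y` have the same code up to level `i`. -/
def eqv (C : ℕ → Set X) (i : ℕ) (x y : X) : Prop := ∀ j < i, (x ∈ C j ↔ y ∈ C j)

theorem eqv_refl (C : ℕ → Set X) (i : ℕ) (x : X) : eqv C i x x := fun _ _ => Iff.rfl

theorem eqv_symm {C : ℕ → Set X} {i : ℕ} {x y : X} (h : eqv C i x y) : eqv C i y x :=
  fun j hj => (h j hj).symm

theorem eqv_trans {C : ℕ → Set X} {i : ℕ} {x y z : X} (h : eqv C i x y) (h' : eqv C i y z) :
    eqv C i x z := fun j hj => (h j hj).trans (h' j hj)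

theorem eqv_mono {C : ℕ → Set X} {i j : ℕ} (hij : i ≤ j) {x y : X} (h : eqv C j x y) :
    eqv C i x y := fun k hk => h k (lt_of_lt_of_le hk hij)

theorem eqv_succ {C : ℕ → Set X} {i : ℕ} {x y : X} :
    eqv C (i+1) x y ↔ eqv C i x y ∧ (x ∈ C i ↔ y ∈ C i) := by
  constructor
  · intro h
    exact ⟨eqv_mono (Nat.le_succ i) h, h i (Nat.lt_succ_self i)⟩
  · rintro ⟨h1, h2⟩ j hj
    rcases Nat.lt_succ_iff_lt_or_eq.mp hj with h | h
    · exact h1 j h
    · rw [h]; exact h2

open Classical in
/-- parity of the mass of the class of `x` at level `i`. -/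
noncomputable def par (C : ℕ → Set X) (i : ℕ) (x : X) : (X →₀ ZMod 2) →+ ZMod 2 :=
  Finsupp.liftAddHom (fun y => if eqv C i x y then AddMonoidHom.id (ZMod 2) else 0)

/-- total parity -/
noncomputable def tot : (X →₀ ZMod 2) →+ ZMod 2 :=
  Finsupp.liftAddHom (fun _ : X => AddMonoidHom.id (ZMod 2))

open Classical in
theorem par_single (C : ℕ → Set X) (i : ℕ) (x y : X) (a : ZMod 2) :
    par C i x (Finsupp.single y a) = if eqv C i x y then a else 0 := by
  unfold par
  rw [Finsupp.liftAddHom_apply_single]
  split_ifs <;> rfl

theorem tot_single (y : X) (a : ZMod 2) : tot (Finsupp.single y a) = a := by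
  unfold tot
  rw [Finsupp.liftAddHom_apply_single]
  rfl

theorem par_zero (C : ℕ → Set X) (x : X) (g : X →₀ ZMod 2) : par C 0 x g = tot g := by
  have : par C 0 x = tot := by
    apply Finsupp.addHom_ext
    intro y a
    rw [par_single, tot_single, if_pos]
    intro j hj
    exact absurd hj (Nat.not_lt_zero j)
  rw [this]

theorem par_congr {C : ℕ → Set X} {i : ℕ} {x y : X} (h : eqv C i x y) (g : X →₀ ZMod 2) :
    par C i x g = par C i y g := by
  have : par C i x = par C i y := by
    apply Finsupp.addHom_ext
    intro z a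
    rw [par_single, par_single]
    have : eqv C i x z ↔ eqv C i y z :=
      ⟨fun h' => eqv_trans (eqv_symm h) h', fun h' => eqv_trans h h'⟩
    by_cases h1 : eqv C i x z
    · rw [if_pos h1, if_pos (this.mp h1)]
    · rw [if_neg h1, if_neg (fun h2 => h1 (this.mpr h2))]
  rw [this]

theorem par_split {C : ℕ → Set X} {i : ℕ} {x y : X} (h : eqv C i x y)
    (hn : ¬ eqv C (i+1) x y) (g : X →₀ ZMod 2) :
    par C i x g = par C (i+1) x g + par C (i+1) y g := by
  have : par C i x = par C (i+1) x + par C (i+1) y := by
    apply Finsupp.addHom_ext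
    intro z a
    rw [AddMonoidHom.add_apply, par_single, par_single, par_single]
    have hxy : ¬ (x ∈ C i ↔ y ∈ C i) := fun h' => hn (eqv_succ.mpr ⟨h, h'⟩)
    by_cases hz : eqv C i x z
    · have hz' : eqv C i y z := eqv_trans (eqv_symm h) hz
      rw [if_pos hz]
      by_cases hzC : (x ∈ C i ↔ z ∈ C i)
      · have h1 : eqv C (i+1) x z := eqv_succ.mpr ⟨hz, hzC⟩
        have h2 : ¬ eqv C (i+1) y z := fun h' => hxy (hzC.trans (eqv_succ.mp h').2.symm)
        rw [if_pos h1, if_neg h2, add_zero]
      · have h1 : ¬ eqv C (i+1) x z := fun h' => hzC (eqv_succ.mp h').2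
        have h2 : eqv C (i+1) y z := eqv_succ.mpr ⟨hz', by tauto⟩
        rw [if_neg h1, if_pos h2, zero_add]
    · have h1 : ¬ eqv C (i+1) x z := fun h' => hz (eqv_succ.mp h').1
      have h2 : ¬ eqv C (i+1) y z := fun h' => hz (eqv_trans h (eqv_succ.mp h').1)
      rw [if_neg hz, if_neg h1, if_neg h2, add_zero]
  rw [this, AddMonoidHom.add_apply]

theorem par_eq_sum (C : ℕ → Set X) (i : ℕ) (x : X) (g : X →₀ ZMod 2) :
    par C i x g = g.sum (fun y a => par C i x (Finsupp.single y a)) := by
  conv_lhs => rw [← Finsupp.sum_single g]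
  rw [map_finsuppSum]

theorem par_eq_zero {C : ℕ → Set X} {i : ℕ} {x : X} {g : X →₀ ZMod 2}
    (h : ∀ y ∈ g.support, ¬ eqv C i x y) : par C i x g = 0 := by
  rw [par_eq_sum, Finsupp.sum]
  apply Finset.sum_eq_zero
  intro y hy
  rw [par_single, if_neg (h y hy)]

theorem par_eq_self {C : ℕ → Set X} {i : ℕ} {x : X} {g : X →₀ ZMod 2}
    (hx : x ∈ g.support) (h : ∀ y ∈ g.support, eqv C i x y → y = x) : par C i x g = g x := by
  rw [par_eq_sum, Finsupp.sum, Finset.sum_eq_single x]
  · rw [par_single, if_pos (eqv_refl C i x)]
  · intro y hy hyx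
    rw [par_single, if_neg]
    intro h'
    exact hyx (h y hy h')
  · intro h'
    exact absurd hx h'

/-- the end point of the odd branch -/
def good (C : ℕ → Set X) (g : X →₀ ZMod 2) (z : X) : Prop :=
  z ∈ g.support ∧ ∀ i, par C i z g = 1

theorem good_unique {C : ℕ → Set X} (hC : ∀ x y, (∀ i, x ∈ C i ↔ y ∈ C i) → x = y)
    {g : X →₀ ZMod 2} {z z' : X} (h : good C g z) (h' : good C g z') : z = z' := by
  by_contra hne
  have hex : ∃ i, ¬ eqv C i z z' := by
    by_contra hcon
    push Not at hcon
    exact hne (hC z z' (fun i => hcon (i+1) i (Nat.lt_succ_self i)))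
  classical
  have hfind := Nat.find_spec hex
  have hpos : Nat.find hex ≠ 0 := by
    intro h0
    rw [h0] at hfind
    exact hfind (fun j hj => absurd hj (Nat.not_lt_zero j))
  obtain ⟨i, hi⟩ := Nat.exists_eq_succ_of_ne_zero hpos
  have h1 : eqv C i z z' := by
    by_contra hcon
    exact Nat.find_min hex (by rw [hi]; exact Nat.lt_succ_self i) hcon
  rw [hi] at hfind
  have h2 := par_split h1 hfind g
  rw [h.2 i, h.2 (i+1), h'.2 (i+1)] at h2
  exact absurd h2 (by decide)

theorem zmod2_ne {a : ZMod 2} (h : a ≠ 1) : a = 0 := by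
  revert a; decide

theorem zmod2_ne' {a : ZMod 2} (h : a ≠ 0) : a = 1 := by
  revert a; decide

theorem exists_good (C : ℕ → Set X) {g : X →₀ ZMod 2} (hg : tot g = 1) : ∃ z, good C g z := by
  classical
  have key : ∀ i, ∃ z ∈ g.support, ∀ j ≤ i, par C j z g = 1 := by
    intro i
    induction i with
    | zero =>
      have hne : g ≠ 0 := by
        rintro rfl
        rw [map_zero] at hg
        exact absurd hg (by decide)
      obtain ⟨z, hz⟩ := Finsupp.support_nonempty_iff.mpr hne
      refine ⟨z, hz, fun j hj => ?_⟩
      have : j = 0 := by omega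
      rw [this, par_zero]; exact hg
    | succ i ih =>
      obtain ⟨z, hz, hzj⟩ := ih
      by_cases h1 : par C (i+1) z g = 1
      · refine ⟨z, hz, fun j hj => ?_⟩
        rcases Nat.le_succ_iff.mp hj with h | h
        · exact hzj j h
        · rw [h]; exact h1
      · have h0 : par C (i+1) z g = 0 := zmod2_ne h1
        -- there is a point of the support in the other half
        have hex : ∃ y ∈ g.support, eqv C i z y ∧ ¬ eqv C (i+1) z y := by
          by_contra hcon
          push Not at hcon
          have h2 : par C i z g = par C (i+1) z g := by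
            rw [par_eq_sum, par_eq_sum C (i+1)]
            apply Finsupp.sum_congr
            intro y hy
            rw [par_single, par_single]
            by_cases h3 : eqv C i z y
            · rw [if_pos h3, if_pos (hcon y hy h3)]
            · rw [if_neg h3, if_neg (fun h' => h3 (eqv_succ.mp h').1)]
          rw [hzj i le_rfl, h0] at h2
          exact absurd h2 (by decide)
        obtain ⟨y, hy, hzy, hzy'⟩ := hex
        refine ⟨y, hy, fun j hj => ?_⟩
        rcases Nat.le_succ_iff.mp hj with h | h
        · rw [← par_congr (eqv_mono h hzy)]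
          exact hzj j h
        · have h4 := par_split hzy hzy' g
          rw [hzj i le_rfl, h0, zero_add] at h4
          rw [h]; exact h4.symm
  -- pigeonhole
  by_contra hcon
  push Not at hcon
  have h5 : ∀ z ∈ g.support, ∃ i, par C i z g ≠ 1 := by
    intro z hz
    by_contra h6
    push Not at h6
    exact hcon z ⟨hz, h6⟩
  choose! n hn using h5
  obtain ⟨z, hz, hzj⟩ := key (g.support.sup n)
  exact hn z hz (hzj (n z) (Finset.le_sup hz))

open Classical in
/-- the retraction -/
noncomputable def retr (C : ℕ → Set X) (x0 : X) (g : X →₀ ZMod 2) : X :=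
  if h : ∃ z, good C g z then Classical.choose h else x0

theorem retr_eq {C : ℕ → Set X} (hC : ∀ x y, (∀ i, x ∈ C i ↔ y ∈ C i) → x = y) {x0 : X}
    {g : X →₀ ZMod 2} {z : X} (h : good C g z) : retr C x0 g = z := by
  have hex : ∃ z, good C g z := ⟨z, h⟩
  unfold retr
  rw [dif_pos hex]
  exact good_unique hC (Classical.choose_spec hex) h

theorem retr_even {C : ℕ → Set X} {x0 : X} {g : X →₀ ZMod 2} (h : tot g = 0) :
    retr C x0 g = x0 := by
  have hex : ¬ ∃ z, good C g z := by
    rintro ⟨z, hz⟩
    have := hz.2 0
    rw [par_zero, h] at this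
    exact absurd this (by decide)
  unfold retr
  rw [dif_neg hex]

theorem retr_mem (C : ℕ → Set X) (x0 : X) (g : X →₀ ZMod 2) :
    retr C x0 g ∈ g.support ∨ retr C x0 g = x0 := by
  unfold retr
  by_cases hex : ∃ z, good C g z
  · left
    rw [dif_pos hex]
    exact (Classical.choose_spec hex).1
  · right
    rw [dif_neg hex]

theorem retr_single {C : ℕ → Set X} (hC : ∀ x y, (∀ i, x ∈ C i ↔ y ∈ C i) → x = y) {x0 : X}
    (x : X) : retr C x0 (Finsupp.single x 1) = x := by
  apply retr_eq hC
  constructor
  · rw [Finsupp.mem_support_iff, Finsupp.single_eq_same]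
    decide
  · intro i
    rw [par_single, if_pos (eqv_refl C i x)]

theorem exists_level {C : ℕ → Set X} (hC : ∀ x y, (∀ i, x ∈ C i ↔ y ∈ C i) → x = y)
    (s : Finset X) : ∃ i, ∀ y ∈ s, ∀ y' ∈ s, eqv C i y y' → y = y' := by
  have h : ∀ᶠ i in atTop, ∀ y ∈ s, ∀ y' ∈ s, eqv C i y y' → y = y' := by
    rw [Filter.eventually_all_finset]
    intro y _
    rw [Filter.eventually_all_finset]
    intro y' _
    by_cases hyy : y = y'
    · exact Filter.Eventually.of_forall (fun _ _ => hyy)
    · have hex : ∃ j, ¬ (y ∈ C j ↔ y' ∈ C j) := by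
        by_contra hcon
        push Not at hcon
        exact hyy (hC y y' hcon)
      obtain ⟨j, hj⟩ := hex
      filter_upwards [Filter.eventually_gt_atTop j] with i hi h'
      exact absurd (h' j hi) hj
  exact h.exists

theorem isOpen_eqv [TopologicalSpace X] {C : ℕ → Set X} (hcl : ∀ i, IsClopen (C i)) (i : ℕ)
    (p : X) : IsOpen {x | eqv C i p x} := by
  have h : {x | eqv C i p x} = ⋂ j ∈ Finset.range i, {x | p ∈ C j ↔ x ∈ C j} := by
    ext x
    simp only [mem_setOf_eq, mem_iInter, Finset.mem_range]
    rfl
  rw [h]
  apply isOpen_biInter_finset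
  intro j _
  by_cases hp : p ∈ C j
  · have : {x | p ∈ C j ↔ x ∈ C j} = C j := by
      ext x; simp [hp]
    rw [this]; exact (hcl j).isOpen
  · have : {x | p ∈ C j ↔ x ∈ C j} = (C j)ᶜ := by
      ext x; simp [hp]
    rw [this]; exact (hcl j).compl.isOpen

theorem retr_cont [TopologicalSpace X] {C : ℕ → Set X} (hcl : ∀ i, IsClopen (C i))
    (hC : ∀ x y, (∀ i, x ∈ C i ↔ y ∈ C i) → x = y) (x0 : X) (A : X →₀ ZMod 2) :
    Continuous (fun x => retr C x0 (Finsupp.single x 1 + A)) := by
  classical
  by_cases hA : tot A = 0
  · rw [continuous_iff_continuousAt]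
    intro p
    obtain ⟨i, hi⟩ := exists_level hC (insert p A.support)
    have hsep : ∀ y ∈ A.support, eqv C i p y → y = p := fun y hy h =>
      (hi p (Finset.mem_insert_self _ _) y (Finset.mem_insert_of_mem hy) h).symm
    have hsep2 : ∀ y ∈ A.support, ∀ y' ∈ A.support, eqv C i y y' → y = y' := fun y hy y' hy' h =>
      hi y (Finset.mem_insert_of_mem hy) y' (Finset.mem_insert_of_mem hy') h
    have hN : {x | eqv C i p x} ∈ 𝓝 p := (isOpen_eqv hcl i p).mem_nhds (eqv_refl C i p)
    have htot : ∀ x, tot (Finsupp.single x 1 + A) = 1 := by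
      intro x
      rw [map_add, tot_single, hA, add_zero]
    obtain ⟨z, hz⟩ := exists_good C (htot p)
    by_cases hzp : z = p
    · -- identity near p
      subst hzp
      have hAz : A z = 0 := by
        have h1 := hz.1
        rw [Finsupp.mem_support_iff, Finsupp.add_apply, Finsupp.single_eq_same] at h1
        by_contra h2
        apply h1
        rw [zmod2_ne' h2]
        decide
      have hzA : z ∉ A.support := by
        rw [Finsupp.mem_support_iff, not_not]; exact hAz
      have hno : ∀ y ∈ A.support, ¬ eqv C i z y := by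
        intro y hy h
        have := hsep y hy h
        rw [this] at hy
        exact hzA hy
      have hev : (fun x => retr C x0 (Finsupp.single x 1 + A)) =ᶠ[𝓝 z] fun x => x := by
        filter_upwards [hN] with x hx
        apply retr_eq hC
        have hxA : x ∉ A.support := fun h => hno x h hx
        have hAx : A x = 0 := by
          rwa [Finsupp.mem_support_iff, not_not] at hxA
        constructor
        · rw [Finsupp.mem_support_iff, Finsupp.add_apply, Finsupp.single_eq_same, hAx, add_zero]
          decide
        · intro j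
          rw [map_add, par_single, if_pos (eqv_refl C j x)]
          have h0 : par C j x A = 0 := by
            rcases le_total j i with hji | hji
            · rw [← par_congr (eqv_mono hji hx)]
              have h1 := hz.2 j
              rw [map_add, par_single, if_pos (eqv_refl C j z)] at h1
              by_contra h2
              rw [zmod2_ne' h2] at h1
              exact absurd h1 (by decide)
            · apply par_eq_zero
              intro y hy h
              exact hno y hy (eqv_trans hx (eqv_mono hji h))
          rw [h0, add_zero]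
      exact continuousAt_id.congr hev.symm
    · -- constant near p
      have hzA : z ∈ A.support := by
        have h1 := hz.1
        rw [Finsupp.mem_support_iff, Finsupp.add_apply, Finsupp.single_eq_of_ne hzp,
          zero_add] at h1
        rw [Finsupp.mem_support_iff]; exact h1
      have hAz : A z = 1 := zmod2_ne' (by rwa [Finsupp.mem_support_iff] at hzA)
      have hpz : ¬ eqv C i p z := fun h => hzp (hsep z hzA h)
      have hev : (fun x => retr C x0 (Finsupp.single x 1 + A)) =ᶠ[𝓝 p] fun _ => z := by
        filter_upwards [hN] with x hx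
        apply retr_eq hC
        have hxz : ¬ eqv C i x z := fun h => hpz (eqv_trans hx h)
        have hzx : z ≠ x := by
          rintro rfl
          exact hpz hx
        constructor
        · rw [Finsupp.mem_support_iff, Finsupp.add_apply, Finsupp.single_eq_of_ne hzx,
            zero_add, hAz]
          decide
        · intro j
          rw [map_add, par_single]
          rcases le_total j i with hji | hji
          · have h1 := hz.2 j
            rw [map_add, par_single] at h1
            have h2 : eqv C j z x ↔ eqv C j z p :=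
              ⟨fun h => eqv_trans h (eqv_symm (eqv_mono hji hx)),
                fun h => eqv_trans h (eqv_mono hji hx)⟩
            simp only [h2]
            exact h1
          · have h3 : ¬ eqv C j z x := fun h => hxz (eqv_symm (eqv_mono hji h))
            rw [if_neg h3, zero_add, par_eq_self hzA, hAz]
            intro y hy h
            exact (hsep2 z hzA y hy (eqv_mono hji h)).symm
      have hval : retr C x0 (Finsupp.single p 1 + A) = z := retr_eq hC hz
      exact continuousAt_const.congr hev.symm
  · have hA1 : tot A = 1 := zmod2_ne' hA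
    have : (fun x => retr C x0 (Finsupp.single x 1 + A)) = fun _ => x0 := by
      funext x
      apply retr_even
      rw [map_add, tot_single, hA1]
      decide
    rw [this]
    exact continuous_const

end Pool.Agent.R587.Sq
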