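import Mathlib
import Pool.Agent.R587.SqGroup

namespace Pool.Agent.R587.Sq

open Set Filter Topology TopologicalSpace

variable {X : Type}

/-- the coordinates -/
noncomputable def Phi (C : ℕ → Set X) (x0 : X) (g : X →₀ ZMod 2) : (X →₀ ZMod 2) → X :=
  fun A => retr C x0 (g + A)

theorem two_self (g : X →₀ ZMod 2) : g + g = 0 := by
  ext x
  rw [Finsupp.add_apply, Finsupp.zero_apply]
  generalize g x = a
  revert a; decide

theorem Phi_inj {C : ℕ → Set X} (hC : ∀ x y, (∀ i, x ∈ C i ↔ y ∈ C i) → x = y) {x0 x1 : X}
    (h01 : x1 ≠ x0) : Function.Injective (Phi C x0) := by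
  classical
  intro g h hgh
  by_contra hne
  have key : ∀ y, retr C x0 (g + (h + Finsupp.single y 1)) = y := by
    intro y
    have h1 := congrFun hgh (h + Finsupp.single y 1)
    unfold Phi at h1
    rw [h1, ← add_assoc, two_self, zero_add]
    exact retr_single hC y
  have hD : g + h ≠ 0 := by
    intro h0
    apply hne
    have : g + h + h = h := by rw [h0, zero_add]
    rw [add_assoc, two_self, add_zero] at this
    exact this
  by_cases hex : ∃ y ∈ (g + h).support, y ≠ x0
  · obtain ⟨y, hy, hy0⟩ := hex
    have h1 := key y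
    have h2 := retr_mem C x0 (g + (h + Finsupp.single y 1))
    rw [h1] at h2
    rcases h2 with h2 | h2
    · rw [Finsupp.mem_support_iff, ← add_assoc, Finsupp.add_apply, Finsupp.single_eq_same] at h2
      rw [Finsupp.mem_support_iff] at hy
      apply h2
      rw [zmod2_ne' hy]
      decide
    · exact hy0 h2
  · push Not at hex
    have hDx : g + h = Finsupp.single x0 1 := by
      ext y
      by_cases hy : y = x0
      · rw [hy, Finsupp.single_eq_same]
        apply zmod2_ne'
        intro h0
        apply hD
        ext z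
        by_contra hz
        have hz' : z ∈ (g + h).support := by
          rw [Finsupp.mem_support_iff]
          simpa using hz
        rw [hex z hz', h0] at hz
        exact hz rfl
      · rw [Finsupp.single_eq_of_ne hy]
        by_contra hz
        exact hy (hex y (by rw [Finsupp.mem_support_iff]; exact hz))
    have h1 := key x1
    rw [← add_assoc, hDx, retr_even] at h1
    · exact h01 h1.symm
    · rw [map_add, tot_single, tot_single]
      decide

/-- the topology of the group -/
noncomputable def topG [TopologicalSpace X] (C : ℕ → Set X) (x0 : X) :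
    TopologicalSpace (X →₀ ZMod 2) :=
  TopologicalSpace.induced (Phi C x0) inferInstance

theorem cont_addleft [TopologicalSpace X] (C : ℕ → Set X) (x0 : X) (a : X →₀ ZMod 2) :
    @Continuous _ _ (topG C x0) (topG C x0) (fun g => a + g) := by
  letI := topG C x0
  have hind : IsInducing (Phi C x0) := ⟨rfl⟩
  rw [hind.continuous_iff]
  refine continuous_pi fun A => ?_
  have h1 : Continuous (fun g : X →₀ ZMod 2 => Phi C x0 g (a + A)) :=
    (continuous_apply (a + A)).comp hind.continuous
  have h2 : (fun g : X →₀ ZMod 2 => (Phi C x0 ∘ fun g => a + g) g A) =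
      fun g : X →₀ ZMod 2 => Phi C x0 g (a + A) := by
    funext g
    show retr C x0 (a + g + A) = retr C x0 (g + (a + A))
    congr 1
    abel
  rw [h2]
  exact h1

theorem cont_single [TopologicalSpace X] {C : ℕ → Set X} (hcl : ∀ i, IsClopen (C i))
    (hC : ∀ x y, (∀ i, x ∈ C i ↔ y ∈ C i) → x = y) (x0 : X) :
    @Continuous _ _ _ (topG C x0) (fun x : X => Finsupp.single x (1 : ZMod 2)) := by
  letI := topG C x0
  have hind : IsInducing (Phi C x0) := ⟨rfl⟩
  rw [hind.continuous_iff]
  refine continuous_pi fun A => ?_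
  exact retr_cont hcl hC x0 A

theorem isEmbedding_single [TopologicalSpace X] {C : ℕ → Set X} (hcl : ∀ i, IsClopen (C i))
    (hC : ∀ x y, (∀ i, x ∈ C i ↔ y ∈ C i) → x = y) (x0 : X) :
    @IsEmbedding _ _ _ (topG C x0) (fun x : X => Finsupp.single x (1 : ZMod 2)) := by
  letI := topG C x0
  have hind : IsInducing (Phi C x0) := ⟨rfl⟩
  have hleft : Function.LeftInverse (fun g : X →₀ ZMod 2 => Phi C x0 g 0)
      (fun x : X => Finsupp.single x (1 : ZMod 2)) := by
    intro x
    show retr C x0 (Finsupp.single x 1 + 0) = x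
    rw [add_zero]
    exact retr_single hC x
  exact Function.LeftInverse.isEmbedding hleft ((continuous_apply 0).comp hind.continuous)
    (cont_single hcl hC x0)

theorem sep_G [TopologicalSpace X] (hs : SeparableSpace X) {C : ℕ → Set X}
    (hcl : ∀ i, IsClopen (C i))
    (hC : ∀ x y, (∀ i, x ∈ C i ↔ y ∈ C i) → x = y) (x0 : X) :
    @SeparableSpace _ (topG C x0) := by
  classical
  letI := topG C x0
  obtain ⟨Q, hQc, hQd⟩ := hs.exists_countable_dense
  haveI : Countable Q := hQc.to_subtype
  haveI : Countable (ZMod 2) := Finite.to_countable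
  let H : Set (X →₀ ZMod 2) := range (fun f : Q →₀ ZMod 2 => Finsupp.mapDomain Subtype.val f)
  have hH0 : (0 : X →₀ ZMod 2) ∈ H := ⟨0, Finsupp.mapDomain_zero⟩
  have hHadd : ∀ q ∈ Q, ∀ h ∈ H, Finsupp.single q 1 + h ∈ H := by
    rintro q hq _ ⟨f, rfl⟩
    refine ⟨Finsupp.single ⟨q, hq⟩ 1 + f, ?_⟩
    simp only [Finsupp.mapDomain_add, Finsupp.mapDomain_single]
  have hHc : H.Countable := countable_range _
  -- step 1
  have step1 : ∀ h ∈ H, ∀ x : X, Finsupp.single x (1 : ZMod 2) + h ∈ closure H := by
    intro h hh x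
    have hc : Continuous (fun x : X => Finsupp.single x (1 : ZMod 2) + h) := by
      have := (cont_addleft C x0 h).comp (cont_single hcl hC x0)
      refine this.congr fun x => ?_
      simp only [Function.comp, add_comm]
    have hm : MapsTo (fun x : X => Finsupp.single x (1 : ZMod 2) + h) Q H := fun q hq =>
      hHadd q hq h hh
    exact hm.closure hc (hQd x)
  have step2 : ∀ x : X, ∀ g ∈ closure H, Finsupp.single x (1 : ZMod 2) + g ∈ closure H := by
    intro x g hg
    have hm : MapsTo (fun g => Finsupp.single x (1 : ZMod 2) + g) H (closure H) :=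
      fun h hh => step1 h hh x
    have := hm.closure (cont_addleft C x0 _) hg
    rwa [closure_closure] at this
  refine ⟨⟨H, hHc, ?_⟩⟩
  intro g
  induction g using Finsupp.induction with
  | zero => exact subset_closure hH0
  | single_add x a g hx ha ih =>
    rw [zmod2_ne' ha]
    exact step2 x g ih

theorem t3_G [TopologicalSpace X] [T3Space X] {C : ℕ → Set X}
    (hC : ∀ x y, (∀ i, x ∈ C i ↔ y ∈ C i) → x = y) {x0 x1 : X}
    (h01 : x1 ≠ x0) : @T3Space _ (topG C x0) := by
  letI := topG C x0
  have hemb : IsEmbedding (Phi C x0) := ⟨⟨rfl⟩, Phi_inj hC h01⟩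
  exact hemb.t3Space

theorem sq_main (X : Type) [TopologicalSpace X] [T3Space X] (hs : SeparableSpace X)
    {C : ℕ → Set X} (hcl : ∀ i, IsClopen (C i))
    (hC : ∀ x y, (∀ i, x ∈ C i ↔ y ∈ C i) → x = y) {x0 x1 : X} (h01 : x1 ≠ x0)
    (hncr : ¬ CompletelyRegularSpace X) :
    ∃ (G : Type) (_ : CommGroup G) (_ : TopologicalSpace G),
      (∀ g : G, g * g = 1) ∧ (∀ a : G, Continuous (fun x => a * x)) ∧
      (∀ a : G, Continuous (fun x => x * a)) ∧
      Continuous (fun x : G => x⁻¹) ∧ T3Space G ∧ SeparableSpace G ∧
      ¬ CompletelyRegularSpace G := by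
  refine ⟨Multiplicative (X →₀ ZMod 2), inferInstance, topG C x0, ?_, ?_, ?_, ?_, ?_, ?_, ?_⟩
  · intro g
    exact two_self (Multiplicative.toAdd g)
  · intro a
    exact cont_addleft C x0 (Multiplicative.toAdd a)
  · intro a
    letI := topG C x0
    have h := cont_addleft C x0 (Multiplicative.toAdd a)
    have h2 : (fun x : Multiplicative (X →₀ ZMod 2) => x * a) = fun x => a * x := by
      funext x
      exact mul_comm x a
    rw [h2]
    exact h
  · letI := topG C x0
    have h2 : (fun x : Multiplicative (X →₀ ZMod 2) => x⁻¹) = fun x => x := by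
      funext x
      have : x * x = 1 := two_self (Multiplicative.toAdd x)
      exact inv_eq_of_mul_eq_one_left this
    rw [h2]
    exact continuous_id
  · exact t3_G hC h01
  · exact sep_G hs hcl hC x0
  · intro hcr
    apply hncr
    letI := topG C x0
    haveI : CompletelyRegularSpace (X →₀ ZMod 2) := hcr
    exact (isEmbedding_single hcl hC x0).isInducing.completelyRegularSpace

end Pool.Agent.R587.Sq
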