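import Mathlib

namespace Pool.Agent.R587.Sq

open Set Filter Topology

/-- Cantor space. -/
abbrev Cant := ℕ → Bool

theorem cone_nhds {U : Set Cant} (hU : IsOpen U) {z : Cant} (hz : z ∈ U) :
    ∃ n : ℕ, ∀ y : Cant, (∀ i < n, y i = z i) → y ∈ U := by
  obtain ⟨I, u, hIu, hsub⟩ := isOpen_pi_iff.mp hU z hz
  refine ⟨I.sup id + 1, fun y hy => hsub ?_⟩
  intro i hi
  have hi' : i ≤ I.sup id := Finset.le_sup (f := id) hi
  rw [hy i (by omega)]
  exact (hIu i hi).2

theorem isOpen_cone (z : Cant) (n : ℕ) : IsOpen {y : Cant | ∀ i < n, y i = z i} := by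
  have h : {y : Cant | ∀ i < n, y i = z i} = ⋂ j ∈ Finset.range n, {y | y j = z j} := by
    ext x
    simp only [mem_setOf_eq, mem_iInter, Finset.mem_range]
  rw [h]
  apply isOpen_biInter_finset
  intro j _
  have hc : Continuous (fun y : Cant => y j) := continuous_apply j
  exact (isOpen_discrete ({z j} : Set Bool)).preimage hc

/-- differ at finitely many places -/
def fset : Setoid Cant where
  r x y := {i | x i ≠ y i}.Finite
  iseqv := by
    refine ⟨fun x => ?_, fun {x y} h => ?_, fun {x y z} h1 h2 => ?_⟩
    · have : {i | x i ≠ x i} = ∅ := by ext i; simp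
      rw [this]; exact Set.finite_empty
    · have : {i | y i ≠ x i} = {i | x i ≠ y i} := by ext i; exact ne_comm
      rw [this]; exact h
    · apply (h1.union h2).subset
      intro i hi
      by_cases h : x i = y i
      · right
        show y i ≠ z i
        rw [← h]; exact hi
      · left; exact h

/-- representative -/
noncomputable def rep (x : Cant) : Cant := Quotient.out (Quotient.mk fset x)

theorem rep_fin (x : Cant) : {i | x i ≠ rep x i}.Finite := by
  have h : fset.r (rep x) x := Quotient.exact (Quotient.out_eq (Quotient.mk fset x))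
  exact fset.symm h

theorem rep_eq {x y : Cant} (h : {i | x i ≠ y i}.Finite) : rep x = rep y := by
  unfold rep
  have : Quotient.mk fset x = Quotient.mk fset y := Quotient.sound h
  rw [this]

/-- the label -/
noncomputable def lab (x : Cant) : ℕ := (Nat.unpair ((rep_fin x).toFinset.sup id)).1

/-- flip the places in `F`. -/
def flip (F : Finset ℕ) (x : Cant) : Cant := fun i => if i ∈ F then !(x i) else x i

theorem flip_cont (F : Finset ℕ) : Continuous (flip F) := by
  refine continuous_pi fun i => ?_
  unfold flip
  by_cases h : i ∈ F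
  · simp only [if_pos h]
    exact (continuous_of_discreteTopology (f := Bool.not)).comp (continuous_apply i)
  · simp only [if_neg h]
    exact continuous_apply i

theorem flip_flip (F : Finset ℕ) (x : Cant) : flip F (flip F x) = x := by
  funext i
  unfold flip
  by_cases h : i ∈ F
  · simp only [if_pos h, Bool.not_not]
  · simp only [if_neg h]

theorem flip_open (F : Finset ℕ) : IsOpenMap (flip F) := by
  intro U hU
  have h : flip F '' U = flip F ⁻¹' U := by
    ext y
    constructor
    · rintro ⟨x, hx, rfl⟩
      show flip F (flip F x) ∈ U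
      rw [flip_flip]; exact hx
    · intro hy
      exact ⟨flip F y, hy, flip_flip F y⟩
  rw [h]
  exact hU.preimage (flip_cont F)

theorem lab_reach (x : Cant) {U : Set Cant} (hU : IsOpen U) (hne : U.Nonempty) (k : ℕ) :
    ∃ F : Finset ℕ, flip F x ∈ U ∧ lab (flip F x) = k := by
  classical
  obtain ⟨z, hz⟩ := hne
  obtain ⟨n, hn⟩ := cone_nhds hU hz
  let r := rep x
  let N := Nat.pair k n
  have hN : n ≤ N := Nat.right_le_pair k n
  let y : Cant := fun i => if i < n then z i else if i = N then !(r i) else r i
  have hyr : {i | y i ≠ r i} ⊆ ↑(Finset.range (N+1)) := by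
    intro i hi
    rw [Finset.coe_range, mem_Iio]
    by_contra hcon
    apply hi
    show (if i < n then z i else if i = N then !(r i) else r i) = r i
    rw [if_neg (by omega), if_neg (by omega)]
  have hyrf : {i | y i ≠ r i}.Finite := (Finset.finite_toSet _).subset hyr
  have hxr : {i | x i ≠ r i}.Finite := rep_fin x
  have hxy : {i | x i ≠ y i}.Finite := fset.trans hxr (fset.symm hyrf)
  have hry : rep y = r := (rep_eq hxy).symm
  refine ⟨hxy.toFinset, ?_⟩
  have hfl : flip hxy.toFinset x = y := by
    funext i
    unfold flip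
    by_cases h : x i = y i
    · rw [if_neg, h]
      rw [Set.Finite.mem_toFinset]
      exact fun h' => h' h
    · rw [if_pos]
      · revert h
        generalize x i = a
        generalize y i = b
        revert a b; decide
      · rw [Set.Finite.mem_toFinset]
        exact h
  rw [hfl]
  constructor
  · apply hn
    intro i hi
    show (if i < n then z i else if i = N then !(r i) else r i) = z i
    rw [if_pos hi]
  · unfold lab
    have hsup : (rep_fin y).toFinset.sup id = N := by
      apply le_antisymm
      · apply Finset.sup_le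
        intro i hi
        rw [Set.Finite.mem_toFinset] at hi
        have : i ∈ {i | y i ≠ r i} := by
          rw [← hry]; exact hi
        have := hyr this
        rw [Finset.coe_range, mem_Iio] at this
        show i ≤ N
        omega
      · have hmem : N ∈ (rep_fin y).toFinset := by
          rw [Set.Finite.mem_toFinset]
          show y N ≠ rep y N
          rw [hry]
          show (if N < n then z N else if N = N then !(r N) else r N) ≠ r N
          rw [if_neg (by omega), if_pos rfl]
          cases r N <;> decide
        exact Finset.le_sup (f := id) hmem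
    rw [hsup]
    show (Nat.unpair (Nat.pair k n)).1 = k
    rw [Nat.unpair_pair]

theorem lab_nonmeagre (k : ℕ) {U : Set Cant} (hU : IsOpen U) (hne : U.Nonempty) :
    ¬ IsMeagre ({x | lab x = k} ∩ U) := by
  intro hm
  have huniv : (⋃ F : Finset ℕ, flip F ⁻¹' ({x | lab x = k} ∩ U)) = univ := by
    apply eq_univ_of_forall
    intro x
    obtain ⟨F, h1, h2⟩ := lab_reach x hU hne k
    exact mem_iUnion.mpr ⟨F, h2, h1⟩
  have h1 : IsMeagre (⋃ F : Finset ℕ, flip F ⁻¹' ({x | lab x = k} ∩ U)) :=
    isMeagre_iUnion fun F => hm.preimage_of_isOpenMap (flip_cont F) (flip_open F)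
  rw [huniv] at h1
  exact not_isMeagre_of_isOpen isOpen_univ ⟨fun _ => true, mem_univ _⟩ h1

/-- initial segments -/
def seg (x : Cant) (m : ℕ) : List Bool := (List.range m).map x

theorem seg_length (x : Cant) (m : ℕ) : (seg x m).length = m := by
  unfold seg
  rw [List.length_map, List.length_range]

theorem seg_eq_iff (x y : Cant) (m : ℕ) : seg x m = seg y m ↔ ∀ i < m, x i = y i := by
  unfold seg
  rw [List.map_inj_left]
  simp only [List.mem_range]

theorem seg_eq {x y : Cant} {m m' : ℕ} (h : seg x m = seg y m') :
    m = m' ∧ ∀ i < m, x i = y i := by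
  have h1 : m = m' := by
    have := congrArg List.length h
    rwa [seg_length, seg_length] at this
  subst h1
  exact ⟨rfl, (seg_eq_iff x y m).mp h⟩

theorem seg_get (x : Cant) {m i : ℕ} (h : i < m) : (seg x m)[i]? = some (x i) := by
  unfold seg
  rw [List.getElem?_map, List.getElem?_range h]
  rfl

/-- The Baire category step. -/
theorem baire_step (k : ℕ) (P : Cant → Prop) (hP : ∀ᶠ x in residual Cant, lab x = k → P x)
    (F : List Bool → Prop)
    (hF : ∀ x, lab x = k → P x → ∃ M, ∀ m ≥ M, F (seg x m)) :
    ∀ᶠ x in residual Cant, ∃ M, ∀ m ≥ M, F (seg x m) := by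
  let V : Set Cant := {x | ∃ M n, ∀ y : Cant, (∀ i < n, y i = x i) → ∀ m ≥ M, F (seg y m)}
  have hVo : IsOpen V := by
    rw [isOpen_iff_mem_nhds]
    rintro x ⟨M, n, hx⟩
    have hc : {y : Cant | ∀ i < n, y i = x i} ∈ 𝓝 x :=
      (isOpen_cone x n).mem_nhds (fun i _ => rfl)
    apply mem_of_superset hc
    intro x' hx'
    refine ⟨M, n, fun y hy => hx y (fun i hi => ?_)⟩
    rw [hy i hi, hx' i hi]
  have hVd : Dense V := by
    rw [dense_iff_inter_open]
    intro U hU hUne
    let S : ℕ → Set Cant := fun M => {x | lab x = k ∧ P x ∧ ∀ m ≥ M, F (seg x m)} ∩ U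
    have hex : ∃ M, ¬ IsMeagre (S M) := by
      by_contra hcon
      push Not at hcon
      have h1 : IsMeagre (⋃ M, S M) := isMeagre_iUnion hcon
      have h2 : IsMeagre ({x : Cant | lab x = k → P x}ᶜ) := by
        unfold IsMeagre
        rw [compl_compl]
        exact hP
      apply lab_nonmeagre k hU hUne
      apply (h1.union h2).mono
      rintro x ⟨hx1, hx2⟩
      by_cases hPx : P x
      · left
        obtain ⟨M, hM⟩ := hF x hx1 hPx
        exact mem_iUnion.mpr ⟨M, ⟨hx1, hPx, hM⟩, hx2⟩
      · right
        intro h
        exact hPx (h hx1)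
    obtain ⟨M, hM⟩ := hex
    have hnd : ¬ IsNowhereDense (S M) := fun h => hM h.isMeagre
    have hint : (interior (closure (S M))).Nonempty := by
      rw [IsNowhereDense] at hnd
      exact nonempty_iff_ne_empty.mpr hnd
    obtain ⟨w, hw⟩ := hint
    have hw' : w ∈ closure (S M) := interior_subset hw
    obtain ⟨z, hz1, hz2⟩ := mem_closure_iff.mp hw' _ isOpen_interior hw
    have hzU : z ∈ U := hz2.2
    obtain ⟨n, hn⟩ := cone_nhds isOpen_interior hz1
    refine ⟨z, hzU, M, n, ?_⟩
    intro y hy m hm
    have hyc : y ∈ closure (S M) := interior_subset (hn y hy)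
    obtain ⟨x, hx1, hx2⟩ := mem_closure_iff.mp hyc _ (isOpen_cone y m) (fun i _ => rfl)
    have hseg : seg y m = seg x m := by
      rw [seg_eq_iff]
      intro i hi
      exact (hx1 i hi).symm
    rw [hseg]
    exact hx2.1.2.2 m hm
  have hVr : V ∈ residual Cant := residual_of_dense_open hVo hVd
  filter_upwards [hVr] with x hx
  obtain ⟨M, n, hx⟩ := hx
  exact ⟨M, hx x (fun i _ => rfl)⟩

end Pool.Agent.R587.Sq
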