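import Mathlib
import Pool.Agent.R587.SqLabel

namespace Pool.Agent.R587.Sq

open Set Filter Topology TopologicalSpace

/-- the points of the space -/
inductive Pt : Type
  | inf : Pt
  | e (n : ℕ) (x : Cant) : Pt
  | nd (n b : ℕ) (t : List Bool) : Pt

/-- basic neighbourhoods of `inf` -/
def OO (K : ℕ) : Set Pt := fun p => match p with
  | .inf => True
  | .e n x => K ≤ n ∧ K ≤ lab x
  | .nd n b _ => K ≤ n ∧ K ≤ b

/-- openness -/
def opn (U : Set Pt) : Prop :=
  (∀ n x, Pt.e n x ∈ U → ∃ M, ∀ m ≥ M, Pt.nd n (lab x) (seg x m) ∈ U ∧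
    Pt.nd n (lab x + 1) (seg x m) ∈ U) ∧ (Pt.inf ∈ U → ∃ K, OO K ⊆ U)

theorem OO_anti {K L : ℕ} (h : K ≤ L) : OO L ⊆ OO K := by
  intro p hp
  cases p with
  | inf => trivial
  | e n x => exact ⟨h.trans hp.1, h.trans hp.2⟩
  | nd n b t => exact ⟨h.trans hp.1, h.trans hp.2⟩

instance : TopologicalSpace Pt where
  IsOpen := opn
  isOpen_univ := ⟨fun _ _ _ => ⟨0, fun _ _ => ⟨mem_univ _, mem_univ _⟩⟩,
    fun _ => ⟨0, subset_univ _⟩⟩
  isOpen_inter := by
    rintro U V ⟨hU1, hU2⟩ ⟨hV1, hV2⟩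
    constructor
    · rintro n x ⟨hx1, hx2⟩
      obtain ⟨M1, hM1⟩ := hU1 n x hx1
      obtain ⟨M2, hM2⟩ := hV1 n x hx2
      refine ⟨max M1 M2, fun m hm => ?_⟩
      have h1 := hM1 m (le_trans (le_max_left _ _) hm)
      have h2 := hM2 m (le_trans (le_max_right _ _) hm)
      exact ⟨⟨h1.1, h2.1⟩, ⟨h1.2, h2.2⟩⟩
    · rintro ⟨hx1, hx2⟩
      obtain ⟨K1, hK1⟩ := hU2 hx1
      obtain ⟨K2, hK2⟩ := hV2 hx2
      exact ⟨max K1 K2, subset_inter ((OO_anti (le_max_left _ _)).trans hK1)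
        ((OO_anti (le_max_right _ _)).trans hK2)⟩
  isOpen_sUnion := by
    intro S hS
    constructor
    · rintro n x ⟨U, hUS, hx⟩
      obtain ⟨M, hM⟩ := (hS U hUS).1 n x hx
      exact ⟨M, fun m hm => ⟨⟨U, hUS, (hM m hm).1⟩, ⟨U, hUS, (hM m hm).2⟩⟩⟩
    · rintro ⟨U, hUS, hx⟩
      obtain ⟨K, hK⟩ := (hS U hUS).2 hx
      exact ⟨K, fun p hp => ⟨U, hUS, hK hp⟩⟩

theorem isOpen_iff' {U : Set Pt} : IsOpen U ↔ opn U := Iff.rfl

theorem OO_open (K : ℕ) : IsOpen (OO K) := by
  rw [isOpen_iff']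
  constructor
  · rintro n x ⟨h1, h2⟩
    exact ⟨0, fun m _ => ⟨⟨h1, h2⟩, ⟨h1, h2.trans (Nat.le_succ _)⟩⟩⟩
  · intro _
    exact ⟨K, subset_rfl⟩

/-- closed set between `OO (K+1)` and `OO K` -/
def CO (K : ℕ) : Set Pt := fun p => match p with
  | .inf => True
  | .e n x => K + 1 ≤ n ∧ K ≤ lab x
  | .nd n b _ => K + 1 ≤ n ∧ K + 1 ≤ b

theorem CO_closed (K : ℕ) : IsClosed (CO K) := by
  rw [← isOpen_compl_iff, isOpen_iff']
  constructor
  · intro n x hx
    refine ⟨0, fun m _ => ⟨?_, ?_⟩⟩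
    · rintro ⟨h1, h2⟩
      exact hx ⟨h1, by omega⟩
    · rintro ⟨h1, h2⟩
      exact hx ⟨h1, by omega⟩
  · intro h
    exact absurd trivial h

theorem OO_sub_CO (K : ℕ) : OO (K+1) ⊆ CO K := by
  intro p hp
  cases p with
  | inf => trivial
  | e n x => exact ⟨hp.1, (Nat.le_succ K).trans hp.2⟩
  | nd n b t => exact hp

theorem CO_sub_OO (K : ℕ) : CO K ⊆ OO K := by
  intro p hp
  cases p with
  | inf => trivial
  | e n x => exact ⟨(Nat.le_succ K).trans hp.1, hp.2⟩
  | nd n b t => exact ⟨(Nat.le_succ K).trans hp.1, (Nat.le_succ K).trans hp.2⟩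

/-- slices -/
def Sl (n : ℕ) : Set Pt := fun p => match p with
  | .inf => False
  | .e n' _ => n' = n
  | .nd n' _ _ => n' = n

theorem Sl_clopen (n : ℕ) : IsClopen (Sl n) := by
  constructor
  · rw [← isOpen_compl_iff, isOpen_iff']
    constructor
    · intro n' x hx
      exact ⟨0, fun m _ => ⟨hx, hx⟩⟩
    · intro _
      refine ⟨n+1, ?_⟩
      intro p hp hp'
      cases p with
      | inf => exact hp'
      | e n' x =>
        have h1 : n + 1 ≤ n' := hp.1
        have h2 : n' = n := hp'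
        omega
      | nd n' b t =>
        have h1 : n + 1 ≤ n' := hp.1
        have h2 : n' = n := hp'
        omega
  · rw [isOpen_iff']
    constructor
    · intro n' x hx
      exact ⟨0, fun m _ => ⟨hx, hx⟩⟩
    · intro h
      exact absurd h id

/-- coordinates -/
def W (n i : ℕ) : Set Pt := fun p => match p with
  | .inf => False
  | .e n' x => n' = n ∧ x i = true
  | .nd n' _ t => n' = n ∧ t[i]? = some true

theorem W_clopen (n i : ℕ) : IsClopen (W n i) := by
  constructor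
  · rw [← isOpen_compl_iff, isOpen_iff']
    constructor
    · intro n' x hx
      refine ⟨i+1, fun m hm => ⟨?_, ?_⟩⟩
      · rintro ⟨h1, h2⟩
        rw [seg_get x (by omega)] at h2
        exact hx ⟨h1, Option.some.inj h2⟩
      · rintro ⟨h1, h2⟩
        rw [seg_get x (by omega)] at h2
        exact hx ⟨h1, Option.some.inj h2⟩
    · intro _
      refine ⟨n+1, ?_⟩
      intro p hp hp'
      cases p with
      | inf => exact hp'
      | e n' x =>
        have h1 : n + 1 ≤ n' := hp.1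
        have h2 : n' = n := hp'.1
        omega
      | nd n' b t =>
        have h1 : n + 1 ≤ n' := hp.1
        have h2 : n' = n := hp'.1
        omega
  · rw [isOpen_iff']
    constructor
    · rintro n' x ⟨h1, h2⟩
      refine ⟨i+1, fun m hm => ⟨⟨h1, ?_⟩, ⟨h1, ?_⟩⟩⟩
      · rw [seg_get x (by omega), h2]
      · rw [seg_get x (by omega), h2]
    · intro h
      exact absurd h id

theorem nd_clopen (n b : ℕ) (t : List Bool) : IsClopen ({Pt.nd n b t} : Set Pt) := by
  constructor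
  · rw [← isOpen_compl_iff, isOpen_iff']
    constructor
    · intro n' x _
      refine ⟨t.length + 1, fun m hm => ⟨?_, ?_⟩⟩
      · intro h
        rw [mem_singleton_iff, Pt.nd.injEq] at h
        have := congrArg List.length h.2.2
        rw [seg_length] at this
        omega
      · intro h
        rw [mem_singleton_iff, Pt.nd.injEq] at h
        have := congrArg List.length h.2.2
        rw [seg_length] at this
        omega
    · intro _
      refine ⟨n+1, ?_⟩
      intro p hp hp'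
      rw [mem_singleton_iff] at hp'
      subst hp'
      have h1 : n + 1 ≤ n := hp.1
      omega
  · rw [isOpen_iff']
    constructor
    · intro n' x h
      rw [mem_singleton_iff] at h
      cases h
    · intro h
      rw [mem_singleton_iff] at h
      cases h

/-- basic neighbourhoods of `e n x` -/
def Nb (n : ℕ) (x : Cant) (M : ℕ) : Set Pt := fun p => match p with
  | .inf => False
  | .e n' y => n' = n ∧ y = x
  | .nd n' b t => n' = n ∧ (b = lab x ∨ b = lab x + 1) ∧ ∃ m ≥ M, t = seg x m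

theorem Nb_open (n : ℕ) (x : Cant) (M : ℕ) : IsOpen (Nb n x M) := by
  rw [isOpen_iff']
  constructor
  · rintro n' y ⟨h1, h2⟩
    subst h1 h2
    exact ⟨M, fun m hm => ⟨⟨rfl, Or.inl rfl, m, hm, rfl⟩, ⟨rfl, Or.inr rfl, m, hm, rfl⟩⟩⟩
  · intro h
    exact absurd h id

theorem Nb_closed (n : ℕ) (x : Cant) (M : ℕ) : IsClosed (Nb n x M) := by
  rw [← isOpen_compl_iff, isOpen_iff']
  constructor
  · intro n' y hy
    by_cases hn : n' = n
    · have hxy : y ≠ x := fun h => hy ⟨hn, h⟩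
      obtain ⟨i, hi⟩ := Function.ne_iff.mp hxy
      have key : ∀ m ≥ i+1, ∀ m', seg y m ≠ seg x m' := by
        intro m hm m' h
        exact hi ((seg_eq h).2 i (by omega))
      refine ⟨i+1, fun m hm => ⟨?_, ?_⟩⟩
      · rintro ⟨_, _, m', _, h⟩
        exact key m hm m' h
      · rintro ⟨_, _, m', _, h⟩
        exact key m hm m' h
    · exact ⟨0, fun m _ => ⟨fun h => hn h.1, fun h => hn h.1⟩⟩
  · intro _
    refine ⟨n+1, ?_⟩
    intro p hp hp'
    cases p with
    | inf => exact hp'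
    | e n' x =>
      have h1 : n + 1 ≤ n' := hp.1
      have h2 : n' = n := hp'.1
      omega
    | nd n' b t =>
      have h1 : n + 1 ≤ n' := hp.1
      have h2 : n' = n := hp'.1
      omega

theorem Nb_sub {n : ℕ} {x : Cant} {U : Set Pt} (hU : IsOpen U) (hx : Pt.e n x ∈ U) :
    ∃ M, Nb n x M ⊆ U := by
  obtain ⟨M, hM⟩ := (isOpen_iff'.mp hU).1 n x hx
  refine ⟨M, ?_⟩
  intro p hp
  cases p with
  | inf => exact absurd hp id
  | e n' y =>
    obtain ⟨h1, h2⟩ := hp
    subst h1 h2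
    exact hx
  | nd n' b t =>
    obtain ⟨h1, h2, m, hm, h3⟩ := hp
    subst h1 h3
    rcases h2 with rfl | rfl
    · exact (hM m hm).1
    · exact (hM m hm).2

instance : RegularSpace Pt := by
  refine RegularSpace.of_exists_mem_nhds_isClosed_subset fun p s hs => ?_
  obtain ⟨U, hUs, hU, hpU⟩ := mem_nhds_iff.mp hs
  cases p with
  | inf =>
    obtain ⟨K, hK⟩ := (isOpen_iff'.mp hU).2 hpU
    refine ⟨CO K, ?_, CO_closed K, ((CO_sub_OO K).trans hK).trans hUs⟩
    exact mem_of_superset ((OO_open (K+1)).mem_nhds trivial) (OO_sub_CO K)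
  | e n x =>
    obtain ⟨M, hM⟩ := Nb_sub hU hpU
    exact ⟨Nb n x M, (Nb_open n x M).mem_nhds ⟨rfl, rfl⟩, Nb_closed n x M, hM.trans hUs⟩
  | nd n b t =>
    exact ⟨{Pt.nd n b t}, (nd_clopen n b t).isOpen.mem_nhds rfl, (nd_clopen n b t).isClosed,
      singleton_subset_iff.mpr (hUs hpU)⟩

/-- index type of the clopen family -/
abbrev Idx := ℕ ⊕ ((ℕ × ℕ) ⊕ (ℕ × ℕ × List Bool))

/-- the clopen family -/
def Cl : Idx → Set Pt
  | .inl n => Sl n
  | .inr (.inl (n, i)) => W n i
  | .inr (.inr (n, b, t)) => {Pt.nd n b t}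

theorem Cl_clopen (j : Idx) : IsClopen (Cl j) := by
  rcases j with n | ⟨n, i⟩ | ⟨n, b, t⟩
  · exact Sl_clopen n
  · exact W_clopen n i
  · exact nd_clopen n b t

theorem Cl_sep {p q : Pt} (h : ∀ j, p ∈ Cl j ↔ q ∈ Cl j) : p = q := by
  cases p with
  | inf =>
    cases q with
    | inf => rfl
    | e n x => exact absurd ((h (.inl n)).mpr rfl) id
    | nd n b t => exact absurd ((h (.inl n)).mpr rfl) id
  | e n x =>
    cases q with
    | inf => exact absurd ((h (.inl n)).mp rfl) id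
    | e n' x' =>
      have h1 : n' = n := (h (.inl n)).mp rfl
      subst h1
      congr 1
      funext i
      have h2 := h (.inr (.inl (n', i)))
      have h3 : x i = true ↔ x' i = true :=
        ⟨fun hh => (h2.mp ⟨rfl, hh⟩).2, fun hh => (h2.mpr ⟨rfl, hh⟩).2⟩
      revert h3
      generalize x i = a
      generalize x' i = b
      revert a b; decide
    | nd n' b t =>
      have h1 : Pt.e n x = Pt.nd n' b t := (h (.inr (.inr (n', b, t)))).mpr rfl
      cases h1
  | nd n b t =>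
    exact ((h (.inr (.inr (n, b, t)))).mp rfl).symm

theorem exists_family : ∃ C : ℕ → Set Pt, (∀ i, IsClopen (C i)) ∧
    ∀ x y, (∀ i, x ∈ C i ↔ y ∈ C i) → x = y := by
  obtain ⟨f, hf⟩ := exists_surjective_nat Idx
  refine ⟨fun i => Cl (f i), fun i => Cl_clopen _, fun x y h => Cl_sep fun j => ?_⟩
  obtain ⟨i, rfl⟩ := hf j
  exact h i

instance : T0Space Pt := by
  refine ⟨fun p q hpq => Cl_sep fun j => ?_⟩
  exact hpq.mem_open_iff (Cl_clopen j).isOpen

instance : T3Space Pt := ⟨⟩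

theorem sepPt : SeparableSpace Pt := by
  refine ⟨⟨range (fun j : ℕ × ℕ × List Bool => Pt.nd j.1 j.2.1 j.2.2), countable_range _, ?_⟩⟩
  rw [dense_iff_inter_open]
  rintro U hU ⟨p, hp⟩
  cases p with
  | inf =>
    obtain ⟨K, hK⟩ := (isOpen_iff'.mp hU).2 hp
    exact ⟨Pt.nd K K [], hK ⟨le_rfl, le_rfl⟩, ⟨(K, K, []), rfl⟩⟩
  | e n x =>
    obtain ⟨M, hM⟩ := (isOpen_iff'.mp hU).1 n x hp
    exact ⟨Pt.nd n (lab x) (seg x M), (hM M le_rfl).1, ⟨(n, lab x, seg x M), rfl⟩⟩
  | nd n b t => exact ⟨Pt.nd n b t, hp, ⟨(n, b, t), rfl⟩⟩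

/-- the closed set which cannot be separated from `inf` -/
def BB : Set Pt := fun p => match p with
  | .inf => False
  | .e _ x => lab x = 0
  | .nd _ _ _ => False

theorem BB_closed : IsClosed BB := by
  rw [← isOpen_compl_iff, isOpen_iff']
  constructor
  · intro n x _
    exact ⟨0, fun m _ => ⟨fun h => h, fun h => h⟩⟩
  · intro _
    refine ⟨1, ?_⟩
    intro p hp hp'
    cases p with
    | inf => exact hp'
    | e n x =>
      have h1 : 1 ≤ lab x := hp.2
      have h2 : lab x = 0 := hp'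
      omega
    | nd n b t => exact hp'

theorem tendsto_a (n : ℕ) (x : Cant) :
    Tendsto (fun m => Pt.nd n (lab x) (seg x m)) atTop (𝓝 (Pt.e n x)) := by
  rw [tendsto_nhds]
  intro U hU hx
  obtain ⟨M, hM⟩ := (isOpen_iff'.mp hU).1 n x hx
  filter_upwards [eventually_ge_atTop M] with m hm
  exact (hM m hm).1

theorem tendsto_b (n : ℕ) (x : Cant) :
    Tendsto (fun m => Pt.nd n (lab x + 1) (seg x m)) atTop (𝓝 (Pt.e n x)) := by
  rw [tendsto_nhds]
  intro U hU hx
  obtain ⟨M, hM⟩ := (isOpen_iff'.mp hU).1 n x hx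
  filter_upwards [eventually_ge_atTop M] with m hm
  exact (hM m hm).2

theorem ncr : ¬ CompletelyRegularSpace Pt := by
  intro hcr
  obtain ⟨f, hfc, hf0, hf1⟩ := hcr.completely_regular Pt.inf BB BB_closed id
  let φ : Pt → ℝ := fun p => (f p : ℝ)
  have hφc : Continuous φ := continuous_subtype_val.comp hfc
  have hφ0 : φ Pt.inf = 0 := by
    show ((f Pt.inf : unitInterval) : ℝ) = 0
    rw [hf0]; rfl
  have hφ1 : ∀ n x, lab x = 0 → φ (Pt.e n x) = 1 := by
    intro n x hx
    have h := hf1 (show Pt.e n x ∈ BB from hx)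
    show ((f (Pt.e n x) : unitInterval) : ℝ) = 1
    rw [h]; rfl
  have hle : ∀ p, φ p ≤ 1 := fun p => (f p).2.2
  have hopen : IsOpen {p | φ p < 1/2} := isOpen_lt hφc continuous_const
  obtain ⟨K, hK⟩ := (isOpen_iff'.mp hopen).2 (by
    show φ Pt.inf < 1/2
    rw [hφ0]; norm_num)
  have claim : ∀ k, ∀ᶠ x in residual Cant, lab x = k → φ (Pt.e K x) = 1 := by
    intro k
    induction k with
    | zero => exact Filter.Eventually.of_forall fun x hx => hφ1 K x hx
    | succ k ih =>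
      have hstep : ∀ j : ℕ, ∀ᶠ x in residual Cant, ∃ M, ∀ m ≥ M,
          1 - 1 / ((j:ℝ)+1) < φ (Pt.nd K (k+1) (seg x m)) := by
        intro j
        apply baire_step k (fun x => φ (Pt.e K x) = 1) ih
          (fun t => 1 - 1 / ((j:ℝ)+1) < φ (Pt.nd K (k+1) t))
        intro x hx hx1
        have ht : Tendsto (fun m => φ (Pt.nd K (lab x + 1) (seg x m))) atTop
            (𝓝 (φ (Pt.e K x))) := (hφc.tendsto _).comp (tendsto_b K x)
        rw [hx, hx1] at ht
        have hlt : 1 - 1 / ((j:ℝ)+1) < 1 := by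
          have : (0:ℝ) < 1 / ((j:ℝ)+1) := by positivity
          linarith
        have hev := ht.eventually_const_lt hlt
        exact eventually_atTop.mp hev
      have hall : ∀ᶠ x in residual Cant, ∀ j : ℕ, ∃ M, ∀ m ≥ M,
          1 - 1 / ((j:ℝ)+1) < φ (Pt.nd K (k+1) (seg x m)) := by
        rw [eventually_countable_forall]
        exact hstep
      filter_upwards [hall] with x hx hlab
      apply le_antisymm (hle _)
      have ht : Tendsto (fun m => φ (Pt.nd K (lab x) (seg x m))) atTop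
          (𝓝 (φ (Pt.e K x))) := (hφc.tendsto _).comp (tendsto_a K x)
      rw [hlab] at ht
      have hge : ∀ j : ℕ, 1 - 1 / ((j:ℝ)+1) ≤ φ (Pt.e K x) := by
        intro j
        obtain ⟨M, hM⟩ := hx j
        apply ge_of_tendsto ht
        filter_upwards [eventually_ge_atTop M] with m hm
        exact (hM m hm).le
      have hlim : Tendsto (fun j : ℕ => 1 - 1 / ((j:ℝ)+1)) atTop (𝓝 (1 - 0)) :=
        tendsto_const_nhds.sub tendsto_one_div_add_atTop_nhds_zero_nat
      rw [sub_zero] at hlim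
      exact le_of_tendsto' hlim hge
  have hne : ({x | lab x = K} ∩ univ : Set Cant) ∩ {x | lab x = K → φ (Pt.e K x) = 1} ≠ ∅ := by
    intro hemp
    apply lab_nonmeagre K isOpen_univ ⟨fun _ => true, mem_univ _⟩
    apply IsMeagre.mono (s := {x | lab x = K → φ (Pt.e K x) = 1}ᶜ)
    · intro x hx hx'
      have : x ∈ (∅ : Set Cant) := by
        rw [← hemp]; exact ⟨hx, hx'⟩
      exact this
    · unfold IsMeagre
      rw [compl_compl]
      exact claim K
  obtain ⟨x, ⟨hx1, _⟩, hx2⟩ := nonempty_iff_ne_empty.mpr hne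
  have h1 : φ (Pt.e K x) = 1 := hx2 hx1
  have h2 : Pt.e K x ∈ OO K := ⟨le_rfl, le_of_eq hx1.symm⟩
  have h3 : φ (Pt.e K x) < 1/2 := hK h2
  rw [h1] at h3
  norm_num at h3

end Pool.Agent.R587.Sq
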