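import Pool.Agent.R587.Core

/-!
# The theorem on coherent sequences
-/

set_option autoImplicit false

namespace Pool.Agent.R587

open Pool.Agent.W868
open ZFSet (pair)
open Cardinal

section

variable {c : Cardinal.{0}} {M : Set ZFSet.{0}} {lt : ZFSet.{0} → ZFSet.{0} → Prop}

theorem Full.JS_mem (hM : Full c M) {N : Set ZFSet.{0}} {b : ZFSet.{0}} : JS N b ∈ M :=
  hM.sub hM.omega_mem JS_sub

theorem Full.Sf_mem (hM : Full c M) {e : ZFSet.{0}} (he : e ∈ M) : Sf M e ∈ M := by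
  rw [Sf, wfF_eq, ← Sf]
  refine hM.im_mem (hM.im_mem (hM.pr_mem he) (h := fun u => pair u (Sf M u)) ?_) ?_
  · intro d hd
    have h1 := hM.fo_mem he hd
    refine hM.pair_mem h1 ?_
    rw [Sf, wfF_eq, ← Sf]
    refine (hM.iff _).2 ⟨fun p hp => ?_, ?_⟩
    · obtain ⟨q, hq, rfl⟩ := mem_im.1 hp
      obtain ⟨d', hd', rfl⟩ := mem_gr.1 hq
      rw [fs_pair]
      exact hM.pair_mem (hM.fo_mem h1 hd') hM.JS_mem
    · refine card_im_le.trans (card_im_le.trans (hM.card (hM.pr_mem h1)))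
  · intro p hp
    obtain ⟨d, hd, rfl⟩ := mem_gr.1 hp
    rw [fs_pair]
    exact hM.pair_mem (hM.fo_mem he hd) hM.JS_mem

/-- The restriction of a sequence. -/
noncomputable def rst (s d : ZFSet.{0}) : ZFSet.{0} := ZFSet.sep (fun p => fs p ∈ pr d) s

theorem Full.rst' (hM : Full c M) {S : Set ZFSet.{0}} {n : ℕ}
    {F G : (Fin n → ZFSet.{0}) → ZFSet.{0}} (hF : DfnF S M F) (hG : DfnF S M G) :
    DfnF S M fun v => rst (F v) (G v) := by
  refine hM.sep' (Q := fun p v => fs p ∈ pr (G v)) hF ?_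
  exact Dfn.mem (hM.fs' (DfnF.proj 0)) (hM.pr' hG.tail)

theorem rst_Sf {e d : ZFSet.{0}} (h : d ∈ pr e) : rst (Sf M e) d = Sf M d := by
  ext p
  rw [rst, ZFSet.mem_sep, mem_Sf, mem_Sf]
  constructor
  · rintro ⟨⟨d', h1, rfl⟩, h2⟩
    rw [fs_pair] at h2
    exact ⟨d', h2, rfl⟩
  · rintro ⟨d', h1, rfl⟩
    exact ⟨⟨d', pr_trans h1 h, rfl⟩, by rwa [fs_pair]⟩

/-- The index of a coherent sequence. -/
noncomputable def idx (M : Set ZFSet.{0}) (lt : ZFSet.{0} → ZFSet.{0} → Prop) (s : ZFSet.{0}) :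
    ZFSet.{0} :=
  lst M lt fun y => FO y ∧ (¬ ∃ z ∈ M, pair y z ∈ s) ∧ ∀ d ∈ pr y, ∃ z ∈ M, pair d z ∈ s

theorem Setg.op_idx (hS : Setg c M lt) : Op M (idx M lt) := by
  have hM := hS.full
  have hB := hM.base
  have h : Dfn ∅ M fun w : Fin 2 → ZFSet.{0} => FO (w 0) ∧ (¬ ∃ z ∈ M, pair (w 0) z ∈ w 1) ∧
      ∀ d ∈ pr (w 0), ∃ z ∈ M, pair d z ∈ w 1 := by
    apply Dfn.and (hM.fo' (DfnF.proj 0))
    apply Dfn.and
    · apply Dfn.not
      apply Dfn.ex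
      exact Dfn.mem (hB.pair' (DfnF.proj 1) (DfnF.proj 0)) (DfnF.proj 2)
    · apply hB.ball (hM.pr' (DfnF.proj 0))
      apply Dfn.ex
      exact Dfn.mem (hB.pair' (DfnF.proj 1) (DfnF.proj 0)) (DfnF.proj 3)
  exact hS.wo.dfn_lst hM (Q := fun y v => FO y ∧ (¬ ∃ z ∈ M, pair y z ∈ v 0) ∧
    ∀ d ∈ pr y, ∃ z ∈ M, pair d z ∈ v 0) h

theorem Setg.idx_Sf (hS : Setg c M lt) {e : ZFSet.{0}} (he : FO e) (heM : e ∈ M) :
    idx M lt (Sf M e) = e := by
  have hM := hS.full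
  have hmem : ∀ d, (∃ z ∈ M, pair d z ∈ Sf M e) ↔ d ∈ pr e := by
    intro d
    constructor
    · rintro ⟨z, -, hz⟩
      obtain ⟨d', h1, h2⟩ := mem_Sf.1 hz
      rw [(ZFSet.pair_inj.1 h2).1]
      exact h1
    · intro hd
      exact ⟨_, hM.JS_mem, mem_Sf.2 ⟨d, hd, rfl⟩⟩
  have huniq : ∀ y, FO y → (¬ ∃ z ∈ M, pair y z ∈ Sf M e) →
      (∀ d ∈ pr y, ∃ z ∈ M, pair d z ∈ Sf M e) → y = e := by
    intro y h1 h2 h3
    rw [hmem] at h2
    rcases clx_tri h1 he with h | h | h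
    · exact absurd (mem_pr.2 ⟨h1, he, h⟩) h2
    · exact h
    · have h4 := (hmem e).1 (h3 e (mem_pr.2 ⟨he, h1, h⟩))
      exact absurd (mem_pr.1 h4).2.2 clx_irrefl
  refine hS.wo.lst_eq heM ⟨he, ?_, fun d hd => (hmem d).2 hd⟩ ?_
  · rw [hmem]
    exact fun h => clx_irrefl (mem_pr.1 h).2.2
  · intro y hy ⟨h1, h2, h3⟩ h4
    rw [huniq y h1 h2 h3] at h4
    exact hS.wo.asymm heM heM h4 h4

theorem Setg.idx_hul (hS : Setg c M lt) {e : ZFSet.{0}} (he : FO e) (heM : e ∈ M) :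
    e ∈ Hul M (Sf M e) := ⟨_, hS.op_idx, (hS.idx_Sf he heM).symm⟩

/-- The subsets of a finite set of ordinals are definable from it. -/
theorem Setg.fo_sub (hS : Setg c M lt) : ∀ e, FO e → e ∈ M → ∀ d, d ⊆ e → d ∈ Hul M e := by
  have hM := hS.full
  have hB := hM.base
  intro e
  induction e using pr_wf.induction with
  | _ e ih =>
  intro he heM d hd
  by_cases hde : d = e
  · exact hde ▸ hul_self
  have hne : ∃ y, y ∈ e := by
    by_contra h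
    apply hde
    ext y
    exact iff_of_false (fun h1 => h ⟨y, hd h1⟩) fun h1 => h ⟨y, h1⟩
  have hl : Op M fun e => lst M lt fun y => y ∈ e :=
    hS.wo.dfn_lst hM (Q := fun y v => y ∈ v 0) (Dfn.mem (DfnF.proj 0) (DfnF.proj 1))
  obtain ⟨y, hy⟩ := hne
  obtain ⟨hμM, hμ, -⟩ := hS.wo.lst_spec (P := fun y => y ∈ e) ⟨y, hM.trans heM hy, hy⟩
  set μ := lst M lt fun y => y ∈ e with hμdef
  have hs : DfnF ∅ M fun v : Fin 2 → ZFSet.{0} => ZFSet.sep (fun y => y ≠ v 1) (v 0) :=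
    hM.sep' (Q := fun y v => y ≠ v 1) (DfnF.proj 0) (Dfn.eq (DfnF.proj 0) (DfnF.proj 2)).not
  have hμe : μ ∈ Hul M e := ⟨_, hl, rfl⟩
  set e' := ZFSet.sep (fun y => y ≠ μ) e with he'
  have he'e : e' ∈ Hul M e := hul_op2 (f := fun x m => ZFSet.sep (fun y => y ≠ m) x) hs hul_self hμe
  have he'o : FO e' := he.sub fun y hy => (ZFSet.mem_sep.1 hy).1
  have hpr : e' ∈ pr e := by
    refine mem_pr.2 ⟨he'o, he, μ, hμ, fun h => (ZFSet.mem_sep.1 h).2 rfl, fun κ hκ => ?_⟩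
    rw [he', ZFSet.mem_sep]
    exact ⟨fun h => h.1, fun h => ⟨h, fun h1 => ZFSet.mem_irrefl _ (h1 ▸ hκ)⟩⟩
  have h1 : ZFSet.sep (fun y => y ≠ μ) d ∈ Hul M e := by
    refine hul_trans (ih e' hpr he'o (hul_mem heM he'e) _ fun y hy => ?_) he'e
    rw [ZFSet.mem_sep] at hy ⊢
    exact ⟨hd hy.1, hy.2⟩
  by_cases hμd : μ ∈ d
  · have h2 : d = insert μ (ZFSet.sep (fun y => y ≠ μ) d) := by
      ext y
      rw [ZFSet.mem_insert_iff, ZFSet.mem_sep]
      constructor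
      · intro hy
        by_cases h3 : y = μ
        · exact Or.inl h3
        · exact Or.inr ⟨hy, h3⟩
      · rintro (rfl | h3)
        · exact hμd
        · exact h3.1
    rw [h2]
    exact hul_op2 (f := fun a b => (insert a b : ZFSet.{0})) (hB.insert' (DfnF.proj 0)
      (DfnF.proj 1)) hμe h1
  · have h2 : d = ZFSet.sep (fun y => y ≠ μ) d := by
      ext y
      rw [ZFSet.mem_sep]
      exact ⟨fun hy => ⟨hy, fun h3 => hμd (h3 ▸ hy)⟩, fun h => h.1⟩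
    rw [h2]
    exact h1

theorem hul_union (hM : Full c M) {a x y : ZFSet.{0}} (hx : x ∈ Hul M a) (hy : y ∈ Hul M a) :
    x ∪ y ∈ Hul M a :=
  hul_op2 (f := fun a b => a ∪ b) (hM.base.union' (DfnF.proj 0) (DfnF.proj 1)) hx hy

theorem clx_of_ssub {d e : ZFSet.{0}} (he : FO e) (hd : FO d) (h : d ⊆ e) (hne : d ≠ e) :
    clx d e := by
  rcases clx_tri hd he with h1 | h1 | ⟨ν, h2, h3, -⟩
  · exact h1
  · exact absurd h1 hne
  · exact absurd (h h2) h3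

/-- Coherent sequences with a smaller index set. -/
theorem Setg.Sf_sub (hS : Setg c M lt) {e d : ZFSet.{0}} (he : FO e) (heM : e ∈ M)
    (hd : d ⊆ e) : Sf M d ∈ Hul M (Sf M e) := by
  by_cases hne : d = e
  · exact hne ▸ hul_self
  have hdo := he.sub hd
  have h1 : d ∈ Hul M (Sf M e) := hul_trans (hS.fo_sub e he heM d hd) (hS.idx_hul he heM)
  have h2 := rst_Sf (M := M) (mem_pr.2 ⟨hdo, he, clx_of_ssub he hdo hd hne⟩)
  rw [← h2]
  exact hul_op2 (f := rst) (hS.full.rst' (DfnF.proj 0) (DfnF.proj 1)) hul_self h1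

/-! ### The recursion in a smaller model -/

/-- The sequence computed in `P`. -/
noncomputable def Rf (P x e : ZFSet.{0}) : ZFSet.{0} → ZFSet.{0} :=
  wfF pr pr_wf fun _ g => JJ P (x ∪ im (fun p => pair (e ∪ fs p) (sn p)) g)

theorem Rf_eq (P x e r : ZFSet.{0}) : Rf P x e r =
    JJ P (x ∪ im (fun p => pair (e ∪ fs p) (sn p)) (gr (Rf P x e) (pr r))) := by
  rw [Rf, wfF_eq]

/-- Shift of a sequence. -/
noncomputable def shf (x e g : ZFSet.{0}) : ZFSet.{0} :=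
  x ∪ im (fun p => pair (e ∪ fs p) (sn p)) g

theorem Full.shf' (hM : Full c M) {S : Set ZFSet.{0}} {n : ℕ}
    {F G H : (Fin n → ZFSet.{0}) → ZFSet.{0}} (hF : DfnF S M F) (hG : DfnF S M G)
    (hH : DfnF S M H) : DfnF S M fun v => shf (F v) (G v) (H v) := by
  refine hM.base.union' hF (hM.im' (h := fun p v => pair (G v ∪ fs p) (sn p)) hH ?_)
  exact hM.base.pair' (hM.base.union' hG.tail (hM.fs' (DfnF.proj 0))) (hM.sn' (DfnF.proj 0))

theorem mem_shf {x e g u : ZFSet.{0}} :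
    u ∈ shf x e g ↔ u ∈ x ∨ ∃ p ∈ g, u = pair (e ∪ fs p) (sn p) := by
  rw [shf, ZFSet.mem_union, mem_im]

theorem mem_shf_gr {x e f u r : ZFSet.{0}} {F : ZFSet.{0} → ZFSet.{0}} :
    u ∈ shf x e (gr F r) ↔ u ∈ x ∨ ∃ d ∈ r, u = pair (e ∪ d) (F d) := by
  rw [mem_shf]
  constructor
  · rintro (h | ⟨p, hp, rfl⟩)
    · exact Or.inl h
    · obtain ⟨d, hd, rfl⟩ := mem_gr.1 hp
      exact Or.inr ⟨d, hd, by rw [fs_pair, sn_pair]⟩
  · rintro (h | ⟨d, hd, rfl⟩)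
    · exact Or.inl h
    · exact Or.inr ⟨_, mem_gr.2 ⟨d, hd, rfl⟩, by rw [fs_pair, sn_pair]⟩

/-- The sequence for a larger index. -/
theorem Sf_union {e r : ZFSet.{0}} (he : FO e) (hr : FO r) (h : ∀ ξ ∈ e, ∀ μ ∈ r, μ ∈ ξ)
    {F : ZFSet.{0} → ZFSet.{0}} (hF : ∀ d ∈ pr r, F d = JS M (Sf M (e ∪ d))) :
    Sf M (e ∪ r) = shf (Sf M e) e (gr F (pr r)) := by
  ext u
  rw [mem_shf_gr (f := ∅), mem_Sf, mem_Sf]
  constructor
  · rintro ⟨d, hd, rfl⟩
    rcases (pr_union he hr h d).1 hd with h1 | ⟨r', h1, rfl⟩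
    · exact Or.inl ⟨d, h1, rfl⟩
    · exact Or.inr ⟨r', h1, by rw [hF r' h1]⟩
  · rintro (⟨d, hd, rfl⟩ | ⟨r', h1, rfl⟩)
    · exact ⟨d, (pr_union he hr h d).2 (Or.inl hd), rfl⟩
    · exact ⟨e ∪ r', (pr_union he hr h _).2 (Or.inr ⟨r', h1, rfl⟩), by rw [hF r' h1]⟩

theorem rst_gr {F : ZFSet.{0} → ZFSet.{0}} {r ν : ZFSet.{0}} (h : r ∈ pr ν) :
    rst (gr F (pr ν)) r = gr F (pr r) := by
  ext p
  rw [rst, ZFSet.mem_sep, mem_gr, mem_gr]
  constructor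
  · rintro ⟨⟨d, hd, rfl⟩, h1⟩
    rw [fs_pair] at h1
    exact ⟨d, h1, rfl⟩
  · rintro ⟨d, hd, rfl⟩
    exact ⟨⟨d, pr_trans hd h, rfl⟩, by rwa [fs_pair]⟩

theorem Setg.RR' (hS : Setg c M lt) : DfnF ∅ M fun v : Fin 4 → ZFSet.{0} =>
    gr (Rf (v 1) (v 2) (v 3)) (pr (v 0)) := by
  have hM := hS.full
  have hB := hM.base
  refine DfnF.of_unique (R := fun y v =>
    (∀ p ∈ y, ∃ r ∈ pr (v 0), p = pair r (JJ (v 1) (shf (v 2) (v 3) (rst y r)))) ∧
    ∀ r ∈ pr (v 0), pair r (JJ (v 1) (shf (v 2) (v 3) (rst y r))) ∈ y) ?_ ?_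
  · apply Dfn.and
    · apply hB.ball (DfnF.proj 0)
      apply hB.bex (hM.pr' (DfnF.proj 2))
      apply Dfn.eq (DfnF.proj 1)
      apply hB.pair' (DfnF.proj 0)
      exact DfnF.comp2 (f := JJ) hS.jj (DfnF.proj 4)
        (hM.shf' (DfnF.proj 5) (DfnF.proj 6) (hM.rst' (DfnF.proj 2) (DfnF.proj 0)))
    · apply hB.ball (hM.pr' (DfnF.proj 1))
      apply Dfn.mem _ (DfnF.proj 1)
      apply hB.pair' (DfnF.proj 0)
      exact DfnF.comp2 (f := JJ) hS.jj (DfnF.proj 3)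
        (hM.shf' (DfnF.proj 4) (DfnF.proj 5) (hM.rst' (DfnF.proj 1) (DfnF.proj 0)))
  · intro v hv
    have hJ : ∀ r, Rf (v 1) (v 2) (v 3) r ∈ M := by
      intro r
      rw [Rf_eq]
      exact hM.JS_mem
    refine ⟨hM.im_mem (hM.pr_mem (hv 0)) fun r hr => hM.pair_mem (hM.fo_mem (hv 0) hr) (hJ r),
      fun y hy => ?_⟩
    constructor
    · rintro ⟨h1, h2⟩
      have key : ∀ r, r ∈ pr (v 0) → ∀ z, pair r z ∈ y → z = Rf (v 1) (v 2) (v 3) r := by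
        intro r
        induction r using pr_wf.induction with
        | _ r ih =>
        intro hr z hz
        obtain ⟨r', h3, h4⟩ := h1 _ hz
        obtain ⟨rfl, rfl⟩ := ZFSet.pair_inj.1 h4
        rw [Rf_eq]
        congr 1
        rw [shf]
        congr 2
        ext p
        rw [rst, ZFSet.mem_sep, mem_gr]
        constructor
        · rintro ⟨h5, h6⟩
          obtain ⟨d, hd, rfl⟩ := h1 _ h5
          rw [fs_pair] at h6
          exact ⟨d, h6, by rw [← ih d h6 (pr_trans h6 hr) _ h5]⟩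
        · rintro ⟨d, hd, rfl⟩
          have h5 := h2 d (pr_trans hd hr)
          have h6 := ih d hd (pr_trans hd hr) _ h5
          rw [h6] at h5
          exact ⟨h5, by rwa [fs_pair]⟩
      ext p
      rw [mem_gr]
      constructor
      · intro hp
        obtain ⟨r, hr, rfl⟩ := h1 p hp
        exact ⟨r, hr, by rw [← key r hr _ hp]⟩
      · rintro ⟨r, hr, rfl⟩
        have h5 := h2 r hr
        rwa [key r hr _ h5] at h5
    · rintro rfl
      have key : ∀ r ∈ pr (v 0), JJ (v 1) (shf (v 2) (v 3)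
          (rst (gr (Rf (v 1) (v 2) (v 3)) (pr (v 0))) r)) = Rf (v 1) (v 2) (v 3) r := by
        intro r hr
        rw [rst_gr hr, Rf_eq, shf]
      constructor
      · intro p hp
        obtain ⟨r, hr, rfl⟩ := mem_gr.1 hp
        exact ⟨r, hr, by rw [key r hr]⟩
      · intro r hr
        rw [key r hr]
        exact mem_gr.2 ⟨r, hr, rfl⟩

end

end Pool.Agent.R587
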