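import Pool.Agent.R587.ThmA

/-!
# The theorem on coherent sequences: the main argument
-/

set_option autoImplicit false

namespace Pool.Agent.R587

open Pool.Agent.W868
open ZFSet (pair)
open Cardinal

section

variable {c : Cardinal.{0}} {M : Set ZFSet.{0}} {lt : ZFSet.{0} → ZFSet.{0} → Prop}

theorem eq_of_sub_omega {x y : ZFSet.{0}} (hx : x ⊆ ZFSet.omega) (hy : y ⊆ ZFSet.omega)
    (h : ∀ n, nat n ∈ x ↔ nat n ∈ y) : x = y := by
  ext z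
  constructor
  · intro hz
    obtain ⟨n, rfl⟩ := mem_omega_iff.1 (hx hz)
    exact (h n).1 hz
  · intro hz
    obtain ⟨n, rfl⟩ := mem_omega_iff.1 (hy hz)
    exact (h n).2 hz

theorem dfn_mem_JS (hG : GSF) (hM : Full c M) (n : ℕ) :
    Dfn ∅ M fun v : Fin 1 → ZFSet.{0} => nat n ∈ JS M (v 0) := by
  obtain ⟨φ, hφ⟩ := hG n
  rw [dfn_iff]
  refine ⟨φ, fun v hv => ?_⟩
  rw [nat_mem_JS, ← hφ M hM.base.trans hM.empty_mem (v 0) (hv 0)]
  have h : (![v 0] : Fin 1 → ZFSet.{0}) = v := by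
    funext i
    fin_cases i
    rfl
  rw [h]

/-- The situation in the proof: two elementary classes `H ⊆ K`, and in `K` the preimages `P`,
`x`, `e'` of the collapse of `H` and of the images of `Sf M e` and `e`. -/
structure Sit (c : Cardinal.{0}) (M : Set ZFSet.{0}) (lt : ZFSet.{0} → ZFSet.{0} → Prop)
    (H K ν e P x e' : ZFSet.{0}) : Prop where
  set : Setg c M lt
  hH : TV M {x | x ∈ H}
  hK : TV M {x | x ∈ K}
  sub : H ⊆ K
  ord : ν.IsOrdinal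
  eo : FO e
  low : ∀ ξ ∈ e, ν ∈ ξ
  eH : e ∈ H
  νK : ν ∈ K
  inH1 : ∀ r ∈ pr {ν}, r ∈ K → e ∪ r ∈ H
  inH2 : ∀ r ∈ pr {ν}, r ∈ K → Sf M (e ∪ r) ∈ H
  hP : P ∈ K
  hx : x ∈ K
  he' : e' ∈ K
  cP : col K P = im (col H) H
  cx : col K x = col H (Sf M e)
  ce : col K e' = col H e

namespace Sit

variable {H K ν e P x e' : ZFSet.{0}} (s : Sit c M lt H K ν e P x e')

include s

theorem eM : e ∈ M := s.hH.1 s.eH

theorem disj {r : ZFSet.{0}} (hr : r ∈ pr {ν}) : r = ZFSet.sep (fun y => y ∉ e) (e ∪ r) := by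
  have h1 := (mem_pr_single s.ord).1 hr
  ext y
  rw [ZFSet.mem_sep, ZFSet.mem_union]
  constructor
  · intro hy
    exact ⟨Or.inr hy, fun h => ZFSet.mem_asymm (h1.2 hy) (s.low y h)⟩
  · rintro ⟨h | h, h'⟩
    · exact absurd h h'
    · exact h

theorem dfn_diff : DfnF ∅ M fun v : Fin 2 → ZFSet.{0} => ZFSet.sep (fun y => y ∉ v 0) (v 1) :=
  s.set.full.sep' (Q := fun y v => y ∉ v 0) (DfnF.proj 1)
    (Dfn.mem (DfnF.proj 0) (DfnF.proj 1)).not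

theorem of_union {X : ZFSet.{0}} (hX : TV M {x | x ∈ X}) (heX : e ∈ X) {r : ZFSet.{0}}
    (hr : r ∈ pr {ν}) (h : e ∪ r ∈ X) : r ∈ X := by
  rw [s.disj hr]
  exact hX.opN (F := fun v : Fin 2 → ZFSet.{0} => ZFSet.sep (fun y => y ∉ v 0) (v 1)) s.dfn_diff
    (v := ![e, e ∪ r]) (by
      intro i
      fin_cases i
      · exact heX
      · exact h)

theorem rH {r : ZFSet.{0}} (hr : r ∈ pr {ν}) (hrK : r ∈ K) : r ∈ H :=
  s.of_union s.hH s.eH hr (s.inH1 r hr hrK)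

theorem single_pr {μ : ZFSet.{0}} (hμ : μ ∈ ν) : {μ} ∈ pr {ν} :=
  (mem_pr_single s.ord).2 ⟨FO.single (s.ord.mem hμ), fun y hy => by
    rw [ZFSet.mem_singleton] at hy
    exact hy ▸ hμ⟩

theorem μH {μ : ZFSet.{0}} (hμ : μ ∈ ν) (hμK : μ ∈ K) : μ ∈ H := by
  have hM := s.set.full
  have h1 : ({μ} : ZFSet.{0}) ∈ K := by
    have := s.hK.upair_mem hM hμK hμK
    rwa [ZFSet.pair_eq_singleton] at this
  have h2 := s.rH (s.single_pr hμ) h1
  have h3 := s.hH.opN (F := fun v : Fin 1 → ZFSet.{0} => (ZFSet.sUnion (v 0) : ZFSet.{0}))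
    (hM.base.sUnion' (DfnF.proj 0)) (v := ![{μ}]) (by
      intro i
      fin_cases i
      exact h2)
  have h4 : (ZFSet.sUnion ((![{μ}] : Fin 1 → ZFSet.{0}) 0) : ZFSet.{0}) = μ :=
    ZFSet.sUnion_singleton
  rwa [h4] at h3

theorem col_low : ∀ μ ∈ ν, col H μ = col K μ := by
  intro μ
  induction μ using ZFSet.inductionOn with
  | _ μ ih =>
  intro hμ
  ext z
  rw [mem_col, mem_col]
  constructor
  · rintro ⟨u, hu, hu', rfl⟩
    exact ⟨u, hu, s.sub hu', ih u hu (s.ord.mem_trans hu hμ)⟩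
  · rintro ⟨u, hu, hu', rfl⟩
    exact ⟨u, hu, s.μH (s.ord.mem_trans hu hμ) hu', (ih u hu (s.ord.mem_trans hu hμ)).symm⟩

theorem col_r {r : ZFSet.{0}} (hr : r ∈ pr {ν}) : col H r = col K r := by
  have h1 := ((mem_pr_single s.ord).1 hr).2
  ext z
  rw [mem_col, mem_col]
  constructor
  · rintro ⟨u, hu, hu', rfl⟩
    exact ⟨u, hu, s.sub hu', s.col_low u (h1 hu)⟩
  · rintro ⟨u, hu, hu', rfl⟩
    exact ⟨u, hu, s.μH (h1 hu) hu', (s.col_low u (h1 hu)).symm⟩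

theorem preM {r : ZFSet.{0}} (hr : r ∈ pr {ν}) (hrK : r ∈ K) : e ∪ r ∈ M :=
  s.hH.1 (s.inH1 r hr hrK)

theorem foU {r : ZFSet.{0}} (hr : r ∈ pr {ν}) : FO (e ∪ r) :=
  s.eo.union ((mem_pr_single s.ord).1 hr).1

theorem lowr {r : ZFSet.{0}} (hr : r ∈ pr {ν}) : ∀ ξ ∈ e, ∀ μ ∈ r, μ ∈ ξ := fun ξ hξ _ hμ =>
  (s.eo.1 ξ hξ).mem_trans (((mem_pr_single s.ord).1 hr).2 hμ) (s.low ξ hξ)

/-- The sequence `Rf` in `K`. -/
theorem RRK : gr (Rf P x e') (pr {ν}) ∈ K := by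
  have hM := s.set.full
  have h1 : ({ν} : ZFSet.{0}) ∈ K := by
    have := s.hK.upair_mem hM s.νK s.νK
    rwa [ZFSet.pair_eq_singleton] at this
  exact s.hK.opN (F := fun v : Fin 4 → ZFSet.{0} => gr (Rf (v 1) (v 2) (v 3)) (pr (v 0)))
    s.set.RR' (v := ![{ν}, P, x, e']) (by
      intro i
      fin_cases i
      exacts [h1, s.hP, s.hx, s.he'])

theorem grK {r : ZFSet.{0}} (hr : r ∈ pr {ν}) (hrK : r ∈ K) :
    gr (Rf P x e') (pr r) ∈ K := by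
  have hM := s.set.full
  rw [← rst_gr hr]
  exact s.hK.opN (F := fun v : Fin 2 → ZFSet.{0} => rst (v 0) (v 1))
    (hM.rst' (DfnF.proj 0) (DfnF.proj 1)) (v := ![_, r]) (by
      intro i
      fin_cases i
      exacts [s.RRK, hrK])

/-- Elements of a shifted sequence that are in `K` come from elements of `K`. -/
theorem shf_K {y ε r u : ZFSet.{0}} (hy : y ∈ K) (hε : ε ∈ K) (hr : r ∈ pr {ν}) (hrK : r ∈ K)
    (hu : u ∈ K) (h : u ∈ shf y ε (gr (Rf P x e') (pr r))) :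
    u ∈ y ∨ ∃ d ∈ pr r, d ∈ K ∧ u = pair (ε ∪ d) (Rf P x e' d) := by
  have hM := s.set.full
  have hB := hM.base
  rcases (mem_shf_gr (f := ∅)).1 h with h | ⟨d, hd, rfl⟩
  · exact Or.inl h
  right
  have hD : Dfn ∅ M fun w : Fin 5 → ZFSet.{0} =>
      w 0 ∈ pr (w 3) ∧ ∃ z ∈ M, pair (w 0) z ∈ w 4 ∧ w 1 = pair (w 2 ∪ w 0) z := by
    apply Dfn.and (Dfn.mem (DfnF.proj 0) (hM.pr' (DfnF.proj 3)))
    apply Dfn.ex
    apply Dfn.and
    · exact Dfn.mem (hB.pair' (DfnF.proj 1) (DfnF.proj 0)) (DfnF.proj 5)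
    · exact Dfn.eq (DfnF.proj 2) (hB.pair' (hB.union' (DfnF.proj 3) (DfnF.proj 1)) (DfnF.proj 0))
  have hdM : d ∈ M := hM.fo_mem (s.hK.1 hrK) hd
  have hRM : Rf P x e' d ∈ M := by
    rw [Rf_eq]
    exact hM.JS_mem
  obtain ⟨d', hd', h1, z, -, h2, h3⟩ := s.hK.2 4 (fun a v => a ∈ pr (v 2) ∧
    ∃ z ∈ M, pair a z ∈ v 3 ∧ v 0 = pair (v 1 ∪ a) z) hD
    ![pair (ε ∪ d) (Rf P x e' d), ε, r, gr (Rf P x e') (pr {ν})] (by
      intro i
      fin_cases i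
      exacts [hu, hε, hrK, s.RRK]) ⟨d, hdM, hd, _, hRM,
        mem_gr.2 ⟨d, pr_trans hd hr, rfl⟩, rfl⟩
  refine ⟨d', h1, hd', ?_⟩
  have h4 : pair (ε ∪ d) (Rf P x e' d) = pair (ε ∪ d') z := h3
  have h5 : pair d' z ∈ gr (Rf P x e') (pr {ν}) := h2
  obtain ⟨d'', -, h6⟩ := mem_gr.1 h5
  obtain ⟨rfl, rfl⟩ := ZFSet.pair_inj.1 h6
  exact h4

theorem JK {d : ZFSet.{0}} (hd : d ∈ pr {ν}) (hdK : d ∈ K) : Rf P x e' d ∈ K := by
  have hM := s.set.full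
  have hB := hM.base
  have hD : Dfn ∅ M fun w : Fin 3 → ZFSet.{0} => pair (w 1) (w 0) ∈ w 2 :=
    Dfn.mem (hB.pair' (DfnF.proj 1) (DfnF.proj 0)) (DfnF.proj 2)
  have hRM : Rf P x e' d ∈ M := by
    rw [Rf_eq]
    exact hM.JS_mem
  obtain ⟨z, hz, h2⟩ := s.hK.2 2 (fun a v => pair (v 0) a ∈ v 1) hD
    ![d, gr (Rf P x e') (pr {ν})] (by
      intro i
      fin_cases i
      exacts [hdK, s.RRK]) ⟨_, hRM, mem_gr.2 ⟨d, hd, rfl⟩⟩
  have h5 : pair d z ∈ gr (Rf P x e') (pr {ν}) := h2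
  obtain ⟨d'', -, h6⟩ := mem_gr.1 h5
  obtain ⟨rfl, rfl⟩ := ZFSet.pair_inj.1 h6
  exact hz

theorem JH {r d : ZFSet.{0}} (hr : r ∈ pr {ν}) (hrK : r ∈ K) (hd : d ∈ pr r) (hdK : d ∈ K) :
    JS M (Sf M (e ∪ d)) ∈ H := by
  have hM := s.set.full
  have hB := hM.base
  have hD : Dfn ∅ M fun w : Fin 3 → ZFSet.{0} => pair (w 1) (w 0) ∈ w 2 :=
    Dfn.mem (hB.pair' (DfnF.proj 1) (DfnF.proj 0)) (DfnF.proj 2)
  have hr' := ((mem_pr_single s.ord).1 hr).1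
  have h1 : e ∪ d ∈ pr (e ∪ r) := (pr_union s.eo hr' (s.lowr hr) _).2 (Or.inr ⟨d, hd, rfl⟩)
  obtain ⟨z, hz, h2⟩ := s.hH.2 2 (fun a v => pair (v 0) a ∈ v 1) hD
    ![e ∪ d, Sf M (e ∪ r)] (by
      intro i
      fin_cases i
      exacts [s.inH1 d (pr_trans hd hr) hdK, s.inH2 r hr hrK])
    ⟨_, hM.JS_mem, mem_Sf.2 ⟨_, h1, rfl⟩⟩
  have h5 : pair (e ∪ d) z ∈ Sf M (e ∪ r) := h2
  obtain ⟨d'', -, h6⟩ := mem_Sf.1 h5
  obtain ⟨h7, rfl⟩ := ZFSet.pair_inj.1 h6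
  rw [← h7] at hz
  exact hz

/-- The computation of the collapse. -/
theorem col_step {r : ZFSet.{0}} (hr : r ∈ pr {ν}) (hrK : r ∈ K)
    (ih : ∀ d ∈ pr r, d ∈ K → Rf P x e' d = JS M (Sf M (e ∪ d))) :
    col K (shf x e' (gr (Rf P x e') (pr r))) = col H (Sf M (e ∪ r)) := by
  have hM := s.set.full
  have hr' := ((mem_pr_single s.ord).1 hr).1
  have key : ∀ d ∈ pr r, d ∈ K → col K (pair (e' ∪ d) (Rf P x e' d)) =
      col H (pair (e ∪ d) (JS M (Sf M (e ∪ d)))) := by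
    intro d hd hdK
    have hdν := pr_trans hd hr
    have h1 : e' ∪ d ∈ K := s.hK.opN (F := fun v : Fin 2 → ZFSet.{0} => v 0 ∪ v 1)
      (hM.base.union' (DfnF.proj 0) (DfnF.proj 1)) (v := ![e', d]) (by
        intro i
        fin_cases i
        exacts [s.he', hdK])
    rw [s.hK.col_pair hM h1 (s.JK hdν hdK), s.hH.col_pair hM (s.inH1 d hdν hdK)
      (s.JH hr hrK hd hdK), col_union, col_union, s.ce, s.col_r hdν, ih d hd hdK,
      s.hK.col_sub_omega hM JS_sub, s.hH.col_sub_omega hM JS_sub]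
  ext w
  rw [mem_col, mem_col]
  constructor
  · rintro ⟨u, hu, huK, rfl⟩
    rcases s.shf_K s.hx s.he' hr hrK huK hu with h | ⟨d, hd, hdK, rfl⟩
    · have h1 : col K u ∈ col K x := mem_col.2 ⟨u, h, huK, rfl⟩
      rw [s.cx, mem_col] at h1
      obtain ⟨u', h2, h3, h4⟩ := h1
      refine ⟨u', ?_, h3, h4⟩
      obtain ⟨d, hd, rfl⟩ := mem_Sf.1 h2
      exact mem_Sf.2 ⟨d, (pr_union s.eo hr' (s.lowr hr) _).2 (Or.inl hd), rfl⟩
    · refine ⟨pair (e ∪ d) (JS M (Sf M (e ∪ d))), ?_, ?_, key d hd hdK⟩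
      · exact mem_Sf.2 ⟨_, (pr_union s.eo hr' (s.lowr hr) _).2 (Or.inr ⟨d, hd, rfl⟩), rfl⟩
      · exact s.hH.pair_mem hM (s.inH1 d (pr_trans hd hr) hdK) (s.JH hr hrK hd hdK)
  · rintro ⟨u, hu, huH, rfl⟩
    obtain ⟨d, hd, rfl⟩ := mem_Sf.1 hu
    rcases (pr_union s.eo hr' (s.lowr hr) _).1 hd with h | ⟨d', hd', rfl⟩
    · have h1 : col H (pair d (JS M (Sf M d))) ∈ col H (Sf M e) :=
        mem_col.2 ⟨_, mem_Sf.2 ⟨d, h, rfl⟩, huH, rfl⟩
      rw [← s.cx, mem_col] at h1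
      obtain ⟨u', h2, h3, h4⟩ := h1
      exact ⟨u', mem_shf.2 (Or.inl h2), h3, h4⟩
    · have h1 : e ∪ d' ∈ H := by
        have := s.hH.opN (F := fun v : Fin 1 → ZFSet.{0} => fs (v 0)) (hM.fs' (DfnF.proj 0))
          (v := ![pair (e ∪ d') (JS M (Sf M (e ∪ d')))]) (by
            intro i
            fin_cases i
            exact huH)
        have h2 : fs ((![pair (e ∪ d') (JS M (Sf M (e ∪ d')))] : Fin 1 → ZFSet.{0}) 0) =
            e ∪ d' := fs_pair _ _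
        rwa [h2] at this
      have hdν := pr_trans hd' hr
      have h2 : d' ∈ K := s.sub (s.of_union s.hH s.eH hdν h1)
      have h3 : e' ∪ d' ∈ K := s.hK.opN (F := fun v : Fin 2 → ZFSet.{0} => v 0 ∪ v 1)
        (hM.base.union' (DfnF.proj 0) (DfnF.proj 1)) (v := ![e', d']) (by
          intro i
          fin_cases i
          exacts [s.he', h2])
      refine ⟨pair (e' ∪ d') (Rf P x e' d'), (mem_shf_gr (f := ∅)).2 (Or.inr ⟨d', hd', rfl⟩),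
        s.hK.pair_mem hM h3 (s.JK hdν h2), (key d' hd' h2).symm⟩

/-- The computation of the theories in `K`. -/
theorem main (hG : GSF) {r : ZFSet.{0}} : r ∈ pr {ν} → r ∈ K →
    Rf P x e' r = JS M (Sf M (e ∪ r)) := by
  have hM := s.set.full
  induction r using pr_wf.induction with
  | _ r ih =>
  intro hr hrK
  have ih' : ∀ d ∈ pr r, d ∈ K → Rf P x e' d = JS M (Sf M (e ∪ d)) :=
    fun d hd hdK => ih d hd (pr_trans hd hr) hdK
  have h1 := s.col_step hr hrK ih'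
  have hxr : shf x e' (gr (Rf P x e') (pr r)) ∈ K :=
    s.hK.opN (F := fun v : Fin 3 → ZFSet.{0} => shf (v 0) (v 1) (v 2))
      (hM.shf' (DfnF.proj 0) (DfnF.proj 1) (DfnF.proj 2)) (v := ![x, e', _]) (by
        intro i
        fin_cases i
        exacts [s.hx, s.he', s.grK hr hrK])
  set x' := shf x e' (gr (Rf P x e') (pr r)) with hx'
  have hSH := s.inH2 r hr hrK
  have hKxt := s.hK.xt hM
  have h2 : x' ∈ P := by
    rw [← col_mem_iff hKxt hxr, s.cP, h1]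
    exact mem_im.2 ⟨_, hSH, rfl⟩
  have hPt : ∀ y ∈ P, ∀ z ∈ y, z ∈ P := by
    by_contra hcon
    push Not at hcon
    have hD : Dfn ∅ M fun w : Fin 2 → ZFSet.{0} => w 0 ∈ w 1 ∧ ∃ z ∈ w 0, z ∉ w 1 := by
      apply Dfn.and (Dfn.mem (DfnF.proj 0) (DfnF.proj 1))
      apply hM.base.bex (DfnF.proj 0)
      exact (Dfn.mem (DfnF.proj 0) (DfnF.proj 2)).not
    have hD2 : Dfn ∅ M fun w : Fin 3 → ZFSet.{0} => w 0 ∈ w 1 ∧ w 0 ∉ w 2 :=
      (Dfn.mem (DfnF.proj 0) (DfnF.proj 1)).and (Dfn.mem (DfnF.proj 0) (DfnF.proj 2)).not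
    obtain ⟨y, hy, z, hz, hzP⟩ := hcon
    have hyM := hM.trans (s.hK.1 s.hP) hy
    obtain ⟨y', hy'K, h3⟩ := s.hK.2 1 (fun a v => a ∈ v 0 ∧ ∃ z ∈ a, z ∉ v 0) hD ![P] (by
      intro i
      fin_cases i
      exact s.hP) ⟨y, hyM, hy, z, hz, hzP⟩
    obtain ⟨hy'P, z', hz', hz'P⟩ := h3
    have hz'M := hM.trans (s.hK.1 hy'K) hz'
    obtain ⟨z'', hz''K, h4⟩ := s.hK.2 2 (fun a v => a ∈ v 0 ∧ a ∉ v 1) hD2 ![y', P] (by
      intro i
      fin_cases i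
      exacts [hy'K, s.hP]) ⟨z', hz'M, hz', hz'P⟩
    have h5 : col K z'' ∈ col K y' := mem_col.2 ⟨z'', h4.1, hz''K, rfl⟩
    have h6 : col K y' ∈ col K P := mem_col.2 ⟨y', hy'P, hy'K, rfl⟩
    rw [s.cP] at h6
    have h7 := col_trans _ h6 _ h5
    rw [← s.cP, col_mem_iff hKxt hz''K] at h7
    exact h4.2 h7
  have h0 : ∅ ∈ P := by
    have h3 : (∅ : ZFSet.{0}) ∈ K := s.hK.nat_mem hM 0
    have h4 : (∅ : ZFSet.{0}) ∈ H := s.hH.nat_mem hM 0
    have h5 : ∀ X : ZFSet.{0}, col X ∅ = ∅ := by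
      intro X
      rw [ZFSet.eq_empty]
      intro y hy
      obtain ⟨u, hu, -⟩ := mem_col.1 hy
      exact ZFSet.notMem_empty u hu
    rw [← col_mem_iff hKxt h3, s.cP, h5]
    exact mem_im.2 ⟨∅, h4, (h5 H).symm⟩
  rw [Rf_eq]
  refine eq_of_sub_omega (fun z hz => (ZFSet.mem_sep.1 hz).1) JS_sub fun n => ?_
  obtain ⟨φ, hφ⟩ := hG n
  have e1 : nat n ∈ JJ P x' ↔ Sat {y | y ∈ P} Empty.elim φ ![x'] := by
    rw [hφ {y | y ∈ P} hPt h0 x' h2]
    exact nat_mem_JS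
  have e2 := s.hK.d0 hM (D0.relSat φ) (v := ![P, x']) (by
    intro i
    fin_cases i
    exacts [s.hP, hxr])
  have e3 : (Sat {x | x ∈ col K P} Empty.elim φ ![col K x']) ↔
      Sat {y | y ∈ P} Empty.elim φ ![x'] := by
    have h3 : (Fin.tail fun i => col K ((![P, x'] : Fin 2 → ZFSet.{0}) i)) = ![col K x'] := by
      funext i
      fin_cases i
      rfl
    have h4 : (Fin.tail (![P, x'] : Fin 2 → ZFSet.{0})) = ![x'] := by
      funext i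
      fin_cases i
      rfl
    rw [h3, h4] at e2
    exact e2
  have e4 := s.hH.sat_im hM φ (v := ![Sf M (e ∪ r)]) (by
    intro i
    fin_cases i
    exact hSH)
  have e5 : (fun i => col H ((![Sf M (e ∪ r)] : Fin 1 → ZFSet.{0}) i)) =
      ![col H (Sf M (e ∪ r))] := by
    funext i
    fin_cases i
    rfl
  rw [e5] at e4
  rw [s.cP, h1] at e3
  rw [← shf, ← hx', e1, ← e3, e4, hφ M hM.base.trans hM.empty_mem _ (s.hH.1 hSH), nat_mem_JS]

/-- The computation of the theories in `M`. -/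
theorem main2 (hG : GSF) {r : ZFSet.{0}} : r ∈ pr {ν} →
    Rf P x e' r = JS M (Sf M (e ∪ r)) := by
  have hM := s.set.full
  have hB := hM.base
  induction r using pr_wf.induction with
  | _ r ih =>
  intro hr
  have hνM := s.hK.1 s.νK
  have hrM : r ∈ M := hM.fo_mem (hM.single_mem hνM) hr
  have ih' : ∀ d ∈ pr r, Rf P x e' d = JS M (Sf M (e ∪ d)) :=
    fun d hd => ih d hd (pr_trans hd hr)
  have hr' := ((mem_pr_single s.ord).1 hr).1
  have h1 := Sf_union s.eo hr' (s.lowr hr) ih'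
  rw [h1]
  have hS0K : Sf M e ∈ K := by
    have h2 : (∅ : ZFSet.{0}) ∈ pr {ν} := (mem_pr_single s.ord).2 ⟨FO.empty, fun y hy =>
      absurd hy (ZFSet.notMem_empty y)⟩
    have h3 := s.inH2 ∅ h2 (s.hK.nat_mem hM 0)
    have h4 : e ∪ ∅ = e := by
      ext y
      simp
    rw [h4] at h3
    exact s.sub h3
  refine eq_of_sub_omega (by
    rw [Rf_eq]
    exact fun z hz => (ZFSet.mem_sep.1 hz).1) JS_sub fun n => ?_
  -- the statement for `n` is first-order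
  have hD : Dfn ∅ M fun w : Fin 5 → ZFSet.{0} => w 0 ∈ pr (w 1) ∧
      ¬ ((∃ z ∈ M, pair (w 0) z ∈ w 2 ∧ nat n ∈ z) ↔
        nat n ∈ JS M (shf (w 3) (w 4) (rst (w 2) (w 0)))) := by
    apply Dfn.and (Dfn.mem (DfnF.proj 0) (hM.pr' (DfnF.proj 1)))
    apply Dfn.not
    apply Dfn.iff
    · apply Dfn.ex
      apply Dfn.and
      · exact Dfn.mem (hB.pair' (DfnF.proj 1) (DfnF.proj 0)) (DfnF.proj 3)
      · exact Dfn.mem (hM.nat' n) (DfnF.proj 0)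
    · exact Dfn.comp1 (Q := fun b => nat n ∈ JS M b) (dfn_mem_JS hG hM n)
        (hM.shf' (DfnF.proj 3) (DfnF.proj 4) (hM.rst' (DfnF.proj 2) (DfnF.proj 0)))
  have hval : ∀ r1 ∈ pr {ν}, ((∃ z ∈ M, pair r1 z ∈ gr (Rf P x e') (pr {ν}) ∧ nat n ∈ z) ↔
      nat n ∈ Rf P x e' r1) := by
    intro r1 hr1
    constructor
    · rintro ⟨z, -, h2, h3⟩
      obtain ⟨d, -, h4⟩ := mem_gr.1 h2
      obtain ⟨rfl, rfl⟩ := ZFSet.pair_inj.1 h4
      exact h3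
    · intro h2
      refine ⟨_, ?_, mem_gr.2 ⟨r1, hr1, rfl⟩, h2⟩
      rw [Rf_eq]
      exact hM.JS_mem
  by_contra hcon
  obtain ⟨r1, hr1K, h2⟩ := s.hK.2 4 (fun a v => a ∈ pr (v 0) ∧
      ¬ ((∃ z ∈ M, pair a z ∈ v 1 ∧ nat n ∈ z) ↔
        nat n ∈ JS M (shf (v 2) (v 3) (rst (v 1) a)))) hD
    ![{ν}, gr (Rf P x e') (pr {ν}), Sf M e, e] (by
      intro i
      fin_cases i
      · have := s.hK.upair_mem hM s.νK s.νK
        rwa [ZFSet.pair_eq_singleton] at this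
      · exact s.RRK
      · exact hS0K
      · exact s.sub s.eH) ⟨r, hrM, hr, (by
        change ¬ ((∃ z ∈ M, pair r z ∈ gr (Rf P x e') (pr {ν}) ∧ nat n ∈ z) ↔
          nat n ∈ JS M (shf (Sf M e) e (rst (gr (Rf P x e') (pr {ν})) r)))
        rw [hval r hr, rst_gr hr]
        exact hcon)⟩
  obtain ⟨hr1, h3⟩ := h2
  change r1 ∈ pr {ν} at hr1
  change ¬ ((∃ z ∈ M, pair r1 z ∈ gr (Rf P x e') (pr {ν}) ∧ nat n ∈ z) ↔
    nat n ∈ JS M (shf (Sf M e) e (rst (gr (Rf P x e') (pr {ν})) r1))) at h3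
  rw [hval r1 hr1, rst_gr hr1, s.main hG hr1 hr1K] at h3
  apply h3
  -- the two sequences agree
  have hr1' := ((mem_pr_single s.ord).1 hr1).1
  have h4 : shf (Sf M e) e (gr (Rf P x e') (pr r1)) = Sf M (e ∪ r1) := by
    refine s.hK.ext hM ?_ (s.sub (s.inH2 r1 hr1 hr1K)) fun u hu => ?_
    · exact s.hK.opN (F := fun v : Fin 3 → ZFSet.{0} => shf (v 0) (v 1) (v 2))
        (hM.shf' (DfnF.proj 0) (DfnF.proj 1) (DfnF.proj 2)) (v := ![Sf M e, e, _]) (by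
          intro i
          fin_cases i
          exacts [hS0K, s.sub s.eH, s.grK hr1 hr1K])
    · constructor
      · intro h5
        rcases s.shf_K hS0K (s.sub s.eH) hr1 hr1K hu h5 with h6 | ⟨d, hd, hdK, rfl⟩
        · obtain ⟨d, hd, rfl⟩ := mem_Sf.1 h6
          exact mem_Sf.2 ⟨d, (pr_union s.eo hr1' (s.lowr hr1) _).2 (Or.inl hd), rfl⟩
        · rw [s.main hG (pr_trans hd hr1) hdK]
          exact mem_Sf.2 ⟨_, (pr_union s.eo hr1' (s.lowr hr1) _).2 (Or.inr ⟨d, hd, rfl⟩), rfl⟩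
      · intro h5
        obtain ⟨d, hd, rfl⟩ := mem_Sf.1 h5
        rcases (pr_union s.eo hr1' (s.lowr hr1) _).1 hd with h | ⟨d', hd', rfl⟩
        · exact mem_shf.2 (Or.inl (mem_Sf.2 ⟨d, h, rfl⟩))
        · have h6 : e ∪ d' ∈ K := by
            have := s.hK.opN (F := fun v : Fin 1 → ZFSet.{0} => fs (v 0)) (hM.fs' (DfnF.proj 0))
              (v := ![pair (e ∪ d') (JS M (Sf M (e ∪ d')))]) (by
                intro i
                fin_cases i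
                exact hu)
            have h7 : fs ((![pair (e ∪ d') (JS M (Sf M (e ∪ d')))] : Fin 1 → ZFSet.{0}) 0) =
                e ∪ d' := fs_pair _ _
            rwa [h7] at this
          have hdν := pr_trans hd' hr1
          have h7 : d' ∈ K := s.of_union s.hK (s.sub s.eH) hdν h6
          rw [← s.main hG hdν h7]
          exact (mem_shf_gr (f := ∅)).2 (Or.inr ⟨d', hd', rfl⟩)
  rw [h4]

end Sit

/-- Every element is interdefinable with a coherent sequence. -/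
theorem Setg.thmA (hS : Setg c M lt) (hG : GSF) {a : ZFSet.{0}} (ha : a ∈ M) :
    ∃ e, FO e ∧ e ∈ M ∧ Sf M e ∈ Hul M a ∧ a ∈ Hul M (Sf M e) := by
  have hM := hS.full
  have hB := hM.base
  by_cases hex : ∃ e, FO e ∧ e ∈ Hul M a ∧ Sf M e ∉ Hul M a
  swap
  · push Not at hex
    obtain ⟨e, h1, h2, h3⟩ := hS.code a ha
    have heM := hul_mem ha h2
    exact ⟨e, h1, heM, hex e h1 h2, hul_trans h3 (hS.idx_hul h1 heM)⟩
  obtain ⟨e, ⟨heo, hea, hSe⟩, hmin⟩ :=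
    pr_wf.has_min {e | FO e ∧ e ∈ Hul M a ∧ Sf M e ∉ Hul M a} hex
  have heM := hul_mem ha hea
  have hne : ∃ y, y ∈ e := by
    by_contra hne
    apply hSe
    have h1 : Sf M e = ∅ := by
      rw [ZFSet.eq_empty]
      intro p hp
      obtain ⟨d, hd, -⟩ := mem_Sf.1 hp
      obtain ⟨-, -, κ, h2, -⟩ := mem_pr.1 hd
      exact hne ⟨κ, h2⟩
    rw [h1]
    exact ⟨fun _ => ∅, hM.empty', rfl⟩
  obtain ⟨ν, hν, hνmin⟩ := exists_min heo.1 hne
  have hνo := heo.1 ν hν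
  set e0 := ZFSet.sep (fun y => y ≠ ν) e with he0
  have he0e : e0 ⊆ e := fun y hy => (ZFSet.mem_sep.1 hy).1
  have heq : e = e0 ∪ {ν} := by
    ext y
    rw [ZFSet.mem_union, ZFSet.mem_singleton, he0, ZFSet.mem_sep]
    constructor
    · intro hy
      by_cases h : y = ν
      · exact Or.inr h
      · exact Or.inl ⟨hy, h⟩
    · rintro (h | rfl)
      · exact h.1
      · exact hν
  have he0o : FO e0 := heo.sub he0e
  have hlow : ∀ ξ ∈ e0, ν ∈ ξ := by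
    intro ξ hξ
    rw [he0, ZFSet.mem_sep] at hξ
    rcases hνmin ξ hξ.1 with h | h
    · exact absurd h hξ.2
    · exact h
  have hlow' : ∀ ξ ∈ e0, ∀ μ ∈ ({ν} : ZFSet.{0}), μ ∈ ξ := by
    intro ξ hξ μ hμ
    rw [ZFSet.mem_singleton] at hμ
    exact hμ ▸ hlow ξ hξ
  have he0a : e0 ∈ Hul M a := hul_trans (hS.fo_sub e heo heM e0 he0e) hea
  have hνs : ({ν} : ZFSet.{0}) ∈ Hul M a := by
    refine hul_trans (hS.fo_sub e heo heM {ν} fun y hy => ?_) hea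
    rw [ZFSet.mem_singleton] at hy
    exact hy ▸ hν
  have hνa : ν ∈ Hul M a := by
    have := hul_op (a := a) (h := fun x => (ZFSet.sUnion x : ZFSet.{0}))
      (hB.sUnion' (DfnF.proj 0)) hνs
    rwa [ZFSet.sUnion_singleton] at this
  -- the hull of `a` as a set
  obtain ⟨K, hKa, hKc⟩ := exists_zf (countable_hul a ha) ⟨a, hul_self⟩
  have hKset : {x | x ∈ K} = Hul M a := Set.ext hKa
  have hK : TV M {x | x ∈ K} := by
    rw [hKset]
    exact hS.wo.tv_hul hM ha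
  have hfo : ∀ r ∈ pr {ν}, FO (e0 ∪ r) := fun r hr =>
    he0o.union ((mem_pr_single hνo).1 hr).1
  have hinM : ∀ r ∈ pr {ν}, r ∈ K → e0 ∪ r ∈ Hul M a := fun r hr hrK =>
    hul_union hM he0a ((hKa r).1 hrK)
  have hSin : ∀ r ∈ pr {ν}, r ∈ K → Sf M (e0 ∪ r) ∈ Hul M a := by
    intro r hr hrK
    by_contra h
    refine hmin (e0 ∪ r) ⟨hfo r hr, hinM r hr hrK, h⟩ ?_
    rw [heq]
    exact (pr_union he0o (FO.single hνo) hlow' _).2 (Or.inr ⟨r, hr, rfl⟩)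
  have hEmp : (∅ : ZFSet.{0}) ∈ pr {ν} := (mem_pr_single hνo).2 ⟨FO.empty, fun y hy =>
    absurd hy (ZFSet.notMem_empty y)⟩
  have hEmpK : (∅ : ZFSet.{0}) ∈ K := hK.nat_mem hM 0
  -- the smaller hull
  let I := {r : ZFSet.{0} // r ∈ pr {ν} ∧ r ∈ K}
  have : Nonempty I := ⟨⟨∅, hEmp, hEmpK⟩⟩
  have hHtv : TV M {x | ∃ i : I, x ∈ Hul M (Sf M (e0 ∪ i.1))} := by
    refine tv_directed (fun i => hS.wo.tv_hul hM (hul_mem ha (hSin i.1 i.2.1 i.2.2))) ?_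
    rintro ⟨r, hr, hrK⟩ ⟨r', hr', hr'K⟩
    have h1 := (mem_pr_single hνo).1 hr
    have h2 := (mem_pr_single hνo).1 hr'
    have h3 : r ∪ r' ∈ pr {ν} := (mem_pr_single hνo).2 ⟨h1.1.union h2.1, fun y hy => by
      rcases ZFSet.mem_union.1 hy with h | h
      · exact h1.2 h
      · exact h2.2 h⟩
    have h4 : r ∪ r' ∈ K := (hKa _).2 (hul_union hM ((hKa _).1 hrK) ((hKa _).1 hr'K))
    have h5 := hul_mem ha (hinM _ h3 h4)
    refine ⟨⟨r ∪ r', h3, h4⟩, hS.Sf_sub (hfo _ h3) h5 fun y hy => ?_,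
      hS.Sf_sub (hfo _ h3) h5 fun y hy => ?_⟩
    · rw [ZFSet.mem_union] at hy ⊢
      rw [ZFSet.mem_union]
      tauto
    · rw [ZFSet.mem_union] at hy ⊢
      rw [ZFSet.mem_union]
      tauto
  set H := ZFSet.sep (fun x => ∃ i : I, x ∈ Hul M (Sf M (e0 ∪ i.1))) K with hHdef
  have hHmem : ∀ x, x ∈ H ↔ ∃ i : I, x ∈ Hul M (Sf M (e0 ∪ i.1)) := by
    intro x
    rw [hHdef, ZFSet.mem_sep]
    refine and_iff_right_of_imp ?_
    rintro ⟨⟨r, hr, hrK⟩, h⟩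
    exact (hKa x).2 (hul_trans h (hSin r hr hrK))
  have hH : TV M {x | x ∈ H} := by
    have h1 : {x | x ∈ H} = {x | ∃ i : I, x ∈ Hul M (Sf M (e0 ∪ i.1))} := Set.ext hHmem
    rw [h1]
    exact hHtv
  by_cases haH : a ∈ H
  · obtain ⟨⟨r, hr, hrK⟩, h1⟩ := (hHmem a).1 haH
    exact ⟨e0 ∪ r, hfo r hr, hul_mem ha (hinM r hr hrK), hSin r hr hrK, h1⟩
  exfalso
  have hHK : H ⊆ K := fun x hx => (ZFSet.mem_sep.1 hx).1
  have hlem := hS.lemmaK ha hH hK hKa hKc hHK haH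
  have hinH2 : ∀ r ∈ pr {ν}, r ∈ K → Sf M (e0 ∪ r) ∈ H := fun r hr hrK =>
    (hHmem _).2 ⟨⟨r, hr, hrK⟩, hul_self⟩
  have hinH1 : ∀ r ∈ pr {ν}, r ∈ K → e0 ∪ r ∈ H := fun r hr hrK =>
    (hHmem _).2 ⟨⟨r, hr, hrK⟩, hS.idx_hul (hfo r hr) (hul_mem ha (hinM r hr hrK))⟩
  have he0H : e0 ∈ H := by
    have h1 := hinH1 ∅ hEmp hEmpK
    have h2 : e0 ∪ ∅ = e0 := by
      ext y
      simp
    rwa [h2] at h1
  have hS0H : Sf M e0 ∈ H := by
    have h1 := hinH2 ∅ hEmp hEmpK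
    have h2 : e0 ∪ ∅ = e0 := by
      ext y
      simp
    rwa [h2] at h1
  obtain ⟨P, hPK, hP⟩ := mem_im.1 hlem
  have hin : ∀ y ∈ H, ∃ y' ∈ K, col K y' = col H y := by
    intro y hy
    have h1 : col H y ∈ im (col K) K := col_trans _ hlem _ (mem_im.2 ⟨y, hy, rfl⟩)
    obtain ⟨y', h2, h3⟩ := mem_im.1 h1
    exact ⟨y', h2, h3.symm⟩
  obtain ⟨x, hxK, hx⟩ := hin _ hS0H
  obtain ⟨e', he'K, he'⟩ := hin _ he0H
  have s : Sit c M lt H K ν e0 P x e' := {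
    set := hS
    hH := hH
    hK := hK
    sub := hHK
    ord := hνo
    eo := he0o
    low := hlow
    eH := he0H
    νK := (hKa ν).2 hνa
    inH1 := hinH1
    inH2 := hinH2
    hP := hPK
    hx := hxK
    he' := he'K
    cP := hP.symm
    cx := hx
    ce := he' }
  apply hSe
  rw [heq, Sf_union he0o (FO.single hνo) hlow' (F := Rf P x e') fun d hd => s.main2 hG hd,
    ← hKset]
  exact hK.opN (F := fun v : Fin 3 → ZFSet.{0} => shf (v 0) (v 1) (v 2))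
    (hM.shf' (DfnF.proj 0) (DfnF.proj 1) (DfnF.proj 2))
    (v := ![Sf M e0, e0, gr (Rf P x e') (pr {ν})]) (by
      intro i
      fin_cases i
      exacts [hHK hS0H, hHK he0H, s.RRK])

end

end Pool.Agent.R587
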