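import Pool.Agent.R587.Pos

/-!
# Terms, and the transfer of truth between realizations
-/

set_option autoImplicit false

namespace Pool.Agent.R587

open Pool.Agent.W868 hiding Models
open ZFSet (pair)
open Cardinal

/-- Quantification over several elements. -/
theorem UD.exN : ∀ (k m : ℕ) (Q : Set ZFSet.{0} → (Fin k → ZFSet.{0}) → (Fin m → ZFSet.{0}) → Prop),
    (∀ (l : ℕ) (ρ : Fin k → Fin l) (σ : Fin m → Fin l),
      UD fun M (w : Fin l → ZFSet.{0}) => Q M (fun i => w (ρ i)) fun j => w (σ j)) →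
    UD fun M (v : Fin m → ZFSet.{0}) => ∃ u : Fin k → ZFSet.{0}, (∀ i, u i ∈ M) ∧ Q M u v := by
  intro k
  induction k with
  | zero =>
    intro m Q h
    refine (h m Fin.elim0 id).congr fun M _ _ v _ => ?_
    constructor
    · intro h1
      exact ⟨_, fun i => i.elim0, h1⟩
    · rintro ⟨u, -, h1⟩
      have h2 : u = fun i => v (Fin.elim0 i) := funext fun i => i.elim0
      rw [h2] at h1
      exact h1
  | succ k ih =>
    intro m Q h
    have h1 := ih (m + 1) (fun M u v => Q M (Fin.cons (v 0) u) (Fin.tail v)) (by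
      intro l ρ σ
      refine (h l (Fin.cons (σ 0) ρ) (fun j => σ j.succ)).congr fun M _ _ w _ => ?_
      have h2 : (fun i => w ((Fin.cons (σ 0) ρ : Fin (k + 1) → Fin l) i)) =
          Fin.cons (w (σ 0)) fun i => w (ρ i) := by
        funext i
        refine Fin.cases ?_ (fun i => ?_) i
        · rfl
        · rfl
      rw [h2]
      rfl)
    refine (UD.ex (Q := fun M a v => ∃ u : Fin k → ZFSet.{0}, (∀ i, u i ∈ M) ∧
      Q M (Fin.cons a u) v) h1).congr fun M _ _ v _ => ?_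
    constructor
    · rintro ⟨a, ha, u, hu, h2⟩
      refine ⟨Fin.cons a u, fun i => ?_, h2⟩
      refine Fin.cases ?_ (fun i => ?_) i
      · exact ha
      · exact hu i
    · rintro ⟨u, hu, h2⟩
      refine ⟨u 0, hu 0, Fin.tail u, fun i => hu i.succ, ?_⟩
      rw [Fin.cons_self_tail]
      exact h2

theorem UD.allFin {n k : ℕ} {R : Fin k → Set ZFSet.{0} → (Fin n → ZFSet.{0}) → Prop}
    (h : ∀ i, UD (R i)) : UD fun M v => ∀ i, R i M v := by
  induction k with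
  | zero =>
    exact (UD.of_D0 D0.tt).congr fun M _ _ v _ => ⟨fun _ i => i.elim0, fun _ => trivial⟩
  | succ k ih =>
    refine ((h 0).and (ih fun i => h i.succ)).congr fun M _ _ v _ => ?_
    exact (Fin.forall_fin_succ (P := fun i => R i M v)).symm

/-! ### Realizations -/

namespace Rea

variable {Q : Set ZFSet.{0}} {W : ZFSet.{0}} {S : Set ZFSet.{0}} {R : Set ZFSet.{0}}
  {σ g : ZFSet.{0} → ZFSet.{0}} (h : Rea Q W S R σ g) (hP : Pm Q W)

include h hP

theorem toGen : Gen Q W R σ {c | ∃ j ∈ S, c = g j} :=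
  ⟨hP, h.trans, h.el, by
    rintro c ⟨j, hj, rfl⟩
    exact h.gen j hj⟩

theorem zero : ∅ ∈ R := (h.toGen hP).zero

theorem pm : Pm R (σ W) := Pm.push h.el h.trans hP

theorem gR {j : ZFSet.{0}} (hj : j ∈ S) : g j ∈ R := (h.toGen hP).cR ⟨j, hj, rfl⟩

theorem imR {u : ZFSet.{0}} (hu : FO u) (huS : ∀ x ∈ u, x ∈ S) :
    im g u ∈ R := by
  obtain ⟨n, hn⟩ := fo_inc hu
  have h1 := (hn.mono (C' := S) huS).im (g := g) h.mono
  exact (h.toGen hP).incR h1.2

omit hP in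
theorem mon {u : ZFSet.{0}} (hu : FO u) (huS : ∀ x ∈ u, x ∈ S) : Mon u g :=
  ⟨hu.1, fun j hj k hk => h.mono j (huS j hj) k (huS k hk)⟩

/-- Truth about finite sets of indiscernibles does not depend on the realization. -/
theorem tt0 {S' R' : Set ZFSet.{0}} {σ' g' : ZFSet.{0} → ZFSet.{0}}
    (h' : Rea Q W S' R' σ' g') {P : Pr} (hPr : UPr P) {a u : ZFSet.{0}} (ha : a ∈ Q)
    (hu : FO u) (huS : ∀ x ∈ u, x ∈ S) (huS' : ∀ x ∈ u, x ∈ S') :
    P R (σ W) (σ a) (im g u) ↔ P R' (σ' W) (σ' a) (im g' u) := by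
  obtain ⟨n, hn⟩ := fo_inc hu
  have h1 := ((hn.mono (C' := S) huS).im (g := g) h.mono).2
  have h1' := ((hn.mono (C' := S') huS').im (g := g') h'.mono).2
  rw [(h.toGen hP).type_iff h1 hPr ha, (h'.toGen hP).type_iff h1' hPr ha]

end Rea

/-- Terms: a formula, a parameter, and a finite set of ordinals. -/
structure Te : Type 1 where
  /-- the formula -/
  f : Fml Empty 3
  /-- the parameter -/
  a : ZFSet.{0}
  /-- the support -/
  s : ZFSet.{0}

/-- The term is a term for the indices `S`. -/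
def Te.Ok (t : Te) (Q S : Set ZFSet.{0}) : Prop := t.a ∈ Q ∧ FO t.s ∧ ∀ x ∈ t.s, x ∈ S

/-- The term has the value `y` in the realization. -/
def Te.V (t : Te) (R : Set ZFSet.{0}) (σ g : ZFSet.{0} → ZFSet.{0}) (y : ZFSet.{0}) : Prop :=
  y ∈ R ∧ Dy R t.f y (σ t.a) (im g t.s)

theorem Te.V.uniq {t : Te} {R : Set ZFSet.{0}} {σ g : ZFSet.{0} → ZFSet.{0}}
    {y y' : ZFSet.{0}} (h : t.V R σ g y) (h' : t.V R σ g y') : y = y' := h.2.uniq h.1 h'.2

theorem map_pair' {Q R : Set ZFSet.{0}} {W : ZFSet.{0}} {σ : ZFSet.{0} → ZFSet.{0}}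
    {C : Set ZFSet.{0}} (h : Gen Q W R σ C) {a b : ZFSet.{0}} (ha : a ∈ Q) (hb : b ∈ Q) :
    σ (pair a b) = pair (σ a) (σ b) := h.map_pair ha hb

/-- Change of the parameters: the new parameter is a pair, the new support is larger. -/
theorem reexpress (φ : Fml Empty 3) {u s : ZFSet.{0}} (hu : FO u) (hs : s ⊆ u) (left : Bool) :
    ∃ φ' : Fml Empty 3, ∀ (Q : Set ZFSet.{0}) (W : ZFSet.{0}), Pm Q W →
      ∀ (S R : Set ZFSet.{0}) (σ g : ZFSet.{0} → ZFSet.{0}), Rea Q W S R σ g → (∀ x ∈ u, x ∈ S) →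
      ∀ a ∈ Q, ∀ b ∈ Q, ∀ y, Dy R φ y (σ a) (im g s) ↔
        Dy R φ' y (σ (if left then pair a b else pair b a)) (im g u) := by
  obtain ⟨K, p, hKp⟩ := exists_sb hu hs
  have hud : UD fun M (v : Fin 3 → ZFSet.{0}) => ∃ x ∈ M, ∃ y ∈ M, v 1 = pair x y ∧ ∃ t ∈ M,
      Sbp K p (v 2) t ∧ Sat M Empty.elim φ ![v 0, if left then x else y, t] := by
    apply UD.ex
    apply UD.ex
    apply UD.and
    · exact UD.of_D0 (D0.isPair (D0v.proj 3) (D0v.proj 1) (D0v.proj 0))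
    apply UD.ex
    apply UD.and
    · exact UD.of_D0 (D0.sb K p (D0v.proj 5) (D0v.proj 0))
    · refine (UD.comp (UD.sat φ) ![3, if left then 2 else 1, 0]).congr fun M _ _ v _ => ?_
      have h : (fun i => v ((![3, if left then 2 else 1, 0] : Fin 3 → Fin 6) i)) =
          ![v 3, if left then v 2 else v 1, v 0] := by
        funext i
        fin_cases i
        · rfl
        · cases left <;> rfl
        · rfl
      rw [h]
      rfl
  obtain ⟨φ', hφ'⟩ := hud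
  refine ⟨φ', fun Q W hP S R σ g h huS a ha b hb y => ?_⟩
  have hG := h.toGen hP
  have hsS : ∀ x ∈ s, x ∈ S := fun x hx => huS x (hs hx)
  have huR := h.imR hP hu huS
  have hsR := h.imR hP (hu.sub hs) hsS
  have hmon := h.mon hu huS
  have hab : (if left then pair a b else pair b a : ZFSet.{0}) ∈ Q := by
    cases left
    · exact hP.pr hb ha
    · exact hP.pr ha hb
  have key : ∀ z ∈ R, (Sat R Empty.elim φ' ![z, σ (if left then pair a b else pair b a), im g u] ↔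
      Sat R Empty.elim φ ![z, σ a, im g s]) := by
    intro z hz
    rw [hφ' R h.trans (h.zero hP) _ (by
      intro i
      fin_cases i
      exacts [hz, h.el.maps _ hab, huR])]
    constructor
    · rintro ⟨x, hx, y, hy, h1, t, ht, h2, h3⟩
      have h4 : t = im g s := h2.uniq (hKp g hmon)
      subst h4
      cases left
      · have h5 : σ (pair b a) = pair x y := h1
        rw [hG.map_pair hb ha] at h5
        obtain ⟨rfl, rfl⟩ := ZFSet.pair_inj.1 h5
        exact h3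
      · have h5 : σ (pair a b) = pair x y := h1
        rw [hG.map_pair ha hb] at h5
        obtain ⟨rfl, rfl⟩ := ZFSet.pair_inj.1 h5
        exact h3
    · intro h1
      cases left
      · exact ⟨σ b, h.el.maps _ hb, σ a, h.el.maps _ ha, hG.map_pair hb ha, _, hsR,
          hKp g hmon, h1⟩
      · exact ⟨σ a, h.el.maps _ ha, σ b, h.el.maps _ hb, hG.map_pair ha hb, _, hsR,
          hKp g hmon, h1⟩
  unfold Dy
  exact forall₂_congr fun z hz => by rw [key z hz]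

/-- Finitely many terms can be given the same parameters. -/
theorem common {Q : Set ZFSet.{0}} {W : ZFSet.{0}} (hP : Pm Q W) {S0 : Set ZFSet.{0}} :
    ∀ (k : ℕ) (t : Fin k → Te), (∀ l, (t l).Ok Q S0) →
    ∃ a ∈ Q, ∃ u, FO u ∧ (∀ l, (t l).s ⊆ u) ∧ (∀ x ∈ u, ∃ l, x ∈ (t l).s) ∧
      ∃ θ : Fin k → Fml Empty 3, ∀ (S R : Set ZFSet.{0}) (σ g : ZFSet.{0} → ZFSet.{0}),
        Rea Q W S R σ g → (∀ x ∈ u, x ∈ S) → ∀ l y,
        (Dy R (t l).f y (σ (t l).a) (im g (t l).s) ↔ Dy R (θ l) y (σ a) (im g u)) := by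
  intro k
  induction k with
  | zero =>
    intro t _
    exact ⟨∅, hP.zero, ∅, FO.empty, fun l => l.elim0,
      fun x hx => absurd hx (ZFSet.notMem_empty x), Fin.elim0, fun _ _ _ _ _ _ l => l.elim0⟩
  | succ k ih =>
    intro t ht
    obtain ⟨a, ha, u, hu, h1, h2, θ, hθ⟩ := ih (fun l => t l.succ) fun l => ht l.succ
    obtain ⟨h3, h4, -⟩ := ht 0
    have hU : FO ((t 0).s ∪ u) := h4.union hu
    have hs1 : (t 0).s ⊆ (t 0).s ∪ u := fun x hx => ZFSet.mem_union.2 (Or.inl hx)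
    have hs2 : u ⊆ (t 0).s ∪ u := fun x hx => ZFSet.mem_union.2 (Or.inr hx)
    obtain ⟨φ0, hφ0⟩ := reexpress (t 0).f hU hs1 true
    choose θ' hθ' using fun l => reexpress (θ l) hU hs2 false
    refine ⟨pair (t 0).a a, hP.pr h3 ha, (t 0).s ∪ u, hU, fun l => ?_, fun x hx => ?_,
      Fin.cons φ0 θ', fun S R σ g h hS l y => ?_⟩
    · refine Fin.cases hs1 (fun l => ?_) l
      exact fun x hx => hs2 (h1 l hx)
    · rcases ZFSet.mem_union.1 hx with hx | hx
      · exact ⟨0, hx⟩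
      · obtain ⟨l, hl⟩ := h2 x hx
        exact ⟨l.succ, hl⟩
    · refine Fin.cases ?_ (fun l => ?_) l
      · exact hφ0 Q W hP S R σ g h hS _ h3 _ ha y
      · rw [Fin.cons_succ, hθ S R σ g h (fun x hx => hS x (hs2 hx)) l y]
        exact hθ' l Q W hP S R σ g h hS _ ha _ h3 y

/-- Truth about the values of terms does not depend on the realization. -/
theorem tt {Q : Set ZFSet.{0}} {W : ZFSet.{0}} (hP : Pm Q W) {S R S' R' : Set ZFSet.{0}}
    {σ g σ' g' : ZFSet.{0} → ZFSet.{0}} (h : Rea Q W S R σ g) (h' : Rea Q W S' R' σ' g')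
    {k : ℕ} (ψ : Fml Empty k) {t : Fin k → Te} (ht : ∀ l, (t l).Ok Q S)
    (ht' : ∀ l, (t l).Ok Q S') {y y' : Fin k → ZFSet.{0}} (hy : ∀ l, (t l).V R σ g (y l))
    (hy' : ∀ l, (t l).V R' σ' g' (y' l)) :
    Sat R Empty.elim ψ y ↔ Sat R' Empty.elim ψ y' := by
  obtain ⟨a, ha, u, hu, h1, h2, θ, hθ⟩ := common hP k t ht
  have huS : ∀ x ∈ u, x ∈ S := fun x hx => by
    obtain ⟨l, hl⟩ := h2 x hx
    exact (ht l).2.2 x hl
  have huS' : ∀ x ∈ u, x ∈ S' := fun x hx => by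
    obtain ⟨l, hl⟩ := h2 x hx
    exact (ht' l).2.2 x hl
  let P : Pr := fun M _ b s => ∃ z : Fin k → ZFSet.{0}, (∀ i, z i ∈ M) ∧
    (∀ i, Dy M (θ i) (z i) b s) ∧ Sat M Empty.elim ψ z
  have hPr : UPr P := by
    unfold UPr
    refine UD.exN k 3 (fun M z v => (∀ i, Dy M (θ i) (z i) (v 1) (v 2)) ∧
      Sat M Empty.elim ψ z) fun l ρ τ => ?_
    apply UD.and
    · exact UD.allFin fun i => UD.comp (ud_Dy (θ i)) ![ρ i, τ 1, τ 2]
    · exact UD.comp (UD.sat ψ) ρ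
  have key : ∀ {S R : Set ZFSet.{0}} {σ g : ZFSet.{0} → ZFSet.{0}} {y : Fin k → ZFSet.{0}},
      Rea Q W S R σ g → (∀ x ∈ u, x ∈ S) → (∀ l, (t l).V R σ g (y l)) →
      (P R (σ W) (σ a) (im g u) ↔ Sat R Empty.elim ψ y) := by
    intro S R σ g y h huS hy
    constructor
    · rintro ⟨z, hz, h3, h4⟩
      have h5 : z = y := by
        funext l
        exact (h3 l).uniq (hz l) ((hθ S R σ g h huS l (y l)).1 (hy l).2)
      rwa [h5] at h4
    · intro h3
      exact ⟨y, fun i => (hy i).1, fun i => (hθ S R σ g h huS i (y i)).1 (hy i).2, h3⟩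
  rw [← key h huS hy, ← key h' huS' hy', h.tt0 hP h' hPr ha hu huS huS']

/-- The existence of a value does not depend on the realization. -/
theorem tv {Q : Set ZFSet.{0}} {W : ZFSet.{0}} (hP : Pm Q W) {S R S' R' : Set ZFSet.{0}}
    {σ g σ' g' : ZFSet.{0} → ZFSet.{0}} (h : Rea Q W S R σ g) (h' : Rea Q W S' R' σ' g')
    {t : Te} (ht : t.Ok Q S) (ht' : t.Ok Q S') (hy : ∃ y, t.V R σ g y) :
    ∃ y, t.V R' σ' g' y := by
  let P : Pr := fun M _ b s => ∃ y ∈ M, Dy M t.f y b s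
  have hPr : UPr P := by
    unfold UPr
    apply UD.ex
    exact UD.comp (ud_Dy t.f) ![0, 2, 3]
  obtain ⟨y, hy1, hy2⟩ := hy
  have h1 : P R (σ W) (σ t.a) (im g t.s) := ⟨y, hy1, hy2⟩
  rw [h.tt0 hP h' hPr ht.1 ht.2.1 ht.2.2 ht'.2.2] at h1
  obtain ⟨y', h2, h3⟩ := h1
  exact ⟨y', h2, h3⟩

/-- Witnesses are values of terms. -/
theorem sk {Q : Set ZFSet.{0}} {W : ZFSet.{0}} (hP : Pm Q W) {S R : Set ZFSet.{0}}
    {σ g : ZFSet.{0} → ZFSet.{0}} (h : Rea Q W S R σ g) {k : ℕ} (ψ : Fml Empty (k + 1))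
    {t : Fin k → Te} (ht : ∀ l, (t l).Ok Q S) {y : Fin k → ZFSet.{0}}
    (hy : ∀ l, (t l).V R σ g (y l)) (hex : ∃ x ∈ R, Sat R Empty.elim ψ (Fin.cons x y)) :
    ∃ t0 : Te, t0.Ok Q S ∧ (∀ x ∈ t0.s, ∃ l, x ∈ (t l).s) ∧ ∃ y0, t0.V R σ g y0 ∧
      Sat R Empty.elim ψ (Fin.cons y0 y) := by
  obtain ⟨a, ha, u, hu, h1, h2, θ, hθ⟩ := common hP k t ht
  have huS : ∀ x ∈ u, x ∈ S := fun x hx => by
    obtain ⟨l, hl⟩ := h2 x hx
    exact (ht l).2.2 x hl
  have huR := h.imR hP hu huS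
  have haR := h.el.maps _ ha
  have hWR := h.el.maps _ hP.mem
  have hG := h.toGen hP
  have hu1 : UD fun M (v : Fin 3 → ZFSet.{0}) => ∃ z : Fin k → ZFSet.{0}, (∀ i, z i ∈ M) ∧
      (∀ i, Dy M (θ i) (z i) (v 1) (v 2)) ∧ Sat M Empty.elim ψ (Fin.cons (v 0) z) := by
    refine UD.exN k 3 (fun M z v => (∀ i, Dy M (θ i) (z i) (v 1) (v 2)) ∧
      Sat M Empty.elim ψ (Fin.cons (v 0) z)) fun l ρ τ => ?_
    apply UD.and
    · exact UD.allFin fun i => UD.comp (ud_Dy (θ i)) ![ρ i, τ 1, τ 2]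
    · refine (UD.comp (UD.sat ψ) (Fin.cons (τ 0) ρ)).congr fun M _ _ w _ => ?_
      have h3 : (fun i => w ((Fin.cons (τ 0) ρ : Fin (k + 1) → Fin l) i)) =
          Fin.cons (w (τ 0)) fun i => w (ρ i) := by
        funext i
        refine Fin.cases ?_ (fun i => ?_) i
        · rfl
        · rfl
      rw [h3]
  obtain ⟨τ, hτ⟩ := hu1
  have hτ' : ∀ z ∈ R, (Sat R Empty.elim τ ![z, σ a, im g u] ↔
      Sat R Empty.elim ψ (Fin.cons z y)) := by
    intro z hz
    rw [hτ R h.trans (h.zero hP) _ (by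
      intro i
      fin_cases i
      exacts [hz, haR, huR])]
    constructor
    · rintro ⟨z', hz', h3, h4⟩
      have h5 : z' = y := by
        funext l
        exact (h3 l).uniq (hz' l) ((hθ S R σ g h huS l (y l)).1 (hy l).2)
      rwa [h5] at h4
    · intro h3
      exact ⟨y, fun i => (hy i).1, fun i => (hθ S R σ g h huS i (y i)).1 (hy i).2, h3⟩
  obtain ⟨χ, hχ⟩ := (h.pm hP).sko
  obtain ⟨x, hx, hψ⟩ := hex
  obtain ⟨y0, hy0, h3, h4⟩ := hχ τ ![σ a, im g u] (by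
    intro i
    fin_cases i
    exacts [haR, huR]) ⟨x, hx, (hτ' x hx).2 hψ⟩
  have h3' : Sat R Empty.elim τ ![y0, σ a, im g u] := h3
  have h4' : ∀ z ∈ R, Sat R Empty.elim τ ![z, σ a, im g u] → z ≠ y0 →
      Sat R Empty.elim χ ![y0, z, σ W] ∧ ¬ Sat R Empty.elim χ ![z, y0, σ W] := h4
  -- the term
  have hu2 : UD fun M (v : Fin 3 → ZFSet.{0}) => ∃ a ∈ M, ∃ w ∈ M, v 1 = pair a w ∧
      Sat M Empty.elim τ ![v 0, a, v 2] ∧ ∀ z ∈ M, Sat M Empty.elim τ ![z, a, v 2] →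
        z ≠ v 0 → Sat M Empty.elim χ ![v 0, z, w] ∧ ¬ Sat M Empty.elim χ ![z, v 0, w] := by
    have e3 : ∀ (φ : Fml Empty 3) {n : ℕ} (i j l : Fin n),
        UD fun M (v : Fin n → ZFSet.{0}) => Sat M Empty.elim φ ![v i, v j, v l] := by
      intro φ n i j l
      refine (UD.comp (UD.sat φ) ![i, j, l]).congr fun M _ _ v _ => ?_
      have h : (fun m => v ((![i, j, l] : Fin 3 → Fin n) m)) = ![v i, v j, v l] := by
        funext m
        fin_cases m <;> rfl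
      rw [h]
    apply UD.ex
    apply UD.ex
    apply UD.and
    · exact UD.of_D0 (D0.isPair (D0v.proj 3) (D0v.proj 1) (D0v.proj 0))
    apply UD.and
    · exact e3 τ 2 1 4
    apply UD.all
    apply UD.imp
    · exact e3 τ 0 2 5
    apply UD.imp
    · exact (UD.of_D0 (D0.eq (D0v.proj 0) (D0v.proj 3))).not
    · exact (e3 χ 3 0 1).and (e3 χ 0 3 1).not
  obtain ⟨φ0, hφ0⟩ := hu2
  have haW := hP.pr ha hP.mem
  refine ⟨⟨φ0, pair a W, u⟩, ⟨haW, hu, huS⟩, h2, y0, ⟨hy0, fun z hz => ?_⟩,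
    (hτ' y0 hy0).1 h3'⟩
  change Sat R Empty.elim φ0 ![z, σ (pair a W), im g u] ↔ z = y0
  rw [hφ0 R h.trans (h.zero hP) _ (by
    intro i
    fin_cases i
    exacts [hz, h.el.maps _ haW, huR])]
  constructor
  · rintro ⟨a', -, w', -, h5, h6, h7⟩
    have h5' : σ (pair a W) = pair a' w' := h5
    rw [hG.map_pair ha hP.mem] at h5'
    obtain ⟨rfl, rfl⟩ := ZFSet.pair_inj.1 h5'
    by_contra hne
    exact (h4' z hz h6 hne).2 (h7 y0 hy0 h3' fun h => hne h.symm).1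
  · intro h5
    rw [h5]
    exact ⟨σ a, haR, σ W, hWR, hG.map_pair ha hP.mem, h3', h4'⟩

end Pool.Agent.R587
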