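import Pool.Agent.R587.MDefs

/-!
# Truth about the critical points of an iterate
-/

set_option autoImplicit false

namespace Pool.Agent.R587

open Pool.Agent.W868 hiding Models
open ZFSet (pair)
open Cardinal

section

variable {n : ℕ}

theorem UD.bex {Q : Set ZFSet.{0} → ZFSet.{0} → (Fin n → ZFSet.{0}) → Prop}
    {F : (Fin n → ZFSet.{0}) → ZFSet.{0}} (hF : D0v F)
    (h : UD fun M (w : Fin (n + 1) → ZFSet.{0}) => Q M (w 0) (Fin.tail w)) :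
    UD fun M v => ∃ a ∈ F v, Q M a v := by
  obtain ⟨i, hi⟩ := hF
  have h1 : UD fun M v => ∃ a ∈ M, a ∈ F v ∧ Q M a v :=
    UD.ex (Q := fun M a v => a ∈ F v ∧ Q M a v)
      ((UD.of_D0 (D0.mem (D0v.proj 0) (D0v.tail ⟨i, hi⟩))).and h)
  refine h1.congr fun M hM _ v hv => ?_
  constructor
  · rintro ⟨a, -, ha, h2⟩
    exact ⟨a, ha, h2⟩
  · rintro ⟨a, ha, h2⟩
    exact ⟨a, hM _ (hi v ▸ hv i) _ ha, ha, h2⟩

theorem UD.ball {Q : Set ZFSet.{0} → ZFSet.{0} → (Fin n → ZFSet.{0}) → Prop}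
    {F : (Fin n → ZFSet.{0}) → ZFSet.{0}} (hF : D0v F)
    (h : UD fun M (w : Fin (n + 1) → ZFSet.{0}) => Q M (w 0) (Fin.tail w)) :
    UD fun M v => ∀ a ∈ F v, Q M a v :=
  (UD.bex (Q := fun M a v => ¬ Q M a v) hF h.not).not.congr fun M _ _ v _ => by
    simp

theorem UD.or {R T : Set ZFSet.{0} → (Fin n → ZFSet.{0}) → Prop} (h : UD R) (h' : UD T) :
    UD fun M v => R M v ∨ T M v :=
  (h.not.and h'.not).not.congr fun M _ _ v _ => by tauto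

theorem UD.iff {R T : Set ZFSet.{0} → (Fin n → ZFSet.{0}) → Prop} (h : UD R) (h' : UD T) :
    UD fun M v => (R M v ↔ T M v) :=
  ((h.imp h').and (h'.imp h)).congr fun M _ _ v _ => by tauto

theorem D0.isInsert {F G H : (Fin n → ZFSet.{0}) → ZFSet.{0}} (hF : D0v F) (hG : D0v G)
    (hH : D0v H) : D0 fun v => F v = insert (G v) (H v) := by
  have h : D0 fun v => G v ∈ F v ∧ (∀ x ∈ H v, x ∈ F v) ∧ ∀ x ∈ F v, x = G v ∨ x ∈ H v := by
    apply D0.and (D0.mem hG hF)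
    apply D0.and
    · exact D0.ball hH (D0.mem (D0v.proj 0) hF.tail)
    · exact D0.ball hF ((D0.eq (D0v.proj 0) hG.tail).or (D0.mem (D0v.proj 0) hH.tail))
  refine h.congr fun v => ?_
  constructor
  · rintro ⟨h1, h2, h3⟩
    ext x
    rw [ZFSet.mem_insert_iff]
    exact ⟨h3 x, fun h => h.elim (fun h => h ▸ h1) (h2 x)⟩
  · intro h1
    rw [h1]
    exact ⟨ZFSet.mem_insert _ _, fun x hx => ZFSet.mem_insert_of_mem _ hx,
      fun x hx => ZFSet.mem_insert_iff.1 hx⟩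

end

/-- Transfer of uniformly first-order relations. -/
theorem Elem.tr {Q R : Set ZFSet.{0}} {σ : ZFSet.{0} → ZFSet.{0}} (h : Elem Q R σ)
    (hQ : ∀ x ∈ Q, ∀ y ∈ x, y ∈ Q) (h0 : ∅ ∈ Q) (hR : ∀ x ∈ R, ∀ y ∈ x, y ∈ R) (h0' : ∅ ∈ R)
    {n : ℕ} {P : Set ZFSet.{0} → (Fin n → ZFSet.{0}) → Prop} (hP : UD P)
    {v : Fin n → ZFSet.{0}} (hv : ∀ i, v i ∈ Q) : P Q v ↔ P R fun i => σ (v i) := by
  obtain ⟨φ, hφ⟩ := hP
  rw [← hφ Q hQ h0 v hv, h.sat φ v hv, hφ R hR h0' _ fun i => h.maps _ (hv i)]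

theorem Elem.map_empty {Q R : Set ZFSet.{0}} {σ : ZFSet.{0} → ZFSet.{0}} (h : Elem Q R σ)
    (h0 : ∅ ∈ Q) (hR : ∀ x ∈ R, ∀ y ∈ x, y ∈ R) : σ ∅ = ∅ := by
  have h1 := h.sat (.ex (.mem (Sum.inl 0) (Sum.inl 1)) : Fml Empty 1) ![∅] (by
    intro i
    fin_cases i
    exact h0)
  rw [ZFSet.eq_empty]
  intro y hy
  have h2 : Sat R Empty.elim (.ex (.mem (Sum.inl 0) (Sum.inl 1)) : Fml Empty 1)
      fun i => σ ((![∅] : Fin 1 → ZFSet.{0}) i) := ⟨y, hR _ (h.maps _ h0) _ hy, hy⟩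
  obtain ⟨z, -, hz⟩ := h1.2 h2
  exact ZFSet.notMem_empty z hz

namespace Pm

variable {Q : Set ZFSet.{0}} {W : ZFSet.{0}} (hP : Pm Q W)

include hP

theorem trans : ∀ x ∈ Q, ∀ y ∈ x, y ∈ Q := hP.base.trans

theorem zero : ∅ ∈ Q := hP.trans _ hP.om _ ZFSet.omega_zero

theorem ins {x y : ZFSet.{0}} (hx : x ∈ Q) (hy : y ∈ Q) : (insert x y : ZFSet.{0}) ∈ Q := by
  have h1 := hP.base.pairing x hx x hx
  have h2 := hP.base.union _ (hP.base.pairing _ h1 _ hy)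
  have h3 : (ZFSet.sUnion {({x, x} : ZFSet.{0}), y} : ZFSet.{0}) = insert x y := by
    ext z
    simp
  rwa [h3] at h2

theorem pr {x y : ZFSet.{0}} (hx : x ∈ Q) (hy : y ∈ Q) : pair x y ∈ Q := by
  have h1 := hP.base.pairing x hx x hx
  rw [ZFSet.pair_eq_singleton] at h1
  exact hP.base.pairing _ h1 _ (hP.base.pairing _ hx _ hy)

theorem kQ : (ZFSet.sUnion W : ZFSet.{0}) ∈ Q := hP.base.union _ hP.mem

theorem sepU {n : ℕ} {P : Set ZFSet.{0} → (Fin (n + 1) → ZFSet.{0}) → Prop} (h : UD P)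
    {v : Fin n → ZFSet.{0}} (hv : ∀ i, v i ∈ Q) {x : ZFSet.{0}} (hx : x ∈ Q) :
    ZFSet.sep (fun y => P Q (Fin.cons y v)) x ∈ Q := by
  obtain ⟨φ, hφ⟩ := h
  have h1 := hP.comp φ v hv x hx
  have h2 : ZFSet.sep (fun y => P Q (Fin.cons y v)) x =
      ZFSet.sep (fun y => Sat Q Empty.elim φ (Fin.cons y v)) x := by
    ext y
    rw [ZFSet.mem_sep, ZFSet.mem_sep]
    refine and_congr_right fun hy => (hφ Q hP.trans hP.zero _ fun i => ?_).symm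
    refine Fin.cases ?_ (fun i => ?_) i
    · exact hP.trans _ hx _ hy
    · exact hv i
  rwa [h2]

theorem kW : (ZFSet.sUnion W : ZFSet.{0}) ∈ W := by
  rcases hP.ultra ∅ hP.zero (ZFSet.empty_subset _) with h | h
  · exact absurd h hP.ne
  · have h1 : (ZFSet.sUnion W : ZFSet.{0}) \ ∅ = ZFSet.sUnion W := by
      ext z
      simp
    rwa [h1] at h

omit hP in
theorem sub_k {A : ZFSet.{0}} (hA : A ∈ W) : A ⊆ (ZFSet.sUnion W : ZFSet.{0}) :=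
  fun _ hy => ZFSet.mem_sUnion.2 ⟨A, hA, hy⟩

theorem upw {A B : ZFSet.{0}} (hA : A ∈ W) (hB : B ∈ Q) (hBk : B ⊆ (ZFSet.sUnion W : ZFSet.{0}))
    (h : A ⊆ B) : B ∈ W := by
  rcases hP.ultra B hB hBk with h1 | h1
  · exact h1
  · exfalso
    have h2 := hP.inter _ hA _ h1
    have h3 : A ∩ ((ZFSet.sUnion W : ZFSet.{0}) \ B) = ∅ := by
      rw [ZFSet.eq_empty]
      intro z hz
      rw [ZFSet.mem_inter, ZFSet.mem_sdiff] at hz
      exact hz.2.2 (h hz.1)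
    rw [h3] at h2
    exact hP.ne h2

theorem inhab {A : ZFSet.{0}} (hA : A ∈ W) : ∃ x, x ∈ A := by
  by_contra h
  have h1 : A = ∅ := (ZFSet.eq_empty _).2 fun y hy => h ⟨y, hy⟩
  exact hP.ne (h1 ▸ hA)

theorem ordk {α : ZFSet.{0}} (h : α ∈ (ZFSet.sUnion W : ZFSet.{0})) : α.IsOrdinal := hP.ord.mem h

end Pm

/-! ### Quantifiers -/

/-- The predicates of a class, the measure, a parameter, and a finite set. -/
abbrev Pr : Type 1 := Set ZFSet.{0} → ZFSet.{0} → ZFSet.{0} → ZFSet.{0} → Prop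

/-- The uniformly first-order predicates. -/
def UPr (P : Pr) : Prop := UD fun M (v : Fin 3 → ZFSet.{0}) => P M (v 0) (v 1) (v 2)

/-- For almost all `η` above `s`, the predicate holds of `insert η s`. -/
def WQ (P : Pr) : Pr := fun M W a s => ∃ B ∈ M, B ∈ W ∧ ∀ η ∈ B, (∀ ξ ∈ s, ξ ∈ η) →
  ∀ t ∈ M, t = insert η s → P M W a t

theorem UPr.wq {P : Pr} (h : UPr P) : UPr (WQ P) := by
  unfold UPr WQ
  apply UD.ex
  apply UD.and
  · exact UD.of_D0 (D0.mem (D0v.proj 0) (D0v.proj 1))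
  apply UD.ball (D0v.proj 0)
  apply UD.imp
  · exact UD.of_D0 (D0.ball (D0v.proj 4) (D0.mem (D0v.proj 0) (D0v.proj 1)))
  apply UD.all
  apply UD.imp
  · exact UD.of_D0 (D0.isInsert (D0v.proj 0) (D0v.proj 1) (D0v.proj 5))
  · exact UD.comp h ![3, 4, 0]

theorem UPr.iter {P : Pr} (h : UPr P) (n : ℕ) : UPr (WQ^[n] P) := by
  induction n generalizing P with
  | zero => exact h
  | succ n ih =>
    rw [Function.iterate_succ_apply]
    exact ih h.wq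

theorem UPr.not {P : Pr} (h : UPr P) : UPr fun M W a s => ¬ P M W a s := UD.not h

/-- The predicates with an additional ordinal. -/
abbrev Gr : Type 1 :=
  Set ZFSet.{0} → ZFSet.{0} → ZFSet.{0} → ZFSet.{0} → ZFSet.{0} → Prop

/-- The uniformly first-order predicates. -/
def UGr (G : Gr) : Prop := UD fun M (v : Fin 4 → ZFSet.{0}) => G M (v 0) (v 1) (v 2) (v 3)

/-- The diagonal operation. -/
def NO (G : Gr) : Gr := fun M W a t η => ∀ ξ ∈ η, (∀ ζ ∈ t, ζ ∈ ξ) →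
  ∀ t' ∈ M, t' = insert ξ t → G M W a t' η

theorem UGr.no {G : Gr} (h : UGr G) : UGr (NO G) := by
  unfold UGr NO
  apply UD.ball (D0v.proj 3)
  apply UD.imp
  · exact UD.of_D0 (D0.ball (D0v.proj 3) (D0.mem (D0v.proj 0) (D0v.proj 1)))
  apply UD.all
  apply UD.imp
  · exact UD.of_D0 (D0.isInsert (D0v.proj 0) (D0v.proj 1) (D0v.proj 4))
  · exact UD.comp h ![2, 3, 0, 5]

theorem UGr.iter {G : Gr} (h : UGr G) (n : ℕ) : UGr (NO^[n] G) := by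
  induction n generalizing G with
  | zero => exact h
  | succ n ih =>
    rw [Function.iterate_succ_apply]
    exact ih h.no

namespace Pm

variable {Q : Set ZFSet.{0}} {W : ZFSet.{0}} (hP : Pm Q W)

include hP

theorem dich {P : Pr} (h : UPr P) {a t : ZFSet.{0}} (ha : a ∈ Q) (ht : t ∈ Q) :
    WQ P Q W a t ∨ WQ (fun M W a s => ¬ P M W a s) Q W a t := by
  have hu : UD fun M (v : Fin 4 → ZFSet.{0}) => (∀ ξ ∈ v 3, ξ ∈ v 0) →
      ∀ t' ∈ M, t' = insert (v 0) (v 3) → P M (v 1) (v 2) t' := by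
    apply UD.imp
    · exact UD.of_D0 (D0.ball (D0v.proj 3) (D0.mem (D0v.proj 0) (D0v.proj 1)))
    apply UD.all
    apply UD.imp
    · exact UD.of_D0 (D0.isInsert (D0v.proj 0) (D0v.proj 1) (D0v.proj 4))
    · exact UD.comp h ![2, 3, 0]
  have h1 := hP.sepU hu (v := ![W, a, t]) (by
    intro i
    fin_cases i
    exacts [hP.mem, ha, ht]) hP.kQ
  rcases hP.ultra _ h1 (fun y hy => (ZFSet.mem_sep.1 hy).1) with h2 | h2
  · left
    refine ⟨_, h1, h2, fun η hη hs t' ht' h3 => ?_⟩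
    exact (ZFSet.mem_sep.1 hη).2 hs t' ht' h3
  · right
    refine ⟨_, hP.trans _ hP.mem _ h2, h2, fun η hη hs t' ht' h3 h4 => ?_⟩
    rw [ZFSet.mem_sdiff, ZFSet.mem_sep, not_and] at hη
    refine hη.2 hη.1 fun _ t'' _ h5 => ?_
    have h6 : t'' = t' := h5.trans h3.symm
    rw [h6]
    exact h4

/-- Normality, for predicates. -/
theorem no_step {G : Gr} (hG : UGr G) {a : ZFSet.{0}} (ha : a ∈ Q)
    (h : ∀ t ∈ Q, ∃ B ∈ W, ∀ η ∈ B, (∀ ξ ∈ t, ξ ∈ η) → G Q W a t η) :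
    ∀ t ∈ Q, ∃ B ∈ W, ∀ η ∈ B, (∀ ξ ∈ t, ξ ∈ η) → NO G Q W a t η := by
  intro t ht
  have hu : UD fun M (v : Fin 4 → ZFSet.{0}) => ∀ ξ ∈ M, ∀ η ∈ M, v 0 = pair ξ η →
      (∀ ζ ∈ v 3, ζ ∈ ξ) → ∀ t' ∈ M, t' = insert ξ (v 3) → (∀ ζ ∈ t', ζ ∈ η) →
      G M (v 1) (v 2) t' η := by
    apply UD.all
    apply UD.all
    apply UD.imp
    · exact UD.of_D0 (D0.isPair (D0v.proj 2) (D0v.proj 1) (D0v.proj 0))
    apply UD.imp
    · exact UD.of_D0 (D0.ball (D0v.proj 5) (D0.mem (D0v.proj 0) (D0v.proj 2)))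
    apply UD.all
    apply UD.imp
    · exact UD.of_D0 (D0.isInsert (D0v.proj 0) (D0v.proj 2) (D0v.proj 6))
    apply UD.imp
    · exact UD.of_D0 (D0.ball (D0v.proj 0) (D0.mem (D0v.proj 0) (D0v.proj 2)))
    · exact UD.comp hG ![4, 5, 0, 1]
  have hF := hP.sepU hu (v := ![W, a, t]) (by
    intro i
    fin_cases i
    exacts [hP.mem, ha, ht]) (hP.prod _ hP.kQ _ hP.kQ)
  set F := ZFSet.sep (fun p => (fun M (v : Fin 4 → ZFSet.{0}) => ∀ ξ ∈ M, ∀ η ∈ M,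
      v 0 = pair ξ η → (∀ ζ ∈ v 3, ζ ∈ ξ) → ∀ t' ∈ M, t' = insert ξ (v 3) →
      (∀ ζ ∈ t', ζ ∈ η) → G M (v 1) (v 2) t' η) Q (Fin.cons p ![W, a, t]))
      (ZFSet.prod (ZFSet.sUnion W) (ZFSet.sUnion W)) with hFdef
  have hmem : ∀ ξ ∈ (ZFSet.sUnion W : ZFSet.{0}), ∀ η ∈ (ZFSet.sUnion W : ZFSet.{0}),
      (pair ξ η ∈ F ↔ ((∀ ζ ∈ t, ζ ∈ ξ) → (∀ ζ ∈ (insert ξ t : ZFSet.{0}), ζ ∈ η) →
        G Q W a (insert ξ t) η)) := by
    intro ξ hξ η hη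
    rw [hFdef, ZFSet.mem_sep, ZFSet.pair_mem_prod]
    constructor
    · rintro ⟨-, h1⟩ h2 h3
      exact h1 ξ (hP.trans _ hP.kQ _ hξ) η (hP.trans _ hP.kQ _ hη) rfl h2 _
        (hP.ins (hP.trans _ hP.kQ _ hξ) ht) rfl h3
    · intro h1
      refine ⟨⟨hξ, hη⟩, ?_⟩
      rintro ξ' - η' - h2 h3 t' - rfl h4
      have h2' : pair ξ η = pair ξ' η' := h2
      obtain ⟨rfl, rfl⟩ := ZFSet.pair_inj.1 h2'
      exact h1 h3 h4
  have hsec : ∀ ξ ∈ (ZFSet.sUnion W : ZFSet.{0}),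
      ZFSet.sep (fun η => pair ξ η ∈ F) (ZFSet.sUnion W) ∈ W := by
    intro ξ hξ
    have hξQ := hP.trans _ hP.kQ _ hξ
    obtain ⟨B, hB, hB'⟩ := h _ (hP.ins hξQ ht)
    have hu2 : UD fun _ (v : Fin 3 → ZFSet.{0}) => pair (v 1) (v 0) ∈ v 2 :=
      UD.of_D0 (D0.pairMem (D0v.proj 1) (D0v.proj 0) (D0v.proj 2))
    have h1 := hP.sepU hu2 (v := ![ξ, F]) (by
      intro i
      fin_cases i
      exacts [hξQ, hF]) hP.kQ
    refine hP.upw hB h1 (fun y hy => (ZFSet.mem_sep.1 hy).1) fun η hη => ?_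
    have hηk := sub_k hB hη
    exact ZFSet.mem_sep.2 ⟨hηk, (hmem ξ hξ η hηk).2 fun _ h3 => hB' η hη h3⟩
  refine ⟨_, hP.norm F hF hsec, fun η hη hs ξ hξ h1 t' _ ht' => ?_⟩
  obtain ⟨hηk, h2⟩ := ZFSet.mem_sep.1 hη
  have hξk := hP.ord.mem_trans hξ hηk
  subst ht'
  refine (hmem ξ hξk η hηk).1 (h2 ξ hξ) h1 fun ζ hζ => ?_
  rcases ZFSet.mem_insert_iff.1 hζ with rfl | hζ
  · exact hξ
  · exact hs ζ hζ

theorem no_iter {G : Gr} (hG : UGr G) {a : ZFSet.{0}} (ha : a ∈ Q)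
    (h : ∀ t ∈ Q, ∃ B ∈ W, ∀ η ∈ B, (∀ ξ ∈ t, ξ ∈ η) → G Q W a t η) (n : ℕ) :
    ∀ t ∈ Q, ∃ B ∈ W, ∀ η ∈ B, (∀ ξ ∈ t, ξ ∈ η) → (NO^[n] G) Q W a t η := by
  induction n generalizing G with
  | zero => exact h
  | succ n ih =>
    rw [Function.iterate_succ_apply]
    exact ih hG.no (hP.no_step hG ha h)

end Pm

/-- The use of the iterated diagonal operation. -/
theorem no_elim {R : Set ZFSet.{0}} (hins : ∀ x ∈ R, ∀ y ∈ R, (insert x y : ZFSet.{0}) ∈ R)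
    {C : Set ZFSet.{0}} (hC : ∀ c ∈ C, c ∈ R) (h0 : ∅ ∈ R)
    {n : ℕ} {s : ZFSet.{0}} (hs : Inc C n s) :
    ∀ {G : Gr} {W a η : ZFSet.{0}}, (∀ ξ ∈ s, ξ ∈ η) → (NO^[n] G) R W a ∅ η →
      s ∈ R ∧ G R W a s η := by
  induction hs with
  | zero =>
    intro G W a η _ h
    exact ⟨h0, h⟩
  | @succ n s c _ hc hlt ih =>
    intro G W a η h1 h2
    rw [Function.iterate_succ_apply] at h2
    obtain ⟨hs, h3⟩ := ih (fun ξ hξ => h1 ξ (ZFSet.mem_insert_of_mem _ hξ)) h2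
    have h4 := hins c (hC c hc) s hs
    exact ⟨h4, h3 c (h1 c (ZFSet.mem_insert _ _)) hlt _ h4 rfl⟩

/-! ### The iterates -/

/-- An elementary map such that the elements of `C` are in the images of the sets of
measure one. -/
structure Gen (Q : Set ZFSet.{0}) (W : ZFSet.{0}) (R : Set ZFSet.{0})
    (σ : ZFSet.{0} → ZFSet.{0}) (C : Set ZFSet.{0}) : Prop where
  pm : Pm Q W
  trans : ∀ x ∈ R, ∀ y ∈ x, y ∈ R
  el : Elem Q R σ
  gen : ∀ c ∈ C, ∀ A ∈ W, c ∈ σ A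

theorem Rlz.toGen {Q R : Set ZFSet.{0}} {W : ZFSet.{0}} {σ : ZFSet.{0} → ZFSet.{0}}
    {C : Set ZFSet.{0}} (h : Rlz Q W R σ C) (hP : Pm Q W) : Gen Q W R σ C :=
  ⟨hP, h.trans, h.el, h.gen⟩

namespace Gen

variable {Q R : Set ZFSet.{0}} {W : ZFSet.{0}} {σ : ZFSet.{0} → ZFSet.{0}}
  {C : Set ZFSet.{0}} (h : Gen Q W R σ C)

include h

theorem zero : ∅ ∈ R := h.el.map_empty h.pm.zero h.trans ▸ h.el.maps _ h.pm.zero

theorem tr {n : ℕ} {P : Set ZFSet.{0} → (Fin n → ZFSet.{0}) → Prop} (hP : UD P)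
    {v : Fin n → ZFSet.{0}} (hv : ∀ i, v i ∈ Q) : P Q v ↔ P R fun i => σ (v i) :=
  h.el.tr h.pm.trans h.pm.zero h.trans h.zero hP hv

theorem tr0 {P : Set ZFSet.{0} → Prop} (hP : UD fun M (_ : Fin 0 → ZFSet.{0}) => P M) :
    P Q ↔ P R := h.tr hP (v := Fin.elim0) fun i => i.elim0

theorem tr1 {P : Set ZFSet.{0} → ZFSet.{0} → Prop}
    (hP : UD fun M (v : Fin 1 → ZFSet.{0}) => P M (v 0)) {a : ZFSet.{0}} (ha : a ∈ Q) :
    P Q a ↔ P R (σ a) := h.tr hP (v := ![a]) (by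
      intro i
      fin_cases i
      exact ha)

theorem tr2 {P : Set ZFSet.{0} → ZFSet.{0} → ZFSet.{0} → Prop}
    (hP : UD fun M (v : Fin 2 → ZFSet.{0}) => P M (v 0) (v 1)) {a b : ZFSet.{0}} (ha : a ∈ Q)
    (hb : b ∈ Q) : P Q a b ↔ P R (σ a) (σ b) := h.tr hP (v := ![a, b]) (by
      intro i
      fin_cases i
      exacts [ha, hb])

theorem tr3 {P : Set ZFSet.{0} → ZFSet.{0} → ZFSet.{0} → ZFSet.{0} → Prop}
    (hP : UD fun M (v : Fin 3 → ZFSet.{0}) => P M (v 0) (v 1) (v 2)) {a b c : ZFSet.{0}}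
    (ha : a ∈ Q) (hb : b ∈ Q) (hc : c ∈ Q) : P Q a b c ↔ P R (σ a) (σ b) (σ c) :=
  h.tr hP (v := ![a, b, c]) (by
      intro i
      fin_cases i
      exacts [ha, hb, hc])

theorem tr4 {P : Set ZFSet.{0} → ZFSet.{0} → ZFSet.{0} → ZFSet.{0} → ZFSet.{0} → Prop}
    (hP : UD fun M (v : Fin 4 → ZFSet.{0}) => P M (v 0) (v 1) (v 2) (v 3))
    {a b c d : ZFSet.{0}} (ha : a ∈ Q) (hb : b ∈ Q) (hc : c ∈ Q) (hd : d ∈ Q) :
    P Q a b c d ↔ P R (σ a) (σ b) (σ c) (σ d) :=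
  h.tr hP (v := ![a, b, c, d]) (by
      intro i
      fin_cases i
      exacts [ha, hb, hc, hd])

theorem empty : σ ∅ = ∅ := h.el.map_empty h.pm.zero h.trans

theorem inj {a b : ZFSet.{0}} (ha : a ∈ Q) (hb : b ∈ Q) (hab : σ a = σ b) : a = b :=
  (h.tr2 (P := fun _ x y => x = y) (UD.of_D0 (D0.eq (D0v.proj 0) (D0v.proj 1))) ha hb).2 hab

theorem memi {a b : ZFSet.{0}} (ha : a ∈ Q) (hb : b ∈ Q) : a ∈ b ↔ σ a ∈ σ b :=
  h.tr2 (P := fun _ x y => x ∈ y) (UD.of_D0 (D0.mem (D0v.proj 0) (D0v.proj 1))) ha hb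

theorem cR {c : ZFSet.{0}} (hc : c ∈ C) : c ∈ R :=
  h.trans _ (h.el.maps _ (h.pm.trans _ h.pm.mem _ h.pm.kW)) _ (h.gen c hc _ h.pm.kW)

/-- The image of the critical point. -/
theorem map_k : σ (ZFSet.sUnion W) = ZFSet.sUnion (σ W) := by
  have hu : UD fun _ (v : Fin 2 → ZFSet.{0}) => (∀ x ∈ v 0, ∃ y ∈ v 1, x ∈ y) ∧
      ∀ y ∈ v 1, ∀ x ∈ y, x ∈ v 0 := by
    apply UD.of_D0
    apply D0.and
    · apply D0.ball (D0v.proj 0)
      apply D0.bex (D0v.proj 2)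
      exact D0.mem (D0v.proj 1) (D0v.proj 0)
    · apply D0.ball (D0v.proj 1)
      apply D0.ball (D0v.proj 0)
      exact D0.mem (D0v.proj 0) (D0v.proj 2)
  obtain ⟨h1, h2⟩ := (h.tr2 (P := fun _ z w => (∀ x ∈ z, ∃ y ∈ w, x ∈ y) ∧
      ∀ y ∈ w, ∀ x ∈ y, x ∈ z) hu h.pm.kQ h.pm.mem).1
    ⟨fun x hx => ZFSet.mem_sUnion.1 hx, fun y hy x hx => ZFSet.mem_sUnion.2 ⟨y, hy, hx⟩⟩
  ext x
  rw [ZFSet.mem_sUnion]
  exact ⟨h1 x, fun ⟨y, hy, hx⟩ => h2 y hy x hx⟩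

theorem ck {c : ZFSet.{0}} (hc : c ∈ C) : c ∈ (ZFSet.sUnion (σ W) : ZFSet.{0}) :=
  h.map_k ▸ h.gen c hc _ h.pm.kW

theorem ordR : (ZFSet.sUnion (σ W) : ZFSet.{0}).IsOrdinal := by
  rw [← h.map_k]
  exact (h.tr1 (P := fun _ x => x.IsOrdinal) (UD.of_D0 (D0.isOrdinal (D0v.proj 0))) h.pm.kQ).1
    h.pm.ord

theorem insR : ∀ x ∈ R, ∀ y ∈ R, (insert x y : ZFSet.{0}) ∈ R := by
  have hu : UD fun M (_ : Fin 0 → ZFSet.{0}) => ∀ x ∈ M, ∀ y ∈ M, ∃ z ∈ M, z = insert x y := by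
    apply UD.all
    apply UD.all
    apply UD.ex
    exact UD.of_D0 (D0.isInsert (D0v.proj 0) (D0v.proj 2) (D0v.proj 1))
  have h1 := (h.tr0 (P := fun M => ∀ x ∈ M, ∀ y ∈ M, ∃ z ∈ M, z = insert x y) hu).1
    fun x hx y hy => ⟨_, h.pm.ins hx hy, rfl⟩
  intro x hx y hy
  obtain ⟨z, hz, rfl⟩ := h1 x hx y hy
  exact hz

theorem incR {n : ℕ} {s : ZFSet.{0}} (hs : Inc C n s) : s ∈ R := by
  induction hs with
  | zero => exact h.zero
  | succ _ hc _ ih => exact h.insR _ (h.cR hc) _ ih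

/-- One direction of the description of the truth about a new critical point. -/
theorem wq_aux {P : Pr} (hP : UPr P) {a : ZFSet.{0}} (ha : a ∈ Q) {n : ℕ} {s c : ZFSet.{0}}
    (hs : Inc C n s) (hc : c ∈ C) (hlt : ∀ ξ ∈ s, ξ ∈ c) (hw : WQ P R (σ W) (σ a) s) :
    P R (σ W) (σ a) (insert c s) := by
  let G : Gr := fun M W a t η => WQ P M W a t → ∀ t' ∈ M, t' = insert η t → P M W a t'
  have hG : UGr G := by
    unfold UGr
    apply UD.imp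
    · exact UD.comp hP.wq ![0, 1, 2]
    apply UD.all
    apply UD.imp
    · exact UD.of_D0 (D0.isInsert (D0v.proj 0) (D0v.proj 4) (D0v.proj 3))
    · exact UD.comp hP ![1, 2, 0]
  have h1 : ∀ t ∈ Q, ∃ B ∈ W, ∀ η ∈ B, (∀ ξ ∈ t, ξ ∈ η) → G Q W a t η := by
    intro t _
    by_cases h2 : WQ P Q W a t
    · obtain ⟨B, -, hB, h3⟩ := h2
      exact ⟨B, hB, fun η hη hs _ => h3 η hη hs⟩
    · exact ⟨_, h.pm.kW, fun η _ _ h3 => absurd h3 h2⟩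
  obtain ⟨B, hB, h2⟩ := h.pm.no_iter hG ha h1 n ∅ h.pm.zero
  have hBQ := h.pm.trans _ h.pm.mem _ hB
  have hu : UD fun M (v : Fin 4 → ZFSet.{0}) => ∀ η ∈ v 0, (NO^[n] G) M (v 1) (v 2) (v 3) η := by
    apply UD.ball (D0v.proj 0)
    exact UD.comp (hG.iter n) ![2, 3, 4, 0]
  have h3 := (h.tr4 (P := fun M B W a e => ∀ η ∈ B, (NO^[n] G) M W a e η) hu hBQ h.pm.mem ha
    h.pm.zero).1 fun η hη => h2 η hη fun ξ hξ => absurd hξ (ZFSet.notMem_empty ξ)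
  have h4 := h3 c (h.gen c hc B hB)
  rw [h.empty] at h4
  obtain ⟨h5, h6⟩ := no_elim h.insR (fun c hc => h.cR hc) h.zero hs hlt h4
  exact h6 hw _ (h.insR _ (h.cR hc) _ h5) rfl

/-- The truth about a new critical point. -/
theorem wq_iff {P : Pr} (hP : UPr P) {a : ZFSet.{0}} (ha : a ∈ Q) {n : ℕ} {s c : ZFSet.{0}}
    (hs : Inc C n s) (hc : c ∈ C) (hlt : ∀ ξ ∈ s, ξ ∈ c) :
    P R (σ W) (σ a) (insert c s) ↔ WQ P R (σ W) (σ a) s := by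
  constructor
  · intro h1
    by_contra h2
    have hu : UD fun M (v : Fin 2 → ZFSet.{0}) => ∀ t ∈ M, WQ P M (v 0) (v 1) t ∨
        WQ (fun M W a s => ¬ P M W a s) M (v 0) (v 1) t := by
      apply UD.all
      apply UD.or
      · exact UD.comp hP.wq ![1, 2, 0]
      · exact UD.comp hP.not.wq ![1, 2, 0]
    have h3 := (h.tr2 (P := fun M W a => ∀ t ∈ M, WQ P M W a t ∨
        WQ (fun M W a s => ¬ P M W a s) M W a t) hu h.pm.mem ha).1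
      fun t ht => h.pm.dich hP ha ht
    exact h.wq_aux hP.not ha hs hc hlt ((h3 s (h.incR hs)).resolve_left h2) h1
  · exact h.wq_aux hP ha hs hc hlt

/-- The truth about the critical points. -/
theorem type_iff {n : ℕ} {s : ZFSet.{0}} (hs : Inc C n s) : ∀ {P : Pr}, UPr P →
    ∀ {a : ZFSet.{0}}, a ∈ Q → (P R (σ W) (σ a) s ↔ (WQ^[n] P) Q W a ∅) := by
  induction hs with
  | zero =>
    intro P hP a ha
    have h1 := h.tr3 (P := P) hP h.pm.mem ha h.pm.zero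
    rw [h.empty] at h1
    exact h1.symm
  | @succ n s c hs hc hlt ih =>
    intro P hP a ha
    rw [h.wq_iff hP ha hs hc hlt, ih hP.wq ha, Function.iterate_succ_apply]

end Gen

end Pool.Agent.R587
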