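import Pool.Agent.R587.GdDef
import Pool.Agent.R587.TyL

/-!
# Least codes and elementary maps
-/

set_option autoImplicit false

namespace Pool.Agent.R587

open Pool.Agent.W868 hiding Models
open ZFSet (pair)
open Cardinal

/-! ### Finite sets of ordinals -/

/-- Finiteness, for sets of ordinals. -/
def DFi (e : ZFSet.{0}) : Prop :=
  ((∀ y ∈ e, ¬ y = y) ∨ ∃ m ∈ e, ∀ y ∈ e, y = m ∨ y ∈ m) ∧
  ∀ y ∈ e, (∀ z ∈ e, ¬ z ∈ y) ∨ ∃ z ∈ e, z ∈ y ∧ ∀ u ∈ e, u ∈ y → u = z ∨ u ∈ z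

theorem DFi_iff {e : ZFSet.{0}} (he : ∀ y ∈ e, y.IsOrdinal) : DFi e ↔ {y | y ∈ e}.Finite := by
  constructor
  · rintro ⟨h1, h2⟩
    have key : ∀ y : ZFSet.{0}, y ∈ e → {u | u ∈ e ∧ (u = y ∨ u ∈ y)}.Finite := by
      intro y
      induction y using ZFSet.inductionOn with
      | _ y ih =>
        intro hy
        rcases h2 y hy with h3 | ⟨z, hz, hzy, h3⟩
        · refine (Set.finite_singleton y).subset fun u hu => ?_
          rcases hu.2 with h | h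
          · exact h
          · exact absurd h (h3 u hu.1)
        · refine ((ih z hzy hz).insert y).subset fun u hu => ?_
          rcases hu.2 with h | h
          · exact Or.inl h
          · exact Or.inr ⟨hu.1, h3 u hu.1 h⟩
    rcases h1 with h1 | ⟨m, hm, h1⟩
    · exact Set.finite_empty.subset fun y hy => h1 y hy rfl
    · exact (key m hm).subset fun y hy => ⟨hy, h1 y hy⟩
  · intro h
    have hF : FO e := ⟨he, h⟩
    refine ⟨?_, fun y hy => ?_⟩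
    · by_cases h1 : ∃ y, y ∈ e
      · exact Or.inr (hF.exists_max h1)
      · exact Or.inl fun y hy => absurd ⟨y, hy⟩ h1
    · by_cases h1 : ∃ z, z ∈ ZFSet.sep (fun z => z ∈ y) e
      · have h2 : FO (ZFSet.sep (fun z => z ∈ y) e) := hF.sub fun z hz => (ZFSet.mem_sep.1 hz).1
        obtain ⟨μ, hμ, h3⟩ := h2.exists_max h1
        obtain ⟨h4, h5⟩ := ZFSet.mem_sep.1 hμ
        exact Or.inr ⟨μ, h4, h5, fun u hu huy => h3 u (ZFSet.mem_sep.2 ⟨hu, huy⟩)⟩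
      · exact Or.inl fun z hz hzy => h1 ⟨z, ZFSet.mem_sep.2 ⟨hz, hzy⟩⟩

theorem d0_FO : D0 fun v : Fin 1 → ZFSet.{0} => FO (v 0) := by
  have h : D0 fun v : Fin 1 → ZFSet.{0} => (∀ y ∈ v 0, y.IsOrdinal) ∧ DFi (v 0) := by
    unfold DFi
    apply D0.and
    · apply D0.ball (D0v.proj 0)
      exact D0.isOrdinal (D0v.proj 0)
    apply D0.and
    · apply D0.or
      · apply D0.ball (D0v.proj 0)
        exact (D0.eq (D0v.proj 0) (D0v.proj 0)).not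
      · apply D0.bex (D0v.proj 0)
        apply D0.ball (D0v.proj 1)
        exact (D0.eq (D0v.proj 0) (D0v.proj 1)).or (D0.mem (D0v.proj 0) (D0v.proj 1))
    · apply D0.ball (D0v.proj 0)
      apply D0.or
      · apply D0.ball (D0v.proj 1)
        exact (D0.mem (D0v.proj 0) (D0v.proj 1)).not
      · apply D0.bex (D0v.proj 1)
        apply D0.and (D0.mem (D0v.proj 0) (D0v.proj 1))
        apply D0.ball (D0v.proj 2)
        apply D0.imp (D0.mem (D0v.proj 0) (D0v.proj 2))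
        exact (D0.eq (D0v.proj 0) (D0v.proj 1)).or (D0.mem (D0v.proj 0) (D0v.proj 1))
  refine h.congr fun v => and_congr_right fun h1 => DFi_iff h1

theorem d0_clx : D0 fun v : Fin 2 → ZFSet.{0} => clx (v 0) (v 1) := by
  have h : D0 fun v : Fin 2 → ZFSet.{0} => ∃ ν ∈ v 1, ¬ ν ∈ v 0 ∧
      (∀ μ ∈ v 0, ν ∈ μ → μ ∈ v 1) ∧ ∀ μ ∈ v 1, ν ∈ μ → μ ∈ v 0 := by
    apply D0.bex (D0v.proj 1)
    apply D0.and (D0.mem (D0v.proj 0) (D0v.proj 1)).not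
    apply D0.and
    · apply D0.ball (D0v.proj 1)
      exact D0.imp (D0.mem (D0v.proj 1) (D0v.proj 0)) (D0.mem (D0v.proj 0) (D0v.proj 3))
    · apply D0.ball (D0v.proj 2)
      exact D0.imp (D0.mem (D0v.proj 1) (D0v.proj 0)) (D0.mem (D0v.proj 0) (D0v.proj 2))
  refine h.congr fun v => exists_congr fun ν => and_congr_right fun _ => and_congr_right fun _ => ?_
  exact ⟨fun h μ hμ => ⟨fun h' => h.1 μ h' hμ, fun h' => h.2 μ h' hμ⟩,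
    fun h => ⟨fun μ h' hμ => (h μ hμ).1 h', fun μ h' hμ => (h μ hμ).2 h'⟩⟩

theorem D0.const {n : ℕ} (p : Prop) : D0 fun _ : Fin n → ZFSet.{0} => p := by
  by_cases h : p
  · exact D0.tt.congr fun _ => ⟨fun _ => h, fun _ => trivial⟩
  · exact D0.tt.not.congr fun _ => ⟨fun h' => absurd trivial h', fun h' => absurd h' h⟩

/-! ### Codes -/

theorem ud_LvI : UD fun M (v : Fin 3 → ZFSet.{0}) => LvI M (v 0) (v 1) (v 2) := by
  unfold LvI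
  apply UD.ex (Q := fun M f (v : Fin 3 → ZFSet.{0}) => Sq (v 0) f ∧ pair (v 1) (v 2) ∈ f)
  apply UD.and
  · exact (UD.of_D0 d0_Sq).comp ![1, 0]
  · exact UD.of_D0 (D0.pairMem (D0v.proj 2) (D0v.proj 3) (D0v.proj 0))

theorem Pm.lvI {Q : Set ZFSet.{0}} {W δ : ZFSet.{0}} (hP : Pm Q W) (hδ : δ ∈ Q)
    (hδo : δ.IsOrdinal) : LvI Q W δ (Lv W δ) ∧ Lv W δ ∈ Q := by
  obtain ⟨f, hf, h1, p, hp, η, Y, rfl, h2⟩ := hP.lev δ hδ
  obtain ⟨η', Y', h3, h4, h5, -⟩ := h1 _ hp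
  obtain ⟨rfl, rfl⟩ := ZFSet.pair_inj.1 h3
  have h6 := h1.eq _ _ hp
  rw [h6] at h2
  have h7 := ord_Lv hδo h4 h2
  obtain ⟨q, hq, η'', Z, rfl, rfl⟩ := h5 δ h7
  have h8 := h1.eq _ _ hq
  rw [h8] at hq
  exact ⟨⟨f, hf, h1, hq⟩, (of_pair_mem' hP.trans (hP.trans _ hf _ hq)).2⟩

theorem Pm.lvI_iff {Q : Set ZFSet.{0}} {W δ Y : ZFSet.{0}} (hP : Pm Q W) (hδ : δ ∈ Q)
    (hδo : δ.IsOrdinal) : LvI Q W δ Y ↔ Y = Lv W δ := by
  constructor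
  · rintro ⟨f, -, h1, h2⟩
    exact h1.eq _ _ h2
  · rintro rfl
    exact (hP.lvI hδ hδo).1

/-- The part of the definition of codes that concerns the level. -/
def CrD (φ : Fml Empty 1) (x Y w s : ZFSet.{0}) : Prop :=
  (∀ y ∈ Y, ∃ p ∈ Y, ∃ q ∈ Y, q = pair y w ∧ p = pair q s) ∧ x ∈ Y ∧
  (∃ p ∈ Y, ∃ q ∈ Y, (q = pair x w ∧ p = pair q s) ∧ Sat {z | z ∈ Y} Empty.elim φ ![p]) ∧
  ∀ y ∈ Y, ∀ p ∈ Y, ∀ q ∈ Y, (q = pair y w ∧ p = pair q s) →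
    Sat {z | z ∈ Y} Empty.elim φ ![p] → y = x

theorem d0_CrD (φ : Fml Empty 1) :
    D0 fun v : Fin 4 → ZFSet.{0} => CrD φ (v 0) (v 1) (v 2) (v 3) := by
  have hS : ∀ {n : ℕ} (i j : Fin n),
      D0 fun v : Fin n → ZFSet.{0} => Sat {z | z ∈ v i} Empty.elim φ ![v j] := by
    intro n i j
    refine ((D0.relSat φ).comp ![i, j]).congr fun v => ?_
    have : (Fin.tail fun k => v ((![i, j] : Fin 2 → Fin n) k)) = ![v j] := by
      funext k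
      fin_cases k
      rfl
    rw [this]
    rfl
  unfold CrD
  apply D0.and
  · apply D0.ball (D0v.proj 1)
    apply D0.bex (D0v.proj 2)
    apply D0.bex (D0v.proj 3)
    -- q, p, y, x, Y, w, s
    exact (D0.isPair (D0v.proj 0) (D0v.proj 2) (D0v.proj 5)).and
      (D0.isPair (D0v.proj 1) (D0v.proj 0) (D0v.proj 6))
  apply D0.and (D0.mem (D0v.proj 0) (D0v.proj 1))
  apply D0.and
  · apply D0.bex (D0v.proj 1)
    apply D0.bex (D0v.proj 2)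
    -- q, p, x, Y, w, s
    apply D0.and
    · exact (D0.isPair (D0v.proj 0) (D0v.proj 2) (D0v.proj 4)).and
        (D0.isPair (D0v.proj 1) (D0v.proj 0) (D0v.proj 5))
    · exact hS 3 1
  · apply D0.ball (D0v.proj 1)
    apply D0.ball (D0v.proj 2)
    apply D0.ball (D0v.proj 3)
    apply D0.imp
    · exact (D0.isPair (D0v.proj 0) (D0v.proj 2) (D0v.proj 5)).and
        (D0.isPair (D0v.proj 1) (D0v.proj 0) (D0v.proj 6))
    · exact D0.imp (hS 4 1) (D0.eq (D0v.proj 2) (D0v.proj 3))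

theorem CrD_iff {φ : Fml Empty 1} {n : ℕ} (hφ : ∀ N : Set ZFSet.{0},
    (∀ x ∈ N, ∀ y ∈ x, y ∈ N) → ∅ ∈ N → ∀ b ∈ N, (Sat N Empty.elim φ ![b] ↔ GS N n (asg b)))
    {x Y w s : ZFSet.{0}} (hY : ∀ x ∈ Y, ∀ y ∈ x, y ∈ Y) : CrD φ x Y w s ↔
      (∀ y ∈ Y, pair (pair y w) s ∈ Y) ∧ x ∈ Y ∧ nat n ∈ JJ Y (pair (pair x w) s) ∧
      ∀ y ∈ Y, nat n ∈ JJ Y (pair (pair y w) s) → y = x := by
  have h0 : x ∈ Y → ∅ ∈ {z | z ∈ Y} := fun h => by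
    have : ∀ z : ZFSet.{0}, z ∈ Y → ∅ ∈ Y := by
      intro z
      induction z using ZFSet.inductionOn with
      | _ z ih =>
        intro hz
        by_cases h : ∃ y, y ∈ z
        · obtain ⟨y, hy⟩ := h
          exact ih y hy (hY z hz y hy)
        · have : z = ∅ := (ZFSet.eq_empty _).2 fun y hy => h ⟨y, hy⟩
          exact this ▸ hz
    exact this x h
  have hS : x ∈ Y → ∀ p ∈ Y, (Sat {z | z ∈ Y} Empty.elim φ ![p] ↔ nat n ∈ JJ Y p) := by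
    intro hx p hp
    rw [nat_jj]
    exact hφ {z | z ∈ Y} hY (h0 hx) p hp
  have h1 : (∀ y ∈ Y, ∃ p ∈ Y, ∃ q ∈ Y, q = pair y w ∧ p = pair q s) ↔
      ∀ y ∈ Y, pair (pair y w) s ∈ Y := by
    refine forall_congr' fun y => forall_congr' fun _ => ?_
    constructor
    · rintro ⟨p, hp, q, -, rfl, rfl⟩
      exact hp
    · intro h
      exact ⟨_, h, _, (of_pair_mem' (N := {z | z ∈ Y}) hY h).1, rfl, rfl⟩
  unfold CrD
  rw [h1]
  refine and_congr_right fun hp => and_congr_right fun hx => and_congr ?_ ?_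
  · constructor
    · rintro ⟨p, hp, q, -, ⟨rfl, rfl⟩, h⟩
      exact (hS hx _ hp).1 h
    · intro h
      exact ⟨_, hp x hx, _, (of_pair_mem' (N := {z | z ∈ Y}) hY (hp x hx)).1, ⟨rfl, rfl⟩,
        (hS hx _ (hp x hx)).2 h⟩
  · refine forall_congr' fun y => forall_congr' fun hy => ?_
    constructor
    · intro h h'
      exact h _ (hp y hy) _ (of_pair_mem' (N := {z | z ∈ Y}) hY (hp y hy)).1 ⟨rfl, rfl⟩
        ((hS hx _ (hp y hy)).2 h')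
    · rintro h p hp q - ⟨rfl, rfl⟩ h'
      exact h ((hS hx _ hp).1 h')

/-- Codes, uniformly. -/
def PCd (φ : Fml Empty 1) (M : Set ZFSet.{0}) (W x e : ZFSet.{0}) : Prop :=
  ∃ δ ∈ e, ∃ ζ ∈ e, (δ.IsOrdinal ∧ ¬ ζ = δ ∧ (∀ μ ∈ e, μ = δ ∨ μ ∈ δ) ∧
    ∀ μ ∈ e, μ = δ ∨ μ = ζ ∨ μ ∈ ζ) ∧ ∃ Y ∈ M, ∃ Z ∈ M, ∃ w ∈ M, ∃ s ∈ M,
    LvI M W δ Y ∧ LvI M W ζ Z ∧ (((∀ t ∈ w, t ∈ W ∧ t ∈ Z) ∧ ∀ t ∈ W, t ∈ Z → t ∈ w) ∧
      ((∀ t ∈ s, t ∈ e ∧ ¬ t = δ) ∧ ∀ t ∈ e, ¬ t = δ → t ∈ s)) ∧ CrD φ x Y w s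

theorem ud_PCd (φ : Fml Empty 1) :
    UD fun M (v : Fin 3 → ZFSet.{0}) => PCd φ M (v 0) (v 1) (v 2) := by
  unfold PCd
  apply UD.bex (D0v.proj 2)
  apply UD.bex (D0v.proj 3)
  -- ζ, δ, W, x, e
  apply UD.and
  · apply UD.of_D0
    apply D0.and (D0.isOrdinal (D0v.proj 1))
    apply D0.and (D0.eq (D0v.proj 0) (D0v.proj 1)).not
    apply D0.and
    · apply D0.ball (D0v.proj 4)
      exact (D0.eq (D0v.proj 0) (D0v.proj 2)).or (D0.mem (D0v.proj 0) (D0v.proj 2))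
    · apply D0.ball (D0v.proj 4)
      exact (D0.eq (D0v.proj 0) (D0v.proj 2)).or ((D0.eq (D0v.proj 0) (D0v.proj 1)).or
        (D0.mem (D0v.proj 0) (D0v.proj 1)))
  apply UD.ex
  apply UD.ex
  apply UD.ex
  apply UD.ex
  -- s, w, Z, Y, ζ, δ, W, x, e
  apply UD.and (ud_LvI.comp ![6, 5, 3])
  apply UD.and (ud_LvI.comp ![6, 4, 2])
  apply UD.and
  · apply UD.of_D0
    apply D0.and
    · apply D0.and
      · apply D0.ball (D0v.proj 1)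
        exact (D0.mem (D0v.proj 0) (D0v.proj 7)).and (D0.mem (D0v.proj 0) (D0v.proj 3))
      · apply D0.ball (D0v.proj 6)
        exact D0.imp (D0.mem (D0v.proj 0) (D0v.proj 3)) (D0.mem (D0v.proj 0) (D0v.proj 2))
    · apply D0.and
      · apply D0.ball (D0v.proj 0)
        exact (D0.mem (D0v.proj 0) (D0v.proj 9)).and (D0.eq (D0v.proj 0) (D0v.proj 6)).not
      · apply D0.ball (D0v.proj 8)
        exact D0.imp (D0.eq (D0v.proj 0) (D0v.proj 6)).not (D0.mem (D0v.proj 0) (D0v.proj 1))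
  · exact (UD.of_D0 (d0_CrD φ)).comp ![7, 3, 1, 0]

theorem Pm.sepD {Q : Set ZFSet.{0}} {W : ZFSet.{0}} (hP : Pm Q W) {x a : ZFSet.{0}} (hx : x ∈ Q)
    (ha : a ∈ Q) : ZFSet.sep (fun t => t ∈ a) x ∈ Q ∧ ZFSet.sep (fun t => t ≠ a) x ∈ Q := by
  constructor
  · have := hP.sepU (P := fun _ w => w 0 ∈ w 1) (UD.of_D0 (D0.mem (D0v.proj 0) (D0v.proj 1)))
      (v := ![a]) (by
        intro i
        fin_cases i
        exact ha) hx
    exact this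
  · have := hP.sepU (P := fun _ w => ¬ w 0 = w 1)
      (UD.of_D0 (D0.eq (D0v.proj 0) (D0v.proj 1)).not)
      (v := ![a]) (by
        intro i
        fin_cases i
        exact ha) hx
    exact this

theorem PCd_iff {φ : Fml Empty 1} {n : ℕ} (hφ : ∀ N : Set ZFSet.{0},
    (∀ x ∈ N, ∀ y ∈ x, y ∈ N) → ∅ ∈ N → ∀ b ∈ N, (Sat N Empty.elim φ ![b] ↔ GS N n (asg b)))
    {Q : Set ZFSet.{0}} {W x e : ZFSet.{0}} (hP : Pm Q W) (he : e ∈ Q) :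
    PCd φ Q W x e ↔ CdU W x e (nat n) := by
  have hmid : ∀ {δ ζ : ZFSet.{0}}, (δ.IsOrdinal ∧ ¬ ζ = δ ∧ (∀ μ ∈ e, μ = δ ∨ μ ∈ δ) ∧
      ∀ μ ∈ e, μ = δ ∨ μ = ζ ∨ μ ∈ ζ) → ζ ∈ e → ζ.IsOrdinal := fun h hζ =>
    h.1.mem ((h.2.2.1 _ hζ).resolve_left h.2.1)
  constructor
  · rintro ⟨δ, hδ, ζ, hζ, h1, Y, hY, Z, hZ, w, hw, s, hs, h2, h3, ⟨⟨h4, h5⟩, h6, h7⟩, h8⟩
    have hδQ := hP.trans _ he _ hδ
    have hζQ := hP.trans _ he _ hζ
    have hζo := hmid h1 hζ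
    rw [hP.lvI_iff hδQ h1.1] at h2
    rw [hP.lvI_iff hζQ hζo] at h3
    subst h2 h3
    have e1 : w = W ∩ Lv W ζ := by
      ext t
      rw [ZFSet.mem_inter]
      exact ⟨h4 t, fun h => h5 t h.1 h.2⟩
    have e2 : s = ZFSet.sep (fun y => y ≠ δ) e := by
      ext t
      rw [ZFSet.mem_sep]
      exact ⟨h6 t, fun h => h7 t h.1 h.2⟩
    subst e1 e2
    obtain ⟨g1, g2, g3, g4⟩ := h1
    exact ⟨δ, hδ, ζ, hζ, g1, g2, g3, g4, (CrD_iff hφ (Lv_trans δ)).1 h8⟩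
  · rintro ⟨δ, hδ, ζ, hζ, g1, g2, g3, g4, h8⟩
    have hδQ := hP.trans _ he _ hδ
    have hζQ := hP.trans _ he _ hζ
    have hζo := hmid ⟨g1, g2, g3, g4⟩ hζ
    refine ⟨δ, hδ, ζ, hζ, ⟨g1, g2, g3, g4⟩, Lv W δ, (hP.lvI hδQ g1).2, Lv W ζ,
      (hP.lvI hζQ hζo).2, W ∩ Lv W ζ, ?_, _, (hP.sepD he hδQ).2, (hP.lvI hδQ g1).1,
      (hP.lvI hζQ hζo).1, ⟨⟨fun t ht => ZFSet.mem_inter.1 ht,
        fun t h1 h2 => ZFSet.mem_inter.2 ⟨h1, h2⟩⟩, fun t ht => ZFSet.mem_sep.1 ht,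
        fun t h1 h2 => ZFSet.mem_sep.2 ⟨h1, h2⟩⟩, (CrD_iff hφ (Lv_trans δ)).2 h8⟩
    rw [inter_eq_sep]
    exact (hP.sepD hP.mem (hP.lvI hζQ hζo).2).1

/-- Codes are uniformly definable. -/
theorem ud_cdU (n : ℕ) : ∃ P : Set ZFSet.{0} → ZFSet.{0} → ZFSet.{0} → ZFSet.{0} → Prop,
    UD (fun M (v : Fin 3 → ZFSet.{0}) => P M (v 0) (v 1) (v 2)) ∧
    ∀ Q W, Pm Q W → ∀ x ∈ Q, ∀ e ∈ Q, (P Q W x e ↔ CdU W x e (nat n)) := by
  obtain ⟨φ, hφ⟩ := gs_fml n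
  exact ⟨PCd φ, ud_PCd φ, fun Q W hP x _ e he => PCd_iff hφ hP he⟩

/-! ### Uniqueness -/

theorem CdU.uniq {W x y e n : ZFSet.{0}} (h : CdU W x e n) (h' : CdU W y e n) : x = y := by
  obtain ⟨δ, hδ, ζ, hζ, h1, h2, h3, h4, h5, h6, h7, h8⟩ := h
  obtain ⟨δ', hδ', ζ', hζ', h1', h2', h3', h4', h5', h6', h7', h8'⟩ := h'
  have e1 : δ' = δ := by
    rcases h3 δ' hδ' with h | h
    · exact h
    · rcases h3' δ hδ with h9 | h9
      · exact h9.symm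
      · exact absurd h (ZFSet.mem_asymm h9)
  subst e1
  have e2 : ζ' = ζ := by
    rcases h4 ζ' hζ' with h | h | h
    · exact absurd h h2'
    · exact h
    · rcases h4' ζ hζ with h9 | h9 | h9
      · exact absurd h9 h2
      · exact h9.symm
      · exact absurd h (ZFSet.mem_asymm h9)
  subst e2
  exact h8' x h6 h7

theorem clt_asymm {e e' : ZFSet.{0}} {n n' : ZFSet.{0}} (he : FO e) (he' : FO e')
    (h : clt e n e' n') (h' : clt e' n' e n) : False := by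
  rcases h with h | ⟨rfl, h⟩ <;> rcases h' with h' | ⟨h1, h'⟩
  · exact clx_asymm he he' h h'
  · subst h1
    exact clx_irrefl h
  · exact clx_irrefl h'
  · exact absurd h (ZFSet.mem_asymm h')

section

variable {M : Set ZFSet.{0}} {W : ZFSet.{0}}

theorem LC.uniq {x e e' : ZFSet.{0}} {n n' : ℕ} (h : LC M W x e n) (h' : LC M W x e' n') :
    e = e' ∧ n = n' := by
  rcases h.2.2.2 e' h'.1 h'.2.1 n' h'.2.2.1 with h1 | h1
  · rcases h'.2.2.2 e h.1 h.2.1 n h.2.2.1 with h2 | h2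
    · exact absurd (clt_asymm h.2.1 h'.2.1 h1 h2) id
    · exact ⟨h2.1.symm, h2.2.symm⟩
  · exact h1

theorem exists_LC (h : Cod M W) {x : ZFSet.{0}} (hx : x ∈ M) : ∃ e n, LC M W x e n := by
  obtain ⟨e0, h1, h2, n0, h3⟩ := h x hx
  obtain ⟨e, ⟨heo, heM, he⟩, hmin⟩ := pr_wf.has_min
    {e | FO e ∧ e ∈ M ∧ ∃ n : ℕ, CdU W x e (nat n)} ⟨e0, h2, h1, n0, h3⟩
  classical
  refine ⟨e, Nat.find he, heM, heo, Nat.find_spec he, fun e' he'M he'o n' hc' => ?_⟩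
  rcases clx_tri heo he'o with h4 | rfl | h4
  · exact Or.inl (Or.inl h4)
  · rcases Nat.lt_trichotomy (Nat.find he) n' with h5 | h5 | h5
    · exact Or.inl (Or.inr ⟨rfl, nat_mem_nat_iff.2 h5⟩)
    · exact Or.inr ⟨rfl, h5⟩
    · exact absurd hc' (Nat.find_min he h5)
  · exact absurd (mem_pr.2 ⟨he'o, heo, h4⟩) (hmin e' ⟨he'o, he'M, n', hc'⟩)

theorem ltW_wf (h : Cod M W) (P : ZFSet.{0} → Prop) (hP : ∃ x ∈ M, P x) :
    ∃ x ∈ M, P x ∧ ∀ y ∈ M, P y → ¬ ltW M W y x := by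
  obtain ⟨x0, hx0, hPx0⟩ := hP
  obtain ⟨e0, n0, h0⟩ := exists_LC h hx0
  obtain ⟨e, ⟨heo, he⟩, hmin⟩ := pr_wf.has_min
    {e | FO e ∧ ∃ n : ℕ, ∃ x ∈ M, P x ∧ LC M W x e n} ⟨e0, h0.2.1, n0, x0, hx0, hPx0, h0⟩
  classical
  obtain ⟨x, hx, hPx, hxe⟩ := Nat.find_spec he
  refine ⟨x, hx, hPx, fun y hy hPy hlt => ?_⟩
  obtain ⟨e1, n1, e2, n2, h1, h2, h3⟩ := hlt
  obtain ⟨rfl, hn⟩ := h2.uniq hxe
  rcases h3 with h3 | ⟨rfl, h3⟩
  · exact hmin e1 ⟨h1.2.1, n1, y, hy, hPy, h1⟩ (mem_pr.2 ⟨h1.2.1, heo, h3⟩)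
  · rw [hn, nat_mem_nat_iff] at h3
    exact Nat.find_min he h3 ⟨y, hy, hPy, h1⟩

theorem ltW_tri (h : Cod M W) : ∀ x ∈ M, ∀ y ∈ M, ltW M W x y ∨ x = y ∨ ltW M W y x := by
  intro x hx y hy
  obtain ⟨e, n, h1⟩ := exists_LC h hx
  obtain ⟨e', n', h2⟩ := exists_LC h hy
  rcases clx_tri h1.2.1 h2.2.1 with h4 | rfl | h4
  · exact Or.inl ⟨e, n, e', n', h1, h2, Or.inl h4⟩
  · rcases Nat.lt_trichotomy n n' with h5 | rfl | h5
    · exact Or.inl ⟨e, n, e, n', h1, h2, Or.inr ⟨rfl, nat_mem_nat_iff.2 h5⟩⟩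
    · exact Or.inr (Or.inl (h1.2.2.1.uniq h2.2.2.1))
    · exact Or.inr (Or.inr ⟨e, n', e, n, h2, h1, Or.inr ⟨rfl, nat_mem_nat_iff.2 h5⟩⟩)
  · exact Or.inr (Or.inr ⟨e', n', e, n, h2, h1, Or.inl h4⟩)

end

/-! ### Elementary maps -/

section

variable {Q Q' : Set ZFSet.{0}} {W W' : ZFSet.{0}} {e : ZFSet.{0} → ZFSet.{0}}

theorem Cod.down (hQ : Pm Q W) (hQ' : Pm Q' W') (he : Elem Q Q' e) (heW : e W = W')
    (h : Cod Q' W') : Cod Q W := by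
  intro x hx
  obtain ⟨e', he', hF, n, hc⟩ := h (e x) (he.maps x hx)
  obtain ⟨P, hP, hP'⟩ := ud_cdU n
  have hu : UD fun M (v : Fin 2 → ZFSet.{0}) => ∃ d ∈ M, FO d ∧ P M (v 0) (v 1) d := by
    apply UD.ex (Q := fun M d (v : Fin 2 → ZFSet.{0}) => FO d ∧ P M (v 0) (v 1) d)
    exact ((UD.of_D0 d0_FO).comp ![0]).and (hP.comp ![1, 2, 0])
  have h1 := he.tr hQ.trans hQ.zero hQ'.trans hQ'.zero hu (v := ![W, x]) (by
    intro i
    fin_cases i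
    exacts [hQ.mem, hx])
  have h2 : ∃ d ∈ Q', FO d ∧ P Q' (e W) (e x) d := by
    refine ⟨e', he', hF, ?_⟩
    rw [heW, hP' Q' W' hQ' _ (he.maps x hx) _ he']
    exact hc
  obtain ⟨d, hd, hdF, hdc⟩ := h1.2 h2
  exact ⟨d, hd, hdF, n, (hP' Q W hQ x hx d hd).1 hdc⟩

theorem Elem.d0 (hQ : Pm Q W) (hQ' : Pm Q' W') (he : Elem Q Q' e) {n : ℕ}
    {P : (Fin n → ZFSet.{0}) → Prop} (hP : D0 P) {v : Fin n → ZFSet.{0}} (hv : ∀ i, v i ∈ Q) :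
    P v ↔ P fun i => e (v i) :=
  he.tr hQ.trans hQ.zero hQ'.trans hQ'.zero (UD.of_D0 hP) hv

theorem LC.map (hQ : Pm Q W) (hQ' : Pm Q' W') (he : Elem Q Q' e) (heW : e W = W')
    {x d : ZFSet.{0}} {n : ℕ} (hx : x ∈ Q) (h : LC Q W x d n) : LC Q' W' (e x) (e d) n := by
  obtain ⟨hd, hF, hc, hmin⟩ := h
  have hF' : FO (e d) := (he.d0 hQ hQ' d0_FO (v := ![d]) (by
    intro i
    fin_cases i
    exact hd)).1 hF
  refine ⟨he.maps d hd, hF', ?_, fun e' he' he'F n' hc' => ?_⟩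
  · obtain ⟨P, hP, hP'⟩ := ud_cdU n
    have h1 := he.tr hQ.trans hQ.zero hQ'.trans hQ'.zero hP (v := ![W, x, d]) (by
      intro i
      fin_cases i
      exacts [hQ.mem, hx, hd])
    have h2 : P Q' (e W) (e x) (e d) := h1.1 ((hP' Q W hQ x hx d hd).2 hc)
    rw [heW] at h2
    exact (hP' Q' W' hQ' _ (he.maps x hx) _ (he.maps d hd)).1 h2
  · obtain ⟨P, hP, hP'⟩ := ud_cdU n'
    have hu : UD fun M (v : Fin 3 → ZFSet.{0}) => ∀ d' ∈ M, FO d' → P M (v 0) (v 1) d' →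
        (clx (v 2) d' ∨ (v 2 = d' ∧ nat n ∈ nat n')) ∨ (v 2 = d' ∧ n = n') := by
      apply UD.all (Q := fun M d' (v : Fin 3 → ZFSet.{0}) => FO d' → P M (v 0) (v 1) d' →
        (clx (v 2) d' ∨ (v 2 = d' ∧ nat n ∈ nat n')) ∨ (v 2 = d' ∧ n = n'))
      apply UD.imp ((UD.of_D0 d0_FO).comp ![0])
      apply UD.imp (hP.comp ![1, 2, 0])
      apply UD.of_D0
      apply D0.or
      · apply D0.or (d0_clx.comp ![3, 0])
        exact (D0.eq (D0v.proj 3) (D0v.proj 0)).and (D0.const _)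
      · exact (D0.eq (D0v.proj 3) (D0v.proj 0)).and (D0.const _)
    have h1 := he.tr hQ.trans hQ.zero hQ'.trans hQ'.zero hu (v := ![W, x, d]) (by
      intro i
      fin_cases i
      exacts [hQ.mem, hx, hd])
    have h2 : ∀ d' ∈ Q, FO d' → P Q W x d' →
        (clx d d' ∨ (d = d' ∧ nat n ∈ nat n')) ∨ (d = d' ∧ n = n') := by
      intro d' hd' hF' hc'
      exact hmin d' hd' hF' n' ((hP' Q W hQ x hx d' hd').1 hc')
    have h3 : ∀ d' ∈ Q', FO d' → P Q' (e W) (e x) d' →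
        (clx (e d) d' ∨ (e d = d' ∧ nat n ∈ nat n')) ∨ (e d = d' ∧ n = n') := h1.1 h2
    refine h3 e' he' he'F ?_
    rw [heW]
    exact (hP' Q' W' hQ' _ (he.maps x hx) _ he').2 hc'

theorem Elem.inj (hQ : Pm Q W) (hQ' : Pm Q' W') (he : Elem Q Q' e) {x y : ZFSet.{0}} (hx : x ∈ Q)
    (hy : y ∈ Q) : e x = e y ↔ x = y :=
  (he.d0 hQ hQ' (D0.eq (D0v.proj 0) (D0v.proj 1)) (v := ![x, y]) (by
    intro i
    fin_cases i
    exacts [hx, hy])).symm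

/-- The order of the least codes is preserved. -/
theorem ltW_tr (hQ : Pm Q W) (hQ' : Pm Q' W') (he : Elem Q Q' e) (heW : e W = W')
    (hc : Cod Q W) : ∀ X ∈ Q, ∀ Y ∈ Q, (ltW Q W X Y ↔ ltW Q' W' (e X) (e Y)) := by
  intro X hX Y hY
  have hclt : ∀ {d d' : ZFSet.{0}} {n n' : ℕ}, d ∈ Q → d' ∈ Q →
      (clt d (nat n) d' (nat n') ↔ clt (e d) (nat n) (e d') (nat n')) := by
    intro d d' n n' hd hd'
    exact he.d0 hQ hQ' (P := fun v : Fin 2 → ZFSet.{0} => clx (v 0) (v 1) ∨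
      (v 0 = v 1 ∧ nat n ∈ nat n')) (d0_clx.or ((D0.eq (D0v.proj 0) (D0v.proj 1)).and
        (D0.const _))) (v := ![d, d']) (by
      intro i
      fin_cases i
      exacts [hd, hd'])
  constructor
  · rintro ⟨d, n, d', n', h1, h2, h3⟩
    exact ⟨e d, n, e d', n', h1.map hQ hQ' he heW hX, h2.map hQ hQ' he heW hY,
      (hclt h1.1 h2.1).1 h3⟩
  · rintro ⟨d1, n1, d1', n1', h1, h2, h3⟩
    obtain ⟨d, n, h4⟩ := exists_LC hc hX
    obtain ⟨d', n', h5⟩ := exists_LC hc hY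
    obtain ⟨rfl, rfl⟩ := h1.uniq (h4.map hQ hQ' he heW hX)
    obtain ⟨rfl, rfl⟩ := h2.uniq (h5.map hQ hQ' he heW hY)
    exact ⟨d, n1, d', n1', h4, h5, (hclt h4.1 h5.1).2 h3⟩

theorem Elem.comp {R : Set ZFSet.{0}} {σ : ZFSet.{0} → ZFSet.{0}} (he : Elem Q Q' e)
    (hσ : Elem Q' R σ) : Elem Q R fun x => σ (e x) :=
  ⟨fun x hx => hσ.maps _ (he.maps x hx), fun φ v hv =>
    (he.sat φ v hv).trans (hσ.sat φ _ fun i => he.maps _ (hv i))⟩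

end

/-- Elementary submodels of iterable models are iterable. -/
theorem good_down {c : Cardinal.{0}} {Q W Q' W' : ZFSet.{0}} {e : ZFSet.{0} → ZFSet.{0}}
    (hQc : Q ∈ HH c) (hQ : ∀ x ∈ Q, ∀ y ∈ x, y ∈ Q) (hW : W ∈ Q)
    (he : Elem {z | z ∈ Q} {z | z ∈ Q'} e) (heW : e W = W') (h : Good c Q' W') : Good c Q W := by
  have h0 : ∅ ∈ {z | z ∈ Q} := by
    have : ∀ z : ZFSet.{0}, z ∈ Q → ∅ ∈ Q := by
      intro z
      induction z using ZFSet.inductionOn with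
      | _ z ih =>
        intro hz
        by_cases h : ∃ y, y ∈ z
        · obtain ⟨y, hy⟩ := h
          exact ih y hy (hQ z hz y hy)
        · have : z = ∅ := (ZFSet.eq_empty _).2 fun y hy => h ⟨y, hy⟩
          exact this ▸ hz
    exact this W hW
  have hP : Pm {z | z ∈ Q} W := Pm.down he hQ h0 hW (heW ▸ h.pm)
  refine ⟨hQc, hP, Cod.down hP h.pm he heW h.cod, fun i hi hio => ?_⟩
  obtain ⟨R, hR, σ, g, h1, h2, h3, h4⟩ := h.rz i hi hio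
  refine ⟨R, hR, fun x => σ (e x), g, h1, he.comp h2, fun j hj A hA => ?_, h4⟩
  refine h3 j hj (e A) ?_
  have hAQ : A ∈ Q := hQ W hW A hA
  have := (he.d0 hP h.pm (D0.mem (D0v.proj 0) (D0v.proj 1)) (v := ![A, W]) (by
    intro i
    fin_cases i
    exacts [hAQ, hW])).1 hA
  rw [← heW]
  exact this

end Pool.Agent.R587
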