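import Pool.Agent.R587.Main
import Pool.Agent.R587.LevM

/-!
# Categoricity under the axiom of constructibility
-/

set_option autoImplicit false

namespace Pool.Agent.R587

open Pool.Agent.W868 hiding Models

/-- The axiom of constructibility, for the two hierarchies. -/
theorem VL.vlv (hV : VL) : VLv := by
  intro x
  have hZ : IsZF (LC Set.univ ∅) := isZF_LC isZF_univ (Set.mem_univ _)
  obtain ⟨α, hα⟩ := hV x
  have h1 : Lev α ∈ LC Set.univ ∅ :=
    lev_mem hZ (fun y hy => ord_LC isZF_univ (Set.mem_univ _) (Set.mem_univ _) hy) α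
  obtain ⟨ξ, -, h2, h3⟩ := hZ.trans _ h1 _ hα
  exact ⟨ξ, h2, h3⟩

end Pool.Agent.R587
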