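import Pool.Agent.W868.Defs

/-!
# The constructible hierarchy
-/

set_option autoImplicit false

namespace Pool.Agent.R587

open Pool.Agent.W868

/-- The set of the subsets of `X` that are first-order definable with parameters in the
structure `(X, ∈)`. -/
noncomputable def DefP (X : ZFSet.{0}) : ZFSet.{0} :=
  ZFSet.sep (fun y => ∃ φ : Fml ZFSet.{0} 1, φ.Over {x | x ∈ X} ∧
    ∀ z, z ∈ y ↔ z ∈ X ∧ Sat {x | x ∈ X} id φ ![z]) (ZFSet.powerset X)

/-- The level `L_α` of the constructible hierarchy: the union of the sets of the definable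
subsets of `L_β` for `β < α`. -/
noncomputable def Lev (α : Ordinal.{0}) : ZFSet.{0} :=
  ZFSet.sUnion (ZFSet.range fun β : Set.Iio α => DefP (Lev β.1))
termination_by α
decreasing_by exact β.2

/-- The axiom of constructibility `V = L`: every set is in some level. -/
def VL : Prop := ∀ x : ZFSet.{0}, ∃ α : Ordinal.{0}, x ∈ Lev α

end Pool.Agent.R587
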