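import Pool.Agent.R587.VocTr

/-!
# Function symbols as graphs: the translation is primitive recursive
-/

set_option autoImplicit false

namespace Pool.Agent.R587.Voc

open Pool.Agent.R587 Encodable

variable {m l : ℕ} {ar : Fin m → ℕ} {af : Fin l → ℕ}

/-- The list with a given number. -/
def ls (n : ℕ) : List ℕ := Denumerable.ofNat (List ℕ) n

theorem ls_encode (L : List ℕ) : ls (encode L) = L := Denumerable.ofNat_encode L

theorem lt_of_mem_ls {a n : ℕ} (h : a ∈ ls n) : a < n := by
  have h1 := mem_lt_encode h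
  rwa [ls, Denumerable.encode_ofNat] at h1

theorem primrec_ls : Primrec ls := Primrec.ofNat _

/-- The codes of the arguments of a term. -/
def args (c : ℕ) : List ℕ := if c.unpair.1 = 0 then [] else ls c.unpair.2.unpair.2

theorem lt_of_mem_args {a c : ℕ} (h : a ∈ args c) : a < c := by
  rw [args] at h
  split_ifs at h with h1
  · exact absurd h List.not_mem_nil
  · exact (lt_of_mem_ls h).trans_le ((Nat.unpair_right_le _).trans (Nat.unpair_right_le _))

theorem args_var (x : ℕ) : args (Tm.var x : Tm af).code = [] := by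
  rw [args, Tm.code, Nat.unpair_pair, if_pos rfl]

theorem args_fn (j : Fin l) (t : Fin (af j) → Tm af) :
    args (Tm.fn j t).code = List.ofFn fun i => (t i).code := by
  rw [args, Tm.code, Nat.unpair_pair, if_neg one_ne_zero, Nat.unpair_pair, ls_encode]

theorem primrec_args : Primrec args :=
  Primrec.ite (Primrec.eq.comp (Primrec.fst.comp Primrec.unpair) (Primrec.const 0))
    (Primrec.const []) (primrec_ls.comp (Primrec.snd.comp (Primrec.unpair.comp
      (Primrec.snd.comp Primrec.unpair))))

/-- The codes of the subterms. -/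
def subsc (c : ℕ) : List ℕ := ((args c).attach.map fun a => subsc a.1).flatten ++ [c]
termination_by c
decreasing_by exact lt_of_mem_args a.2

theorem subsc_eq (c : ℕ) : subsc c = ((args c).map subsc).flatten ++ [c] := by
  rw [subsc]
  congr 2
  exact List.attach_map_val (l := args c) (f := subsc)

theorem subsc_code (t : Tm af) : subsc t.code = t.subs.map Tm.code := by
  induction t with
  | var x => rw [subsc_eq, args_var, Tm.subs]; rfl
  | fn j t ih =>
    rw [subsc_eq, args_fn, Tm.subs, List.map_append, List.map_flatten, List.map_ofFn,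
      List.map_ofFn]
    have h : (subsc ∘ fun i => (t i).code) =
      ((fun x => List.map Tm.code x) ∘ fun i => (t i).subs) := funext ih
    rw [h]
    rfl

theorem primrec_subsc : Primrec subsc := by
  refine Primrec.nat_omega_rec' subsc (m := fun c => c) (l := args)
    (g := fun c L => some (L.flatten ++ [c])) Primrec.id primrec_args ?_
    (fun b b' h => lt_of_mem_args h) fun b => by rw [← subsc_eq]
  exact Primrec.option_some.comp (Primrec.list_append.comp
    (Primrec.list_flatten.comp Primrec.snd)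
    (Primrec.list_cons.comp Primrec.fst (Primrec.const [])))

/-- The code of the variable that holds the value of a term. -/
def vx (a : ℕ) : ℕ := 3 * (2 * a + 1) + 2

theorem vx_code (t : Tm af) : vx t.code = 3 * t.ix + 2 := rfl

theorem primrec_vx : Primrec vx :=
  Primrec.nat_add.comp (Primrec.nat_mul.comp (Primrec.const 3) (Primrec.nat_add.comp
    (Primrec.nat_mul.comp (Primrec.const 2) Primrec.id) (Primrec.const 1))) (Primrec.const 2)

/-- The code of `G`. -/
def gc (m c : ℕ) : ℕ :=
  if c.unpair.1 = 0 then Nat.pair 2 (Nat.pair (3 * (2 * c.unpair.2) + 2) (vx c))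
  else Nat.pair 0 (Nat.pair (m + c.unpair.2.unpair.1) (encode ((args c).map vx ++ [vx c])))

theorem code_gs (j : Fin l) (x : Fin (af j + 1) → ℕ) : (gs j x : SOF (arr ar af)).code =
    Nat.pair 0 (Nat.pair (m + j) (encode (List.ofFn fun i => 3 * x i + 2))) := by
  have h : ∀ (n k : ℕ) (e : n = k) (f : Fin k → ℕ),
      List.ofFn (fun i : Fin n => f (Fin.cast e i)) = List.ofFn f := by
    rintro n _ rfl f
    rfl
  rw [gs, SOF.code]
  rw [h _ _ (arr_right j) fun i => 3 * x i + 2]
  rfl

theorem code_rs (r : Fin m) (x : Fin (ar r) → ℕ) : (rs r x : SOF (arr ar af)).code =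
    Nat.pair 0 (Nat.pair r (encode (List.ofFn fun i => 3 * x i + 2))) := by
  have h : ∀ (n k : ℕ) (e : n = k) (f : Fin k → ℕ),
      List.ofFn (fun i : Fin n => f (Fin.cast e i)) = List.ofFn f := by
    rintro n _ rfl f
    rfl
  rw [rs, SOF.code]
  rw [h _ _ (arr_left r) fun i => 3 * x i + 2]
  rfl

theorem gc_code (s : Tm af) : gc m s.code = (s.G ar).code := by
  cases s with
  | var x =>
    rw [Tm.G, SOF.code, gc]
    rw [if_pos (by rw [Tm.code, Nat.unpair_pair])]
    rw [← vx_code]
    conv_lhs => rw [Tm.code, Nat.unpair_pair]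
    rfl
  | fn j t =>
    rw [Tm.G, code_gs, gc]
    rw [if_neg (by rw [Tm.code, Nat.unpair_pair]; exact one_ne_zero)]
    rw [args_fn, List.ofFn_succ', List.concat_eq_append, List.map_ofFn]
    simp only [Fin.snoc_castSucc, Fin.snoc_last]
    rw [← vx_code]
    conv_lhs => rw [Tm.code, Nat.unpair_pair, Nat.unpair_pair]
    rfl

theorem primrec_gc (m : ℕ) : Primrec (gc m) := by
  refine Primrec.ite (Primrec.eq.comp (Primrec.fst.comp Primrec.unpair) (Primrec.const 0)) ?_ ?_
  · exact Primrec₂.natPair.comp (Primrec.const 2) (Primrec₂.natPair.comp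
      (Primrec.nat_add.comp (Primrec.nat_mul.comp (Primrec.const 3)
        (Primrec.nat_mul.comp (Primrec.const 2) (Primrec.snd.comp Primrec.unpair)))
        (Primrec.const 2)) primrec_vx)
  · exact Primrec₂.natPair.comp (Primrec.const 0) (Primrec₂.natPair.comp
      (Primrec.nat_add.comp (Primrec.const m) (Primrec.fst.comp (Primrec.unpair.comp
        (Primrec.snd.comp Primrec.unpair))))
      (Primrec.encode.comp (Primrec.list_append.comp
        (Primrec.list_map primrec_args (primrec_vx.comp Primrec.snd).to₂)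
        (Primrec.list_cons.comp primrec_vx (Primrec.const [])))))

/-- The code of `wrap`. -/
def wrapc (m : ℕ) (S : List ℕ) (d : ℕ) : ℕ :=
  S.foldr (fun c e => Nat.pair 5 (Nat.pair (vx c) (Nat.pair 4 (Nat.pair (gc m c) e)))) d

theorem wrapc_code (S : List (Tm af)) (ψ : SOF (arr ar af)) :
    wrapc m (S.map Tm.code) ψ.code = (wrap S ψ).code := by
  induction S with
  | nil => rfl
  | cons s S ih =>
    rw [List.map_cons, wrapc, List.foldr_cons, ← wrapc, ih, wrap_cons, SOF.code, SOF.code,
      ← gc_code]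
    rfl

theorem primrec_wrapc (m : ℕ) : Primrec₂ (wrapc m) := by
  refine Primrec.list_foldr (f := fun p : List ℕ × ℕ => p.1) (g := fun p => p.2)
    (h := fun _ q => Nat.pair 5 (Nat.pair (vx q.1) (Nat.pair 4 (Nat.pair (gc m q.1) q.2))))
    Primrec.fst Primrec.snd ?_
  have h1 : Primrec fun x : (List ℕ × ℕ) × ℕ × ℕ => x.2.1 := Primrec.fst.comp Primrec.snd
  have h2 : Primrec fun x : (List ℕ × ℕ) × ℕ × ℕ => x.2.2 := Primrec.snd.comp Primrec.snd
  exact Primrec₂.natPair.comp (Primrec.const 5) (Primrec₂.natPair.comp (primrec_vx.comp h1)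
    (Primrec₂.natPair.comp (Primrec.const 4) (Primrec₂.natPair.comp ((primrec_gc m).comp h1) h2)))

/-! ## Formulas -/

/-- The codes of the immediate subformulas. -/
def kids (c : ℕ) : List ℕ :=
  if c.unpair.1 ≤ 2 then [] else
  if c.unpair.1 = 3 then [c.unpair.2] else
  if c.unpair.1 = 4 then [c.unpair.2.unpair.1, c.unpair.2.unpair.2] else
  if c.unpair.1 = 5 then [c.unpair.2.unpair.2] else [c.unpair.2.unpair.2.unpair.2]

theorem snd_lt {c : ℕ} (h : ¬ c.unpair.1 ≤ 2) : c.unpair.2 < c := by
  have h1 : Nat.pair c.unpair.1 c.unpair.2 = c := Nat.pair_unpair c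
  generalize c.unpair.1 = a at *
  generalize c.unpair.2 = b at *
  rw [← h1, Nat.pair]
  split_ifs with h2
  · nlinarith
  · nlinarith

theorem lt_of_mem_kids {a c : ℕ} (h : a ∈ kids c) : a < c := by
  rw [kids] at h
  split_ifs at h with h1 h2 h3 h4
  · exact absurd h List.not_mem_nil
  all_goals simp only [List.mem_cons, List.not_mem_nil, or_false] at h
  · rw [h]
    exact snd_lt h1
  · rcases h with h | h
    · rw [h]
      exact (Nat.unpair_left_le _).trans_lt (snd_lt h1)
    · rw [h]
      exact (Nat.unpair_right_le _).trans_lt (snd_lt h1)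
  · rw [h]
    exact (Nat.unpair_right_le _).trans_lt (snd_lt h1)
  · rw [h]
    exact ((Nat.unpair_right_le _).trans (Nat.unpair_right_le _)).trans_lt (snd_lt h1)

/-- The code of the translation, from the codes of the translations of the subformulas. -/
def step (m c : ℕ) (L : List ℕ) : ℕ :=
  if c.unpair.1 = 0 then wrapc m ((ls c.unpair.2.unpair.2).map subsc).flatten
    (Nat.pair 0 (Nat.pair c.unpair.2.unpair.1 (encode ((ls c.unpair.2.unpair.2).map vx)))) else
  if c.unpair.1 = 1 then wrapc m ((ls c.unpair.2.unpair.2.unpair.2).map subsc).flatten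
    (Nat.pair 1 (Nat.pair (3 * Nat.pair c.unpair.2.unpair.1 c.unpair.2.unpair.2.unpair.1 + 3)
      (encode ((ls c.unpair.2.unpair.2.unpair.2).map vx)))) else
  if c.unpair.1 = 2 then wrapc m (subsc c.unpair.2.unpair.1 ++ subsc c.unpair.2.unpair.2)
    (Nat.pair 2 (Nat.pair (vx c.unpair.2.unpair.1) (vx c.unpair.2.unpair.2))) else
  if c.unpair.1 = 3 then Nat.pair 3 (L.getI 0) else
  if c.unpair.1 = 4 then Nat.pair 4 (Nat.pair (L.getI 0) (L.getI 1)) else
  if c.unpair.1 = 5 then Nat.pair 5 (Nat.pair (3 * (2 * c.unpair.2.unpair.1) + 2) (L.getI 0)) else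
  Nat.pair 6 (Nat.pair c.unpair.2.unpair.1 (Nat.pair (3 * Nat.pair c.unpair.2.unpair.1
    c.unpair.2.unpair.2.unpair.1 + 3) (L.getI 0)))

/-- The translation of the codes. -/
def trc (m c : ℕ) : ℕ := step m c ((kids c).attach.map fun a => trc m a.1)
termination_by c
decreasing_by exact lt_of_mem_kids a.2

theorem trc_eq (m c : ℕ) : trc m c = step m c ((kids c).map (trc m)) := by
  rw [trc]
  congr 1
  exact List.attach_map_val (l := kids c) (f := trc m)

theorem map_subsc {n : ℕ} (t : Fin n → Tm af) :
    ((List.ofFn fun i => (t i).code).map subsc).flatten =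
      ((List.ofFn fun i => (t i).subs).flatten).map Tm.code := by
  rw [List.map_flatten, List.map_ofFn, List.map_ofFn]
  have h : (subsc ∘ fun i => (t i).code) =
    ((fun x => List.map Tm.code x) ∘ fun i => (t i).subs) := funext fun i => subsc_code _
  rw [h]

theorem map_vx {n : ℕ} (t : Fin n → Tm af) :
    (List.ofFn fun i => (t i).code).map vx = List.ofFn fun i => 3 * (t i).ix + 2 := by
  rw [List.map_ofFn]
  rfl

theorem trc_code : ∀ φ : Fo ar af, trc m φ.code = (tr φ).code
  | .rel r t => by
    rw [trc_eq, tr, ← wrapc_code, code_rs, ← map_subsc, ← map_vx, Fo.code, step]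
    simp only [Nat.unpair_pair, ls_encode, if_true]
  | .app k i t => by
    rw [trc_eq, tr, ← wrapc_code, SOF.code, ← map_subsc, ← map_vx, Fo.code, step]
    simp only [Nat.unpair_pair, ls_encode, if_true, one_ne_zero, if_false]
  | .eq s t => by
    rw [trc_eq, tr, ← wrapc_code, SOF.code, List.map_append, ← subsc_code, ← subsc_code,
      ← vx_code, ← vx_code, Fo.code, step]
    simp only [Nat.unpair_pair, if_true, if_false, OfNat.ofNat_ne_zero, OfNat.ofNat_ne_one]
  | .neg φ => by
    rw [trc_eq, tr, SOF.code, ← trc_code φ, Fo.code]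
    generalize φ.code = a
    rw [kids, step]
    simp [Nat.unpair_pair]
  | .and φ ψ => by
    rw [trc_eq, tr, SOF.code, ← trc_code φ, ← trc_code ψ, Fo.code]
    generalize φ.code = a
    generalize ψ.code = b
    rw [kids, step]
    simp [Nat.unpair_pair]
  | .ex x φ => by
    rw [trc_eq, tr, SOF.code, ← trc_code φ, Fo.code]
    generalize φ.code = a
    rw [kids, step]
    simp [Nat.unpair_pair]
  | .exR k i φ => by
    rw [trc_eq, tr, SOF.code, ← trc_code φ, Fo.code]
    generalize φ.code = a
    rw [kids, step]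
    simp [Nat.unpair_pair]

theorem primrec_kids : Primrec kids := by
  have h1 : Primrec fun c : ℕ => c.unpair.1 := Primrec.fst.comp Primrec.unpair
  have h2 : Primrec fun c : ℕ => c.unpair.2 := Primrec.snd.comp Primrec.unpair
  have h21 : Primrec fun c : ℕ => c.unpair.2.unpair.1 := h1.comp h2
  have h22 : Primrec fun c : ℕ => c.unpair.2.unpair.2 := h2.comp h2
  have h222 : Primrec fun c : ℕ => c.unpair.2.unpair.2.unpair.2 := h2.comp h22
  have hs : ∀ {f : ℕ → ℕ}, Primrec f → Primrec fun c => [f c] := fun hf =>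
    Primrec.list_cons.comp hf (Primrec.const [])
  have he : ∀ k, PrimrecPred fun c : ℕ => c.unpair.1 = k := fun k =>
    Primrec.eq.comp h1 (Primrec.const k)
  exact Primrec.ite (Primrec.nat_le.comp h1 (Primrec.const 2)) (Primrec.const [])
    (Primrec.ite (he 3) (hs h2) (Primrec.ite (he 4) (Primrec.list_cons.comp h21 (hs h22))
      (Primrec.ite (he 5) (hs h22) (hs h222))))

theorem primrec_step (m : ℕ) : Primrec₂ (step m) := by
  have h1 : Primrec fun c : ℕ × List ℕ => c.1.unpair.1 :=
    (Primrec.fst.comp Primrec.unpair).comp Primrec.fst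
  have h2 : Primrec fun c : ℕ × List ℕ => c.1.unpair.2 :=
    (Primrec.snd.comp Primrec.unpair).comp Primrec.fst
  have h21 : Primrec fun c : ℕ × List ℕ => c.1.unpair.2.unpair.1 :=
    (Primrec.fst.comp Primrec.unpair).comp h2
  have h22 : Primrec fun c : ℕ × List ℕ => c.1.unpair.2.unpair.2 :=
    (Primrec.snd.comp Primrec.unpair).comp h2
  have h221 : Primrec fun c : ℕ × List ℕ => c.1.unpair.2.unpair.2.unpair.1 :=
    (Primrec.fst.comp Primrec.unpair).comp h22
  have h222 : Primrec fun c : ℕ × List ℕ => c.1.unpair.2.unpair.2.unpair.2 :=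
    (Primrec.snd.comp Primrec.unpair).comp h22
  have he : ∀ k, PrimrecPred fun c : ℕ × List ℕ => c.1.unpair.1 = k := fun k =>
    Primrec.eq.comp h1 (Primrec.const k)
  have hL : ∀ k, Primrec fun c : ℕ × List ℕ => c.2.getI k := fun k =>
    Primrec.list_getI.comp Primrec.snd (Primrec.const k)
  have hm : ∀ {f : ℕ × List ℕ → ℕ}, Primrec f → Primrec fun c => ((ls (f c)).map subsc).flatten :=
    fun hf => Primrec.list_flatten.comp (Primrec.list_map (primrec_ls.comp hf)
      (primrec_subsc.comp Primrec.snd).to₂)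
  have hv : ∀ {f : ℕ × List ℕ → ℕ}, Primrec f → Primrec fun c => encode ((ls (f c)).map vx) :=
    fun hf => Primrec.encode.comp (Primrec.list_map (primrec_ls.comp hf)
      (primrec_vx.comp Primrec.snd).to₂)
  have hp : ∀ {f g : ℕ × List ℕ → ℕ}, Primrec f → Primrec g →
      Primrec fun c => Nat.pair (f c) (g c) := fun hf hg => Primrec₂.natPair.comp hf hg
  have hk : ∀ k : ℕ, Primrec fun _ : ℕ × List ℕ => k := fun k => Primrec.const k
  have hr : Primrec fun c : ℕ × List ℕ =>
      3 * Nat.pair c.1.unpair.2.unpair.1 c.1.unpair.2.unpair.2.unpair.1 + 3 :=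
    Primrec.nat_add.comp (Primrec.nat_mul.comp (hk 3) (hp h21 h221)) (hk 3)
  have hx : Primrec fun c : ℕ × List ℕ => 3 * (2 * c.1.unpair.2.unpair.1) + 2 :=
    Primrec.nat_add.comp (Primrec.nat_mul.comp (hk 3) (Primrec.nat_mul.comp (hk 2) h21)) (hk 2)
  have hw : ∀ {f : ℕ × List ℕ → List ℕ} {g : ℕ × List ℕ → ℕ}, Primrec f → Primrec g →
      Primrec fun c => wrapc m (f c) (g c) := fun hf hg => (primrec_wrapc m).comp hf hg
  refine Primrec.ite (he 0) (hw (hm h22) (hp (hk 0) (hp h21 (hv h22)))) (Primrec.ite (he 1)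
    (hw (hm h222) (hp (hk 1) (hp hr (hv h222)))) (Primrec.ite (he 2)
    (hw (Primrec.list_append.comp (primrec_subsc.comp h21) (primrec_subsc.comp h22))
      (hp (hk 2) (hp (primrec_vx.comp h21) (primrec_vx.comp h22)))) (Primrec.ite (he 3)
    (hp (hk 3) (hL 0)) (Primrec.ite (he 4) (hp (hk 4) (hp (hL 0) (hL 1))) (Primrec.ite (he 5)
    (hp (hk 5) (hp hx (hL 0))) (hp (hk 6) (hp h21 (hp hr (hL 0)))))))))

theorem primrec_trc (m : ℕ) : Primrec (trc m) :=
  Primrec.nat_omega_rec' (trc m) (m := fun c => c) (l := kids)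
    (g := fun c L => some (step m c L)) Primrec.id primrec_kids
    (Primrec.option_some.comp (primrec_step m))
    (fun b b' h => lt_of_mem_kids h) fun b => by rw [← trc_eq]

end Pool.Agent.R587.Voc
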