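import Pool.Agent.R587.Defs

/-!
# Second-order logic with function symbols

A finite vocabulary is given by `m` relation symbols of arities `ar`, and `l` function symbols of
arities `af` (the constant symbols are the function symbols of arity `0`).
-/

set_option autoImplicit false

namespace Pool.Agent.R587.Voc

open Pool.Agent.R587

variable {m l : ℕ}

/-- Terms. -/
inductive Tm (af : Fin l → ℕ) : Type
  /-- an individual variable -/
  | var (x : ℕ) : Tm af
  /-- a function symbol applied to terms -/
  | fn (j : Fin l) (t : Fin (af j) → Tm af) : Tm af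

/-- Second-order formulas. -/
inductive Fo (ar : Fin m → ℕ) (af : Fin l → ℕ) : Type
  /-- the relation symbol `r` holds of the terms `t` -/
  | rel (r : Fin m) (t : Fin (ar r) → Tm af) : Fo ar af
  /-- the relation variable `i` of arity `k` holds of the terms `t` -/
  | app (k i : ℕ) (t : Fin k → Tm af) : Fo ar af
  /-- equality of terms -/
  | eq (s t : Tm af) : Fo ar af
  /-- negation -/
  | neg (φ : Fo ar af) : Fo ar af
  /-- conjunction -/
  | and (φ ψ : Fo ar af) : Fo ar af
  /-- there is an element `x` -/
  | ex (x : ℕ) (φ : Fo ar af) : Fo ar af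
  /-- there is a relation `i` of arity `k` -/
  | exR (k i : ℕ) (φ : Fo ar af) : Fo ar af

/-- Structures. -/
structure St (ar : Fin m → ℕ) (af : Fin l → ℕ) where
  /-- the domain -/
  Dom : Type
  /-- the domain is nonempty -/
  ne : Nonempty Dom
  /-- the relations -/
  R : (r : Fin m) → (Fin (ar r) → Dom) → Prop
  /-- the functions -/
  F : (j : Fin l) → (Fin (af j) → Dom) → Dom

variable {ar : Fin m → ℕ} {af : Fin l → ℕ}

/-- The value of a term. -/
def Tm.val (A : St ar af) (v : ℕ → A.Dom) : Tm af → A.Dom
  | var x => v x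
  | fn j t => A.F j fun i => (t i).val A v

/-- Truth of a second-order formula, where `v` and `w` interpret the individual variables and the
relation variables. The relation quantifiers range over all relations on the domain. -/
def Fo.Sat (A : St ar af) : Fo ar af → (ℕ → A.Dom) → ((k : ℕ) → ℕ → (Fin k → A.Dom) → Prop) → Prop
  | rel r t, v, _ => A.R r fun j => (t j).val A v
  | app k i t, v, w => w k i fun j => (t j).val A v
  | eq s t, v, _ => s.val A v = t.val A v
  | neg φ, v, w => ¬ φ.Sat A v w
  | and φ ψ, v, w => φ.Sat A v w ∧ ψ.Sat A v w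
  | ex x φ, v, w => ∃ a : A.Dom, φ.Sat A (Function.update v x a) w
  | exR k i φ, v, w => ∃ P : (Fin k → A.Dom) → Prop,
      φ.Sat A v (Function.update w k (Function.update (w k) i P))

/-- The variable `z` occurs in the term. -/
def Tm.Occ (z : ℕ) : Tm af → Prop
  | var x => x = z
  | fn _ t => ∃ i, (t i).Occ z

/-- The individual variable `z` is free in the formula. -/
def Fo.FreeI (z : ℕ) : Fo ar af → Prop
  | rel _ t => ∃ j, (t j).Occ z
  | app _ _ t => ∃ j, (t j).Occ z
  | eq s t => s.Occ z ∨ t.Occ z
  | neg φ => φ.FreeI z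
  | and φ ψ => φ.FreeI z ∨ ψ.FreeI z
  | ex x φ => x ≠ z ∧ φ.FreeI z
  | exR _ _ φ => φ.FreeI z

/-- The relation variable `q` of arity `p` is free in the formula. -/
def Fo.FreeR (p q : ℕ) : Fo ar af → Prop
  | rel _ _ => False
  | app k i _ => k = p ∧ i = q
  | eq _ _ => False
  | neg φ => φ.FreeR p q
  | and φ ψ => φ.FreeR p q ∨ ψ.FreeR p q
  | ex _ φ => φ.FreeR p q
  | exR k i φ => ¬ (k = p ∧ i = q) ∧ φ.FreeR p q

/-- A sentence is a formula without free variables. -/
def Fo.Sentence (φ : Fo ar af) : Prop := (∀ z, ¬ φ.FreeI z) ∧ ∀ p q, ¬ φ.FreeR p q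

/-- The structure satisfies the formula (under all interpretations of the variables). -/
def Models (A : St ar af) (φ : Fo ar af) : Prop := ∀ v w, φ.Sat A v w

/-- The structure is a model of the theory. -/
def ModelsT (A : St ar af) (T : Set (Fo ar af)) : Prop := ∀ φ ∈ T, Models A φ

/-- Isomorphism of structures. -/
def Isom (A B : St ar af) : Prop :=
  ∃ e : A.Dom ≃ B.Dom, (∀ r x, A.R r x ↔ B.R r fun j => e (x j)) ∧
    ∀ j x, e (A.F j x) = B.F j fun i => e (x i)

/-- A Goedel numbering of the terms. -/
def Tm.code : Tm af → ℕ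
  | var x => Nat.pair 0 x
  | fn j t => Nat.pair 1 (Nat.pair j (Encodable.encode (List.ofFn fun i => (t i).code)))

/-- A Goedel numbering of the formulas. -/
def Fo.code : Fo ar af → ℕ
  | rel r t => Nat.pair 0 (Nat.pair r (Encodable.encode (List.ofFn fun j => (t j).code)))
  | app k i t => Nat.pair 1 (Nat.pair k (Nat.pair i
      (Encodable.encode (List.ofFn fun j => (t j).code))))
  | eq s t => Nat.pair 2 (Nat.pair s.code t.code)
  | neg φ => Nat.pair 3 φ.code
  | and φ ψ => Nat.pair 4 (Nat.pair φ.code ψ.code)
  | ex x φ => Nat.pair 5 (Nat.pair x φ.code)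
  | exR k i φ => Nat.pair 6 (Nat.pair k (Nat.pair i φ.code))

/-- A theory: a set of sentences. -/
def IsTheory (T : Set (Fo ar af)) : Prop := ∀ φ ∈ T, φ.Sentence

/-- The theory is complete: it has a model, and each sentence or its negation holds in all
its models. -/
def CompleteT (T : Set (Fo ar af)) : Prop :=
  (∃ A : St ar af, ModelsT A T) ∧ ∀ φ : Fo ar af, φ.Sentence →
    (∀ A : St ar af, ModelsT A T → Models A φ) ∨ ∀ A : St ar af, ModelsT A T → Models A φ.neg

/-- The theory is recursively axiomatized: it has the same models as some recursive set of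
sentences. -/
def RecAx (T : Set (Fo ar af)) : Prop :=
  ∃ T' : Set (Fo ar af), IsTheory T' ∧ (ComputablePred fun n : ℕ => ∃ φ ∈ T', φ.code = n) ∧
    ∀ A : St ar af, ModelsT A T ↔ ModelsT A T'

/-- The theory is categorical: any two models are isomorphic. -/
def CategoricalT (T : Set (Fo ar af)) : Prop :=
  ∀ A B : St ar af, ModelsT A T → ModelsT B T → Isom A B

end Pool.Agent.R587.Voc
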