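import Pool.Agent.R587.VocCmp

/-!
# Function symbols as graphs: the reduction to relational vocabularies
-/

set_option autoImplicit false

namespace Pool.Agent.R587.Voc

open Pool.Agent.R587 Encodable

variable {m l : ℕ} {ar : Fin m → ℕ} {af : Fin l → ℕ}

/-! ## The sentence that a graph is the graph of a function -/

/-- There are values of the variables below `n`. -/
def exN : ℕ → SOF (arr ar af) → SOF (arr ar af)
  | 0, φ => φ
  | n + 1, φ => .ex n (exN n φ)

theorem sat_exN {B : Struc (arr ar af)} {φ : SOF (arr ar af)}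
    {w : (k : ℕ) → ℕ → (Fin k → B.Dom) → Prop} : ∀ (n : ℕ) (v : ℕ → B.Dom),
    (exN n φ).Sat B v w ↔ ∃ u : ℕ → B.Dom, (∀ i, n ≤ i → u i = v i) ∧ φ.Sat B u w
  | 0, v => ⟨fun h => ⟨v, fun _ _ => rfl, h⟩, fun ⟨u, h1, h2⟩ => by
      have : u = v := funext fun i => h1 i (Nat.zero_le i)
      rwa [← this]⟩
  | n + 1, v => by
    rw [exN, SOF.Sat]
    constructor
    · rintro ⟨a, h⟩
      obtain ⟨u, h1, h2⟩ := (sat_exN n _).1 h
      exact ⟨u, fun i hi => by rw [h1 i (by omega), Function.update_of_ne (by omega)], h2⟩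
    · rintro ⟨u, h1, h2⟩
      refine ⟨u n, (sat_exN n _).2 ⟨u, fun i hi => ?_, h2⟩⟩
      by_cases e : i = n
      · rw [e, Function.update_self]
      · rw [Function.update_of_ne e, h1 i (by omega)]

theorem freeI_exN {φ : SOF (arr ar af)} {z : ℕ} : ∀ {n : ℕ}, (exN n φ).FreeI z →
    n ≤ z ∧ φ.FreeI z
  | 0, h => ⟨Nat.zero_le z, h⟩
  | n + 1, h => by
    have h1 := freeI_exN h.2
    have h2 := h.1
    exact ⟨by omega, h1.2⟩

theorem freeR_exN {φ : SOF (arr ar af)} {p q : ℕ} : ∀ {n : ℕ}, (exN n φ).FreeR p q → φ.FreeR p q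
  | 0, h => h
  | n + 1, h => freeR_exN (n := n) h

/-- The graph in a relational structure. -/
def Gr (B : Struc (arr ar af)) (j : Fin l) (y : Fin (af j) → B.Dom) (z : B.Dom) : Prop :=
  B.R (Fin.natAdd m j) fun i => Fin.snoc (α := fun _ => B.Dom) y z (Fin.cast (arr_right j) i)

theorem Gr_toRel {A : St ar af} {j : Fin l} {y : Fin (af j) → A.Dom} {z : A.Dom} :
    Gr (toRel A) j y z ↔ A.F j y = z := by
  rw [Gr, toRel_right]
  have h1 : (fun i : Fin (af j) => Fin.snoc (α := fun _ => A.Dom) y z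
      (Fin.cast (arr_right (ar := ar) j) (Fin.cast (arr_right j).symm i.castSucc))) = y := by
    funext i
    exact Fin.snoc_castSucc (α := fun _ => A.Dom) _ _ _
  have h2 : Fin.snoc (α := fun _ => A.Dom) y z
      (Fin.cast (arr_right (ar := ar) j) (Fin.cast (arr_right j).symm (Fin.last _))) = z :=
    Fin.snoc_last (α := fun _ => A.Dom) _ _
  exact Iff.of_eq (congrArg₂ (· = ·) (congrArg (A.F j) h1) h2)

/-- The variables `0, ..., n - 1, k`. -/
def X (n k : ℕ) : Fin (n + 1) → ℕ := Fin.snoc (α := fun _ => ℕ) (fun i => (i : ℕ)) k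

theorem sat_gsX {B : Struc (arr ar af)} {j : Fin l} {k : ℕ} {v : ℕ → B.Dom}
    {w : (k : ℕ) → ℕ → (Fin k → B.Dom) → Prop} :
    (gs j (X (af j) k) : SOF (arr ar af)).Sat B v w ↔ Gr B j (fun i => v i) (v k) := by
  rw [gs, SOF.Sat, Gr]
  have h : (fun i => v (X (af j) k (Fin.cast (arr_right (ar := ar) j) i))) = fun i =>
      Fin.snoc (α := fun _ => B.Dom) (fun i : Fin (af j) => v i) (v k)
        (Fin.cast (arr_right j) i) := by
    funext i
    refine Fin.lastCases ?_ (fun i => ?_) (Fin.cast (arr_right (ar := ar) j) i)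
    · rw [X, Fin.snoc_last, Fin.snoc_last]
    · rw [X, Fin.snoc_castSucc, Fin.snoc_castSucc]
  rw [h]

theorem freeI_gsX {j : Fin l} {k z : ℕ} (h : (gs j (X (af j) k) : SOF (arr ar af)).FreeI z) :
    z < af j ∨ z = k := by
  obtain ⟨i, hi⟩ := freeI_gs.1 h
  refine Fin.lastCases ?_ (fun i => ?_) i hi
  · intro hi
    rw [X, Fin.snoc_last] at hi
    exact Or.inr hi.symm
  · intro hi
    rw [X, Fin.snoc_castSucc] at hi
    exact Or.inl (hi ▸ i.2)

/-- The graph `j` is the graph of a function. -/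
def fj (ar : Fin m → ℕ) (af : Fin l → ℕ) (j : Fin l) : SOF (arr ar af) :=
  .neg (exN (af j) (.neg (.and (.ex (af j) (gs j (X (af j) (af j))))
    (.neg (.ex (af j) (.ex (af j + 1) (.and (.and (gs j (X (af j) (af j)))
      (gs j (X (af j) (af j + 1)))) (.neg (.eq (af j) (af j + 1))))))))))

theorem sentence_fj (j : Fin l) : (fj ar af j).Sentence := by
  constructor
  · intro z h
    obtain ⟨h1, h2⟩ := freeI_exN h
    rcases h2 with ⟨h3, h4⟩ | ⟨h3, h5, h4⟩
    · rcases freeI_gsX h4 with h | h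
      · omega
      · exact h3 h.symm
    · rcases h4 with (h4 | h4) | (h4 | h4)
      · rcases freeI_gsX h4 with h | h
        · omega
        · exact h3 h.symm
      · rcases freeI_gsX h4 with h | h
        · omega
        · exact h5 h.symm
      · exact h3 h4
      · exact h5 h4
  · intro p q h
    have h1 := freeR_exN (n := af j) h
    rcases h1 with h1 | (h1 | h1) | h1
    · exact h1
    · exact h1
    · exact h1
    · exact h1

theorem upd_lt {D : Type} {n k : ℕ} {u : ℕ → D} {a : D} (h : n ≤ k) :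
    (fun i : Fin n => Function.update u k a i) = fun i : Fin n => u i := by
  funext i
  exact Function.update_of_ne (by have := i.2; omega) _ _

theorem models_fj {B : Struc (arr ar af)} {j : Fin l} :
    R587.Models B (fj ar af j) ↔ ∀ y, ∃! z, Gr B j y z := by
  have key : ∀ (u : ℕ → B.Dom) (w : (k : ℕ) → ℕ → (Fin k → B.Dom) → Prop),
      (SOF.and (.ex (af j) (gs j (X (af j) (af j))))
        (.neg (.ex (af j) (.ex (af j + 1) (.and (.and (gs j (X (af j) (af j)))
        (gs j (X (af j) (af j + 1)))) (.neg (.eq (af j) (af j + 1))))))) :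
          SOF (arr ar af)).Sat B u w ↔ ∃! z, Gr B j (fun i => u i) z := by
    intro u w
    have h1 : (SOF.ex (af j) (gs j (X (af j) (af j))) : SOF (arr ar af)).Sat B u w ↔
        ∃ z, Gr B j (fun i => u i) z := by
      rw [SOF.Sat]
      refine exists_congr fun a => ?_
      rw [sat_gsX, Function.update_self, upd_lt le_rfl]
    have h2 : (SOF.ex (af j) (.ex (af j + 1) (.and (.and (gs j (X (af j) (af j)))
        (gs j (X (af j) (af j + 1)))) (.neg (.eq (af j) (af j + 1))))) :
          SOF (arr ar af)).Sat B u w ↔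
        ∃ z z', (Gr B j (fun i => u i) z ∧ Gr B j (fun i => u i) z') ∧ ¬ z = z' := by
      rw [SOF.Sat]
      refine exists_congr fun a => ?_
      rw [SOF.Sat]
      refine exists_congr fun b => ?_
      rw [SOF.Sat, SOF.Sat, SOF.Sat, SOF.Sat, sat_gsX, sat_gsX, Function.update_self,
        upd_lt (Nat.le_succ _), upd_lt le_rfl, Function.update_of_ne (Nat.succ_ne_self _).symm,
        Function.update_self]
    rw [SOF.Sat, h1, SOF.Sat, h2]
    constructor
    · rintro ⟨⟨z, hz⟩, h⟩
      refine ⟨z, hz, fun z' hz' => ?_⟩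
      by_contra e
      exact h ⟨z', z, ⟨hz', hz⟩, e⟩
    · rintro ⟨z, hz, h⟩
      refine ⟨⟨z, hz⟩, ?_⟩
      rintro ⟨a, b, ⟨ha, hb⟩, e⟩
      exact e ((h a ha).trans (h b hb).symm)
  constructor
  · intro h y
    obtain ⟨d⟩ := B.ne
    have h1 := h (fun _ => d) (fun _ _ _ => True)
    rw [fj, SOF.Sat, sat_exN] at h1
    by_contra h2
    refine h1 ⟨fun i => if hi : i < af j then y ⟨i, hi⟩ else d, fun i hi => dif_neg (by omega), ?_⟩
    rw [SOF.Sat, key]
    have h3 : (fun i : Fin (af j) => if hi : (i : ℕ) < af j then y ⟨i, hi⟩ else d) = y :=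
      funext fun i => dif_pos i.2
    rw [h3]
    exact h2
  · intro h v w
    rw [fj, SOF.Sat, sat_exN]
    rintro ⟨u, -, h1⟩
    rw [SOF.Sat, key] at h1
    exact h1 (h _)

/-- The structure of a relational structure. -/
noncomputable def ofRel (B : Struc (arr ar af)) (h : ∀ j y, ∃! z, Gr B j y z) : St ar af where
  Dom := B.Dom
  ne := B.ne
  R r y := B.R (Fin.castAdd l r) fun i => y (Fin.cast (arr_left r) i)
  F j y := (h j y).choose

theorem toRel_ofRel {B : Struc (arr ar af)} (h : ∀ j y, ∃! z, Gr B j y z) :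
    toRel (ofRel B h) = B := by
  have h1 : (toRel (ofRel B h)).R = B.R := by
    funext q
    refine Fin.addCases (motive := fun q => (toRel (ofRel B h)).R q = B.R q)
      (fun r => ?_) (fun j => ?_) q
    · funext y
      exact propext (toRel_left _ r y)
    · funext y
      refine propext ((toRel_right _ j y).trans ?_)
      have hz := h j fun i => y (Fin.cast (arr_right j).symm i.castSucc)
      have h2 : ∀ z, Gr B j (fun i => y (Fin.cast (arr_right j).symm i.castSucc)) z ↔
          hz.choose = z := by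
        intro z
        constructor
        · exact fun h' => hz.unique hz.choose_spec.1 h'
        · rintro rfl
          exact hz.choose_spec.1
      refine (h2 _).symm.trans ?_
      refine Iff.of_eq (congrArg (B.R (Fin.natAdd m j)) ?_)
      funext i
      obtain ⟨i, rfl⟩ : ∃ i', i = Fin.cast (arr_right (ar := ar) j).symm i' :=
        ⟨Fin.cast (arr_right j) i, rfl⟩
      refine Fin.lastCases ?_ (fun i => ?_) i
      · exact Fin.snoc_last (α := fun _ => B.Dom) _ _
      · exact Fin.snoc_castSucc (α := fun _ => B.Dom) _ _ _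
  cases B with
  | mk D ne R =>
    exact congrArg (Struc.mk D ne) h1

/-! ## The theory -/

/-- A valid sentence with the number `k`. -/
def pad (k : ℕ) : SOF (arr ar af) := .ex k (.eq k k)

/-- The sentence of the new theory. -/
def th (φ : Fo ar af) : SOF (arr ar af) := .and (tr φ) (pad φ.code)

theorem sentence_th {φ : Fo ar af} (h : φ.Sentence) : (th φ).Sentence := by
  have h1 := sentence_tr h
  constructor
  · rintro z (hz | ⟨hz, hz' | hz'⟩)
    · exact h1.1 z hz
    · exact hz hz'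
    · exact hz hz'
  · rintro p q (hz | hz)
    · exact h1.2 p q hz
    · exact hz

theorem models_th {A : St ar af} {φ : Fo ar af} : R587.Models (toRel A) (th φ) ↔ Models A φ := by
  rw [← models_tr]
  refine forall_congr' fun v => forall_congr' fun w => ?_
  rw [th, SOF.Sat, and_iff_left]
  rw [pad, SOF.Sat]
  obtain ⟨d⟩ := A.ne
  exact ⟨d, rfl⟩

/-- The theory of the relational structures. -/
def thy (T : Set (Fo ar af)) : Set (SOF (arr ar af)) :=
  {χ | (∃ j, fj ar af j = χ) ∨ ∃ φ ∈ T, th φ = χ}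

theorem isTheory_thy {T : Set (Fo ar af)} (h : IsTheory T) : R587.IsTheory (thy T) := by
  rintro χ (⟨j, rfl⟩ | ⟨φ, hφ, rfl⟩)
  · exact sentence_fj j
  · exact sentence_th (h φ hφ)

theorem modelsT_thy {T : Set (Fo ar af)} {A : St ar af} :
    R587.ModelsT (toRel A) (thy T) ↔ ModelsT A T := by
  constructor
  · intro h φ hφ
    exact models_th.1 (h _ (Or.inr ⟨φ, hφ, rfl⟩))
  · rintro h χ (⟨j, rfl⟩ | ⟨φ, hφ, rfl⟩)
    · refine models_fj.2 fun y => ⟨A.F j y, Gr_toRel.2 rfl, fun z hz => (Gr_toRel.1 hz).symm⟩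
    · exact models_th.2 (h φ hφ)

theorem exists_of_modelsT_thy {T : Set (Fo ar af)} {B : Struc (arr ar af)}
    (h : R587.ModelsT B (thy T)) : ∃ A : St ar af, ModelsT A T ∧ toRel A = B := by
  have h1 : ∀ j y, ∃! z, Gr B j y z := fun j => models_fj.1 (h _ (Or.inl ⟨j, rfl⟩))
  refine ⟨ofRel B h1, ?_, toRel_ofRel h1⟩
  rw [← modelsT_thy, toRel_ofRel]
  exact h

/-- The code of `pad`. -/
def padc (k : ℕ) : ℕ :=
  Nat.pair 5 (Nat.pair (3 * k + 2) (Nat.pair 2 (Nat.pair (3 * k + 2) (3 * k + 2))))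

/-- The code of `th`. -/
def thc (m k : ℕ) : ℕ := Nat.pair 4 (Nat.pair (trc m k) (padc k))

theorem thc_code (φ : Fo ar af) : thc m φ.code = (th φ).code := by
  rw [th, SOF.code, pad, thc, trc_code, padc, SOF.code, SOF.code]

/-- Reads `k` off the code of `th`. -/
def rd (n : ℕ) : ℕ := (n.unpair.2.unpair.2.unpair.2.unpair.1 - 2) / 3

theorem rd_thc (k : ℕ) : rd (thc m k) = k := by
  rw [rd, thc, padc]
  simp only [Nat.unpair_pair]
  omega

theorem primrec_rd : Primrec rd := by
  have h1 : Primrec fun c : ℕ => c.unpair.1 := Primrec.fst.comp Primrec.unpair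
  have h2 : Primrec fun c : ℕ => c.unpair.2 := Primrec.snd.comp Primrec.unpair
  exact Primrec.nat_div.comp (Primrec.nat_sub.comp (h1.comp (h2.comp (h2.comp h2)))
    (Primrec.const 2)) (Primrec.const 3)

theorem primrec_thc (m : ℕ) : Primrec (thc m) := by
  have hx : Primrec fun k : ℕ => 3 * k + 2 := Primrec.nat_add.comp
    (Primrec.nat_mul.comp (Primrec.const 3) Primrec.id) (Primrec.const 2)
  exact Primrec₂.natPair.comp (Primrec.const 4) (Primrec₂.natPair.comp (primrec_trc m)
    (Primrec₂.natPair.comp (Primrec.const 5) (Primrec₂.natPair.comp hx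
      (Primrec₂.natPair.comp (Primrec.const 2) (Primrec₂.natPair.comp hx hx)))))

theorem primrecPred_mem (L : List ℕ) : PrimrecPred fun n => n ∈ L := by
  induction L with
  | nil =>
    refine PrimrecPred.of_eq (p := fun n : ℕ => n = n + 1)
      (Primrec.eq.comp Primrec.id (Primrec.nat_add.comp Primrec.id (Primrec.const 1))) fun n => ?_
    simp
  | cons a L ih =>
    refine PrimrecPred.of_eq (p := fun n : ℕ => n = a ∨ n ∈ L)
      ((Primrec.eq.comp Primrec.id (Primrec.const a)).or ih) fun n => ?_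
    simp

theorem recAx_thy {T : Set (Fo ar af)} (hT : IsTheory T)
    (h : ComputablePred fun n : ℕ => ∃ φ ∈ T, φ.code = n) : R587.RecAx (thy T) := by
  refine ⟨thy T, isTheory_thy hT, ?_, fun _ => Iff.rfl⟩
  obtain ⟨f, hf, hf'⟩ := ComputablePred.computable_iff.1 h
  have hf'' : ∀ n, f n = true ↔ ∃ φ ∈ T, φ.code = n := fun n =>
    (Iff.of_eq (congrFun hf' n)).symm
  refine ComputablePred.computable_iff.2 ⟨fun n =>
    (f (rd n) && decide (n = thc m (rd n))) ||
      decide (n ∈ List.ofFn fun j => (fj ar af j).code), ?_, ?_⟩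
  · refine Primrec.or.to_comp.comp (Primrec.and.to_comp.comp (hf.comp primrec_rd.to_comp)
      (Primrec.to_comp ?_)) (Primrec.to_comp ?_)
    · exact (Primrec.eq.comp Primrec.id ((primrec_thc m).comp primrec_rd)).decide
    · exact (primrecPred_mem _).decide
  · funext n
    refine propext ?_
    simp only [Bool.or_eq_true, Bool.and_eq_true, decide_eq_true_eq, hf'', List.mem_ofFn]
    constructor
    · rintro ⟨χ, ⟨j, rfl⟩ | ⟨φ, hφ, rfl⟩, rfl⟩
      · exact Or.inr ⟨j, rfl⟩
      · refine Or.inl ?_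
        rw [← thc_code, rd_thc]
        exact ⟨⟨φ, hφ, rfl⟩, rfl⟩
    · rintro (⟨⟨φ, hφ, h1⟩, h2⟩ | ⟨j, hj⟩)
      · refine ⟨th φ, Or.inr ⟨φ, hφ, rfl⟩, ?_⟩
        rw [h2, ← h1, thc_code]
      · exact ⟨fj ar af j, Or.inl ⟨j, rfl⟩, hj⟩

/-- **The reduction to relational vocabularies.** -/
theorem exists_reduction {T : Set (Fo ar af)} (hc : CompleteT T) (hr : RecAx T) :
    ∃ T' : Set (SOF (arr ar af)), R587.IsTheory T' ∧ R587.CompleteT T' ∧ R587.RecAx T' ∧
      (∀ A : St ar af, R587.ModelsT (toRel A) T' ↔ ModelsT A T) ∧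
      (∀ B : Struc (arr ar af), R587.ModelsT B T' → ∃ A : St ar af, ModelsT A T ∧ toRel A = B) ∧
      (R587.CategoricalT T' → CategoricalT T) := by
  obtain ⟨T1, hT1, hcmp, hm⟩ := hr
  have h1 : ∀ A : St ar af, R587.ModelsT (toRel A) (thy T1) ↔ ModelsT A T := fun A => by
    rw [modelsT_thy, hm]
  have h2 : ∀ B : Struc (arr ar af), R587.ModelsT B (thy T1) →
      ∃ A : St ar af, ModelsT A T ∧ toRel A = B := fun B hB => by
    obtain ⟨A, hA, e⟩ := exists_of_modelsT_thy hB
    exact ⟨A, (hm A).2 hA, e⟩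
  refine ⟨thy T1, isTheory_thy hT1, ⟨?_, fun ψ hψ => ?_⟩, recAx_thy hT1 hcmp, h1, h2, ?_⟩
  · obtain ⟨A, hA⟩ := hc.1
    exact ⟨toRel A, (h1 A).2 hA⟩
  · rcases hc.2 (bt ψ) (sentence_bt hψ) with h | h
    · left
      intro B hB
      obtain ⟨A, hA, rfl⟩ := h2 B hB
      exact models_bt.1 (h A hA)
    · right
      intro B hB
      obtain ⟨A, hA, rfl⟩ := h2 B hB
      exact models_bt.1 (h A hA)
  · intro hcat A A' hA hA'
    obtain ⟨e, he⟩ := hcat (toRel A) (toRel A') ((h1 A).2 hA) ((h1 A').2 hA')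
    refine ⟨e, fun r x => ?_, fun j x => ?_⟩
    · have h := he (Fin.castAdd l r) fun i => x (Fin.cast (arr_left r) i)
      rw [toRel_left, toRel_left] at h
      exact h
    · have h := he (Fin.natAdd m j) fun i => Fin.snoc (α := fun _ => A.Dom) x (A.F j x)
        (Fin.cast (arr_right j) i)
      have h3 : Gr (toRel A) j x (A.F j x) := Gr_toRel.2 rfl
      have h4 := h.1 h3
      have h5 : (fun i => e (Fin.snoc (α := fun _ => A.Dom) x (A.F j x)
          (Fin.cast (arr_right (ar := ar) j) i))) = fun i =>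
          Fin.snoc (α := fun _ => A'.Dom) (fun i => e (x i)) (e (A.F j x))
            (Fin.cast (arr_right (ar := ar) j) i) := by
        funext i
        refine Fin.lastCases ?_ (fun i => ?_) (Fin.cast (arr_right (ar := ar) j) i)
        · rw [Fin.snoc_last, Fin.snoc_last]
        · rw [Fin.snoc_castSucc, Fin.snoc_castSucc]
      rw [h5] at h4
      exact (Gr_toRel.1 h4).symm

/-- **The reduction to relational vocabularies.** -/
theorem reduce {T : Set (Fo ar af)} (hc : CompleteT T) (hr : RecAx T) :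
    ∃ (m' : ℕ) (ar' : Fin m' → ℕ) (T' : Set (SOF ar')), R587.IsTheory T' ∧ R587.CompleteT T' ∧
      R587.RecAx T' ∧ (∀ A : St ar af, ModelsT A T → ∃ A' : Struc ar', A'.Dom = A.Dom ∧
        R587.ModelsT A' T') ∧ (R587.CategoricalT T' → CategoricalT T) := by
  obtain ⟨T', h1, h2, h3, h4, -, h6⟩ := exists_reduction hc hr
  exact ⟨_, _, T', h1, h2, h3, fun A hA => ⟨toRel A, rfl, (h4 A).2 hA⟩, h6⟩

end Pool.Agent.R587.Voc
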