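import Pool.Agent.R587.VocDefs

/-!
# Function symbols as graphs: the translation and its meaning
-/

set_option autoImplicit false

namespace Pool.Agent.R587.Voc

open Pool.Agent.R587

variable {m l : ℕ} {ar : Fin m → ℕ} {af : Fin l → ℕ}

/-- The arities of the relational vocabulary. -/
def arr (ar : Fin m → ℕ) (af : Fin l → ℕ) : Fin (m + l) → ℕ := Fin.append ar fun j => af j + 1

theorem arr_left (r : Fin m) : arr ar af (Fin.castAdd l r) = ar r := Fin.append_left _ _ _

theorem arr_right (j : Fin l) : arr ar af (Fin.natAdd m j) = af j + 1 := Fin.append_right _ _ _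

/-- The old relation symbols. -/
def rs (r : Fin m) (x : Fin (ar r) → ℕ) : SOF (arr ar af) :=
  .rel (Fin.castAdd l r) fun i => x (Fin.cast (arr_left r) i)

/-- The graphs of the functions. -/
def gs (j : Fin l) (x : Fin (af j + 1) → ℕ) : SOF (arr ar af) :=
  .rel (Fin.natAdd m j) fun i => x (Fin.cast (arr_right j) i)

/-- The relational structure of a structure. -/
abbrev toRel (A : St ar af) : Struc (arr ar af) where
  Dom := A.Dom
  ne := A.ne
  R := Fin.addCases (motive := fun q => (Fin (arr ar af q) → A.Dom) → Prop)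
    (fun r y => A.R r fun i => y (Fin.cast (arr_left r).symm i))
    (fun j y => A.F j (fun i => y (Fin.cast (arr_right j).symm i.castSucc)) =
      y (Fin.cast (arr_right j).symm (Fin.last _)))

theorem toRel_left (A : St ar af) (r : Fin m) (y : Fin (arr ar af (Fin.castAdd l r)) → A.Dom) :
    (toRel A).R (Fin.castAdd l r) y ↔ A.R r fun i => y (Fin.cast (arr_left r).symm i) := by
  simp only [Fin.addCases_left]

theorem toRel_right (A : St ar af) (j : Fin l) (y : Fin (arr ar af (Fin.natAdd m j)) → A.Dom) :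
    (toRel A).R (Fin.natAdd m j) y ↔
      A.F j (fun i => y (Fin.cast (arr_right j).symm i.castSucc)) =
        y (Fin.cast (arr_right j).symm (Fin.last _)) := by
  simp only [Fin.addCases_right]

theorem sat_rs {A : St ar af} {r : Fin m} {x : Fin (ar r) → ℕ} {v : ℕ → A.Dom}
    {w : (k : ℕ) → ℕ → (Fin k → A.Dom) → Prop} :
    (rs r x : SOF (arr ar af)).Sat (toRel A) v w ↔ A.R r fun i => v (x i) := by
  rw [rs, SOF.Sat, toRel_left]
  rfl

theorem sat_gs {A : St ar af} {j : Fin l} {x : Fin (af j + 1) → ℕ} {v : ℕ → A.Dom}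
    {w : (k : ℕ) → ℕ → (Fin k → A.Dom) → Prop} :
    (gs j x : SOF (arr ar af)).Sat (toRel A) v w ↔
      A.F j (fun i => v (x i.castSucc)) = v (x (Fin.last _)) := by
  rw [gs, SOF.Sat, toRel_right]
  rfl

theorem freeI_rs {r : Fin m} {x : Fin (ar r) → ℕ} {z : ℕ} :
    (rs r x : SOF (arr ar af)).FreeI z ↔ ∃ i, x i = z := by
  rw [rs, SOF.FreeI]
  constructor
  · rintro ⟨i, h⟩
    exact ⟨_, h⟩
  · rintro ⟨i, h⟩
    exact ⟨Fin.cast (arr_left r).symm i, h⟩

theorem freeI_gs {j : Fin l} {x : Fin (af j + 1) → ℕ} {z : ℕ} :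
    (gs j x : SOF (arr ar af)).FreeI z ↔ ∃ i, x i = z := by
  rw [gs, SOF.FreeI]
  constructor
  · rintro ⟨i, h⟩
    exact ⟨_, h⟩
  · rintro ⟨i, h⟩
    exact ⟨Fin.cast (arr_right j).symm i, h⟩

/-! ## Terms -/

/-- The code of a term is larger than the codes of its arguments. -/
theorem mem_lt_encode {a : ℕ} {L : List ℕ} (h : a ∈ L) : a < Encodable.encode L := by
  induction L with
  | nil => simp at h
  | cons b L ih =>
    rw [Encodable.encode_list_cons]
    rcases List.mem_cons.1 h with rfl | h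
    · exact Nat.lt_succ_of_le (Nat.left_le_pair _ _)
    · exact (ih h).trans (Nat.lt_succ_of_le (Nat.right_le_pair _ _))

theorem Tm.code_lt {j : Fin l} {t : Fin (af j) → Tm af} (i : Fin (af j)) :
    (t i).code < (Tm.fn j t).code := by
  have h : (t i).code < Encodable.encode (List.ofFn fun i => (t i).code) :=
    mem_lt_encode (List.mem_ofFn.2 ⟨i, rfl⟩)
  rw [Tm.code]
  exact h.trans_le ((Nat.right_le_pair _ _).trans (Nat.right_le_pair _ _))

theorem Tm.code_inj : ∀ {s t : Tm af}, s.code = t.code → s = t := by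
  intro s
  induction s with
  | var x =>
    intro t h
    cases t with
    | var y =>
      rw [Tm.code, Tm.code, Nat.pair_eq_pair] at h
      rw [h.2]
    | fn j t =>
      rw [Tm.code, Tm.code, Nat.pair_eq_pair] at h
      exact absurd h.1 (by norm_num)
  | fn j s ih =>
    intro t h
    cases t with
    | var y =>
      rw [Tm.code, Tm.code, Nat.pair_eq_pair] at h
      exact absurd h.1 (by norm_num)
    | fn k t =>
      rw [Tm.code, Tm.code, Nat.pair_eq_pair, Nat.pair_eq_pair] at h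
      obtain rfl : j = k := Fin.ext h.2.1
      have h2 := List.ofFn_injective (Encodable.encode_injective h.2.2)
      congr 1
      funext i
      exact ih i (congrFun h2 i)

/-- The variable that holds the value of a term. -/
def Tm.ix (t : Tm af) : ℕ := 2 * t.code + 1

theorem Tm.ix_inj {s t : Tm af} (h : s.ix = t.ix) : s = t := by
  rw [Tm.ix, Tm.ix] at h
  exact Tm.code_inj (by omega)

theorem Tm.ix_ne {t : Tm af} {x : ℕ} : t.ix ≠ 2 * x := by
  rw [Tm.ix]
  omega

/-- The variable of the term has the right value, if those of its arguments do. -/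
def Tm.G (ar : Fin m → ℕ) : Tm af → SOF (arr ar af)
  | var x => .eq (2 * x) (Tm.var x : Tm af).ix
  | fn j t => gs j (Fin.snoc (α := fun _ => ℕ) (fun i => (t i).ix) (Tm.fn j t).ix)

/-- The subterms. -/
def Tm.subs : Tm af → List (Tm af)
  | var x => [var x]
  | fn j t => (List.ofFn fun i => (t i).subs).flatten ++ [fn j t]

/-- The arguments of each term of the list are in `B` or earlier in the list. -/
def Cl : List (Tm af) → List (Tm af) → Prop
  | _, [] => True
  | B, s :: S => (∀ j t, s = .fn j t → ∀ i, t i ∈ B) ∧ Cl (s :: B) S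

theorem Cl.mono : ∀ {S B B' : List (Tm af)}, (∀ x ∈ B, x ∈ B') → Cl B S → Cl B' S
  | [], _, _, _, _ => trivial
  | s :: S, B, B', h, h' => ⟨fun j t e i => h _ (h'.1 j t e i), Cl.mono (B := s :: B)
      (fun x hx => by
        rcases List.mem_cons.1 hx with rfl | hx
        · exact List.mem_cons_self
        · exact List.mem_cons_of_mem _ (h x hx)) h'.2⟩

theorem Cl.append : ∀ {S B B' S' : List (Tm af)}, Cl B S → Cl B' S' →
    (∀ x ∈ B', x ∈ B ∨ x ∈ S) → Cl B (S ++ S')
  | [], B, B', S', _, h', h => Cl.mono (fun x hx => (h x hx).resolve_right List.not_mem_nil) h'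
  | s :: S, B, B', S', h0, h', h => ⟨h0.1, Cl.append h0.2 h' fun x hx => by
      rcases h x hx with h1 | h1
      · exact Or.inl (List.mem_cons_of_mem _ h1)
      · rcases List.mem_cons.1 h1 with rfl | h1
        · exact Or.inl List.mem_cons_self
        · exact Or.inr h1⟩

theorem Cl.flatten {L : List (List (Tm af))} (h : ∀ S ∈ L, Cl [] S) : Cl [] L.flatten := by
  induction L with
  | nil => trivial
  | cons S L ih =>
    rw [List.flatten_cons]
    exact Cl.append (h S List.mem_cons_self) (ih fun S' h' => h S' (List.mem_cons_of_mem _ h'))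
      fun x hx => absurd hx List.not_mem_nil

theorem Tm.mem_subs : ∀ t : Tm af, t ∈ t.subs
  | var x => by simp [Tm.subs]
  | fn j t => by simp [Tm.subs]

theorem mem_flat {n : ℕ} {t : Fin n → Tm af} (i : Fin n) :
    t i ∈ (List.ofFn fun i => (t i).subs).flatten :=
  List.mem_flatten.2 ⟨_, List.mem_ofFn.2 ⟨i, rfl⟩, (t i).mem_subs⟩

theorem Tm.cl : ∀ t : Tm af, Cl [] t.subs := by
  intro t
  induction t with
  | var x => exact ⟨fun j t h => (nomatch h), trivial⟩
  | fn j t ih =>
    rw [Tm.subs]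
    refine Cl.append (B' := (List.ofFn fun i => (t i).subs).flatten) (Cl.flatten ?_) ⟨?_, trivial⟩
      fun x hx => Or.inr hx
    · intro S hS
      obtain ⟨i, rfl⟩ := List.mem_ofFn.1 hS
      exact ih i
    · intro k s h i
      obtain ⟨rfl, h⟩ := Tm.fn.inj h
      obtain rfl := eq_of_heq h
      exact mem_flat i

theorem cl_flat {n : ℕ} {t : Fin n → Tm af} : Cl [] (List.ofFn fun i => (t i).subs).flatten := by
  refine Cl.flatten fun S hS => ?_
  obtain ⟨i, rfl⟩ := List.mem_ofFn.1 hS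
  exact (t i).cl

theorem Tm.occ_of_mem : ∀ {t : Tm af} {x : ℕ}, Tm.var x ∈ t.subs → t.Occ x := by
  intro t x
  induction t with
  | var y =>
    intro h
    rw [Tm.subs, List.mem_singleton] at h
    exact (Tm.var.inj h).symm
  | fn j t ih =>
    intro h
    rw [Tm.subs, List.mem_append, List.mem_singleton, List.mem_flatten] at h
    rcases h with ⟨S, hS, h⟩ | h
    · obtain ⟨i, rfl⟩ := List.mem_ofFn.1 hS
      exact ⟨i, ih i h⟩
    · exact nomatch h

theorem occ_of_mem_flat {n : ℕ} {t : Fin n → Tm af} {x : ℕ}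
    (h : Tm.var x ∈ (List.ofFn fun i => (t i).subs).flatten) : ∃ i, (t i).Occ x := by
  obtain ⟨S, hS, h⟩ := List.mem_flatten.1 h
  obtain ⟨i, rfl⟩ := List.mem_ofFn.1 hS
  exact ⟨i, Tm.occ_of_mem h⟩

/-! ## The translation -/

/-- Say that the variables of the terms of the list have the right values. -/
def wrap (S : List (Tm af)) (ψ : SOF (arr ar af)) : SOF (arr ar af) :=
  S.foldr (fun s χ => .ex s.ix (.and (s.G ar) χ)) ψ

theorem wrap_nil {ψ : SOF (arr ar af)} : wrap [] ψ = ψ := rfl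

theorem wrap_cons {s : Tm af} {S : List (Tm af)} {ψ : SOF (arr ar af)} :
    wrap (s :: S) ψ = .ex s.ix (.and (s.G ar) (wrap S ψ)) := rfl

theorem sat_G {A : St ar af} {v v' : ℕ → A.Dom} {w : (k : ℕ) → ℕ → (Fin k → A.Dom) → Prop}
    {s : Tm af} {B : List (Tm af)} (h : ∀ j t, s = .fn j t → ∀ i, t i ∈ B)
    (hB : ∀ b ∈ B, v' b.ix = b.val A v) (hv : ∀ x, v' (2 * x) = v x) (a : A.Dom) :
    (s.G ar).Sat (toRel A) (Function.update v' s.ix a) w ↔ a = s.val A v := by
  cases s with
  | var x =>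
    rw [Tm.G, SOF.Sat, Function.update_self, Function.update_of_ne (Tm.ix_ne.symm), hv, Tm.val]
    exact eq_comm
  | fn j t =>
    rw [Tm.G, sat_gs, Fin.snoc_last, Function.update_self, Tm.val]
    have h1 : (fun i => Function.update v' (Tm.fn j t).ix a
        (Fin.snoc (α := fun _ => ℕ) (fun i => (t i).ix) (Tm.fn j t).ix (Fin.castSucc i))) =
        fun i => (t i).val A v := by
      funext i
      rw [Fin.snoc_castSucc, Function.update_of_ne, hB _ (h j t rfl i)]
      rw [Tm.ix, Tm.ix]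
      have := Tm.code_lt (t := t) i
      omega
    rw [h1]
    exact eq_comm

theorem sat_wrap {A : St ar af} {v : ℕ → A.Dom} {w : (k : ℕ) → ℕ → (Fin k → A.Dom) → Prop}
    {ψ : SOF (arr ar af)} {p : Prop} : ∀ (S B : List (Tm af)) (v' : ℕ → A.Dom), Cl B S →
    (∀ b ∈ B, v' b.ix = b.val A v) → (∀ x, v' (2 * x) = v x) →
    (∀ u : ℕ → A.Dom, (∀ b, b ∈ B ∨ b ∈ S → u b.ix = b.val A v) → (∀ x, u (2 * x) = v x) →
      (ψ.Sat (toRel A) u w ↔ p)) → ((wrap S ψ).Sat (toRel A) v' w ↔ p)
  | [], B, v', _, hB, hv, h => h v' (fun b hb => hB b (hb.resolve_right List.not_mem_nil)) hv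
  | s :: S, B, v', hC, hB, hv, h => by
    have ih := sat_wrap (A := A) (v := v) (w := w) (ψ := ψ) (p := p) S (s :: B)
      (Function.update v' s.ix (s.val A v)) hC.2 ?_ ?_ ?_
    · rw [wrap_cons, SOF.Sat]
      constructor
      · rintro ⟨a, ha⟩
        rw [SOF.Sat, sat_G hC.1 hB hv] at ha
        obtain ⟨rfl, ha⟩ := ha
        exact ih.1 ha
      · intro hp
        refine ⟨s.val A v, ?_⟩
        rw [SOF.Sat, sat_G hC.1 hB hv]
        exact ⟨rfl, ih.2 hp⟩
    · intro b hb
      by_cases e : b = s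
      · rw [e, Function.update_self]
      · rw [Function.update_of_ne (fun h => e (Tm.ix_inj h))]
        exact hB b ((List.mem_cons.1 hb).resolve_left e)
    · intro x
      rw [Function.update_of_ne Tm.ix_ne.symm]
      exact hv x
    · intro u hu1 hu2
      refine h u (fun b hb => hu1 b ?_) hu2
      rcases hb with hb | hb
      · exact Or.inl (List.mem_cons_of_mem _ hb)
      · rcases List.mem_cons.1 hb with rfl | hb
        · exact Or.inl List.mem_cons_self
        · exact Or.inr hb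

theorem freeI_G {s : Tm af} {B : List (Tm af)} (h : ∀ j t, s = .fn j t → ∀ i, t i ∈ B) {z : ℕ}
    (hz : (s.G ar).FreeI z) : z = s.ix ∨ (∃ b ∈ B, z = b.ix) ∨ ∃ x, z = 2 * x ∧ s = .var x := by
  cases s with
  | var x =>
    rw [Tm.G, SOF.FreeI] at hz
    rcases hz with rfl | rfl
    · exact Or.inr (Or.inr ⟨x, rfl, rfl⟩)
    · exact Or.inl rfl
  | fn j t =>
    rw [Tm.G, freeI_gs] at hz
    obtain ⟨i, hi⟩ := hz
    refine Fin.lastCases ?_ (fun i => ?_) i hi
    · intro hi
      rw [Fin.snoc_last] at hi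
      exact Or.inl hi.symm
    · intro hi
      rw [Fin.snoc_castSucc] at hi
      exact Or.inr (Or.inl ⟨t i, h j t rfl i, hi.symm⟩)

theorem freeI_wrap {ψ : SOF (arr ar af)} {z : ℕ} : ∀ (S B : List (Tm af)), Cl B S →
    (wrap S ψ).FreeI z → (∃ b ∈ B, z = b.ix) ∨ (∃ x, z = 2 * x ∧ Tm.var x ∈ S) ∨
      (ψ.FreeI z ∧ ∀ s ∈ S, z ≠ s.ix)
  | [], _, _, h => Or.inr (Or.inr ⟨h, fun s hs => absurd hs List.not_mem_nil⟩)
  | s :: S, B, hC, h => by
    rw [wrap_cons, SOF.FreeI, SOF.FreeI] at h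
    obtain ⟨h1, h2 | h2⟩ := h
    · rcases freeI_G hC.1 h2 with rfl | h2 | ⟨x, hx, rfl⟩
      · exact absurd rfl h1
      · exact Or.inl h2
      · exact Or.inr (Or.inl ⟨x, hx, List.mem_cons_self⟩)
    · rcases freeI_wrap S (s :: B) hC.2 h2 with ⟨b, hb, rfl⟩ | ⟨x, hx, hx'⟩ | ⟨h2, h3⟩
      · rcases List.mem_cons.1 hb with rfl | hb
        · exact absurd rfl h1
        · exact Or.inl ⟨b, hb, rfl⟩
      · exact Or.inr (Or.inl ⟨x, hx, List.mem_cons_of_mem _ hx'⟩)
      · refine Or.inr (Or.inr ⟨h2, fun s' hs' => ?_⟩)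
        rcases List.mem_cons.1 hs' with rfl | hs'
        · exact fun e => h1 e.symm
        · exact h3 s' hs'

theorem freeR_G {s : Tm af} {p q : ℕ} : ¬ (s.G ar).FreeR p q := by
  cases s with
  | var x => exact id
  | fn j t => exact id

theorem freeR_wrap {ψ : SOF (arr ar af)} {p q : ℕ} : ∀ (S : List (Tm af)),
    (wrap S ψ).FreeR p q → ψ.FreeR p q
  | [], h => h
  | s :: S, h => by
    rw [wrap_cons, SOF.FreeR, SOF.FreeR] at h
    exact freeR_wrap S (h.resolve_left freeR_G)

/-- The translation. -/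
def tr : Fo ar af → SOF (arr ar af)
  | .rel r t => wrap (List.ofFn fun i => (t i).subs).flatten (rs r fun i => (t i).ix)
  | .app k i t => wrap (List.ofFn fun i => (t i).subs).flatten (.app k i fun i => (t i).ix)
  | .eq s t => wrap (s.subs ++ t.subs) (.eq s.ix t.ix)
  | .neg φ => .neg (tr φ)
  | .and φ ψ => .and (tr φ) (tr ψ)
  | .ex x φ => .ex (2 * x) (tr φ)
  | .exR k i φ => .exR k i (tr φ)

theorem sat_tr {A : St ar af} : ∀ (φ : Fo ar af) (v v' : ℕ → A.Dom)
    (w : (k : ℕ) → ℕ → (Fin k → A.Dom) → Prop), (∀ x, v' (2 * x) = v x) →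
    ((tr φ).Sat (toRel A) v' w ↔ φ.Sat A v w)
  | .rel r t, v, v', w, h => by
    rw [tr]
    refine sat_wrap _ [] v' cl_flat (fun b hb => absurd hb List.not_mem_nil) h fun u hu _ => ?_
    rw [sat_rs, Fo.Sat]
    have : (fun i => u (t i).ix) = fun i => (t i).val A v :=
      funext fun i => hu _ (Or.inr (mem_flat i))
    rw [this]
  | .app k i t, v, v', w, h => by
    rw [tr]
    refine sat_wrap _ [] v' cl_flat (fun b hb => absurd hb List.not_mem_nil) h fun u hu _ => ?_
    rw [SOF.Sat, Fo.Sat]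
    have : (fun i => u (t i).ix) = fun i => (t i).val A v :=
      funext fun i => hu _ (Or.inr (mem_flat i))
    rw [this]
  | .eq s t, v, v', w, h => by
    rw [tr]
    refine sat_wrap _ [] v' (Cl.append s.cl t.cl fun x hx => absurd hx List.not_mem_nil)
      (fun b hb => absurd hb List.not_mem_nil) h fun u hu _ => ?_
    rw [SOF.Sat, Fo.Sat, hu s (Or.inr (List.mem_append_left _ s.mem_subs)),
      hu t (Or.inr (List.mem_append_right _ t.mem_subs))]
  | .neg φ, v, v', w, h => by
    rw [tr, SOF.Sat, Fo.Sat, sat_tr φ v v' w h]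
  | .and φ ψ, v, v', w, h => by
    rw [tr, SOF.Sat, Fo.Sat, sat_tr φ v v' w h, sat_tr ψ v v' w h]
  | .ex x φ, v, v', w, h => by
    rw [tr, SOF.Sat, Fo.Sat]
    refine exists_congr fun a => sat_tr φ _ _ w fun y => ?_
    by_cases e : y = x
    · rw [e, Function.update_self, Function.update_self]
    · rw [Function.update_of_ne (by omega), Function.update_of_ne e, h]
  | .exR k i φ, v, v', w, h => by
    rw [tr, SOF.Sat, Fo.Sat]
    exact exists_congr fun P => sat_tr φ v v' _ h

theorem freeI_tr : ∀ {φ : Fo ar af} {z : ℕ}, (tr φ).FreeI z → ∃ x, z = 2 * x ∧ φ.FreeI x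
  | .rel r t, z, h => by
    rw [tr] at h
    rcases freeI_wrap _ [] cl_flat h with ⟨b, hb, _⟩ | ⟨x, hx, hx'⟩ | ⟨h1, h2⟩
    · exact absurd hb List.not_mem_nil
    · exact ⟨x, hx, occ_of_mem_flat hx'⟩
    · obtain ⟨i, hi⟩ := freeI_rs.1 h1
      exact absurd hi.symm (h2 _ (mem_flat i))
  | .app k i t, z, h => by
    rw [tr] at h
    rcases freeI_wrap _ [] cl_flat h with ⟨b, hb, _⟩ | ⟨x, hx, hx'⟩ | ⟨h1, h2⟩
    · exact absurd hb List.not_mem_nil
    · exact ⟨x, hx, occ_of_mem_flat hx'⟩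
    · obtain ⟨i, hi⟩ := h1
      exact absurd hi.symm (h2 _ (mem_flat i))
  | .eq s t, z, h => by
    rw [tr] at h
    rcases freeI_wrap _ [] (Cl.append s.cl t.cl fun x hx => absurd hx List.not_mem_nil) h with
      ⟨b, hb, _⟩ | ⟨x, hx, hx'⟩ | ⟨h1, h2⟩
    · exact absurd hb List.not_mem_nil
    · refine ⟨x, hx, ?_⟩
      rcases List.mem_append.1 hx' with h' | h'
      · exact Or.inl (Tm.occ_of_mem h')
      · exact Or.inr (Tm.occ_of_mem h')
    · rcases h1 with h1 | h1
      · exact absurd h1.symm (h2 _ (List.mem_append_left _ s.mem_subs))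
      · exact absurd h1.symm (h2 _ (List.mem_append_right _ t.mem_subs))
  | .neg φ, z, h => freeI_tr (φ := φ) h
  | .and φ ψ, z, h => by
    rcases h with h | h
    · obtain ⟨x, hx, h⟩ := freeI_tr (φ := φ) h
      exact ⟨x, hx, Or.inl h⟩
    · obtain ⟨x, hx, h⟩ := freeI_tr (φ := ψ) h
      exact ⟨x, hx, Or.inr h⟩
  | .ex y φ, z, h => by
    obtain ⟨h1, h2⟩ := h
    obtain ⟨x, hx, h⟩ := freeI_tr (φ := φ) h2
    refine ⟨x, hx, ?_, h⟩
    rintro rfl
    exact h1 hx.symm
  | .exR k i φ, z, h => freeI_tr (φ := φ) h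

theorem freeR_tr : ∀ {φ : Fo ar af} {p q : ℕ}, (tr φ).FreeR p q → φ.FreeR p q
  | .rel r t, p, q, h => freeR_wrap _ h
  | .app k i t, p, q, h => freeR_wrap _ h
  | .eq s t, p, q, h => freeR_wrap _ h
  | .neg φ, p, q, h => freeR_tr (φ := φ) h
  | .and φ ψ, p, q, h => by
    rcases h with h | h
    · exact Or.inl (freeR_tr h)
    · exact Or.inr (freeR_tr h)
  | .ex y φ, p, q, h => freeR_tr (φ := φ) h
  | .exR k i φ, p, q, h => ⟨h.1, freeR_tr (φ := φ) h.2⟩

theorem sentence_tr {φ : Fo ar af} (h : φ.Sentence) : (tr φ).Sentence :=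
  ⟨fun _ hz => by
    obtain ⟨x, -, hx⟩ := freeI_tr hz
    exact h.1 x hx, fun _ _ hz => h.2 _ _ (freeR_tr hz)⟩

theorem models_tr {A : St ar af} {φ : Fo ar af} : R587.Models (toRel A) (tr φ) ↔ Models A φ := by
  constructor
  · intro h v w
    exact (sat_tr φ v (fun z => v (z / 2)) w fun x => by
      rw [Nat.mul_div_cancel_left _ (by norm_num)]).1 (h _ w)
  · intro h v' w
    exact (sat_tr φ (fun x => v' (2 * x)) v' w fun x => rfl).2 (h _ w)

/-! ## The translation back -/

/-- The translation of the atomic formulas with a symbol. -/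
def btr (ar : Fin m → ℕ) (af : Fin l → ℕ) (q : Fin (m + l)) :
    (Fin (arr ar af q) → ℕ) → Fo ar af :=
  Fin.addCases (motive := fun q => (Fin (arr ar af q) → ℕ) → Fo ar af)
    (fun r x => .rel r fun i => .var (x (Fin.cast (arr_left r).symm i)))
    (fun j x => .eq (.fn j fun i => .var (x (Fin.cast (arr_right j).symm i.castSucc)))
      (.var (x (Fin.cast (arr_right j).symm (Fin.last _))))) q

/-- The translation back. -/
def bt : SOF (arr ar af) → Fo ar af
  | .rel q x => btr ar af q x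
  | .app k i x => .app k i fun j => .var (x j)
  | .eq x y => .eq (.var x) (.var y)
  | .neg φ => .neg (bt φ)
  | .and φ ψ => .and (bt φ) (bt ψ)
  | .ex x φ => .ex x (bt φ)
  | .exR k i φ => .exR k i (bt φ)

theorem sat_btr {A : St ar af} {v : ℕ → A.Dom} {w : (k : ℕ) → ℕ → (Fin k → A.Dom) → Prop}
    (q : Fin (m + l)) : ∀ x, (btr ar af q x).Sat A v w ↔ (toRel A).R q fun i => v (x i) := by
  refine Fin.addCases (fun r x => ?_) (fun j x => ?_) q
  · rw [btr, Fin.addCases_left, toRel_left]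
    rfl
  · rw [btr, Fin.addCases_right, toRel_right]
    rfl

theorem sat_bt {A : St ar af} : ∀ (ψ : SOF (arr ar af)) (v : ℕ → A.Dom)
    (w : (k : ℕ) → ℕ → (Fin k → A.Dom) → Prop), (bt ψ).Sat A v w ↔ ψ.Sat (toRel A) v w
  | .rel q x, v, w => sat_btr q x
  | .app k i x, v, w => Iff.rfl
  | .eq x y, v, w => Iff.rfl
  | .neg φ, v, w => not_congr (sat_bt φ v w)
  | .and φ ψ, v, w => and_congr (sat_bt φ v w) (sat_bt ψ v w)
  | .ex x φ, v, w => exists_congr fun a => sat_bt φ _ w
  | .exR k i φ, v, w => exists_congr fun a => sat_bt φ v _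

theorem freeI_btr {z : ℕ} (q : Fin (m + l)) :
    ∀ x, (btr ar af q x).FreeI z → ∃ i, x i = z := by
  refine Fin.addCases (fun r x => ?_) (fun j x => ?_) q
  · rw [btr, Fin.addCases_left]
    rintro ⟨i, h⟩
    exact ⟨_, h⟩
  · rw [btr, Fin.addCases_right]
    rintro (⟨i, h⟩ | h)
    · exact ⟨_, h⟩
    · exact ⟨_, h⟩

theorem freeR_btr {p p' : ℕ} (q : Fin (m + l)) :
    ∀ x, ¬ (btr ar af q x).FreeR p p' := by
  refine Fin.addCases (fun r x => ?_) (fun j x => ?_) q
  · rw [btr, Fin.addCases_left]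
    exact id
  · rw [btr, Fin.addCases_right]
    exact id

theorem freeI_bt : ∀ {ψ : SOF (arr ar af)} {z : ℕ}, (bt ψ).FreeI z → ψ.FreeI z
  | .rel q x, z, h => freeI_btr q x h
  | .app k i x, z, h => h
  | .eq x y, z, h => h
  | .neg φ, z, h => freeI_bt (ψ := φ) h
  | .and φ ψ, z, h => by
    rcases h with h | h
    · exact Or.inl (freeI_bt h)
    · exact Or.inr (freeI_bt h)
  | .ex x φ, z, h => ⟨h.1, freeI_bt (ψ := φ) h.2⟩
  | .exR k i φ, z, h => freeI_bt (ψ := φ) h

theorem freeR_bt : ∀ {ψ : SOF (arr ar af)} {p q : ℕ}, (bt ψ).FreeR p q → ψ.FreeR p q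
  | .rel q' x, p, q, h => absurd h (freeR_btr q' x)
  | .app k i x, p, q, h => h
  | .eq x y, p, q, h => h
  | .neg φ, p, q, h => freeR_bt (ψ := φ) h
  | .and φ ψ, p, q, h => by
    rcases h with h | h
    · exact Or.inl (freeR_bt h)
    · exact Or.inr (freeR_bt h)
  | .ex x φ, p, q, h => freeR_bt (ψ := φ) h
  | .exR k i φ, p, q, h => ⟨h.1, freeR_bt (ψ := φ) h.2⟩

theorem sentence_bt {ψ : SOF (arr ar af)} (h : ψ.Sentence) : (bt ψ).Sentence :=
  ⟨fun _ hz => h.1 _ (freeI_bt hz), fun _ _ hz => h.2 _ _ (freeR_bt hz)⟩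

theorem models_bt {A : St ar af} {ψ : SOF (arr ar af)} :
    Models A (bt ψ) ↔ R587.Models (toRel A) ψ :=
  forall_congr' fun v => forall_congr' fun w => sat_bt ψ v w

end Pool.Agent.R587.Voc
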