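import Pool.Agent.R587.IntSat
import Pool.Agent.W868.Small

/-!
# Coded structures
-/

set_option autoImplicit false

namespace Pool.Agent.R587

open Pool.Agent.W868
open ZFSet (pair)
open Cardinal

section tuples

theorem tp_inj {k : ℕ} {x y : Fin k → ZFSet.{0}} (h : tp x = tp y) : x = y := by
  funext j
  have h1 : pair (nat j) (x j) ∈ tp y := h ▸ mem_tp.2 ⟨j, rfl⟩
  obtain ⟨j', h2⟩ := mem_tp.1 h1
  obtain ⟨h3, h4⟩ := ZFSet.pair_inj.1 h2
  have h5 : j = j' := Fin.ext (nat_injective h3)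
  rw [h4, h5]

theorem im_tp {k : ℕ} {x : Fin k → ZFSet.{0}} {h : ZFSet.{0} → ZFSet.{0}} :
    im (fun q => pair (fs q) (h (sn q))) (tp x) = tp fun j => h (x j) := by
  ext p
  rw [mem_im, mem_tp]
  constructor
  · rintro ⟨q, hq, rfl⟩
    obtain ⟨j, rfl⟩ := mem_tp.1 hq
    exact ⟨j, by rw [fs_pair, sn_pair]⟩
  · rintro ⟨j, rfl⟩
    exact ⟨_, mem_tp.2 ⟨j, rfl⟩, by rw [fs_pair, sn_pair]⟩

theorem isFunc_nat {k : ℕ} {D t : ZFSet.{0}} :
    ZFSet.IsFunc (nat k) D t ↔ ∃ x : Fin k → ZFSet.{0}, (∀ j, x j ∈ D) ∧ t = tp x := by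
  constructor
  · intro h
    have h1 : ∀ j : Fin k, ∃ b ∈ D, pair (nat j) b ∈ t :=
      fun j => fun_exists h (nat_mem_nat_iff.2 j.2)
    choose x hx hx' using h1
    refine ⟨x, hx, ?_⟩
    ext p
    rw [mem_tp]
    constructor
    · intro hp
      obtain ⟨u, hu, w, hw, rfl⟩ := ZFSet.mem_prod.1 (h.1 hp)
      obtain ⟨j, hj, rfl⟩ := mem_nat_iff.1 hu
      exact ⟨⟨j, hj⟩, by rw [fun_unique h hp (hx' ⟨j, hj⟩)]⟩
    · rintro ⟨j, rfl⟩
      exact hx' j
  · rintro ⟨x, hx, rfl⟩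
    constructor
    · intro p hp
      obtain ⟨j, rfl⟩ := mem_tp.1 hp
      exact ZFSet.pair_mem_prod.2 ⟨nat_mem_nat_iff.2 j.2, hx j⟩
    · intro z hz
      obtain ⟨j, hj, rfl⟩ := mem_nat_iff.1 hz
      refine ⟨x ⟨j, hj⟩, mem_tp.2 ⟨⟨j, hj⟩, rfl⟩, fun w hw => ?_⟩
      obtain ⟨j', h1⟩ := mem_tp.1 hw
      obtain ⟨h2, h3⟩ := ZFSet.pair_inj.1 h1
      have h4 : j' = ⟨j, hj⟩ := Fin.ext (nat_injective h2).symm
      rw [h3, h4]

theorem tp_mem {c : Cardinal.{0}} {M : Set ZFSet.{0}} (hM : Full c M) {k : ℕ}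
    {x : Fin k → ZFSet.{0}} (hx : ∀ j, x j ∈ M) : tp x ∈ M := by
  refine hM.of_countable (fun p hp => ?_) ?_
  · obtain ⟨j, rfl⟩ := mem_tp.1 hp
    exact hM.pair_mem (hM.nat_mem _) (hx j)
  · refine (card_range_le _).trans ?_
    rw [Cardinal.mk_fin]
    exact Cardinal.natCast_lt_aleph0.le

end tuples

variable {m : ℕ} {ar : Fin m → ℕ}

/-- The set `a` is a transitive coded structure. -/
def WFc (ar : Fin m → ℕ) (a : ZFSet.{0}) : Prop :=
  a = pair (fs a) (sn a) ∧ (∀ y ∈ fs a, ∀ z ∈ y, z ∈ fs a) ∧ (∃ x, x ∈ fs a) ∧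
  ∀ p ∈ sn a, ∃ r : Fin m, p = pair (nat r) (sn p) ∧ ZFSet.IsFunc (nat (ar r)) (fs a) (sn p)

/-- The code in a normal form. -/
theorem isCode_iff {A : Struc ar} {a : ZFSet.{0}} : IsCode A a ↔
    a = pair (fs a) (sn a) ∧ (∀ y ∈ fs a, ∀ z ∈ y, z ∈ fs a) ∧ ∃ g : A.Dom → ZFSet.{0},
      Function.Injective g ∧ (∀ x, x ∈ fs a ↔ ∃ y, x = g y) ∧
      ∀ p, p ∈ sn a ↔ ∃ (r : Fin m) (x : Fin (ar r) → A.Dom), A.R r x ∧
        p = pair (nat r) (tp fun j => g (x j)) := by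
  constructor
  · rintro ⟨D, c, g, rfl, h1, h2, h3, h4⟩
    rw [fs_pair, sn_pair]
    exact ⟨rfl, fun y hy z hz => h3 y hy hz, g, h1, h2, h4⟩
  · rintro ⟨h1, h2, g, h3, h4, h5⟩
    exact ⟨_, _, g, h1, h3, h4, fun y hy z hz => h2 y hy z hz, h5⟩

theorem IsCode.wfc {A : Struc ar} {a : ZFSet.{0}} (h : IsCode A a) : WFc ar a := by
  obtain ⟨h1, h2, g, h3, h4, h5⟩ := isCode_iff.1 h
  obtain ⟨y⟩ := A.ne
  refine ⟨h1, h2, ⟨g y, (h4 _).2 ⟨y, rfl⟩⟩, fun p hp => ?_⟩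
  obtain ⟨r, x, -, rfl⟩ := (h5 p).1 hp
  refine ⟨r, by rw [sn_pair], ?_⟩
  rw [sn_pair]
  exact isFunc_nat.2 ⟨_, fun j => (h4 _).2 ⟨_, rfl⟩, rfl⟩

/-- The structure with a given code. -/
noncomputable def dst (ar : Fin m → ℕ) (a : ZFSet.{0}) (h : ∃ x, x ∈ fs a) : Struc ar where
  Dom := Shrink.{0} {x : ZFSet.{0} // x ∈ fs a}
  ne := by
    obtain ⟨x, hx⟩ := h
    exact ⟨equivShrink _ ⟨x, hx⟩⟩
  R r x := pair (nat r)
    (tp fun j => ((equivShrink {x : ZFSet.{0} // x ∈ fs a}).symm (x j)).1) ∈ sn a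

theorem WFc.isCode {a : ZFSet.{0}} (h : WFc ar a) : IsCode (dst ar a h.2.2.1) a := by
  obtain ⟨h1, h2, h3, h4⟩ := h
  refine isCode_iff.2 ⟨h1, h2, fun y => ((equivShrink {x : ZFSet.{0} // x ∈ fs a}).symm y).1,
    ?_, ?_, ?_⟩
  · intro x y hxy
    exact (equivShrink _).symm.injective (Subtype.ext hxy)
  · intro x
    constructor
    · intro hx
      refine ⟨equivShrink _ ⟨x, hx⟩, ?_⟩
      change x = ((equivShrink {x : ZFSet.{0} // x ∈ fs a}).symm
        (equivShrink {x : ZFSet.{0} // x ∈ fs a} ⟨x, hx⟩)).1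
      rw [Equiv.symm_apply_apply]
    · rintro ⟨y, rfl⟩
      exact ((equivShrink {x : ZFSet.{0} // x ∈ fs a}).symm y).2
  · intro p
    constructor
    · intro hp
      obtain ⟨r, h5, h6⟩ := h4 p hp
      obtain ⟨x, hx, h7⟩ := isFunc_nat.1 h6
      have h8 : (fun j => ((equivShrink {x : ZFSet.{0} // x ∈ fs a}).symm
          (equivShrink {x : ZFSet.{0} // x ∈ fs a} ⟨x j, hx j⟩)).1) = x := by
        funext j
        rw [Equiv.symm_apply_apply]
      refine ⟨r, fun j => equivShrink {x : ZFSet.{0} // x ∈ fs a} ⟨x j, hx j⟩, ?_, ?_⟩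
      · change pair (nat r) (tp fun j => ((equivShrink {x : ZFSet.{0} // x ∈ fs a}).symm
          (equivShrink {x : ZFSet.{0} // x ∈ fs a} ⟨x j, hx j⟩)).1) ∈ sn a
        rw [h8, ← h7, ← h5]
        exact hp
      · rw [h8, ← h7]
        exact h5
    · rintro ⟨r, x, h5, rfl⟩
      exact h5

theorem IsCode.card {A : Struc ar} {a : ZFSet.{0}} (h : IsCode A a) : (fs a).card = #A.Dom := by
  obtain ⟨h1, h2, g, h3, h4, h5⟩ := isCode_iff.1 h
  rw [ZFSet.card]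
  refine Cardinal.mk_congr ((equivShrink _).symm.trans (Equiv.ofBijective
    (fun y : A.Dom => (⟨g y, (h4 _).2 ⟨y, rfl⟩⟩ : {x : ZFSet.{0} // x ∈ fs a})) ?_).symm)
  constructor
  · intro x y hxy
    exact h3 (Subtype.ext_iff.1 hxy)
  · rintro ⟨x, hx⟩
    obtain ⟨y, rfl⟩ := (h4 x).1 hx
    exact ⟨y, rfl⟩

/-- Two structures with a common code are isomorphic. -/
theorem IsCode.isom {A B : Struc ar} {a : ZFSet.{0}} (h : IsCode A a) (h' : IsCode B a) :
    Isom A B := by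
  obtain ⟨h1, h2, g, h3, h4, h5⟩ := isCode_iff.1 h
  obtain ⟨-, -, g', h3', h4', h5'⟩ := isCode_iff.1 h'
  have h6 : ∀ x : A.Dom, ∃ y : B.Dom, g x = g' y := fun x => (h4' _).1 ((h4 _).2 ⟨x, rfl⟩)
  choose e he using h6
  have hb : Function.Bijective e := by
    constructor
    · intro x y hxy
      exact h3 (by rw [he, he, hxy])
    · intro y
      obtain ⟨x, hx⟩ := (h4 _).1 ((h4' _).2 ⟨y, rfl⟩)
      exact ⟨x, h3' (by rw [← he, ← hx])⟩
  refine ⟨Equiv.ofBijective e hb, fun r x => ?_⟩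
  change A.R r x ↔ B.R r fun j => e (x j)
  have h7 : (fun j => g (x j)) = fun j => g' (e (x j)) := funext fun j => he _
  constructor
  · intro hx
    obtain ⟨r', x', h8, h9⟩ := (h5' (pair (nat r) (tp fun j => g (x j)))).1
      ((h5 _).2 ⟨r, x, hx, rfl⟩)
    obtain ⟨h10, h11⟩ := ZFSet.pair_inj.1 h9
    obtain rfl : r = r' := Fin.ext (nat_injective h10)
    have h12 := tp_inj h11
    have h13 : (fun j => e (x j)) = x' := by
      funext j
      refine h3' ?_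
      rw [← he]
      exact congrFun h12 j
    rw [h13]
    exact h8
  · intro hx
    obtain ⟨r', x', h8, h9⟩ := (h5 (pair (nat r) (tp fun j => g' (e (x j))))).1
      ((h5' _).2 ⟨r, _, hx, rfl⟩)
    obtain ⟨h10, h11⟩ := ZFSet.pair_inj.1 h9
    obtain rfl : r = r' := Fin.ext (nat_injective h10)
    have h12 := tp_inj h11
    have h13 : x = x' := by
      funext j
      refine h3 ?_
      rw [he]
      exact congrFun h12 j
    rw [h13]
    exact h8

/-- A code of a structure is a code of each isomorphic structure. -/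
theorem IsCode.of_isom {A B : Struc ar} {a : ZFSet.{0}} (h : IsCode A a) (hAB : Isom A B) :
    IsCode B a := by
  obtain ⟨h1, h2, g, h3, h4, h5⟩ := isCode_iff.1 h
  obtain ⟨e, he⟩ := hAB
  refine isCode_iff.2 ⟨h1, h2, fun y => g (e.symm y), h3.comp e.symm.injective, fun x => ?_,
    fun p => ?_⟩
  · rw [h4]
    constructor
    · rintro ⟨y, rfl⟩
      exact ⟨e y, by beta_reduce; rw [Equiv.symm_apply_apply]⟩
    · rintro ⟨y, rfl⟩
      exact ⟨_, rfl⟩
  · rw [h5]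
    refine exists_congr fun r => ?_
    constructor
    · rintro ⟨x, hx, rfl⟩
      refine ⟨fun j => e (x j), (he r x).1 hx, ?_⟩
      congr 2
      funext j
      beta_reduce
      rw [Equiv.symm_apply_apply]
    · rintro ⟨y, hy, rfl⟩
      refine ⟨fun j => e.symm (y j), (he r _).2 ?_, rfl⟩
      have h6 : (fun j => e (e.symm (y j))) = y := funext fun j => e.apply_symm_apply _
      rw [h6]
      exact hy

/-- Every structure has a code with a given domain. -/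
theorem exists_isCode (A : Struc ar) {D : ZFSet.{0}} (hD : ∀ y ∈ D, ∀ z ∈ y, z ∈ D)
    (hc : D.card = #A.Dom) : ∃ a, IsCode A a ∧ fs a = D := by
  rw [ZFSet.card] at hc
  obtain ⟨e⟩ := Cardinal.eq.1 hc
  let g : A.Dom → ZFSet.{0} := fun y => ((equivShrink {x : ZFSet.{0} // x ∈ D}).symm (e.symm y)).1
  have hg : Function.Injective g := fun x y hxy => e.symm.injective
    ((equivShrink _).symm.injective (Subtype.ext hxy))
  let c : ZFSet.{0} := ZFSet.range fun q : {q : (r : Fin m) × (Fin (ar r) → A.Dom) // A.R q.1 q.2} =>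
    pair (nat q.1.1) (tp fun j => g (q.1.2 j))
  refine ⟨pair D c, isCode_iff.2 ?_, fs_pair _ _⟩
  rw [fs_pair, sn_pair]
  refine ⟨rfl, hD, g, hg, fun x => ?_, fun p => ?_⟩
  · constructor
    · intro hx
      exact ⟨e (equivShrink _ ⟨x, hx⟩), by simp [g]⟩
    · rintro ⟨y, rfl⟩
      exact ((equivShrink {x : ZFSet.{0} // x ∈ D}).symm (e.symm y)).2
  · rw [ZFSet.mem_range]
    constructor
    · rintro ⟨⟨⟨r, x⟩, hx⟩, rfl⟩
      exact ⟨r, x, hx, rfl⟩
    · rintro ⟨r, x, hx, rfl⟩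
      exact ⟨⟨⟨r, x⟩, hx⟩, rfl⟩

section

variable {c : Cardinal.{0}} {M : Set ZFSet.{0}}

theorem isCode_mem (hM : Full c M) {A : Struc ar} {a : ZFSet.{0}} (h : IsCode A a)
    (hf : fs a ∈ M) : a ∈ M := by
  obtain ⟨h1, h2, g, h3, h4, h5⟩ := isCode_iff.1 h
  rw [h1]
  refine hM.pair_mem hf ((hM.iff _).2 ⟨fun p hp => ?_, ?_⟩)
  · obtain ⟨r, x, -, rfl⟩ := (h5 p).1 hp
    exact hM.pair_mem (hM.nat_mem _) (tp_mem hM fun j => hM.trans hf ((h4 _).2 ⟨_, rfl⟩))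
  · have h6 : sn a ⊆ ZFSet.range fun q : (r : Fin m) × (Fin (ar r) → A.Dom) =>
        pair (nat q.1) (tp fun j => g (q.2 j)) := by
      intro p hp
      obtain ⟨r, x, -, rfl⟩ := (h5 p).1 hp
      exact ZFSet.mem_range.2 ⟨⟨r, x⟩, rfl⟩
    refine (ZFSet.card_mono h6).trans ((card_range_le _).trans ?_)
    rw [Cardinal.mk_sigma]
    have h7 : #A.Dom ≤ c := h.card ▸ hM.card hf
    refine (Cardinal.sum_le_sum _ (fun _ => c) fun r => ?_).trans ?_
    · rw [← Cardinal.power_def, Cardinal.mk_fin]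
      refine (Cardinal.power_le_power_right h7).trans ?_
      exact_mod_cast Cardinal.power_nat_le hM.inf
    · rw [Cardinal.sum_const', Cardinal.mk_fin]
      refine (mul_le_mul' (Cardinal.natCast_lt_aleph0.le.trans hM.inf) le_rfl).trans ?_
      exact (Cardinal.mul_eq_self hM.inf).le

/-- Isomorphism of coded structures, in `M`. -/
def Iso2 (ar : Fin m → ℕ) (M : Set ZFSet.{0}) (a b : ZFSet.{0}) : Prop :=
  ∃ g ∈ M, IsBij (fs a) (fs b) g ∧ ∀ r : Fin m, ∀ t ∈ M, ZFSet.IsFunc (nat (ar r)) (fs a) t →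
    (pair (nat r) t ∈ sn a ↔
      pair (nat r) (im (fun q => pair (fs q) (ap g (sn q))) t) ∈ sn b)

theorem iso2_iff (hM : Full c M) {A : Struc ar} {a b : ZFSet.{0}} (haM : a ∈ M) (hbM : b ∈ M)
    (ha : IsCode A a) (hb : WFc ar b) : Iso2 ar M a b ↔ IsCode A b := by
  obtain ⟨h1, h2, g, h3, h4, h5⟩ := isCode_iff.1 ha
  have hfa : fs a ∈ M := (hM.of_pair_mem (h1 ▸ haM)).1
  have hfb : fs b ∈ M := (hM.of_pair_mem (hb.1 ▸ hbM)).1
  have htM : ∀ {r : Fin m} (x : Fin (ar r) → A.Dom), (tp fun j => g (x j)) ∈ M := fun x =>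
    tp_mem hM fun j => hM.trans hfa ((h4 _).2 ⟨_, rfl⟩)
  have htf : ∀ {r : Fin m} (x : Fin (ar r) → A.Dom),
      ZFSet.IsFunc (nat (ar r)) (fs a) (tp fun j => g (x j)) := fun x =>
    isFunc_nat.2 ⟨_, fun j => (h4 _).2 ⟨_, rfl⟩, rfl⟩
  have hsa : ∀ (r : Fin m) (x : Fin (ar r) → A.Dom),
      pair (nat r) (tp fun j => g (x j)) ∈ sn a ↔ A.R r x := by
    intro r x
    rw [h5]
    constructor
    · rintro ⟨r', x', h6, h7⟩
      obtain ⟨h8, h9⟩ := ZFSet.pair_inj.1 h7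
      obtain rfl : r = r' := Fin.ext (nat_injective h8)
      have h10 : x = x' := funext fun j => h3 (congrFun (tp_inj h9) j)
      rw [h10]
      exact h6
    · intro h
      exact ⟨r, x, h, rfl⟩
  constructor
  · rintro ⟨G, hG, ⟨⟨hG1, hG2⟩, hG3⟩, hG4⟩
    have hap : ∀ y : A.Dom, pair (g y) (ap G (g y)) ∈ G := by
      intro y
      obtain ⟨w, -, hw⟩ := fun_exists hG1 ((h4 _).2 ⟨y, rfl⟩)
      rw [ap_func hG1 hw]
      exact hw
    have hap' : ∀ y : A.Dom, ap G (g y) ∈ fs b := fun y =>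
      (ZFSet.pair_mem_prod.1 (hG1.1 (hap y))).2
    refine isCode_iff.2 ⟨hb.1, hb.2.1, fun y => ap G (g y), ?_, ?_, ?_⟩
    · intro x y hxy
      refine h3 (hG2 _ _ _ (hap x) ?_)
      have h6 : ap G (g x) = ap G (g y) := hxy
      rw [h6]
      exact hap y
    · intro x
      constructor
      · intro hx
        obtain ⟨z, hz, h6⟩ := hG3 x hx
        obtain ⟨y, rfl⟩ := (h4 z).1 hz
        exact ⟨y, (ap_func hG1 h6).symm⟩
      · rintro ⟨y, rfl⟩
        exact hap' y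
    · intro p
      have key : ∀ (r : Fin m) (x : Fin (ar r) → A.Dom),
          A.R r x ↔ pair (nat r) (tp fun j => ap G (g (x j))) ∈ sn b := by
        intro r x
        rw [← hsa, hG4 r _ (htM x) (htf x), im_tp]
      constructor
      · intro hp
        obtain ⟨r, h6, h7⟩ := hb.2.2.2 p hp
        obtain ⟨y, hy, h8⟩ := isFunc_nat.1 h7
        have h9 : ∀ j, ∃ x : A.Dom, y j = ap G (g x) := by
          intro j
          obtain ⟨z, hz, h10⟩ := hG3 _ (hy j)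
          obtain ⟨x, rfl⟩ := (h4 z).1 hz
          exact ⟨x, (ap_func hG1 h10).symm⟩
        choose x hx using h9
        have h10 : y = fun j => ap G (g (x j)) := funext hx
        rw [h8, h10] at h6
        exact ⟨r, x, (key r x).2 (h6 ▸ hp), h6⟩
      · rintro ⟨r, x, hx, rfl⟩
        exact (key r x).1 hx
  · intro hb'
    obtain ⟨-, -, g', h3', h4', h5'⟩ := isCode_iff.1 hb'
    have hsb : ∀ (r : Fin m) (x : Fin (ar r) → A.Dom),
        pair (nat r) (tp fun j => g' (x j)) ∈ sn b ↔ A.R r x := by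
      intro r x
      rw [h5']
      constructor
      · rintro ⟨r', x', h6, h7⟩
        obtain ⟨h8, h9⟩ := ZFSet.pair_inj.1 h7
        obtain rfl : r = r' := Fin.ext (nat_injective h8)
        have h10 : x = x' := funext fun j => h3' (congrFun (tp_inj h9) j)
        rw [h10]
        exact h6
      · intro h
        exact ⟨r, x, h, rfl⟩
    let G : ZFSet.{0} := ZFSet.range fun y : A.Dom => pair (g y) (g' y)
    have hGm : ∀ {p : ZFSet.{0}}, p ∈ G ↔ ∃ y, p = pair (g y) (g' y) := by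
      intro p
      rw [ZFSet.mem_range]
      exact exists_congr fun _ => eq_comm
    have hG1 : ZFSet.IsFunc (fs a) (fs b) G := by
      constructor
      · intro p hp
        obtain ⟨y, rfl⟩ := hGm.1 hp
        exact ZFSet.pair_mem_prod.2 ⟨(h4 _).2 ⟨y, rfl⟩, (h4' _).2 ⟨y, rfl⟩⟩
      · intro z hz
        obtain ⟨y, rfl⟩ := (h4 z).1 hz
        refine ⟨g' y, hGm.2 ⟨y, rfl⟩, fun w hw => ?_⟩
        obtain ⟨y', h6⟩ := hGm.1 hw
        obtain ⟨h7, h8⟩ := ZFSet.pair_inj.1 h6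
        rw [h8, h3 h7]
    have hap : ∀ y : A.Dom, ap G (g y) = g' y := fun y => ap_func hG1 (hGm.2 ⟨y, rfl⟩)
    refine ⟨G, hM.sub (hM.prod_mem hfa hfb) hG1.1, ⟨⟨hG1, ?_⟩, ?_⟩, ?_⟩
    · intro u v w hu hv
      obtain ⟨x, h6⟩ := hGm.1 hu
      obtain ⟨y, h7⟩ := hGm.1 hv
      obtain ⟨h8, h9⟩ := ZFSet.pair_inj.1 h6
      obtain ⟨h10, h11⟩ := ZFSet.pair_inj.1 h7
      rw [h8, h10, h3' (h9.symm.trans h11)]
    · intro z hz
      obtain ⟨y, rfl⟩ := (h4' z).1 hz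
      exact ⟨g y, (h4 _).2 ⟨y, rfl⟩, hGm.2 ⟨y, rfl⟩⟩
    · intro r t _ ht
      obtain ⟨y, hy, rfl⟩ := isFunc_nat.1 ht
      have h9 : ∀ j, ∃ x : A.Dom, y j = g x := fun j => (h4 _).1 (hy j)
      choose x hx using h9
      have h10 : y = fun j => g (x j) := funext hx
      rw [h10, hsa, im_tp]
      have h11 : (fun j => ap G (g (x j))) = fun j => g' (x j) := funext fun j => hap _
      rw [h11, hsb]

section

variable {n : ℕ} {F G : (Fin n → ZFSet.{0}) → ZFSet.{0}}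

theorem wfc' (hM : Full c M) (hF : DfnF ∅ M F) : Dfn ∅ M fun v => WFc ar (F v) := by
  have hB := hM.base
  refine Dfn.comp1 (Q := WFc ar) ?_ hF
  unfold WFc
  apply Dfn.and (Dfn.eq (DfnF.proj 0) (hB.pair' (hM.fs' (DfnF.proj 0)) (hM.sn' (DfnF.proj 0))))
  apply Dfn.and
  · apply hB.ball (hM.fs' (DfnF.proj 0))
    apply hB.ball (DfnF.proj 0)
    exact Dfn.mem (DfnF.proj 0) (hM.fs' (DfnF.proj 2))
  apply Dfn.and
  · refine (hB.bex (Q := fun _ _ => True) (hM.fs' (DfnF.proj 0)) (Dfn.prop _)).congr fun v _ => ?_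
    simp
  · apply hB.ball (hM.sn' (DfnF.proj 0))
    refine Dfn.exFin fun r => ?_
    apply Dfn.and
    · exact Dfn.eq (DfnF.proj 0) (hB.pair' (hM.nat' r) (hM.sn' (DfnF.proj 0)))
    · exact hB.isFunc' (hM.nat' _) (hM.fs' (DfnF.proj 1)) (hM.sn' (DfnF.proj 0))

theorem iso2' (hM : Full c M) (hF : DfnF ∅ M F) (hG : DfnF ∅ M G) :
    Dfn ∅ M fun v => Iso2 ar M (F v) (G v) := by
  have hB := hM.base
  refine Dfn.comp2 (Q := Iso2 ar M) ?_ hF hG
  unfold Iso2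
  apply Dfn.ex
  apply Dfn.and (hB.isBij' (hM.fs' (DfnF.proj 1)) (hM.fs' (DfnF.proj 2)) (DfnF.proj 0))
  refine Dfn.allFin fun r => ?_
  apply Dfn.all
  apply Dfn.imp (hB.isFunc' (hM.nat' _) (hM.fs' (DfnF.proj 2)) (DfnF.proj 0))
  apply Dfn.iff
  · exact Dfn.mem (hB.pair' (hM.nat' _) (DfnF.proj 0)) (hM.sn' (DfnF.proj 2))
  · refine Dfn.mem (hB.pair' (hM.nat' _) ?_) (hM.sn' (DfnF.proj 3))
    refine hM.im' (h := fun q w => pair (fs q) (ap (w 1) (sn q))) (DfnF.proj 0) ?_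
    exact hB.pair' (hM.fs' (DfnF.proj 0)) (hM.ap' (DfnF.proj 2) (hM.sn' (DfnF.proj 0)))

end

end

end Pool.Agent.R587
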